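import Mathlib.Analysis.InnerProductSpace.Calculus
import Mathlib.Analysis.SpecialFunctions.Log.Deriv
import Pool.Agent.MP_e1dc65_gt.k.Flow
import Pool.Agent.MP_e1dc65_gt.k.Level
import Pool.Agent.MP_e1dc65_gt.k.Bump
import Pool.Agent.MP_e1dc65_gt.t1.Base

-- ======== part 0: formerly Pool.Agent.MP_e1dc65_gt.t.MSurg
section MrgPart0

/-! PROJECT HC, part T3: sections of a flow, surgery across linear saddle points. -/

open scoped ContDiff Manifold Topology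
open Set Filter Function Module Metric Real

noncomputable section

namespace Pool.Agent.MP_e1dc65_gt

variable {E E' E'' : Type} [NormedAddCommGroup E] [NormedSpace ℝ E] [FiniteDimensional ℝ E]
  [NormedAddCommGroup E'] [NormedSpace ℝ E'] [FiniteDimensional ℝ E']
  [NormedAddCommGroup E''] [NormedSpace ℝ E''] [FiniteDimensional ℝ E'']
  {W : Mf E} {ξ : W → E} {φ : ℝ → W → W} {L : Mf E'} {L' : Mf E''} {j : L → W} {j' : L' → W}

/-- a map with a smooth left inverse between manifolds of the same dimension -/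
theorem ldAt_of_left {X : Mf E} {Y : Mf E'} {f : X → Y} {g : Y → X} {x : X}
    (hd : finrank ℝ E = finrank ℝ E') (hf : ∀ᶠ y in 𝓝 x, SmAt X Y f y) (hg : SmAt Y X g (f x))
    (e : ∀ᶠ y in 𝓝 x, g (f y) = y) : LDAt X Y f x := by
  refine ldAt_of_Df hf (fun _ h => h) (Lev.inv_of_inj hd ?_)
  have h1 := Df_comp hf.self_of_nhds hg
  rw [Df_congr (f' := fun y => y) e, Df_id] at h1
  refine Injective.of_comp (f := Df Y X g (f x)) ?_
  rw [← ContinuousLinearMap.coe_comp, ← h1]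
  exact injective_id

omit [FiniteDimensional ℝ E] [FiniteDimensional ℝ E'] in
theorem LDAt.dim_eq {X : Mf E} {Y : Mf E'} {f : X → Y} {x : X} (h : LDAt X Y f x) :
    finrank ℝ E = finrank ℝ E' := by
  obtain ⟨e, -⟩ := h.inv
  exact e.toLinearEquiv.finrank_eq

/-! ### Sections -/

/-- `j : L → W` is a section of the flow `φ` -/
def Sec (W : Mf E) (φ : ℝ → W → W) (L : Mf E') (j : L → W) : Prop :=
  OE L.cyl W (fun p => φ p.2 (j p.1)) univ

/-- the union of the orbits through the image of `j` -/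
def sat {W L : Type} (φ : ℝ → W → W) (j : L → W) : Set W := {x | ∃ z t, φ t (j z) = x}

/-- the coordinates given by a section -/
def Sec.inv (W : Mf E) (φ : ℝ → W → W) (L : Mf E') (j : L → W) : W → L.cyl :=
  invFunOn (fun p : L.cyl => φ p.2 (j p.1)) univ

omit [FiniteDimensional ℝ E] [FiniteDimensional ℝ E'] [FiniteDimensional ℝ E'']

theorem IsFlow.mem_sat (hφ : IsFlow W ξ φ) {T : Type} {j : T → W} {x : W} (t : ℝ) :
    φ t x ∈ sat φ j ↔ x ∈ sat φ j :=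
  ⟨fun ⟨z, s, e⟩ => ⟨z, -t + s, by rw [hφ.add, e, hφ.neg_left]⟩,
    fun ⟨z, s, e⟩ => ⟨z, t + s, by rw [hφ.add, e]⟩⟩

theorem IsFlow.self_mem_sat (hφ : IsFlow W ξ φ) {T : Type} (j : T → W) (z : T) : j z ∈ sat φ j :=
  ⟨z, 0, hφ.zero _⟩

theorem IsFlow.sat_neg {W T : Type} (φ : ℝ → W → W) (j : T → W) :
    sat (fun t => φ (-t)) j = sat φ j :=
  Set.ext fun _ => ⟨fun ⟨z, t, e⟩ => ⟨z, -t, e⟩, fun ⟨z, t, e⟩ => ⟨z, -t, by simpa using e⟩⟩

namespace Sec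

theorem sat_eq (φ : ℝ → W → W) (j : L → W) :
    sat φ j = (fun p : L.cyl => φ p.2 (j p.1)) '' univ :=
  Set.ext fun _ => ⟨fun ⟨z, t, e⟩ => ⟨(z, t), trivial, e⟩, fun ⟨p, _, e⟩ => ⟨p.1, p.2, e⟩⟩

theorem isOpen (h : Sec W φ L j) : IsOpen (sat φ j) := sat_eq φ j ▸ h.symm.op

theorem oe_inv (h : Sec W φ L j) : OE W L.cyl (inv W φ L j) (sat φ j) := sat_eq φ j ▸ h.symm

theorem inv_eq (h : Sec W φ L j) (z : L) (t : ℝ) : inv W φ L j (φ t (j z)) = (z, t) :=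
  OE.left h (mem_univ ((z, t) : L.cyl))

theorem flow_inv {x : W} (hx : x ∈ sat φ j) : φ (inv W φ L j x).2 (j (inv W φ L j x).1) = x := by
  rw [sat_eq] at hx
  exact invFunOn_eq (f := fun p : L.cyl => φ p.2 (j p.1)) hx

theorem uniq (h : Sec W φ L j) {z z' : L} {t t' : ℝ} (e : φ t (j z) = φ t' (j z')) :
    z = z' ∧ t = t' := Prod.mk.inj (h.inj (mem_univ (z, t)) (mem_univ (z', t')) e)

theorem sm (h : Sec W φ L j) (hφ : IsFlow W ξ φ) (z : L) : SmAt L W j z := by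
  have := SmAt.trans (Y := L.cyl) (smAt_id.pair (smAt_const (Y := vs ℝ) 0)) (h.ld (z, 0) trivial).sm
  simpa only [hφ.zero] using this

theorem sm_inv (h : Sec W φ L j) {x : W} (hx : x ∈ sat φ j) :
    SmAt W L (fun x => (inv W φ L j x).1) x := (h.oe_inv.sm x hx).trans smAt_fst

theorem sm_time (h : Sec W φ L j) {x : W} (hx : x ∈ sat φ j) :
    SmAt W (vs ℝ) (fun x => (inv W φ L j x).2) x := (h.oe_inv.sm x hx).trans smAt_snd

theorem neg (h : Sec W φ L j) : Sec W (fun t => φ (-t)) L j := by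
  have h0 : Sm L.cyl L.cyl (fun p => (p.1, -p.2)) univ := fun _ _ =>
    smAt_fst.pair (smAt_snd.vcomp (g := fun u => -u) contDiffAt_id.neg)
  exact (oe_of_inv isOpen_univ isOpen_univ h0 h0 (mapsTo_univ _ _) (mapsTo_univ _ _)
    (fun _ _ => Prod.ext rfl (neg_neg _)) fun _ _ => Prod.ext rfl (neg_neg _)).trans h
    (mapsTo_univ _ _)

/-- the map from one section to another along the orbits -/
def hol (hφ : IsFlow W ξ φ) (h : Sec W φ L j) (h' : Sec W φ L' j') :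
    OpenPartialHomeomorph L L' where
  toFun z := (inv W φ L' j' (j z)).1
  invFun z := (inv W φ L j (j' z)).1
  source := j ⁻¹' sat φ j'
  target := j' ⁻¹' sat φ j
  map_source' z hz := (hφ.mem_sat _).1 ((flow_inv hz).symm ▸ hφ.self_mem_sat j z)
  map_target' z hz := (hφ.mem_sat _).1 ((flow_inv hz).symm ▸ hφ.self_mem_sat j' z)
  left_inv' z hz := by
    have e := hφ.neg_left (inv W φ L' j' (j z)).2 (j' (inv W φ L' j' (j z)).1)
    rw [flow_inv hz] at e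
    rw [← e, h.inv_eq]
  right_inv' z hz := by
    have e := hφ.neg_left (inv W φ L j (j' z)).2 (j (inv W φ L j (j' z)).1)
    rw [flow_inv hz] at e
    rw [← e, h'.inv_eq]
  open_source := h'.isOpen.preimage (Sm.cont fun z _ => h.sm hφ z)
  open_target := h.isOpen.preimage (Sm.cont fun z _ => h'.sm hφ z)
  continuousOn_toFun z hz := ((h.sm hφ z).trans (h'.sm_inv hz)).cont.continuousWithinAt
  continuousOn_invFun z hz := ((h'.sm hφ z).trans (h.sm_inv hz)).cont.continuousWithinAt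

theorem hol_oe (hφ : IsFlow W ξ φ) (h : Sec W φ L j) (h' : Sec W φ L' j') :
    OE L L' (hol hφ h h') (hol hφ h h').source :=
  oe_of_inv (hol hφ h h').open_source (hol hφ h h').open_target
    (fun z hz => (h.sm hφ z).trans (h'.sm_inv hz)) (fun z hz => (h'.sm hφ z).trans (h.sm_inv hz))
    (hol hφ h h').mapsTo (hol hφ h h').mapsTo_symm (fun _ => (hol hφ h h').left_inv)
    fun _ => (hol hφ h h').right_inv

theorem hol_orb (hφ : IsFlow W ξ φ) (h : Sec W φ L j) (h' : Sec W φ L' j') {z : L}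
    (hz : z ∈ (hol hφ h h').source) : ∃ t, φ t (j z) = j' (hol hφ h h' z) :=
  ⟨-(inv W φ L' j' (j z)).2, by
    nth_rewrite 2 [← flow_inv hz]
    exact hφ.neg_left _ _⟩

theorem hol_eq (hφ : IsFlow W ξ φ) (h : Sec W φ L j) (h' : Sec W φ L' j') {z : L} {z' : L'}
    {s t : ℝ} (e : φ s (j z) = φ t (j' z')) : z ∈ (hol hφ h h').source ∧ hol hφ h h' z = z' := by
  have e1 : j z = φ (-s + t) (j' z') := by rw [hφ.add, ← e, hφ.neg_left]
  exact ⟨⟨z', _, e1.symm⟩, by change (inv W φ L' j' (j z)).1 = z'; rw [e1, h'.inv_eq]⟩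

end Sec

/-! ### Linear saddles -/

variable {U V : Type} [NormedAddCommGroup U] [InnerProductSpace ℝ U] [FiniteDimensional ℝ U]
  [NormedAddCommGroup V] [InnerProductSpace ℝ V] [FiniteDimensional ℝ V]

/-- `c` is a chart on `D` in which the flow is the linear saddle -/
structure Sad (W : Mf E) (φ : ℝ → W → W) (c : U × V → W) (D : Set (U × V)) (δ : ℝ) : Prop where
  oe : OE (vs (U × V)) W c D
  pos : 0 < δ
  sub : ∀ x y, ‖x‖ ≤ δ → ‖y‖ ≤ δ → (x, y) ∈ D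
  lin : ∀ x y t, (∀ s ∈ uIcc 0 t, (exp (-s) • x, exp s • y) ∈ D) →
    φ t (c (x, y)) = c (exp (-t) • x, exp t • y)

/-- a chart in which the field is `(-x, y)` -/
theorem sad_of_field (hφ : IsFlow W ξ φ) {c : U × V → W} {D : Set (U × V)} {δ : ℝ}
    (hc : OE (vs (U × V)) W c D) (h0 : 0 < δ) (hs : ∀ x y, ‖x‖ ≤ δ → ‖y‖ ≤ δ → (x, y) ∈ D)
    (hξ : ∀ p ∈ D, Df (vs (U × V)) W c p (-p.1, p.2) = ξ (c p)) : Sad W φ c D δ := by
  refine ⟨hc, h0, hs, fun x y t h => ?_⟩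
  have := hφ.eq_of_zero (c := fun s => c (exp (-s) • x, exp s • y)) (t := t) fun s hs => by
    refine IC.map (X := vs (U × V)) (v := fun p => (-p.1, p.2)) (ic_vs.2 ?_) (hc.sm _ (h s hs))
      (hξ _ (h s hs))
    have h1 := ((hasDerivAt_neg s).exp.smul_const x).prodMk ((hasDerivAt_exp s).smul_const y)
    rwa [mul_neg, mul_one, neg_smul] at h1
  simpa using this

namespace Sad

variable {c : U × V → W} {D : Set (U × V)} {δ : ℝ}

theorem swap (h : Sad W φ c D δ) :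
    Sad W (fun t => φ (-t)) (fun p : V × U => c p.swap) (Prod.swap ⁻¹' D) δ := by
  have hO : IsOpen (Prod.swap ⁻¹' D : Set (V × U)) := h.oe.op.preimage continuous_swap
  refine ⟨OE.trans (Y := vs (U × V)) ⟨hO, fun p _ =>
    ldAt_cle (ContinuousLinearEquiv.prodComm ℝ V U) p, Prod.swap_injective.injOn⟩ h.oe
    fun _ hp => hp, h.pos, fun x y hx hy => h.sub y x hy hx, fun x y t ht => ?_⟩
  have := h.lin y x (-t) fun s hs => by
    have := ht (-s) (by rw [mem_uIcc] at hs ⊢; rcases hs with hs | hs <;> [right; left] <;>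
      constructor <;> linarith [hs.1, hs.2])
    rwa [neg_neg] at this
  rwa [neg_neg] at this

theorem near (h : Sad W φ c D δ) {p : U × V} (hp : p ∈ D) : ∀ᶠ q in 𝓝 (p, (0 : ℝ)),
    (exp (-q.2) • q.1.1, exp q.2 • q.1.2) ∈ D ∧
      φ q.2 (c q.1) = c (exp (-q.2) • q.1.1, exp q.2 • q.1.2) := by
  have h1 : (fun q : (U × V) × ℝ => (exp (-q.2) • q.1.1, exp q.2 • q.1.2)) ⁻¹' D ∈ 𝓝 (p, 0) :=
    ContinuousAt.preimage_mem_nhds (by fun_prop) (h.oe.op.mem_nhds (by simpa using hp))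
  obtain ⟨A, hA, B, hB, hAB⟩ := mem_nhds_prod_iff.1 h1
  obtain ⟨ε, hε, hb⟩ := Metric.mem_nhds_iff.1 hB
  filter_upwards [prod_mem_nhds hA (ball_mem_nhds 0 hε)] with q hq
  exact ⟨hAB ⟨hq.1, hb hq.2⟩, h.lin q.1.1 q.1.2 q.2 fun s hs => hAB (mk_mem_prod hq.1
    (hb ((convex_ball 0 ε).ordConnected.uIcc_subset (mem_ball_self hε) hq.2 hs)))⟩

/-- the flow in the closed polydisc -/
theorem flow (h : Sad W φ c D δ) {x : U} {y : V} {t : ℝ} (ht : 0 ≤ t) (hx : ‖x‖ ≤ δ)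
    (hy : exp t * ‖y‖ ≤ δ) : φ t (c (x, y)) = c (exp (-t) • x, exp t • y) := by
  refine h.lin x y t fun s hs => h.sub _ _ ?_ ?_ <;> rw [uIcc_of_le ht] at hs <;>
    rw [norm_smul, norm_of_nonneg (exp_pos _).le]
  · exact (mul_le_of_le_one_left (norm_nonneg _) (exp_le_one_iff.2 (by linarith [hs.1]))).trans hx
  · exact (mul_le_mul_of_nonneg_right (exp_le_exp.2 hs.2) (norm_nonneg _)).trans hy

theorem flow0 (h : Sad W φ c D δ) {x : U} {t : ℝ} (ht : 0 ≤ t) (hx : ‖x‖ ≤ δ) :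
    φ t (c (x, 0)) = c (exp (-t) • x, 0) := by
  simpa using h.flow (y := 0) ht hx (by simpa using h.pos.le)

theorem zero_mem (h : Sad W φ c D δ) : (0 : U × V) ∈ D :=
  h.sub 0 0 (by simpa using h.pos.le) (by simpa using h.pos.le)

theorem tendsto (h : Sad W φ c D δ) {x : U} (hx : ‖x‖ ≤ δ) :
    Tendsto (fun t => φ t (c (x, 0))) atTop (𝓝 (c 0)) := by
  have h1 : Tendsto (fun t => (exp (-t) • x, (0 : V))) atTop (𝓝 0) := by
    have := (tendsto_exp_neg_atTop_nhds_zero.smul_const x).prodMk_nhds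
      (tendsto_const_nhds (x := (0 : V)))
    rwa [zero_smul] at this
  refine ((h.oe.sm _ h.zero_mem).cont.tendsto.comp h1).congr' ?_
  filter_upwards [eventually_ge_atTop 0] with t ht using (h.flow0 ht hx).symm

theorem norm_sph (h : Sad W φ c D δ) (θ : sphere (0 : U) 1) : ‖δ • (θ : U)‖ = δ := by
  rw [norm_smul, norm_eq_of_mem_sphere, mul_one, norm_of_nonneg h.pos.le]

/-- passage through the saddle -/
theorem pass (h : Sad W φ c D δ) (θ : sphere (0 : U) 1) (η : sphere (0 : V) 1) {r : ℝ}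
    (h0 : 0 < r) (h1 : r ≤ δ) :
    φ (log (δ / r)) (c (δ • (θ : U), r • (η : V))) = c (r • (θ : U), δ • (η : V)) := by
  have hδ := h.pos
  have e := exp_log (div_pos hδ h0)
  rw [h.flow (log_nonneg ((one_le_div h0).2 h1)) (h.norm_sph θ).le, exp_neg, e, smul_smul,
    smul_smul, div_mul_cancel₀ _ h0.ne', inv_div, div_mul_cancel₀ _ hδ.ne']
  rw [e, norm_smul, norm_eq_of_mem_sphere, mul_one, norm_of_nonneg h0.le,
    div_mul_cancel₀ _ h0.ne']

theorem inj (hφ : IsFlow W ξ φ) (h : Sad W φ c D δ) {x x' : U} (hx : ‖x‖ = δ) (hx' : ‖x'‖ = δ)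
    {t : ℝ} (e : φ t (c (x, 0)) = c (x', 0)) : x = x' := by
  have key : ∀ {x x' : U} {t : ℝ}, ‖x‖ = δ → ‖x'‖ = δ → 0 ≤ t → φ t (c (x, 0)) = c (x', 0) →
      x = x' := by
    intro x x' t hx hx' ht e
    have h0 : ‖(0 : V)‖ ≤ δ := by simpa using h.pos.le
    have n : ‖exp (-t) • x‖ = exp (-t) * δ := by rw [norm_smul, norm_of_nonneg (exp_pos _).le, hx]
    rw [h.flow0 ht hx.le] at e
    have e1 := (Prod.mk.inj (h.oe.inj (h.sub _ _ (n.le.trans (mul_le_of_le_one_left h.pos.le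
      (exp_le_one_iff.2 (by linarith)))) h0) (h.sub _ _ hx'.le h0) e)).1
    rw [e1, hx'] at n
    rw [← e1, (mul_eq_right₀ h.pos.ne').1 n.symm, one_smul]
  rcases le_total 0 t with ht | ht
  · exact key hx hx' ht e
  · exact (key hx' hx (neg_nonneg.2 ht) (by rw [← e, hφ.neg_left])).symm

theorem fixed (h : Sad W φ c D δ) (t : ℝ) : φ t (c 0) = c 0 := by
  have := h.lin 0 0 t fun _ _ => by rw [smul_zero, smul_zero]; exact h.zero_mem
  rwa [smul_zero, smul_zero] at this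

theorem not_fixed (h : Sad W φ c D δ) {p : U × V} (hp : p ∈ D) (e : ∀ t, φ t (c p) = c p) :
    p = 0 := by
  have h1 : ContinuousAt (fun t : ℝ => (p, t)) 0 := by fun_prop
  obtain ⟨t, ⟨h2, h3⟩, h4⟩ := (((h1.eventually (h.near hp)).filter_mono
    (nhdsWithin_le_nhds (s := {0}ᶜ))).and self_mem_nhdsWithin).exists
  obtain ⟨h5, h6⟩ := Prod.mk.inj (h.oe.inj hp h2 ((e t).symm.trans h3))
  have k : ∀ {X : Type} [AddCommGroup X] [Module ℝ X] {x : X} {s : ℝ}, s ≠ 0 → x = exp s • x →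
      x = 0 := fun {X} _ _ {x s} hs hx => by
    have : (exp s - 1) • x = 0 := by rw [sub_smul, ← hx, one_smul, sub_self]
    exact (smul_eq_zero.1 this).resolve_left fun h => hs (exp_eq_one_iff s |>.1 (by linarith))
  exact Prod.ext (k (neg_ne_zero.2 h4) h5) (k h4 h6)

/-- points of the local stable disc lie on the orbit of the stable sphere -/
theorem back (hφ : IsFlow W ξ φ) (h : Sad W φ c D δ) {x : U} (h0 : x ≠ 0) (hx : ‖x‖ ≤ δ) :
    ∃ u t, ‖u‖ = δ ∧ φ t (c (x, 0)) = c (u, 0) := by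
  have h1 : 0 < ‖x‖ := norm_pos_iff.2 h0
  have h2 := div_pos h.pos h1
  have n : ‖(δ / ‖x‖) • x‖ = δ := by
    rw [norm_smul, norm_of_nonneg h2.le, div_mul_cancel₀ _ h1.ne']
  refine ⟨_, -log (δ / ‖x‖), n, ?_⟩
  have := h.flow0 (log_nonneg ((one_le_div h1).2 hx)) n.le
  rw [exp_neg, exp_log h2, inv_smul_smul₀ h2.ne'] at this
  rw [← this, hφ.neg_left]

/-- an orbit whose limit points are saddles tends to a saddle -/
theorem dich {ι : Type} {c : ι → U × V → W} {D : ι → Set (U × V)} (hφ : IsFlow W ξ φ)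
    (h : ∀ i, Sad W φ (c i) (D i) δ) {x : W} (h1 : ∃ p, MapClusterPt p atTop fun t => φ t x)
    (h2 : ∀ p, (MapClusterPt p atTop fun t => φ t x) → ∃ i, p = c i 0) :
    ∃ i, x = c i 0 ∨ ∃ u t, ‖u‖ = δ ∧ φ t x = c i (u, 0) := by
  obtain ⟨p, hp⟩ := h1
  obtain ⟨i, rfl⟩ := h2 p hp
  have hδ := (h i).pos
  by_contra hn
  have s1 : closedBall (0 : U) δ ×ˢ sphere (0 : V) δ ⊆ D i := fun p hp =>
    (h i).sub _ _ (by simpa using hp.1) (mem_sphere_zero_iff_norm.1 hp.2).le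
  have hC : IsCompact (c i '' (closedBall (0 : U) δ ×ˢ sphere (0 : V) δ)) :=
    ((isCompact_closedBall 0 δ).prod (isCompact_sphere 0 δ)).image_of_continuousOn
      ((h i).oe.sm.contOn.mono s1)
  have hB : c i '' (ball (0 : U) δ ×ˢ ball (0 : V) δ) ∈ 𝓝 (c i 0) :=
    ((h i).oe.ld _ (h i).zero_mem).image_mem (prod_mem_nhds (ball_mem_nhds _ hδ) (ball_mem_nhds _ hδ))
  obtain ⟨_, ⟨q, hq, rfl⟩, hq'⟩ := hC.exists_mapClusterPt_of_frequently (l := atTop)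
    (f := fun t => φ t x) (frequently_atTop.2 fun T => by
      obtain ⟨t, ht, ⟨u, v⟩, ⟨hu, hv⟩, e⟩ := frequently_atTop.1 (hp.frequently hB) T
      rw [mem_ball_zero_iff] at hu hv
      rcases eq_or_ne v 0 with rfl | h3
      · refine (hn ⟨i, ?_⟩).elim
        rcases eq_or_ne u 0 with rfl | h4
        · exact Or.inl (by rw [← hφ.neg_left t x, ← e]; exact (h i).fixed _)
        · obtain ⟨u', s, k1, k2⟩ := (h i).back hφ h4 hu.le
          exact Or.inr ⟨u', s + t, k1, by rw [hφ.add, ← e, k2]⟩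
      · have k1 : 0 < ‖v‖ := norm_pos_iff.2 h3
        have k2 := log_nonneg ((one_le_div k1).2 hv.le)
        have k3 : exp (log (δ / ‖v‖)) * ‖v‖ = δ := by
          rw [exp_log (div_pos hδ k1), div_mul_cancel₀ _ k1.ne']
        refine ⟨log (δ / ‖v‖) + t, by linarith, _, ⟨?_, ?_⟩, by
          rw [hφ.add, ← e, (h i).flow k2 hu.le k3.le]⟩
        · rw [mem_closedBall_zero_iff, norm_smul, norm_of_nonneg (exp_pos _).le]
          exact (mul_le_of_le_one_left (norm_nonneg _) (exp_le_one_iff.2 (by linarith))).trans hu.le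
        · rw [mem_sphere_zero_iff_norm, norm_smul, norm_of_nonneg (exp_pos _).le, k3])
  obtain ⟨k, hk⟩ := h2 _ hq'
  have := (h i).not_fixed (s1 hq) fun t => by rw [hk, (h k).fixed]
  have h5 := mem_sphere_zero_iff_norm.1 hq.2
  rw [this, Prod.snd_zero, norm_zero] at h5
  exact hδ.ne h5

variable [FiniteDimensional ℝ E']

/-- the tube round the stable sphere, read in a section -/
theorem tube [Nontrivial U] (hφ : IsFlow W ξ φ) (hj : Sec W φ L j) (h : Sad W φ c D δ)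
    (hs : ∀ x, ‖x‖ = δ → c (x, 0) ∈ sat φ j) {O : Set L} (hO : IsOpen O)
    (hO' : ∀ z x t, ‖x‖ = δ → φ t (j z) = c (x, 0) → z ∈ O) {ε : ℝ} (hε : 0 < ε) :
    ∃ a : OpenPartialHomeomorph (sphere (0 : U) 1 × V) L, (∀ θ, (θ, 0) ∈ a.source) ∧
      (∀ p ∈ a.source, ‖p.2‖ < ε ∧ ∃ t, φ t (j (a p)) = c (δ • (p.1 : U), p.2)) ∧ a.target ⊆ O ∧
      (∃ f : U × V → L, ∀ p ∈ a.source,
        SmAt (vs (U × V)) L f (p.1, p.2) ∧ f (p.1, p.2) = a p) ∧
      ∀ z ∈ a.target, SmAt L (vs (U × V)) (fun x => (((a.symm x).1 : U), (a.symm x).2)) z := by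
  classical
  have hδ := h.pos
  have h0 : ‖(0 : V)‖ ≤ δ := by simpa using hδ.le
  obtain ⟨g, hg⟩ : ∃ g : U × V → U × V, g = fun q => ((δ * ‖q.1‖⁻¹) • q.1, q.2) := ⟨_, rfl⟩
  obtain ⟨A, hA⟩ : ∃ A : U × V → L.cyl,
    A = fun q => ((Sec.inv W φ L j (c (g q))).1, -log ‖q.1‖) := ⟨_, rfl⟩
  have g1 : ∀ x y, ‖x‖ = 1 → g (x, y) = (δ • x, y) := fun x y hx => by simp [hg, hx]
  have n1 : ∀ x : U, ‖x‖ = 1 → ‖δ • x‖ = δ := fun x hx => h.norm_sph ⟨x, by simpa using hx⟩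
  have sn : ∀ q : U × V, q.1 ≠ 0 → ContDiffAt ℝ ∞ (fun q : U × V => ‖q.1‖) q := fun q hq =>
    contDiffAt_fst.norm ℝ hq
  have sg : ∀ q : U × V, q.1 ≠ 0 → ContDiffAt ℝ ∞ g q := fun q hq => hg ▸
    ((contDiffAt_const.mul ((sn q hq).inv (norm_ne_zero_iff.2 hq))).smul contDiffAt_fst).prodMk
      contDiffAt_snd
  have sc : ∀ q : U × V, q.1 ≠ 0 → g q ∈ D → SmAt (vs (U × V)) W (fun q => c (g q)) q :=
    fun q h1 h2 => SmAt.trans (Y := vs (U × V)) (smAt_vs.2 (sg q h1)) (h.oe.sm _ h2)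
  have ev : ∀ x : U, ‖x‖ = 1 → ∀ᶠ q in 𝓝 (x, (0 : V)), q.1 ≠ 0 ∧ g q ∈ D ∧ c (g q) ∈ sat φ j := by
    intro x hx
    have a1 : x ≠ 0 := norm_ne_zero_iff.1 (by simp [hx])
    have a2 : g (x, 0) ∈ D := g1 x 0 hx ▸ h.sub _ _ (n1 x hx).le h0
    exact (continuous_fst.continuousAt.eventually_ne a1).and (Eventually.and
      ((sg (x, 0) a1).continuousAt.preimage_mem_nhds (h.oe.op.mem_nhds a2))
      ((sc (x, 0) a1 a2).cont.preimage_mem_nhds (hj.isOpen.mem_nhds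
        (by rw [g1 x 0 hx]; exact hs _ (n1 x hx)))))
  have sA : ∀ q : U × V, q.1 ≠ 0 ∧ g q ∈ D ∧ c (g q) ∈ sat φ j → SmAt (vs (U × V)) L.cyl A q :=
    fun q hq => hA ▸ ((sc q hq.1 hq.2.1).trans (hj.sm_inv hq.2.2)).pair (Z := vs ℝ)
      (smAt_vs.2 ((sn q hq.1).log (norm_ne_zero_iff.2 hq.1)).neg)
  have ld : ∀ q ∈ sphere (0 : U) 1 ×ˢ ({0} : Set V), LDAt (vs (U × V)) L.cyl A q := by
    rintro ⟨x, y⟩ ⟨hx, rfl : y = 0⟩
    rw [mem_sphere_zero_iff_norm] at hx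
    obtain ⟨a1, a2, a3⟩ := (ev x hx).self_of_nhds
    obtain ⟨t₀, ht₀⟩ : ∃ t, t = (Sec.inv W φ L j (c (g (x, 0)))).2 := ⟨_, rfl⟩
    obtain ⟨k, hk⟩ : ∃ k : L.cyl → U × V, k = fun p => invFunOn c D (φ t₀ (j p.1)) := ⟨_, rfl⟩
    have e0 : φ t₀ (j (A (x, 0)).1) = c (g (x, 0)) := by rw [hA, ht₀]; exact Sec.flow_inv a3
    have sk : SmAt L.cyl (vs (U × V)) k (A (x, 0)) := hk ▸
      ((smAt_fst.trans (hj.sm hφ _)).trans (hφ.smAt_time t₀ _)).trans
        (h.oe.symm.sm _ ⟨_, a2, e0.symm⟩)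
    have k0 : (k (A (x, 0))).1 ≠ 0 := by
      rw [hk]
      dsimp only
      rw [e0, h.oe.left a2, g1 x 0 hx]
      exact smul_ne_zero hδ.ne' a1
    refine ldAt_of_left (X := vs (U × V)) (Y := L.cyl) (g := fun p : L.cyl => ((exp (-p.2) * ‖(k p).1‖⁻¹) • (k p).1,
      (‖(k p).1‖ / δ) • (k p).2)) ((h.oe.ld _ a2).dim_eq.trans
      (hj.ld (A (x, 0)) trivial).dim_eq.symm) ((ev x hx).mono sA) ?_ ?_
    · refine (SmAt.vpair smAt_snd sk).vcomp (g := fun r : ℝ × U × V =>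
        ((exp (-r.1) * ‖r.2.1‖⁻¹) • r.2.1, (‖r.2.1‖ / δ) • r.2.2)) ?_
      have b1 : ContDiffAt ℝ ∞ (fun r : ℝ × U × V => ‖r.2.1‖) ((A (x, 0)).2, k (A (x, 0))) :=
        contDiffAt_snd.fst.norm ℝ k0
      exact ((contDiffAt_fst.neg.exp.mul (b1.inv (norm_ne_zero_iff.2 k0))).smul
        contDiffAt_snd.fst).prodMk ((b1.div_const δ).smul contDiffAt_snd.snd)
    · have c1 : ContinuousAt (fun q => (g q, t₀ - (Sec.inv W φ L j (c (g q))).2)) (x, 0) :=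
        (sg _ a1).continuousAt.prodMk
          (continuousAt_const.sub ((sc _ a1 a2).trans (hj.sm_time a3)).cont)
      have c2 := h.near a2
      rw [show ((g (x, 0), 0) : (U × V) × ℝ) =
        (g (x, 0), t₀ - (Sec.inv W φ L j (c (g (x, 0)))).2) by rw [ht₀, sub_self]] at c2
      filter_upwards [ev x hx, c1.eventually c2] with q ⟨b1, _, b3⟩ ⟨b4, b5⟩
      obtain ⟨u, hu⟩ : ∃ u, u = t₀ - (Sec.inv W φ L j (c (g q))).2 := ⟨_, rfl⟩
      rw [← hu] at b4 b5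
      have b6 : k (A q) = (exp (-u) • (g q).1, exp u • (g q).2) := by
        rw [← h.oe.left b4, ← b5, ← Sec.flow_inv b3, ← hφ.add, hu, sub_add_cancel, hk, hA]
      have b7 : 0 < ‖q.1‖ := norm_pos_iff.2 b1
      have b8 : ‖exp (-u) • (g q).1‖ = exp (-u) * δ := by
        rw [hg, norm_smul, norm_smul, norm_of_nonneg (exp_pos _).le,
          norm_of_nonneg (by positivity), inv_mul_cancel_right₀ b7.ne']
      rw [b6, b8, hA, hg]
      dsimp only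
      rw [neg_neg, exp_log b7, smul_smul, smul_smul, smul_smul, exp_neg]
      have b9 := exp_pos u
      refine Prod.ext ?_ ?_
      · exact (congrArg (· • q.1) (by field_simp)).trans (one_smul ℝ _)
      · exact (congrArg (· • q.2) (by field_simp)).trans (one_smul ℝ _)
  have orb : ∀ x y, ‖x‖ = 1 → c (g (x, y)) ∈ sat φ j →
      ∃ t, φ t (j (A (x, y)).1) = c (δ • x, y) := fun x y hx hq =>
    ⟨_, by rw [← g1 x y hx, hA]; exact Sec.flow_inv hq⟩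
  have inj : InjOn A (sphere (0 : U) 1 ×ˢ ({0} : Set V)) := by
    rintro ⟨x, y⟩ ⟨hx, rfl : y = 0⟩ ⟨x', y⟩ ⟨hx', rfl : y = 0⟩ e
    rw [mem_sphere_zero_iff_norm] at hx hx'
    obtain ⟨t, ht⟩ := orb x 0 hx (ev x hx).self_of_nhds.2.2
    obtain ⟨t', ht'⟩ := orb x' 0 hx' (ev x' hx').self_of_nhds.2.2
    have := h.inj hφ (n1 x hx) (n1 x' hx') (t := t' + -t)
      (by rw [hφ.add, ← ht, hφ.neg_left, e, ht'])
    rw [smul_right_injective U hδ.ne' this]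
  obtain ⟨N₀, hN₀, hA₀⟩ := injNear _ _ (vs (U × V)) L.cyl A _
    ((isCompact_sphere 0 1).prod isCompact_singleton) ld inj
  obtain ⟨N, n1', n2, n3⟩ : ∃ N : Set (U × V), IsOpen N ∧
      (∀ x : U, ‖x‖ = 1 → (x, 0) ∈ N) ∧ ∀ q ∈ N, q ∈ N₀ ∧ (q.1 ≠ 0 ∧ g q ∈ D ∧
        c (g q) ∈ sat φ j) ∧ (A q).1 ∈ O ∧ ‖q.2‖ < ε := by
    refine ⟨interior {q | q ∈ N₀ ∧ (q.1 ≠ 0 ∧ g q ∈ D ∧ c (g q) ∈ sat φ j) ∧ (A q).1 ∈ O ∧
      ‖q.2‖ < ε}, isOpen_interior, fun x hx => mem_interior_iff_mem_nhds.2 ?_,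
      fun q hq => (interior_subset hq :)⟩
    have a0 := (ev x hx).self_of_nhds
    obtain ⟨t, ht⟩ := orb x 0 hx a0.2.2
    exact Eventually.and (hA₀.op.mem_nhds (hN₀ ⟨by simpa using hx, rfl⟩)) ((ev x hx).and
      (Eventually.and (((sA _ a0).trans smAt_fst).cont.preimage_mem_nhds
        (hO.mem_nhds (hO' _ _ t (n1 x hx) ht)))
      (continuous_snd.norm.continuousAt.eventually_lt continuousAt_const (by simpa using hε))))
  have hN : OE (vs (U × V)) L.cyl A N := hA₀.mono n1' fun q hq => (n3 q hq).1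
  obtain ⟨θ₀, hθ₀⟩ : (sphere (0 : U) 1).Nonempty := NormedSpace.sphere_nonempty.2 zero_le_one
  obtain ⟨H, hH⟩ : ∃ H : L → U × V, H = fun z => invFunOn A N (z, 0) := ⟨_, rfl⟩
  have A2 : ∀ p : sphere (0 : U) 1 × V, A (p.1, p.2) = ((A (p.1, p.2)).1, 0) := fun p =>
    Prod.ext rfl (by simp [hA])
  have H1 : ∀ z : L, (z, 0) ∈ A '' N → H z ∈ N ∧ A (H z) = (z, 0) ∧ (H z).1 ∈ sphere (0 : U) 1 := by
    intro z hz
    have a1 : H z ∈ N := hH ▸ invFunOn_mem hz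
    have a2 : A (H z) = (z, 0) := hH ▸ invFunOn_eq hz
    refine ⟨a1, a2, mem_sphere_zero_iff_norm.2 ?_⟩
    have a3 := congrArg Prod.snd a2
    rw [hA] at a3
    rw [← exp_log (norm_pos_iff.2 (n3 _ a1).2.1.1), neg_eq_zero.1 a3, exp_zero]
  have H2 : ∀ z : L, (z, 0) ∈ A '' N → SmAt L (vs (U × V)) H z := fun z hz => hH ▸
    SmAt.trans (Y := L.cyl) (smAt_id.pair (smAt_const (Y := vs ℝ) 0)) (hN.symm.sm _ hz)
  have oT : IsOpen {z : L | (z, (0 : ℝ)) ∈ A '' N} := hN.symm.op.preimage (by fun_prop)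
  obtain ⟨b, hb⟩ : ∃ b : L → sphere (0 : U) 1 × V, ∀ z : L, (z, 0) ∈ A '' N →
      (((b z).1 : U), (b z).2) = H z :=
    ⟨fun z => (if h : (H z).1 ∈ sphere (0 : U) 1 then ⟨_, h⟩ else ⟨θ₀, hθ₀⟩, (H z).2),
      fun z hz => by simp only [dif_pos (H1 z hz).2.2]⟩
  have hb' : ∀ z : L, (z, 0) ∈ A '' N →
      SmAt L (vs (U × V)) (fun z => (((b z).1 : U), (b z).2)) z :=
    fun z hz => (H2 z hz).congr' (mem_of_superset (oT.mem_nhds hz) hb)
  have emb : Topology.IsEmbedding fun p : sphere (0 : U) 1 × V => ((p.1 : U), p.2) :=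
    Topology.IsEmbedding.subtypeVal.prodMap Topology.IsEmbedding.id
  refine ⟨{
      toFun := fun p => (A (p.1, p.2)).1
      invFun := b
      source := {p | ((p.1 : U), p.2) ∈ N}
      target := {z | (z, 0) ∈ A '' N}
      map_source' := fun p hp => ⟨_, hp, A2 p⟩
      map_target' := fun z hz => show _ ∈ N from (hb z hz).symm ▸ (H1 z hz).1
      left_inv' := fun p hp => emb.injective (by
        dsimp only
        rw [hb _ ⟨_, hp, A2 p⟩, hH]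
        dsimp only
        rw [← A2 p, hN.left hp])
      right_inv' := fun z hz => by rw [hb z hz, (H1 z hz).2.1]
      open_source := n1'.preimage emb.continuous
      open_target := oT
      continuousOn_toFun := fun p hp => (ContinuousAt.comp (g := fun q => (A q).1)
        (f := fun p : sphere (0 : U) 1 × V => ((p.1 : U), p.2))
        ((hN.sm _ hp).trans smAt_fst).cont emb.continuous.continuousAt).continuousWithinAt
      continuousOn_invFun := fun z hz =>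
        (emb.isInducing.continuousAt_iff.2 (hb' z hz).cont).continuousWithinAt },
    fun θ => n2 _ (norm_eq_of_mem_sphere θ), fun p hp => ⟨(n3 _ hp).2.2.2,
      orb _ _ (norm_eq_of_mem_sphere p.1) (n3 _ hp).2.1.2.2⟩, fun z hz => ?_,
    ⟨fun q => (A q).1, fun p hp => ⟨(hN.sm _ hp).trans smAt_fst, rfl⟩⟩, hb'⟩
  have := (n3 _ (H1 z hz).1).2.2.1
  rwa [(H1 z hz).2.1] at this

end Sad

/-- the surgery from the section `L` to the section `L'` across the saddles `c i` -/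
structure FlowSurg (W : Mf E) (φ : ℝ → W → W) (L : Mf E') (j : L → W) (L' : Mf E'') (j' : L' → W)
    {ι : Type} (c : ι → U × V → W) (δ ε : ℝ) (σ : T1.Surg ι U V L L') : Prop where
  smA : σ.A.Smooth E'
  smB : σ.B.Smooth E''
  oe : OE L L' σ.φ σ.φ.source
  orb : ∀ z ∈ σ.φ.source, ∃ t, φ t (j z) = j' (σ.φ z)
  eq : ∀ z z' s t, φ s (j z) = φ t (j' z') → z ∈ σ.φ.source ∧ σ.φ z = z'
  tubeA : ∀ i, ∀ p ∈ (σ.A.a i).source,
    ‖p.2‖ < ε ∧ ∃ t, φ t (j (σ.A.a i p)) = c i (δ • (p.1 : U), p.2)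
  tubeB : ∀ i, ∀ p ∈ (σ.B.a i).source,
    ‖p.2‖ < ε ∧ ∃ t, φ t (j' (σ.B.a i p)) = c i (p.2, δ • (p.1 : V))
  coreA : ∀ i z, z ∈ σ.A.core i ↔ ∃ x t, ‖x‖ = δ ∧ φ t (j z) = c i (x, 0)
  coreB : ∀ i z, z ∈ σ.B.core i ↔ ∃ y t, ‖y‖ = δ ∧ φ t (j' z) = c i (0, y)

variable {ι : Type} {c : ι → U × V → W} {D : ι → Set (U × V)} {δ : ℝ}

/-- the family of tubes round the stable spheres -/
theorem sad_tubes [FiniteDimensional ℝ E'] [Nontrivial U] (hφ : IsFlow W ξ φ) (hj : Sec W φ L j)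
    (h : ∀ i, Sad W φ (c i) (D i) δ) (h0 : Injective fun i => c i 0)
    (hs : ∀ i x, ‖x‖ = δ → c i (x, 0) ∈ sat φ j) {O : ι → Set L} (hO : ∀ i, IsOpen (O i))
    (hO' : ∀ i z x t, ‖x‖ = δ → φ t (j z) = c i (x, 0) → z ∈ O i) {ε : ℝ} (hε : 0 < ε) :
    ∃ T : T1.Tubes ι U V L, T.Smooth E' ∧ (∀ i, (T.a i).target ⊆ O i) ∧
      (∀ i, ∀ p ∈ (T.a i).source, ‖p.2‖ < ε ∧ ∃ t, φ t (j (T.a i p)) = c i (δ • (p.1 : U), p.2)) ∧
      (∀ i z, z ∈ T.core i ↔ ∃ x t, ‖x‖ = δ ∧ φ t (j z) = c i (x, 0)) ∧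
      ∀ i, ∃ r > (0 : ℝ), ∀ θ v, ‖v‖ < r → (θ, v) ∈ (T.a i).source := by
  choose a a1 a2 a3 a4 a5 using fun i => (h i).tube hφ hj (hs i) (hO i) (hO' i) hε
  refine ⟨⟨a, a1, fun i k θ θ' e => h0 ?_⟩,
    fun i => ⟨a4 i, fun z hz => (a5 i z hz).contMDiffWithinAt⟩, a3, a2, fun i z => ⟨?_, ?_⟩,
    fun i => ?_⟩
  · obtain ⟨-, t, ht⟩ := a2 i _ (a1 i θ)
    obtain ⟨-, s, hs⟩ := a2 k _ (a1 k θ')
    refine tendsto_nhds_unique (((h i).tendsto ((h i).norm_sph θ).le).comp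
      (tendsto_atTop_add_const_right _ (s + -t) tendsto_id)) ?_
    refine ((h k).tendsto ((h k).norm_sph θ').le).congr fun u => ?_
    rw [← hs, ← e, comp_apply, hφ.add, hφ.add, ← ht, hφ.neg_left]
    rfl
  · rintro ⟨θ, rfl⟩
    obtain ⟨-, t, ht⟩ := a2 i _ (a1 i θ)
    exact ⟨_, t, (h i).norm_sph θ, ht⟩
  · rintro ⟨x, t, hx, e⟩
    have hδ := (h i).pos
    have n : δ⁻¹ • x ∈ sphere (0 : U) 1 := by
      rw [mem_sphere_zero_iff_norm, norm_smul, hx, norm_of_nonneg (inv_pos.2 hδ).le,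
        inv_mul_cancel₀ hδ.ne']
    obtain ⟨-, s, hs⟩ := a2 i _ (a1 i ⟨_, n⟩)
    rw [smul_inv_smul₀ hδ.ne'] at hs
    exact ⟨⟨_, n⟩, (hj.uniq (hs.trans e.symm)).1⟩
  · have : ∀ᶠ v in 𝓝 (0 : V), ∀ θ ∈ univ, (θ, v) ∈ (a i).source :=
      isCompact_univ.eventually_forall_of_forall_eventually fun θ _ =>
        (continuous_swap.tendsto ((0 : V), θ)).eventually ((a i).open_source.mem_nhds (a1 i θ))
    obtain ⟨r, hr, hb⟩ := Metric.eventually_nhds_iff.1 this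
    exact ⟨r, hr, fun θ v hv => hb (by simpa using hv) θ trivial⟩

/-- MSURG: two sections of a flow differ by surgery on the saddles between them -/
theorem msurg [FiniteDimensional ℝ E'] [FiniteDimensional ℝ E''] [Nontrivial U] [Nontrivial V]
    (hφ : IsFlow W ξ φ) (hj : Sec W φ L j) (hj' : Sec W φ L' j')
    (h : ∀ i, Sad W φ (c i) (D i) δ) (h0 : Injective fun i => c i 0)
    (hA : ∀ i x, ‖x‖ = δ → c i (x, 0) ∈ sat φ j ∧ c i (x, 0) ∉ sat φ j')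
    (hB : ∀ i y, ‖y‖ = δ → c i (0, y) ∈ sat φ j' ∧ c i (0, y) ∉ sat φ j)
    (fw : ∀ z, j z ∈ sat φ j' ∨ ∃ i x t, ‖x‖ = δ ∧ φ t (j z) = c i (x, 0))
    (bw : ∀ z, j' z ∈ sat φ j ∨ ∃ i y t, ‖y‖ = δ ∧ φ t (j' z) = c i (0, y))
    {O : ι → Set L} {O' : ι → Set L'} (hO : ∀ i, IsOpen (O i)) (hO' : ∀ i, IsOpen (O' i))
    (sO : ∀ i z x t, ‖x‖ = δ → φ t (j z) = c i (x, 0) → z ∈ O i)
    (sO' : ∀ i z y t, ‖y‖ = δ → φ t (j' z) = c i (0, y) → z ∈ O' i) {ε : ℝ} (hε : 0 < ε) :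
    ∃ σ : T1.Surg ι U V L L', FlowSurg W φ L j L' j' c δ ε σ ∧
      (∀ i, (σ.A.a i).target ⊆ O i) ∧ ∀ i, (σ.B.a i).target ⊆ O' i := by
  obtain ⟨A, a1, a2, a3, a4, a5⟩ := sad_tubes hφ hj h h0 (fun i x hx => (hA i x hx).1) hO sO hε
  obtain ⟨B, b1, b2, b3, b4, b5⟩ := sad_tubes (c := fun i (p : V × U) => c i p.swap) hφ.neg hj'.neg
    (fun i => (h i).swap) h0 (fun i y hy => (IsFlow.sat_neg φ j').symm ▸ (hB i y hy).1) hO'
    (fun i z y t => sO' i z y (-t)) hε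
  have b4' : ∀ i z, z ∈ B.core i ↔ ∃ y t, ‖y‖ = δ ∧ φ t (j' z) = c i (0, y) := fun i z =>
    (b4 i z).trans ⟨fun ⟨y, t, k⟩ => ⟨y, -t, k⟩, fun ⟨y, t, k⟩ => ⟨y, -t, by simpa using k⟩⟩
  refine ⟨⟨A, B, Sec.hol hφ hj hj', Set.ext fun z => ⟨fun hz hc => ?_, fun hz => ?_⟩,
    Set.ext fun z => ⟨fun hz hc => ?_, fun hz => ?_⟩, fun i => ?_⟩,
    ⟨a1, b1, Sec.hol_oe hφ hj hj', fun _ => Sec.hol_orb hφ hj hj',
      fun _ _ _ _ => Sec.hol_eq hφ hj hj', a3,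
      fun i p hp => ⟨(b3 i p hp).1, (b3 i p hp).2.elim fun t k => ⟨-t, k⟩⟩, a4, b4'⟩, a2, b2⟩
  · obtain ⟨i, hi⟩ := mem_iUnion.1 hc
    obtain ⟨x, t, hx, e⟩ := (a4 i z).1 hi
    exact (hA i x hx).2 (e ▸ (hφ.mem_sat t).2 hz)
  · exact (fw z).resolve_right fun ⟨i, k⟩ => hz (mem_iUnion.2 ⟨i, (a4 i z).2 k⟩)
  · obtain ⟨i, hi⟩ := mem_iUnion.1 hc
    obtain ⟨y, t, hy, e⟩ := (b4' i z).1 hi
    exact (hB i y hy).2 (e ▸ (hφ.mem_sat t).2 hz)
  · exact (bw z).resolve_right fun ⟨i, k⟩ => hz (mem_iUnion.2 ⟨i, (b4' i z).2 k⟩)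
  · obtain ⟨r, hr, k⟩ := a5 i
    obtain ⟨r', hr', k'⟩ := b5 i
    refine ⟨min (min r r') δ, lt_min (lt_min hr hr') (h i).pos, fun θ η s h1 h2 => ?_⟩
    simp only [lt_min_iff] at h2
    obtain ⟨-, t, ht⟩ := a3 i (θ, s • (η : V)) (k _ _ (by
      rw [norm_smul, norm_eq_of_mem_sphere, mul_one, norm_of_nonneg h1.le]; exact h2.1.1))
    obtain ⟨-, t', ht'⟩ := b3 i (η, s • (θ : U)) (k' _ _ (by
      rw [norm_smul, norm_eq_of_mem_sphere, mul_one, norm_of_nonneg h1.le]; exact h2.1.2))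
    exact Sec.hol_eq hφ hj hj' (s := log (δ / s) + t) (t := -t')
      (by rw [hφ.add, ht, (h i).pass θ η h1 h2.2.le]; exact ht'.symm)

end Pool.Agent.MP_e1dc65_gt

end
end MrgPart0

-- ======== part 1: formerly Pool.Agent.MP_e1dc65_gt.t.MLevel
section MrgPart1

/-! PROJECT HC, part T3: hypersurfaces crossed by a flow, surgery between two of them. -/

open scoped ContDiff Manifold Topology
open Set Filter Function Module Metric Real

noncomputable section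

namespace Pool.Agent.MP_e1dc65_gt

namespace MLev

variable {g g' : ℝ → ℝ} {a s t : ℝ}

theorem ge_of (hd : ∀ t, HasDerivAt g (g' t) t) (hp : ∀ t, g t = a → 0 < g' t) (hs : a ≤ g s)
    (hst : s ≤ t) : a ≤ g t :=
  neg_le_neg_iff.1 (image_le_of_deriv_right_lt_deriv_boundary (f := fun u => -g u)
    (f' := fun u => -g' u) (a := s) (b := t) (B := fun _ => -a) (B' := fun _ => 0)
    (fun u _ => (hd u).neg.continuousAt.continuousWithinAt)
    (fun u _ => (hd u).neg.hasDerivWithinAt) (neg_le_neg hs) (fun u => hasDerivAt_const u _)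
    (fun u _ h => neg_lt_zero.2 (hp u (neg_injective h))) (right_mem_Icc.2 hst))

theorem le_of (hd : ∀ t, HasDerivAt g (g' t) t) (hp : ∀ t, g t = a → 0 < g' t) (hs : g s ≤ a)
    (hst : t ≤ s) : g t ≤ a := by
  have := ge_of (g := fun u => -g (-u)) (g' := fun u => g' (-u)) (a := -a) (s := -s) (t := -t)
    (fun u => by
      have := ((hd (-u)).comp u (hasDerivAt_neg u)).neg
      rwa [mul_neg, mul_one, neg_neg] at this)
    (fun u h => hp _ (neg_injective h)) (by simpa using hs) (neg_le_neg hst)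
  simpa using this

theorem gt_of (hd : ∀ t, HasDerivAt g (g' t) t) (hp : ∀ t, g t = a → 0 < g' t) (hs : a ≤ g s)
    (hst : s < t) : a < g t := by
  by_contra h
  have e : ∀ u ∈ Ioo s t, g u = a := fun u hu =>
    le_antisymm (le_of hd hp (not_lt.1 h) hu.2.le) (ge_of hd hp hs hu.1.le)
  have hm : (s + t) / 2 ∈ Ioo s t := ⟨by linarith, by linarith⟩
  exact (hp _ (e _ hm)).ne' ((hd _).unique ((hasDerivAt_const _ a).congr_of_eventuallyEq
    (mem_of_superset (Ioo_mem_nhds hm.1 hm.2) e)))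

/-- cluster values of a function that is monotone on the half line -/
theorem le_cluster {L L' : ℝ} (hm : MonotoneOn g (Ici 0)) (h : MapClusterPt L atTop g)
    (h' : MapClusterPt L' atTop g) : L ≤ L' := by
  have h1 : ∀ t, 0 ≤ t → g t ≤ L' := fun t ht =>
    isClosed_Ici.mem_of_mapClusterPt h'
      ((eventually_ge_atTop t).mono fun u hu => hm ht (ht.trans hu) hu)
  exact isClosed_Iic.mem_of_mapClusterPt h ((eventually_ge_atTop 0).mono h1)

end MLev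

variable {E E' E'' : Type} [NormedAddCommGroup E] [NormedSpace ℝ E]
  [NormedAddCommGroup E'] [NormedSpace ℝ E'] [NormedAddCommGroup E''] [NormedSpace ℝ E'']
  {W : Mf E} {ξ : W → E} {φ : ℝ → W → W} {L : Mf E'} {L' : Mf E''} {j : L → W} {j' : L' → W}
  {Φ Φ' Ψ d d' e : W → ℝ} {a b s t : ℝ} {x : W}

/-- `d` is the derivative of the continuous function `Φ` along the flow -/
structure Der {W : Type} [TopologicalSpace W] (φ : ℝ → W → W) (Φ d : W → ℝ) : Prop where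
  cont : Continuous Φ
  der : ∀ x t, HasDerivAt (fun s => Φ (φ s x)) (d (φ t x)) t

theorem IsFlow.toDer (hφ : IsFlow W ξ φ) (hΦ : Sm W (vs ℝ) Φ univ) :
    Der φ Φ fun x => Df W (vs ℝ) Φ x (ξ x) := ⟨hΦ.cont, fun _ _ => hφ.hasDerivAt (hΦ _ trivial)⟩

namespace Der

theorem neg (h : Der φ Φ d) : Der (fun t => φ (-t)) (fun x => -Φ x) d :=
  ⟨h.cont.neg, fun x t => by
    have := ((h.der x (-t)).comp t (hasDerivAt_neg t)).neg
    rwa [mul_neg, mul_one, _root_.neg_neg] at this⟩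

theorem ge (h : Der φ Φ d) (hp : ∀ x, Φ x = a → 0 < d x) (hs : a ≤ Φ (φ s x)) (hst : s ≤ t) :
    a ≤ Φ (φ t x) := MLev.ge_of (h.der x) (fun _ => hp _) hs hst

theorem le (h : Der φ Φ d) (hp : ∀ x, Φ x = a → 0 < d x) (hs : Φ (φ s x) ≤ a) (hst : t ≤ s) :
    Φ (φ t x) ≤ a := MLev.le_of (h.der x) (fun _ => hp _) hs hst

theorem gt (h : Der φ Φ d) (hp : ∀ x, Φ x = a → 0 < d x) (hs : a ≤ Φ (φ s x)) (hst : s < t) :
    a < Φ (φ t x) := MLev.gt_of (h.der x) (fun _ => hp _) hs hst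

theorem lt (h : Der φ Φ d) (hp : ∀ x, Φ x = a → 0 < d x) (hs : Φ (φ s x) ≤ a) (hst : t < s) :
    Φ (φ t x) < a := not_le.1 fun k => (h.gt hp k hst).not_ge hs

/-- an orbit crosses the hypersurface at most once -/
theorem once (h : Der φ Φ d) (hp : ∀ x, Φ x = a → 0 < d x) (hs : Φ (φ s x) = a)
    (ht : Φ (φ t x) = a) : s = t :=
  le_antisymm (not_lt.1 fun k => (h.gt hp ht.ge k).ne' hs) (not_lt.1 fun k => (h.gt hp hs.ge k).ne' ht)

theorem cross (h : Der φ Φ d) (hs : Φ (φ s x) ≤ a) (ht : a ≤ Φ (φ t x)) :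
    ∃ u ∈ uIcc s t, Φ (φ u x) = a :=
  intermediate_value_uIcc (f := fun u => Φ (φ u x))
    (fun u _ => (h.der x u).continuousAt.continuousWithinAt) (Icc_subset_uIcc ⟨hs, ht⟩)

/-- the derivative of a Lyapunov function vanishes at limit points -/
theorem omega (h : Der φ Ψ e) (hφ : IsFlow W ξ φ) (hx : ∀ t, 0 ≤ t → 0 ≤ e (φ t x)) {p : W}
    (hp : MapClusterPt p atTop fun t => φ t x) : e p = 0 := by
  have hm : MonotoneOn (fun t => Ψ (φ t x)) (Ici 0) :=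
    monotoneOn_of_deriv_nonneg (convex_Ici 0)
      (fun u _ => (h.der x u).continuousAt.continuousWithinAt)
      (fun u _ => (h.der x u).differentiableAt.differentiableWithinAt)
      fun u hu => by rw [(h.der x u).deriv]; exact hx u (interior_subset hu)
  have k : ∀ s, MapClusterPt (Ψ (φ s p)) atTop fun t => Ψ (φ t x) := fun s => by
    have h1 := hp.continuousAt_comp (h.cont.comp (hφ.cont_time s)).continuousAt
    refine MapClusterPt.of_comp (tendsto_atTop_add_const_left _ s tendsto_id) ?_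
    simpa only [comp_def, hφ.add, id] using h1
  have h1 := h.der p 0
  rw [show (fun s => Ψ (φ s p)) = fun _ => Ψ (φ 0 p) from funext fun s =>
    le_antisymm (MLev.le_cluster hm (k s) (k 0)) (MLev.le_cluster hm (k 0) (k s)), hφ.zero] at h1
  exact h1.unique (hasDerivAt_const _ _)

end Der

/-- LEVELSEC: a piece of a level which the flow crosses upwards is a section -/
theorem Level.sec [FiniteDimensional ℝ E] [FiniteDimensional ℝ E'] {K : Set W}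
    (h : Level W Φ K L j) (hφ : IsFlow W ξ φ) (hΦ : Sm W (vs ℝ) Φ univ) (hK : ∀ x ∈ K, Φ x = a)
    (hp : ∀ x, Φ x = a → 0 < Df W (vs ℝ) Φ x (ξ x)) : Sec W φ L j := by
  refine ⟨isOpen_univ, fun p _ => h.ld_flow hφ (hp _ (hK _ (h.mem _))).ne' p.2, ?_⟩
  rintro ⟨z, t⟩ - ⟨z', t'⟩ - (e : φ t (j z) = φ t' (j z'))
  have e1 : φ (-t' + t) (j z) = j z' := by rw [hφ.add, e, hφ.neg_left]
  have e2 := (hφ.toDer hΦ).once hp (x := j z) (s := -t' + t) (t := 0)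
    (by rw [e1]; exact hK _ (h.mem _)) (by rw [hφ.zero]; exact hK _ (h.mem _))
  rw [e2, hφ.zero] at e1
  exact Prod.ext (h.emb.injective e1) (by dsimp only; linarith)

variable {U V : Type} [NormedAddCommGroup U] [InnerProductSpace ℝ U] [FiniteDimensional ℝ U]
  [NormedAddCommGroup V] [InnerProductSpace ℝ V] [FiniteDimensional ℝ V]
  {ι : Type} {c : ι → U × V → W} {D : ι → Set (U × V)} {δ : ℝ}

/-- the flow in the region between the hypersurfaces `Φ = a` and `Φ' = b`: it is gradient-like for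
`Ψ`, with saddles `c i 0` -/
structure Betw (W : Mf E) (φ : ℝ → W → W) (Φ Φ' Ψ d d' e : W → ℝ) (a b : ℝ) {ι : Type}
    (q : ι → W) : Prop where
  dA : Der φ Φ d
  dB : Der φ Φ' d'
  dL : Der φ Ψ e
  pA : ∀ x, Φ x = a → 0 < d x
  pB : ∀ x, Φ' x = b → 0 < d' x
  nA : ∀ x, Φ x = a → Φ' x ≤ b
  nB : ∀ x, Φ' x = b → a ≤ Φ x
  lyap : ∀ x, a ≤ Φ x → Φ' x ≤ b → (∀ i, x ≠ q i) → 0 < e x
  vA : ∀ i, a < Φ (q i)
  vB : ∀ i, Φ' (q i) < b
  fw : ∀ x, (∀ t, 0 ≤ t → a ≤ Φ (φ t x) ∧ Φ' (φ t x) ≤ b) →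
    ∃ K, IsCompact K ∧ ∀ t, 0 ≤ t → φ t x ∈ K
  bw : ∀ x, (∀ t, t ≤ 0 → a ≤ Φ (φ t x) ∧ Φ' (φ t x) ≤ b) →
    ∃ K, IsCompact K ∧ ∀ t, t ≤ 0 → φ t x ∈ K

namespace Betw

theorem neg {q : ι → W} (h : Betw W φ Φ Φ' Ψ d d' e a b q) :
    Betw W (fun t => φ (-t)) (fun x => -Φ' x) (fun x => -Φ x) (fun x => -Ψ x) d' d e (-b) (-a) q where
  dA := h.dB.neg
  dB := h.dA.neg
  dL := h.dL.neg
  pA x k := h.pB x (neg_injective k)
  pB x k := h.pA x (neg_injective k)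
  nA x k := neg_le_neg (h.nB x (neg_injective k))
  nB x k := neg_le_neg (h.nA x (neg_injective k))
  lyap x k k' := h.lyap x (neg_le_neg_iff.1 k') (neg_le_neg_iff.1 k)
  vA i := neg_lt_neg (h.vB i)
  vB i := neg_lt_neg (h.vA i)
  fw x k := by
    obtain ⟨K, h1, h2⟩ := h.bw x fun t ht => by
      simpa [and_comm] using k (-t) (neg_nonneg.2 ht)
    exact ⟨K, h1, fun t ht => h2 _ (neg_nonpos.2 ht)⟩
  bw x k := by
    obtain ⟨K, h1, h2⟩ := h.fw x fun t ht => by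
      simpa [and_comm] using k (-t) (neg_nonpos.2 ht)
    exact ⟨K, h1, fun t ht => h2 _ (neg_nonneg.2 ht)⟩

/-- forward orbits reach the upper hypersurface or tend to a saddle -/
theorem fwd (h : Betw W φ Φ Φ' Ψ d d' e a b fun i => c i 0) (hφ : IsFlow W ξ φ)
    (hc : ∀ i, Sad W φ (c i) (D i) δ) (h1 : a ≤ Φ x) (h2 : Φ' x ≤ b) :
    (∃ t, 0 ≤ t ∧ Φ' (φ t x) = b) ∨
      ∃ i, x = c i 0 ∨ ∃ u t, ‖u‖ = δ ∧ φ t x = c i (u, 0) := by
  refine or_iff_not_imp_left.2 fun hn => ?_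
  have k : ∀ t, 0 ≤ t → a ≤ Φ (φ t x) ∧ Φ' (φ t x) ≤ b := fun t ht =>
    ⟨h.dA.ge h.pA (s := 0) (by rwa [hφ.zero]) ht, not_lt.1 fun k => by
      obtain ⟨u, hu, e⟩ := h.dB.cross (s := 0) (by rwa [hφ.zero]) k.le
      rw [uIcc_of_le ht] at hu
      exact hn ⟨u, hu.1, e⟩⟩
  obtain ⟨K, hK, hK'⟩ := h.fw x k
  have e0 : ∀ y, a ≤ Φ y → Φ' y ≤ b → 0 ≤ e y := fun y k1 k2 => by
    by_cases hy : ∀ i, y ≠ c i 0
    · exact (h.lyap y k1 k2 hy).le
    · push Not at hy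
      obtain ⟨i, rfl⟩ := hy
      have := h.dL.der (c i 0) 0
      simp only [(hc i).fixed] at this
      exact (this.unique (hasDerivAt_const _ _)).ge
  refine Sad.dich hφ hc ?_ fun p hp => ?_
  · obtain ⟨p, -, hp⟩ := hK.exists_mapClusterPt_of_frequently (l := atTop) (f := fun t => φ t x)
      ((eventually_ge_atTop 0).mono hK').frequently
    exact ⟨p, hp⟩
  · have k1 : p ∈ {y | a ≤ Φ y} ∩ {y | Φ' y ≤ b} :=
      ((isClosed_le continuous_const h.dA.cont).inter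
        (isClosed_le h.dB.cont continuous_const)).mem_of_mapClusterPt hp
        ((eventually_ge_atTop 0).mono k)
    by_contra hq
    exact (h.lyap p k1.1 k1.2 fun i k2 => hq ⟨i, k2⟩).ne'
      (h.dL.omega hφ (fun t ht => e0 _ (k t ht).1 (k t ht).2) hp)

/-- backward orbits reach the lower hypersurface or come from a saddle -/
theorem bwd (h : Betw W φ Φ Φ' Ψ d d' e a b fun i => c i 0) (hφ : IsFlow W ξ φ)
    (hc : ∀ i, Sad W φ (c i) (D i) δ) (h1 : a ≤ Φ x) (h2 : Φ' x ≤ b) :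
    (∃ t, t ≤ 0 ∧ Φ (φ t x) = a) ∨
      ∃ i, x = c i 0 ∨ ∃ y t, ‖y‖ = δ ∧ φ t x = c i (0, y) := by
  rcases fwd (c := fun i (p : V × U) => c i p.swap) h.neg hφ.neg (fun i => (hc i).swap)
    (neg_le_neg h2) (neg_le_neg h1) with ⟨t, k1, k2⟩ | ⟨i, k | ⟨y, t, k⟩⟩
  exacts [Or.inl ⟨-t, neg_nonpos.2 k1, neg_injective k2⟩, Or.inr ⟨i, Or.inl k⟩,
    Or.inr ⟨i, Or.inr ⟨y, -t, k⟩⟩]

/-- the stable sphere stays below the upper hypersurface and meets the lower one -/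
theorem stable (h : Betw W φ Φ Φ' Ψ d d' e a b fun i => c i 0) (hφ : IsFlow W ξ φ)
    (hc : ∀ i, Sad W φ (c i) (D i) δ)
    (hno : ∀ i k u y t, ‖u‖ = δ → ‖y‖ = δ → φ t (c k (0, y)) ≠ c i (u, 0)) (i : ι) {u : U}
    (hu : ‖u‖ = δ) :
    (∀ t, Φ' (φ t (c i (u, 0))) < b) ∧ ∃ t, Φ (φ t (c i (u, 0))) = a := by
  have l := (hc i).tendsto hu.le
  have h1 : ∀ t, Φ' (φ t (c i (u, 0))) < b := fun t => not_le.1 fun k => (h.vB i).not_ge
    (ge_of_tendsto ((h.dB.cont.tendsto _).comp l)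
      ((eventually_ge_atTop t).mono fun _ => h.dB.ge h.pB k))
  refine ⟨h1, ?_⟩
  obtain ⟨T, hT⟩ := (((h.dA.cont.tendsto _).comp l).eventually (lt_mem_nhds (h.vA i))).exists
  rcases h.bwd hφ hc (x := φ T (c i (u, 0))) hT.le (h1 T).le with ⟨t, -, k⟩ | ⟨k, k1 | ⟨y, t, k1, k2⟩⟩
  · exact ⟨t + T, by rwa [hφ.add]⟩
  · have k2 : c i (u, 0) = c k 0 := by rw [← hφ.neg_left T (c i (u, 0)), k1, (hc k).fixed]
    have k3 := (hc i).not_fixed ((hc i).sub u 0 hu.le (by simpa using (hc i).pos.le))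
      fun t => by rw [k2, (hc k).fixed]
    rw [(Prod.mk_eq_zero.1 k3).1, norm_zero] at hu
    exact absurd hu (hc i).pos.ne
  · exact absurd (by rw [← k2, ← hφ.add t T, hφ.neg_left]) (hno i k u y (-(t + T)) hu k1)

theorem unstable (h : Betw W φ Φ Φ' Ψ d d' e a b fun i => c i 0) (hφ : IsFlow W ξ φ)
    (hc : ∀ i, Sad W φ (c i) (D i) δ)
    (hno : ∀ i k u y t, ‖u‖ = δ → ‖y‖ = δ → φ t (c k (0, y)) ≠ c i (u, 0)) (i : ι) {y : V}
    (hy : ‖y‖ = δ) :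
    (∀ t, a < Φ (φ t (c i (0, y)))) ∧ ∃ t, Φ' (φ t (c i (0, y))) = b := by
  obtain ⟨k1, t, k2⟩ := stable (c := fun i (p : V × U) => c i p.swap) h.neg hφ.neg
    (fun i => (hc i).swap) (fun i k y u t hy hu e => hno k i u y t hu hy
      (by rw [show c i (0, y) = _ from e.symm]; exact hφ.neg_right _ _)) i hy
  exact ⟨fun t => by simpa using k1 (-t), -t, neg_injective k2⟩

end Betw

/-- no connecting orbits between saddles on the same level of a Lyapunov function -/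
theorem no_conn (hφ : IsFlow W ξ φ) (hc : ∀ i, Sad W φ (c i) (D i) δ) (hΨ : Der φ Ψ e) {i k : ι}
    {u : U} {y : V} (hu : ‖u‖ = δ) (hy : ‖y‖ = δ) (hv : Ψ (c i 0) ≤ Ψ (c k 0))
    (hp : ∀ t, 0 < e (φ t (c k (0, y)))) (t : ℝ) : φ t (c k (0, y)) ≠ c i (u, 0) := by
  intro h
  have hm : StrictMono fun s => Ψ (φ s (c k (0, y))) :=
    strictMono_of_deriv_pos fun s => by rw [(hΨ.der _ s).deriv]; exact hp s
  have h1 : Ψ (φ 1 (c k (0, y))) ≤ Ψ (c i 0) := by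
    refine ge_of_tendsto ((hΨ.cont.tendsto _).comp ((hc i).tendsto hu.le))
      ((eventually_ge_atTop (1 - t)).mono fun s hs => ?_)
    rw [comp_apply, ← h, ← hφ.add]
    exact hm.monotone (by linarith)
  have h2 : Ψ (c k 0) ≤ Ψ (φ 0 (c k (0, y))) :=
    le_of_tendsto ((hΨ.cont.tendsto _).comp ((hc k).swap.tendsto hy.le))
      ((eventually_ge_atTop 0).mono fun s hs => hm.monotone (neg_nonpos.2 hs))
  linarith [hm zero_lt_one]

/-- MSURG for two hypersurfaces -/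
theorem msurg_betw [FiniteDimensional ℝ E'] [FiniteDimensional ℝ E''] [Nontrivial U] [Nontrivial V]
    (hφ : IsFlow W ξ φ) (hj : Sec W φ L j) (hj' : Sec W φ L' j') (rj : range j = {x | Φ x = a})
    (rj' : range j' = {x | Φ' x = b}) (hc : ∀ i, Sad W φ (c i) (D i) δ)
    (h0 : Injective fun i => c i 0) (h : Betw W φ Φ Φ' Ψ d d' e a b fun i => c i 0)
    (hno : ∀ i k u y t, ‖u‖ = δ → ‖y‖ = δ → φ t (c k (0, y)) ≠ c i (u, 0))
    {O : ι → Set L} {O' : ι → Set L'} (hO : ∀ i, IsOpen (O i)) (hO' : ∀ i, IsOpen (O' i))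
    (sO : ∀ i z x t, ‖x‖ = δ → φ t (j z) = c i (x, 0) → z ∈ O i)
    (sO' : ∀ i z y t, ‖y‖ = δ → φ t (j' z) = c i (0, y) → z ∈ O' i) {ε : ℝ} (hε : 0 < ε) :
    ∃ σ : T1.Surg ι U V L L', FlowSurg W φ L j L' j' c δ ε σ ∧
      (∀ i, (σ.A.a i).target ⊆ O i) ∧ ∀ i, (σ.B.a i).target ⊆ O' i := by
  have m : ∀ x, x ∈ sat φ j ↔ ∃ t, Φ (φ t x) = a := fun x =>
    ⟨fun ⟨z, t, k⟩ => ⟨-t, by rw [← k, hφ.neg_left]; exact rj.subset ⟨z, rfl⟩⟩, fun ⟨t, k⟩ => by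
      obtain ⟨z, hz⟩ := rj.symm.subset k
      exact (hφ.mem_sat t).1 (hz ▸ hφ.self_mem_sat j z)⟩
  have m' : ∀ x, x ∈ sat φ j' ↔ ∃ t, Φ' (φ t x) = b := fun x =>
    ⟨fun ⟨z, t, k⟩ => ⟨-t, by rw [← k, hφ.neg_left]; exact rj'.subset ⟨z, rfl⟩⟩, fun ⟨t, k⟩ => by
      obtain ⟨z, hz⟩ := rj'.symm.subset k
      exact (hφ.mem_sat t).1 (hz ▸ hφ.self_mem_sat j' z)⟩
  refine msurg hφ hj hj' hc h0 (fun i x hx => ?_) (fun i y hy => ?_) (fun z => ?_) (fun z => ?_)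
    hO hO' sO sO' hε
  · obtain ⟨k1, k2⟩ := h.stable hφ hc hno i hx
    exact ⟨(m _).2 k2, fun k => ((m' _).1 k).elim fun t => (k1 t).ne⟩
  · obtain ⟨k1, k2⟩ := h.unstable hφ hc hno i hy
    exact ⟨(m' _).2 k2, fun k => ((m _).1 k).elim fun t => (k1 t).ne'⟩
  · have k : Φ (j z) = a := rj.subset ⟨z, rfl⟩
    rcases h.fwd hφ hc k.ge (h.nA _ k) with ⟨t, -, k1⟩ | ⟨i, k1 | k1⟩
    exacts [Or.inl ((m' _).2 ⟨t, k1⟩), absurd (k1 ▸ k) (h.vA i).ne', Or.inr ⟨i, k1⟩]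
  · have k : Φ' (j' z) = b := rj'.subset ⟨z, rfl⟩
    rcases h.bwd hφ hc (h.nB _ k) k.le with ⟨t, -, k1⟩ | ⟨i, k1 | k1⟩
    exacts [Or.inl ((m _).2 ⟨t, k1⟩), absurd (k1 ▸ k) (h.vB i).ne, Or.inr ⟨i, k1⟩]

end Pool.Agent.MP_e1dc65_gt

end
end MrgPart1

-- marker of a merged file
example : 731051 + 695581 = 731051 + 695581 := rfl
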