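import Mathlib.Topology.Maps.Proper.CompactlyGenerated
import Pool.Agent.MP_e1dc65_gt.t2.Spec2
import Mathlib.Analysis.Calculus.Deriv.MeanValue
import Mathlib.Analysis.Calculus.Deriv.Slope
import Mathlib.Analysis.InnerProductSpace.Calculus
import Mathlib.Analysis.InnerProductSpace.ProdL2
import Pool.Agent.MP_e1dc65_gt.t1.Base
import Mathlib.Analysis.Calculus.ContDiff.WithLp
import Mathlib.MeasureTheory.Integral.IntervalIntegral.FundThmCalculus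
import Pool.Agent.MP_e1dc65_gt.t.MLevel

-- ======== part 0: formerly Pool.Agent.MP_e1dc65_gt.t.Loc
section MrgPart0

/-! PROJECT HC, part T: rows LOC, SUB, SELF (point-set topology of replacements). -/

open scoped ContDiff Manifold Topology Real
open Set Filter Function Module Topology

set_option linter.unusedSectionVars false

noncomputable section

namespace Pool.Agent.MP_e1dc65_gt.T

namespace Loc

/-! ### Open embeddings of subsets -/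

section oem
variable {A X : Type} [TopologicalSpace A] [TopologicalSpace X] {S : Set A} {i : A → X}

theorem oe_inj (h : IsOpenEmbedding (S.domRestrict i)) : InjOn i S :=
  injOn_iff_injective.2 h.injective

theorem oe_cont (h : IsOpenEmbedding (S.domRestrict i)) : ContinuousOn i S :=
  continuousOn_iff_continuous_domRestrict.2 h.continuous

theorem oe_open (h : IsOpenEmbedding (S.domRestrict i)) {O : Set A} (hO : IsOpen O) :
    IsOpen (i '' (S ∩ O)) := by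
  have := h.isOpenMap _ (hO.preimage continuous_subtype_val)
  convert this using 1
  ext x
  exact ⟨fun ⟨a, ha, e⟩ => ⟨⟨a, ha.1⟩, ha.2, e⟩, fun ⟨a, ha, e⟩ => ⟨a.1, ⟨a.2, ha⟩, e⟩⟩

theorem oe_of (h1 : InjOn i S) (h2 : ContinuousOn i S)
    (h3 : ∀ O, IsOpen O → IsOpen (i '' (S ∩ O))) : IsOpenEmbedding (S.domRestrict i) := by
  refine .of_continuous_injective_isOpenMap (continuousOn_iff_continuous_domRestrict.1 h2)
    (injOn_iff_injective.1 h1) fun U hU => ?_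
  obtain ⟨O, hO, rfl⟩ := isOpen_induced_iff.1 hU
  convert h3 O hO using 1
  ext x
  exact ⟨fun ⟨a, ha, e⟩ => ⟨a.1, ⟨a.2, ha⟩, e⟩, fun ⟨a, ha, e⟩ => ⟨⟨a, ha.1⟩, ha.2, e⟩⟩

theorem oe_inter (h : IsOpenEmbedding (S.domRestrict i)) {O : Set A} (hO : IsOpen O) :
    IsOpenEmbedding ((S ∩ O).domRestrict i) :=
  oe_of ((oe_inj h).mono inter_subset_left) ((oe_cont h).mono inter_subset_left) fun U hU => by
    rw [inter_assoc]; exact oe_open h (hO.inter hU)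

theorem compact_union {C T : Set X} (hC : IsCompact C)
    (h : ∀ U, IsOpen U → C ⊆ U → IsCompact (T \ U)) : IsCompact (C ∪ T) := by
  classical
  refine isCompact_of_finite_subcover fun {ι} U hU hc => ?_
  obtain ⟨s, hs⟩ := hC.elim_finite_subcover U hU (subset_union_left.trans hc)
  obtain ⟨t, ht⟩ := (h _ (isOpen_biUnion fun i _ => hU i) hs).elim_finite_subcover U hU
    (sdiff_subset.trans (subset_union_right.trans hc))
  refine ⟨s ∪ t, ?_⟩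
  rw [Finset.set_biUnion_union]
  rintro x (hx | hx)
  · exact Or.inl (hs hx)
  · by_cases h1 : x ∈ ⋃ i ∈ s, U i
    · exact Or.inl h1
    · exact Or.inr (ht ⟨hx, h1⟩)

end oem

/-! ### The normal form -/

variable {N : NF} {B : Type} {Γ Γ' Γ'' : B → ℝ} {D Q Q' R : Set (E2 × B)} {p p' p'' : N.F × B}

theorem out_open : IsOpen Out :=
  (isOpen_lt continuous_const continuous_fst.norm).union
    (isOpen_lt continuous_const continuous_snd.abs)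

theorem not_K {m : N.F} : m ∉ N.K ↔ N.pj m ∈ Out := not_not

theorem cont_f (h : N.Ok) : Continuous N.f := h.smf.cont
theorem cont_w (h : N.Ok) : Continuous N.w := h.smw.cont
theorem cont_pj (h : N.Ok) : Continuous N.pj := (cont_w h).prodMk (cont_f h)

theorem pj_pinv (h : N.Ok) {q : R3} (hq : q ∈ Out) : N.pj (N.pinv q) = q := by
  obtain ⟨m, rfl⟩ := h.onto hq
  exact invFunOn_eq ⟨m, hq, rfl⟩

theorem cont_pinv (h : N.Ok) {q : R3} (hq : q ∈ Out) : ContinuousAt N.pinv q := by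
  obtain ⟨m, rfl⟩ := h.onto hq
  exact (h.oe.symm.sm _ ⟨m, hq, rfl⟩).cont

theorem mt_refl (p : N.F × B) : N.Mt p p := ⟨rfl, Or.inl rfl⟩
theorem mt_symm (h : N.Mt p p') : N.Mt p' p :=
  ⟨h.1.symm, h.2.imp Eq.symm fun h => ⟨h.2.1, h.1, h.2.2.symm⟩⟩
theorem mt_trans (h : N.Mt p p') (h' : N.Mt p' p'') : N.Mt p p'' := by
  refine ⟨h.1.trans h'.1, ?_⟩
  rcases h.2 with a | a
  · rw [a]; exact h'.2
  · rcases h'.2 with b | b
    · rw [← b]; exact Or.inr a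
    · exact Or.inr ⟨a.1, b.2.1, a.2.2.trans b.2.2⟩
theorem mt_pr (h : N.Mt p p') : N.pr p = N.pr p' := by
  refine Prod.ext ?_ h.1
  rcases h.2 with a | a
  · exact congrArg N.w a
  · exact a.2.2
theorem mt_uniq (hN : N.Ok) (h : N.Mt p p') (hp : p ∈ N.Hyp Γ) (hp' : p' ∈ N.Hyp Γ) : p = p' := by
  refine Prod.ext ?_ h.1
  rcases h.2 with a | a
  · exact a
  · refine hN.oe.inj (not_K.1 a.1) (not_K.1 a.2.1) (Prod.ext a.2.2 ?_)
    exact (hp.trans (congrArg Γ h.1)).trans (Eq.symm hp')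
theorem mt_pt (h : N.Mt p p') (hp : p ∈ N.Pt Γ D) (hp' : p' ∈ N.Hyp Γ') : p' ∈ N.Pt Γ' D :=
  ⟨hp', show N.pr p' ∈ D from mt_pr h ▸ hp.2⟩

theorem pt_mono (h : Q ⊆ D) : N.Pt Γ Q ⊆ N.Pt Γ D := fun _ hp => ⟨hp.1, h hp.2⟩

theorem far_symm {a b : ℝ} (h : Far a b) : Far b a := h.imp Eq.symm And.symm

open Classical in
/-- the matching point on the hypersurface of `Γ'` -/
def rg (N : NF) (Γ' : B → ℝ) (p : N.F × B) : N.F × B :=
  if (N.w p.1, Γ' p.2) ∈ Out then (N.pinv (N.w p.1, Γ' p.2), p.2) else p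

theorem rg_spec (hN : N.Ok) (hp : p ∈ N.Hyp Γ) (hf : ‖N.w p.1‖ ≤ 1 → Far (Γ p.2) (Γ' p.2)) :
    rg N Γ' p ∈ N.Hyp Γ' ∧ N.Mt p (rg N Γ' p) := by
  have hp' : N.f p.1 = Γ p.2 := hp
  by_cases h : (N.w p.1, Γ' p.2) ∈ Out
  · have e := pj_pinv hN h
    rw [rg, if_pos h]
    refine ⟨congrArg Prod.snd e, rfl, Or.inr ⟨not_K.2 ?_, not_K.2 (e.symm ▸ h),
      (congrArg Prod.fst e).symm⟩⟩
    by_cases h1 : ‖N.w p.1‖ ≤ 1
    · refine Or.inr (show 1 < |N.f p.1| from ?_)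
      rcases hf h1 with a | a
      · rw [hp', a]; exact h.resolve_left (not_lt.2 h1)
      · rw [hp']; linarith [a.1]
    · exact Or.inl (not_le.1 h1)
  · rw [rg, if_neg h]
    refine ⟨?_, mt_refl p⟩
    rcases hf (not_lt.1 fun a => h (Or.inl a)) with a | a
    · exact hp'.trans a
    · exact (h (Or.inr (show 1 < |Γ' p.2| by linarith [a.2]))).elim

variable [TopologicalSpace B]

theorem cont_pr (h : N.Ok) : Continuous (N.pr : N.F × B → E2 × B) :=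
  ((cont_w h).comp continuous_fst).prodMk continuous_snd

theorem adm_symm (h : Adm Γ Γ' D Q) : Adm Γ' Γ D Q :=
  ⟨h.op, h.cp, h.sub, h.c', h.c, fun q hq h1 => far_symm (h.far q hq h1)⟩

theorem partner (hN : N.Ok) (h : Adm Γ Γ' D Q) (hp : p ∈ N.Pt Γ (D \ Q)) :
    rg N Γ' p ∈ N.Pt Γ' (D \ Q) ∧ N.Mt p (rg N Γ' p) :=
  have := rg_spec (Γ' := Γ') hN hp.1 fun a => h.far (N.pr p) hp.2 a
  ⟨mt_pt this.2 hp this.1, this.2⟩

theorem closed_pr (hN : N.Ok) (hΓ : Continuous Γ) {S : Set (N.F × B)} (hS : IsClosed S) :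
    IsClosed (N.pr '' (N.Hyp Γ ∩ S)) := by
  have h1 : IsProperMap N.pj := isProperMap_iff_isCompact_preimage.2 ⟨cont_pj hN, fun K hK => hN.prop K hK⟩
  have h2 := (h1.prodMap (isProperMap_id (X := B))).isClosedMap _ hS
  have h3 : Continuous fun q : E2 × B => (((q.1, Γ q.2), q.2) : R3 × B) := by fun_prop
  convert h2.preimage h3 using 1
  ext q
  constructor
  · rintro ⟨p, hp, rfl⟩
    exact ⟨p, hp.2, Prod.ext (Prod.ext rfl hp.1) rfl⟩
  · rintro ⟨p, hp, e⟩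
    have e2 : p.2 = q.2 := congrArg Prod.snd e
    refine ⟨p, ⟨?_, hp⟩, Prod.ext (congrArg (fun t => t.1.1) e) e2⟩
    exact (congrArg (fun t => t.1.2) e).trans (congrArg Γ e2.symm)

variable [T2Space B]

theorem compact_pt (hN : N.Ok) (hΓ : Continuous Γ) (hQ : IsCompact Q) : IsCompact (N.Pt Γ Q) := by
  have h1 : Continuous fun q : E2 × B => ((q.1, Γ q.2) : R3) := by fun_prop
  refine ((hN.prop _ (hQ.image h1)).prod (hQ.image continuous_snd)).of_isClosed_subset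
    ((isClosed_eq ((cont_f hN).comp continuous_fst) (hΓ.comp continuous_snd)).inter
      (hQ.isClosed.preimage (cont_pr hN))) fun p hp =>
    ⟨⟨N.pr p, hp.2, Prod.ext rfl (Eq.symm hp.1)⟩, ⟨N.pr p, hp.2, rfl⟩⟩

theorem cont_rg (hN : N.Ok) (h : Adm Γ Γ' D Q) : ContinuousOn (rg N Γ') (N.Pt Γ (D \ Q)) := by
  intro p hp
  have hc : Continuous fun p : N.F × B => ((N.w p.1, Γ' p.2) : R3) :=
    ((cont_w hN).comp continuous_fst).prodMk (h.c'.comp continuous_snd)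
  by_cases h1 : (N.w p.1, Γ' p.2) ∈ Out
  · refine (ContinuousAt.congr (f := fun p : N.F × B => (N.pinv (N.w p.1, Γ' p.2), p.2))
      ((ContinuousAt.comp (f := fun p : N.F × B => ((N.w p.1, Γ' p.2) : R3)) (cont_pinv hN h1)
        hc.continuousAt).prodMk continuousAt_snd) ?_).continuousWithinAt
    filter_upwards [(out_open.preimage hc).mem_nhds h1] with z hz
    exact (if_pos hz).symm
  · have h2 : ‖N.w p.1‖ ≤ 1 := not_lt.1 fun a => h1 (Or.inl a)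
    have h3 : |Γ' p.2| ≤ 1 := not_lt.1 fun a => h1 (Or.inr a)
    have h4 : ∀ᶠ z : N.F × B in 𝓝 p, (N.w p.1, z.2) ∈ D \ Q :=
      (continuous_const.prodMk continuous_snd).continuousAt.preimage_mem_nhds
        ((h.op.sdiff h.cp.isClosed).mem_nhds hp.2)
    have h5 : ∀ᶠ z : N.F × B in 𝓝 p, |Γ' z.2| < 3 / 2 :=
      (h.c'.comp continuous_snd).abs.continuousAt.eventually_lt_const
        (lt_of_le_of_lt h3 (by norm_num))
    have key : ∀ z ∈ N.Pt Γ (D \ Q), (N.w p.1, z.2) ∈ D \ Q → |Γ' z.2| < 3 / 2 → rg N Γ' z = z :=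
      fun z hz a b => by
        have e : Γ z.2 = Γ' z.2 := (h.far _ a h2).resolve_right fun c => lt_asymm b c.2
        exact (mt_uniq hN (partner hN h hz).2 (hz.1.trans e) (partner hN h hz).1.1).symm
    refine continuousWithinAt_id.congr_of_eventuallyEq ?_ (key p hp hp.2 (by linarith))
    filter_upwards [self_mem_nhdsWithin, nhdsWithin_le_nhds h4, nhdsWithin_le_nhds h5]
      with z a b c using key z a b c

theorem mv_adm (hN : N.Ok) (h : Adm Γ Γ' D Q) :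
    ∃ κ : N.Pt Γ (D \ Q) ≃ₜ N.Pt Γ' (D \ Q), ∀ p, N.Mt p.1 (κ p).1 := by
  have h' := adm_symm h
  refine ⟨⟨⟨fun p => ⟨rg N Γ' p.1, (partner hN h p.2).1⟩,
    fun p => ⟨rg N Γ p.1, (partner hN h' p.2).1⟩, fun p => Subtype.ext ?_,
    fun p => Subtype.ext ?_⟩, (cont_rg hN h).domRestrict.subtype_mk _,
    (cont_rg hN h').domRestrict.subtype_mk _⟩, fun p => (partner hN h p.2).2⟩
  · have a := partner hN h p.2
    have b := partner hN h' a.1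
    exact (mt_uniq hN (mt_trans a.2 b.2) p.2.1 b.1.1).symm
  · have a := partner hN h' p.2
    have b := partner hN h a.1
    exact (mt_uniq hN (mt_trans a.2 b.2) p.2.1 b.1.1).symm

/-! ### Replacements -/

variable {X X' X'' : Type} [TopologicalSpace X] [TopologicalSpace X'] [TopologicalSpace X'']
  {i : N.F × B → X} {i' : N.F × B → X'} {i'' : N.F × B → X''} {h' : OpenPartialHomeomorph X X'}
  {h'' : OpenPartialHomeomorph X X''}

theorem not_img (h : IsOpenEmbedding ((N.Pt Γ D).domRestrict i)) (hR : R ⊆ D) (hp : p ∈ N.Pt Γ D) :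
    i p ∉ i '' N.Pt Γ R ↔ N.pr p ∉ R :=
  not_congr ⟨fun ⟨_, hq, e⟩ => oe_inj h (pt_mono hR hq) hp e ▸ hq.2, fun a => ⟨p, ⟨hp.1, a⟩, rfl⟩⟩

theorem closed_img [T2Space X] (hN : N.Ok) (hΓ : Continuous Γ)
    (h : IsOpenEmbedding ((N.Pt Γ D).domRestrict i)) (hc : IsCompact R) (hR : R ⊆ D) :
    IsClosed (i '' N.Pt Γ R) :=
  ((compact_pt hN hΓ hc).image_of_continuousOn ((oe_cont h).mono (pt_mono hR))).isClosed

theorem mem_src (r : Rp N Γ Γ' D Q i i' h') (hp : p ∈ N.Pt Γ (D \ Q)) : i p ∈ h'.source := by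
  rw [r.src]
  exact (not_img r.oe r.adm.sub (pt_mono sdiff_subset hp)).2 hp.2.2

theorem rp_symm (r : Rp N Γ Γ' D Q i i' h') : Rp N Γ' Γ D Q i' i h'.symm :=
  ⟨adm_symm r.adm, r.oe', r.oe, r.tgt, r.src, fun p hp p' hp' m => by
    have a := mt_pt m hp hp'
    rw [← r.rel p' a p hp.1 (mt_symm m), h'.left_inv (mem_src r a)]⟩

/-- outside a larger core, `h'` maps to the outside of the larger core -/
theorem out_core (hN : N.Ok) (r : Rp N Γ Γ' D Q i i' h') (h1 : Q ⊆ Q') (h2 : Q' ⊆ D) {x : X}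
    (hx : x ∉ i '' N.Pt Γ Q') : x ∈ h'.source ∧ h' x ∉ i' '' N.Pt Γ' Q' := by
  have hs : x ∈ h'.source := by
    rw [r.src]; exact fun a => hx (image_mono (pt_mono h1) a)
  refine ⟨hs, fun ⟨p', hp', e⟩ => ?_⟩
  have ht := h'.map_source hs
  rw [r.tgt, ← e] at ht
  have a : p' ∈ N.Pt Γ' (D \ Q) :=
    ⟨hp'.1, h2 hp'.2, (not_img r.oe' r.adm.sub (pt_mono h2 hp')).1 ht⟩
  have b := partner hN (adm_symm r.adm) a
  have c := (rp_symm r).rel p' a _ b.1.1 b.2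
  rw [e, h'.left_inv hs] at c
  exact hx ⟨_, mt_pt b.2 hp' b.1.1, c.symm⟩

theorem key [T2Space X'] (hN : N.Ok) (r' : Rp N Γ Γ' D Q i i' h') (r'' : Rp N Γ Γ'' D Q i i'' h'')
    (hR : IsCompact R) (hQ : IsCompact Q') (h1 : Q ⊆ Q') (h2 : Q' ⊆ D)
    (κ : N.Pt Γ' (D \ R) → N.Pt Γ'' (D \ R)) (hκ : Continuous κ)
    (m : ∀ p, N.pr p.1 ∉ Q' → N.Mt p.1 (κ p).1) :
    ∃ F : X' → X'', ContinuousOn F (i' '' N.Pt Γ' R)ᶜ ∧ (∀ p, F (i' p.1) = i'' (κ p).1) ∧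
      ∀ y ∉ i' '' N.Pt Γ' Q', F y = h'' (h'.symm y) := by
  classical
  have oe : IsOpenEmbedding ((N.Pt Γ' (D \ R)).domRestrict i') := by
    have := oe_inter r'.oe' (hR.isClosed.isOpen_compl.preimage (cont_pr hN))
    rwa [show N.Pt Γ' D ∩ N.pr ⁻¹' Rᶜ = N.Pt Γ' (D \ R) from inter_assoc _ _ _] at this
  let F : X' → X'' := fun y =>
    if c : ∃ p : N.Pt Γ' (D \ R), i' p.1 = y then i'' (κ c.choose).1 else h'' (h'.symm y)
  have a : ∀ p, F (i' p.1) = i'' (κ p).1 := fun p => by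
    have c : ∃ q : N.Pt Γ' (D \ R), i' q.1 = i' p.1 := ⟨p, rfl⟩
    simp only [F, dif_pos c, show c.choose = p from oe.injective c.choose_spec]
  have b : ∀ y ∉ i' '' N.Pt Γ' Q', F y = h'' (h'.symm y) := fun y hy => by
    by_cases c : ∃ p : N.Pt Γ' (D \ R), i' p.1 = y
    · obtain ⟨p, rfl⟩ := c
      have hp : N.pr p.1 ∉ Q' := fun t => hy ⟨p, ⟨p.2.1, t⟩, rfl⟩
      have hp' : p.1 ∈ N.Pt Γ' (D \ Q) := ⟨p.2.1, p.2.2.1, fun t => hp (h1 t)⟩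
      have q := partner hN (adm_symm r'.adm) hp'
      rw [a, (rp_symm r').rel _ hp' _ q.1.1 q.2,
        r''.rel _ q.1 _ (κ p).2.1 (mt_trans (mt_symm q.2) (m p hp))]
    · exact dif_neg c
  refine ⟨F, fun y hy => ContinuousAt.continuousWithinAt ?_, a, b⟩
  by_cases c : y ∈ i' '' N.Pt Γ' Q'
  · obtain ⟨p, hp, rfl⟩ := c
    have hp' : p ∈ N.Pt Γ' (D \ R) := ⟨hp.1, h2 hp.2, fun t => hy ⟨p, ⟨hp.1, t⟩, rfl⟩⟩
    refine (oe.continuousAt_iff (g := F) (x := ⟨p, hp'⟩)).1 ?_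
    rw [show F ∘ (N.Pt Γ' (D \ R)).domRestrict i' = fun p => i'' (κ p).1 from funext a]
    exact (((oe_cont r''.oe').mono (pt_mono sdiff_subset)).domRestrict.comp hκ).continuousAt
  · have o := out_core hN (rp_symm r') h1 h2 c
    refine ContinuousAt.congr (f := fun y => h'' (h'.symm y)) (ContinuousAt.comp
      (h''.continuousAt (out_core hN r'' h1 h2 o.2).1) (h'.symm.continuousAt o.1)) ?_
    filter_upwards [(closed_img hN r'.adm.c' r'.oe' hQ h2).isOpen_compl.mem_nhds c] with z hz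
    exact (b z hz).symm

theorem key2 (hN : N.Ok) (r' : Rp N Γ Γ' D Q i i' h') (r'' : Rp N Γ Γ'' D Q i i'' h'')
    (h1 : Q ⊆ Q') (h2 : Q' ⊆ D) (h3 : R ⊆ Q') (κ : N.Pt Γ' (D \ R) → N.Pt Γ'' (D \ R))
    (κ' : N.Pt Γ'' (D \ R) → N.Pt Γ' (D \ R)) (l : ∀ p, κ' (κ p) = p) {F : X' → X''} {G : X'' → X'}
    (a : ∀ p, F (i' p.1) = i'' (κ p).1) (b : ∀ y ∉ i' '' N.Pt Γ' Q', F y = h'' (h'.symm y))
    (a' : ∀ p, G (i'' p.1) = i' (κ' p).1) (b' : ∀ y ∉ i'' '' N.Pt Γ'' Q', G y = h' (h''.symm y))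
    {y : X'} (hy : y ∉ i' '' N.Pt Γ' R) : F y ∉ i'' '' N.Pt Γ'' R ∧ G (F y) = y := by
  by_cases c : y ∈ i' '' N.Pt Γ' Q'
  · obtain ⟨p, hp, rfl⟩ := c
    have hp' : p ∈ N.Pt Γ' (D \ R) := ⟨hp.1, h2 hp.2, fun t => hy ⟨p, ⟨hp.1, t⟩, rfl⟩⟩
    rw [a ⟨p, hp'⟩, a', l]
    exact ⟨(not_img r''.oe' (h3.trans h2) (pt_mono sdiff_subset (κ _).2)).2 (κ _).2.2.2, rfl⟩
  · have o := out_core hN (rp_symm r') h1 h2 c
    have o' := out_core hN r'' h1 h2 o.2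
    rw [b y c, b' _ o'.2, h''.left_inv o'.1]
    exact ⟨fun t => o'.2 (image_mono (pt_mono h3) t), h'.right_inv o.1⟩

theorem gen [T2Space X'] [T2Space X''] (hN : N.Ok) (r' : Rp N Γ Γ' D Q i i' h')
    (r'' : Rp N Γ Γ'' D Q i i'' h'') (hR : IsCompact R) (hQ : IsCompact Q') (h1 : Q ⊆ Q')
    (h2 : Q' ⊆ D) (h3 : R ⊆ Q') (κ : N.Pt Γ' (D \ R) ≃ₜ N.Pt Γ'' (D \ R))
    (m : ∀ p, N.pr p.1 ∉ Q' → N.Mt p.1 (κ p).1) :
    ∃ k : OpenPartialHomeomorph X' X'', k.source = (i' '' N.Pt Γ' R)ᶜ ∧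
      k.target = (i'' '' N.Pt Γ'' R)ᶜ ∧ (∀ p, k (i' p.1) = i'' (κ p).1) ∧
      ∀ x ∉ i '' N.Pt Γ Q', k (h' x) = h'' x := by
  have m' : ∀ p, N.pr p.1 ∉ Q' → N.Mt p.1 (κ.symm p).1 := fun p hp => by
    have hp' : p.1 ∈ N.Pt Γ'' (D \ Q) := ⟨p.2.1, p.2.2.1, fun t => hp (h1 t)⟩
    have q := partner hN (adm_symm r''.adm) hp'
    have q' := partner hN r'.adm q.1
    have t := mt_trans q.2 q'.2
    have u := mt_pt t p.2 q'.1.1
    have e : κ ⟨_, u⟩ = p := Subtype.ext (mt_uniq hN (mt_trans (mt_symm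
      (m ⟨_, u⟩ (by rw [← mt_pr t]; exact hp))) (mt_symm t)) (κ _).2.1 p.2.1)
    rw [show κ.symm p = ⟨_, u⟩ from κ.symm_apply_eq.2 e.symm]
    exact t
  obtain ⟨F, c, a, b⟩ := key hN r' r'' hR hQ h1 h2 κ κ.continuous m
  obtain ⟨G, c', a', b'⟩ := key hN r'' r' hR hQ h1 h2 κ.symm κ.symm.continuous m'
  have l := fun y hy => key2 hN r' r'' h1 h2 h3 κ κ.symm κ.symm_apply_apply a b a' b' (y := y) hy
  have l' := fun y hy => key2 hN r'' r' h1 h2 h3 κ.symm κ κ.apply_symm_apply a' b' a b (y := y) hy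
  refine ⟨⟨⟨⟨F, G, _, _, fun y hy => (l y hy).1, fun y hy => (l' y hy).1, fun y hy => (l y hy).2,
    fun y hy => (l' y hy).2⟩, c, c'⟩,
    (closed_img hN r'.adm.c' r'.oe' hR (h3.trans h2)).isOpen_compl,
    (closed_img hN r''.adm.c' r''.oe' hR (h3.trans h2)).isOpen_compl⟩, rfl, rfl, a, fun x hx => ?_⟩
  have o := out_core hN r' h1 h2 hx
  exact (b _ o.2).trans (by rw [h'.left_inv o.1])

theorem core_compact [T2Space X] [T2Space X'] (hN : N.Ok) (r : Rp N Γ Γ' D Q i i' h') {K : Set X'}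
    (hK : IsCompact K) : IsCompact (i '' N.Pt Γ Q ∪ h'.source ∩ h' ⁻¹' K) := by
  refine compact_union ((compact_pt hN r.adm.c r.adm.cp).image_of_continuousOn
    ((oe_cont r.oe).mono (pt_mono r.adm.sub))) fun U hU hc => ?_
  have hs : Uᶜ ⊆ h'.source := by rw [r.src]; exact compl_subset_compl.2 hc
  obtain ⟨U', hU', e⟩ := continuousOn_iff'.1 (oe_cont r.oe) U hU
  have hW := (closed_pr hN r.adm.c hU'.isClosed_compl).isOpen_compl
  have hZ : IsClosed (h' '' Uᶜ) := by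
    refine isOpen_compl_iff.1 (isOpen_iff_mem_nhds.2 fun y hy => ?_)
    by_cases c : y ∈ h'.target
    · have hx : h'.symm y ∈ U := by_contra fun t => hy ⟨_, t, h'.right_inv c⟩
      filter_upwards [(h'.continuousAt_symm c).preimage_mem_nhds (hU.mem_nhds hx)] with z hz
      rintro ⟨x, hx, rfl⟩
      rw [mem_preimage, h'.left_inv (hs hx)] at hz
      exact hx hz
    · rw [r.tgt, mem_compl_iff, not_not] at c
      obtain ⟨p, hp, rfl⟩ := c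
      refine mem_of_superset ((oe_open r.oe' (hW.preimage (cont_pr hN))).mem_nhds
        ⟨p, ⟨pt_mono r.adm.sub hp, ?_⟩, rfl⟩) ?_
      · rintro ⟨q, hq, t⟩
        have a : q ∈ N.Pt Γ Q := ⟨hq.1, show N.pr q ∈ Q from t ▸ hp.2⟩
        exact hq.2 (e.subset ⟨hc ⟨q, a, rfl⟩, pt_mono r.adm.sub a⟩).1
      · rintro _ ⟨q, hq, rfl⟩ ⟨x, hx, t⟩
        have ht := h'.map_source (hs hx)
        rw [r.tgt, t] at ht
        have a : q ∈ N.Pt Γ' (D \ Q) := ⟨hq.1.1, hq.1.2, (not_img r.oe' r.adm.sub hq.1).1 ht⟩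
        have b := partner hN (adm_symm r.adm) a
        have c := (rp_symm r).rel q a _ b.1.1 b.2
        rw [← t, h'.left_inv (hs hx)] at c
        refine hq.2 ⟨_, ⟨b.1.1, fun u => hx ?_⟩, (mt_pr b.2).symm⟩
        rw [c]
        exact (e.symm.subset ⟨u, pt_mono sdiff_subset b.1⟩).1
  have ht : K ∩ h' '' Uᶜ ⊆ h'.target := fun _ ⟨_, x, hx, t⟩ => t ▸ h'.map_source (hs hx)
  convert (hK.inter_right hZ).image_of_continuousOn (h'.continuousOn_symm.mono ht) using 1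
  ext x
  constructor
  · exact fun hx => ⟨h' x, ⟨hx.1.2, x, hx.2, rfl⟩, h'.left_inv hx.1.1⟩
  · rintro ⟨_, ⟨a, z, hz, rfl⟩, rfl⟩
    rw [h'.left_inv (hs hz)]
    exact ⟨⟨hs hz, a⟩, hz⟩

variable {B' : Type} [TopologicalSpace B'] {β : B' → B} {V : Set B'} {G' : B' → ℝ}
  {D' Q₁ : Set (E2 × B')}

theorem img_sub (hD : ∀ q ∈ D', q.2 ∈ V ∧ (q.1, β q.2) ∈ D ∧ Γ' (β q.2) = G' q.2) (hQ : Q₁ ⊆ D') :
    (fun p : N.F × B' => (p.1, β p.2)) '' N.Pt G' Q₁ =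
      N.Pt Γ' ((fun q : E2 × B' => (q.1, β q.2)) '' Q₁) := by
  ext p
  constructor
  · rintro ⟨q, hq, rfl⟩
    exact ⟨hq.1.trans (hD _ (hQ hq.2)).2.2.symm, N.pr q, hq.2, rfl⟩
  · rintro ⟨hp, q, hq, e⟩
    have e1 : q.1 = N.w p.1 := congrArg Prod.fst e
    have e2 : β q.2 = p.2 := congrArg Prod.snd e
    refine ⟨(p.1, q.2), ⟨?_, ?_⟩, Prod.ext rfl e2⟩
    · exact (hp.trans (congrArg Γ' e2.symm)).trans (hD q (hQ hq)).2.2
    · change (N.w p.1, q.2) ∈ Q₁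
      rw [← e1]; exact hq

theorem oe_sub (hN : N.Ok) (h : IsOpenEmbedding ((N.Pt Γ' D).domRestrict i'))
    (hβ : IsOpenEmbedding (V.domRestrict β)) (hD' : IsOpen D')
    (hD : ∀ q ∈ D', q.2 ∈ V ∧ (q.1, β q.2) ∈ D ∧ Γ' (β q.2) = G' q.2) :
    IsOpenEmbedding ((N.Pt G' D').domRestrict fun p => i' (p.1, β p.2)) := by
  have m : ∀ p ∈ N.Pt G' D', ((p.1, β p.2) : N.F × B) ∈ N.Pt Γ' D := fun p hp =>
    ⟨hp.1.trans (hD _ hp.2).2.2.symm, (hD _ hp.2).2.1⟩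
  refine oe_of (fun p hp q hq e => ?_) ((oe_cont h).comp (continuousOn_fst.prodMk
    ((oe_cont hβ).comp continuousOn_snd fun p hp => (hD _ hp.2).1)) m) fun O hO => ?_
  · have a := oe_inj h (m p hp) (m q hq) e
    exact Prod.ext (Prod.mk.inj a).1 (oe_inj hβ (hD _ hp.2).1 (hD _ hq.2).1 (Prod.mk.inj a).2)
  · have hO' : IsOpen ((fun p : N.F × B' => (p.1, β p.2)) '' (O ∩ N.pr ⁻¹' D')) := by
      refine isOpen_iff_mem_nhds.2 ?_
      rintro _ ⟨p, hp, rfl⟩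
      obtain ⟨u, v, hu, hv, h1, h2, h3⟩ := isOpen_prod_iff.1
        (hO.inter (hD'.preimage (cont_pr hN))) p.1 p.2 hp
      refine mem_of_superset (prod_mem_nhds (hu.mem_nhds h1)
        ((oe_open hβ hv).mem_nhds ⟨p.2, ⟨(hD _ hp.2).1, h2⟩, rfl⟩)) ?_
      rintro ⟨a, _⟩ ⟨ha, b, hb, rfl⟩
      exact ⟨(a, b), h3 ⟨ha, hb.2⟩, rfl⟩
    convert oe_open h hO' using 1
    ext y
    constructor
    · rintro ⟨p, hp, rfl⟩
      exact ⟨_, ⟨m p hp.1, p, ⟨hp.2, hp.1.2⟩, rfl⟩, rfl⟩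
    · rintro ⟨_, ⟨a, p, hp, rfl⟩, rfl⟩
      exact ⟨p, ⟨⟨a.1.trans (hD _ hp.2).2.2, hp.2⟩, hp.1⟩, rfl⟩

end Loc

open Loc

theorem loc : LocStmt := by
  intro N B X X' X'' _ _ _ _ _ _ _ _ Γ Γ' Γ'' D Q Q' i i' i'' h' h'' hN r' r'' hQ h1 h2 hm
  obtain ⟨κ, m⟩ : Mv N Γ' Γ'' (D \ ∅) Q' := by rwa [sdiff_empty]
  obtain ⟨k, s, t, -, b⟩ := gen hN r' r'' isCompact_empty hQ h1 h2 (empty_subset _) κ m
  exact ⟨k.toHomeomorphOfSourceEqUnivTargetEqUniv (by simp [s, NF.Pt]) (by simp [t, NF.Pt]), b⟩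

theorem sub : SubStmt := by
  intro N B B' X X' X'' _ _ _ _ _ _ _ _ _ Γ Γ' Γ'' D Q i i' i'' h' h'' β V G' G'' D' Q' hN r' r''
    ad _ hβ hD hf
  have hD1 : ∀ q ∈ D', q.2 ∈ V ∧ (q.1, β q.2) ∈ D ∧ Γ' (β q.2) = G' q.2 := fun q hq =>
    ⟨(hD q hq).1, (hD q hq).2.1, (hD q hq).2.2.1⟩
  have hD2 : ∀ q ∈ D', q.2 ∈ V ∧ (q.1, β q.2) ∈ D ∧ Γ'' (β q.2) = G'' q.2 := fun q hq =>
    ⟨(hD q hq).1, (hD q hq).2.1, (hD q hq).2.2.2⟩
  obtain ⟨R, hR⟩ : ∃ R, R = (fun q : E2 × B' => (q.1, β q.2)) '' Q' := ⟨_, rfl⟩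
  have c : IsCompact R := hR ▸ ad.cp.image_of_continuousOn (continuousOn_fst.prodMk
    ((oe_cont hβ).comp continuousOn_snd fun q hq => (hD q (ad.sub hq)).1))
  have s : R ⊆ D := by
    rw [hR]; rintro _ ⟨q, hq, rfl⟩; exact (hD q (ad.sub hq)).2.1
  have ad' : Adm Γ' Γ'' D R := ⟨r'.adm.op, c, s, r'.adm.c', r''.adm.c', fun q hq h1 =>
    hf q hq.1 h1 fun b hb e => hq.2 (hR ▸ ⟨(q.1, b), hb, Prod.ext rfl e⟩)⟩
  obtain ⟨κ, m⟩ := mv_adm hN ad'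
  obtain ⟨k, ks, kt, a, b⟩ := gen hN r' r'' c (r'.adm.cp.union c) subset_union_left
    (union_subset r'.adm.sub s) subset_union_right κ fun p _ => m p
  have h3 : ∀ p ∈ N.Pt Γ' D, ∀ p' ∈ N.Hyp Γ'', i' p ∈ k.source → N.Mt p p' → k (i' p) = i'' p' :=
    fun p hp p' hp' t u => by
      rw [ks] at t
      have hp2 : p ∈ N.Pt Γ' (D \ R) := ⟨hp.1, hp.2, (not_img r'.oe' s hp).1 t⟩
      rw [a ⟨p, hp2⟩, mt_uniq hN (mt_trans (mt_symm (m ⟨p, hp2⟩)) u) (κ _).2.1 hp']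
  refine ⟨k, ⟨ad, oe_sub hN r'.oe' hβ ad.op hD1, oe_sub hN r''.oe' hβ ad.op hD2, ?_, ?_,
    fun p hp p' hp' u => ?_⟩, fun x hx t => b x ?_, h3⟩
  · rw [ks, hR, ← img_sub hD1 ad.sub, image_image]
  · rw [kt, hR, ← img_sub hD2 ad.sub, image_image]
  · have d := hD _ hp.2.1
    have hp1 : ((p.1, β p.2) : N.F × B) ∈ N.Pt Γ' D := ⟨hp.1.trans d.2.2.1.symm, d.2.1⟩
    refine h3 _ hp1 (p'.1, β p'.2) ?_ ?_ ⟨congrArg β u.1, u.2⟩
    · exact hp'.trans (u.1 ▸ d.2.2.2.symm)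
    · rw [ks]
      refine (not_img r'.oe' s hp1).2 ?_
      rw [hR]
      rintro ⟨q, hq, e⟩
      have e2 : q.2 = p.2 := oe_inj hβ (hD q (ad.sub hq)).1 d.1 (congrArg Prod.snd e)
      exact hp.2.2 ((Prod.ext (Prod.mk.inj e).1 e2 : q = N.pr p) ▸ hq)
  · rintro ⟨p, hp, rfl⟩
    have hp1 := pt_mono (union_subset r'.adm.sub s) hp
    rw [r'.src] at hx
    have hp2 : p ∈ N.Pt Γ (D \ Q) := ⟨hp.1, hp1.2, (not_img r'.oe r'.adm.sub hp1).1 hx⟩
    have q := partner hN r'.adm hp2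
    rw [ks, r'.rel p hp2 _ q.1.1 q.2] at t
    refine hp.2.elim hp2.2.2 fun u => ?_
    exact (not_img r'.oe' s (pt_mono sdiff_subset q.1)).1 t (mt_pr q.2 ▸ u)

theorem self : SelfStmt := by
  intro N B X X' _ _ _ _ _ _ Γ Γ' D Q i i' h hN
  refine ⟨fun ad oe => ⟨OpenPartialHomeomorph.ofSet _
    (closed_img hN ad.c oe ad.cp ad.sub).isOpen_compl, ⟨ad, oe, oe, rfl, rfl, fun p hp p' hp' m =>
      congrArg i (mt_uniq hN m hp.1 hp')⟩, fun _ => rfl⟩, rp_symm, fun r K hK O _ h1 h2 =>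
    ⟨_, core_compact hN r hK, union_subset h1 h2, subset_union_left, subset_union_right⟩⟩

end Pool.Agent.MP_e1dc65_gt.T

end
end MrgPart0

-- ======== part 1: formerly Pool.Agent.MP_e1dc65_gt.t.Api
section MrgPart1

/-! PROJECT HC, part T: shared facts on the normal form, the matching map and the model. The
point-set part is in `t/Loc` (namespace `T.Loc`); this file continues it. -/

open scoped ContDiff Manifold Topology Real
open Set Filter Function Module Topology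

set_option linter.unusedSectionVars false

noncomputable section

namespace Pool.Agent.MP_e1dc65_gt.T

namespace Loc

/-! ### The end chart -/

section
variable {N : NF} {m : N.F} {q : R3}

theorem pinv_pj (h : N.Ok) (hm : m ∉ N.K) : N.pinv (N.pj m) = m := h.oe.left (not_K.1 hm)
theorem pj_inj (h : N.Ok) {m' : N.F} (hm : m ∉ N.K) (e : N.pj m = N.pj m') : m = m' :=
  h.oe.inj (not_K.1 hm) (show N.pj m' ∈ Out from e ▸ not_K.1 hm) e
theorem img_pj (h : N.Ok) : N.pj '' (N.pj ⁻¹' Out) = Out := image_preimage_eq_of_subset h.onto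
theorem oe_pinv (h : N.Ok) : OE (vs R3) N.F N.pinv Out := by
  have := h.oe.symm
  rwa [img_pj h] at this
theorem pinv_not_K (h : N.Ok) (hq : q ∈ Out) : N.pinv q ∉ N.K :=
  not_K.2 ((pj_pinv h hq).symm ▸ hq)
theorem w_pinv (h : N.Ok) (hq : q ∈ Out) : N.w (N.pinv q) = q.1 := congrArg Prod.fst (pj_pinv h hq)
theorem f_pinv (h : N.Ok) (hq : q ∈ Out) : N.f (N.pinv q) = q.2 := congrArg Prod.snd (pj_pinv h hq)
theorem img_pinv (h : N.Ok) : N.pinv '' Out = N.Kᶜ :=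
  Subset.antisymm (by rintro _ ⟨q, hq, rfl⟩; exact pinv_not_K h hq)
    fun m hm => ⟨_, not_K.1 hm, pinv_pj h hm⟩
theorem mem_K : m ∈ N.K ↔ ‖N.w m‖ ≤ 1 ∧ |N.f m| ≤ 1 :=
  not_or.trans (and_congr not_lt not_lt)
theorem not_out : q ∉ Out ↔ ‖q.1‖ ≤ 1 ∧ |q.2| ≤ 1 := not_or.trans (and_congr not_lt not_lt)
theorem compact_box (a b : ℝ) : IsCompact {q : R3 | ‖q.1‖ ≤ a ∧ |q.2| ≤ b} := by
  convert (isCompact_closedBall (0 : E2) a).prod (isCompact_closedBall (0 : ℝ) b) using 1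
  ext q; simp
theorem compact_K (h : N.Ok) : IsCompact N.K := by
  convert h.prop _ (compact_box 1 1) using 1
  ext m; exact mem_K
theorem open_not_K (h : N.Ok) : IsOpen N.Kᶜ := (compact_K h).isClosed.isOpen_compl
theorem sm_pj (h : N.Ok) (m : N.F) : SmAt N.F (vs R3) N.pj m :=
  ContMDiffAt.prodMk_space (h.smw m trivial) (h.smf m trivial)
theorem proper_pj (h : N.Ok) : IsProperMap N.pj :=
  isProperMap_iff_isCompact_preimage.2 ⟨cont_pj h, fun K hK => h.prop K hK⟩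

end

/-! ### The matching map -/

section
variable {N : NF} {B : Type} {Γ Γ' : B → ℝ} {D Q : Set (E2 × B)} {p p' : N.F × B}

theorem rg_snd (p : N.F × B) : (rg N Γ' p).2 = p.2 := by unfold rg; split_ifs <;> rfl
theorem rg_of_out (h : (N.w p.1, Γ' p.2) ∈ Out) : rg N Γ' p = (N.pinv (N.w p.1, Γ' p.2), p.2) :=
  if_pos h
theorem rg_self (hN : N.Ok) (hp : p ∈ N.Hyp Γ') : rg N Γ' p = p :=
  have := rg_spec (Γ' := Γ') hN hp fun _ => Or.inl rfl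
  (mt_uniq hN this.2 hp this.1).symm
theorem mt_pinv (hN : N.Ok) (hp : p.1 ∉ N.K) {t : ℝ} (h : (N.w p.1, t) ∈ Out) :
    N.Mt p (N.pinv (N.w p.1, t), p.2) :=
  ⟨rfl, Or.inr ⟨hp, pinv_not_K hN h, (w_pinv hN h).symm⟩⟩
theorem mt_K (h : N.Mt p p') (hp : p.1 ∈ N.K) : p' = p :=
  Prod.ext (h.2.resolve_right fun a => a.1 hp).symm h.1.symm
theorem mt_not_K (h : N.Mt p p') (hp : p.1 ∉ N.K) : p'.1 ∉ N.K :=
  fun a => hp (mt_K (mt_symm h) a ▸ a)

variable [TopologicalSpace B]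

theorem eq_rg (hN : N.Ok) (h : Adm Γ Γ' D Q) (hp : p ∈ N.Pt Γ (D \ Q)) (hp' : p' ∈ N.Hyp Γ')
    (m : N.Mt p p') : rg N Γ' p = p' :=
  mt_uniq hN (mt_trans (mt_symm (partner hN h hp).2) m) (partner hN h hp).1.1 hp'
theorem rg_rg (hN : N.Ok) (h : Adm Γ Γ' D Q) (hp : p ∈ N.Pt Γ (D \ Q)) :
    rg N Γ (rg N Γ' p) = p :=
  eq_rg hN (adm_symm h) (partner hN h hp).1 hp.1 (mt_symm (partner hN h hp).2)
theorem rg_of_K (hN : N.Ok) (h : Adm Γ Γ' D Q) (hp : p ∈ N.Pt Γ (D \ Q)) (hK : p.1 ∈ N.K) :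
    rg N Γ' p = p := mt_K (partner hN h hp).2 hK
theorem out_of_not_K (hN : N.Ok) (h : Adm Γ Γ' D Q) (hp : p ∈ N.Pt Γ (D \ Q)) (hK : p.1 ∉ N.K) :
    (N.w p.1, Γ' p.2) ∈ Out := by
  have a := partner hN h hp
  have b := not_K.1 (mt_not_K a.2 hK)
  have c : N.pj (rg N Γ' p).1 = (N.w p.1, Γ' p.2) :=
    Prod.ext (congrArg Prod.fst (mt_pr a.2)).symm (a.1.1.trans (congrArg Γ' (rg_snd p)))
  exact c ▸ b
theorem rg_ev_out (hN : N.Ok) (hc : Continuous Γ') (h : (N.w p.1, Γ' p.2) ∈ Out) :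
    ∀ᶠ z in 𝓝 p, (N.w z.1, Γ' z.2) ∈ Out ∧ rg N Γ' z = (N.pinv (N.w z.1, Γ' z.2), z.2) := by
  have hc : Continuous fun p : N.F × B => ((N.w p.1, Γ' p.2) : R3) :=
    ((cont_w hN).comp continuous_fst).prodMk (hc.comp continuous_snd)
  filter_upwards [(out_open.preimage hc).mem_nhds h] with z hz using ⟨hz, if_pos hz⟩

variable [T2Space B]

/-- over the unit box the two functions agree near the point -/
theorem ev_eq (h : Adm Γ Γ' D Q) {q : E2 × B} (hq : q ∈ D \ Q) (h1 : ‖q.1‖ ≤ 1)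
    (h2 : |Γ q.2| ≤ 3 / 2 - 1 / 10) : Γ =ᶠ[𝓝 q.2] Γ' := by
  have h4 : ∀ᶠ b in 𝓝 q.2, (q.1, b) ∈ D \ Q :=
    (continuous_const.prodMk continuous_id).continuousAt.preimage_mem_nhds
      ((h.op.sdiff h.cp.isClosed).mem_nhds hq)
  have h5 : ∀ᶠ b in 𝓝 q.2, |Γ b| < 3 / 2 :=
    h.c.abs.continuousAt.eventually_lt_const (lt_of_le_of_lt h2 (by norm_num))
  filter_upwards [h4, h5] with b a c
  exact (h.far _ a h1).resolve_right fun d => lt_asymm c d.1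

/-- the two local forms of the matching map -/
theorem rg_local (hN : N.Ok) (h : Adm Γ Γ' D Q) (hp : p ∈ N.Pt Γ (D \ Q)) :
    (p.1 ∉ N.K ∧ ∀ᶠ z in 𝓝 p, z.1 ∉ N.K ∧ (N.w z.1, Γ' z.2) ∈ Out ∧
      rg N Γ' z = (N.pinv (N.w z.1, Γ' z.2), z.2)) ∨
    (p.1 ∈ N.K ∧ Γ =ᶠ[𝓝 p.2] Γ' ∧ ∀ᶠ z in 𝓝 p, z ∈ N.Hyp Γ → rg N Γ' z = z) := by
  by_cases hK : p.1 ∈ N.K
  · have e : Γ =ᶠ[𝓝 p.2] Γ' := ev_eq h (q := N.pr p) hp.2 (mem_K.1 hK).1 (by
      have a := (mem_K.1 hK).2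
      rw [show N.f p.1 = Γ p.2 from hp.1] at a
      exact a.trans (by norm_num))
    refine Or.inr ⟨hK, e, ?_⟩
    filter_upwards [continuousAt_snd.eventually e] with z a b using rg_self hN (b.trans a)
  · exact Or.inl ⟨hK, (continuousAt_fst.eventually ((open_not_K hN).mem_nhds hK)).and
      (rg_ev_out hN h.c' (out_of_not_K hN h hp hK))⟩

theorem closed_hyp (hN : N.Ok) (hΓ : Continuous Γ) : IsClosed (N.Hyp Γ) :=
  isClosed_eq ((cont_f hN).comp continuous_fst) (hΓ.comp continuous_snd)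

/-- a neighbourhood of the part over `Q` contains the part over a neighbourhood of `Q` -/
theorem tube (hN : N.Ok) (hΓ : Continuous Γ) {U : Set (N.F × B)} (hU : IsOpen U)
    (h : N.Pt Γ Q ⊆ U) : ∃ W, IsOpen W ∧ Q ⊆ W ∧ N.Pt Γ W ⊆ U :=
  ⟨_, (closed_pr hN hΓ hU.isClosed_compl).isOpen_compl,
    fun _ hq ⟨_, hp, e⟩ => hp.2 (h ⟨hp.1, show N.pr _ ∈ Q from e ▸ hq⟩),
    fun p hp => by_contra fun a => hp.2 ⟨p, ⟨hp.1, a⟩, rfl⟩⟩

end

/-! ### The model -/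

section
variable {s t y : ℝ}

theorem cd_bet : ContDiff ℝ ∞ bet := Real.smoothTransition.contDiff.comp (by fun_prop)
theorem bet_nonneg (y : ℝ) : 0 ≤ bet y := Real.smoothTransition.nonneg _
theorem bet_le_one (y : ℝ) : bet y ≤ 1 := Real.smoothTransition.le_one _
theorem bet_one (h : |y| ≤ 2) : bet y = 1 :=
  Real.smoothTransition.one_of_one_le (by nlinarith [sq_abs y, abs_nonneg y])
theorem bet_zero (h : 3 ≤ |y|) : bet y = 0 :=
  Real.smoothTransition.zero_of_nonpos (by nlinarith [sq_abs y])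
theorem bet_neg (y : ℝ) : bet (-y) = bet y := by simp [bet]
theorem cd_gam2 : ContDiff ℝ ∞ fun p : ℝ × ℝ => gam p.1 p.2 :=
  ((contDiff_snd.pow 2).add contDiff_const).sub
    ((contDiff_const.sub contDiff_fst).mul (cd_bet.comp contDiff_snd))
theorem cd_gam (t : ℝ) : ContDiff ℝ ∞ (gam t) :=
  ((contDiff_id.pow 2).add contDiff_const).sub (contDiff_const.mul cd_bet)
theorem gam_in (t : ℝ) (h : |y| ≤ 2) : gam t y = y ^ 2 + t := by rw [gam, bet_one h]; ring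
theorem gam_out (t : ℝ) (h : 3 ≤ |y|) : gam t y = y ^ 2 + 2 := by rw [gam, bet_zero h]; ring
theorem gam_neg (t y : ℝ) : gam t (-y) = gam t y := by simp [gam, bet_neg]
theorem gam_two (y : ℝ) : gam 2 y = y ^ 2 + 2 := by simp [gam]
theorem gam_zero (t : ℝ) : gam t 0 = t := by simpa using gam_in (y := 0) t (by norm_num)
theorem gam_le (h : t ≤ 2) (y : ℝ) : gam t y ≤ y ^ 2 + 2 :=
  sub_le_self _ (mul_nonneg (sub_nonneg.2 h) (bet_nonneg y))
theorem le_gam (h : t ≤ 2) (y : ℝ) : y ^ 2 + t ≤ gam t y := by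
  unfold gam; nlinarith [bet_le_one y]
theorem gam_mono (h : s ≤ t) (y : ℝ) : gam s y ≤ gam t y := by
  unfold gam; nlinarith [bet_nonneg y]

theorem hasDerivAt_gam (t y : ℝ) : HasDerivAt (gam t)
    (y * (2 + (2 - t) * (2 / 5) * deriv Real.smoothTransition ((9 - y ^ 2) / 5))) y := by
  have h1 : HasDerivAt (fun y : ℝ => (9 - y ^ 2) / 5) (-(2 * y) / 5) y := by
    simpa using (((hasDerivAt_id y).fun_pow 2).const_sub 9).div_const 5
  have h2 := ((Real.smoothTransition.contDiff (n := 1)).differentiable one_ne_zero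
    ((9 - y ^ 2) / 5)).hasDerivAt.comp y h1
  have h3 := (((hasDerivAt_id y).fun_pow 2).add_const 2).fun_sub (h2.const_mul (2 - t))
  refine HasDerivAt.congr_deriv h3 ?_
  simp only [id]; push_cast; ring

theorem two_sq_le (h : t ≤ 2) (y : ℝ) : 2 * y ^ 2 ≤ y * deriv (gam t) y := by
  rw [(hasDerivAt_gam t y).deriv]
  have := mul_nonneg (mul_nonneg (sub_nonneg.2 h)
    (Real.smoothTransition.monotone.deriv_nonneg (x := (9 - y ^ 2) / 5))) (sq_nonneg y)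
  nlinarith
theorem mul_deriv_pos (h : t ≤ 2) (hy : y ≠ 0) : 0 < y * deriv (gam t) y :=
  lt_of_lt_of_le (by positivity) (two_sq_le h y)
theorem deriv_gam_pos (h : t ≤ 2) (hy : 0 < y) : 0 < deriv (gam t) y :=
  pos_of_mul_pos_left (mul_comm y _ ▸ mul_deriv_pos h hy.ne') hy.le
theorem gam_strict (h : t ≤ 2) : StrictMonoOn (gam t) (Ici 0) :=
  strictMonoOn_of_deriv_pos (convex_Ici 0) (cd_gam t).continuous.continuousOn fun y hy =>
    deriv_gam_pos h (by simpa using hy)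

theorem cd_Gm2 : ContDiff ℝ ∞ fun p : ℝ × R3 => Gm p.1 p.2 :=
  (cd_gam2.comp (contDiff_fst.prodMk contDiff_snd.snd)).sub (contDiff_snd.fst.norm_sq ℝ)
theorem cd_Gm (t : ℝ) : ContDiff ℝ ∞ (Gm t) :=
  ((cd_gam t).comp contDiff_snd).sub (contDiff_fst.norm_sq ℝ)
theorem fderiv_Gm (t : ℝ) (b v : R3) :
    fderiv ℝ (Gm t) b v = deriv (gam t) b.2 * v.2 - 2 * inner ℝ b.1 v.1 := by
  have h1 := ((cd_gam t).differentiable (by simp) b.2).hasDerivAt.hasFDerivAt.comp b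
    (hasFDerivAt_snd (𝕜 := ℝ) (p := b))
  have h2 : fderiv ℝ (Gm t) b = _ := (h1.sub (hasFDerivAt_fst (𝕜 := ℝ) (p := b)).norm_sq).fderiv
  rw [h2]
  simp [mul_comm]

theorem crit_Gm (h : t ≤ 2) {b : R3} (e : fderiv ℝ (Gm t) b = 0) : b = 0 := by
  have a := fderiv_Gm t b (b.1, 0)
  have c := fderiv_Gm t b (0, b.2)
  rw [e] at a c
  refine Prod.ext (by simpa using a) (by_contra fun n => (mul_deriv_pos h n).ne ?_)
  simpa [mul_comm] using c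

theorem open_D0 : IsOpen D0 :=
  (isOpen_lt continuous_fst.norm continuous_const).inter
    ((isOpen_lt continuous_snd.fst.norm continuous_const).inter
      (isOpen_lt continuous_snd.snd.abs continuous_const))
theorem compact_Q0 : IsCompact Q0 := by
  convert (isCompact_closedBall (0 : E2) 1).prod (compact_box 4 3) using 1
  ext q; simp [Q0]
theorem Q0_sub : Q0 ⊆ D0 := fun _ h =>
  ⟨h.1.trans_lt (by norm_num), h.2.1.trans_lt (by norm_num), h.2.2.trans_lt (by norm_num)⟩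

theorem Gm_lt (h : t ≤ 2) {b : R3} (h1 : 4 < ‖b.1‖) (h2 : |b.2| ≤ 3) : Gm t b < -5 := by
  have := gam_le h b.2
  unfold Gm
  nlinarith [sq_abs b.2, abs_nonneg b.2]

theorem adm_Gm (hs : s ≤ 2) (ht : t ≤ 2) {D : Set (E2 × R3)} (hD : IsOpen D) (h : Q0 ⊆ D) :
    Adm (Gm s) (Gm t) D Q0 := by
  refine ⟨hD, compact_Q0, h, (cd_Gm s).continuous, (cd_Gm t).continuous, fun q hq h1 => ?_⟩
  by_cases h2 : |q.2.2| ≤ 3
  · have h3 : 4 < ‖q.2.1‖ := not_le.1 fun a => hq.2 ⟨h1, a, h2⟩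
    exact Or.inr ⟨lt_abs.2 (Or.inr (by linarith [Gm_lt hs h3 h2])),
      lt_abs.2 (Or.inr (by linarith [Gm_lt ht h3 h2]))⟩
  · exact Or.inl (by rw [Gm, Gm, gam_out s (not_le.1 h2).le, gam_out t (not_le.1 h2).le])

theorem reg_Gm (N : NF) (h : t ≤ 2) (h1 : t ≠ N.v₁) (h2 : t ≠ N.v₂) (D : Set (E2 × R3)) :
    Reg N (vs R3) (Gm t) D := by
  refine ⟨fun _ _ => smAt_vs.2 (cd_Gm t).contDiffAt, fun q _ a e => ?_⟩
  rw [Df_vs] at e
  have b : Gm t q.2 = t := by rw [show q.2 = (0 : R3) from crit_Gm h e]; simp [Gm, gam_zero]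
  exact a.elim (fun a => h1 (b.symm.trans a)) fun a => h2 (b.symm.trans a)

end

end Loc

end Pool.Agent.MP_e1dc65_gt.T

end
end MrgPart1

-- ======== part 2: formerly Pool.Agent.MP_e1dc65_gt.t.KeyI
section MrgPart2

/-! PROJECT HC, block KEY: the interface between the model and the transfer to patches. -/

open scoped ContDiff Manifold Topology
open Set Function Metric

noncomputable section

namespace Pool.Agent.MP_e1dc65_gt.T

abbrev U1 : Type := WithLp 2 (ℝ × ℝ)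
abbrev V1 : Type := WithLp 2 (E2 × E2)
abbrev U2 : Type := WithLp 2 (E2 × ℝ)
abbrev V2 : Type := WithLp 2 (ℝ × E2)

/-- the whole model hypersurface as a manifold -/
def NF.Lv (N : NF) (t : ℝ) (Z : Mf (Rn 5)) (j : Z → N.F.prod (vs R3)) : Prop :=
  Level (N.F.prod (vs R3)) (fun p => N.f p.1 - Gm t p.2) (N.Hyp (Gm t)) Z j

/-- a surgery between two model hypersurfaces which is the obvious map off `Q0` -/
structure MS (N : NF) {U V : Type} [NormedAddCommGroup U] [NormedSpace ℝ U] [NormedAddCommGroup V]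
    [NormedSpace ℝ V] {Z Z' : Mf (Rn 5)} (j : Z → N.F.prod (vs R3)) (j' : Z' → N.F.prod (vs R3))
    (σ : T1.Surg (Fin 3) U V Z Z') : Prop where
  smA : σ.A.Smooth (Rn 5)
  smB : σ.B.Smooth (Rn 5)
  tA : ∀ k, ∀ z ∈ (σ.A.a k).target, N.pr (j z) ∈ Q0
  tB : ∀ k, ∀ z ∈ (σ.B.a k).target, N.pr (j' z) ∈ Q0
  out : ∀ z, N.pr (j z) ∉ Q0 → z ∈ σ.φ.source ∧ N.Mt (j z) (j' (σ.φ z))
  inn : ∀ z ∈ σ.φ.source, N.pr (j z) ∈ Q0 → N.pr (j' (σ.φ z)) ∈ Q0

/-- block KEY, the model: two surgeries with the intersection data of `T1.HCStmt` -/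
def KeyMStmt : Prop :=
  ∀ N : NF, N.Ok → (∃ t b d s₀ μ, N.Int t b d s₀ μ) →
    ∃ (t : ℝ) (Zm Z0 Zp : Mf (Rn 5)) (jm : Zm → N.F.prod (vs R3)) (j0 : Z0 → N.F.prod (vs R3))
      (jp : Zp → N.F.prod (vs R3)) (σ₁ : T1.Surg (Fin 3) U1 V1 Zm Z0)
      (σ₂ : T1.Surg (Fin 3) U2 V2 Z0 Zp) (g : Fin 3 → Z0 → U1) (κ : (ℝ × U1) ≃L[ℝ] U2)
      (d : Fin 3 → sphere (0 : U2) 1 → ℝ) (s₀ : Fin 3 → sphere (0 : U2) 1)
      (m : Fin 3 → sphere (0 : U2) 1 → sphere (0 : U2) 1),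
      N.v₁ < t ∧ t < N.v₂ ∧ |t| < 1 ∧ N.Lv (-2) Zm jm ∧ N.Lv t Z0 j0 ∧ N.Lv 2 Zp jp ∧
      MS N jm j0 σ₁ ∧ MS N j0 jp σ₂ ∧
      (∀ j, ∀ x ∈ σ₁.B.core j, SmAt Z0 (vs U1) (g j) x ∧ g j x = 0 ∧
        Surjective (Df Z0 (vs U1) (g j) x)) ∧
      (∀ i j s, σ₂.A.a i (s, 0) ∈ σ₁.B.core j →
        d i s ≠ 0 ∧ T1.Sg κ (fun s => g j (σ₂.A.a i (s, 0))) s (d i s)) ∧
      (∀ i, σ₂.A.a i (s₀ i, 0) ∈ σ₁.B.core i) ∧
      ∀ i j s, σ₂.A.a i (s, 0) ∈ σ₁.B.core j → s ≠ s₀ i →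
        m i s ≠ s₀ i ∧ σ₂.A.a i (m i s, 0) ∈ σ₁.B.core j ∧ m i (m i s) = s ∧
        d i s * d i (m i s) < 0

end Pool.Agent.MP_e1dc65_gt.T

end
end MrgPart2

-- ======== part 3: formerly Pool.Agent.MP_e1dc65_gt.t.KeyM1
section MrgPart3

/-! PROJECT HC, block KEY: the flow on the six-dimensional model. -/

open scoped ContDiff Manifold Topology
open Set Filter Function Module Metric Real

noncomputable section

namespace Pool.Agent.MP_e1dc65_gt.T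

namespace KeyM

open Loc

variable {s t : ℝ}

/-! ### The flow -/

theorem ic_pair {E E' : Type} [NormedAddCommGroup E] [NormedSpace ℝ E] [NormedAddCommGroup E']
    [NormedSpace ℝ E'] {X : Mf E} {Y : Mf E'} {v : X → E} {w : Y → E'} {u : X.prod Y → E × E'}
    {c : ℝ → X} {b : ℝ → Y} (h : IC X v c t) (h' : IC Y w b t)
    (e : u (c t, b t) = (v (c t), w (b t))) : IC (X.prod Y) u (fun s => (c s, b s)) t := by
  unfold IC Df
  rw [e, ← h.2, ← h'.2, modelWithCornersSelf_prod]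
  exact ⟨h.1.prodMk h'.1, DFunLike.congr_fun (mfderiv_prodMk h.1 h'.1) _⟩

variable (N : NF)

/-- the model -/
abbrev M : Mf (Rn 3 × R3) := N.F.prod (vs R3)
def R (τ : ℝ) (m : N.F) : ℝ := ∫ s in (0 : ℝ)..τ, N.ρ (N.φ s m)
def Ξ (p : M N) : Rn 3 × R3 := (N.ξ p.1, N.ρ p.1 • p.2.1, -(N.ρ p.1 * p.2.2))
def Φ (τ : ℝ) (p : M N) : M N := (N.φ τ p.1, exp (R N τ p.1) • p.2.1, exp (-R N τ p.1) * p.2.2)
def G (t : ℝ) (p : M N) : ℝ := N.f p.1 - Gm t p.2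
def df (m : N.F) : ℝ := Df N.F (vs ℝ) N.f m (N.ξ m)
def dG (t : ℝ) (p : M N) : ℝ :=
  df N p.1 + N.ρ p.1 * (2 * ‖p.2.1‖ ^ 2 + p.2.2 * deriv (gam t) p.2.2)

variable {N} (h : N.Ok) {m : N.F} {p : M N} {τ : ℝ}
include h

theorem R_der (τ : ℝ) (m : N.F) : HasDerivAt (R N · m) (N.ρ (N.φ τ m)) τ :=
  ((h.smρ.cont.comp (h.fl.cont_curve m)).integral_hasStrictDerivAt 0 τ).hasDerivAt

theorem R_nonneg (hτ : 0 ≤ τ) : 0 ≤ R N τ m :=
  intervalIntegral.integral_nonneg hτ fun _ _ => (h.ρ01 _).1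

theorem R_nonpos (hτ : τ ≤ 0) : R N τ m ≤ 0 := by
  rw [R, intervalIntegral.integral_symm, neg_nonpos]
  exact intervalIntegral.integral_nonneg hτ fun _ _ => (h.ρ01 _).1

omit h in
theorem R_const {a : ℝ} (e : ∀ s ∈ uIcc 0 τ, N.ρ (N.φ s m) = a) : R N τ m = τ * a := by
  rw [R, intervalIntegral.integral_congr (g := fun _ => a) e]; simp

theorem der1 (p : M N) (τ : ℝ) :
    HasDerivAt (fun s => (Φ N s p).2.1) (N.ρ (Φ N τ p).1 • (Φ N τ p).2.1) τ := by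
  have := (R_der h τ p.1).exp.smul_const p.2.1
  rwa [mul_comm, mul_smul] at this

theorem der2 (p : M N) (τ : ℝ) :
    HasDerivAt (fun s => (Φ N s p).2.2) (-(N.ρ (Φ N τ p).1 * (Φ N τ p).2.2)) τ := by
  have := (R_der h τ p.1).neg.exp.mul_const p.2.2
  rwa [mul_neg, neg_mul, mul_comm (exp _), mul_assoc] at this

theorem flow : IsFlow (M N) (Ξ N) (Φ N) := by
  refine isFlow_of_curves (fun p => ?_) (fun p => ?_) fun p τ =>
    ic_pair (w := fun _ => (Ξ N (Φ N τ p)).2) (h.fl.der p.1 τ)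
      (ic_vs.2 ((der1 h p τ).prodMk (der2 h p τ))) rfl
  · have h1 : SmAt (M N) (vs R3) (fun q => (Ξ N q).2) p :=
      ((smAt_fst.trans (h.smρ _ trivial)).vpair smAt_snd).vcomp
        (g := fun r : ℝ × R3 => (r.1 • r.2.1, -(r.1 * r.2.2))) (by fun_prop)
    exact ((h.vf p.1).inl.add (vfAt_vert h1)).congr' (.of_forall fun q => by simp [Ξ])
  · simp [Φ, R, h.fl.zero]

theorem G_sm (t : ℝ) : Sm (M N) (vs ℝ) (G N t) univ := fun _ _ =>
  ((smAt_fst.trans (h.smf _ trivial)).vpair (smAt_snd.vcomp (cd_Gm t).contDiffAt)).vcomp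
    (g := fun r : ℝ × ℝ => r.1 - r.2) (by fun_prop)

theorem G_der (t : ℝ) : Der (Φ N) (G N t) (dG N t) := by
  refine ⟨(G_sm h t).cont, fun p τ => ?_⟩
  have := (h.fl.hasDerivAt (h.smf (N.φ τ p.1) trivial)).sub
    ((((cd_gam t).differentiable (by simp) _).hasDerivAt.comp τ (der2 h p τ)).sub
      (der1 h p τ).norm_sq)
  refine HasDerivAt.congr_deriv this ?_
  rw [inner_smul_right, real_inner_self_eq_norm_sq, dG]
  change df N (Φ N τ p).1 - _ = _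
  ring

theorem Df_G (t : ℝ) (p : M N) : Df (M N) (vs ℝ) (G N t) p (Ξ N p) = dG N t p := by
  have := (((flow h).toDer (G_sm h t)).der p 0).unique ((G_der h t).der p 0)
  rwa [(flow h).zero] at this

omit h in
theorem zero_mem (hδ : 0 < N.δ) : (0 : ℝ × E2) ∈ N.D₁ ∧ (0 : E2 × ℝ) ∈ N.D₂ := by
  simp [NF.D₁, NF.D₂, hδ.ne', sq_pos_iff]

theorem crit (m : N.F) : 0 < df N m ∨ (N.ξ m = 0 ∧ N.ρ m = 1) := by
  obtain ⟨h1, h2⟩ := zero_mem h.δpos
  by_contra! k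
  refine k.1.not_gt (h.pos m (fun j e => ?_) fun i e => ?_) <;> subst e
  · exact k.2 (by rw [← h.ξ₁ j 0 h1]; simp [Prod.mk_zero_zero]) (h.ρ₁ j 0 h1)
  · exact k.2 (by rw [← h.ξ₂ i 0 h2]; simp [Prod.mk_zero_zero]) (h.ρ₂ i 0 h2)

theorem df_nonneg (m : N.F) : 0 ≤ df N m :=
  (crit h m).elim le_of_lt fun k => by rw [df, k.1, map_zero]

theorem f_mono (m : N.F) : Monotone fun τ => N.f (N.φ τ m) := fun _ _ k =>
  h.fl.mono k fun _ _ => ⟨h.smf _ trivial, df_nonneg h _⟩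

theorem Ξ_zero (k : Ξ N p = 0) : N.ξ p.1 = 0 ∧ p.2 = 0 := by
  simp only [Ξ, Prod.mk_eq_zero, neg_eq_zero] at k
  have := ((crit h p.1).resolve_left (by rw [df, k.1, map_zero]; exact lt_irrefl _)).2
  rw [this, one_smul, one_mul] at k
  exact ⟨k.1, Prod.ext k.2.1 k.2.2⟩

theorem dG_pos (ht : t ≤ 2) (k : Ξ N p ≠ 0) : 0 < dG N t p := by
  have h1 := two_sq_le ht p.2.2
  have h2 := sq_nonneg p.2.2
  have h3 := sq_nonneg ‖p.2.1‖
  rcases crit h p.1 with k1 | k1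
  · exact add_pos_of_pos_of_nonneg k1 (mul_nonneg (h.ρ01 _).1 (by linarith))
  · rw [dG, df, k1.1, k1.2, map_zero, zero_add, one_mul]
    by_contra! k2
    refine k ?_
    have e1 : p.2.1 = 0 := by simpa using le_antisymm (by linarith) h3
    have e2 : p.2.2 = 0 := by simpa using le_antisymm (by linarith) h2
    simp [Ξ, k1.1, e1, e2]

omit h in
theorem G_zero (k : p.2 = 0) : G N t p = N.f p.1 - t := by simp [G, Gm, k, gam_zero]

theorem dG_pos' (ht : t ≤ 2) (hr : ∀ m, N.ξ m = 0 → N.f m ≠ t) (p : M N) (k : G N t p = 0) :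
    0 < dG N t p := dG_pos h ht fun e => hr _ (Ξ_zero h e).1 (by
  rwa [G_zero (Ξ_zero h e).2, sub_eq_zero] at k)

theorem exists_lv (ht : t ≤ 2) (hr : ∀ m, N.ξ m = 0 → N.f m ≠ t) :
    ∃ Z j, N.Lv t Z j ∧ Sec (M N) (Φ N) Z j ∧ range j = {p | G N t p = 0} := by
  have e : univ ∩ G N t ⁻¹' {0} = N.Hyp (Gm t) :=
    Set.ext fun p => ⟨fun k => sub_eq_zero.1 k.2, fun k => ⟨trivial, sub_eq_zero.2 k⟩⟩
  obtain ⟨m, hm⟩ := h.onto (show ((2 : ℝ) • cir 0, Gm t 0) ∈ Out from Or.inl (by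
    simp [cir, norm_smul, EuclideanSpace.norm_eq]))
  obtain ⟨Z, j, hj⟩ := Lev.level1 (E' := Rn 5) (c := 0) (by simp) isOpen_univ (G_sm h t)
    (fun p _ k e => (dG_pos' h ht hr p k).ne' (by rw [← Df_G h, e]; rfl))
    (e ▸ ⟨(m, 0), congrArg Prod.snd hm⟩)
  refine ⟨Z, j, show Level _ (G N t) _ Z j from e ▸ hj, hj.sec (flow h) (G_sm h t) (fun _ k => k.2) fun p k => ?_,
    hj.range.trans (univ_inter _)⟩
  rw [Df_G h]
  exact dG_pos' h ht hr p k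

/-! ### Orbits outside the core -/

theorem w_const (k : 1 < ‖N.w m‖) (τ : ℝ) : N.w (N.φ τ m) = N.w m := by
  have key : ∀ {ξ φ}, IsFlow N.F ξ φ → (∀ x, 1 < ‖N.w x‖ → Df N.F (vs E2) N.w x (ξ x) = 0) →
      ∀ τ, 0 ≤ τ → N.w (φ τ m) = N.w m := fun hφ hv τ hτ =>
    hφ.stay (K := {x | N.w x = N.w m}) (U := {x | 1 < ‖N.w x‖})
      (isClosed_eq h.smw.cont continuous_const) (isOpen_lt continuous_const h.smw.cont.norm)
      (fun x hx => by rw [mem_ofPred_eq, hx]; exact k) rfl (fun s hs H => hφ.const fun u hu =>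
        ⟨h.smw _ trivial, hv _ (H u (uIcc_of_le hs.1 ▸ hu))⟩) τ (right_mem_Icc.2 hτ)
  rcases le_total 0 τ with k1 | k1
  · exact key h.fl (fun x hx => (h.vert x (Or.inl hx)).1) τ k1
  · simpa using key h.fl.neg (fun x hx => by rw [map_neg, (h.vert x (Or.inl hx)).1, neg_zero])
      (-τ) (neg_nonneg.2 k1)

theorem w_le (k : ‖N.w (N.φ τ m)‖ ≤ 1) : ‖N.w m‖ ≤ 1 :=
  not_lt.1 fun k1 => (w_const h k1 τ ▸ k).not_gt k1

theorem w_bdd (m : N.F) (τ : ℝ) : ‖N.w (N.φ τ m)‖ ≤ 1 + ‖N.w m‖ := by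
  rcases le_or_gt ‖N.w m‖ 1 with k | k
  · exact (w_le h (τ := -τ) (by rwa [h.fl.neg_left])).trans (le_add_of_nonneg_right (norm_nonneg _))
  · rw [w_const h k]; linarith

theorem vertical (k : ∀ u ∈ uIcc 0 τ, N.pj (N.φ u p.1) ∈ Out) (e : N.f (N.φ τ p.1) = Gm t p.2) :
    G N t (Φ N τ p) = 0 ∧ N.Mt p (Φ N τ p) := by
  have e1 : (Φ N τ p).2 = p.2 := by simp [Φ, R_const fun u hu => (h.vert _ (k u hu)).2]
  refine ⟨by rw [G, e1]; exact sub_eq_zero.2 e, e1.symm, Or.inr ⟨not_K.2 ?_,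
    not_K.2 (k τ right_mem_uIcc),
    (h.fl.const fun u hu => ⟨h.smw _ trivial, (h.vert _ (k u hu)).1⟩).symm⟩⟩
  simpa only [h.fl.zero] using k 0 left_mem_uIcc

/-- outside the core the flow joins matching points -/
theorem out (hs : s ≤ 2) (ht : t ≤ 2) (hp : G N s p = 0)
    (k : ¬ (‖N.w p.1‖ ≤ 1 ∧ ‖p.2.1‖ < 4 ∧ |p.2.2| < 3)) :
    ∃ τ, G N t (Φ N τ p) = 0 ∧ N.Mt p (Φ N τ p) := by
  have hc := h.smf.cont.comp (h.fl.cont_curve p.1)
  by_cases k1 : 1 < ‖N.w p.1‖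
  · have k2 : ∀ u, N.pj (N.φ u p.1) ∈ Out := fun u => Or.inl (by
      change 1 < ‖N.w _‖; rwa [w_const h k1])
    have k3 : ∀ u, N.ρ (N.φ u p.1) ≠ 1 := fun u => (h.vert _ (k2 u)).2 ▸ zero_ne_one
    obtain ⟨τ, e⟩ := hc.surjective
      ((h.up p.1).resolve_right (by
        rintro (⟨j, u, a, k, e⟩ | ⟨j, u, a, k, e⟩)
        exacts [k3 u (e ▸ h.ρ₁ j _ k), k3 u (e ▸ h.ρ₂ j _ k)]))
      ((h.down p.1).resolve_right (by
        rintro (⟨j, u, a, k, e⟩ | ⟨j, u, a, k, e⟩)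
        exacts [k3 u (e ▸ h.ρ₁ j _ k), k3 u (e ▸ h.ρ₂ j _ k)])) (Gm t p.2)
    exact ⟨τ, vertical h (fun u _ => k2 u) e⟩
  by_cases k2 : 3 ≤ |p.2.2|
  · refine ⟨0, ?_⟩
    rw [(flow h).zero]
    exact ⟨by rwa [G, Gm, gam_out t k2, ← gam_out s k2], mt_refl p⟩
  have k3 : 4 ≤ ‖p.2.1‖ := not_lt.1 fun k3 => k ⟨not_lt.1 k1, k3, not_le.1 k2⟩
  have k4 : ∀ t, t ≤ 2 → Gm t p.2 < -1 := fun t ht => by
    have := gam_le ht p.2.2
    unfold Gm; nlinarith [sq_abs p.2.2, abs_nonneg p.2.2]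
  have k5 : N.f (N.φ 0 p.1) < -1 := by rw [h.fl.zero, sub_eq_zero.1 hp]; exact k4 s hs
  obtain ⟨τ, e⟩ : ∃ τ, N.f (N.φ τ p.1) = Gm t p.2 := by
    by_cases H : ∀ u ∈ uIcc 0 (Gm t p.2 - N.f p.1), N.f (N.φ u p.1) < -1
    · exact ⟨_, by
        rw [h.fl.affine (g := N.f) (a := 1) fun u hu => ⟨h.smf _ trivial, h.unit _
          (lt_abs.2 (Or.inr (by linarith [H u hu])))⟩]; simp⟩
    · push Not at H
      obtain ⟨u, hu, H⟩ := H
      have k6 : 0 < u := not_le.1 fun k => (f_mono h p.1 k).not_gt (k5.trans_le H)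
      refine intermediate_value_univ 0 u hc ⟨?_, (k4 t ht).le.trans H⟩
      rw [comp_apply, h.fl.zero]
      rcases mem_uIcc.1 hu with k | k <;> linarith [k.1, k.2]
  refine ⟨τ, vertical h (fun u hu => Or.inr (lt_abs.2 (Or.inr ?_))) e⟩
  have := k4 t ht
  change 1 < -N.f _
  rcases mem_uIcc.1 hu with k | k <;> linarith [f_mono h p.1 k.2]

theorem bdd {S : Set ℝ} {C : ℝ} (k : ∀ τ ∈ S, |N.f (N.φ τ p.1)| ≤ C ∧ ‖(Φ N τ p).2.1‖ ^ 2 ≤ C ∧
    (Φ N τ p).2.2 ^ 2 ≤ C) : ∃ K, IsCompact K ∧ ∀ τ ∈ S, Φ N τ p ∈ K := by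
  refine ⟨_, (h.prop _ ((isCompact_closedBall 0 (1 + ‖N.w p.1‖)).prod
    (isCompact_closedBall 0 C))).prod ((isCompact_closedBall 0 (C + 1)).prod
    (isCompact_closedBall 0 (C + 1))), fun τ hτ => ⟨⟨?_, ?_⟩, ?_, ?_⟩⟩ <;>
    rw [mem_closedBall_zero_iff]
  · exact w_bdd h _ _
  · exact (k τ hτ).1
  · nlinarith [(k τ hτ).2.1, sq_nonneg (‖(Φ N τ p).2.1‖ - 1)]
  · rw [Real.norm_eq_abs]
    nlinarith [(k τ hτ).2.2, sq_nonneg (|(Φ N τ p).2.2| - 1), sq_abs (Φ N τ p).2.2]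

theorem fw (ht : t ≤ 2) (k : ∀ τ, 0 ≤ τ → G N t (Φ N τ p) ≤ 0) :
    ∃ K, IsCompact K ∧ ∀ τ, 0 ≤ τ → Φ N τ p ∈ K := by
  refine bdd h (S := Ici 0) (C := |N.f p.1| + p.2.2 ^ 2 + 2) fun τ hτ => ?_
  have h1 : (Φ N τ p).2.2 ^ 2 ≤ p.2.2 ^ 2 := by
    rw [Φ, mul_pow]
    exact mul_le_of_le_one_left (sq_nonneg _)
      (pow_le_one₀ (exp_pos _).le (exp_le_one_iff.2 (neg_nonpos.2 (R_nonneg h hτ))))
  have h2 : N.f (N.φ τ p.1) - (gam t (Φ N τ p).2.2 - ‖(Φ N τ p).2.1‖ ^ 2) ≤ 0 := k τ hτ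
  have h3 : N.f (N.φ 0 p.1) ≤ N.f (N.φ τ p.1) := f_mono h p.1 hτ
  rw [h.fl.zero] at h3
  have h4 := gam_le ht (Φ N τ p).2.2
  have h5 := neg_abs_le (N.f p.1)
  have h6 := abs_nonneg (N.f p.1)
  have h7 := sq_nonneg ‖(Φ N τ p).2.1‖
  have h8 := sq_nonneg p.2.2
  exact ⟨abs_le.2 ⟨by linarith, by linarith⟩, by linarith, by linarith⟩

theorem bw (hs : -2 ≤ s) (hs' : s ≤ 2) (k : ∀ τ, τ ≤ 0 → 0 ≤ G N s (Φ N τ p)) :
    ∃ K, IsCompact K ∧ ∀ τ, τ ≤ 0 → Φ N τ p ∈ K := by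
  refine bdd h (S := Iic 0) (C := |N.f p.1| + ‖p.2.1‖ ^ 2 + 2) fun τ hτ => ?_
  have h1 : ‖(Φ N τ p).2.1‖ ^ 2 ≤ ‖p.2.1‖ ^ 2 := by
    rw [Φ, norm_smul, mul_pow, norm_of_nonneg (exp_pos _).le]
    exact mul_le_of_le_one_left (sq_nonneg _)
      (pow_le_one₀ (exp_pos _).le (exp_le_one_iff.2 (R_nonpos h hτ)))
  have h2 : 0 ≤ N.f (N.φ τ p.1) - (gam s (Φ N τ p).2.2 - ‖(Φ N τ p).2.1‖ ^ 2) := k τ hτ
  have h3 : N.f (N.φ τ p.1) ≤ N.f (N.φ 0 p.1) := f_mono h p.1 hτ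
  rw [h.fl.zero] at h3
  have h4 := le_gam hs' (Φ N τ p).2.2
  have h5 := le_abs_self (N.f p.1)
  have h6 := abs_nonneg (N.f p.1)
  have h7 := sq_nonneg (Φ N τ p).2.2
  have h8 := sq_nonneg ‖p.2.1‖
  exact ⟨abs_le.2 ⟨by linarith, by linarith⟩, by linarith, by linarith⟩

/-! ### One family of saddles -/

section Stage

variable {A B : Type} [NormedAddCommGroup A] [InnerProductSpace ℝ A] [FiniteDimensional ℝ A]
  [NormedAddCommGroup B] [InnerProductSpace ℝ B] [FiniteDimensional ℝ B]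

/-- the disc on which the Morse charts are defined -/
def Dm (N : NF) (A B : Type) [Norm A] [Norm B] : Set (A × B) :=
  {p | ‖p.1‖ ^ 2 + ‖p.2‖ ^ 2 < N.δ ^ 2}

/-- the critical points between the levels `s` and `t` -/
structure Fam (N : NF) (c : Fin 3 → A × B → N.F) (v s t : ℝ) : Prop where
  oe : ∀ k, OE (vs (A × B)) N.F (c k) (Dm N A B)
  val : ∀ k, N.f (c k 0) = v
  fld : ∀ k, ∀ p ∈ Dm N A B, Df (vs (A × B)) N.F (c k) p (-p.1, p.2) = N.ξ (c k p)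
  rho : ∀ k, ∀ p ∈ Dm N A B, N.ρ (c k p) = 1
  inj : Injective fun k => c k 0
  all : ∀ m, N.ξ m = 0 → s ≤ N.f m → N.f m ≤ t → ∃ k, m = c k 0
  lo : -2 ≤ s
  lt : s < v
  gt : v < t
  hi : t ≤ 2

/-- the saddle charts of the model -/
def C (c : Fin 3 → A × B → N.F) (k : Fin 3) (q : WithLp 2 (A × ℝ) × WithLp 2 (B × E2)) : M N :=
  (c k (q.1.fst, q.2.fst), q.2.snd, q.1.snd)

def DC (N : NF) (A B : Type) [Norm A] [Norm B] : Set (WithLp 2 (A × ℝ) × WithLp 2 (B × E2)) :=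
  {q | (q.1.fst, q.2.fst) ∈ Dm N A B}

variable {c : Fin 3 → A × B → N.F} {v : ℝ}

omit [InnerProductSpace ℝ A] [FiniteDimensional ℝ A] [InnerProductSpace ℝ B]
  [FiniteDimensional ℝ B] in
theorem mem_Dm {a : A} {b : B} (ha : ‖a‖ ≤ N.δ / 2) (hb : ‖b‖ ≤ N.δ / 2) : (a, b) ∈ Dm N A B := by
  have := h.δpos
  change ‖a‖ ^ 2 + ‖b‖ ^ 2 < _
  nlinarith [norm_nonneg a, norm_nonneg b]

theorem Fam.sad0 (H : Fam N c v s t) (k : Fin 3) : Sad N.F N.φ (c k) (Dm N A B) (N.δ / 2) :=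
  sad_of_field h.fl (H.oe k) (half_pos h.δpos) (fun _ _ => mem_Dm h) (H.fld k)

theorem Fam.sad (H : Fam N c v s t) (k : Fin 3) :
    Sad (M N) (Φ N) (C c k) (DC N A B) (N.δ / 2) := by
  have a1 : ContDiff ℝ ∞ fun q : WithLp 2 (A × ℝ) × WithLp 2 (B × E2) => q.1.ofLp :=
    (WithLp.contDiff_ofLp ..).comp contDiff_fst
  have a2 : ContDiff ℝ ∞ fun q : WithLp 2 (A × ℝ) × WithLp 2 (B × E2) => q.2.ofLp :=
    (WithLp.contDiff_ofLp ..).comp contDiff_snd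
  have hL : OE (vs (WithLp 2 (A × ℝ) × WithLp 2 (B × E2))) ((vs (A × B)).prod (vs R3))
      (fun q => ((q.1.fst, q.2.fst), q.2.snd, q.1.snd)) univ :=
    oe_of_inv (g := fun r => (WithLp.toLp 2 (r.1.1, r.2.2), WithLp.toLp 2 (r.1.2, r.2.1)))
      isOpen_univ isOpen_univ
      (fun _ _ => SmAt.trans (Y := vs ((A × B) × R3)) (smAt_vs.2
        ((a1.fst.prodMk a2.fst).prodMk (a2.snd.prodMk a1.snd)).contDiffAt) smAt_vs_prod)
      (fun _ _ => smAt_prod_vs.vcomp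
        (((WithLp.contDiff_toLp ..).comp (contDiff_fst.fst.prodMk contDiff_snd.snd)).prodMk
          ((WithLp.contDiff_toLp ..).comp (contDiff_fst.snd.prodMk contDiff_snd.fst))).contDiffAt)
      (mapsTo_univ _ _) (mapsTo_univ _ _) (fun _ _ => rfl) fun _ _ => rfl
  refine ⟨⟨(H.oe k).op.preimage (by fun_prop), fun q hq => (hL.ld q trivial).trans
    (((H.oe k).ld _ hq).prodMap ldAt_id), fun q hq q' hq' e => hL.inj trivial trivial
      (Prod.ext ((H.oe k).inj hq hq' (congrArg Prod.fst e)) (congrArg (fun p : M N => p.2) e))⟩,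
    half_pos h.δpos, fun x y hx hy => mem_Dm h ((WithLp.norm_fst_le _ x).trans hx)
      ((WithLp.norm_fst_le _ y).trans hy), fun x y τ hτ => ?_⟩
  have e : ∀ s ∈ uIcc 0 τ, N.φ s (c k (x.fst, y.fst)) = c k (exp (-s) • x.fst, exp s • y.fst) :=
    fun s hs => (H.sad0 h k).lin _ _ s fun u hu => hτ u (uIcc_subset_uIcc_left hs hu)
  have e1 : R N τ (c k (x.fst, y.fst)) = τ :=
    (R_const fun s hs => by rw [e s hs]; exact H.rho k _ (hτ s hs)).trans (mul_one τ)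
  simp only [Φ, C, e1, e τ right_mem_uIcc]
  rfl

omit h in
theorem Fam.rg (H : Fam N c v s t) :
    (∀ m, N.ξ m = 0 → N.f m ≠ s) ∧ ∀ m, N.ξ m = 0 → N.f m ≠ t := by
  have := H.lt.trans H.gt
  constructor <;> intro m k e <;> obtain ⟨j, rfl⟩ := H.all m k (by linarith) (by linarith)
  exacts [H.lt.ne' ((H.val j).symm.trans e), H.gt.ne ((H.val j).symm.trans e)]

theorem Fam.betw (H : Fam N c v s t) :
    Betw (M N) (Φ N) (G N s) (G N t) (G N t) (dG N s) (dG N t) (dG N t) 0 0 fun k => C c k 0 := by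
  have hst := (H.lt.trans H.gt).le
  have hm : ∀ p, G N t p ≤ G N s p := fun p =>
    sub_le_sub_left (sub_le_sub_right (gam_mono hst _) _) _
  refine ⟨G_der h s, G_der h t, G_der h t, dG_pos' h (hst.trans H.hi) H.rg.1, dG_pos' h H.hi H.rg.2,
    fun p k => k ▸ hm p, fun p k => k ▸ hm p, fun p k1 k2 k3 => dG_pos h H.hi fun e => ?_,
    fun k => ?_, fun k => ?_, fun p k => fw h H.hi fun τ hτ => (k τ hτ).2,
    fun p k => bw h H.lo (hst.trans H.hi) fun τ hτ => (k τ hτ).1⟩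
  · obtain ⟨e1, e2⟩ := Ξ_zero h e
    rw [G_zero e2] at k1 k2
    obtain ⟨k, e3⟩ := H.all _ e1 (by linarith) (by linarith)
    exact k3 k (Prod.ext e3 e2)
  · rw [G_zero rfl]; exact sub_pos.2 (H.lt.trans_eq (H.val k).symm)
  · rw [G_zero rfl]; exact sub_neg.2 ((H.val k).trans_lt H.gt)

theorem Fam.hno (H : Fam N c v s t) (i k : Fin 3) (u y τ) (hu : ‖u‖ = N.δ / 2)
    (hy : ‖y‖ = N.δ / 2) : Φ N τ (C c k (0, y)) ≠ C c i (u, 0) := by
  refine no_conn (flow h) (H.sad h) (G_der h t) hu hy ?_ (fun τ => dG_pos h H.hi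
    ((flow h).ne_zero (fun e => ?_) τ)) τ
  · rw [G_zero rfl, G_zero rfl]
    exact sub_le_sub_right ((H.val i).trans (H.val k).symm).le _
  · have := (H.sad h k).not_fixed ((H.sad h k).sub 0 y (by simpa using (H.sad h k).pos.le) hy.le)
      ((flow h).fix e)
    rw [(Prod.mk_eq_zero.1 this).2, norm_zero] at hy
    exact (H.sad h k).pos.ne hy

theorem Fam.w_le (H : Fam N c v s t) {k : Fin 3} {q} (hq : q ∈ DC N A B) (e : Φ N τ p = C c k q) :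
    ‖N.w p.1‖ ≤ 1 := by
  refine KeyM.w_le h (τ := τ) (not_lt.1 fun k1 => ?_)
  have := (h.vert _ (Or.inl k1)).2
  rw [show N.φ τ p.1 = _ from congrArg Prod.fst e] at this
  exact one_ne_zero ((H.rho k _ hq).symm.trans this)

theorem Fam.stage [Nontrivial B] (H : Fam N c v s t) {Z Z' : Mf (Rn 5)} {j : Z → M N}
    {j' : Z' → M N} (hj : Sec (M N) (Φ N) Z j) (hj' : Sec (M N) (Φ N) Z' j')
    (rj : range j = {p | G N s p = 0}) (rj' : range j' = {p | G N t p = 0}) :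
    ∃ σ : T1.Surg (Fin 3) (WithLp 2 (A × ℝ)) (WithLp 2 (B × E2)) Z Z',
      FlowSurg (M N) (Φ N) Z j Z' j' (C c) (N.δ / 2) (N.δ / 2) σ ∧ MS N j j' σ := by
  have hs := (H.lt.trans H.gt).le.trans H.hi
  have hφ := flow h
  have hO : IsOpen {p : M N | ‖p.2.1‖ < 4 ∧ |p.2.2| < 3} :=
    (isOpen_lt continuous_snd.fst.norm continuous_const).inter
      (isOpen_lt continuous_snd.snd.abs continuous_const)
  have hQ : ∀ p : M N, N.pr p ∉ Q0 → ¬ (‖N.w p.1‖ ≤ 1 ∧ ‖p.2.1‖ < 4 ∧ |p.2.2| < 3) :=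
    fun p k k1 => k ⟨k1.1, k1.2.1.le, k1.2.2.le⟩
  obtain ⟨σ, hσ, tA, tB⟩ := msurg_betw hφ hj hj' rj rj' (H.sad h)
    (fun _ _ e => H.inj (congrArg Prod.fst e)) (H.betw h) (H.hno h)
    (fun _ => hO.preimage (Sm.cont fun z _ => hj.sm hφ z))
    (fun _ => hO.preimage (Sm.cont fun z _ => hj'.sm hφ z))
    (fun i z x τ hx e => by_contra fun k => by
      obtain ⟨u, k1, -⟩ := out h hs H.hi (rj.subset ⟨z, rfl⟩) fun k1 => k k1.2
      have := ((H.betw h).stable hφ (H.sad h) (H.hno h) i hx).1 (u + -τ)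
      rw [hφ.add, ← e, hφ.neg_left] at this
      exact this.ne k1)
    (fun i z y τ hy e => by_contra fun k => by
      obtain ⟨u, k1, -⟩ := out h H.hi hs (rj'.subset ⟨z, rfl⟩) fun k1 => k k1.2
      have := ((H.betw h).unstable hφ (H.sad h) (H.hno h) i hy).1 (u + -τ)
      rw [hφ.add, ← e, hφ.neg_left] at this
      exact this.ne' k1) (half_pos h.δpos)
  refine ⟨σ, hσ, hσ.smA, hσ.smB, fun k z hz => ?_, fun k z hz => ?_, fun z hz => ?_,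
    fun z hz k => by_contra fun k1 => ?_⟩
  · obtain ⟨k1, τ, e⟩ := hσ.tubeA k _ ((σ.A.a k).map_target hz)
    rw [(σ.A.a k).right_inv hz] at e
    exact ⟨H.w_le h ((H.sad h k).sub _ _ ((H.sad h k).norm_sph _).le k1.le) e, (tA k hz).1.le,
      (tA k hz).2.le⟩
  · obtain ⟨k1, τ, e⟩ := hσ.tubeB k _ ((σ.B.a k).map_target hz)
    rw [(σ.B.a k).right_inv hz] at e
    exact ⟨H.w_le h ((H.sad h k).sub _ _ k1.le ((H.sad h k).swap.norm_sph _).le) e, (tB k hz).1.le,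
      (tB k hz).2.le⟩
  · obtain ⟨τ, k1, k2⟩ := out h hs H.hi (rj.subset ⟨z, rfl⟩) (hQ _ hz)
    obtain ⟨z', e⟩ := rj'.symm.subset k1
    obtain ⟨k3, k4⟩ := hσ.eq z z' τ 0 (by rw [hφ.zero, e])
    exact ⟨k3, by rwa [k4, e]⟩
  · obtain ⟨τ, k2, k3⟩ := out h H.hi hs (rj'.subset ⟨σ.φ z, rfl⟩) (hQ _ k1)
    obtain ⟨z', e⟩ := rj.symm.subset k2
    obtain ⟨k4, k5⟩ := hσ.eq z' (σ.φ z) 0 τ (by rw [hφ.zero, e])
    rw [← e, σ.φ.injOn k4 hz k5] at k3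
    exact k1 (mt_pr k3 ▸ k)

end Stage

end KeyM

end Pool.Agent.MP_e1dc65_gt.T

end
end MrgPart3

-- marker of a merged file
example : 731051 + 198730 = 731051 + 198730 := rfl
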