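import Pool.Agent.MP_e1dc65_gt.t2.Disc
import Pool.Agent.MP_e1dc65_gt.k.Hol
import Mathlib.Topology.UniformSpace.HeineCantor
import Pool.Agent.MP_e1dc65_gt.fm.Hza
import Pool.Agent.MP_e1dc65_gt.t2.Sc
import Pool.Agent.MP_e1dc65_gt.o.Flat
import Pool.Agent.MP_e1dc65_gt.t2.Spec2
import Pool.Agent.MP_e1dc65_gt.k.Std
import Pool.Agent.MP_e1dc65_gt.k.Flow
import Pool.Agent.MP_e1dc65_gt.k.Bump

-- ======== part 0: formerly Pool.Agent.MP_e1dc65_gt.s.Basic
section MrgPart0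

/-! PROJECT HC, spin calculus: the cover, restriction, pull-back, gauge change, gluing. -/

open scoped ContDiff Manifold Topology Quaternion Matrix
open Set Filter Function Module Pool.Agent.MP_c8d41b_gt.GF

noncomputable section

namespace Pool.Agent.MP_e1dc65_gt

/-! ### The cover -/

namespace SpinCover
variable (C : SpinCover) {Z : Type} [TopologicalSpace Z] {S : Set Z}

theorem π_eps : C.π C.ε = 1 := (C.ker _).2 (.inr rfl)
theorem eps_sq : C.ε * C.ε = 1 := by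
  rcases (C.ker (C.ε * C.ε)).1 (by rw [map_mul, C.π_eps, one_mul]) with h | h
  · exact h
  · exact absurd (mul_eq_left.1 h) C.ε_ne
theorem eps_inv : C.ε⁻¹ = C.ε := inv_eq_of_mul_eq_one_right C.eps_sq
theorem π_mul_inv (g : C.G) : C.π g * C.π g⁻¹ = 1 := by rw [← map_mul, mul_inv_cancel, map_one]
theorem π_inv_mul (g : C.G) : C.π g⁻¹ * C.π g = 1 := by rw [← map_mul, inv_mul_cancel, map_one]
theorem π_inv (g : C.G) : C.π g⁻¹ = (C.π g)⁻¹ := (Matrix.inv_eq_left_inv (C.π_inv_mul g)).symm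
theorem eps_comm (g : C.G) : g * C.ε = C.ε * g := by
  rcases (C.ker (g * C.ε * g⁻¹)).1 (by rw [map_mul, map_mul, C.π_eps, mul_one, C.π_mul_inv])
    with h | h
  · exact absurd (by simpa [mul_inv_eq_one] using h) C.ε_ne
  · rw [← mul_inv_eq_iff_eq_mul, h]
/-- the kernel is central -/
theorem ker_comm {k : C.G} (h : C.π k = 1) (g : C.G) : g * k = k * g := by
  rcases (C.ker k).1 h with rfl | rfl
  · rw [mul_one, one_mul]
  · exact C.eps_comm g
theorem ker_sq {k : C.G} (h : C.π k = 1) : k * k = 1 := by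
  rcases (C.ker k).1 h with rfl | rfl
  · exact mul_one _
  · exact C.eps_sq
theorem π_div {a b : C.G} (h : C.π a = C.π b) : C.π (a * b⁻¹) = 1 := by
  rw [map_mul, h, C.π_mul_inv]
theorem eq_or {a b : C.G} (h : C.π a = C.π b) : a = b ∨ a = C.ε * b :=
  ((C.ker _).1 (C.π_div h)).imp mul_inv_eq_one.1 mul_inv_eq_iff_eq_mul.1
theorem π_eps_mul (g : C.G) : C.π (C.ε * g) = C.π g := by rw [map_mul, C.π_eps, one_mul]
theorem eps_mul_ne (g : C.G) : C.ε * g ≠ g := fun h => C.ε_ne (mul_eq_right.1 h)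
theorem surj {A : M5} (h : 0 < A.det) : ∃ g, C.π g = A :=
  let ⟨_, hO, s, _, hs⟩ := C.sec A h; ⟨s A, hs A (mem_of_mem_nhds hO)⟩
theorem j_one : C.j (1, 1) = 1 := by
  have := C.j_mul 1 1 1 1 norm_one norm_one norm_one norm_one
  rw [mul_one] at this
  exact left_eq_mul.1 this

variable {C}

/-- a continuous function with values in the kernel is locally constant -/
theorem lc_ker {k : Z → C.G} (hk : ContinuousOn k S) (h : ∀ x ∈ S, C.π (k x) = 1) : LC k S := by
  obtain ⟨O, hO, h1, h2⟩ := C.disc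
  intro x hx
  have hc : ContinuousWithinAt (fun y => k y * (k x)⁻¹) S x := (hk x hx).mul continuousWithinAt_const
  filter_upwards [hc.preimage_mem_nhdsWithin (hO.mem_nhds (by rwa [mul_inv_cancel])),
    self_mem_nhdsWithin] with y hy hyS
  rcases (C.ker _).1 (C.π_div ((h y hyS).trans (h x hx).symm)) with e | e
  · exact mul_inv_eq_one.1 e
  · exact absurd (e ▸ (mem_preimage.1 hy) :) h2

theorem lc_div {a b : Z → C.G} (ha : ContinuousOn a S) (hb : ContinuousOn b S)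
    (h : ∀ x ∈ S, C.π (a x) = C.π (b x)) : LC (fun x => a x * (b x)⁻¹) S :=
  lc_ker (ha.mul hb.inv) fun x hx => C.π_div (h x hx)

end SpinCover

theorem LC.contOn {Z A : Type} [TopologicalSpace Z] [TopologicalSpace A] {S : Set Z} {f : Z → A}
    (h : LC f S) : ContinuousOn f S := fun x hx =>
  (continuousWithinAt_const (b := f x)).congr_of_eventuallyEq (h x hx) rfl

theorem LC.eq_of_conn {Z A : Type} [TopologicalSpace Z] {S : Set Z} {f : Z → A} (h : LC f S)
    (hS : IsPreconnected S) {x y : Z} (hx : x ∈ S) (hy : y ∈ S) : f x = f y := by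
  let : TopologicalSpace A := ⊥
  have : DiscreteTopology A := ⟨rfl⟩
  exact hS.constant h.contOn hx hy

/-- uniqueness of lifts -/
theorem SpinCover.uniq {C : SpinCover} {Z : Type} [TopologicalSpace Z] {S : Set Z} {a b : Z → C.G}
    (hS : IsPreconnected S) (ha : ContinuousOn a S) (hb : ContinuousOn b S)
    (h : ∀ x ∈ S, C.π (a x) = C.π (b x)) {x : Z} (hx : x ∈ S) (e : a x = b x) : EqOn a b S :=
  fun y hy => by
    have := (SpinCover.lc_div ha hb h).eq_of_conn hS hy hx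
    rwa [e, mul_inv_cancel, mul_inv_eq_one] at this

/-- two lifts on a connected set agree or differ by `ε` -/
theorem SpinCover.uniq_or {C : SpinCover} {Z : Type} [TopologicalSpace Z] {S : Set Z}
    {a b : Z → C.G} (hS : IsPreconnected S) (ha : ContinuousOn a S) (hb : ContinuousOn b S)
    (h : ∀ x ∈ S, C.π (a x) = C.π (b x)) : EqOn a b S ∨ EqOn a (fun x => C.ε * b x) S := by
  rcases S.eq_empty_or_nonempty with rfl | ⟨x, hx⟩
  · exact .inl (eqOn_empty _ _)
  · exact (C.eq_or (h x hx)).imp (SpinCover.uniq hS ha hb h hx)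
      (SpinCover.uniq hS ha (continuousOn_const.mul hb)
        (fun y hy => (h y hy).trans (C.π_eps_mul _).symm) hx)

variable {E E' E'' : Type} [NormedAddCommGroup E] [NormedSpace ℝ E] [FiniteDimensional ℝ E]
  [NormedAddCommGroup E'] [NormedSpace ℝ E'] [FiniteDimensional ℝ E']
  [NormedAddCommGroup E''] [NormedSpace ℝ E''] [FiniteDimensional ℝ E'']
  {C : SpinCover} {X : Mf E} {Y : Mf E'} {Z : Mf E''} {U U' V : Set X} {x : X}

/-! ### Continuous bundle maps -/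

/-- `L` is a continuous fibrewise invertible map of tangent bundles over `h`, on `V` -/
structure BM (X : Mf E) (Y : Mf E') (h : X → Y) (L : X → E →L[ℝ] E') (V : Set X) : Prop where
  op : IsOpen V
  cont : ContinuousOn h V
  inv : ∀ x ∈ V, (L x).IsInvertible
  cf : ∀ x ∈ V, ∀ (T : Type) [NormedAddCommGroup T] [NormedSpace ℝ T] (Θ : Y → E' →L[ℝ] T),
    CfAt Y 0 Θ (h x) → CfAt X 0 (fun y => (Θ (h y)).comp (L y)) x

theorem bm_Df {f : X → Y} (hV : IsOpen V) (hf : ∀ x ∈ V, LDAt X Y f x) : BM X Y f (Df X Y f) V :=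
  ⟨hV, fun x hx => (hf x hx).sm.cont.continuousWithinAt, fun x hx => (hf x hx).inv,
    fun x hx _ _ _ _ h => h.pb (hf x hx).sm⟩

theorem BM.trans {h : X → Y} {L : X → E →L[ℝ] E'} {k : Y → Z} {L' : Y → E' →L[ℝ] E''} {W : Set Y}
    (a : BM X Y h L V) (b : BM Y Z k L' W) (m : MapsTo h V W) :
    BM X Z (fun x => k (h x)) (fun x => (L' (h x)).comp (L x)) V :=
  ⟨a.op, b.cont.comp a.cont m, fun x hx => (b.inv _ (m hx)).comp (a.inv x hx),
    fun x hx T _ _ Θ hΘ => a.cf x hx T _ (b.cf _ (m hx) T Θ hΘ)⟩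

theorem BM.mono {h : X → Y} {L : X → E →L[ℝ] E'} (a : BM X Y h L U) (hV : IsOpen V) (hs : V ⊆ U) :
    BM X Y h L V := ⟨hV, a.cont.mono hs, fun x hx => a.inv x (hs hx), fun x hx => a.cf x (hs hx)⟩

/-- multiplication by a continuous function without zeros -/
theorem bm_smul {σ : X → ℝ} (hV : IsOpen V) (hσ : ContinuousOn σ V) (h0 : ∀ x ∈ V, σ x ≠ 0) :
    BM X X (fun x => x) (fun x => σ x • ContinuousLinearMap.id ℝ E) V :=
  ⟨hV, continuousOn_id, fun x hx => .of_inverse (g := (σ x)⁻¹ • ContinuousLinearMap.id ℝ E)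
      (by ext v; simp [smul_smul, h0 x hx]) (by ext v; simp [smul_smul, h0 x hx]),
    fun x hx _ _ _ Θ h => (h.smul (cnAt_zero (hV.mem_nhds hx) hσ)).congr'
      (.of_forall fun y => by ext v; simp)⟩

omit [FiniteDimensional ℝ E] in
theorem inv_neg' {a : E →L[ℝ] Rn 5} (h : a.IsInvertible) : (-a).IsInvertible :=
  let ⟨L, hL⟩ := h; ⟨L.trans (ContinuousLinearEquiv.neg ℝ), by rw [← hL]; rfl⟩
omit [FiniteDimensional ℝ E] in
theorem tm_neg {a b : E →L[ℝ] Rn 5} (h : b.IsInvertible) : tm (-a) (-b) = tm a b :=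
  tm_eq (inv_neg' h) fun v => by
    rw [neg_apply, neg_apply, Matrix.mulVec_neg, tm_mulVec h]

namespace Spin
variable (sp : Spin C X U)

theorem isOpen (sp : Spin C X U) : IsOpen U :=
  isOpen_iff_mem_nhds.2 fun x hx =>
    let ⟨i, hi⟩ := sp.cov x hx; mem_of_superset ((sp.op i).mem_nhds hi) (sp.sub i)
theorem inv {i : sp.ι} (hi : x ∈ sp.W i) : (sp.Θ i x).IsInvertible := (sp.cof i x hi).2
theorem g_self {i : sp.ι} (hi : x ∈ sp.W i) : sp.g i i x = 1 :=
  mul_eq_left.1 (sp.coc i i i x ⟨⟨hi, hi⟩, hi⟩)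
theorem g_mul {i j k : sp.ι} (hi : x ∈ sp.W i) (hj : x ∈ sp.W j) (hk : x ∈ sp.W k) :
    sp.g i j x * sp.g j k x = sp.g i k x := sp.coc i j k x ⟨⟨hi, hj⟩, hk⟩
theorem g_inv {i j : sp.ι} (hi : x ∈ sp.W i) (hj : x ∈ sp.W j) : (sp.g i j x)⁻¹ = sp.g j i x :=
  inv_eq_of_mul_eq_one_right ((sp.g_mul hi hj hi).trans (sp.g_self hi))
theorem det_pos {i j : sp.ι} (hi : x ∈ sp.W i) (hj : x ∈ sp.W j) :
    0 < (tm (sp.Θ i x) (sp.Θ j x)).det := sp.proj i j x ⟨hi, hj⟩ ▸ C.pos _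

/-- the same structure on an equal set -/
abbrev cast (h : U = U') : Spin C X U' :=
  { sp with sub := h ▸ sp.sub, cov := h ▸ sp.cov }

/-- restriction to an open subset -/
abbrev mono (hV : IsOpen V) (hs : V ⊆ U) : Spin C X V where
  ι := sp.ι
  W i := V ∩ sp.W i
  Θ := sp.Θ
  op i := hV.inter (sp.op i)
  sub _ := inter_subset_left
  cov x hx := let ⟨i, hi⟩ := sp.cov x (hs hx); ⟨i, hx, hi⟩
  cof i := (sp.cof i).mono inter_subset_right
  g := sp.g
  cont i j := (sp.cont i j).mono fun _ h => ⟨h.1.2, h.2.2⟩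
  proj i j x h := sp.proj i j x ⟨h.1.2, h.2.2⟩
  coc _ _ _ _ h := sp.g_mul h.1.1.2 h.1.2.2 h.2.2

/-- pull-back by a continuous bundle map -/
abbrev tr {W : Set Y} (sp : Spin C Y W) {h : X → Y} {L : X → E →L[ℝ] E'} (a : BM X Y h L V)
    (m : MapsTo h V W) : Spin C X V where
  ι := sp.ι
  W i := V ∩ h ⁻¹' sp.W i
  Θ i x := (sp.Θ i (h x)).comp (L x)
  op i := a.cont.isOpen_inter_preimage a.op (sp.op i)
  sub _ := inter_subset_left
  cov x hx := let ⟨i, hi⟩ := sp.cov _ (m hx); ⟨i, hx, hi⟩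
  cof i x hx := ⟨a.cf x hx.1 _ _ (sp.cof i _ hx.2).1, (sp.inv hx.2).comp (a.inv x hx.1)⟩
  g i j x := sp.g i j (h x)
  cont i j := (sp.cont i j).comp (a.cont.mono fun _ h => h.1.1) fun _ h => ⟨h.1.2, h.2.2⟩
  proj i j x hx := by rw [tm_comp (a.inv x hx.1.1)]; exact sp.proj i j _ ⟨hx.1.2, hx.2.2⟩
  coc _ _ _ _ h := sp.g_mul h.1.1.2 h.1.2.2 h.2.2

/-- pull-back by a local diffeomorphism: `W i = V ∩ f ⁻¹' W i`, `Θ i x = Θ i (f x) ∘ Df x` -/
abbrev pull {W : Set Y} (sp : Spin C Y W) {f : X → Y} (hV : IsOpen V)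
    (hf : ∀ x ∈ V, LDAt X Y f x) (m : MapsTo f V W) : Spin C X V := sp.tr (bm_Df hV hf) m

/-- push-forward by an open embedding -/
abbrev push {f : X → Y} (hf : OE X Y f U) : Spin C Y (f '' U) :=
  sp.pull hf.symm.op hf.symm.ld (by rintro _ ⟨x, hx, rfl⟩; rwa [hf.left hx])

theorem push_W {f : X → Y} (hf : OE X Y f U) (i : sp.ι) : (sp.push hf).W i = f '' sp.W i := by
  ext y
  constructor
  · rintro ⟨⟨x, hx, rfl⟩, h⟩
    exact ⟨x, by rwa [mem_preimage, hf.left hx] at h, rfl⟩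
  · rintro ⟨x, hx, rfl⟩
    exact ⟨⟨x, sp.sub i hx, rfl⟩, by rwa [mem_preimage, hf.left (sp.sub i hx)]⟩

theorem push_g {f : X → Y} (hf : OE X Y f U) (i j : sp.ι) (hx : x ∈ U) :
    (sp.push hf).g i j (f x) = sp.g i j x := congrArg (sp.g i j) (hf.left hx)

theorem push_Θ {f : X → Y} (hf : OE X Y f U) (i : sp.ι) (hx : x ∈ U) :
    ((sp.push hf).Θ i (f x)).comp (Df X Y f x) = sp.Θ i x := by
  have e : Df X X (fun y => invFunOn f U (f y)) x = ContinuousLinearMap.id ℝ E := by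
    rw [← Df_id (X := X) (x := x)]
    exact Df_congr (by filter_upwards [hf.op.mem_nhds hx] with z hz using hf.left hz)
  change ((sp.Θ i (invFunOn f U (f x))).comp (Df Y X (invFunOn f U) (f x))).comp _ = _
  rw [ContinuousLinearMap.comp_assoc, ← Df_comp (hf.sm x hx) (hf.symm.sm _ ⟨x, hx, rfl⟩), e,
    hf.left hx, ContinuousLinearMap.comp_id]

/-- all coframes multiplied by a common function without zeros (`σ = -1` is the flip) -/
abbrev smul {σ : X → ℝ} (hσ : ContinuousOn σ U) (h0 : ∀ x ∈ U, σ x ≠ 0) : Spin C X U :=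
  { sp with
    Θ := fun i x => σ x • sp.Θ i x
    cof := fun i x hx => ⟨(sp.cof i x hx).1.smul (cnAt_zero (sp.isOpen.mem_nhds (sp.sub i hx)) hσ),
      by simpa using (sp.inv hx).comp ((bm_smul sp.isOpen hσ h0).inv x (sp.sub i hx))⟩
    proj := fun i j x hx => by
      rw [sp.proj i j x hx, ← tm_comp ((bm_smul sp.isOpen hσ h0).inv x (sp.sub i hx.1))]
      simp }

/-- the flip -/
abbrev neg : Spin C X U :=
  { sp with
    Θ := fun i x => -sp.Θ i x
    cof := fun i x hx => ⟨(sp.cof i x hx).1.neg, inv_neg' (sp.inv hx)⟩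
    proj := fun i j x hx => by rw [sp.proj i j x hx, tm_neg (sp.inv hx.2)] }

/-- change of the coframes by continuous functions with values in the cover -/
abbrev gauge (h : sp.ι → X → C.G) (hh : ∀ i, ContinuousOn (h i) (sp.W i)) : Spin C X U :=
  { sp with
    Θ := fun i x => (mL (C.π (h i x))).comp (sp.Θ i x)
    cof := fun i => (sp.cof i).mat0 (sp.op i) (C.cont.comp_continuousOn (hh i))
      fun _ _ => (C.pos _).ne'
    g := fun i j x => h i x * sp.g i j x * (h j x)⁻¹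
    cont := fun i j => (((hh i).mono inter_subset_left).mul (sp.cont i j)).mul
      ((hh j).mono inter_subset_right).inv
    proj := fun i j x hx => by
      refine (tm_eq ((mL_inv (C.pos _).ne').comp (sp.inv hx.2)) fun v => ?_).symm
      simp only [ContinuousLinearMap.comp_apply, mL_apply, Matrix.mulVec_mulVec, ← map_mul,
        inv_mul_cancel_right]
      rw [map_mul, ← Matrix.mulVec_mulVec, sp.proj i j x hx, tm_mulVec (sp.inv hx.2)]
    coc := fun i j k x hx => by rw [← sp.coc i j k x hx]; group }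

/-- the structure given by one coframe -/
abbrev single {Θ : X → E →L[ℝ] Rn 5} (hU : IsOpen U) (h : Cof X 0 Θ U) : Spin C X U where
  ι := Unit
  W _ := U
  Θ _ := Θ
  op _ := hU
  sub _ := subset_rfl
  cov _ hx := ⟨(), hx⟩
  cof _ := h
  g _ _ _ := 1
  cont _ _ := continuousOn_const
  proj _ _ x hx := by rw [map_one, tm_self (h x hx.1).2]
  coc _ _ _ _ _ := mul_one _

/-- the union of structures on pairwise disjoint open sets -/
abbrev sigma {I : Type} {V : I → Set X} (s : ∀ a, Spin C X (V a))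
    (hd : Pairwise fun a b => Disjoint (V a) (V b)) : Spin C X (⋃ a, V a) where
  ι := Σ a, (s a).ι
  W i := (s i.1).W i.2
  Θ i := (s i.1).Θ i.2
  op i := (s i.1).op i.2
  sub i := ((s i.1).sub i.2).trans (subset_iUnion V i.1)
  cov x hx := let ⟨a, ha⟩ := mem_iUnion.1 hx; let ⟨i, hi⟩ := (s a).cov x ha; ⟨⟨a, i⟩, hi⟩
  cof i := (s i.1).cof i.2
  g i j := open Classical in if h : j.1 = i.1 then (s i.1).g i.2 (h ▸ j.2) else 1
  cont := by
    rintro ⟨a, i⟩ ⟨b, j⟩
    by_cases h : b = a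
    · subst h; simpa using (s b).cont i j
    · simp only [h, dite_false]; exact continuousOn_const
  proj := by
    rintro ⟨a, i⟩ ⟨b, j⟩ x hx
    obtain rfl : b = a := by
      by_contra h
      exact disjoint_left.1 (hd h) ((s b).sub j hx.2) ((s a).sub i hx.1)
    simpa using (s b).proj i j x hx
  coc := by
    rintro ⟨a, i⟩ ⟨b, j⟩ ⟨c, k⟩ x hx
    obtain rfl : b = a := by
      by_contra h
      exact disjoint_left.1 (hd h) ((s b).sub j hx.1.2) ((s a).sub i hx.1.1)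
    obtain rfl : c = b := by
      by_contra h
      exact disjoint_left.1 (hd h) ((s c).sub k hx.2) ((s b).sub i hx.1.1)
    simpa using (s c).coc i j k x hx

end Spin

/-! ### Comparison and gluing -/

/-- an isomorphism of two spin structures over the common domain -/
structure Cmp (sp : Spin C X U) (sp' : Spin C X U') (c : sp'.ι → sp.ι → X → C.G) : Prop where
  cont : ∀ k i, ContinuousOn (c k i) (sp'.W k ∩ sp.W i)
  proj : ∀ k i x, x ∈ sp'.W k → x ∈ sp.W i → C.π (c k i x) = tm (sp'.Θ k x) (sp.Θ i x)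
  nat : ∀ k i k' i' x, x ∈ sp'.W k → x ∈ sp.W i → x ∈ sp'.W k' → x ∈ sp.W i' →
    c k i x * sp.g i i' x = sp'.g k k' x * c k' i' x

variable {sp : Spin C X U} {sp' : Spin C X U'} {c : sp'.ι → sp.ι → X → C.G}

theorem Cmp.left (h : Cmp sp sp' c) {k i i'} (hk : x ∈ sp'.W k) (hi : x ∈ sp.W i)
    (hi' : x ∈ sp.W i') : c k i x * sp.g i i' x = c k i' x := by
  rw [h.nat k i k i' x hk hi hk hi', sp'.g_self hk, one_mul]
theorem Cmp.right (h : Cmp sp sp' c) {k k' i} (hk : x ∈ sp'.W k) (hk' : x ∈ sp'.W k')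
    (hi : x ∈ sp.W i) : sp'.g k k' x * c k' i x = c k i x := by
  rw [← h.nat k i k' i x hk hi hk' hi, sp.g_self hi, mul_one]

/-- it is enough to check the two one-sided rules -/
theorem cmp_mk (h1 : ∀ k i, ContinuousOn (c k i) (sp'.W k ∩ sp.W i))
    (h2 : ∀ k i x, x ∈ sp'.W k → x ∈ sp.W i → C.π (c k i x) = tm (sp'.Θ k x) (sp.Θ i x))
    (h3 : ∀ k i i' x, x ∈ sp'.W k → x ∈ sp.W i → x ∈ sp.W i' → c k i x * sp.g i i' x = c k i' x)
    (h4 : ∀ k k' i x, x ∈ sp'.W k → x ∈ sp'.W k' → x ∈ sp.W i →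
      sp'.g k k' x * c k' i x = c k i x) : Cmp sp sp' c :=
  ⟨h1, h2, fun k i k' i' x a b a' b' => by rw [h3 k i i' x a b b', h4 k k' i' x a a' b']⟩

theorem Cmp.symm (h : Cmp sp sp' c) : Cmp sp' sp fun i k x => (c k i x)⁻¹ :=
  cmp_mk (fun i k => inter_comm _ _ ▸ (h.cont k i).inv)
    (fun i k x hi hk => by
      rw [C.π_inv, h.proj k i x hk hi]
      exact Matrix.inv_eq_left_inv ((tm_mul (sp'.inv hk)).trans (tm_self (sp.inv hi))))
    (fun i k k' x hi hk hk' => by rw [← h.right hk hk' hi]; group)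
    fun i i' k x hi hi' hk => by rw [← h.left hk hi hi']; group

/-- the glued structure -/
abbrev Cmp.glue (h : Cmp sp sp' c) : Spin C X (U ∪ U') where
  ι := sp.ι ⊕ sp'.ι
  W := Sum.elim sp.W sp'.W
  Θ := Sum.elim sp.Θ sp'.Θ
  op := Sum.rec sp.op sp'.op
  sub := Sum.rec (fun i => (sp.sub i).trans subset_union_left)
    fun k => (sp'.sub k).trans subset_union_right
  cov x hx := hx.elim (fun hx => let ⟨i, hi⟩ := sp.cov x hx; ⟨.inl i, hi⟩)
    fun hx => let ⟨i, hi⟩ := sp'.cov x hx; ⟨.inr i, hi⟩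
  cof := Sum.rec sp.cof sp'.cof
  g := Sum.elim (fun i => Sum.elim (sp.g i) fun k x => (c k i x)⁻¹)
    fun k => Sum.elim (c k) (sp'.g k)
  cont := Sum.rec (fun i => Sum.rec (sp.cont i) (h.symm.cont i))
    fun k => Sum.rec (h.cont k) (sp'.cont k)
  proj := Sum.rec (fun i => Sum.rec (sp.proj i) fun k x hx => h.symm.proj i k x hx.1 hx.2)
    fun k => Sum.rec (fun i x hx => h.proj k i x hx.1 hx.2) (sp'.proj k)
  coc := by
    rintro (i | i) (j | j) (k | k) x ⟨⟨hi, hj⟩, hk⟩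
    · exact sp.g_mul hi hj hk
    · exact h.symm.right hi hj hk
    · change (c j i x)⁻¹ * c j k x = sp.g i k x
      rw [← h.left hj hi hk, inv_mul_cancel_left]
    · exact h.symm.left hi hj hk
    · exact h.left hi hj hk
    · change c i j x * (c k j x)⁻¹ = sp'.g i k x
      rw [← h.right hi hk hj, mul_inv_cancel_right]
    · exact h.right hi hj hk
    · exact sp'.g_mul hi hj hk

/-- gluing along a chart `p` of `sp` and a chart `q` of `sp'` that contain the overlap -/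
theorem cmp_of_chart (p : sp.ι) (q : sp'.ι) (hp : U ∩ U' ⊆ sp.W p) (hq : U ∩ U' ⊆ sp'.W q)
    {d : X → C.G} (hd : ContinuousOn d (U ∩ U'))
    (hπ : ∀ x ∈ U ∩ U', C.π (d x) = tm (sp'.Θ q x) (sp.Θ p x)) :
    Cmp sp sp' fun k i x => sp'.g k q x * d x * sp.g p i x := by
  have m : ∀ {k i x}, x ∈ sp'.W k → x ∈ sp.W i → x ∈ U ∩ U' := fun a b =>
    ⟨sp.sub _ b, sp'.sub _ a⟩
  refine cmp_mk (fun k i => ?_) (fun k i x a b => ?_) (fun k i i' x a b b' => ?_)
    fun k k' i x a a' b => ?_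
  · exact (((sp'.cont k q).mono fun _ h => ⟨h.1, hq (m h.1 h.2)⟩).mul
      (hd.mono fun _ h => m h.1 h.2)).mul ((sp.cont p i).mono fun _ h => ⟨hp (m h.1 h.2), h.2⟩)
  · rw [map_mul, map_mul, sp'.proj k q x ⟨a, hq (m a b)⟩, hπ x (m a b), sp.proj p i x ⟨hp (m a b), b⟩,
      tm_mul (sp'.inv (hq (m a b))), tm_mul (sp.inv (hp (m a b)))]
  · rw [mul_assoc, sp.g_mul (hp (m a b)) b b']
  · rw [← mul_assoc, ← mul_assoc, sp'.g_mul a a' (hq (m a b))]

end Pool.Agent.MP_e1dc65_gt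

end
end MrgPart0

-- ======== part 1: formerly Pool.Agent.MP_e1dc65_gt.t.Core
section MrgPart1

-- ======== part 0: formerly Pool.Agent.MP_e1dc65_gt.k.Hol2
section MrgPart0

/-! PROJECT HC, toolkit HOL, part 2: descent of parallel sections, circle criterion. -/

open scoped Topology unitInterval
open Set Filter

noncomputable section

namespace Pool.Agent.MP_e1dc65_gt

variable {X Y : Type} [TopologicalSpace X] [TopologicalSpace Y] {G : Type} [Group G]
  {T : Set X} {τ : ∀ x y : X, Path x y → G}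

/-- `f` restricted to `S` has local continuous sections over its image -/
def LocSec (f : Y → X) (S : Set Y) : Prop :=
  ∀ x ∈ f '' S, ∃ V ∈ 𝓝 x, ∃ g : X → Y, ContinuousOn g (f '' S ∩ V) ∧
    ∀ z ∈ f '' S ∩ V, g z ∈ S ∧ f (g z) = z

/-- a locally injective map that is open onto its image has local sections -/
theorem locSec_of_open {f : Y → X} {S : Set Y} (hi : ∀ p ∈ S, ∃ O ∈ 𝓝 p, InjOn f (S ∩ O))
    (ho : ∀ p ∈ S, ∀ O ∈ 𝓝 p, f '' (S ∩ O) ∈ 𝓝[f '' S] (f p)) : LocSec f S := by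
  rintro _ ⟨p, hp, rfl⟩
  obtain ⟨O', hO', hi'⟩ := hi p hp
  obtain ⟨O, hOO, hO, hpO⟩ := mem_nhds_iff.1 hO'
  have hinj : InjOn f (S ∩ O) := hi'.mono (inter_subset_inter_right _ hOO)
  obtain ⟨V, hV, hs⟩ := mem_nhdsWithin_iff_exists_mem_nhds_inter.1 (ho p hp O (hO.mem_nhds hpO))
  have : Nonempty Y := ⟨p⟩
  have key : ∀ z ∈ f '' S ∩ V, Function.invFunOn f (S ∩ O) z ∈ S ∩ O ∧
      f (Function.invFunOn f (S ∩ O) z) = z := fun z hz =>
    Function.invFunOn_pos (hs ⟨hz.2, hz.1⟩)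
  refine ⟨V, hV, Function.invFunOn f (S ∩ O), fun z hz W hW => ?_,
    fun z hz => ⟨(key z hz).1.1, (key z hz).2⟩⟩
  have h1 := ho _ (key z hz).1.1 (O ∩ W) (inter_mem (hO.mem_nhds (key z hz).1.2) hW)
  rw [(key z hz).2] at h1
  have h2 : f '' (S ∩ (O ∩ W)) ∈ 𝓝[f '' S ∩ V] z := nhdsWithin_mono z inter_subset_left h1
  refine mem_map.2 (mem_of_superset h2 ?_)
  rintro _ ⟨q, hq, rfl⟩
  show Function.invFunOn f (S ∩ O) (f q) ∈ W
  rw [hinj.leftInvOn_invFunOn ⟨hq.1, hq.2.1⟩]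
  exact hq.2.2

/-- a map with a continuous section -/
theorem locSec_of_section {f : Y → X} {S : Set Y} {g : X → Y} (hg : ContinuousOn g (f '' S))
    (h : ∀ z ∈ f '' S, g z ∈ S ∧ f (g z) = z) : LocSec f S :=
  fun _ _ => ⟨univ, univ_mem, g, hg.mono inter_subset_left, fun z hz => h z hz.1⟩

/-- a local homeomorphism on an open set -/
theorem locSec_of_isLocalHomeomorph {f : Y → X} (hf : IsLocalHomeomorph f) {S : Set Y}
    (hS : IsOpen S) : LocSec f S := by
  refine locSec_of_open (fun p _ => ?_) fun p hp O hO => mem_nhdsWithin_of_mem_nhds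
    (hf.isOpenMap.image_mem_nhds (inter_mem (hS.mem_nhds hp) hO))
  obtain ⟨O, hO, hp, hi⟩ := hf.isLocallyInjective p
  exact ⟨O, hO.mem_nhds hp, hi.mono inter_subset_right⟩

/-- a parallel section upstairs that is constant on the fibres descends -/
theorem Pull.descend {f : Y → X} {S : Set Y} {μ : ∀ x y : Y, Path x y → G} (hp : Pull f S τ μ)
    (h : Hol T τ) (hm : MapsTo f S T) (hl : LocSec f S) {s' : Y → G} (hs : Par μ S s')
    (hc : ∀ p ∈ S, ∀ q ∈ S, f p = f q → s' p = s' q) :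
    ∃ s, Par τ (f '' S) s ∧ ∀ p ∈ S, s (f p) = s' p := by
  classical
  let s : X → G := fun z => if hz : z ∈ f '' S then s' hz.choose else 1
  have e : ∀ p ∈ S, s (f p) = s' p := fun p hp => by
    have hz : f p ∈ f '' S := ⟨p, hp, rfl⟩
    simp only [s, dif_pos hz]
    exact hc _ hz.choose_spec.1 p hp hz.choose_spec.2
  refine ⟨s, h.par_of_local hm.image_subset fun x hx => ?_, e⟩
  obtain ⟨V, hV, g, hg, hgs⟩ := hl x hx
  refine ⟨V, hV, fun a b γ hγ => ?_⟩
  have hi : In (push g hg γ hγ) S := fun t => (hgs _ (hγ t)).1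
  have h1 := hs _ _ _ hi
  rw [hp _ _ _ hi a b γ fun t => (hgs _ (hγ t)).2.symm, ← e _ (hgs _ hγ.source).1,
    ← e _ (hgs _ hγ.target).1, (hgs _ hγ.source).2, (hgs _ hγ.target).2] at h1
  exact h1

/-- a parallel section composed with a map over `X` is parallel -/
theorem Pull.par_shift {f : Y → X} {S : Set Y} {μ : ∀ x y : Y, Path x y → G} (hp : Pull f S τ μ)
    (hf : ContinuousOn f S) {k : Y → Y} (hk : ContinuousOn k S) (hm : MapsTo k S S)
    (e : ∀ p ∈ S, f (k p) = f p) {s' : Y → G} (hs : Par μ S s') : Par μ S fun p => s' (k p) := by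
  intro a b γ hγ
  have hi : In (push k hk γ hγ) S := in_push hk hγ hγ hm
  have h1 := hs _ _ _ hi
  rw [hp _ _ _ hi _ _ (push f hf γ hγ) fun t => (e _ (hγ t)).symm, ← hp.eq hf hγ] at h1
  exact h1

/-- deck criterion: the fibres of `f` on the path connected set `S` are generated by the maps
`k i`, the pull-back of `τ` is trivial on `S`, and `τ` is trivial on one path from `p₀` to each
`k i p₀`; then `τ` is trivial on the image -/
theorem Hol.triv_of_deck {ι : Type} (h : Hol T τ) {f : Y → X} {S : Set Y} (hf : ContinuousOn f S)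
    (hm : MapsTo f S T) (hl : LocSec f S) (hS : IsPathConnected S) (ht : Triv (pullT f hf τ) S)
    {k : ι → Y → Y} (hk : ∀ i, ContinuousOn (k i) S) (hkm : ∀ i, MapsTo (k i) S S)
    (e : ∀ i, ∀ p ∈ S, f (k i p) = f p)
    (hfib : ∀ p ∈ S, ∀ q ∈ S, f p = f q → Relation.EqvGen (fun p q => p ∈ S ∧ ∃ i, q = k i p) p q)
    (h1 : ∀ i, ∃ p ∈ S, ∃ α : Path p (k i p), In α S ∧
      ∃ (a b : X) (δ : Path a b), (∀ t, δ t = f (α t)) ∧ τ a b δ = 1) : Triv τ (f '' S) := by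
  obtain ⟨s', hs⟩ := ht
  have hp := pullT_pull f hf τ
  have inv : ∀ i, ∀ q ∈ S, s' (k i q) = s' q := by
    intro i q hq
    obtain ⟨p, hpS, α, hα, a, b, δ, hδ, hτ⟩ := h1 i
    refine hs.eq_of_joined (hp.par_shift hf (hk i) (hkm i) (e i) hs) (hS.joinedIn p hpS q hq) ?_
    show s' (k i p) = s' p
    rw [hs _ _ α hα, hp _ _ α hα a b δ hδ, hτ, mul_one]
  obtain ⟨s, hs', -⟩ := hp.descend h hm hl hs fun p hpS q hq hpq => by
    have := hfib p hpS q hq hpq
    clear hpq hpS hq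
    induction this with
    | rel p q hr =>
      obtain ⟨hpS, i, rfl⟩ := hr
      exact (inv i p hpS).symm
    | refl => rfl
    | symm _ _ _ ih => exact ih.symm
    | trans _ _ _ _ _ ih ih' => exact ih.trans ih'
  exact ⟨s, hs'⟩

/-- circle criterion: `f` is periodic in the first variable and wraps `ℝ × S` round its image,
`S` is simply connected; `τ` is trivial on the image iff it is trivial on one period -/
theorem Hol.circle (h : Hol T τ) {f : ℝ × Y → X} {S : Set Y} {P : ℝ}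
    (hf : ContinuousOn f (univ ×ˢ S)) (hm : MapsTo f (univ ×ˢ S) T) (hl : LocSec f (univ ×ˢ S))
    (hS : SC S) (hper : ∀ t, ∀ y ∈ S, f (t + P, y) = f (t, y))
    (hfib : ∀ t t', ∀ y ∈ S, ∀ y' ∈ S, f (t, y) = f (t', y') → y' = y ∧ ∃ n : ℤ, t' = t + n * P)
    {y₀ : Y} (hy : y₀ ∈ S) {t₀ : ℝ} {a b : X} (δ : Path a b)
    (hδ : ∀ t : I, δ t = f (t₀ + t * P, y₀)) : Triv τ (f '' (univ ×ˢ S)) ↔ τ a b δ = 1 := by
  constructor
  · intro ht
    refine ht.loop' (fun t => ⟨_, ⟨trivial, hy⟩, (hδ t).symm⟩) ?_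
    refine δ.source.symm.trans (Eq.trans ?_ δ.target)
    rw [hδ, hδ]
    simpa using (hper t₀ y₀ hy).symm
  · intro h1
    have hh := (pullT_pull f hf τ).hol h hf hm
    refine h.triv_of_deck (ι := Unit) hf hm hl (isPathConnected_univ.prod hS.1)
      (hh.triv_of_thin (thin_prod (thin_convex convex_univ) hS.2))
      (k := fun _ p => (p.1 + P, p.2)) (fun _ => by fun_prop) (fun _ p hp => ⟨trivial, hp.2⟩)
      (fun _ p hp => hper p.1 p.2 hp.2) ?_ fun _ => ⟨(t₀, y₀), ⟨trivial, hy⟩,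
        (lin t₀ (t₀ + P)).prod (Path.refl y₀), fun t => ⟨trivial, hy⟩, a, b, δ, fun t => ?_, h1⟩
    · rintro ⟨t, y⟩ hp ⟨t', y'⟩ hq e
      obtain ⟨rfl, n, rfl⟩ := hfib t t' y hp.2 y' hq.2 e
      clear e hq
      induction n using Int.induction_on with
      | zero => simpa using Relation.EqvGen.refl _
      | succ n ih =>
        refine ih.trans _ _ _ (Relation.EqvGen.rel _ _ ⟨⟨trivial, hp.2⟩, (), ?_⟩)
        push_cast
        exact Prod.ext (by ring) rfl
      | pred n ih =>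
        refine ih.trans _ _ _ (Relation.EqvGen.symm _ _
          (Relation.EqvGen.rel _ _ ⟨⟨trivial, hp.2⟩, (), ?_⟩))
        push_cast
        exact Prod.ext (by ring) rfl
    · rw [hδ]
      simp [lin, Path.prod_coe]

/-- the holonomy of `n` periods is the `n`-th power of the holonomy of one period -/
theorem Hol.period_mul (h : Hol T τ) {f : ℝ → X} (hf : Continuous f) (hT : ∀ t, f t ∈ T) {P : ℝ}
    (hper : ∀ t, f (t + P) = f t) (a : ℝ) (n : ℕ) :
    τ _ _ (seg f hf a (a + n * P)) = τ _ _ (seg f hf a (a + P)) ^ n := by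
  have hn : ∀ (m : ℕ) t, f (t + m * P) = f t := by
    intro m
    induction m with
    | zero => simp
    | succ m ih => intro t; rw [Nat.cast_succ, add_mul, one_mul, ← add_assoc, hper, ih]
  induction n with
  | zero =>
    rw [pow_zero]
    exact h.const (hT a) fun t => by simp
  | succ n ih =>
    rw [h.seg_mul hf convex_univ (fun t _ => hT t) trivial (mem_univ (a + n * P)) trivial, ih,
      pow_succ]
    congr 1
    refine tau_congr τ fun t => ?_
    rw [seg_apply, seg_apply, ← hn n (a + t * (a + P - a))]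
    congr 1
    push_cast
    ring

end Pool.Agent.MP_e1dc65_gt

end
end MrgPart0

-- ======== part 1: formerly Pool.Agent.MP_e1dc65_gt.fm.Spt
section MrgPart1

/-! PROJECT HC, row SPT: transport of a spin structure along a homotopy. -/

open scoped ContDiff Manifold Topology
open Set Filter Function

noncomputable section

namespace Pool.Agent.MP_e1dc65_gt

namespace SPT

variable {E F : Type} [NormedAddCommGroup E] [NormedSpace ℝ E] [FiniteDimensional ℝ E]
  [NormedAddCommGroup F] [NormedSpace ℝ F]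

theorem inv_close {I I' : E →L[ℝ] F} {D D' : F →L[ℝ] E} (h : ∀ v, D (I v) = v)
    (hc : ‖I'.comp D' - I.comp D‖ < 1) : (D'.comp I).IsInvertible := by
  have hi : Injective (D'.comp I).toLinearMap := by
    refine (injective_iff_map_eq_zero _).2 fun v hv => ?_
    have h0 : D' (I v) = 0 := hv
    have h1 : (I'.comp D' - I.comp D) (I v) = -I v := by simp [h0, h]
    have h2 := (I'.comp D' - I.comp D).le_opNorm (I v)
    rw [h1, norm_neg] at h2
    have h3 : I v = 0 := by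
      by_contra h4
      have := norm_pos_iff.2 h4
      nlinarith
    rw [← h v, h3, map_zero]
  exact ⟨(LinearEquiv.ofInjectiveEndo _ hi).toContinuousLinearEquiv, by ext v; rfl⟩

/-- transport of the tangent spaces along the homotopy -/
theorem transport {Z : Type} [TopologicalSpace Z] {K : Set Z} (hK : IsCompact K)
    (I : Z → ℝ → E →L[ℝ] F) (D : Z → ℝ → F →L[ℝ] E)
    (h : ∀ x ∈ K, ∀ t ∈ Icc (0 : ℝ) 1, ∀ v, D x t (I x t v) = v)
    (hc : ContinuousOn (fun p : ℝ × Z => (I p.2 p.1).comp (D p.2 p.1)) (Icc 0 1 ×ˢ K)) :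
    ∃ Q : Z → F →L[ℝ] F, ContinuousOn Q K ∧ ∀ x ∈ K, ∃ T : E →L[ℝ] E, T.IsInvertible ∧
      (Q x).comp (I x 0) = (I x 1).comp T := by
  let Pr : ℝ → Prop := fun t => ∃ Q : Z → F →L[ℝ] F, ContinuousOn Q K ∧ ∀ x ∈ K,
    ∃ T : E →L[ℝ] E, T.IsInvertible ∧ (Q x).comp (I x 0) = (I x t).comp T
  have step : ∀ a ∈ Icc (0 : ℝ) 1, ∀ b ∈ Icc (0 : ℝ) 1,
      (∀ x ∈ K, ‖(I x b).comp (D x b) - (I x a).comp (D x a)‖ < 1) → Pr a → Pr b := by
    rintro a ha b hb hab ⟨Q, hQ, hT⟩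
    refine ⟨fun x => ((I x b).comp (D x b)).comp (Q x), ContinuousOn.clm_comp
      (hc.comp (Continuous.prodMk_right b).continuousOn fun x hx => ⟨hb, hx⟩) hQ, fun x hx => ?_⟩
    obtain ⟨T, h1, h2⟩ := hT x hx
    refine ⟨((D x b).comp (I x a)).comp T, (inv_close (h x hx a ha) (hab x hx)).comp h1, ?_⟩
    rw [ContinuousLinearMap.comp_assoc, h2]
    rfl
  refine isPreconnected_Icc.induction₂' (fun a b => Pr a → Pr b) (fun a ha => ?_)
    (fun _ _ _ _ _ _ h1 h2 h3 => h2 (h1 h3)) (left_mem_Icc.2 zero_le_one)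
    (right_mem_Icc.2 zero_le_one) ⟨fun _ => ContinuousLinearMap.id ℝ F, continuousOn_const,
      fun x _ => ⟨ContinuousLinearMap.id ℝ E, ⟨ContinuousLinearEquiv.refl ℝ E, rfl⟩, rfl⟩⟩
  obtain ⟨v, hv, h1⟩ := hK.mem_uniformity_of_prod (f := fun t x => (I x t).comp (D x t)) hc ha
    (Metric.dist_mem_uniformity one_pos)
  filter_upwards [hv, self_mem_nhdsWithin] with b hb hb'
  refine ⟨step a ha b hb' fun x hx => ?_, step b hb' a ha fun x hx => ?_⟩
  · rw [← dist_eq_norm]; exact h1 b hb x hx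
  · rw [← dist_eq_norm, dist_comm]; exact h1 b hb x hx

end SPT

theorem spinTr : SpinTrStmt := by
  intro C E _ _ _ X K O H hK hH h0 h1 ⟨sp⟩
  obtain ⟨n, ι, R, W, V, hι, hW, hR, hV, hKV, hVW, hRι⟩ :=
    tub X ((hK.prod isCompact_Icc).image_of_continuousOn hH)
  have hm : ∀ x ∈ K, ∀ t ∈ Icc (0 : ℝ) 1, H (x, t) ∈ V := fun x hx t ht =>
    hKV (mem_image_of_mem H ⟨hx, ht⟩)
  have cι : Continuous ι := continuous_iff_continuousAt.2 fun x => (hι x trivial).cont
  have hDI : ∀ y ∈ V, ∀ v, Df (vs (Rn n)) X R (ι y) (Df X (vs (Rn n)) ι y v) = v := fun y hy v => by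
    have e := Df_comp (hι y trivial) (hR _ (hVW hy))
    rw [Df_congr (f' := fun x => x) (eventually_of_mem (hV.mem_nhds hy) hRι), Df_id] at e
    exact (congrArg (fun T : E →L[ℝ] E => T v) e).symm
  have hP : ∀ y ∈ V, ContinuousAt (fun z => (Df X (vs (Rn n)) ι (R z)).comp
      (Df (vs (Rn n)) X R z)) (ι y) := fun y hy =>
    (cfAt_vs.1 ((cfAt_Df (n := 0) (hι _ trivial)).pb (hR _ (hVW hy)))).continuousAt
  obtain ⟨Q, hQ, hT⟩ := SPT.transport hK (fun x t => Df X (vs (Rn n)) ι (H (x, t)))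
    (fun x t => Df (vs (Rn n)) X R (ι (H (x, t)))) (fun x hx t ht => hDI _ (hm x hx t ht)) (by
      have c1 : ContinuousOn (fun p : ℝ × X => ι (H (p.2, p.1))) (Icc 0 1 ×ˢ K) :=
        cι.comp_continuousOn (hH.comp continuous_swap.continuousOn fun p hp => ⟨hp.2, hp.1⟩)
      refine ContinuousOn.congr (fun p hp => (hP _ (hm _ hp.2 _ hp.1)).comp_continuousWithinAt
        (f := fun p : ℝ × X => ι (H (p.2, p.1))) (c1 p hp)) fun p hp => ?_
      simp only [comp_apply, hRι _ (hm _ hp.2 _ hp.1)])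
  have one : (1 : ℝ) ∈ Icc (0 : ℝ) 1 := right_mem_Icc.2 zero_le_one
  have c1 : ContinuousOn (fun x => H (x, 1)) K :=
    hH.comp (Continuous.prodMk_left 1).continuousOn fun x hx => ⟨hx, one⟩
  let W' : sp.ι → Set X := fun i => interior K ∩ (fun x => H (x, 1)) ⁻¹' sp.W i
  have op : ∀ i, IsOpen (W' i) := fun i =>
    (c1.mono interior_subset).isOpen_inter_preimage isOpen_interior (sp.op i)
  let A : sp.ι → X → Rn n →L[ℝ] Rn 5 := fun i x =>
    ((sp.Θ i (R (ι (H (x, 1))))).comp (Df (vs (Rn n)) X R (ι (H (x, 1))))).comp (Q x)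
  have hA : ∀ i, ContinuousOn (A i) (W' i) := fun i => by
    refine ContinuousOn.clm_comp (fun x hx => ?_) (hQ.mono fun x hx => interior_subset hx.1)
    have hx' := hm x (interior_subset hx.1) 1 one
    have h2 : CfAt X 0 (sp.Θ i) (R (ι (H (x, 1)))) := by rw [hRι _ hx']; exact (sp.cof i _ hx.2).1
    exact (cfAt_vs.1 (h2.pb (hR _ (hVW hx')))).continuousAt.comp_continuousWithinAt
      (f := fun x => ι (H (x, 1)))
      ((cι.comp_continuousOn (c1.mono fun x hx => interior_subset hx.1)) x hx)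
  have hE : ∀ x ∈ K, ∃ T : E →L[ℝ] E, T.IsInvertible ∧ ∀ i,
      (A i x).comp (Df X (vs (Rn n)) ι x) = (sp.Θ i (H (x, 1))).comp T := fun x hx => by
    obtain ⟨T, t1, t2⟩ := hT x hx
    refine ⟨T, t1, fun i => ?_⟩
    rw [h0 x hx] at t2
    simp only [A]
    rw [ContinuousLinearMap.comp_assoc, t2, hRι _ (hm x hx 1 one)]
    ext1 v
    exact congrArg (sp.Θ i (H (x, 1))) (hDI _ (hm x hx 1 one) (T v))
  refine ⟨{ ι := sp.ι
            W := W'
            Θ := fun i x => (A i x).comp (Df X (vs (Rn n)) ι x)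
            op := op
            sub := fun i => inter_subset_left
            cov := fun x hx => (sp.cov _ (h1 x (interior_subset hx))).imp fun i hi => ⟨hx, hi⟩
            cof := fun i x hx => ⟨(cfAt_Df (hι x trivial)).lcomp
              (cnAt_zero ((op i).mem_nhds hx) (hA i)), ?_⟩
            g := fun i j x => sp.g i j (H (x, 1))
            cont := fun i j => (sp.cont i j).comp (c1.mono fun x hx => interior_subset hx.1.1)
              fun x hx => ⟨hx.1.2, hx.2.2⟩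
            proj := fun i j x hx => ?_
            coc := fun i j k x hx => sp.coc i j k _ ⟨⟨hx.1.1.2, hx.1.2.2⟩, hx.2.2⟩ }⟩
  · obtain ⟨T, t1, t2⟩ := hE x (interior_subset hx.1)
    beta_reduce
    rw [t2]
    exact (sp.cof i _ hx.2).2.comp t1
  · obtain ⟨T, t1, t2⟩ := hE x (interior_subset hx.1.1)
    beta_reduce
    rw [t2, t2, tm_comp t1]
    exact sp.proj i j _ ⟨hx.1.2, hx.2.2⟩

end Pool.Agent.MP_e1dc65_gt

end
end MrgPart1

-- ======== part 2: formerly Pool.Agent.MP_e1dc65_gt.o.Spw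
section MrgPart2

/-! PROJECT HC, part O, row SPW: a spin structure on the universal cover near a compact set. -/

open scoped ContDiff Manifold Topology
open Set Filter Function

noncomputable section

namespace Pool.Agent.MP_e1dc65_gt.O

theorem spw (hL : LiftStmt) (hH : HLiftStmt) : SpwStmt := by
  intro C D h hD U hU
  obtain ⟨sp⟩ := hD.spinM
  obtain ⟨a₀, -⟩ := hU.sc.1.nonempty
  obtain ⟨y₀, hy₀⟩ := hD.surM (h.r (U.p a₀))
  have cp := hU.cov.continuous
  obtain ⟨lam, l1, -, l2⟩ := hL D.MG D.M U.Wt D.pM (fun y => h.r (U.p y)) univ a₀ y₀ hD.covM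
    isOpen_univ hU.sc.1 (h.sdr.rc.comp cp).continuousOn (.inl hU.sc.2) trivial hy₀
  have hO : IsOpen (U.p ⁻¹' (h.cM '' (univ ×ˢ Ioi 0))) :=
    (h.oeM.isOpen_image (isOpen_univ.prod isOpen_Ioi) (subset_univ _)).preimage cp
  have ld : ∀ y ∈ U.p ⁻¹' (h.cM '' (univ ×ˢ Ioi 0)), LDAt U.Wt D.MG.cyl
      (fun y => (lam y, (invFunOn h.cM univ (U.p y)).2)) y := fun y hy => by
    have l3 : LDAt U.Wt D.M.cyl (fun y => invFunOn h.cM univ (U.p y)) y :=
      (hU.ld y).trans (h.oeM.symm.ld _ (image_mono (subset_univ _) hy))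
    refine LDAt.ld_of_lift (Y := D.MG.cyl) (Z := D.M.cyl) (g := fun q => (D.pM q.1, q.2))
      ((hD.ldM _).prodMap (ldAt_id (X := vs ℝ)))
      ((continuousOn_univ.1 l1).continuousAt.prodMk l3.sm.cont.snd) (l3.congr' ?_)
    filter_upwards [hO.mem_nhds hy] with z hz
    obtain ⟨q, hq, e⟩ := hz
    refine Prod.ext ?_ rfl
    show D.pM (lam z) = (invFunOn h.cM univ (U.p z)).1
    rw [l2 z trivial, ← e, h.oeM.left trivial]
    exact h.sdr.rA q.1 q.2 (le_of_lt hq.2)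
  let G : h.W × ℝ → h.W := fun q =>
    if q.2 ≤ 1 / 2 then h.H (q.1, 2 * q.2) else h.cM (h.r q.1, 2 * q.2 - 1)
  have cG : Continuous G := by
    refine Continuous.if_le (h.sdr.Hc.comp (by fun_prop)) (h.oeM.sm.cont.comp
      ((h.sdr.rc.comp continuous_fst).prodMk (by fun_prop))) continuous_snd continuous_const
      fun q hq => ?_
    rw [hq, show 2 * (1 / 2 : ℝ) = 1 by norm_num, sub_self, h.sdr.one]
  obtain ⟨H', c1, c2, -⟩ := hH U.Wt h.W U.p univ G hU.cov cG.continuousOn fun b _ => by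
    simp only [G]
    rw [if_pos (by norm_num), mul_zero, h.sdr.zero]
  refine spinTr C E5 U.Wt U.Kc _ H' hU.cpt (c1.mono (prod_mono (fun _ _ => trivial) subset_rfl))
    (fun y _ => (c2 y trivial).1) (fun y _ => ?_) ⟨sp.pull hO ld (mapsTo_univ _ _)⟩
  refine ⟨(h.r (U.p y), 2 * 1 - 1), ⟨trivial, by norm_num⟩, ?_⟩
  rw [(c2 y trivial).2.1 1 (right_mem_Icc.2 zero_le_one)]
  exact (if_neg (by norm_num)).symm

end Pool.Agent.MP_e1dc65_gt.O

end
end MrgPart2

-- ======== part 3: formerly Pool.Agent.MP_e1dc65_gt.t.Core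
section MrgPart3

/-! PROJECT HC, rows FLIP and CORE. -/

open scoped ContDiff Manifold Topology
open Set Filter Function Topology

noncomputable section

namespace Pool.Agent.MP_e1dc65_gt.T

namespace COR

section
variable {E A B : Type} [NormedAddCommGroup E] [NormedSpace ℝ E] [NormedAddCommGroup A]
  [NormedSpace ℝ A] [FiniteDimensional ℝ A] [NormedAddCommGroup B] [NormedSpace ℝ B]
  [FiniteDimensional ℝ B] {X : Mf E}

theorem Df_neg (f : X → ℝ) (m : X) (v : E) :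
    Df X (vs ℝ) (fun m => -f m) m (-v) = Df X (vs ℝ) f m v := by
  rw [show Df X (vs ℝ) (fun m => -f m) m = -Df X (vs ℝ) f m from mfderiv_neg (f := f), map_neg,
    neg_apply, neg_neg]

theorem oe_swap {c : B × A → X} {U : Set (A × B)} {W : Set (B × A)} (h : OE (vs (B × A)) X c W)
    (e : ∀ p : A × B, p ∈ U ↔ (p.2, p.1) ∈ W) : OE (vs (A × B)) X (fun p => c (p.2, p.1)) U := by
  have hU : IsOpen U := by
    rw [show U = Prod.swap ⁻¹' W from ext e]; exact h.op.preimage continuous_swap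
  exact OE.trans (Y := vs (B × A)) ⟨hU, fun p _ => ldAt_cle (ContinuousLinearEquiv.prodComm ℝ A B) p,
    Prod.swap_injective.injOn⟩ h fun p hp => (e p).1 hp

theorem Df_swap {c : B × A → X} {p : A × B} (h : SmAt (vs (B × A)) X c (p.2, p.1)) :
    Df (vs (A × B)) X (fun p => c (p.2, p.1)) p (-p.1, p.2) =
      -Df (vs (B × A)) X c (p.2, p.1) (-p.2, p.1) := by
  have e := Df_comp (X := vs (A × B)) (Y := vs (B × A)) (g := c)
    (ldAt_cle (ContinuousLinearEquiv.prodComm ℝ A B) p).sm h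
  rw [Df_vs, ContinuousLinearEquiv.fderiv] at e
  refine (congrArg (fun T : A × B →L[ℝ] E => T (-p.1, p.2)) e).trans ?_
  rw [← map_neg, Prod.neg_mk, neg_neg]
  rfl

end

/-! ### Gluing of trivialisations, descent along an embedding -/

section
variable {X Y G : Type} [TopologicalSpace X] [TopologicalSpace Y] [Group G]
  {τ : ∀ x y : X, Path x y → G} {S T A B : Set X}

theorem triv_union (h : Hol T τ) (hS : S ⊆ T) (hA : IsOpen A) (hB : IsOpen B)
    (h1 : Triv τ (S ∩ A)) (h2 : Triv τ (S ∩ B)) (hc : IsPathConnected (S ∩ (A ∩ B))) :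
    Triv τ (S ∩ (A ∪ B)) := by
  classical
  obtain ⟨x, hx, hj⟩ := hc
  obtain ⟨s, hs, e⟩ := h1.exists_val x 1
  obtain ⟨s', hs', e'⟩ := h2.exists_val x 1
  have k : ∀ y ∈ S ∩ (A ∩ B), s y = s' y := fun y hy =>
    ((hs.mono fun z hz => ⟨hz.1, hz.2.1⟩).eq_of_joined (hs'.mono fun z hz => ⟨hz.1, hz.2.2⟩)
      (hj hy) (e'.trans e.symm)).symm
  refine ⟨A.piecewise s s', h.par_of_local (inter_subset_left.trans hS) fun y hy => ?_⟩
  rcases hy.2 with h3 | h3
  · exact ⟨A, hA.mem_nhds h3, (hs.mono fun z hz => ⟨hz.1.1, hz.2⟩).congr fun z hz =>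
      piecewise_eq_of_mem _ _ _ hz.2⟩
  · refine ⟨B, hB.mem_nhds h3, (hs'.mono fun z hz => ⟨hz.1.1, hz.2⟩).congr fun z hz => ?_⟩
    by_cases h4 : z ∈ A
    · exact (piecewise_eq_of_mem _ _ _ h4).trans (k z ⟨hz.1.1, h4, hz.2⟩)
    · exact piecewise_eq_of_notMem _ _ _ h4

theorem locSec_emb {i : Y → X} {P Q : Set Y} (e : IsEmbedding (P.domRestrict i)) (hQ : Q ⊆ P) :
    LocSec i Q := by
  rcases isEmpty_or_nonempty Y with hY | hY
  · rintro _ ⟨p, -, -⟩
    exact hY.elim p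
  have hi : InjOn i P := injOn_iff_injective.2 e.injective
  have k : ∀ z ∈ i '' Q, invFunOn i P z ∈ Q ∧ i (invFunOn i P z) = z := by
    rintro _ ⟨p, hp, rfl⟩
    rw [hi.leftInvOn_invFunOn (hQ hp)]
    exact ⟨hp, rfl⟩
  refine locSec_of_section (continuousOn_iff_continuous_domRestrict.2 ?_) k
  have : Continuous fun z : i '' Q => (⟨invFunOn i P z, hQ (k z z.2).1⟩ : P) :=
    e.continuous_iff.2 (continuous_subtype_val.congr fun z => (k z z.2).2.symm)
  exact continuous_subtype_val.comp this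

end

/-! ### The height function of the sheets -/

def Gf (u : ℝ) : ℝ := u + 2 - 4 * Real.smoothTransition ((9 - u) / 5)

theorem gam_eq (y : ℝ) : gam (-2) y = Gf (y ^ 2) := by simp only [gam, Gf, bet]; ring

theorem Gf_mono : StrictMono Gf := fun a b h => by
  have := Real.smoothTransition.monotone (show (9 - b) / 5 ≤ (9 - a) / 5 by linarith)
  simp only [Gf]; linarith

theorem Gf_cont : Continuous Gf :=
  (continuous_id.add continuous_const).sub
    (continuous_const.mul (Real.smoothTransition.continuous.comp (by fun_prop)))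

theorem Gf_lo {u : ℝ} (h : u ≤ 4) : Gf u = u - 2 := by
  rw [Gf, Real.smoothTransition.one_of_one_le (by linarith)]; ring

theorem Gf_hi {u : ℝ} (h : 9 ≤ u) : Gf u = u + 2 := by
  rw [Gf, Real.smoothTransition.zero_of_nonpos (by linarith)]; ring

theorem Gf_surj : Surjective Gf :=
  Gf_cont.surjective
    ((tendsto_atTop_add_const_right _ 2 tendsto_id).congr'
      ((eventually_ge_atTop 9).mono fun _ h => (Gf_hi h).symm))
    ((tendsto_atBot_add_const_right _ (-2) tendsto_id).congr'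
      ((eventually_le_atBot 4).mono fun _ h => (Gf_lo h).symm))

def Gi : ℝ ≃o ℝ := Gf_mono.orderIsoOfSurjective Gf Gf_surj

def Yf (s : ℝ) : ℝ := √(Gi.symm s)

theorem Yf_cont : Continuous Yf := Real.continuous_sqrt.comp Gi.symm.continuous

theorem Yf_gam (y : ℝ) : Yf (gam (-2) y) = |y| := by
  rw [gam_eq, Yf, show Gi.symm (Gf (y ^ 2)) = y ^ 2 from Gi.symm_apply_apply _, Real.sqrt_sq_eq_abs]

theorem gam_Yf {s σ : ℝ} (hσ : σ = 1 ∨ σ = -1) (h : -2 ≤ s) : gam (-2) (σ * Yf s) = s := by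
  have h0 : 0 ≤ Gi.symm s := Gi.le_symm_apply.2 (by
    show Gf 0 ≤ s
    rw [Gf_lo (by norm_num)]; linarith)
  rw [gam_eq, mul_pow, Yf, Real.sq_sqrt h0, show σ ^ 2 = 1 by rcases hσ with rfl | rfl <;> norm_num,
    one_mul]
  exact Gi.apply_symm_apply s

theorem Yf_lt {s σ : ℝ} (hσ : σ = 1 ∨ σ = -1) (h : s < 27) : |σ * Yf s| < 5 := by
  have h0 : Gi.symm s < 5 ^ 2 := Gi.symm_apply_lt.2 (by
    show s < Gf (5 ^ 2)
    rw [Gf_hi (by norm_num)]; linarith)
  rw [abs_mul, show |σ| = 1 by rcases hσ with rfl | rfl <;> norm_num, one_mul, Yf,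
    abs_of_nonneg (Real.sqrt_nonneg _)]
  exact (Real.sqrt_lt' (by norm_num)).2 h0

theorem Gm_cont : Continuous (Gm (-2)) := by
  rw [show Gm (-2) = fun b : R3 => Gf (b.2 ^ 2) - ‖b.1‖ ^ 2 from funext fun b => by rw [Gm, gam_eq]]
  exact (Gf_cont.comp (by fun_prop)).sub (by fun_prop)

theorem norm_cir : ‖cir 0‖ = 1 := by simp [cir, EuclideanSpace.norm_eq]

/-! ### The end chart -/

variable {N : NF}

theorem out_open : IsOpen Out :=
  (isOpen_lt continuous_const continuous_fst.norm).union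
    (isOpen_lt continuous_const continuous_snd.abs)

theorem pj_pinv (h : N.Ok) {q : R3} (hq : q ∈ Out) : N.pj (N.pinv q) = q := by
  obtain ⟨m, rfl⟩ := h.onto hq
  exact congrArg N.pj (h.oe.left hq)

theorem pinv_cont (h : N.Ok) {q : R3} (hq : q ∈ Out) : ContinuousAt N.pinv q := by
  obtain ⟨m, rfl⟩ := h.onto hq
  exact (h.oe.symm.sm _ (mem_image_of_mem _ hq)).cont

def cl (a : ℝ) : ℝ := max (-(6 / 5)) (min a (6 / 5))

theorem cl_cont : Continuous cl := continuous_const.max (continuous_id.min continuous_const)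

theorem cl_eq {a : ℝ} (h : |a| ≤ 6 / 5) : cl a = a := by
  rw [cl, min_eq_left (abs_le.1 h).2, max_eq_right (abs_le.1 h).1]

theorem cl_cases (a : ℝ) : (|a| ≤ 6 / 5 ∧ cl a = a) ∨ (6 / 5 < a ∧ cl a = 6 / 5) ∨
    (a < -(6 / 5) ∧ cl a = -(6 / 5)) := by
  rcases lt_or_ge (6 / 5) a with h | h
  · exact .inr (.inl ⟨h, by rw [cl, min_eq_right h.le, max_eq_right (by norm_num)]⟩)
  rcases lt_or_ge a (-(6 / 5)) with h' | h'
  · exact .inr (.inr ⟨h', by rw [cl, min_eq_left h, max_eq_left h'.le]⟩)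
  · exact .inl ⟨abs_le.2 ⟨h', h⟩, cl_eq (abs_le.2 ⟨h', h⟩)⟩

theorem cl_out {a t : ℝ} (ht : t ∈ Icc (0 : ℝ) 1) (h : 1 < |a|) : 1 < |a + t * (cl a - a)| := by
  rcases cl_cases a with ⟨-, e⟩ | ⟨h1, e⟩ | ⟨h1, e⟩ <;> rw [e]
  · simpa using h
  · exact lt_abs.2 (.inl (by nlinarith [ht.1, ht.2]))
  · exact lt_abs.2 (.inr (by nlinarith [ht.1, ht.2]))

open Classical in
/-- vertical motion into the box -/
def mv (N : NF) (t : ℝ) (m : N.F) : N.F :=
  if 1 < |N.f m| then N.pinv (N.w m, N.f m + t * (cl (N.f m) - N.f m)) else m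

theorem mv_pj (h : N.Ok) {t : ℝ} (ht : t ∈ Icc (0 : ℝ) 1) (m : N.F) :
    N.w (mv N t m) = N.w m ∧ N.f (mv N t m) = N.f m + t * (cl (N.f m) - N.f m) := by
  unfold mv
  split_ifs with h1
  · exact Prod.ext_iff.1 (pj_pinv h (q := (N.w m, _)) (.inr (cl_out ht h1)))
  · rw [cl_eq (by linarith [not_lt.1 h1])]; simp

theorem mv_eq (h : N.Ok) {t : ℝ} {m : N.F} (e : t * (cl (N.f m) - N.f m) = 0) : mv N t m = m := by
  unfold mv
  split_ifs with h1
  · rw [e, add_zero]; exact h.oe.left (.inr h1)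
  · rfl

theorem mv_cont (h : N.Ok) : ContinuousOn (fun q : ℝ × N.F => mv N q.1 q.2) (Icc 0 1 ×ˢ univ) := by
  intro q hq
  have cf : Continuous fun q : ℝ × N.F => N.f q.2 := h.smf.cont.comp continuous_snd
  by_cases h1 : 1 < |N.f q.2|
  · have c1 : Continuous fun q : ℝ × N.F =>
        ((N.w q.2, N.f q.2 + q.1 * (cl (N.f q.2) - N.f q.2)) : R3) :=
      (h.smw.cont.comp continuous_snd).prodMk
        (cf.add (continuous_fst.mul ((cl_cont.comp cf).sub cf)))
    refine (((pinv_cont h (.inr (cl_out hq.1 h1))).comp_of_eq c1.continuousAt rfl).congr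
      ?_).continuousWithinAt
    filter_upwards [(isOpen_lt continuous_const cf.abs).mem_nhds h1] with z hz
    exact (if_pos hz).symm
  · refine (continuous_snd.continuousAt.congr ?_).continuousWithinAt
    filter_upwards [(isOpen_lt cf.abs continuous_const).mem_nhds
      (show |N.f q.2| < 6 / 5 by linarith [not_lt.1 h1])] with z hz
    exact (mv_eq h (by rw [cl_eq (le_of_lt hz), sub_self, mul_zero])).symm

/-! ### The pieces -/

/-- the point of a sheet over `(m, v)` -/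
def up (N : NF) (σ : ℝ) (m : N.F) (v : E2) : N.F × R3 := (m, v, σ * Yf (N.f m + ‖v‖ ^ 2))

theorem up_cont (h : N.Ok) (σ : ℝ) : Continuous fun q : N.F × E2 => up N σ q.1 q.2 :=
  continuous_fst.prodMk (continuous_snd.prodMk (continuous_const.mul (Yf_cont.comp
    ((h.smf.cont.comp continuous_fst).add (continuous_snd.norm.pow 2)))))

theorem up_mem {σ : ℝ} (hσ : σ = 1 ∨ σ = -1) {m : N.F} {v : E2} (h1 : ‖N.w m‖ ≤ 6 / 5)
    (h2 : ‖v‖ ≤ 4) (h3 : -2 ≤ N.f m + ‖v‖ ^ 2) (h4 : N.f m + ‖v‖ ^ 2 < 27) :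
    up N σ m v ∈ N.Pt (Gm (-2)) D0 :=
  ⟨show N.f m = gam (-2) (σ * Yf (N.f m + ‖v‖ ^ 2)) - ‖v‖ ^ 2 by rw [gam_Yf hσ h3]; ring,
    show ‖N.w m‖ < 5 by linarith, show ‖v‖ < 5 by linarith, Yf_lt hσ h4⟩

theorem hyp_eq {p : N.F × R3} (hp : p ∈ N.Hyp (Gm (-2))) :
    N.f p.1 + ‖p.2.1‖ ^ 2 = gam (-2) p.2.2 := by
  rw [show N.f p.1 = gam (-2) p.2.2 - ‖p.2.1‖ ^ 2 from hp]; ring

theorem up_eq {σ : ℝ} (hσ : σ = 1 ∨ σ = -1) {p : N.F × R3} (hp : p ∈ N.Hyp (Gm (-2)))
    (h : 0 ≤ σ * p.2.2) : up N σ p.1 p.2.1 = p := by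
  refine Prod.ext rfl (Prod.ext rfl ?_)
  show σ * Yf (N.f p.1 + ‖p.2.1‖ ^ 2) = p.2.2
  rw [hyp_eq hp, Yf_gam]
  rcases hσ with rfl | rfl
  · rw [abs_of_nonneg (by linarith), one_mul]
  · rw [abs_of_nonpos (by linarith)]; ring

theorem sqrt_le {a : ℝ} (h : |a| ≤ 6 / 5) : ‖√(57 / 4 - a) • cir 0‖ = √(57 / 4 - a) ∧
    √(57 / 4 - a) ≤ 4 ∧ √(57 / 4 - a) ^ 2 = 57 / 4 - a := by
  obtain ⟨h1, h2⟩ := abs_le.1 h
  refine ⟨?_, Real.sqrt_le_iff.2 ⟨by norm_num, by linarith⟩, Real.sq_sqrt (by linarith)⟩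
  rw [norm_smul, norm_cir, mul_one, Real.norm_of_nonneg (Real.sqrt_nonneg _)]

theorem up_sheet (σ : ℝ) {m : N.F} (h : |N.f m| ≤ 6 / 5) :
    up N σ m (√(57 / 4 - N.f m) • cir 0) = (m, √(57 / 4 - N.f m) • cir 0, σ * (7 / 2)) := by
  have e : N.f m + (57 / 4 - N.f m) = gam (-2) (7 / 2) := by
    rw [gam_eq, Gf_hi (by norm_num)]; ring
  rw [up, (sqrt_le h).1, (sqrt_le h).2.2, e, Yf_gam, abs_of_pos (by norm_num)]

theorem sheet_sub {σ : ℝ} (hσ : σ = 1 ∨ σ = -1) : N.Sheet σ ⊆ N.Pt (Gm (-2)) D0 := by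
  rintro ⟨m, b⟩ ⟨h1, h2, h3⟩
  dsimp only at h1 h2 h3
  subst h3
  obtain ⟨e1, e2, e3⟩ := sqrt_le h2
  have := up_mem (N := N) (m := m) (v := √(57 / 4 - N.f m) • cir 0) hσ h1 (e1.trans_le e2)
    (by rw [e1, e3]; linarith) (by rw [e1, e3]; linarith)
  rwa [up_sheet σ h2] at this

theorem Q_sub : N.Pt (Gm (-2)) Q0 ⊆ N.Pt (Gm (-2)) D0 := fun _ hp =>
  ⟨hp.1, hp.2.1.trans_lt (by norm_num), hp.2.2.1.trans_lt (by norm_num),
    hp.2.2.2.trans_lt (by norm_num)⟩

variable {G : Type} [Group G] {τ : ∀ x y : N.F × R3, Path x y → G}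

/-- a sheet deforms into the copy of the core -/
theorem sheet (h : N.Ok) {σ : ℝ} (hσ : σ = 1 ∨ σ = -1) (hτ : Hol (N.Pt (Gm (-2)) D0) τ)
    (ht : Triv τ (N.Sheet σ)) : Triv τ (N.Pt (Gm (-2)) Q0 ∩ {p | 1 / 2 < σ * p.2.2}) := by
  have cf : Continuous fun q : ℝ × N.F × R3 => N.f q.2.1 := h.smf.cont.comp continuous_snd.fst
  have h2 : Triv τ {p | ‖N.w p.1‖ ≤ 1 ∧ |N.f p.1| ≤ 6 / 5 ∧ ‖p.2.1‖ ≤ 4 ∧
      up N σ p.1 p.2.1 = p} := by
    refine hτ.deform (H := fun q => up N σ q.2.1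
      ((1 - q.1) • q.2.2.1 + q.1 • √(57 / 4 - N.f q.2.1) • cir 0)) (Continuous.continuousOn ?_)
      (fun q hq => ?_) (fun p hp => ?_) (fun p hp => ?_) ht
    · exact (up_cont h σ).comp (continuous_snd.fst.prodMk
        (((continuous_const.sub continuous_fst).smul continuous_snd.snd.fst).add
          (continuous_fst.smul ((continuous_const.sub cf).sqrt.smul continuous_const))))
    · obtain ⟨a1, a2, a3, -⟩ := hq.2
      obtain ⟨e1, e2, -⟩ := sqrt_le a2
      have a4 : ‖(1 - q.1) • q.2.2.1 + q.1 • √(57 / 4 - N.f q.2.1) • cir 0‖ ≤ 4 :=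
        mem_closedBall_zero_iff.1 (convex_closedBall (0 : E2) 4 (mem_closedBall_zero_iff.2 a3)
          (mem_closedBall_zero_iff.2 (e1.trans_le e2)) (sub_nonneg.2 hq.1.2) hq.1.1 (by ring))
      have a5 := pow_le_pow_left₀ (norm_nonneg _) a4 2
      have a6 := sq_nonneg ‖(1 - q.1) • q.2.2.1 + q.1 • √(57 / 4 - N.f q.2.1) • cir 0‖
      obtain ⟨a7, a8⟩ := abs_le.1 a2
      exact up_mem hσ (by linarith) a4 (by linarith) (by linarith)
    · simpa using hp.2.2.2
    · simp only [sub_self, zero_smul, one_smul, zero_add]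
      rw [up_sheet σ hp.2.1]
      exact ⟨hp.1.trans (by norm_num), hp.2.1, rfl⟩
  refine hτ.deform (H := fun q => up N σ (mv N q.1 q.2.1) q.2.2.1) ?_
    (fun q hq => ?_) (fun p hp => ?_) (fun p hp => ?_) h2
  · exact (up_cont h σ).comp_continuousOn (((mv_cont h).comp
      (continuous_fst.prodMk continuous_snd.fst).continuousOn fun q hq => ⟨hq.1, trivial⟩).prodMk
        continuous_snd.snd.fst.continuousOn)
  · obtain ⟨⟨a0, a1, a2, a3⟩, -⟩ := hq.2
    obtain ⟨e1, e2⟩ := mv_pj h hq.1 q.2.1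
    have b1 := hyp_eq a0
    rw [gam_eq] at b1
    have b2 : -2 ≤ Gf (q.2.2.2 ^ 2) :=
      le_of_eq_of_le (by rw [Gf_lo (by norm_num)]; ring) (Gf_mono.monotone (sq_nonneg q.2.2.2))
    have b3 : Gf (q.2.2.2 ^ 2) ≤ 11 := le_of_le_of_eq (Gf_mono.monotone
      (sq_le_sq' (abs_le.1 a3).1 (abs_le.1 a3).2)) (by rw [Gf_hi (by norm_num)]; ring)
    have b4 : ‖q.2.2.1‖ ^ 2 ≤ 4 ^ 2 := pow_le_pow_left₀ (norm_nonneg _) a2 2
    have b5 := sq_nonneg ‖q.2.2.1‖
    obtain ⟨t0, t1⟩ := hq.1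
    refine up_mem hσ (e1 ▸ le_trans a1 (by norm_num)) a2 ?_ ?_ <;> rw [e2] <;>
      rcases cl_cases (N.f q.2.1) with ⟨c1, e⟩ | ⟨c1, e⟩ | ⟨c1, e⟩ <;> rw [e] <;> nlinarith
  · rw [mv_eq h (zero_mul _)]
    exact up_eq hσ hp.1.1 (le_trans (by norm_num) (le_of_lt hp.2))
  · obtain ⟨e1, e2⟩ := mv_pj h (right_mem_Icc.2 zero_le_one) p.1
    refine ⟨e1 ▸ hp.1.2.1, ?_, hp.1.2.2.1, rfl⟩
    show |N.f (mv N 1 p.1)| ≤ 6 / 5
    rw [e2]
    rcases cl_cases (N.f p.1) with ⟨c1, e⟩ | ⟨c1, e⟩ | ⟨c1, e⟩ <;> rw [e]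
    · simpa using c1
    · rw [abs_le]; constructor <;> linarith
    · rw [abs_le]; constructor <;> linarith

/-- the middle part is a graph over a convex set -/
theorem mid (h : N.Ok) {a b : ℝ} (ha : -(3 / 5) ≤ a) (hab : a < b) (hb : b ≤ 3 / 5) :
    SC (N.Pt (Gm (-2)) Q0 ∩ {p | a < p.2.2 ∧ p.2.2 < b}) := by
  have k : ∀ (w : E2) (z : R3), a < z.2 → z.2 < b → ((w, Gm (-2) z) : R3) ∈ Out := fun w z h1 h2 => by
    have h3 : z.2 ^ 2 < (3 / 5) ^ 2 := sq_lt_sq' (by linarith) (by linarith)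
    refine .inr (lt_abs.2 (.inr ?_))
    show 1 < -(gam (-2) z.2 - ‖z.1‖ ^ 2)
    rw [gam_eq, Gf_lo (by linarith)]
    linarith [sq_nonneg ‖z.1‖]
  have hC : SC (Metric.closedBall (0 : E2) 1 ×ˢ Metric.closedBall (0 : E2) 4 ×ˢ Ioo a b) :=
    sc_convex ((convex_closedBall _ _).prod ((convex_closedBall _ _).prod (convex_Ioo _ _)))
      ((Metric.nonempty_closedBall.2 zero_le_one).prod
        ((Metric.nonempty_closedBall.2 (by norm_num)).prod (nonempty_Ioo.2 hab)))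
  refine hC.retract (f := fun q => (N.pinv (q.1, Gm (-2) q.2), q.2)) (g := N.pr)
    (fun q hq => ?_) (fun q hq => ?_)
    ((h.smw.cont.comp continuous_fst).prodMk continuous_snd).continuousOn (fun p hp => ?_)
    fun p hp => ?_
  · exact (((pinv_cont h (k q.1 q.2 hq.2.2.1 hq.2.2.2)).comp_of_eq (continuous_fst.prodMk
      (Gm_cont.comp continuous_snd)).continuousAt rfl).prodMk continuousAt_snd).continuousWithinAt
  · obtain ⟨e1, e2⟩ := Prod.ext_iff.1 (pj_pinv h (k q.1 q.2 hq.2.2.1 hq.2.2.2))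
    exact ⟨⟨e2, (congrArg norm e1).trans_le (mem_closedBall_zero_iff.1 hq.1),
      mem_closedBall_zero_iff.1 hq.2.1, show |q.2.2| ≤ 3 from
        abs_le.2 ⟨by linarith [hq.2.2.1], by linarith [hq.2.2.2]⟩⟩, hq.2.2⟩
  · exact ⟨mem_closedBall_zero_iff.2 hp.1.2.1, mem_closedBall_zero_iff.2 hp.1.2.2.1, hp.2⟩
  · have e : ((N.w p.1, Gm (-2) p.2) : R3) = N.pj p.1 := Prod.ext rfl (Eq.symm hp.1.1)
    refine Prod.ext ?_ rfl
    show N.pinv (N.w p.1, Gm (-2) p.2) = p.1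
    rw [e]
    exact h.oe.left (e ▸ k _ _ hp.2.1 hp.2.2 :)

end COR

open COR in
theorem core : CoreStmt := by
  intro N X _ i O h e hO h1 h2
  have ci : ContinuousOn i (N.Pt (Gm (-2)) D0) :=
    continuousOn_iff_continuous_domRestrict.2 e.continuous
  have mi : MapsTo i (N.Pt (Gm (-2)) D0) O := fun p hp => hO (mem_image_of_mem i hp)
  refine (thin X _ O ((image_mono Q_sub).trans hO)).2 fun G _ τ hτ => ?_
  have hp := pullT_pull i ci τ
  have hτ' := hp.hol hτ ci mi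
  have cy : Continuous fun p : N.F × R3 => p.2.2 := continuous_snd.snd
  have s1 := sheet h (.inl rfl) hτ'
    (hp.triv ci (sheet_sub (.inl rfl)) (mapsTo_image _ _) (hτ.triv_of_thin h1))
  have s2 := sheet h (.inr rfl) hτ'
    (hp.triv ci (sheet_sub (.inr rfl)) (mapsTo_image _ _) (hτ.triv_of_thin h2))
  have o1 : ∀ σ : ℝ, IsOpen {p : N.F × R3 | 1 / 2 < σ * p.2.2} := fun σ =>
    isOpen_lt continuous_const (continuous_const.mul cy)
  have o0 : IsOpen {p : N.F × R3 | -(3 / 5) < p.2.2 ∧ p.2.2 < 3 / 5} := isOpen_Ioo.preimage cy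
  have s3 := triv_union hτ' Q_sub (o1 1) o0 s1 (hτ'.triv_of_sc
    (mid h le_rfl (by norm_num) le_rfl) (inter_subset_left.trans Q_sub)) (by
      convert (mid h (a := 1 / 2) (b := 3 / 5) (by norm_num) (by norm_num) le_rfl).1 using 2
      ext p
      exact ⟨fun hp => ⟨by linarith [hp.1.out], hp.2.2⟩,
        fun hp => ⟨show 1 / 2 < 1 * p.2.2 by linarith [hp.1], by linarith [hp.1], hp.2⟩⟩)
  obtain ⟨s, hs⟩ := triv_union hτ' Q_sub ((o1 1).union o0) (o1 (-1)) s3 s2 (by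
    convert (mid h (a := -(3 / 5)) (b := -(1 / 2)) le_rfl (by norm_num) (by norm_num)).1 using 2
    ext p
    refine ⟨fun hp => ⟨?_, by linarith [hp.2.out]⟩, fun hp =>
      ⟨.inr ⟨hp.1, by linarith [hp.2]⟩, show 1 / 2 < -1 * p.2.2 by linarith [hp.2]⟩⟩
    rcases hp.1 with h3 | h3
    · linarith [h3.out, hp.2.out]
    · exact h3.1)
  have hi : InjOn i (N.Pt (Gm (-2)) D0) := injOn_iff_injective.2 e.injective
  obtain ⟨s', hs', -⟩ := (hp.mono Q_sub).descend hτ (mi.mono_left Q_sub) (locSec_emb e Q_sub)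
    (hs.mono fun p hp => ⟨hp, by
      rcases lt_or_ge (1 / 2) p.2.2 with h3 | h3
      · exact .inl (.inl (show 1 / 2 < 1 * p.2.2 by linarith))
      rcases lt_or_ge p.2.2 (-(1 / 2)) with h4 | h4
      · exact .inr (show 1 / 2 < -1 * p.2.2 by linarith)
      · exact .inl (.inr ⟨by linarith, by linarith⟩)⟩)
    fun p hp q hq e => by rw [hi (Q_sub hp) (Q_sub hq) e]
  exact ⟨s', hs'⟩

open COR in
theorem flip_ok : FlipStmt := by
  intro N h
  have e1 : ∀ p : ℝ × E2, p ∈ N.D₁ ↔ (p.2, p.1) ∈ N.D₂ := fun p => by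
    simp only [NF.D₁, NF.D₂, mem_ofPred_eq, add_comm]
  have e2 : ∀ p : E2 × ℝ, p ∈ N.D₂ ↔ (p.2, p.1) ∈ N.D₁ := fun p => (e1 (p.2, p.1)).symm
  have eo : ∀ m, N.flip.pj m ∈ Out ↔ N.pj m ∈ Out := fun m => by
    simp only [Out, NF.pj, NF.flip, mem_ofPred_eq, abs_neg]
  let L : R3 ≃L[ℝ] R3 := (ContinuousLinearEquiv.refl ℝ E2).prodCongr (ContinuousLinearEquiv.neg ℝ)
  exact {
    smf := fun m _ => (h.smf m trivial).vcomp contDiffAt_id.neg
    smw := h.smw
    smρ := h.smρ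
    vf := fun m => (h.vf m).neg
    fl := h.fl.neg
    ρ01 := h.ρ01
    δpos := h.δpos
    lo := by have := h.hi; show -1 < -N.v₂ - N.δ ^ 2; linarith
    hi := by have := h.lo; show -N.v₁ + N.δ ^ 2 < 1; linarith
    oe₁ := fun j => oe_swap (h.oe₂ j) e1
    oe₂ := fun i => oe_swap (h.oe₁ i) e2
    f₁ := fun j p hp => by
      show -N.f (N.c₂ j (p.2, p.1)) = -N.v₂ - p.1 ^ 2 + ‖p.2‖ ^ 2
      rw [h.f₂ j _ ((e1 p).1 hp)]; ring
    f₂ := fun i p hp => by
      show -N.f (N.c₁ i (p.2, p.1)) = -N.v₁ - ‖p.1‖ ^ 2 + p.2 ^ 2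
      rw [h.f₁ i _ ((e2 p).1 hp)]; ring
    ξ₁ := fun j p hp => (Df_swap ((h.oe₂ j).sm _ ((e1 p).1 hp))).trans
      (congrArg Neg.neg (h.ξ₂ j _ ((e1 p).1 hp)))
    ξ₂ := fun i p hp => (Df_swap ((h.oe₁ i).sm _ ((e2 p).1 hp))).trans
      (congrArg Neg.neg (h.ξ₁ i _ ((e2 p).1 hp)))
    ρ₁ := fun j p hp => h.ρ₂ j _ ((e1 p).1 hp)
    ρ₂ := fun i p hp => h.ρ₁ i _ ((e2 p).1 hp)
    dis₁ := fun j j' p hp p' hp' => h.dis₂ j j' _ ((e1 p).1 hp) _ ((e1 p').1 hp')
    dis₂ := fun j j' p hp p' hp' => h.dis₁ j j' _ ((e2 p).1 hp) _ ((e2 p').1 hp')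
    pos := fun m h1 h2 => (h.pos m h2 h1).trans_eq (Df_neg N.f m _).symm
    unit := fun m hm => (Df_neg N.f m _).trans (h.unit m (by rwa [← abs_neg]))
    oe := by
      rw [show N.flip.pj ⁻¹' Out = N.pj ⁻¹' Out from ext eo]
      exact h.oe.trans ⟨isOpen_univ, fun p _ => ldAt_cle L p, L.injective.injOn⟩ (mapsTo_univ _ _)
    onto := fun q hq => by
      obtain ⟨m, hm⟩ := h.onto (a := (q.1, -q.2)) (by simpa [Out] using hq)
      exact ⟨m, (congrArg L hm).trans (Prod.ext rfl (neg_neg _))⟩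
    prop := fun Q hQ => h.prop _ (L.toHomeomorph.isCompact_preimage.2 hQ)
    vert := fun m hm => ⟨by
      show Df N.F (vs E2) N.w m (-N.ξ m) = 0
      rw [map_neg, (h.vert m ((eo m).1 hm)).1, neg_zero], (h.vert m ((eo m).1 hm)).2⟩
    up := fun m => by
      rcases h.down m with h1 | ⟨j, τ, b, h1, h2⟩ | ⟨j, τ, b, h1, h2⟩
      · exact .inl (tendsto_neg_atBot_atTop.comp (h1.comp tendsto_neg_atTop_atBot))
      · exact .inr (.inr ⟨j, -τ, b, (e2 _).2 h1, (congrArg (N.φ · m) (neg_neg τ)).trans h2⟩)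
      · exact .inr (.inl ⟨j, -τ, b, (e1 _).2 h1, (congrArg (N.φ · m) (neg_neg τ)).trans h2⟩)
    down := fun m => by
      rcases h.up m with h1 | ⟨j, τ, b, h1, h2⟩ | ⟨j, τ, b, h1, h2⟩
      · exact .inl (tendsto_neg_atTop_atBot.comp (h1.comp tendsto_neg_atBot_atTop))
      · exact .inr (.inr ⟨j, -τ, b, (e2 _).2 h1, (congrArg (N.φ · m) (neg_neg τ)).trans h2⟩)
      · exact .inr (.inl ⟨j, -τ, b, (e1 _).2 h1, (congrArg (N.φ · m) (neg_neg τ)).trans h2⟩) }

end Pool.Agent.MP_e1dc65_gt.T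

end
end MrgPart3

-- marker of a merged file
example : 731051 + 705628 = 731051 + 705628 := rfl

end MrgPart1

-- marker of a merged file
example : 731051 + 705628 = 731051 + 705628 := rfl
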