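import Pool.Agent.MP_e1dc65_gt.t2.Spec2
import Mathlib.Analysis.Real.Pi.Bounds
import Mathlib.Analysis.SpecialFunctions.Trigonometric.InverseDeriv

-- ======== part 0: formerly Pool.Agent.MP_e1dc65_gt.t.NfSpec
section MrgPart0

/-! PROJECT HC, block NF: the interface between the Morse function on the closed manifold `F`
and the normal form on `F` minus the diagonal. -/

open scoped ContDiff Manifold Topology Real
open Set Filter Function Module Topology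

noncomputable section

namespace Pool.Agent.MP_e1dc65_gt.T

/-- the mean of the coordinates -/
def mean (z : Rn 3) : ℝ := (z 0 + z 1 + z 2) / 3

/-- a Morse function with a gradient-like field on the closed manifold -/
structure Pre (F : Mf (Rn 3)) where
  f : F → ℝ
  ξ : F → Rn 3
  φ : ℝ → F → F
  ρ : F → ℝ
  δ : ℝ
  c₁ : Fin 3 → ℝ × E2 → F
  c₂ : Fin 3 → E2 × ℝ → F
  v₁ : ℝ
  v₂ : ℝ
  a₀ : ℝ
  a₁ : ℝ
  r : ℝ
  κ : ℝ
  η : ℝ → ℝ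

namespace Pre

variable {F : Mf (Rn 3)} (P : Pre F)

/-- the same data as an `NF` record (only `D₁`, `D₂`, `A`, `dn`, `Int`, `flip` are used) -/
abbrev nf : NF :=
  { F := F, f := P.f, w := fun _ => 0, ξ := P.ξ, φ := P.φ, ρ := P.ρ, δ := P.δ, c₁ := P.c₁,
    c₂ := P.c₂, v₁ := P.v₁, v₂ := P.v₂ }

/-- the two balls and the tube round the diagonal -/
def Ax : Set (Rn 3) :=
  {z | nsq z < 4 * P.r ^ 2 ∨ nsq (z - q0) < 4 * P.r ^ 2 ∨ (0 < mean z ∧ mean z < π ∧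
    nsq (fun i => z i - mean z) < (P.κ * P.η (mean z)) ^ 2)}

structure Ok (e₀ : Rn 3 → F) : Prop where
  smf : Sm F (vs ℝ) P.f univ
  smρ : Sm F (vs ℝ) P.ρ univ
  vf : ∀ m, VfAt F P.ξ m
  fl : IsFlow F P.ξ P.φ
  ρ01 : ∀ m, P.ρ m ∈ Icc (0 : ℝ) 1
  δpos : 0 < P.δ
  rpos : 0 < P.r
  rle : P.r ≤ 1 / 4
  κpos : 0 < P.κ
  lo : P.a₀ + 4 * P.r ^ 2 ≤ P.v₁ - P.δ ^ 2
  mid : P.v₁ ≤ P.v₂
  hi : P.v₂ + P.δ ^ 2 ≤ P.a₁ - 4 * P.r ^ 2
  oe₁ : ∀ j, OE (vs (ℝ × E2)) F (P.c₁ j) P.nf.D₁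
  oe₂ : ∀ i, OE (vs (E2 × ℝ)) F (P.c₂ i) P.nf.D₂
  f₁ : ∀ j, ∀ p ∈ P.nf.D₁, P.f (P.c₁ j p) = P.v₁ - p.1 ^ 2 + ‖p.2‖ ^ 2
  f₂ : ∀ i, ∀ p ∈ P.nf.D₂, P.f (P.c₂ i p) = P.v₂ - ‖p.1‖ ^ 2 + p.2 ^ 2
  ξ₁ : ∀ j, ∀ p ∈ P.nf.D₁, Df (vs (ℝ × E2)) F (P.c₁ j) p (-p.1, p.2) = P.ξ (P.c₁ j p)
  ξ₂ : ∀ i, ∀ p ∈ P.nf.D₂, Df (vs (E2 × ℝ)) F (P.c₂ i) p (-p.1, p.2) = P.ξ (P.c₂ i p)
  ρ₁ : ∀ j, ∀ p ∈ P.nf.D₁, P.ρ (P.c₁ j p) = 1
  ρ₂ : ∀ i, ∀ p ∈ P.nf.D₂, P.ρ (P.c₂ i p) = 1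
  dis₁ : ∀ j j', ∀ p ∈ P.nf.D₁, ∀ p' ∈ P.nf.D₁, P.c₁ j p = P.c₁ j' p' → j = j'
  dis₂ : ∀ i i', ∀ p ∈ P.nf.D₂, ∀ p' ∈ P.nf.D₂, P.c₂ i p = P.c₂ i' p' → i = i'
  pos : ∀ m, (∀ j, m ≠ P.c₁ j 0) → (∀ i, m ≠ P.c₂ i 0) → m ≠ e₀ 0 → m ≠ e₀ q0 →
    0 < Df F (vs ℝ) P.f m (P.ξ m)
  ηsm : ContDiff ℝ ∞ P.η
  ηpos : ∀ t ∈ Ioo 0 π, 0 < P.η t
  η0 : ∀ t, |t| < 2 * P.r → P.η t = t
  η1 : ∀ t, |t - π| < 2 * P.r → P.η t = π - t
  oe : OE (vs (Rn 3)) F e₀ P.Ax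
  ax : ∀ z ∈ P.Ax, P.ρ (e₀ z) = 0 ∧ Df (vs (Rn 3)) F e₀ z
    (fun i => P.η (mean z) + deriv P.η (mean z) * (z i - mean z)) = P.ξ (e₀ z)
  bot : ∀ z, nsq z < 4 * P.r ^ 2 → P.f (e₀ z) = P.a₀ + nsq z
  top : ∀ z, nsq (z - q0) < 4 * P.r ^ 2 → P.f (e₀ z) = P.a₁ - nsq (z - q0)
  bot' : ∀ m, P.f m < P.a₀ + 4 * P.r ^ 2 → ∃ z, nsq z < 4 * P.r ^ 2 ∧ m = e₀ z
  top' : ∀ m, P.a₁ - 4 * P.r ^ 2 < P.f m → ∃ z, nsq (z - q0) < 4 * P.r ^ 2 ∧ m = e₀ z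
  up : ∀ m, m ≠ e₀ 0 → (∃ τ, P.a₁ - P.r ^ 2 < P.f (P.φ τ m)) ∨
    (∃ j τ a, (a, 0) ∈ P.nf.D₁ ∧ P.φ τ m = P.c₁ j (a, 0)) ∨
    ∃ i τ a, (a, 0) ∈ P.nf.D₂ ∧ P.φ τ m = P.c₂ i (a, 0)
  down : ∀ m, m ≠ e₀ q0 → (∃ τ, P.f (P.φ τ m) < P.a₀ + P.r ^ 2) ∨
    (∃ j τ b, (0, b) ∈ P.nf.D₁ ∧ P.φ τ m = P.c₁ j (0, b)) ∨
    ∃ i τ b, (0, b) ∈ P.nf.D₂ ∧ P.φ τ m = P.c₂ i (0, b)

/-- `NF.Wind` with the bottom ball in place of `f ≤ -1` -/
def Wind (t : ℝ) : Prop :=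
  P.v₁ + P.δ ^ 2 < t ∧ t < P.v₂ - P.δ ^ 2 ∧ ∀ n : Fin 3 → ℤ, ∃ g : F → Circle,
    ContinuousOn g {m | P.f m ≤ t} ∧ (∀ m, P.f m ≤ P.a₀ + P.r ^ 2 → g m = 1) ∧ ∀ i, ∃ L : ℝ → ℝ,
      Continuous L ∧ (∀ s, L (s + 2 * π) = L s + 2 * π * n i) ∧
      ∀ s T, P.f (P.φ T (P.nf.dn i (cir s))) = t → g (P.φ T (P.nf.dn i (cir s))) = Circle.exp (L s)

structure Good (e₀ : Rn 3 → F) : Prop where
  ok : P.Ok e₀
  int : ∃ t b d s₀ μ, P.nf.Int t b d s₀ μ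
  int' : ∃ t b d s₀ μ, P.nf.flip.Int t b d s₀ μ
  wind : ∃ t, P.Wind t
  cof : ∃ Θ : F → Rn 3 →L[ℝ] Rn 3, Cof F ∞ Θ univ

end Pre

/-- the Morse data on the closed manifold -/
def PreStmt : Prop :=
  ∀ (F : Mf (Rn 3)) (e₀ : Rn 3 → F) (e : Fin 3 → Rn 3 → F), IsF F e₀ e → ∃ P : Pre F, P.Good e₀

/-- the normal form from the Morse data -/
def NormStmt : Prop :=
  ∀ (F : Mf (Rn 3)) [CompactSpace F] (e₀ : Rn 3 → F) (P : Pre F), P.Good e₀ →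
    ∃ (N : NF) (em : N.F → F) (th : OpenPartialHomeomorph F (Rn 3)) (th' : R3 → Rn 3),
      N.Good ∧ N.End F e₀ em th th'

theorem nf_of (h : PreStmt) (h' : NormStmt) : NFStmt := fun F e₀ e hF =>
  let ⟨P, hP⟩ := h F e₀ e hF
  have := hF.cpt
  h' F e₀ P hP

end Pool.Agent.MP_e1dc65_gt.T

end
end MrgPart0

-- ======== part 1: formerly Pool.Agent.MP_e1dc65_gt.t.PreSpec
section MrgPart1

/-! PROJECT HC, block NF, `PreStmt`: a periodic field on three-space, an atlas of `F` in which the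
gradient-like field is this one field, and the statements of the rows. -/

open scoped ContDiff Manifold Topology Real
open Set Filter Function Module Topology

noncomputable section

namespace Pool.Agent.MP_e1dc65_gt.T.Pr

def sg : Fin 3 → ℝ := ![1, -1, 1]
def tau (i : Fin 3) (z : Rn 3) : ℝ := z (jx i) - cj i
def nu (i : Fin 3) (z : Rn 3) : ℝ := z (kx i) - ck i
/-- the open cube and its translates -/
def Oct : Set (Rn 3) := {z | ∀ k, 0 < Real.sin (z k)}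
/-- the open quadrant that contains the cut `i` -/
def Qd (i : Fin 3) : Set (Rn 3) :=
  {z | sg i * Real.sin (z (jx i)) < 0 ∧ 0 < sg i * Real.sin (z (kx i))}
/-- one component of the quadrant -/
def St (i : Fin 3) : Set (Rn 3) := {z | |tau i z| < π / 2 ∧ |nu i z| < π / 2}
/-- the thick cut -/
def Blk (i : Fin 3) : Set (Rn 3) := {z | ∃ z', Lat z z' ∧ |tau i z'| ≤ 3 / 20 ∧ |nu i z'| ≤ 1 / 20}
/-- the core of the quadrant -/
def Cor (p : ℝ → ℝ) (i : Fin 3) : Set (Rn 3) :=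
  {z | z ∈ Qd i ∧ |p (z (jx i))| ≤ 14 / 5 ∧ |p (z (kx i))| ≤ 14 / 5}
/-- `a` in the slot `i`, and `b` in the two other slots -/
def ins (i : Fin 3) (a : ℝ) (b : E2) : Rn 3 :=
  fun k => if k = i then a else if k = jx i then b 0 else b 1

/-! ### Three-space -/

/-- the Morse function `p` on the circle, and `η = p' / 2` -/
structure Sc (p η : ℝ → ℝ) : Prop where
  sm : ContDiff ℝ ∞ p
  der : ∀ t, HasDerivAt p (2 * η t) t
  per : ∀ t (n : ℤ), p (t + 2 * π * n) = p t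
  even : ∀ t, p (-t) = p t
  mir : ∀ t, p (π - t) = -p t
  quad : ∀ t, |t| ≤ 2 / 25 → p t = -π + t ^ 2
  lin : ∀ t, |t - π / 2| ≤ π / 2 - 4 / 25 → p t = 2 * t - π
  mono : StrictMonoOn p (Icc 0 π)
  bd : ∀ t, |p t| ≤ π
  top : ∀ t, Real.sin t = 0 → |p t| = π
  flat : ∀ t, |p t| ≤ 14 / 5 → η t ^ 2 = 1
  low : ∀ t, p t < -π + (2 / 25) ^ 2 → ∃ n : ℤ, |t - 2 * π * n| < 2 / 25
  ηsm : ContDiff ℝ ∞ η
  ηper : ∀ t (n : ℤ), η (t + 2 * π * n) = η t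
  ηodd : ∀ t, η (-t) = -η t
  ηmir : ∀ t, η (π - t) = η t
  ηpos : ∀ t, 0 < η t ↔ 0 < Real.sin t
  ηneg : ∀ t, η t < 0 ↔ Real.sin t < 0
  ηzero : ∀ t, η t = 0 ↔ Real.sin t = 0
  η0 : ∀ t, |t| < 2 / 25 → η t = t
  η1 : ∀ t, |t - π / 2| < π / 2 - 4 / 25 → η t = 1

/-- the cut-off functions of the three quadrants -/
structure CH (p η : ℝ → ℝ) (χ : Fin 3 → Rn 3 → ℝ) : Prop where
  sm : ∀ i, ContDiff ℝ ∞ (χ i)
  lat : ∀ i z z', Lat z z' → χ i z = χ i z'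
  mir : ∀ i z, χ i (q0 - z) = χ i z
  mem : ∀ i z, χ i z ∈ Icc (0 : ℝ) 1
  sup : ∀ i z, z ∉ Cor p i → χ i z = 0
  box : ∀ i, ∀ z ∈ Box i, χ i z = 1
  gle : ∀ i z, χ i z ≠ 0 → |p (z (jx i)) + p (z (kx i))| ≤ 23 / 5
  der : ∀ i z (v : Rn 3), v (jx i) = η (z (jx i)) → v (kx i) = η (z (kx i)) →
    0 ≤ fderiv ℝ (χ i) z v * (-p (z i) - 3 / 4 * (p (z (jx i)) + p (z (kx i))))

/-- the correction that makes the field axial round the diagonal -/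
structure AX (η : ℝ → ℝ) (κ : ℝ) (A : Rn 3 → Rn 3) : Prop where
  κpos : 0 < κ
  sm : ContDiff ℝ ∞ A
  lat : ∀ z z', Lat z z' → A z = A z'
  mir : ∀ z, A (q0 - z) = A z
  fac : ∃ H : Rn 3 → Rn 3, Continuous H ∧ ∀ z k, A z k = η (z k) * H z k
  off : ∀ z ∉ Oct, A z = 0
  pos : ∀ z ∈ Oct, ∀ k, 0 < η (z k) + A z k
  near : ∀ (z : Rn 3) (n : Fin 3 → ℤ), (∀ k, |z k - n k * π| < 2 / 25) → A z = 0
  tube : ∀ z : Rn 3, 0 < mean z → mean z < π →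
    nsq (fun i => z i - mean z) < (κ * η (mean z)) ^ 2 →
    ∀ k, η (z k) + A z k = η (mean z) + deriv η (mean z) * (z k - mean z)
  thin : ∀ t ∈ Ioo 0 π, κ * η t ≤ t ∧ κ * η t ≤ π - t ∧ κ * η t ≤ 1 / 10

/-- the field `V` and the function `g` -/
structure VD (p η : ℝ → ℝ) (κ : ℝ) (V : Rn 3 → Rn 3) (g : Rn 3 → ℝ) : Prop where
  κpos : 0 < κ
  smV : ContDiff ℝ ∞ V
  smg : ContDiff ℝ ∞ g
  latV : ∀ z z', Lat z z' → V z = V z'
  latg : ∀ z z', Lat z z' → g z = g z'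
  mirV : ∀ z, V (q0 - z) = V z
  mirg : ∀ z, g (q0 - z) = -g z
  fac : ∃ H : Rn 3 → Rn 3, Continuous H ∧ ∀ z k, V z k = η (z k) * H z k
  prod : ∀ z ∉ Oct, ∀ k, z ∉ Cor p k → V z k = η (z k)
  sum : ∀ z, (∀ i, z ∉ Cor p i) → g z = ∑ k, p (z k)
  box : ∀ i, ∀ z ∈ Box i, V z i = 0 ∧ V z (jx i) = -sg i ∧ V z (kx i) = sg i ∧
    g z = sg i * (nu i z - tau i z) / 2
  pos : ∀ z : Rn 3, (∃ k, Real.sin (z k) ≠ 0) → 0 < fderiv ℝ g z (V z)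
  near : ∀ (z : Rn 3) (n : Fin 3 → ℤ), (∀ k, |z k - n k * π| < 2 / 25) →
    (∀ k, V z k = η (z k)) ∧ g z = ∑ k, p (z k)
  low : ∀ z, g z < -3 * π + (2 / 25) ^ 2 → ∃ z', Lat z z' ∧ nsq z' < (2 / 25) ^ 2
  tube : ∀ z : Rn 3, 0 < mean z → mean z < π →
    nsq (fun i => z i - mean z) < (κ * η (mean z)) ^ 2 →
    ∀ k, V z k = η (mean z) + deriv η (mean z) * (z k - mean z)
  thin : ∀ t ∈ Ioo 0 π, κ * η t ≤ t ∧ κ * η t ≤ π - t ∧ κ * η t ≤ 1 / 10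

/-- the data on three-space -/
structure Eu where
  p : ℝ → ℝ
  η : ℝ → ℝ
  κ : ℝ
  V : Rn 3 → Rn 3
  g : Rn 3 → ℝ
  ψ : ℝ → ℝ → ℝ
  Ψ : ℝ → Rn 3 → Rn 3

structure Eu.Ok (U : Eu) : Prop where
  sc : Sc U.p U.η
  vd : VD U.p U.η U.κ U.V U.g
  ψfl : IsFlow (vs ℝ) U.η U.ψ
  Ψfl : IsFlow (vs (Rn 3)) U.V U.Ψ

/-- properties of the two flows -/
structure Eu.Fl (U : Eu) : Prop where
  ψper : ∀ t x (n : ℤ), U.ψ t (x + 2 * π * n) = U.ψ t x + 2 * π * n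
  ψodd : ∀ t x, U.ψ t (-x) = -U.ψ t x
  ψfix : ∀ t x, Real.sin x = 0 → U.ψ t x = x
  ψmono : ∀ t, StrictMono (U.ψ t)
  ψder : ∀ t x, ∃ d, 0 < d ∧ HasDerivAt (U.ψ t) d x
  ψup : ∀ x ∈ Ioo 0 π, StrictMono (fun t => U.ψ t x) ∧ Tendsto (fun t => U.ψ t x) atBot (𝓝 0) ∧
    Tendsto (fun t => U.ψ t x) atTop (𝓝 π)
  ψdn : ∀ x ∈ Ioo π (2 * π), StrictAnti (fun t => U.ψ t x) ∧
    Tendsto (fun t => U.ψ t x) atBot (𝓝 (2 * π)) ∧ Tendsto (fun t => U.ψ t x) atTop (𝓝 π)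
  time : ∀ i, ∃ T₀ : ℝ → ℝ, ContinuousOn T₀ {x | |x - ck i| < π / 2} ∧
    ∀ x, |x - ck i| < π / 2 → U.ψ (T₀ x) x = ck i
  Ψlat : ∀ t z (n : Fin 3 → ℤ),
    U.Ψ t (z + fun k => 2 * π * (n k : ℝ)) = U.Ψ t z + fun k => 2 * π * (n k : ℝ)
  Ψfix : ∀ t z k, Real.sin (z k) = 0 → U.Ψ t z k = z k
  Ψfix' : ∀ t z k, Real.sin (U.Ψ t z k) = 0 → U.Ψ t z k = z k
  Ψpos : ∀ t z k, 0 < Real.sin (U.Ψ t z k) ↔ 0 < Real.sin (z k)
  Ψneg : ∀ t z k, Real.sin (U.Ψ t z k) < 0 ↔ Real.sin (z k) < 0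
  Ψoct : ∀ t z, U.Ψ t z ∈ Oct ↔ z ∈ Oct
  Ψqd : ∀ t z i, U.Ψ t z ∈ Qd i ↔ z ∈ Qd i
  Ψst : ∀ t z i, U.Ψ t z ∈ St i ↔ z ∈ St i
  Ψψ : ∀ t, ∀ z ∉ Oct, ∀ k, z ∉ Qd k → U.Ψ t z k = U.ψ t (z k)
  Ψnu : ∀ i, ∀ z ∈ St i, StrictMono fun t => sg i * nu i (U.Ψ t z)

/-! ### The atlas of `F` -/

/-- `none`: off the thick cuts; `some (i, false)`: before the cut; `some (i, true)`: after it -/
def Dom : Option (Fin 3 × Bool) → Set (Rn 3)
  | none => {z | ∀ i, z ∉ Blk i}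
  | some (i, false) => {z | z ∈ St i ∧ sg i * nu i z < 1 / 20}
  | some (i, true) => {z | z ∈ St i ∧ -(1 / 20) < sg i * nu i z}

/-- congruent, or in the same box up to the twisted coordinate -/
def Rel (z z' : Rn 3) : Prop :=
  Lat z z' ∨ ∃ i, ∃ w ∈ Box i, ∃ w' ∈ Box i, Lat z w ∧ Lat z' w' ∧ ∀ k, k ≠ i → w k = w' k

/-- the shift between the charts before and after the cut -/
def sh (s : ℝ) (i : Fin 3) (z : Rn 3) : Rn 3 :=
  Pi.single i (2 * π * sg i * lam (s * (tau i z + nu i z)))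

structure Dat (F : Mf (Rn 3)) where
  s : ℝ
  K : Option (Fin 3 × Bool) → Rn 3 → F
  ξ : F → Rn 3
  φ : ℝ → F → F
  f : F → ℝ

structure GD (U : Eu) {F : Mf (Rn 3)} (D : Dat F) : Prop where
  sgn : D.s = 1 ∨ D.s = -1
  ld : ∀ a, ∀ z ∈ Dom a, LDAt (vs (Rn 3)) F (D.K a) z
  sep : ∀ a a', ∀ z ∈ Dom a, ∀ z' ∈ Dom a', D.K a z = D.K a' z' → Rel z z'
  cov : ∀ m, ∃ a, ∃ z ∈ Dom a, D.K a z = m
  lat : ∀ z ∈ Dom none, ∀ z', Lat z z' → D.K none z = D.K none z'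
  eq0 : ∀ a, ∀ z ∈ Dom a, z ∈ Dom none → D.K a z = D.K none z
  mat : ∀ i, ∀ z ∈ St i, |nu i z| < 1 / 20 →
    D.K (some (i, false)) z = D.K (some (i, true)) (z + sh D.s i z)
  vf : ∀ m, VfAt F D.ξ m
  fl : IsFlow F D.ξ D.φ
  smf : Sm F (vs ℝ) D.f univ
  fld : ∀ a, ∀ z ∈ Dom a, Df (vs (Rn 3)) F (D.K a) z (U.V z) = D.ξ (D.K a z)
  fn : ∀ a, ∀ z ∈ Dom a, D.f (D.K a z) = U.g z

/-- the reflection of the strip -/
def io (i : Fin 3) (z : Rn 3) : Rn 3 :=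
  fun k => (if k = i then π else if k = jx i then 2 * cj i else 2 * ck i) - z k

/-- upside down -/
def Dat.flip {F : Mf (Rn 3)} (D : Dat F) : Dat F where
  s := -D.s
  K
    | none => fun z => D.K none (q0 - z)
    | some (i, b) => fun z => D.K (some (i, !b)) (io i z)
  ξ m := -D.ξ m
  φ t := D.φ (-t)
  f m := -D.f m

def Dat.c₁ {F : Mf (Rn 3)} (D : Dat F) (j : Fin 3) (p : ℝ × E2) : F :=
  D.K none (Pi.single j π - ins j p.1 p.2)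
def Dat.c₂ {F : Mf (Rn 3)} (D : Dat F) (i : Fin 3) (p : E2 × ℝ) : F :=
  D.K none (q0 - Pi.single i π + ins i p.2 p.1)

abbrev Dat.pre {F : Mf (Rn 3)} (D : Dat F) (U : Eu) (ρ : F → ℝ) : Pre F :=
  { f := D.f, ξ := D.ξ, φ := D.φ, ρ := ρ, δ := 1 / 25, c₁ := D.c₁, c₂ := D.c₂, v₁ := -π, v₂ := π,
    a₀ := -3 * π, a₁ := 3 * π, r := 1 / 25, κ := U.κ, η := U.η }

/-- `Pre.Ok` without the fields `up` and `down` -/
structure Ok0 {F : Mf (Rn 3)} (P : Pre F) (e₀ : Rn 3 → F) : Prop where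
  smf : Sm F (vs ℝ) P.f univ
  smρ : Sm F (vs ℝ) P.ρ univ
  vf : ∀ m, VfAt F P.ξ m
  fl : IsFlow F P.ξ P.φ
  ρ01 : ∀ m, P.ρ m ∈ Icc (0 : ℝ) 1
  δpos : 0 < P.δ
  rpos : 0 < P.r
  rle : P.r ≤ 1 / 4
  κpos : 0 < P.κ
  lo : P.a₀ + 4 * P.r ^ 2 ≤ P.v₁ - P.δ ^ 2
  mid : P.v₁ ≤ P.v₂
  hi : P.v₂ + P.δ ^ 2 ≤ P.a₁ - 4 * P.r ^ 2
  oe₁ : ∀ j, OE (vs (ℝ × E2)) F (P.c₁ j) P.nf.D₁
  oe₂ : ∀ i, OE (vs (E2 × ℝ)) F (P.c₂ i) P.nf.D₂
  f₁ : ∀ j, ∀ p ∈ P.nf.D₁, P.f (P.c₁ j p) = P.v₁ - p.1 ^ 2 + ‖p.2‖ ^ 2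
  f₂ : ∀ i, ∀ p ∈ P.nf.D₂, P.f (P.c₂ i p) = P.v₂ - ‖p.1‖ ^ 2 + p.2 ^ 2
  ξ₁ : ∀ j, ∀ p ∈ P.nf.D₁, Df (vs (ℝ × E2)) F (P.c₁ j) p (-p.1, p.2) = P.ξ (P.c₁ j p)
  ξ₂ : ∀ i, ∀ p ∈ P.nf.D₂, Df (vs (E2 × ℝ)) F (P.c₂ i) p (-p.1, p.2) = P.ξ (P.c₂ i p)
  ρ₁ : ∀ j, ∀ p ∈ P.nf.D₁, P.ρ (P.c₁ j p) = 1
  ρ₂ : ∀ i, ∀ p ∈ P.nf.D₂, P.ρ (P.c₂ i p) = 1
  dis₁ : ∀ j j', ∀ p ∈ P.nf.D₁, ∀ p' ∈ P.nf.D₁, P.c₁ j p = P.c₁ j' p' → j = j'
  dis₂ : ∀ i i', ∀ p ∈ P.nf.D₂, ∀ p' ∈ P.nf.D₂, P.c₂ i p = P.c₂ i' p' → i = i'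
  pos : ∀ m, (∀ j, m ≠ P.c₁ j 0) → (∀ i, m ≠ P.c₂ i 0) → m ≠ e₀ 0 → m ≠ e₀ q0 →
    0 < Df F (vs ℝ) P.f m (P.ξ m)
  ηsm : ContDiff ℝ ∞ P.η
  ηpos : ∀ t ∈ Ioo 0 π, 0 < P.η t
  η0 : ∀ t, |t| < 2 * P.r → P.η t = t
  η1 : ∀ t, |t - π| < 2 * P.r → P.η t = π - t
  oe : OE (vs (Rn 3)) F e₀ P.Ax
  ax : ∀ z ∈ P.Ax, P.ρ (e₀ z) = 0 ∧ Df (vs (Rn 3)) F e₀ z
    (fun i => P.η (mean z) + deriv P.η (mean z) * (z i - mean z)) = P.ξ (e₀ z)
  bot : ∀ z, nsq z < 4 * P.r ^ 2 → P.f (e₀ z) = P.a₀ + nsq z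
  top : ∀ z, nsq (z - q0) < 4 * P.r ^ 2 → P.f (e₀ z) = P.a₁ - nsq (z - q0)
  bot' : ∀ m, P.f m < P.a₀ + 4 * P.r ^ 2 → ∃ z, nsq z < 4 * P.r ^ 2 ∧ m = e₀ z
  top' : ∀ m, P.a₁ - 4 * P.r ^ 2 < P.f m → ∃ z, nsq (z - q0) < 4 * P.r ^ 2 ∧ m = e₀ z

/-- the normal form `N` is read in the atlas `D` -/
structure Fit (N : NF) (D : Dat N.F) : Prop where
  f : ∀ m, N.f m = D.f m
  φ : ∀ t m, N.φ t m = D.φ t m
  δ : N.δ = 1 / 25
  v₁ : N.v₁ = -π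
  v₂ : N.v₂ = π
  c₁ : ∀ j p, N.c₁ j p = D.c₁ j p
  c₂ : ∀ i p, N.c₂ i p = D.c₂ i p

/-! ### Rows -/

def ScStmt : Prop := ∃ p η, Sc p η
def ChStmt : Prop := ∀ p η, Sc p η → ∃ χ, CH p η χ
def AxStmt : Prop := ∀ p η, Sc p η → ∃ κ A, AX η κ A
def VdStmt : Prop := ∀ p η χ κ A, Sc p η → CH p η χ → AX η κ A → ∃ V g, VD p η κ V g
def FlStmt : Prop := (∀ p η κ V g, Sc p η → VD p η κ V g → ∃ ψ Ψ, Eu.Ok ⟨p, η, κ, V, g, ψ, Ψ⟩) ∧
  ∀ U : Eu, U.Ok → U.Fl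
def GdStmt : Prop :=
  ∀ (U : Eu) (F : Mf (Rn 3)) (e₀ : Rn 3 → F) (e : Fin 3 → Rn 3 → F), U.Ok → IsF F e₀ e →
    ∃ D : Dat F, GD U D ∧ D.s = 1 ∧ D.K none = e₀
def FlipStmt : Prop := ∀ (U : Eu) (F : Mf (Rn 3)) (D : Dat F), U.Ok → GD U D → GD U D.flip
def OkStmt : Prop :=
  ∀ (U : Eu) (F : Mf (Rn 3)) (D : Dat F), U.Ok → GD U D → ∃ ρ, Ok0 (D.pre U ρ) (D.K none)
def UpStmt : Prop :=
  ∀ (F : Mf (Rn 3)) [CompactSpace F] (P : Pre F) (e₀ : Rn 3 → F), Ok0 P e₀ → P.Ok e₀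
def IntStmt : Prop :=
  ∀ (U : Eu) (N : NF) (D : Dat N.F), U.Ok → U.Fl → GD U D → Fit N D →
    ∃ t b d s₀ μ, N.Int t b d s₀ μ
def WindStmt : Prop :=
  ∀ (U : Eu) (F : Mf (Rn 3)) (D : Dat F) (ρ : F → ℝ), U.Ok → U.Fl → GD U D → D.s = 1 →
    (D.pre U ρ).Ok (D.K none) → ∃ t, (D.pre U ρ).Wind t
def CofStmt : Prop :=
  ∀ (F : Mf (Rn 3)) (e₀ : Rn 3 → F) (e : Fin 3 → Rn 3 → F), IsF F e₀ e →
    ∃ Θ : F → Rn 3 →L[ℝ] Rn 3, Cof F ∞ Θ univ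

theorem pre_of (h1 : ScStmt) (h2 : ChStmt) (h3 : AxStmt) (h4 : VdStmt) (h5 : FlStmt) (h6 : GdStmt)
    (h7 : FlipStmt) (h8 : OkStmt) (h9 : UpStmt) (h10 : IntStmt) (h11 : WindStmt) (h12 : CofStmt) :
    PreStmt := by
  intro F e₀ e hF
  obtain ⟨p, η, hs⟩ := h1
  obtain ⟨χ, hχ⟩ := h2 p η hs
  obtain ⟨κ, A, hA⟩ := h3 p η hs
  obtain ⟨V, g, hV⟩ := h4 p η χ κ A hs hχ hA
  obtain ⟨ψ, Ψ, hU⟩ := h5.1 p η κ V g hs hV
  obtain ⟨D, hD, s1, rfl⟩ := h6 _ F e₀ e hU hF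
  obtain ⟨ρ, hρ⟩ := h8 _ F D hU hD
  have := hF.cpt
  have ok := h9 F _ _ hρ
  refine ⟨_, ok, h10 _ _ D hU (h5.2 _ hU) hD ⟨fun _ => rfl, fun _ _ => rfl, rfl, rfl, rfl,
    fun _ _ => rfl, fun _ _ => rfl⟩, h10 _ _ D.flip hU (h5.2 _ hU) (h7 _ F D hU hD)
    ⟨fun _ => rfl, fun _ _ => rfl, rfl, rfl, neg_neg _, fun j p => ?_, fun i p => ?_⟩,
    h11 _ F D ρ hU (h5.2 _ hU) hD s1 ok, h12 F _ e hF⟩
  · exact congrArg (D.K none) (by abel)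
  · exact congrArg (D.K none) (by abel)

end Pool.Agent.MP_e1dc65_gt.T.Pr

end
end MrgPart1

-- ======== part 2: formerly Pool.Agent.MP_e1dc65_gt.t.PreAx
section MrgPart2

/-! PROJECT HC, block NF, row AX: the axial correction round the diagonal. -/

open scoped ContDiff Topology Real
open Set Filter Function

noncomputable section

namespace Pool.Agent.MP_e1dc65_gt.T.Pr

namespace AxP

variable {p η : ℝ → ℝ} {κ B : ℝ}

def fold (z : Rn 3) : Rn 3 := fun k => Real.arccos (Real.cos (z k))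
def NN (x : Rn 3) : ℝ := nsq fun i => x i - mean x
def be (η : ℝ → ℝ) (κ : ℝ) (x : Rn 3) : ℝ :=
  Real.smoothTransition (2 - NN x / (κ * η (mean x)) ^ 2)
def A0 (η : ℝ → ℝ) (κ : ℝ) (x : Rn 3) : Rn 3 := fun k =>
  be η κ x * (η (mean x) + deriv η (mean x) * (x k - mean x) - η (x k))
open Classical in
def AA (η : ℝ → ℝ) (κ : ℝ) (z : Rn 3) : Rn 3 := if z ∈ Oct then A0 η κ (fold z) else 0

structure KB (η : ℝ → ℝ) (κ B : ℝ) : Prop where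
  pos : 0 < κ
  kb : 40 * κ * B ≤ 1
  der : ∀ t ∈ Icc 0 π, |deriv η t| ≤ B
  le : ∀ t ∈ Icc 0 π, 40 * (κ * η t) ≤ t ∧ 40 * (κ * η t) ≤ π - t

theorem cd_mean : ContDiff ℝ ∞ mean := by unfold mean; fun_prop
theorem cd_NN : ContDiff ℝ ∞ NN := by
  have := cd_mean
  unfold NN nsq
  exact ContDiff.sum fun i _ => by fun_prop
theorem sq_le_NN (x : Rn 3) (k : Fin 3) : (x k - mean x) ^ 2 ≤ NN x :=
  Finset.single_le_sum (f := fun i => (x i - mean x) ^ 2) (fun _ _ => sq_nonneg _)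
    (Finset.mem_univ k)
theorem cont_fold : Continuous fold :=
  continuous_pi fun _ => Real.continuous_arccos.comp (by fun_prop)
theorem fold_mem (z : Rn 3) (k : Fin 3) : fold z k ∈ Icc 0 π :=
  ⟨Real.arccos_nonneg _, Real.arccos_le_pi _⟩
theorem sin_fold (z : Rn 3) (k : Fin 3) : Real.sin (fold z k) = |Real.sin (z k)| := by
  rw [fold, Real.sin_arccos, ← Real.sin_sq, Real.sqrt_sq_eq_abs]
theorem isOpen_oct : IsOpen Oct := by
  rw [Oct, ofPred_forall]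
  exact isOpen_iInter_of_finite fun k => isOpen_lt continuous_const (by fun_prop)
theorem fold_ioo {z : Rn 3} (hz : z ∈ Oct) (k : Fin 3) : fold z k ∈ Ioo 0 π := by
  have h := sin_fold z k
  rw [abs_of_pos (hz k)] at h
  have h2 := hz k
  obtain ⟨a, b⟩ := fold_mem z k
  refine ⟨a.lt_of_ne fun e => ?_, b.lt_of_ne fun e => ?_⟩
  · rw [← e, Real.sin_zero] at h; linarith
  · rw [e, Real.sin_pi] at h; linarith
theorem mean_ioo {x : Rn 3} (h : ∀ k, x k ∈ Ioo 0 π) : mean x ∈ Ioo 0 π := by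
  have h0 := h 0; have h1 := h 1; have h2 := h 2
  unfold mean
  constructor <;> linarith [h0.1, h0.2, h1.1, h1.2, h2.1, h2.2]
theorem mean_mir (x : Rn 3) : mean (q0 - x) = π - mean x := by
  simp only [mean, q0, Pi.sub_apply]; ring
theorem fold_mir (z : Rn 3) : fold (q0 - z) = q0 - fold z := by
  funext k
  simp only [fold, q0, Pi.sub_apply, Real.cos_pi_sub, Real.arccos_neg]

theorem η_fold (hs : Sc p η) {z : Rn 3} (hz : z ∈ Oct) (k : Fin 3) : η (fold z k) = η (z k) := by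
  have h1 : Real.cos (fold z k) = Real.cos (z k) :=
    Real.cos_arccos (Real.neg_one_le_cos _) (Real.cos_le_one _)
  have h2 := sin_fold z k
  rw [abs_of_pos (hz k)] at h2
  have : ((fold z k : ℝ) : Real.Angle) = (z k : ℝ) := Real.Angle.cos_sin_inj h1 h2
  obtain ⟨n, hn⟩ := Real.Angle.angle_eq_iff_two_pi_dvd_sub.1 this
  rw [show fold z k = z k + 2 * π * n by linarith, hs.ηper]

theorem η_pos (hs : Sc p η) {t : ℝ} (ht : t ∈ Ioo 0 π) : 0 < η t :=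
  (hs.ηpos t).2 (Real.sin_pos_of_pos_of_lt_pi ht.1 ht.2)

theorem der_mir (hs : Sc p η) (t : ℝ) : deriv η (π - t) = -deriv η t := by
  have : η = fun s => η (π - s) := funext fun s => (hs.ηmir s).symm
  conv_rhs => rw [this, deriv_comp_const_sub]
  rw [neg_neg]

theorem der_zero (hs : Sc p η) {t : ℝ} (ht : |t| < 2 / 25) : deriv η t = 1 := by
  have : η =ᶠ[𝓝 t] id := by
    filter_upwards [(isOpen_lt continuous_abs continuous_const).mem_nhds ht] with s h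
    exact hs.η0 s h
  rw [this.deriv_eq, deriv_id]

theorem A0_mir (hs : Sc p η) (x : Rn 3) : A0 η κ (q0 - x) = A0 η κ x := by
  have hN : NN (q0 - x) = NN x := by
    unfold NN nsq
    refine Finset.sum_congr rfl fun i _ => ?_
    simp only [mean_mir, q0, Pi.sub_apply]
    ring
  funext k
  simp only [A0, be, hN, mean_mir, hs.ηmir, der_mir hs]
  simp only [q0, Pi.sub_apply, hs.ηmir]
  ring

theorem exists_kb (hs : Sc p η) : ∃ κ B, KB η κ B := by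
  have hd : Continuous (deriv η) := hs.ηsm.continuous_deriv (by simp)
  obtain ⟨C, hC⟩ := (isCompact_Icc (a := 0) (b := π)).exists_bound_of_continuousOn hd.continuousOn
  have h0 : 0 ≤ C := (norm_nonneg _).trans (hC 0 ⟨le_rfl, Real.pi_pos.le⟩)
  have key : ∀ t ∈ Icc 0 π, 40 * (1 / (40 * (C + 1)) * η t) ≤ t := by
    intro t ht
    have := (convex_Icc 0 π).norm_image_sub_le_of_norm_deriv_le
      (fun x _ => (hs.ηsm.differentiable (by simp)) x) hC ⟨le_rfl, Real.pi_pos.le⟩ ht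
    rw [hs.η0 0 (by norm_num), sub_zero, sub_zero, Real.norm_eq_abs, Real.norm_eq_abs,
      abs_of_nonneg ht.1] at this
    have h1 := le_abs_self (η t)
    rw [show 40 * (1 / (40 * (C + 1)) * η t) = η t / (C + 1) by field_simp,
      div_le_iff₀ (by positivity)]
    nlinarith [ht.1]
  refine ⟨1 / (40 * (C + 1)), C + 1, by positivity, le_of_eq (by field_simp),
    fun t ht => (hC t ht).trans (by linarith), fun t ht => ⟨key t ht, ?_⟩⟩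
  rw [← hs.ηmir t]
  exact key _ ⟨by linarith [ht.2], by linarith [ht.1]⟩

theorem be_zero (hs : Sc p η) (hk : KB η κ B) {x : Rn 3} (ht : mean x ∈ Ioo 0 π)
    (h : 2 * (κ * η (mean x)) ^ 2 ≤ NN x) : be η κ x = 0 := by
  have := η_pos hs ht
  have := hk.pos
  refine Real.smoothTransition.zero_of_nonpos ?_
  rw [sub_nonpos, le_div_iff₀ (by positivity)]
  exact h

theorem A0_of_be {x : Rn 3} (h : be η κ x = 0) : A0 η κ x = 0 := by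
  funext k; simp [A0, h]

theorem A0_lin (hs : Sc p η) {x : Rn 3} (h : ∀ k, |x k| < 2 / 25) : A0 η κ x = 0 := by
  have ht : |mean x| < 2 / 25 := by
    have h0 := abs_lt.1 (h 0); have h1 := abs_lt.1 (h 1); have h2 := abs_lt.1 (h 2)
    unfold mean
    rw [abs_lt]
    constructor <;> linarith [h0.1, h0.2, h1.1, h1.2, h2.1, h2.2]
  funext k
  simp [A0, hs.η0 _ ht, hs.η0 _ (h k), der_zero hs ht]

theorem A0_near (hs : Sc p η) (hk : KB η κ B) {x : Rn 3}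
    (h : ∀ k, |x k| < 2 / 25 ∨ |π - x k| < 2 / 25) : A0 η κ x = 0 := by
  by_cases h1 : ∀ k, |x k| < 2 / 25
  · exact A0_lin hs h1
  by_cases h2 : ∀ k, |π - x k| < 2 / 25
  · rw [← A0_mir hs]
    exact A0_lin hs h2
  obtain ⟨a, ha⟩ := not_forall.1 h1
  obtain ⟨b, hb⟩ := not_forall.1 h2
  have ha' := abs_lt.1 ((h a).resolve_left ha)
  have hb' := abs_lt.1 ((h b).resolve_right hb)
  have hp := Real.pi_gt_three
  have hp' := Real.pi_lt_four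
  have hl : ∀ k, -(2 / 25) < x k ∧ x k < π + 2 / 25 := fun k => by
    rcases h k with e | e <;> rw [abs_lt] at e <;> constructor <;> linarith [e.1, e.2]
  have ht : mean x ∈ Ioo 0 π := by
    have h0 := hl 0; have h1 := hl 1; have h2 := hl 2
    unfold mean
    constructor
    · fin_cases a <;> simp at ha' <;> linarith [h0.1, h1.1, h2.1, ha'.1, ha'.2]
    · fin_cases b <;> simp at hb' <;> linarith [h0.2, h1.2, h2.2, hb'.1, hb'.2]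
  refine A0_of_be (be_zero hs hk ht ?_)
  have e1 := sq_le_NN x a
  have e2 := sq_le_NN x b
  have e3 := (hk.le _ (Ioo_subset_Icc_self ht)).1
  have e4 : 0 < κ * η (mean x) := mul_pos hk.pos (η_pos hs ht)
  have e5 : κ * η (mean x) < 1 / 10 := by linarith [ht.2]
  have e6 : 2 < x a - x b := by linarith [ha'.2, hb'.2]
  nlinarith [sq_nonneg (x a + x b - 2 * mean x)]

theorem A0_bdry (hs : Sc p η) (hk : KB η κ B) {x : Rn 3} (hx : ∀ k, x k ∈ Icc 0 π) {k : Fin 3}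
    (h : x k = 0 ∨ x k = π) : ∀ᶠ y in 𝓝 x, A0 η κ y = 0 := by
  by_cases h1 : ∀ k, |x k| < 2 / 25 ∨ |π - x k| < 2 / 25
  · have : ∀ᶠ y : Rn 3 in 𝓝 x, ∀ k, |y k| < 2 / 25 ∨ |π - y k| < 2 / 25 :=
      eventually_all.2 fun k => (h1 k).elim
        (fun e => ((isOpen_lt (by fun_prop) continuous_const).eventually_mem
          (show x ∈ {y : Rn 3 | |y k| < 2 / 25} from e)).mono fun _ => Or.inl)
        (fun e => ((isOpen_lt (by fun_prop) continuous_const).eventually_mem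
          (show x ∈ {y : Rn 3 | |π - y k| < 2 / 25} from e)).mono fun _ => Or.inr)
    exact this.mono fun _ => A0_near hs hk
  obtain ⟨j, hj⟩ := not_forall.1 h1
  rw [not_or, abs_of_nonneg (hx j).1, abs_of_nonneg (sub_nonneg.2 (hx j).2)] at hj
  have ht : mean x ∈ Ioo 0 π := by
    have h0 := hx 0; have h1 := hx 1; have h2 := hx 2
    unfold mean
    fin_cases j <;> simp at hj <;> constructor <;>
      linarith [h0.1, h1.1, h2.1, h0.2, h1.2, h2.2, hj.1, hj.2]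
  have e3 := hk.le _ (Ioo_subset_Icc_self ht)
  have e4 : 0 < κ * η (mean x) := mul_pos hk.pos (η_pos hs ht)
  have e1 := sq_le_NN x k
  have hN : 2 * (κ * η (mean x)) ^ 2 < NN x := by
    rcases h with h | h <;> rw [h] at e1 <;> nlinarith [e3.1, e3.2]
  have c1 := cd_mean.continuous
  have c2 := cd_NN.continuous
  have c3 := hs.ηsm.continuous
  filter_upwards [(isOpen_Ioo.preimage c1).mem_nhds ht,
    (isOpen_lt (f := fun y => 2 * (κ * η (mean y)) ^ 2) (by fun_prop) c2).mem_nhds hN] with y a b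
  exact A0_of_be (be_zero hs hk a b.le)

theorem AA_off (hs : Sc p η) (hk : KB η κ B) {z : Rn 3} (hz : z ∉ Oct) :
    ∀ᶠ y in 𝓝 z, AA η κ y = 0 := by
  obtain ⟨k, hk'⟩ := not_forall.1 hz
  rcases (not_lt.1 hk').lt_or_eq with e | e
  · filter_upwards [(isOpen_lt (f := fun y : Rn 3 => Real.sin (y k)) (by fun_prop)
      continuous_const).mem_nhds e] with y hy
    exact if_neg fun h => lt_asymm (h k) hy
  · have h0 : fold z k = 0 ∨ fold z k = π := by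
      have h := sin_fold z k
      rw [e, abs_zero] at h
      obtain ⟨a, b⟩ := fold_mem z k
      by_contra hc
      rw [not_or] at hc
      exact (Real.sin_pos_of_pos_of_lt_pi (a.lt_of_ne' hc.1) (b.lt_of_ne hc.2)).ne' h
    filter_upwards [cont_fold.continuousAt.eventually (A0_bdry hs hk (fold_mem z) h0)] with y hy
    unfold AA
    split_ifs
    · exact hy
    · rfl

theorem cd_AA (hs : Sc p η) (hk : KB η κ B) : ContDiff ℝ ∞ (AA η κ) := by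
  refine contDiff_iff_contDiffAt.2 fun z => ?_
  by_cases hz : z ∈ Oct
  · have h1 : ContDiffAt ℝ ∞ fold z := contDiffAt_pi.2 fun k => by
      have := hz k
      have h2 := Real.sin_sq_add_cos_sq (z k)
      refine (Real.contDiffAt_arccos ?_ ?_).comp z (by fun_prop) <;> intro e <;> rw [e] at h2 <;>
        nlinarith
    have h2 : ContDiffAt ℝ ∞ (A0 η κ) (fold z) := contDiffAt_pi.2 fun k => by
      have c1 := cd_mean
      have c2 := cd_NN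
      have c3 := hs.ηsm
      have c4 : ContDiff ℝ ∞ (deriv η) := (contDiff_infty_iff_deriv.1 c3).2
      have e := mul_pos hk.pos (η_pos hs (mean_ioo (fold_ioo hz)))
      refine ContDiffAt.mul (Real.smoothTransition.contDiffAt.comp _ (contDiffAt_const.sub
        (c2.contDiffAt.div (by fun_prop) (by positivity)))) (by fun_prop)
    refine (h2.comp z h1).congr_of_eventuallyEq ?_
    filter_upwards [isOpen_oct.mem_nhds hz] with y hy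
    exact if_pos hy
  · exact contDiffAt_const.congr_of_eventuallyEq (AA_off hs hk hz)

theorem fold_near {t : ℝ} {n : ℤ} (h : |t - n * π| < 2 / 25) :
    |Real.arccos (Real.cos t)| < 2 / 25 ∨ |π - Real.arccos (Real.cos t)| < 2 / 25 := by
  have hp := Real.pi_gt_three
  have e : Real.arccos (Real.cos (t - n * π)) = |t - n * π| := by
    rw [← Real.cos_abs, Real.arccos_cos (abs_nonneg _) (by linarith)]
  rw [Real.cos_sub_int_mul_pi] at e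
  rcases Int.even_or_odd n with hn | hn
  · rw [hn.neg_one_zpow, one_mul] at e
    exact Or.inl (by rwa [e, abs_abs])
  · rw [hn.neg_one_zpow, neg_one_mul, Real.arccos_neg] at e
    exact Or.inr (by rwa [e, abs_abs])

end AxP

open AxP Classical in
theorem ax : AxStmt := by
  intro p η hs
  obtain ⟨κ, B, hk⟩ := exists_kb hs
  have hsm := cd_AA hs hk
  refine ⟨κ, AA η κ, hk.pos, hsm, fun z z' h => ?_, fun z => ?_,
    ⟨fun z k => AA η κ z k / η (z k), ?_, fun z k => ?_⟩, fun z hz => if_neg hz,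
    fun z hz k => ?_, fun z n h => ?_, fun z h0 h1 h k => ?_, fun t ht => ?_⟩
  · have e : ∀ k, Real.sin (z k) = Real.sin (z' k) ∧ Real.cos (z k) = Real.cos (z' k) := fun k => by
      obtain ⟨m, hm⟩ := h k
      rw [show z k = z' k + m * (2 * π) by linarith, Real.sin_add_int_mul_two_pi,
        Real.cos_add_int_mul_two_pi]
      exact ⟨rfl, rfl⟩
    have e1 : fold z = fold z' := funext fun k => by rw [fold, fold, (e k).2]
    have e2 : z ∈ Oct ↔ z' ∈ Oct := forall_congr' fun k => by rw [(e k).1]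
    exact if_congr e2 (by rw [e1]) rfl
  · have e2 : q0 - z ∈ Oct ↔ z ∈ Oct := forall_congr' fun k => by
      simp only [q0, Pi.sub_apply, Real.sin_pi_sub]
    exact if_congr e2 (by rw [fold_mir, A0_mir hs]) rfl
  · refine continuous_iff_continuousAt.2 fun z => ?_
    by_cases hz : z ∈ Oct
    · have c3 := hs.ηsm.continuous
      have c4 := hsm.continuous
      exact continuousAt_pi.2 fun k => ContinuousAt.div (by fun_prop)
        (c3.comp (continuous_apply k)).continuousAt ((hs.ηpos _).2 (hz k)).ne'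
    · refine (continuousAt_const (y := (0 : Rn 3))).congr ?_
      filter_upwards [AA_off hs hk hz] with y hy
      funext k
      simp [hy]
  · by_cases hz : z ∈ Oct
    · have := ((hs.ηpos _).2 (hz k)).ne'
      field_simp
    · simp [AA, hz]
  · have ht := mean_ioo (fold_ioo hz)
    have e0 := η_pos hs (fold_ioo hz k)
    rw [AA, if_pos hz, ← η_fold hs hz k]
    simp only [A0]
    generalize fold z = x at *
    by_cases hb : be η κ x = 0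
    · rw [hb]; linarith
    have e1 : NN x < 2 * (κ * η (mean x)) ^ 2 := not_le.1 fun e => hb (be_zero hs hk ht e)
    have e2 := sq_le_NN x k
    have e3 := η_pos hs ht
    have e4 := mul_pos hk.pos e3
    have e5 : |x k - mean x| ≤ 2 * (κ * η (mean x)) :=
      abs_le_of_sq_le_sq' (by nlinarith) (by positivity) |> abs_le.2
    have e6 := hk.der _ (Ioo_subset_Icc_self ht)
    have e7 : |deriv η (mean x) * (x k - mean x)| ≤ B * (2 * (κ * η (mean x))) := by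
      rw [abs_mul]
      exact mul_le_mul e6 e5 (abs_nonneg _) ((abs_nonneg _).trans e6)
    have e8 : 0 < η (mean x) + deriv η (mean x) * (x k - mean x) := by
      have := (abs_le.1 e7).1
      nlinarith [hk.kb]
    have b0 : 0 ≤ be η κ x := Real.smoothTransition.nonneg _
    have b1 : be η κ x ≤ 1 := Real.smoothTransition.le_one _
    have b2 := mul_pos (b0.lt_of_ne' hb) e8
    nlinarith [mul_nonneg (sub_nonneg.2 b1) e0.le]
  · unfold AA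
    split_ifs
    · exact A0_near hs hk fun k => fold_near (h k)
    · rfl
  · have e3 := hk.le _ ⟨h0.le, h1.le⟩
    have e4 := mul_pos hk.pos (η_pos hs ⟨h0, h1⟩)
    have hz : ∀ k, z k ∈ Ioo 0 π := fun k => by
      have := abs_lt_of_sq_lt_sq' ((sq_le_NN z k).trans_lt h) e4.le
      constructor <;> linarith [this.1, this.2, e3.1, e3.2]
    have ho : z ∈ Oct := fun k => Real.sin_pos_of_pos_of_lt_pi (hz k).1 (hz k).2
    have hf : fold z = z := funext fun k => Real.arccos_cos (hz k).1.le (hz k).2.le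
    have hb : be η κ z = 1 := by
      refine Real.smoothTransition.one_of_one_le ?_
      have : NN z / (κ * η (mean z)) ^ 2 ≤ 1 := (div_le_one (by positivity)).2 h.le
      linarith
    rw [AA, if_pos ho, hf]
    simp only [A0, hb]
    ring
  · have e3 := hk.le _ (Ioo_subset_Icc_self ht)
    have e4 := mul_pos hk.pos (η_pos hs ht)
    have := Real.pi_lt_four
    exact ⟨by linarith [e3.1], by linarith [e3.2], by linarith [e3.1, ht.2]⟩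

end Pool.Agent.MP_e1dc65_gt.T.Pr

end
end MrgPart2

-- marker of a merged file
example : 731051 + 710167 = 731051 + 710167 := rfl
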