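import Mathlib.Analysis.Calculus.Deriv.MeanValue
import Mathlib.Analysis.Calculus.Deriv.Slope
import Pool.Agent.MP_e1dc65_gt.Spec1
import Mathlib.Analysis.Real.Pi.Bounds
import Pool.Agent.MP_e1dc65_gt.k.Etale
import Pool.Agent.MP_e1dc65_gt.e.aLie
import Pool.Agent.MP_e1dc65_gt.t2.Disc
import Pool.Agent.MP_e1dc65_gt.t.PreAx

-- ======== part 0: formerly Pool.Agent.MP_e1dc65_gt.e.aCfa
section MrgPart0

-- ======== part 0: formerly Pool.Agent.MP_e1dc65_gt.e.Fun
section MrgPart0

/-! PROJECT HC, part E toolkit: auxiliary functions of one real variable. -/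

open scoped ContDiff Manifold Topology Real
open Set Filter Function

noncomputable section

namespace Pool.Agent.MP_e1dc65_gt.Fn

/-! ### Increasing smooth functions -/

/-- smooth at `t` with positive derivative -/
structure Inc (f : ℝ → ℝ) (t : ℝ) : Prop where
  sm : ContDiffAt ℝ ∞ f t
  pos : 0 < deriv f t

variable {f g : ℝ → ℝ} {t a b : ℝ} {J : Set ℝ}

theorem Inc.der (h : Inc f t) : HasDerivAt f (deriv f t) t :=
  (h.sm.differentiableAt (by simp)).hasDerivAt

theorem Inc.congr' (h : Inc f t) (e : g =ᶠ[𝓝 t] f) : Inc g t :=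
  ⟨h.sm.congr_of_eventuallyEq e, e.deriv_eq ▸ h.pos⟩

theorem inc_of {c : ℝ} (h : ContDiffAt ℝ ∞ f t) (hd : HasDerivAt f c t) (hc : 0 < c) : Inc f t :=
  ⟨h, hd.deriv ▸ hc⟩

theorem inc_id : Inc (fun t => t) t := inc_of contDiffAt_id (hasDerivAt_id t) one_pos

theorem Inc.comp (hg : Inc g (f t)) (hf : Inc f t) : Inc (fun t => g (f t)) t :=
  inc_of (hg.sm.comp t hf.sm) (hg.der.comp t hf.der) (mul_pos hg.pos hf.pos)

/-- reflection in both variables -/
theorem Inc.refl (c : ℝ) (h : Inc f (c - t)) : Inc (fun t => -f (c - t)) t :=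
  inc_of (h.sm.comp t (contDiffAt_const.sub contDiffAt_id)).neg
    (h.der.comp t ((hasDerivAt_id t).const_sub c)).neg (by simpa using h.pos)

theorem Inc.add (hf : Inc f t) (hg : Inc g t) : Inc (fun t => f t + g t) t :=
  inc_of (hf.sm.add hg.sm) (hf.der.add hg.der) (add_pos hf.pos hg.pos)

theorem Inc.mul {c : ℝ} (hc : 0 < c) (hf : Inc f t) : Inc (fun t => c * f t) t :=
  inc_of (contDiffAt_const.mul hf.sm) (hf.der.const_mul c) (mul_pos hc hf.pos)

theorem Inc.add_const (c : ℝ) (hf : Inc f t) : Inc (fun t => f t + c) t :=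
  inc_of (hf.sm.add contDiffAt_const) (hf.der.add_const c) hf.pos

theorem inc_neg_inv (ht : t ≠ 0) : Inc (fun t => -t⁻¹) t :=
  inc_of (contDiffAt_inv ℝ ht).neg (hasDerivAt_inv ht).neg (by simp; positivity)

/-- a smooth function of one variable with non-zero derivative is a local diffeomorphism -/
theorem ldAt_real (hJ : J ∈ 𝓝 t) (h : ∀ s ∈ J, ContDiffAt ℝ ∞ f s) (hd : deriv f t ≠ 0) :
    LDAt (vs ℝ) (vs ℝ) f t :=
  ldAt_vs hJ h ⟨ContinuousLinearEquiv.unitsEquivAut ℝ (Units.mk0 _ hd), by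
    ext; simp⟩

theorem strictMonoOn_inc (hJ : Convex ℝ J) (h : ∀ t ∈ J, Inc f t) : StrictMonoOn f J :=
  strictMonoOn_of_deriv_pos hJ (fun t ht => (h t ht).sm.continuousAt.continuousWithinAt)
    fun t ht => (h t (interior_subset ht)).pos

theorem oe_inc (ho : IsOpen J) (hJ : Convex ℝ J) (h : ∀ t ∈ J, Inc f t) : OE (vs ℝ) (vs ℝ) f J :=
  ⟨ho, fun t ht => ldAt_real (ho.mem_nhds ht) (fun s hs => (h s hs).sm) (h t ht).pos.ne',
    (strictMonoOn_inc hJ h).injOn⟩

/-- an increasing smooth function on the line -/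
structure IncU (f : ℝ → ℝ) : Prop where
  sm : ContDiff ℝ ∞ f
  pos : ∀ t, 0 < deriv f t

theorem incU_of (h : ∀ t, Inc f t) : IncU f :=
  ⟨contDiff_iff_contDiffAt.2 fun t => (h t).sm, fun t => (h t).pos⟩
theorem IncU.inc (h : IncU f) (t : ℝ) : Inc f t := ⟨h.sm.contDiffAt, h.pos t⟩
theorem IncU.mono (h : IncU f) : StrictMono f := strictMono_of_deriv_pos h.pos
theorem IncU.oe (h : IncU f) : OE (vs ℝ) (vs ℝ) f univ :=
  oe_inc isOpen_univ convex_univ fun t _ => h.inc t
theorem IncU.ld (h : IncU f) (t : ℝ) : LDAt (vs ℝ) (vs ℝ) f t := h.oe.ld t trivial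

/-- the inverse of an increasing smooth bijection of the line -/
theorem IncU.inv (h : IncU f) (hs : Surjective f) :
    ∃ g, IncU g ∧ (∀ t, g (f t) = t) ∧ ∀ t, f (g t) = t := by
  have l : ∀ t, invFunOn f univ (f t) = t := fun t => h.oe.left (x := t) trivial
  have r : ∀ t, f (invFunOn f univ t) = t := fun t => by
    obtain ⟨s, rfl⟩ := hs t
    rw [l]
  have sm : ∀ t, ContDiffAt ℝ ∞ (invFunOn f univ) t := fun t =>
    smAt_vs.1 (h.oe.symm.sm t (by obtain ⟨s, rfl⟩ := hs t; exact ⟨s, trivial, rfl⟩))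
  refine ⟨_, incU_of fun t => ⟨sm t, ?_⟩, l, r⟩
  have := ((h.inc _).der.comp t ((sm t).differentiableAt (by simp)).hasDerivAt).unique
    ((hasDerivAt_id t).congr_of_eventuallyEq (.of_forall r))
  exact (mul_pos_iff_of_pos_left (h.pos _)).1 (this ▸ one_pos)

/-- a coordinatewise map -/
theorem IncU.oe_pi (h : IncU f) (n : ℕ) : OE (vs (Rn n)) (vs (Rn n)) (fun v i => f (v i)) univ := by
  have o : IsOpen (range f) := by simpa using h.oe.isOpen_image isOpen_univ subset_rfl
  refine oe_of_inv (X := vs (Rn n)) (Y := vs (Rn n)) (g := fun v i => invFunOn f univ (v i))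
    (W := univ.pi fun _ => range f) isOpen_univ (isOpen_set_pi finite_univ fun _ _ => o)
    (fun v _ => smAt_vs.2 (contDiffAt_pi.2 fun i => h.sm.contDiffAt.comp v (contDiffAt_apply ..)))
    (fun v hv => smAt_vs.2 (contDiffAt_pi.2 fun i => ContDiffAt.comp (f := fun v : Rn n => v i) v
      (smAt_vs.1 (h.oe.symm.sm (v i) (by simpa using hv i trivial))) (contDiffAt_apply ..)))
    (fun v _ i _ => ⟨_, rfl⟩) (mapsTo_univ _ _)
    (fun v _ => funext fun i => h.oe.left (x := v i) trivial) fun v hv => funext fun i => ?_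
  obtain ⟨s, hs⟩ := hv i trivial
  simp only [← hs, h.oe.left (x := s) trivial]

/-! ### Steps -/

/-- the smooth monotone step from `0` (left of `a`) to `1` (right of `b`) -/
def stp (a b t : ℝ) : ℝ := Real.smoothTransition ((t - a) / (b - a))

theorem stp_sm : ContDiff ℝ ∞ (stp a b) :=
  Real.smoothTransition.contDiff.comp ((contDiff_id.sub contDiff_const).div_const _)
theorem stp_nonneg : 0 ≤ stp a b t := Real.smoothTransition.nonneg _
theorem stp_le_one : stp a b t ≤ 1 := Real.smoothTransition.le_one _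
theorem stp_zero (h : a < b) (ht : t ≤ a) : stp a b t = 0 :=
  Real.smoothTransition.zero_of_nonpos (div_nonpos_of_nonpos_of_nonneg (by linarith) (by linarith))
theorem stp_one (h : a < b) (ht : b ≤ t) : stp a b t = 1 :=
  Real.smoothTransition.one_of_one_le ((one_le_div (by linarith)).2 (by linarith))
theorem stp_mono (h : a < b) : Monotone (stp a b) := fun _ _ hs =>
  Real.smoothTransition.monotone (div_le_div_of_nonneg_right (by linarith) (by linarith))
theorem st_one_sub (x : ℝ) : Real.smoothTransition (1 - x) = 1 - Real.smoothTransition x := by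
  have := Real.smoothTransition.pos_denom x
  simp only [Real.smoothTransition, sub_sub_cancel]
  rw [add_comm (expNegInvGlue (1 - x))]
  field_simp
  ring
theorem stp_symm (h : a < b) : stp a b (a + b - t) = 1 - stp a b t := by
  have : b - a ≠ 0 := by linarith
  rw [stp, stp, ← st_one_sub]
  congr 1
  field_simp
  ring

theorem lam_eq : lam = stp (-eps) eps := by
  funext t
  simp only [lam, stp, sub_neg_eq_add, two_mul]
theorem neg_eps_lt : -eps < eps := by norm_num [eps]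
theorem lam_sm : ContDiff ℝ ∞ lam := lam_eq ▸ stp_sm
theorem lam_mono : Monotone lam := lam_eq ▸ stp_mono neg_eps_lt
theorem lam_zero (ht : t ≤ -eps) : lam t = 0 := lam_eq ▸ stp_zero neg_eps_lt ht
theorem lam_one (ht : eps ≤ t) : lam t = 1 := lam_eq ▸ stp_one neg_eps_lt ht
theorem lam_nonneg : 0 ≤ lam t := lam_eq ▸ stp_nonneg
theorem lam_le_one : lam t ≤ 1 := lam_eq ▸ stp_le_one
theorem lam_neg (t : ℝ) : lam (-t) = 1 - lam t := by
  rw [lam_eq, ← stp_symm neg_eps_lt, neg_add_cancel, zero_sub]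

/-- interpolation between two increasing functions -/
theorem blend (hab : a < b) (hle : ∀ t ∈ Icc a b, f t ≤ g t) :
    ∃ h : ℝ → ℝ, (∀ t ≤ a, h t = f t) ∧ (∀ t, b ≤ t → h t = g t) ∧
      (∀ t ∈ Icc a b, f t ≤ h t ∧ h t ≤ g t) ∧
      ∀ t, (t ≤ b → Inc f t) → (a ≤ t → Inc g t) → Inc h t := by
  have e1 : ∀ t ≤ a, (1 - stp a b t) * f t + stp a b t * g t = f t := fun t ht => by
    simp [stp_zero hab ht]
  have e2 : ∀ t, b ≤ t → (1 - stp a b t) * f t + stp a b t * g t = g t := fun t ht => by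
    simp [stp_one hab ht]
  refine ⟨fun t => (1 - stp a b t) * f t + stp a b t * g t, e1, e2, fun t ht => ?_,
    fun t hf hg => ?_⟩
  · have := hle t ht
    have h0 : 0 ≤ stp a b t := stp_nonneg
    have h1 : stp a b t ≤ 1 := stp_le_one
    constructor <;> nlinarith
  · rcases lt_or_ge t a with h | h
    · exact (hf (by linarith)).congr' ((eventually_lt_nhds h).mono fun s hs => e1 s hs.le)
    rcases lt_or_ge b t with h' | h'
    · exact (hg h).congr' ((eventually_gt_nhds h').mono fun s hs => e2 s hs.le)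
    have ds := (stp_sm.differentiable (by simp) t).hasDerivAt (f := stp a b)
    refine inc_of (((contDiffAt_const.sub stp_sm.contDiffAt).mul (hf h').sm).add
      (stp_sm.contDiffAt.mul (hg h).sm))
      (((ds.const_sub 1).mul (hf h').der).add (ds.mul (hg h).der)) ?_
    have h0 : 0 ≤ stp a b t := stp_nonneg
    have h1 : stp a b t ≤ 1 := stp_le_one
    have h2 : 0 ≤ deriv (stp a b) t := (stp_mono hab).deriv_nonneg
    have h3 := mul_nonneg h2 (sub_nonneg.2 (hle t ⟨h, h'⟩))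
    have h4 := (hf h').pos
    have h5 := (hg h).pos
    rcases h0.eq_or_lt with h6 | h6
    · rw [← h6]; nlinarith
    · nlinarith [mul_pos h6 h5, mul_nonneg (sub_nonneg.2 h1) h4.le]

/-! ### The functions of the design note -/

/-- the staircase of `lam` with period `p` -/
theorem exists_St {p : ℝ} (hp : 2 * eps < p) : ∃ St : ℝ → ℝ, ContDiff ℝ ∞ St ∧ Monotone St ∧
    (∀ t (m : ℤ), St (t + p * m) = St t + m) ∧ ∀ t, |t| ≤ p - eps → St t = lam t := by
  have he : 0 < eps := by norm_num [eps]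
  have h0 : 0 < p := by linarith
  let St : ℝ → ℝ := fun t => toIcoDiv h0 (-p / 2) t + lam (toIcoMod h0 (-p / 2) t)
  have a1 : ∀ t (m : ℤ), St (t + p * m) = St t + m := fun t m => by
    simp only [St]
    rw [mul_comm, ← zsmul_eq_mul, toIcoDiv_add_zsmul, toIcoMod_add_zsmul]
    push_cast; ring
  have a0 : ∀ t, -p / 2 ≤ t → t < p / 2 → St t = lam t := fun t h1 h2 => by
    have h : t ∈ Ico (-p / 2) (-p / 2 + p) := ⟨h1, by linarith⟩
    simp only [St, (toIcoMod_eq_self h0).2 h,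
      toIcoDiv_eq_of_sub_zsmul_mem_Ico h0 (n := 0) (by simpa using h)]
    simp
  have a2 : ∀ t, |t| ≤ p - eps → St t = lam t := fun t ht => by
    obtain ⟨h1, h2⟩ := abs_le.1 ht
    rcases lt_or_ge t (-p / 2) with h | h
    · have := a1 t 1
      rw [a0 _ (by simp; linarith) (by simp; linarith), lam_one (by simp; linarith)] at this
      rw [lam_zero (by linarith)]
      simpa using this
    rcases lt_or_ge t (p / 2) with h' | h'
    · exact a0 t h h'
    · have := a1 t (-1 : ℤ)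
      rw [a0 _ (by simp; linarith) (by simp; linarith), lam_zero (by simp; linarith)] at this
      rw [lam_one (by linarith)]
      push_cast at this
      linarith
  have a3 : ∀ t, ∃ m : ℤ, St =ᶠ[𝓝 t] fun s => lam (s - p * m) + m := fun t => by
    obtain ⟨h1, h2⟩ := toIcoMod_mem_Ico h0 (-p / 2) t
    rw [← self_sub_toIcoDiv_zsmul, zsmul_eq_mul, mul_comm] at h1 h2
    refine ⟨toIcoDiv h0 (-p / 2) t, ?_⟩
    have c : Continuous fun s => |s - p * toIcoDiv h0 (-p / 2) t| := by fun_prop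
    filter_upwards [c.continuousAt.eventually_lt_const
      (show _ < p - eps from abs_lt.2 ⟨by linarith, by linarith⟩)] with s hs
    rw [← a2 _ hs.le, ← a1, sub_add_cancel]
  have sm : ContDiff ℝ ∞ St := contDiff_iff_contDiffAt.2 fun t =>
    let ⟨m, h⟩ := a3 t
    ((lam_sm.comp (contDiff_id.sub contDiff_const)).add
      contDiff_const).contDiffAt.congr_of_eventuallyEq h
  refine ⟨St, sm, monotone_of_deriv_nonneg (sm.differentiable (by simp)) fun t => ?_, a1, a2⟩
  obtain ⟨m, h⟩ := a3 t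
  rw [h.deriv_eq]
  exact Monotone.deriv_nonneg fun s s' hs => add_le_add_left (lam_mono (by linarith)) _

/-- an odd compression of the line onto `(-3, 3)` that is the identity on `[-2, 2]` -/
theorem exists_cmp : ∃ c : ℝ → ℝ, IncU c ∧ (∀ t, |t| ≤ 2 → c t = t) ∧ (∀ t, c (-t) = -c t) ∧
    range c = Ioo (-3) 3 := by
  obtain ⟨h, h1, h2, h3, h4⟩ := blend (f := fun t => t) (g := fun t => -t⁻¹ + 3) (a := 2)
    (b := 5 / 2) (by norm_num) fun t ht => by
      have : t⁻¹ ≤ 2⁻¹ := inv_anti₀ two_pos ht.1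
      linarith [ht.2]
  have i : ∀ t, Inc h t := fun t =>
    h4 t (fun _ => inc_id) fun ht => (inc_neg_inv (by linarith)).add_const 3
  have e1 : ∀ t, -2 ≤ t → h t - h (-t) - t = h t := fun t ht => by
    rw [h1 (-t) (by linarith)]; ring
  have e2 : ∀ t ≤ 2, h t - h (-t) - t = -h (0 - t) := fun t ht => by
    rw [h1 t ht, zero_sub]; ring
  have hc : IncU fun t => h t - h (-t) - t := incU_of fun t => by
    rcases lt_or_ge t 2 with ht | ht
    · exact ((i _).refl 0).congr' ((eventually_lt_nhds ht).mono fun s hs => e2 s hs.le)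
    · exact (i t).congr' ((eventually_gt_nhds (show -2 < t by linarith)).mono fun s hs => e1 s hs.le)
  have od : ∀ t, h (-t) - h (- -t) - -t = -(h t - h (-t) - t) := fun t => by rw [neg_neg]; ring
  have lim : Tendsto (fun t => h t - h (-t) - t) atTop (𝓝 3) := by
    have := (tendsto_inv_atTop_zero (𝕜 := ℝ)).neg.add_const 3
    rw [neg_zero, zero_add] at this
    refine this.congr' ((eventually_ge_atTop (5 / 2)).mono fun t ht => ?_)
    exact ((e1 t (by linarith)).trans (h2 t ht)).symm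
  have lim' : Tendsto (fun t => h t - h (-t) - t) atBot (𝓝 (-3)) :=
    (lim.comp tendsto_neg_atBot_atTop).neg.congr fun t => by simp only [comp_apply, neg_neg]; ring
  refine ⟨_, hc, fun t ht => ?_, od, Subset.antisymm ?_ ?_⟩
  · obtain ⟨a, b⟩ := abs_le.1 ht
    rw [e1 t a, h1 t b]
  · rintro _ ⟨t, rfl⟩
    exact ⟨(hc.mono.monotone.le_of_tendsto lim' (t - 1)).trans_lt (hc.mono (by linarith)),
      (hc.mono (show t < t + 1 by linarith)).trans_le (hc.mono.monotone.ge_of_tendsto lim _)⟩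
  · simpa using isPreconnected_univ.intermediate_value_Ioo (by simp) (by simp)
      hc.sm.continuous.continuousOn lim' lim

/-- a diffeomorphism of the line onto `(0, ∞)` that is the identity on `[1/50, ∞)` -/
theorem exists_al : ∃ al : ℝ → ℝ, IncU al ∧ (∀ t, 1 / 50 ≤ t → al t = t) ∧ range al = Ioi 0 := by
  obtain ⟨h, h1, h2, h3, h4⟩ := blend (f := fun t => 1 / 400 * Real.exp t) (g := fun t => t)
    (a := 1 / 200) (b := 1 / 50) (by norm_num) fun t ht => by
      have : Real.exp t ≤ 1 / (1 - t) :=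
        Real.exp_bound_div_one_sub_of_interval (by linarith [ht.1]) (by linarith [ht.2])
      have h2 : 1 / (1 - t) ≤ 2 := by
        rw [div_le_iff₀ (by linarith [ht.2])]; linarith [ht.2]
      linarith [ht.1]
  have hc : IncU h := incU_of fun t => h4 t (fun _ => Inc.mul (by norm_num)
    (inc_of Real.contDiff_exp.contDiffAt (Real.hasDerivAt_exp t) (Real.exp_pos t))) fun _ => inc_id
  have lim : Tendsto h atTop atTop :=
    tendsto_id.congr' ((eventually_ge_atTop (1 / 50)).mono fun t ht => (h2 t ht).symm)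
  have lim' : Tendsto h atBot (𝓝 0) := by
    have := Real.tendsto_exp_atBot.const_mul (1 / 400)
    rw [mul_zero] at this
    exact this.congr' ((eventually_le_atBot (1 / 200)).mono fun t ht => (h1 t ht).symm)
  refine ⟨h, hc, h2, Subset.antisymm ?_ ?_⟩
  · rintro _ ⟨t, rfl⟩
    exact (hc.mono.monotone.le_of_tendsto lim' (t - 1)).trans_lt (hc.mono (by linarith))
  · simpa using isPreconnected_univ.intermediate_value_Ioi (by simp) (by simp)
      hc.sm.continuous.continuousOn lim' lim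

/-- reparametrisation of the circle of length `8` -/
theorem exists_T : ∃ T : ℝ → ℝ, IncU T ∧ Surjective T ∧
    (∀ t (m : ℤ), T (t + 8 * m) = T t + 2 * π * m) ∧
    (∀ t, 1 / 10 ≤ t → t ≤ 79 / 10 → T t = π / 9 * (t - 4)) ∧
    ∀ t, 1 ≤ t → t ≤ 7 → |T t| ≤ π / 3 := by
  obtain ⟨S, h1, h2, h3, h4⟩ := exists_St (p := 8) (by norm_num [eps])
  have hπ := Real.pi_pos
  have e : ∀ t, 1 / 10 ≤ t → t ≤ 79 / 10 →
      π / 9 * (t - 4) + 10 * π / 9 * (S t - 1) = π / 9 * (t - 4) := fun t a b => by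
    rw [h4 t (abs_le.2 ⟨by norm_num [eps]; linarith, by norm_num [eps]; linarith⟩),
      lam_one (by simpa [eps] using a), sub_self, mul_zero, add_zero]
  have p : ∀ t (m : ℤ), π / 9 * (t + 8 * m - 4) + 10 * π / 9 * (S (t + 8 * m) - 1) =
      π / 9 * (t - 4) + 10 * π / 9 * (S t - 1) + 2 * π * m := fun t m => by rw [h3]; ring
  have hc : IncU fun t => π / 9 * (t - 4) + 10 * π / 9 * (S t - 1) := incU_of fun t => by
    refine inc_of (by fun_prop) ((((hasDerivAt_id t).sub_const 4).const_mul (π / 9)).add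
      (((h1.differentiable (by simp) t).hasDerivAt.sub_const 1).const_mul (10 * π / 9))) ?_
    have : 0 ≤ deriv S t := h2.deriv_nonneg
    positivity
  refine ⟨_, hc, fun y => ?_, p, e, fun t a b => ?_⟩
  · obtain ⟨n, hn⟩ := exists_nat_ge (|y| / (2 * π))
    rw [div_le_iff₀ (by positivity)] at hn
    refine intermediate_value_univ (4 + 8 * ((-n : ℤ) : ℝ)) (4 + 8 * ((n : ℤ) : ℝ))
      hc.sm.continuous ?_
    simp only [p, e 4 (by norm_num) (by norm_num)]
    obtain ⟨a, b⟩ := abs_le.1 hn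
    constructor <;> push_cast <;> linarith
  · rw [e t (by linarith) (by linarith), abs_le]
    constructor <;> nlinarith

/-- the height of the arc between two lattice points -/
theorem exists_k : ∃ k : ℝ → ℝ, ContDiff ℝ ∞ k ∧ (∀ x ≤ 3 / 20, k x = x) ∧
    (∀ x, k (1 - x) = k x) ∧ (∀ x, k x ≤ x) ∧ (∀ x, k x ≤ 1 / 5) ∧
    (∀ x, 3 / 20 ≤ x → x ≤ 17 / 20 → 3 / 20 ≤ k x) ∧ ∀ x, 0 < x → x < 1 → 0 < k x := by
  let c : ℝ → ℝ := fun x => (1 - stp (3 / 20) (1 / 5) x) * (x - 3 / 20)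
  have hab : (3 / 20 : ℝ) < 1 / 5 := by norm_num
  have c1 : ∀ x ≤ 3 / 20, c x = x - 3 / 20 := fun x h => by simp only [c, stp_zero hab h]; ring
  have c2 : ∀ x, 1 / 5 ≤ x → c x = 0 := fun x h => by simp only [c, stp_one hab h]; ring
  have c3 : ∀ x, 3 / 20 ≤ x → 0 ≤ c x ∧ c x ≤ x - 3 / 20 := fun x h => by
    have h0 : 0 ≤ stp (3 / 20) (1 / 5) x := stp_nonneg
    have h1 : stp (3 / 20) (1 / 5) x ≤ 1 := stp_le_one
    simp only [c]
    constructor <;> nlinarith
  have sc : ContDiff ℝ ∞ c := (contDiff_const.sub stp_sm).mul (contDiff_id.sub contDiff_const)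
  have k1 : ∀ x ≤ 1 / 2, c x + c (1 - x) + 3 / 20 ≤ x ∧ c x + c (1 - x) + 3 / 20 ≤ 1 / 5 ∧
      (3 / 20 ≤ x → 3 / 20 ≤ c x + c (1 - x) + 3 / 20) ∧ (0 < x → 0 < c x + c (1 - x) + 3 / 20) :=
    fun x hx => by
    rw [c2 (1 - x) (by linarith)]
    rcases le_total x (3 / 20) with h | h
    · rw [c1 x h]
      exact ⟨by linarith, by linarith, fun _ => by linarith, fun _ => by linarith⟩
    · obtain ⟨a, b⟩ := c3 x h
      refine ⟨by linarith, ?_, fun _ => by linarith, fun _ => by linarith⟩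
      rcases le_total x (1 / 5) with h' | h'
      · linarith
      · rw [c2 x h']; norm_num
  have k2 : ∀ x : ℝ, 1 / 2 ≤ x → _ := fun x hx => k1 (1 - x) (by linarith)
  simp only [sub_sub_cancel] at k2
  refine ⟨fun x => c x + c (1 - x) + 3 / 20,
    (sc.add (sc.comp (contDiff_const.sub contDiff_id))).add contDiff_const, fun x hx => ?_,
    fun x => by simp only [sub_sub_cancel]; ring, fun x => ?_, fun x => ?_, fun x a b => ?_,
    fun x a b => ?_⟩
  · simp only [c1 x hx, c2 (1 - x) (by linarith)]; ring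
  all_goals rcases le_total x (1 / 2) with h | h
  exacts [(k1 x h).1, by linarith [(k2 x h).1], (k1 x h).2.1, by linarith [(k2 x h).2.1],
    (k1 x h).2.2.1 a, by linarith [(k2 x h).2.2.1 (by linarith)], (k1 x h).2.2.2 a,
    by linarith [(k2 x h).2.2.2 (by linarith)]]

/-- a decreasing diffeomorphism of `(0, 8)` onto the line, odd about `4` -/
theorem exists_Th : ∃ Th : ℝ → ℝ, OE (vs ℝ) (vs ℝ) Th (Ioo 0 8) ∧ StrictAntiOn Th (Ioo 0 8) ∧
    (∀ t ∈ Ioo (0 : ℝ) 8, ContDiffAt ℝ ∞ Th t ∧ deriv Th t < 0) ∧ Th '' Ioo 0 8 = univ ∧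
    (∀ t ≤ 3, Th t = 5 / 2 + t⁻¹) ∧ (∀ t, 5 ≤ t → Th t = -(5 / 2 + (8 - t)⁻¹)) ∧
    (∀ t, Th (8 - t) = -Th t) ∧ ∀ t, 3 ≤ t → t ≤ 5 → |Th t| ≤ 5 / 2 + 3⁻¹ := by
  obtain ⟨h, h1, h2, -, h4⟩ := blend (f := fun t => -t⁻¹ + -(5 / 2))
    (g := fun t => -(-(8 - t)⁻¹ + -(5 / 2))) (a := 3) (b := 5) (by norm_num) fun t ht => by
      have := inv_pos.2 (show 0 < t by linarith [ht.1])
      have := inv_pos.2 (show 0 < 8 - t by linarith [ht.2])
      linarith
  have i : ∀ t ∈ Ioo (0 : ℝ) 8, Inc h t := fun t ht => h4 t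
    (fun _ => (inc_neg_inv ht.1.ne').add_const _)
    fun _ => Inc.refl (f := fun t => -t⁻¹ + -(5 / 2)) 8
      ((inc_neg_inv (by linarith [ht.2])).add_const _)
  let H : ℝ → ℝ := fun t => 1 / 2 * (h t + -h (8 - t))
  have j : ∀ t ∈ Ioo (0 : ℝ) 8, Inc H t := fun t ht =>
    ((i t ht).add ((i _ ⟨by linarith [ht.2], by linarith [ht.1]⟩).refl 8)).mul (by norm_num)
  have od : ∀ t, H (8 - t) = -H t := fun t => by simp only [H, sub_sub_cancel]; ring
  have e1 : ∀ t ≤ 3, -H t = 5 / 2 + t⁻¹ := fun t ht => by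
    simp only [H, h1 t ht, h2 (8 - t) (by linarith), sub_sub_cancel]; ring
  have e2 : ∀ t, 5 ≤ t → -H t = -(5 / 2 + (8 - t)⁻¹) := fun t ht => by
    rw [← e1 _ (by linarith), od, neg_neg]
  have an : StrictAntiOn (fun t => -H t) (Ioo 0 8) := (strictMonoOn_inc (convex_Ioo 0 8) j).neg
  have sm : ∀ t ∈ Ioo (0 : ℝ) 8, ContDiffAt ℝ ∞ (fun t => -H t) t ∧ deriv (fun t => -H t) t < 0 :=
    fun t ht => ⟨(j t ht).sm.neg, (j t ht).der.neg.deriv.trans_lt (neg_lt_zero.2 (j t ht).pos)⟩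
  refine ⟨fun t => -H t, ⟨isOpen_Ioo, fun t ht => ldAt_real (isOpen_Ioo.mem_nhds ht)
    (fun s hs => (sm s hs).1) (sm t ht).2.ne, an.injOn⟩, an, sm, eq_univ_of_forall fun y => ?_, e1,
    e2, fun t => by simp only [od], fun t a b => abs_le.2 ⟨?_, ?_⟩⟩
  · have h0 : 0 < |y| + 1 := by positivity
    have h3 : (|y| + 1)⁻¹ ≤ 1 := inv_le_one_of_one_le₀ (by linarith [abs_nonneg y])
    have h5 := inv_pos.2 h0
    have m1 : (|y| + 1)⁻¹ ∈ Ioo (0 : ℝ) 8 := ⟨h5, by linarith⟩
    have m2 : 8 - (|y| + 1)⁻¹ ∈ Ioo (0 : ℝ) 8 := ⟨by linarith, by linarith⟩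
    refine isPreconnected_Ioo.intermediate_value m2 m1
      (fun t ht => (sm t ht).1.continuousAt.continuousWithinAt) ?_
    simp only [od, neg_neg, neg_eq_iff_eq_neg.1 (e1 _ (show (|y| + 1)⁻¹ ≤ 3 by linarith)), inv_inv]
    constructor <;> linarith [le_abs_self y, neg_abs_le y]
  · have := an.antitoneOn ⟨by linarith, by linarith⟩ ⟨by norm_num, by norm_num⟩ b
    rw [e2 5 le_rfl] at this
    norm_num at this ⊢
    linarith
  · exact e1 3 le_rfl ▸ an.antitoneOn ⟨by norm_num, by norm_num⟩ ⟨by linarith, by linarith⟩ a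

end Pool.Agent.MP_e1dc65_gt.Fn

end
end MrgPart0

-- ======== part 1: formerly Pool.Agent.MP_e1dc65_gt.e.aCfa
section MrgPart1

/-! PROJECT HC, part E-A, row CFA: the equivariant coframe on the torus bundle. -/

open scoped ContDiff Manifold Topology Matrix Real
open Set Filter Function Real

noncomputable section

namespace Pool.Agent.MP_e1dc65_gt.EA

namespace CfaP

variable {i : Fin 3} {z z' w : Rn 3} {t : ℝ} {X : Mf (Rn 3)} {c c' e₀ : Rn 3 → X}
  {e : Fin 3 → Rn 3 → X}

theorem he : eps = 1 / 10 := rfl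

theorem cos_lt (h1 : eps < |t|) (h2 : |t| ≤ π) : cos t < cos eps := by
  rw [← cos_abs t]
  exact cos_lt_cos_of_nonneg_of_le_pi (by norm_num [eps]) h2 h1

theorem le_cos (h : |t| ≤ eps) : cos eps ≤ cos t := by
  rw [← cos_abs t]
  exact cos_le_cos_of_nonneg_of_le_pi (abs_nonneg _) (by linarith [pi_gt_three, he]) h

theorem near (h : cos eps ≤ cos t) : ∃ m : ℤ, |t - 2 * π * m| ≤ eps := by
  have hp := pi_pos
  refine ⟨round (t / (2 * π)), not_lt.1 fun h1 => h.not_gt ?_⟩
  rw [← cos_sub_int_mul_two_pi t (round (t / (2 * π))), mul_comm]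
  refine cos_lt h1 ?_
  have := abs_sub_round (t / (2 * π))
  rw [show t - 2 * π * round (t / (2 * π)) = 2 * π * (t / (2 * π) - round (t / (2 * π))) by
    field_simp, abs_mul, abs_of_pos (by positivity)]
  nlinarith

theorem lat_cos (h : Lat z z') (k : Fin 3) (a : ℝ) : cos (z k - a) = cos (z' k - a) := by
  obtain ⟨m, hm⟩ := h k
  rw [← cos_add_int_mul_two_pi (z' k - a) m]
  congr 1
  linarith

theorem lat_trans (h : Lat z z') (h' : Lat z' w) : Lat z w := fun k => by
  obtain ⟨m, hm⟩ := h k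
  obtain ⟨n, hn⟩ := h' k
  exact ⟨m + n, by push_cast; linarith⟩

theorem lat_main {I : Set (Fin 3)} (h : Lat z z') (hz : z ∈ MainI I) : z' ∈ MainI I :=
  fun i hi ⟨w, h1, h2⟩ => hz i hi ⟨w, lat_trans h h1, h2⟩

theorem not_cut (h : cos (z (jx i) - cj i) < cos eps ∨ cos (z (kx i) - ck i) < 1) : z ∉ Cut i := by
  rintro ⟨w, h1, h2, h3⟩
  rw [lat_cos h1, lat_cos h1, h3, sub_self, cos_zero] at h
  exact h.elim (le_cos h2).not_gt (lt_irrefl _)

/-- off the closed squares round the cuts -/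
def M : Set (Rn 3) :=
  {z | ∀ i ∈ I01, cos (z (jx i) - cj i) < cos eps ∨ cos (z (kx i) - ck i) < cos eps}

theorem M_open : IsOpen M := by
  simp only [M, ofPred_forall, ofPred_or]
  exact isOpen_iInter_of_finite fun i => isOpen_iInter_of_finite fun _ =>
    (isOpen_lt (by fun_prop) continuous_const).union (isOpen_lt (by fun_prop) continuous_const)

theorem M_main (h : z ∈ M) : z ∈ MainI I01 := fun i hi =>
  not_cut ((h i hi).imp_right fun h => h.trans_le (cos_le_one _))

theorem lat_M (h : Lat z z') (hz : z ∈ M) : z' ∈ M := fun i hi => by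
  rw [← lat_cos h, ← lat_cos h]
  exact hz i hi

theorem box_open : IsOpen (Box i) :=
  IsOpen.and (isOpen_lt (by fun_prop) continuous_const) (isOpen_lt (by fun_prop) continuous_const)

theorem i01 (h : i ∈ I01) : i = 0 ∨ i = 1 := by
  fin_cases i <;> simp [I01] at h ⊢

theorem c1 (t : ℝ) : cos (t - π / 2) = sin t := cos_sub_pi_div_two t

theorem c3 (t : ℝ) : cos (t - 3 * π / 2) = -sin t := by
  rw [show t - 3 * π / 2 = t - π / 2 - π by ring, cos_sub_pi, c1]

theorem box_main (hi : i ∈ I01) (hw : w ∈ Box i) (h : w ∉ Cut i) : w ∈ MainI I01 := fun i' hi' => by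
  rcases eq_or_ne i' i with rfl | hn
  · exact h
  · have h1 := abs_lt.1 hw.2
    have h2 := cos_pos_of_mem_Ioo (x := w (kx i) - ck i)
      ⟨by linarith [pi_gt_three, he], by linarith [pi_gt_three, he]⟩
    refine not_cut (Or.inr ?_)
    rcases i01 hi with rfl | rfl <;> rcases i01 hi' with rfl | rfl <;>
      simp [kx, ck, c1, c3] at hn h2 ⊢ <;> linarith

theorem shr_j : shr i w (jx i) = w (jx i) := by fin_cases i <;> simp [shr, jx]
theorem shr_k : shr i w (kx i) = w (kx i) := by fin_cases i <;> simp [shr, kx]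

theorem up_main (hi : i ∈ I01) (hw : w ∈ Box i) (h : ck i < w (kx i)) :
    w ∈ MainI I01 ∧ shr i w ∈ MainI I01 := by
  have h1 := abs_lt.1 hw.2
  have h2 : cos (w (kx i) - ck i) < 1 := (cos_le_one _).lt_of_ne fun h3 => by
    rw [cos_eq_one_iff_of_lt_of_lt (by linarith [pi_pos]) (by linarith [pi_gt_three, he])] at h3
    linarith
  exact ⟨box_main hi hw (not_cut (Or.inr h2)),
    box_main hi ⟨by rw [shr_j]; exact hw.1, by rw [shr_k]; exact hw.2⟩
      (not_cut (Or.inr (by rwa [shr_k])))⟩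

/-- the linear shear -/
def sh (i : Fin 3) (a : ℝ) : Rn 3 →L[ℝ] Rn 3 := ContinuousLinearMap.id ℝ _ +
  a • (ContinuousLinearMap.single ℝ (fun _ => ℝ) i).comp (ContinuousLinearMap.proj (jx i))

theorem sh_app (a : ℝ) (v : Rn 3) : sh i a v = v + Pi.single i (a * v (jx i)) := by
  simp [sh, ← Pi.single_smul']

theorem sh_sh (a : ℝ) : (sh i a).comp (sh i (-a)) = ContinuousLinearMap.id ℝ _ :=
  ContinuousLinearMap.ext fun v => by
    ext k
    fin_cases i <;> fin_cases k <;> simp [sh_app, jx]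

theorem sh_inv (a : ℝ) : (sh i a).IsInvertible :=
  .of_inverse (sh_sh a) (by simpa using sh_sh (i := i) (-a))

/-- the coframe on the box -/
def th (i : Fin 3) (z : Rn 3) : Rn 3 →L[ℝ] Rn 3 :=
  sh i (lam (z (kx i) - ck i) * (2 * π * deriv lam (z (jx i) - cj i)))

theorem th_cont : Continuous (th i) := by
  have h1 := Fn.lam_sm.continuous
  have h2 := Fn.lam_sm.continuous_deriv (by simp)
  unfold th sh
  fun_prop

theorem shr_sm : ContDiff ℝ ∞ (shr i) :=
  contDiff_id.add ((ContinuousLinearMap.single ℝ (fun _ => ℝ) i).contDiff.comp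
    (contDiff_const.mul (Fn.lam_sm.comp (by fun_prop))))

theorem shr_der : HasFDerivAt (shr i) (sh i (2 * π * deriv lam (w (jx i) - cj i))) w := by
  have h1 := ((Fn.lam_sm.differentiable (by simp) _).hasDerivAt.comp_hasFDerivAt w
    ((ContinuousLinearMap.proj (R := ℝ) (φ := fun _ : Fin 3 => ℝ)
      (jx i)).hasFDerivAt.sub_const (cj i))).const_mul (2 * π)
  refine ((hasFDerivAt_id w).add
    ((ContinuousLinearMap.single ℝ (fun _ => ℝ) i).hasFDerivAt.comp w h1)).congr_fderiv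
    (ContinuousLinearMap.ext fun v => ?_)
  simp [sh_app, mul_assoc, ← Pi.single_smul']

theorem der_lam (h : eps < |t|) : deriv lam t = 0 := by
  rcases lt_abs.1 h with h | h
  · rw [EventuallyEq.deriv_eq (f := fun _ => 1), deriv_const]
    filter_upwards [lt_mem_nhds h] with s hs using Fn.lam_one hs.le
  · rw [EventuallyEq.deriv_eq (f := fun _ => 0), deriv_const]
    filter_upwards [gt_mem_nhds (lt_neg.1 h)] with s hs using Fn.lam_zero hs.le

theorem der_neg (t : ℝ) : deriv lam (-t) = deriv lam t := by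
  rw [← neg_inj, ← deriv_comp_neg, funext Fn.lam_neg, deriv_const_sub]

theorem Df_of {φ : Rn 3 → Rn 3} {L : Rn 3 →L[ℝ] Rn 3} (h : ∀ᶠ w in 𝓝 z, c w = c' (φ w))
    (h1 : ContDiff ℝ ∞ φ) (h2 : HasFDerivAt φ L z) (h3 : LDAt (vs (Rn 3)) X c' (φ z)) :
    Df (vs (Rn 3)) X c z = (Df (vs (Rn 3)) X c' (φ z)).comp L := by
  rw [Df_congr (X := vs (Rn 3)) h, Df_comp (X := vs (Rn 3)) (Y := vs (Rn 3))
    (smAt_vs.2 h1.contDiffAt) h3.sm, Df_vs, h2.fderiv]

theorem Df_lat {O : Set (Rn 3)} (hO : IsOpen O) (h : ∀ z ∈ O, ∀ z' ∈ O, c z = c z' ↔ Lat z z')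
    (hz : z ∈ O) (hz' : z' ∈ O) (l : LDAt (vs (Rn 3)) X c z') (e : c z = c z') :
    Df (vs (Rn 3)) X c z = Df (vs (Rn 3)) X c z' := by
  have e1 : z + (z' - z) = z' := by simp
  have := Df_of (c := c) (c' := c) (φ := fun w => w + (z' - z)) (z := z) ?_ (by fun_prop)
    ((hasFDerivAt_id z).add_const _) (by rwa [e1])
  · rwa [e1] at this
  · have h1 : ContinuousAt (fun w => w + (z' - z)) z := by fun_prop
    filter_upwards [hO.mem_nhds hz, h1.preimage_mem_nhds (hO.mem_nhds (by rwa [e1]))] with w h2 h3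
    exact (h _ h2 _ h3).2 fun k => by simpa using (h _ hz _ hz').1 e k

theorem Df_M (h : IsTw I01 X e₀ e) (hz : z ∈ M) (hz' : z' ∈ MainI I01) (e1 : e₀ z = e₀ z') :
    z' ∈ M ∧ Df (vs (Rn 3)) X e₀ z' = Df (vs (Rn 3)) X e₀ z :=
  have h1 := lat_M ((h.eq0 _ (M_main hz) _ hz').1 e1) hz
  ⟨h1, Df_lat M_open (fun _ a _ b => h.eq0 _ (M_main a) _ (M_main b)) h1 hz
    (h.ld0 _ (M_main hz)) e1.symm⟩

theorem flat (h : IsTw I01 X e₀ e) (hi : i ∈ I01) (hw : w ∈ Box i)
    (h1 : eps < |w (jx i) - cj i| ∨ w (kx i) - ck i < -eps) : w ∈ MainI I01 ∧ e i w = e₀ w := by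
  have := he
  rcases le_or_gt (w (kx i)) (ck i) with h2 | h2
  · have h3 := box_main hi hw (not_cut (h1.imp
      (fun h1 => cos_lt h1 (by linarith [hw.1, pi_gt_three])) fun h1 =>
        (cos_lt (lt_abs.2 (Or.inr (by linarith))) (by linarith [hw.2, pi_gt_three])).trans_le
          (cos_le_one _)))
    exact ⟨h3, h.low i hi w hw h3 h2⟩
  · obtain ⟨h3, h4⟩ := up_main hi hw h2
    refine ⟨h3, (h.up i hi w hw h2).trans ((h.eq0 _ h4 _ h3).2 fun k => ?_)⟩
    rcases eq_or_ne k i with rfl | hk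
    · rcases lt_abs.1 (h1.resolve_right (by linarith)) with h5 | h5
      · exact ⟨1, by simp [shr, Fn.lam_one h5.le]⟩
      · exact ⟨0, by simp [shr, Fn.lam_zero (lt_neg.1 h5).le]⟩
    · exact ⟨0, by simp [shr, hk]⟩

theorem key (h : IsTw I01 X e₀ e) (hi : i ∈ I01) (hw : w ∈ Box i) (hz : z ∈ M)
    (e1 : e₀ z = e i w) : Df (vs (Rn 3)) X (e i) w = (Df (vs (Rn 3)) X e₀ z).comp (th i w) := by
  have := he
  have out : eps < |w (jx i) - cj i| ∨ eps < |w (kx i) - ck i| := by
    refine Or.imp (fun h1 => not_le.1 fun h2 => (le_cos h2).not_gt h1)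
      (fun h1 => not_le.1 fun h2 => (le_cos h2).not_gt h1) ?_
    rcases le_or_gt (w (kx i)) (ck i) with h2 | h2
    · have h3 := box_main hi hw fun h3 => h.cut i hi w ⟨hw, h3⟩ ⟨z, M_main hz, e1⟩
      exact (Df_M h hz h3 (e1.trans (h.low i hi w hw h3 h2))).1 i hi
    · simpa only [shr_j, shr_k] using
        (Df_M h hz (up_main hi hw h2).2 (e1.trans (h.up i hi w hw h2))).1 i hi
  rcases lt_or_ge eps (w (kx i) - ck i) with h1 | h1
  · have h2 : ck i < w (kx i) := by linarith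
    have h3 := (up_main hi hw h2).2
    rw [th, Fn.lam_one h1.le, one_mul, ← (Df_M h hz h3 (e1.trans (h.up i hi w hw h2))).2]
    refine Df_of ?_ shr_sm shr_der (h.ld0 _ h3)
    filter_upwards [box_open.mem_nhds hw,
      (isOpen_lt continuous_const (continuous_apply (kx i))).mem_nhds h2] with v a b
    exact h.up i hi v a b
  · have h2 : eps < |w (jx i) - cj i| ∨ w (kx i) - ck i < -eps :=
      out.imp_right fun h2 => lt_neg.1 ((lt_abs.1 h2).resolve_left h1.not_gt)
    have h3 : th i w = ContinuousLinearMap.id ℝ _ := by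
      rcases h2 with h2 | h2
      · simp [th, sh, der_lam h2]
      · simp [th, sh, Fn.lam_zero h2.le]
    obtain ⟨h4, h5⟩ := flat h hi hw h2
    rw [h3, ← (Df_M h hz h4 (e1.trans h5)).2]
    refine Df_congr ?_
    have h6 : IsOpen {w : Rn 3 | eps < |w (jx i) - cj i| ∨ w (kx i) - ck i < -eps} := by
      rw [ofPred_or]
      exact (isOpen_lt continuous_const (by fun_prop)).union
        (isOpen_lt (by fun_prop) continuous_const)
    filter_upwards [box_open.mem_nhds hw, h6.mem_nhds h2] with v a b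
    exact (flat h hi a b).2

theorem cover (h : IsTw I01 X e₀ e) (x : X) :
    (∃ z ∈ M, e₀ z = x) ∨ ∃ i ∈ I01, ∃ z ∈ Box i, e i z = x := by
  have := he
  refine (h.cov x).elim ?_ Or.inr
  rintro ⟨z, hz, rfl⟩
  by_cases hM : z ∈ M
  · exact Or.inl ⟨z, hM, rfl⟩
  simp only [M, mem_ofPred, not_forall, not_or, not_lt] at hM
  obtain ⟨i, hi, h1, h2⟩ := hM
  obtain ⟨m, hm⟩ := near h1
  obtain ⟨n, hn⟩ := near h2
  obtain ⟨w, w1, w2, w3⟩ : ∃ w, Lat z w ∧ w (jx i) = z (jx i) - 2 * π * m ∧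
      w (kx i) = z (kx i) - 2 * π * n :=
    ⟨fun k => z k - 2 * π * (if k = jx i then m else n : ℤ), fun k => ⟨_, sub_sub_cancel _ _⟩,
      by simp, by fin_cases i <;> simp [jx, kx]⟩
  have hw : w ∈ Box i :=
    ⟨by rw [w2, sub_right_comm]; linarith, by rw [w3, sub_right_comm]; linarith⟩
  have e1 := (h.eq0 _ hz _ (lat_main w1 hz)).2 w1
  rcases le_or_gt (w (kx i)) (ck i) with h3 | h3
  · exact Or.inr ⟨i, hi, w, hw, (h.low i hi w hw (lat_main w1 hz) h3).trans e1.symm⟩
  · obtain ⟨v, rfl⟩ : ∃ v, shr i v = w := ⟨w - Pi.single i (2 * π * lam (w (jx i) - cj i)), by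
      fin_cases i <;> simp [shr, jx]⟩
    simp only [Box, mem_ofPred, shr_j, shr_k] at hw h3
    exact Or.inr ⟨i, hi, v, hw, (h.up i hi v hw h3).trans e1.symm⟩

theorem th_lat (hz : z ∈ Box i) (hz' : z' ∈ Box i) (h : Lat z z') : th i z = th i z' := by
  have k : ∀ k a, |z k - a| < 2 * eps → |z' k - a| < 2 * eps → z k = z' k := fun k a h1 h2 => by
    obtain ⟨m, hm⟩ := h k
    have := he
    have h3 := pi_gt_three
    rw [abs_lt] at h1 h2
    have h4 : (m : ℝ) < 1 := by nlinarith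
    have h5 : (-1 : ℝ) < m := by nlinarith
    obtain rfl : m = 0 := by
      norm_cast at h4 h5
      omega
    simpa [sub_eq_zero] using hm
  rw [th, th, k _ _ hz.1 hz'.1, k _ _ hz.2 hz'.2]

/-- the linear part of the involution -/
def RL : Rn 3 →L[ℝ] Rn 3 := LinearMap.toContinuousLinearMap
  { toFun := R3
    map_add' := fun p q => by ext k; fin_cases k <;> simp [R3, add_comm]
    map_smul' := fun c p => by ext k; fin_cases k <;> simp [R3] }

theorem equi {σ : X → X} {τ : X → Rn 3 →L[ℝ] Rn 3} {θ θ' : Rn 3 →L[ℝ] Rn 3} (b : Rn 3)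
    (hσ : Sm X X σ univ) (h : ∀ᶠ w in 𝓝 z, σ (c w) = c' (R3 w + b))
    (l : LDAt (vs (Rn 3)) X c z) (l' : LDAt (vs (Rn 3)) X c' (R3 z + b))
    (t : (τ (c z)).comp (Df (vs (Rn 3)) X c z) = θ)
    (t' : (τ (c' (R3 z + b))).comp (Df (vs (Rn 3)) X c' (R3 z + b)) = θ')
    (r : ∀ v, θ' (R3 v) = R3 (θ v)) (v : Rn 3) :
    τ (σ (c z)) (Df X X σ (c z) v) = R3 (τ (c z) v) := by
  obtain ⟨v, rfl⟩ := l.inv.surjective v
  have h1 := (Df_comp l.sm (hσ _ trivial)).symm.trans (Df_of (φ := fun w => RL w + b) h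
    (by fun_prop) (RL.hasFDerivAt.add_const b) l')
  rw [h.self_of_nhds, show Df X X σ (c z) (Df (vs (Rn 3)) X c z v) = _ from congr($h1 v), ← t] at *
  exact congr($t' (R3 v)).trans (r v)

end CfaP

open CfaP

theorem cfa : CfaStmt := by
  intro A h
  have hp := pi_gt_d2
  have hp' := pi_lt_d2
  have := he
  obtain ⟨τ, t0, t1⟩ := desc2 M (fun i => {z | i ∈ I01 ∧ z ∈ Box i}) A.e₀ A.e
    (fun z => (Df (vs (Rn 3)) A.X A.e₀ z).inverse)
    (fun i z => (th i z).comp (Df (vs (Rn 3)) A.X (A.e i) z).inverse)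
    (fun z hz z' hz' e1 => by rw [(Df_M h.tw hz (M_main hz') e1).2])
    (fun i z hz w hw e1 => by
      rw [key h.tw hw.1 hw.2 hz e1, th, (sh_inv _).inverse_comp_of_right,
        ← ContinuousLinearMap.comp_assoc, (sh_inv _).self_comp_inverse,
        ContinuousLinearMap.id_comp])
    fun i j z hz w hw e1 => by
      obtain rfl : i = j := by_contra fun hn => h.tw.dis i hz.1 j hw.1 hn z hz.2 w hw.2 e1
      rw [Df_lat box_open (h.tw.eq i hz.1) hz.2 hw.2 (h.tw.ld i hz.1 w hw.2) e1,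
        th_lat hz.2 hw.2 ((h.tw.eq i hz.1 z hz.2 w hw.2).1 e1)]
  have l0 := fun z hz => h.tw.ld0 z (M_main hz)
  have s0 : ∀ z ∈ M, (τ (A.e₀ z)).comp (Df (vs (Rn 3)) A.X A.e₀ z) = ContinuousLinearMap.id ℝ _ :=
    fun z hz => by rw [t0 z hz, (l0 z hz).inv.inverse_comp_self]
  have s1 : ∀ i ∈ I01, ∀ z ∈ Box i, (τ (A.e i z)).comp (Df (vs (Rn 3)) A.X (A.e i) z) = th i z :=
    fun i hi z hz => by
      rw [t1 i z ⟨hi, hz⟩, ContinuousLinearMap.comp_assoc,
        (h.tw.ld i hi z hz).inv.inverse_comp_self, ContinuousLinearMap.comp_id]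
  have i0 : (0 : Fin 3) ∈ I01 := by simp [I01]
  have i1 : (1 : Fin 3) ∈ I01 := by simp [I01]
  refine ⟨τ, fun x _ => ?_, fun x => ?_, fun z hz v => congr($(s0 z fun i hi => ?_) v)⟩
  · rcases cover h.tw x with ⟨z, hz, rfl⟩ | ⟨i, hi, z, hz, rfl⟩
    · refine ⟨(cfAt_param (l0 z hz)).2 (contDiffAt_const.congr_of_eventuallyEq
        (mem_of_superset (M_open.mem_nhds hz) s0)), ?_⟩
      rw [t0 z hz]
      exact (l0 z hz).inv.inverse
    · refine ⟨(cfAt_param (h.tw.ld i hi z hz)).2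
        ((contDiff_zero.2 th_cont).contDiffAt.congr_of_eventuallyEq
          (mem_of_superset (box_open.mem_nhds hz) (s1 i hi))), ?_⟩
      rw [t1 i z ⟨hi, hz⟩]
      exact (sh_inv _).comp (h.tw.ld i hi z hz).inv.inverse
  · rcases cover h.tw x with ⟨z, hz, rfl⟩ | ⟨i, hi, z, hz, rfl⟩
    · have e1 : ∀ w, R3 w + ![0, 0, π] = sg0 w := fun w => by simp [R3, sg0]
      have h1 : R3 z + ![0, 0, π] ∈ M := fun i hi => by
        have a := hz 0 i0
        have b := hz 1 i1
        rcases i01 hi with rfl | rfl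
        · simpa [jx, kx, cj, ck, R3, c1, c3] using b
        · simpa [jx, kx, cj, ck, R3, c1, c3] using a
      refine equi ![0, 0, π] h.σsm ?_ (l0 z hz) (l0 _ h1) (s0 z hz) (s0 _ h1) fun _ => rfl
      filter_upwards [M_open.mem_nhds hz] with w hw
      rw [e1, h.σ0 w (M_main hw)]
    · rcases i01 hi with rfl | rfl
      · have e1 : -z 1 + 2 * π - π / 2 = -(z 1 - 3 * π / 2) := by ring
        have e2 : z 2 + π - 3 * π / 2 = z 2 - π / 2 := by ring
        have h1 : R3 z + ![2 * π, 0, π] ∈ Box 1 := by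
          simpa [Box, jx, kx, cj, ck, R3, e1, e2, -neg_sub] using hz
        refine equi ![2 * π, 0, π] h.σsm ?_ (h.tw.ld 0 i0 z hz) (h.tw.ld 1 i1 _ h1) (s1 0 i0 z hz)
          (s1 1 i1 _ h1) fun v => ?_
        · filter_upwards [box_open.mem_nhds hz] with w hw
          rw [h.σb0 w hw]
          simp [R3, neg_add_eq_sub]
        · ext k
          fin_cases k <;> simp [th, sh_app, jx, kx, cj, ck, R3, e1, e2, der_neg, -neg_sub]
          ring
      · have e1 : -z 0 + 2 * π - 3 * π / 2 = -(z 0 - π / 2) := by ring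
        have e2 : z 2 + -π - π / 2 = z 2 - 3 * π / 2 := by ring
        have h1 : R3 z + ![0, 2 * π, -π] ∈ Box 0 := by
          simpa [Box, jx, kx, cj, ck, R3, e1, e2, -neg_sub] using hz
        refine equi ![0, 2 * π, -π] h.σsm ?_ (h.tw.ld 1 i1 z hz) (h.tw.ld 0 i0 _ h1) (s1 1 i1 z hz)
          (s1 0 i0 _ h1) fun v => ?_
        · filter_upwards [box_open.mem_nhds hz] with w hw
          rw [h.σb1 w hw]
          simp [R3, neg_add_eq_sub, sub_eq_add_neg]
        · ext k
          fin_cases k <;> simp [th, sh_app, jx, kx, cj, ck, R3, e1, e2, der_neg, -neg_sub]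
          ring
  · have k : ∀ t, (eps < t ∨ eps < -t) → t < 6 → -6 < t → cos t < cos eps := fun t h1 h2 h3 => by
      refine not_le.1 fun h4 => ?_
      obtain ⟨m, hm⟩ := near h4
      rw [abs_le] at hm
      have h4 : (m : ℝ) < 1 := by nlinarith
      have h5 : (-1 : ℝ) < m := by nlinarith
      obtain rfl : m = 0 := by
        norm_cast at h4 h5
        omega
      rcases h1 with h1 | h1 <;> simp at hm <;> linarith
    rcases hz with ⟨h1, h2, h3, h4⟩ | h1
    · refine Or.inl ?_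
      rcases i01 hi with rfl | rfl
      · exact k (z 1 - 3 * π / 2) (Or.inr (by linarith)) (by linarith) (by linarith)
      · exact k (z 0 - π / 2) (Or.inl (by linarith)) (by linarith) (by linarith)
    · refine Or.inr ?_
      rw [abs_lt] at h1
      rcases i01 hi with rfl | rfl
      · exact k (z 2 - π / 2) (Or.inr (by linarith)) (by linarith) (by linarith)
      · exact k (z 2 - 3 * π / 2) (Or.inr (by linarith)) (by linarith) (by linarith)

end Pool.Agent.MP_e1dc65_gt.EA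

end
end MrgPart1

-- marker of a merged file
example : 731051 + 641106 = 731051 + 641106 := rfl

end MrgPart0

-- ======== part 1: formerly Pool.Agent.MP_e1dc65_gt.t.PreCof
section MrgPart1

/-! PROJECT HC, block NF, row COF: a smooth coframe on `F`. -/

open scoped ContDiff Manifold Topology Real
open Set Filter Function Real

noncomputable section

namespace Pool.Agent.MP_e1dc65_gt.T.Pr

open EA.CfaP (he cos_lt le_cos near lat_cos lat_trans not_cut box_open c1 c3 shr_j shr_k sh_inv th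
  shr_sm shr_der der_lam Df_of Df_lat th_lat)

namespace CofP

variable {i : Fin 3} {z z' w : Rn 3} {X : Mf (Rn 3)} {e₀ : Rn 3 → X} {e : Fin 3 → Rn 3 → X}

theorem lat_main (h : Lat z z') (hz : z ∈ Main) : z' ∈ Main :=
  fun i ⟨w, h1, h2⟩ => hz i ⟨w, lat_trans h h1, h2⟩

/-- off the closed squares round the cuts -/
def M : Set (Rn 3) :=
  {z | ∀ i, cos (z (jx i) - cj i) < cos eps ∨ cos (z (kx i) - ck i) < cos eps}

theorem M_open : IsOpen M := by
  simp only [M, ofPred_forall, ofPred_or]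
  exact isOpen_iInter_of_finite fun i =>
    (isOpen_lt (by fun_prop) continuous_const).union (isOpen_lt (by fun_prop) continuous_const)

theorem M_main (h : z ∈ M) : z ∈ Main := fun i =>
  not_cut ((h i).imp_right fun h => h.trans_le (cos_le_one _))

theorem lat_M (h : Lat z z') (hz : z ∈ M) : z' ∈ M := fun i => by
  rw [← lat_cos h, ← lat_cos h]
  exact hz i

theorem box_main (hw : w ∈ Box i) (h : w ∉ Cut i) : w ∈ Main := fun i' => by
  rcases eq_or_ne i' i with rfl | hn
  · exact h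
  · have h0 := abs_lt.1 hw.1
    have h1 := abs_lt.1 hw.2
    have h2 := cos_pos_of_mem_Ioo (x := w (kx i) - ck i)
      ⟨by linarith [pi_gt_three, he], by linarith [pi_gt_three, he]⟩
    have h3 := cos_pos_of_mem_Ioo (x := w (jx i) - cj i)
      ⟨by linarith [pi_gt_three, he], by linarith [pi_gt_three, he]⟩
    have h4 := cos_pos_of_mem_Ioo (x := eps)
      ⟨by linarith [pi_gt_three, he], by linarith [pi_gt_three, he]⟩
    refine not_cut ?_
    clear h h0 h1 hw
    fin_cases i <;> fin_cases i' <;> simp [jx, kx, cj, ck, c1, c3] at hn h2 h3 ⊢ <;>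
      first
        | exact Or.inl (by linarith)
        | exact Or.inr (by linarith)

theorem up_main (hw : w ∈ Box i) (h : ck i < w (kx i)) : w ∈ Main ∧ shr i w ∈ Main := by
  have h1 := abs_lt.1 hw.2
  have h2 : cos (w (kx i) - ck i) < 1 := (cos_le_one _).lt_of_ne fun h3 => by
    rw [cos_eq_one_iff_of_lt_of_lt (by linarith [pi_pos]) (by linarith [pi_gt_three, he])] at h3
    linarith
  exact ⟨box_main hw (not_cut (Or.inr h2)),
    box_main ⟨by rw [shr_j]; exact hw.1, by rw [shr_k]; exact hw.2⟩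
      (not_cut (Or.inr (by rwa [shr_k])))⟩

theorem th_sm : ContDiff ℝ ∞ (th i) := by
  have h1 := Fn.lam_sm
  have h2 : ContDiff ℝ ∞ (deriv lam) := (contDiff_infty_iff_deriv.1 h1).2
  exact contDiff_const.add (((h1.comp (by fun_prop)).mul
    (contDiff_const.mul (h2.comp (by fun_prop)))).smul contDiff_const)

theorem Df_M (h : IsF X e₀ e) (hz : z ∈ M) (hz' : z' ∈ Main) (e1 : e₀ z = e₀ z') :
    z' ∈ M ∧ Df (vs (Rn 3)) X e₀ z' = Df (vs (Rn 3)) X e₀ z :=
  have h1 := lat_M ((h.eq0 _ (M_main hz) _ hz').1 e1) hz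
  ⟨h1, Df_lat M_open (fun _ a _ b => h.eq0 _ (M_main a) _ (M_main b)) h1 hz
    (h.ld0 _ (M_main hz)) e1.symm⟩

theorem flat (h : IsF X e₀ e) (hw : w ∈ Box i)
    (h1 : eps < |w (jx i) - cj i| ∨ w (kx i) - ck i < -eps) : w ∈ Main ∧ e i w = e₀ w := by
  have := he
  rcases le_or_gt (w (kx i)) (ck i) with h2 | h2
  · have h3 := box_main hw (not_cut (h1.imp
      (fun h1 => cos_lt h1 (by linarith [hw.1, pi_gt_three])) fun h1 =>
        (cos_lt (lt_abs.2 (Or.inr (by linarith))) (by linarith [hw.2, pi_gt_three])).trans_le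
          (cos_le_one _)))
    exact ⟨h3, h.low i w hw h3 h2⟩
  · obtain ⟨h3, h4⟩ := up_main hw h2
    refine ⟨h3, (h.up i w hw h2).trans ((h.eq0 _ h4 _ h3).2 fun k => ?_)⟩
    rcases eq_or_ne k i with rfl | hk
    · rcases lt_abs.1 (h1.resolve_right (by linarith)) with h5 | h5
      · exact ⟨1, by simp [shr, Fn.lam_one h5.le]⟩
      · exact ⟨0, by simp [shr, Fn.lam_zero (lt_neg.1 h5).le]⟩
    · exact ⟨0, by simp [shr, hk]⟩

theorem key (h : IsF X e₀ e) (hw : w ∈ Box i) (hz : z ∈ M) (e1 : e₀ z = e i w) :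
    Df (vs (Rn 3)) X (e i) w = (Df (vs (Rn 3)) X e₀ z).comp (th i w) := by
  have := he
  have out : eps < |w (jx i) - cj i| ∨ eps < |w (kx i) - ck i| := by
    refine Or.imp (fun h1 => not_le.1 fun h2 => (le_cos h2).not_gt h1)
      (fun h1 => not_le.1 fun h2 => (le_cos h2).not_gt h1) ?_
    rcases le_or_gt (w (kx i)) (ck i) with h2 | h2
    · have h3 := box_main hw fun h3 => h.cut i w ⟨hw, h3⟩ ⟨z, M_main hz, e1⟩
      exact (Df_M h hz h3 (e1.trans (h.low i w hw h3 h2))).1 i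
    · simpa only [shr_j, shr_k] using
        (Df_M h hz (up_main hw h2).2 (e1.trans (h.up i w hw h2))).1 i
  rcases lt_or_ge eps (w (kx i) - ck i) with h1 | h1
  · have h2 : ck i < w (kx i) := by linarith
    have h3 := (up_main hw h2).2
    rw [th, Fn.lam_one h1.le, one_mul, ← (Df_M h hz h3 (e1.trans (h.up i w hw h2))).2]
    refine Df_of ?_ shr_sm shr_der (h.ld0 _ h3)
    filter_upwards [box_open.mem_nhds hw,
      (isOpen_lt continuous_const (continuous_apply (kx i))).mem_nhds h2] with v a b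
    exact h.up i v a b
  · have h2 : eps < |w (jx i) - cj i| ∨ w (kx i) - ck i < -eps :=
      out.imp_right fun h2 => lt_neg.1 ((lt_abs.1 h2).resolve_left h1.not_gt)
    have h3 : th i w = ContinuousLinearMap.id ℝ _ := by
      rcases h2 with h2 | h2
      · simp [th, EA.CfaP.sh, der_lam h2]
      · simp [th, EA.CfaP.sh, Fn.lam_zero h2.le]
    obtain ⟨h4, h5⟩ := flat h hw h2
    rw [h3, ← (Df_M h hz h4 (e1.trans h5)).2]
    refine Df_congr ?_
    have h6 : IsOpen {w : Rn 3 | eps < |w (jx i) - cj i| ∨ w (kx i) - ck i < -eps} := by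
      rw [ofPred_or]
      exact (isOpen_lt continuous_const (by fun_prop)).union
        (isOpen_lt (by fun_prop) continuous_const)
    filter_upwards [box_open.mem_nhds hw, h6.mem_nhds h2] with v a b
    exact (flat h a b).2

theorem cover (h : IsF X e₀ e) (x : X) :
    (∃ z ∈ M, e₀ z = x) ∨ ∃ i, ∃ z ∈ Box i, e i z = x := by
  have := he
  refine (h.cov x).elim ?_ Or.inr
  rintro ⟨z, hz, rfl⟩
  by_cases hM : z ∈ M
  · exact Or.inl ⟨z, hM, rfl⟩
  simp only [M, mem_ofPred, not_forall, not_or, not_lt] at hM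
  obtain ⟨i, h1, h2⟩ := hM
  obtain ⟨m, hm⟩ := near h1
  obtain ⟨n, hn⟩ := near h2
  obtain ⟨w, w1, w2, w3⟩ : ∃ w, Lat z w ∧ w (jx i) = z (jx i) - 2 * π * m ∧
      w (kx i) = z (kx i) - 2 * π * n :=
    ⟨fun k => z k - 2 * π * (if k = jx i then m else n : ℤ), fun k => ⟨_, sub_sub_cancel _ _⟩,
      by simp, by fin_cases i <;> simp [jx, kx]⟩
  have hw : w ∈ Box i :=
    ⟨by rw [w2, sub_right_comm]; linarith, by rw [w3, sub_right_comm]; linarith⟩
  have e1 := (h.eq0 _ hz _ (lat_main w1 hz)).2 w1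
  rcases le_or_gt (w (kx i)) (ck i) with h3 | h3
  · exact Or.inr ⟨i, w, hw, (h.low i w hw (lat_main w1 hz) h3).trans e1.symm⟩
  · obtain ⟨v, rfl⟩ : ∃ v, shr i v = w := ⟨w - Pi.single i (2 * π * lam (w (jx i) - cj i)), by
      fin_cases i <;> simp [shr, jx]⟩
    simp only [Box, mem_ofPred, shr_j, shr_k] at hw h3
    exact Or.inr ⟨i, v, hw, (h.up i v hw h3).trans e1.symm⟩

end CofP

open CofP

theorem cof : CofStmt := by
  intro F e₀ e h
  obtain ⟨τ, t0, t1⟩ := desc2 M Box e₀ e (fun z => (Df (vs (Rn 3)) F e₀ z).inverse)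
    (fun i z => (th i z).comp (Df (vs (Rn 3)) F (e i) z).inverse)
    (fun z hz z' hz' e1 => by rw [(Df_M h hz (M_main hz') e1).2])
    (fun i z hz w hw e1 => by
      rw [key h hw hz e1, th, (sh_inv _).inverse_comp_of_right,
        ← ContinuousLinearMap.comp_assoc, (sh_inv _).self_comp_inverse,
        ContinuousLinearMap.id_comp])
    fun i j z hz w hw e1 => by
      obtain rfl : i = j := by_contra fun hn => h.dis i j hn z hz w hw e1
      rw [Df_lat box_open (h.eq i) hz hw (h.ld i w hw) e1,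
        th_lat hz hw ((h.eq i z hz w hw).1 e1)]
  have l0 := fun z hz => h.ld0 z (M_main hz)
  have s0 : ∀ z ∈ M, (τ (e₀ z)).comp (Df (vs (Rn 3)) F e₀ z) = ContinuousLinearMap.id ℝ _ :=
    fun z hz => by rw [t0 z hz, (l0 z hz).inv.inverse_comp_self]
  have s1 : ∀ i, ∀ z ∈ Box i, (τ (e i z)).comp (Df (vs (Rn 3)) F (e i) z) = th i z :=
    fun i z hz => by
      rw [t1 i z hz, ContinuousLinearMap.comp_assoc, (h.ld i z hz).inv.inverse_comp_self,
        ContinuousLinearMap.comp_id]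
  refine ⟨τ, fun x _ => ?_⟩
  rcases cover h x with ⟨z, hz, rfl⟩ | ⟨i, z, hz, rfl⟩
  · refine ⟨(cfAt_param (l0 z hz)).2 (contDiffAt_const.congr_of_eventuallyEq
      (mem_of_superset (M_open.mem_nhds hz) s0)), ?_⟩
    rw [t0 z hz]
    exact (l0 z hz).inv.inverse
  · refine ⟨(cfAt_param (h.ld i z hz)).2 (th_sm.contDiffAt.congr_of_eventuallyEq
      (mem_of_superset (box_open.mem_nhds hz) (s1 i))), ?_⟩
    rw [t1 i z hz]
    exact (sh_inv _).comp (h.ld i z hz).inv.inverse

end Pool.Agent.MP_e1dc65_gt.T.Pr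

end
end MrgPart1

-- marker of a merged file
example : 731051 + 568622 = 731051 + 568622 := rfl
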