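import Pool.Agent.MP_e1dc65_gt.t4.Inf
import Mathlib.Analysis.SpecialFunctions.Trigonometric.Deriv
import Pool.Agent.MP_e1dc65_gt.t.KeyM1
import Pool.Agent.MP_e1dc65_gt.k.Bump
import Mathlib.Analysis.InnerProductSpace.Calculus
import Pool.Agent.MP_e1dc65_gt.k.Etale
import Pool.Agent.MP_e1dc65_gt.k.Level

-- ======== part 0: formerly Pool.Agent.MP_e1dc65_gt.t4.Mid
section MrgPart0

-- ======== part 0: formerly Pool.Agent.MP_e1dc65_gt.t4.InsA
section MrgPart0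

/-! PROJECT HC, part T4: calculus of insertions. -/

open scoped Topology
open Set Filter Function Topology

noncomputable section

namespace Pool.Agent.MP_e1dc65_gt.T4

variable {A P N N' Y Y' ι ι' : Type} [TopologicalSpace A] [TopologicalSpace P] [TopologicalSpace N]
  [TopologicalSpace N'] [TopologicalSpace Y] [TopologicalSpace Y'] {q : Pat A P} {W W' : Set A}
  {J : Set ι} {e : ι → A → N} {N₀ : Set N} {α : N → Y} {β : ι → P → Y} {Y₀ : Set Y}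

section
omit [TopologicalSpace A] [TopologicalSpace P] [TopologicalSpace N]

theorem Pat.mem_rest {n : N} : n ∈ q.rest J e N₀ ↔ n ∈ N₀ ∧ ∀ i ∈ J, ∀ w ∈ q.K, e i w ≠ n := by
  simp only [Pat.rest, Set.mem_sdiff, mem_iUnion, mem_image, not_exists, not_and]

theorem Pat.dom_φ {w : A} (h : w ∈ W \ q.K) : q.φ w ∈ q.dom W := Or.inl ⟨w, h, rfl⟩
theorem Pat.dom_KP {p : P} (h : p ∈ q.KP) : p ∈ q.dom W := Or.inr h
theorem Pat.dom_mono (h : W ⊆ W') : q.dom W ⊆ q.dom W' :=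
  union_subset_union_left _ (image_mono (sdiff_subset_sdiff_left h))

theorem Pat.dom_grow {K' : Set A} (h : q.K ⊆ K') (h' : K' ⊆ W) : (q.grow K').dom W = q.dom W := by
  simp only [Pat.dom, Pat.grow]
  rw [← union_assoc, ← image_union, sdiff_union_sdiff_cancel h' h]

end

theorem Pat.Ok.not_KP (h : q.Ok) {w : A} (hw : w ∉ q.K) : q.φ w ∉ q.KP :=
  (h.img ▸ mem_image_of_mem q.φ hw : q.φ w ∈ q.KPᶜ)

theorem Pat.Ok.grow [T2Space A] (h : q.Ok) {K' : Set A} (hK : IsCompact K') (s : q.K ⊆ K') :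
    (q.grow K').Ok := by
  refine ⟨hK, h.te.mono hK.isClosed.isOpen_compl (compl_subset_compl.2 s), ?_, fun W hW hs => ?_⟩
  · ext p; constructor
    · rintro ⟨w, hw, rfl⟩ (⟨w', hw', e⟩ | hp)
      · exact hw (h.te.inj hw'.2 (fun c => hw (s c)) e ▸ hw'.1)
      · exact h.not_KP (fun c => hw (s c)) hp
    · intro hp
      obtain ⟨w, hw, rfl⟩ : p ∈ q.φ '' q.Kᶜ := h.img ▸ fun c => hp (Or.inr c)
      exact ⟨w, fun c => hp (Or.inl ⟨w, ⟨c, hw⟩, rfl⟩), rfl⟩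
  · rw [Pat.dom_grow s hs]; exact h.nb W hW (s.trans hs)

namespace Ins

theorem mem_a (h : Ins q W J e N₀ α β Y₀) {n : N} (hn : n ∈ q.rest J e N₀) : α n ∈ Y₀ :=
  h.cov ▸ Or.inl ⟨n, hn, rfl⟩

theorem mem_b (h : Ins q W J e N₀ α β Y₀) {i : ι} (hi : i ∈ J) {p : P} (hp : p ∈ q.dom W) :
    β i p ∈ Y₀ := by
  rcases hp with ⟨w, hw, rfl⟩ | hp
  · rw [h.com i hi w hw]; exact h.mem_a (h.off i hi w hw)
  · exact h.cov ▸ Or.inr (mem_biUnion hi ⟨p, hp, rfl⟩)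

theorem cases (h : Ins q W J e N₀ α β Y₀) {y : Y} (hy : y ∈ Y₀) :
    (∃ n ∈ q.rest J e N₀, α n = y) ∨ ∃ i ∈ J, ∃ p ∈ q.KP, β i p = y := by
  rw [h.cov] at hy
  exact hy.imp id fun a => by simpa only [mem_iUnion, exists_prop, mem_image] using a

theorem cov_of {Y₀ : Set Y} (a : ∀ n ∈ q.rest J e N₀, α n ∈ Y₀)
    (b : ∀ i ∈ J, ∀ p ∈ q.KP, β i p ∈ Y₀)
    (c : ∀ y ∈ Y₀, (∃ n ∈ q.rest J e N₀, α n = y) ∨ ∃ i ∈ J, ∃ p ∈ q.KP, β i p = y) :
    Y₀ = α '' q.rest J e N₀ ∪ ⋃ i ∈ J, β i '' q.KP := by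
  ext y; constructor
  · exact fun hy => (c y hy).imp id fun ⟨i, hi, hp⟩ => mem_biUnion hi hp
  · rintro (⟨n, hn, rfl⟩ | hy)
    · exact a n hn
    · obtain ⟨i, hi, p, hp, rfl⟩ := mem_iUnion₂.1 hy
      exact b i hi p hp

/-- a property of open sets that is local can be checked on the pieces -/
theorem pieces (h : Ins q W J e N₀ α β Y₀) {y : Y} (hy : y ∈ Y₀) :
    y ∈ α '' q.rest J e N₀ ∨ ∃ i ∈ J, y ∈ β i '' q.dom W :=
  (h.cases hy).imp id fun ⟨i, hi, p, hp, e⟩ => ⟨i, hi, p, Or.inr hp, e⟩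

theorem co {θ : Y → Y'} (h : Ins q W J e N₀ α β Y₀) (a : CO (fun n => θ (α n)) (q.rest J e N₀))
    (b : ∀ i ∈ J, CO (fun p => θ (β i p)) (q.dom W)) : CO θ Y₀ :=
  CO.of_local fun _ hy => (h.pieces hy).elim
    (fun c => ⟨_, c, image_subset_iff.2 fun _ => h.mem_a, h.ta.desc a fun _ _ => rfl⟩)
    fun ⟨i, hi, c⟩ => ⟨_, c, image_subset_iff.2 fun _ => h.mem_b hi,
      (h.tb i hi).desc (b i hi) fun _ _ => rfl⟩

theorem isOpen (h : Ins q W J e N₀ α β Y₀) : IsOpen Y₀ :=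
  (h.co (θ := fun y => y) h.ta.toCO fun i hi => (h.tb i hi).toCO).dom

/-- maps out of the result of an insertion -/
theorem desc_fun {B : Type} [Nonempty B] (h : Ins q W J e N₀ α β Y₀) (a : N → B) (b : ι → P → B)
    (c : ∀ i ∈ J, ∀ w ∈ W \ q.K, b i (q.φ w) = a (e i w)) :
    ∃ θ : Y → B, (∀ n ∈ q.rest J e N₀, θ (α n) = a n) ∧ ∀ i ∈ J, ∀ p ∈ q.dom W, θ (β i p) = b i p := by
  obtain ⟨θ, hθ⟩ := exists_desc (fun y z => (∃ n ∈ q.rest J e N₀, α n = y ∧ a n = z) ∨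
      ∃ i ∈ J, ∃ p ∈ q.KP, β i p = y ∧ b i p = z) (by
    rintro y z z' (⟨n, hn, rfl, rfl⟩ | ⟨i, hi, p, hp, rfl, rfl⟩)
      (⟨m, hm, e, rfl⟩ | ⟨j, hj, p', hp', e, rfl⟩)
    · rw [h.ta.inj hm hn e]
    · exact (h.sep j hj p' hp' n hn e.symm).elim
    · exact (h.sep i hi p hp m hm e).elim
    · obtain rfl := h.sep' j hj i hi p' hp' p hp e
      rw [(h.tb j hj).inj (Or.inr hp') (Or.inr hp) e])
  have e₁ := fun n hn => hθ _ _ (Or.inl ⟨n, hn, rfl, rfl⟩)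
  refine ⟨θ, e₁, ?_⟩
  rintro i hi _ (⟨w, hw, rfl⟩ | hp)
  · rw [h.com i hi w hw, e₁ _ (h.off i hi w hw), c i hi w hw]
  · exact hθ _ _ (Or.inr ⟨i, hi, _, hp, rfl, rfl⟩)

theorem desc [Nonempty Y'] (h : Ins q W J e N₀ α β Y₀) (a : N → Y') (b : ι → P → Y')
    (ha : ContinuousOn a (q.rest J e N₀)) (hb : ∀ i ∈ J, ContinuousOn (b i) (q.dom W))
    (c : ∀ i ∈ J, ∀ w ∈ W \ q.K, b i (q.φ w) = a (e i w)) :
    ∃ θ : Y → Y', ContinuousOn θ Y₀ ∧ (∀ n ∈ q.rest J e N₀, θ (α n) = a n) ∧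
      ∀ i ∈ J, ∀ p ∈ q.dom W, θ (β i p) = b i p := by
  obtain ⟨θ, e₁, e₂⟩ := h.desc_fun a b c
  refine ⟨θ, fun y hy => ContinuousAt.continuousWithinAt ?_, e₁, e₂⟩
  rcases h.pieces hy with c | ⟨i, hi, c⟩
  · exact (h.ta.desc_cont ha e₁).continuousAt (h.ta.img.mem_nhds c)
  · exact ((h.tb i hi).desc_cont (hb i hi) (e₂ i hi)).continuousAt ((h.tb i hi).img.mem_nhds c)

/-- uniqueness of the result -/
theorem uniq [Nonempty Y'] {α' : N → Y'} {β' : ι → P → Y'} {Y₀' : Set Y'}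
    (h : Ins q W J e N₀ α β Y₀) (h' : Ins q W J e N₀ α' β' Y₀') :
    ∃ θ : Y → Y', TE θ Y₀ ∧ θ '' Y₀ = Y₀' ∧ (∀ n ∈ q.rest J e N₀, θ (α n) = α' n) ∧
      ∀ i ∈ J, ∀ p ∈ q.dom W, θ (β i p) = β' i p := by
  obtain ⟨θ, e₁, e₂⟩ := h.desc_fun α' β' h'.com
  refine ⟨θ, ⟨h.co (h'.ta.toCO.congr e₁) fun i hi => (h'.tb i hi).toCO.congr (e₂ i hi), ?_⟩, ?_,
    e₁, e₂⟩
  · intro y hy y' hy' c
    rcases h.cases hy with ⟨n, hn, rfl⟩ | ⟨i, hi, p, hp, rfl⟩ <;>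
      rcases h.cases hy' with ⟨m, hm, rfl⟩ | ⟨j, hj, p', hp', rfl⟩
    · rw [e₁ n hn, e₁ m hm] at c; rw [h'.ta.inj hn hm c]
    · rw [e₁ n hn, e₂ j hj _ (Or.inr hp')] at c; exact (h'.sep j hj p' hp' n hn c).elim
    · rw [e₁ m hm, e₂ i hi _ (Or.inr hp)] at c; exact (h'.sep i hi p hp m hm c.symm).elim
    · rw [e₂ i hi _ (Or.inr hp), e₂ j hj _ (Or.inr hp')] at c
      obtain rfl := h'.sep' i hi j hj p hp p' hp' c
      rw [(h'.tb i hi).inj (Or.inr hp) (Or.inr hp') c]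
  · ext z; constructor
    · rintro ⟨y, hy, rfl⟩
      rcases h.cases hy with ⟨n, hn, rfl⟩ | ⟨i, hi, p, hp, rfl⟩
      · rw [e₁ n hn]; exact h'.mem_a hn
      · rw [e₂ i hi _ (Or.inr hp)]; exact h'.mem_b hi (Or.inr hp)
    · intro hz
      rcases h'.cases hz with ⟨n, hn, rfl⟩ | ⟨i, hi, p, hp, rfl⟩
      exacts [⟨_, h.mem_a hn, e₁ n hn⟩, ⟨_, h.mem_b hi (Or.inr hp), e₂ i hi _ (Or.inr hp)⟩]

/-- change of the target -/
theorem map {θ : Y → Y'} {Y₁ : Set Y} (h : Ins q W J e N₀ α β Y₀) (t : TE θ Y₁) (s : Y₀ ⊆ Y₁) :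
    Ins q W J e N₀ (fun n => θ (α n)) (fun i p => θ (β i p)) (θ '' Y₀) where
  ta := h.ta.comp t fun _ hn => s (h.mem_a hn)
  tb i hi := (h.tb i hi).comp t fun _ hp => s (h.mem_b hi hp)
  off := h.off
  com i hi w hw := by rw [h.com i hi w hw]
  sep i hi p hp n hn c :=
    h.sep i hi p hp n hn (t.inj (s (h.mem_a hn)) (s (h.mem_b hi (Or.inr hp))) c)
  sep' i hi j hj p hp p' hp' c := h.sep' i hi j hj p hp p' hp'
    (t.inj (s (h.mem_b hi (Or.inr hp))) (s (h.mem_b hj (Or.inr hp'))) c)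
  cov := by rw [h.cov]; simp only [image_union, image_iUnion, image_image]

/-- restriction, change of the base and change of the index set -/
theorem pull {J' : Set ι'} {e' : ι' → A → N'} {N₀' : Set N'} {f : N' → N} {σ : ι' → ι}
    (h : Ins q W J e N₀ α β Y₀) (KW : q.K ⊆ W) (t : TE f N₀') (m : MapsTo f N₀' N₀)
    (mσ : MapsTo σ J' J) (iσ : InjOn σ J')
    (c : ∀ i ∈ J', ∀ w ∈ W, e' i w ∈ N₀' ∧ f (e' i w) = e (σ i) w)
    (d : ∀ i ∈ J, i ∉ σ '' J' → ∀ w ∈ q.K, ∀ n ∈ N₀', e i w ≠ f n) :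
    Ins q W J' e' N₀' (fun n => α (f n)) (fun i => β (σ i))
      ((fun n => α (f n)) '' q.rest J' e' N₀' ∪ ⋃ i ∈ J', β (σ i) '' q.KP) ∧
    q.rest J' e' N₀' = N₀' ∩ f ⁻¹' q.rest J e N₀ := by
  have r : q.rest J' e' N₀' = N₀' ∩ f ⁻¹' q.rest J e N₀ := by
    ext n; simp only [mem_inter_iff, mem_preimage, Pat.mem_rest]
    refine and_congr_right fun hn => ⟨fun a => ⟨m hn, fun i hi w hw => ?_⟩, fun a i hi w hw b => ?_⟩
    · by_cases hs : i ∈ σ '' J'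
      · obtain ⟨j, hj, rfl⟩ := hs
        rw [← (c j hj w (KW hw)).2]
        exact fun b => a j hj w hw (t.inj (c j hj w (KW hw)).1 hn b)
      · exact d i hi hs w hw n hn
    · exact a.2 _ (mσ hi) w hw (by rw [← b, (c i hi w (KW hw)).2])
  refine ⟨⟨?_, fun i hi => h.tb _ (mσ hi), fun i hi w hw => ?_, fun i hi w hw => ?_,
    fun i hi p hp n hn => ?_, fun i hi j hj p hp p' hp' b => ?_, rfl⟩, r⟩
  · rw [r]; exact (t.mono (t.pre h.ta.dom) inter_subset_left).comp h.ta fun _ hn => hn.2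
  · rw [r]; exact ⟨(c i hi w hw.1).1, by
      rw [mem_preimage, (c i hi w hw.1).2]; exact h.off _ (mσ hi) w hw⟩
  · rw [(c i hi w hw.1).2, h.com _ (mσ hi) w hw]
  · rw [r] at hn; exact h.sep _ (mσ hi) p hp _ hn.2
  · exact iσ hi hj (h.sep' _ (mσ hi) _ (mσ hj) p hp p' hp' b)

/-- a larger support -/
theorem grow {K' : Set A} (h : Ins q W J e N₀ α β Y₀) (ok : q.Ok) (s : q.K ⊆ K') (s' : K' ⊆ W)
    (d : ∀ i ∈ J, ∀ j ∈ J, ∀ w ∈ W, ∀ w' ∈ W, e i w = e j w' → i = j)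
    (o : IsOpen ((q.grow K').rest J e N₀)) : Ins (q.grow K') W J e N₀ α β Y₀ := by
  have r : (q.grow K').rest J e N₀ ⊆ q.rest J e N₀ := fun n hn =>
    Pat.mem_rest.2 ⟨hn.1, fun i hi w hw => (Pat.mem_rest.1 hn).2 i hi w (s hw)⟩
  have dk : q.dom K' ⊆ q.dom W := Pat.dom_mono s'
  refine ⟨h.ta.mono o r, fun i hi => (Pat.dom_grow s s').symm ▸ h.tb i hi, fun i hi w hw => ?_,
    fun i hi w hw => h.com i hi w ⟨hw.1, fun c => hw.2 (s c)⟩, ?_, ?_,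
    cov_of (fun n hn => h.mem_a (r hn)) (fun i hi p hp => h.mem_b hi (dk hp)) fun y hy => ?_⟩
  · have hw' : w ∈ W \ q.K := ⟨hw.1, fun c => hw.2 (s c)⟩
    refine Pat.mem_rest.2 ⟨(h.off i hi w hw').1, fun j hj w' hk c => ?_⟩
    obtain rfl := d j hj i hi w' (s' hk) w hw.1 c
    by_cases hK : w' ∈ q.K
    · exact (Pat.mem_rest.1 (h.off j hj w hw')).2 j hj w' hK c
    · have := (h.com j hj w' ⟨s' hk, hK⟩).trans ((congrArg α c).trans (h.com j hj w hw').symm)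
      exact hw.2 (ok.te.inj hK hw'.2
        ((h.tb j hj).inj (Pat.dom_φ ⟨s' hk, hK⟩) (Pat.dom_φ hw') this) ▸ hk)
  · rintro i hi _ (⟨w, hw, rfl⟩ | hp) n hn
    · have hw' : w ∈ W \ q.K := ⟨s' hw.1, hw.2⟩
      rw [h.com i hi w hw']
      exact fun c => (Pat.mem_rest.1 hn).2 i hi w hw.1 (h.ta.inj (h.off i hi w hw') (r hn) c.symm)
    · exact h.sep i hi _ hp n (r hn)
  · rintro i hi j hj _ (⟨w, hw, rfl⟩ | hp) _ (⟨w', hw', rfl⟩ | hp') c
    · rw [h.com i hi w ⟨s' hw.1, hw.2⟩, h.com j hj w' ⟨s' hw'.1, hw'.2⟩] at c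
      exact d i hi j hj w (s' hw.1) w' (s' hw'.1)
        (h.ta.inj (h.off i hi w ⟨s' hw.1, hw.2⟩) (h.off j hj w' ⟨s' hw'.1, hw'.2⟩) c)
    · rw [h.com i hi w ⟨s' hw.1, hw.2⟩] at c
      exact (h.sep j hj _ hp' _ (h.off i hi w ⟨s' hw.1, hw.2⟩) c).elim
    · rw [h.com j hj w' ⟨s' hw'.1, hw'.2⟩] at c
      exact (h.sep i hi _ hp _ (h.off j hj w' ⟨s' hw'.1, hw'.2⟩) c.symm).elim
    · exact h.sep' i hi j hj _ hp _ hp' c
  · rcases h.cases hy with ⟨n, hn, rfl⟩ | ⟨i, hi, p, hp, rfl⟩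
    · by_cases c : n ∈ (q.grow K').rest J e N₀
      · exact Or.inl ⟨n, c, rfl⟩
      · simp only [Pat.mem_rest, not_and, not_forall, not_not] at c
        obtain ⟨i, hi, w, hw, rfl⟩ := c hn.1
        have hK : w ∉ q.K := fun k => (Pat.mem_rest.1 hn).2 i hi w k rfl
        exact Or.inr ⟨i, hi, _, Or.inl ⟨w, ⟨hw, hK⟩, rfl⟩, h.com i hi w ⟨s' hw, hK⟩⟩
    · exact Or.inr ⟨i, hi, p, Or.inr hp, rfl⟩

/-- the same for a finite family in a Hausdorff space -/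
theorem grow' [Finite ι] [T2Space N] {K' : Set A} (h : Ins q W univ e univ α β Y₀) (ok : q.Ok)
    (hK : IsCompact K') (s : q.K ⊆ K') (s' : K' ⊆ W) (c : ∀ i, ContinuousOn (e i) W)
    (d : ∀ i j, ∀ w ∈ W, ∀ w' ∈ W, e i w = e j w' → i = j) :
    Ins (q.grow K') W univ e univ α β Y₀ :=
  h.grow ok s s' (fun i _ j _ => d i j) (isOpen_univ.sdiff (finite_univ.isClosed_biUnion
    fun i _ => (hK.image_of_continuousOn ((c i).mono s')).isClosed))

/-- the patch over a larger part of its domain -/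
theorem enl (h : Ins q W J e N₀ α β Y₀) (ok : q.Ok) {i : ι} (hi : i ∈ J) [Nonempty Y] (s : W ⊆ W')
    (t : TE (e i) (W' \ q.K)) (m : MapsTo (e i) (W' \ q.K) (q.rest J e N₀)) :
    ∃ g : P → Y, TE g (q.dom W') ∧ (∀ w ∈ W' \ q.K, g (q.φ w) = α (e i w)) ∧
      ∀ p ∈ q.dom W, g p = β i p := by
  obtain ⟨g, a, b, c⟩ := glue2 (ok.te.mono t.dom fun _ hw => hw.2) (t.comp h.ta m)
    (te_id (h.tb i hi).dom) (h.tb i hi) (by
      rintro w hw _ (⟨w', hw', rfl⟩ | hp)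
      · rw [h.com i hi w' hw']
        exact ⟨fun c => by rw [ok.te.inj hw.2 hw'.2 c], fun c => by
          rw [t.inj hw ⟨s hw'.1, hw'.2⟩ (h.ta.inj (m hw) (h.off i hi w' hw') c)]⟩
      · exact ⟨fun c => (ok.not_KP hw.2 (c ▸ hp)).elim,
          fun c => (h.sep i hi _ hp _ (m hw) c).elim⟩)
  refine ⟨g, a.mono ?_ ?_, b, c⟩
  · have : q.dom W' = q.φ '' (W' \ q.K) ∪ q.dom W :=
      (union_subset_union_right _ subset_union_right).antisymm
        (union_subset subset_union_left (Pat.dom_mono s))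
    rw [this]; simpa only [image_id'] using a.dom
  · rw [image_id']; exact union_subset_union_right _ subset_union_right

end Ins

end Pool.Agent.MP_e1dc65_gt.T4

end
end MrgPart0

-- ======== part 1: formerly Pool.Agent.MP_e1dc65_gt.t.Dat
section MrgPart1

/-! PROJECT HC, block A: the functions on the torus. -/

open scoped ContDiff Manifold Topology Real
open Set Filter Function Module Topology

noncomputable section

namespace Pool.Agent.MP_e1dc65_gt.T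

namespace DatP

open Loc

variable {R L m τ t u y top : ℝ} {A : ℝ → ℝ}

theorem red (hL : 0 < L) (t : ℝ) : ∃ (u : ℝ) (n : ℤ), |u| ≤ L / 2 ∧ t = u + n * L := by
  refine ⟨(t / L - round (t / L)) * L, round (t / L), ?_, by field_simp; ring⟩
  rw [abs_mul, abs_of_pos hL]
  nlinarith [abs_sub_round (t / L)]

/-- an even periodic profile -/
structure Pr (R L top : ℝ) (A : ℝ → ℝ) : Prop where
  sm : ContDiff ℝ ∞ A
  per : ∀ t (n : ℤ), A (t + n * L) = A t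
  even : ∀ t, A (-t) = A t
  sq : ∀ t, |t| ≤ R → A t = t ^ 2
  pos : ∀ t, 0 < t → t < L / 2 → 0 < deriv A t
  top : A (L / 2) = top

theorem Pr.abs (h : Pr R L top A) (t : ℝ) : A |t| = A t := by
  rcases abs_choice t with e | e <;> rw [e]
  exact h.even t

theorem Pr.strict (h : Pr R L top A) : StrictMonoOn A (Icc 0 (L / 2)) :=
  strictMonoOn_of_deriv_pos (convex_Icc _ _) h.sm.continuous.continuousOn fun t ht => by
    rw [interior_Icc] at ht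
    exact h.pos t ht.1 ht.2

theorem Pr.mono (h : Pr R L top A) (h1 : |t| ≤ |u|) (h2 : |u| ≤ L / 2) : A t ≤ A u := by
  rw [← h.abs t, ← h.abs u]
  exact h.strict.monotoneOn ⟨abs_nonneg _, h1.trans h2⟩ ⟨abs_nonneg _, h2⟩ h1

theorem Pr.lt (h : Pr R L top A) (h0 : 0 ≤ t) (h1 : t < |u|) (h2 : |u| ≤ L / 2) : A t < A u := by
  rw [← h.abs u]
  exact h.strict ⟨h0, h1.le.trans h2⟩ ⟨abs_nonneg _, h2⟩ h1

theorem Pr.bd (h : Pr R L top A) (hR : 0 ≤ R) (hL : 0 < L) (t : ℝ) : 0 ≤ A t ∧ A t ≤ top := by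
  obtain ⟨u, n, h1, rfl⟩ := red hL t
  rw [h.per, ← h.top]
  refine ⟨?_, h.mono (h1.trans (le_abs_self _)) (abs_of_pos (half_pos hL)).le⟩
  simpa [h.sq 0 (by simpa using hR)] using h.mono (t := 0) (by simp) h1

theorem Pr.ctr (h : Pr R L top A) (y : ℝ) : A (L / 2 + y) = A (L / 2 - |y|) := by
  rcases abs_choice y with e | e <;> rw [e]
  · rw [← h.even, ← h.per _ 1]
    congr 1
    push_cast
    ring
  · rw [sub_neg_eq_add]

/-- the field on the circle -/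
def sn (L t : ℝ) : ℝ := Real.sin (2 * π / L * t)

theorem sn_per (hL : 0 < L) (t : ℝ) (n : ℤ) : sn L (t + n * L) = sn L t := by
  rw [sn, sn, ← Real.sin_add_int_mul_two_pi (2 * π / L * t) n]
  congr 1
  field_simp

theorem sn_pos (h0 : 0 < t) (h1 : t < L / 2) : 0 < sn L t := by
  have hL : 0 < L := by linarith
  refine Real.sin_pos_of_pos_of_lt_pi (by positivity) ?_
  rw [div_mul_eq_mul_div, div_lt_iff₀ hL]
  nlinarith [Real.pi_pos]

theorem tri (hR : 0 ≤ R) (hL : 0 < L) (t : ℝ) :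
    (sn L t = 0 ∧ ((∀ top A, Pr R L top A → A t = 0) ∨ ∀ top A, Pr R L top A → A t = top)) ∨
      ∀ top A, Pr R L top A → 0 < deriv A t * sn L t := by
  obtain ⟨u, n, h1, rfl⟩ := red hL t
  rw [sn_per hL]
  rcases h1.eq_or_lt with e | h1
  · refine Or.inl ⟨?_, Or.inr fun top A h => by rw [h.per, ← h.abs, e, h.top]⟩
    have : 2 * π / L * (L / 2) = π := by field_simp
    rcases (abs_eq (half_pos hL).le).1 e with rfl | rfl <;> simp [sn, this]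
  have hd : ∀ top A, Pr R L top A → deriv A (u + n * L) = deriv A u := fun top A h => by
    rw [← deriv_comp_add_const, funext (h.per · n)]
  rcases lt_trichotomy u 0 with c | rfl | c
  · refine Or.inr fun top A h => ?_
    have h2 : -u < L / 2 := by linarith [(abs_lt.1 h1).1]
    have h3 := mul_pos (h.pos _ (neg_pos.2 c) h2) (sn_pos (neg_pos.2 c) h2)
    have h4 := deriv_comp_neg A u
    rw [funext h.even] at h4
    rw [hd top A h, h4]
    simpa [sn] using h3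
  · exact Or.inl ⟨by simp [sn], Or.inl fun top A h => by
      rw [h.per, h.sq 0 (by simpa using hR)]; simp⟩
  · exact Or.inr fun top A h => hd top A h ▸
      mul_pos (h.pos _ c (abs_lt.1 h1).2) (sn_pos c (abs_lt.1 h1).2)

/-- the profile on half a period -/
def A1 (R L m τ t : ℝ) : ℝ :=
  t ^ 2 + Real.smoothTransition (t - R) * (m - gam τ (t - L / 2) - t ^ 2)

/-- the periodic profile -/
def AA (R L m τ t : ℝ) : ℝ := A1 R L m τ (Real.arccos (Real.cos (2 * π / L * t)) / (2 * π / L))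

theorem cd_A1 : ContDiff ℝ ∞ (A1 R L m τ) :=
  (contDiff_id.pow 2).add ((Real.smoothTransition.contDiff.comp (contDiff_id.sub contDiff_const)).mul
    ((contDiff_const.sub ((cd_gam τ).comp (contDiff_id.sub contDiff_const))).sub (contDiff_id.pow 2)))

theorem A1_pos (hm : L ^ 2 / 4 + 2 ≤ m) (hτ : τ ≤ 2) (h0 : 0 < t) (h1 : t < L / 2) :
    0 < deriv (A1 R L m τ) t := by
  have d1 := (hasDerivAt_id t).fun_pow 2
  have d2 := ((Real.smoothTransition.contDiff (n := 1)).differentiable one_ne_zero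
    (t - R)).hasDerivAt.comp_sub_const t R
  have d3 := ((cd_gam τ).differentiable (by simp) (t - L / 2)).hasDerivAt.comp_sub_const t (L / 2)
  have e := (d1.fun_add (d2.fun_mul ((d3.const_sub m).fun_sub d1))).deriv
  have a1 := Real.smoothTransition.monotone.deriv_nonneg (x := t - R)
  have a2 := Real.smoothTransition.nonneg (t - R)
  have a3 := Real.smoothTransition.le_one (t - R)
  have a4 : deriv (gam τ) (t - L / 2) < 0 :=
    neg_of_mul_pos_right (mul_deriv_pos hτ (sub_neg.2 h1).ne) (sub_neg.2 h1).le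
  have a5 : 0 ≤ m - gam τ (t - L / 2) - t ^ 2 := by nlinarith [gam_le hτ (t - L / 2)]
  refine lt_of_lt_of_eq ?_ e.symm
  have a6 := mul_nonneg a1 a5
  simp only [id]
  norm_num
  rcases a2.eq_or_lt with c | c
  · rw [← c]
    linarith
  · nlinarith [mul_pos c (neg_pos.2 a4), mul_nonneg (sub_nonneg.2 a3) h0.le]

theorem AA_eq (h0 : 0 ≤ t) (h1 : t ≤ L / 2) (hL : 0 < L) : AA R L m τ t = A1 R L m τ t := by
  rw [AA, Real.arccos_cos (by positivity), mul_div_cancel_left₀ _ (by positivity)]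
  rw [div_mul_eq_mul_div, div_le_iff₀ hL]
  nlinarith [Real.pi_pos]

theorem AA_even (t : ℝ) : AA R L m τ (-t) = AA R L m τ t := by simp [AA]

theorem AA_per (hL : 0 < L) (t : ℝ) (n : ℤ) : AA R L m τ (t + n * L) = AA R L m τ t := by
  rw [AA, AA, ← Real.cos_add_int_mul_two_pi (2 * π / L * t) n]
  congr 4
  field_simp

theorem AA_ctr (hL : 0 < L) (h : |y| ≤ L / 2) :
    AA R L m τ (L / 2 + y) = A1 R L m τ (L / 2 - |y|) := by
  rw [← AA_eq (sub_nonneg.2 h) (sub_le_self _ (abs_nonneg y)) hL]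
  rcases abs_choice y with e | e <;> rw [e]
  · rw [← AA_even, ← AA_per hL _ 1]
    congr 1
    push_cast
    ring
  · rw [sub_neg_eq_add]

theorem gam_abs (τ y : ℝ) : gam τ (L / 2 - |y| - L / 2) = gam τ y := by
  rw [sub_sub_cancel_left, gam_neg]
  rcases abs_choice y with e | e <;> rw [e]
  exact gam_neg τ y

theorem AA_top (hR : 27 ≤ R) (hL : 4 * R + 40 ≤ L) (h : |y| ≤ 6) :
    AA R L m τ (L / 2 + y) = m - gam τ y := by
  rw [AA_ctr (by linarith) (by linarith), A1, gam_abs,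
    Real.smoothTransition.one_of_one_le (by linarith)]
  ring

theorem AA_off (hL : 0 < L) (h : 3 ≤ |y|) (h' : |y| ≤ L / 2) (τ' : ℝ) :
    AA R L m τ (L / 2 + y) = AA R L m τ' (L / 2 + y) := by
  rw [AA_ctr hL h', AA_ctr hL h', A1, A1, gam_abs, gam_abs, gam_out _ h, gam_out _ h]

theorem pr_AA (hR : 27 ≤ R) (hL : 4 * R + 40 ≤ L) (hm : L ^ 2 / 4 + 2 ≤ m) (hτ : τ ≤ 2) :
    Pr R L (m - τ) (AA R L m τ) := by
  have h0 : 0 < L := by linarith
  have sq : ∀ t, |t| ≤ R → AA R L m τ t = t ^ 2 := fun t ht => by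
    have : AA R L m τ |t| = t ^ 2 := by
      rw [AA_eq (abs_nonneg t) (by linarith) h0, A1,
        Real.smoothTransition.zero_of_nonpos (sub_nonpos.2 ht), zero_mul, add_zero, sq_abs]
    rcases abs_choice t with e | e <;> rw [e] at this
    exacts [this, AA_even t ▸ this]
  have ev : ∀ t, 0 < t → t < L / 2 → AA R L m τ =ᶠ[𝓝 t] A1 R L m τ := fun t h1 h2 =>
    mem_of_superset (Ioo_mem_nhds h1 h2) fun s hs => AA_eq hs.1.le hs.2.le h0
  have s1 : ∀ t, 0 ≤ t → t ≤ L / 2 → ContDiffAt ℝ ∞ (AA R L m τ) t := fun t h1 h2 => by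
    rcases h1.eq_or_lt with rfl | h1
    · exact (contDiffAt_id.pow 2).congr_of_eventuallyEq (mem_of_superset
        (Icc_mem_nhds (a := -R) (b := R) (by linarith) (by linarith)) fun s hs => sq s (abs_le.2 hs))
    rcases h2.eq_or_lt with rfl | h2
    · refine ContDiffAt.congr_of_eventuallyEq (f := fun s => m - gam τ (s - L / 2))
        (contDiff_const.sub ((cd_gam τ).comp (contDiff_id.sub contDiff_const))).contDiffAt
        (mem_of_superset (Icc_mem_nhds (a := L / 2 - 6) (b := L / 2 + 6) (by linarith) (by linarith))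
          fun s hs => ?_)
      have := AA_top (m := m) (τ := τ) (y := s - L / 2) hR hL
        (abs_le.2 ⟨by linarith [hs.1], by linarith [hs.2]⟩)
      rwa [add_sub_cancel] at this
    · exact cd_A1.contDiffAt.congr_of_eventuallyEq (ev t h1 h2)
  refine ⟨contDiff_iff_contDiffAt.2 fun t => ?_, AA_per h0, AA_even, sq, fun t h1 h2 => ?_, ?_⟩
  · obtain ⟨u, n, h1, rfl⟩ := red h0 t
    have s2 : ContDiffAt ℝ ∞ (AA R L m τ) u := by
      rcases le_total 0 u with c | c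
      · exact s1 u c (abs_le.1 h1).2
      · rw [← funext AA_even]
        exact (s1 _ (neg_nonneg.2 c) (by linarith [(abs_le.1 h1).1])).comp u contDiffAt_id.neg
    rw [← funext (AA_per (R := R) (m := m) (τ := τ) h0 · (-n))]
    refine ContDiffAt.comp (g := AA R L m τ) _ ?_ (contDiffAt_id.add contDiffAt_const)
    simpa using s2
  · rw [(ev t h1 h2).deriv_eq]
    exact A1_pos hm hτ h1 h2
  · simpa [gam_zero] using AA_top (m := m) (τ := τ) (y := 0) hR hL (by simp)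

variable {T : Mf (Rn 2)} {p : E2 → T} {B : ℝ → ℝ} {top' : ℝ}

/-- a periodic function read on the torus -/
def dsc {β : Type} (p : E2 → T) (F : E2 → β) (z : T) : β := F (invFun p z)

theorem dsc_eq (h : Tor T p L) {β : Type} {F : E2 → β} (hF : ∀ v v', p v = p v' → F v = F v')
    (v : E2) : dsc p F (p v) = F v := hF _ _ (rightInverse_invFun h.sur _)

theorem red2 (h : Tor T p L) (hL : 0 < L) (a b : ℝ) (z : T) :
    ∃ u y, |u| ≤ L / 2 ∧ |y| ≤ L / 2 ∧ z = p !₂[a + u, b + y] := by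
  obtain ⟨v, rfl⟩ := h.sur z
  obtain ⟨u, n, h1, e1⟩ := red hL (v 0 - a)
  obtain ⟨y, k, h2, e2⟩ := red hL (v 1 - b)
  refine ⟨u, y, h1, h2, (h.eq _ _).2 (Fin.forall_fin_two.2 ⟨⟨n, ?_⟩, k, ?_⟩)⟩
  · simp only [Fin.isValue, Matrix.cons_val_zero]
    linarith
  · simp only [Fin.isValue, Matrix.cons_val_one, Matrix.cons_val_fin_one]
    linarith

/-- the sum of two profiles -/
def sm2 (p : E2 → T) (A B : ℝ → ℝ) : T → ℝ := dsc p fun v => A (v 0) + B (v 1)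

/-- the field in the plane -/
def fd (L : ℝ) (v : E2) : E2 := !₂[sn L (v 0), sn L (v 1)]

/-- the field on the torus -/
def fdT (p : E2 → T) (L : ℝ) : T → Rn 2 := dsc p fun v => Df (vs E2) T p v (fd L v)

theorem sm2_eq (h : Tor T p L) (hA : Pr R L top A) (hB : Pr R L top' B) (v : E2) :
    sm2 p A B (p v) = A (v 0) + B (v 1) := dsc_eq h (fun v v' e => by
  obtain ⟨n, h0⟩ := (h.eq _ _).1 e 0
  obtain ⟨k, h1⟩ := (h.eq _ _).1 e 1
  rw [eq_add_of_sub_eq' h0, eq_add_of_sub_eq' h1, hA.per, hB.per]) v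

theorem cd2 (hA : Pr R L top A) (hB : Pr R L top' B) :
    ContDiff ℝ ∞ fun v : E2 => A (v 0) + B (v 1) :=
  (hA.sm.comp (by fun_prop)).add (hB.sm.comp (by fun_prop))

theorem sm2_sm (h : Tor T p L) (hA : Pr R L top A) (hB : Pr R L top' B) :
    Sm T (vs ℝ) (sm2 p A B) univ := fun z _ => by
  obtain ⟨v, rfl⟩ := h.sur z
  refine (h.ld v).sm_of_comp ?_
  rw [funext (sm2_eq h hA hB)]
  exact smAt_vs.2 (cd2 hA hB).contDiffAt

theorem fdT_eq (h : Tor T p L) (hL : 0 < L) (v : E2) :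
    fdT p L (p v) = Df (vs E2) T p v (fd L v) := dsc_eq h (fun v v' e => by
  have e1 : p = fun x => p (x + (v' - v)) := funext fun x => (h.eq _ _).2 fun k => by
    simpa using (h.eq _ _).1 e k
  have e2 : fd L v = fd L v' := by
    obtain ⟨n, h0⟩ := (h.eq _ _).1 e 0
    obtain ⟨k, h1⟩ := (h.eq _ _).1 e 1
    rw [fd, eq_add_of_sub_eq' h0, eq_add_of_sub_eq' h1, sn_per hL, sn_per hL, fd]
  have e3 := Df_comp (X := vs E2) (Y := vs E2) (f := fun x => x + (v' - v)) (x := v)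
    (smAt_vs.2 (by fun_prop)) (h.ld _).sm
  rw [← e1, Df_vs, fderiv_add_const, fderiv_fun_id, add_sub_cancel] at e3
  rw [e3, e2]
  rfl) v

theorem fdT_vf (h : Tor T p L) (hL : 0 < L) (z : T) : VfAt T (fdT p L) z := by
  obtain ⟨v, rfl⟩ := h.sur z
  refine ((h.ld v).vfAt_iff (Eventually.of_forall fun y => (fdT_eq h hL y).symm)).1
    (vfAt_vs.2 (contDiffAt_euclidean.2 (Fin.forall_fin_two.2 ⟨?_, ?_⟩)))
  · exact ContDiffAt.sin (f := fun y : E2 => 2 * π / L * y 0) (by fun_prop)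
  · exact ContDiffAt.sin (f := fun y : E2 => 2 * π / L * y 1) (by fun_prop)

theorem sm2_Df (h : Tor T p L) (hL : 0 < L) (hA : Pr R L top A) (hB : Pr R L top' B) (v : E2) :
    Df T (vs ℝ) (sm2 p A B) (p v) (fdT p L (p v)) =
      deriv A (v 0) * sn L (v 0) + deriv B (v 1) * sn L (v 1) := by
  have e := Df_comp (h.ld v).sm (sm2_sm h hA hB _ trivial)
  have d : ∀ (k : Fin 2) (A : ℝ → ℝ), ContDiff ℝ ∞ A → HasFDerivAt (fun v : E2 => A (v k))
      (deriv A (v k) • EuclideanSpace.proj k) v := fun k A hA =>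
    (hA.differentiable (by simp) (v k)).hasDerivAt.comp_hasFDerivAt v
      (EuclideanSpace.proj (𝕜 := ℝ) k).hasFDerivAt
  rw [funext (sm2_eq h hA hB), Df_vs, ((d 0 A hA.sm).fun_add (d 1 B hB.sm)).fderiv] at e
  rw [fdT_eq h hL, ← ContinuousLinearMap.comp_apply, ← e]
  simp [fd]

theorem nsq2 (v : E2) : ‖v‖ ^ 2 = v 0 ^ 2 + v 1 ^ 2 := by
  simp [EuclideanSpace.norm_sq_eq]

end DatP

open DatP Loc in
theorem dat : DatStmt := fun R C L T p hR hL h => by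
  have h0 : 0 < L := by linarith
  have hR0 : 0 ≤ R := by linarith
  obtain ⟨M, hM⟩ : ∃ M, M = L ^ 2 / 4 := ⟨_, rfl⟩
  have hM1 : R ^ 2 ≤ M := by nlinarith
  obtain ⟨c, hc, hC⟩ : ∃ c, 2 * M + 100 ≤ c ∧ C + 2 * M < c :=
    ⟨2 * M + |C| + 100, by linarith [abs_nonneg C], by linarith [le_abs_self C]⟩
  have hM0 := sq_nonneg R
  have p1 : Pr R L (c + 2) (AA R L c (-2)) := by
    simpa using pr_AA (m := c) (τ := -2) hR hL (by linarith) (by norm_num)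
  have p2 : Pr R L (c - 2) (AA R L c 2) := pr_AA hR hL (by linarith) le_rfl
  have p3 : Pr R L (c / 2 + 3 - 2) (AA R L (c / 2 + 3) 2) := pr_AA hR hL (by linarith) le_rfl
  have p4 : Pr R L (M + 2 - 2) (AA R L (M + 2) 2) := pr_AA hR hL (by linarith) le_rfl
  obtain ⟨A, B, s, t, hA, hB, e⟩ : ∃ (A B : Fin 5 → ℝ → ℝ) (s t : Fin 5 → ℝ),
      (∀ n, Pr R L (s n) (A n)) ∧ (∀ n, Pr R L (t n) (B n)) ∧
      (A 0 = AA R L c (-2) ∧ A 1 = AA R L c (-2) ∧ A 2 = AA R L c 2 ∧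
        A 3 = AA R L (c / 2 + 3) 2) ∧ (B 0 = AA R L c (-2) ∧ B 1 = AA R L c 2 ∧ B 2 = AA R L c 2 ∧
        B 3 = AA R L (c / 2 + 3) 2) ∧
      (s 0 = c + 2 ∧ s 1 = c + 2 ∧ s 2 = c - 2 ∧ s 3 = c / 2 + 3 - 2 ∧ s 4 = M + 2 - 2) ∧
      t 0 = c + 2 ∧ t 1 = c - 2 ∧ t 2 = c - 2 ∧ t 3 = c / 2 + 3 - 2 ∧ t 4 = M + 2 - 2 :=
    ⟨![_, _, _, _, _], ![_, _, _, _, _], ![_, _, _, _, _], ![_, _, _, _, _],
      fun n => by fin_cases n; exacts [p1, p1, p2, p3, p4],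
      fun n => by fin_cases n; exacts [p1, p2, p2, p3, p4], ⟨rfl, rfl, rfl, rfl⟩,
      ⟨rfl, rfl, rfl, rfl⟩, ⟨rfl, rfl, rfl, rfl, rfl⟩, rfl, rfl, rfl, rfl, rfl⟩
  obtain ⟨⟨a0, a1, a2, a3⟩, ⟨b0, b1, b2, b3⟩, ⟨s0, s1, s2, s3, s4⟩, t0, t1, t2, t3, t4⟩ := e
  have ev : ∀ n v, sm2 p (A n) (B n) (p v) = A n (v 0) + B n (v 1) := fun n =>
    sm2_eq h (hA n) (hB n)
  have ev2 : ∀ n x y, sm2 p (A n) (B n) (p !₂[x, y]) = A n x + B n y := fun n x y => ev n _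
  have bd : ∀ n z, sm2 p (A n) (B n) z ≤ s n + t n := fun n z => by
    obtain ⟨v, rfl⟩ := h.sur z
    exact ev n v ▸ add_le_add ((hA n).bd hR0 h0 _).2 ((hB n).bd hR0 h0 _).2
  have qd : ∀ n v, ‖v‖ ≤ R → sm2 p (A n) (B n) (p v) = ‖v‖ ^ 2 := fun n v hv => by
    rw [ev, nsq2, (hA n).sq _ ((PiLp.norm_apply_le v 0).trans hv),
      (hB n).sq _ ((PiLp.norm_apply_le v 1).trans hv)]
  have hole : ∀ v : E2, |v 0| ≤ 6 → |v 1| ≤ 6 →
      sm2 p (A 3) (B 3) (p (ctr L + v)) = c + 2 - ‖v‖ ^ 2 := fun v h1 h2 => by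
    rw [ev, a3, b3, nsq2]
    change AA _ _ _ _ (L / 2 + v 0) + AA _ _ _ _ (L / 2 + v 1) = _
    rw [AA_top hR hL h1, AA_top hR hL h2, gam_two, gam_two]
    ring
  have sq6 : ∀ {top A} (u : ℝ), Pr R L top A → |u| ≤ 6 → A u = u ^ 2 := fun u hA hu =>
    hA.sq u (by linarith)
  have lo : ∀ {top A} (u : ℝ), Pr R L top A → 4 < |u| → |u| ≤ L / 2 → 16 ≤ A u :=
    fun u hA h1 h2 => by linarith [hA.lt (by norm_num) h1 h2, sq6 4 hA (by norm_num)]
  have hi : ∀ τ y, τ ≤ 2 → |y| < 3 → c - 11 ≤ AA R L c τ (L / 2 + y) := fun τ y h1 h2 => by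
    rw [AA_top hR hL (by linarith)]
    nlinarith [gam_le h1 y, sq_abs y, abs_nonneg y]
  have st := Real.smoothTransition.nonneg
  refine ⟨⟨c, fun n => sm2 p (A n) (B n),
    fun z => Real.smoothTransition ((sm2 p (A 3) (B 3) z - (c - 34)) / 11), fdT p L⟩,
    by linarith, fun n => sm2_sm h (hA n) (hB n),
    fun z _ => (sm2_sm h (hA 3) (hB 3) z trivial).vcomp
      (g := fun x => Real.smoothTransition ((x - (c - 34)) / 11))
      (Real.smoothTransition.contDiff.comp (by fun_prop)).contDiffAt,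
    fun z => ⟨st _, Real.smoothTransition.le_one _⟩, fdT_vf h h0, fun n v hv => ⟨qd n v hv, ?_⟩,
    fun n z r h1 h2 h3 => ?_, fun n v v' hv => ?_, fun u y h1 h2 => ?_, fun u y h1 h2 => ?_,
    fun z => ?_, fun z => ?_, hole, fun v hv => ?_, fun z hz => ?_, fun z => ?_, fun z => ?_,
    fun n z => ?_, fun z => ?_⟩ <;> dsimp only at *
  · refine Real.smoothTransition.zero_of_nonpos ?_
    rw [qd 3 v hv]
    nlinarith [norm_nonneg v]
  · obtain ⟨u, y, h4, h5, rfl⟩ := red2 h h0 0 0 z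
    rw [zero_add, zero_add] at h3 ⊢
    refine ⟨_, ?_, rfl⟩
    rw [ev2] at h3
    have k : ∀ {top A} (u : ℝ), Pr R L top A → |u| ≤ L / 2 → A u ≤ r ^ 2 → A u = u ^ 2 :=
      fun u hA h4 h5 => hA.sq u (le_of_not_gt fun k => by
        nlinarith [hA.lt hR0 k h4, hA.sq R (abs_of_nonneg hR0).le])
    rw [k u (hA n) h4 (by linarith [((hB n).bd hR0 h0 y).1]),
      k y (hB n) h5 (by linarith [sq_nonneg u])] at h3
    exact (abs_le_of_sq_le_sq' (by rw [nsq2]; exact h3) h1).2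
  · rw [ev, ev]
    exact add_le_add ((hA n).mono (hv 0).1 (hv 0).2) ((hB n).mono (hv 1).1 (hv 1).2)
  · rw [ev2, ev2, sq6 u (hA 0) h1, sq6 u (hA 1) h1, b0, b1, AA_top hR hL h2, AA_top hR hL h2]
    constructor <;> ring
  · rw [ev2, ev2, sq6 u (hB 1) h1, sq6 u (hB 2) h1, a1, a2, AA_top hR hL h2, AA_top hR hL h2]
    constructor <;> ring
  · obtain ⟨u, y, h1, h2, rfl⟩ := red2 h h0 0 (L / 2) z
    rw [zero_add, ev2, ev2, b0, b1]
    rcases le_or_gt 3 |y| with k | k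
    · exact Or.inl (by rw [a0, a1, AA_off h0 k h2])
    rcases le_or_gt |u| 4 with k' | k'
    · exact Or.inr (Or.inr ⟨u, y, k', k.le, rfl⟩)
    · exact Or.inr (Or.inl ⟨by linarith [lo u (hA 0) k' h1, hi (-2) y (by norm_num) k],
        by linarith [lo u (hA 1) k' h1, hi 2 y le_rfl k]⟩)
  · obtain ⟨y, u, h2, h1, rfl⟩ := red2 h h0 (L / 2) 0 z
    rw [zero_add, ev2, ev2, a1, a2]
    rcases le_or_gt 3 |y| with k | k
    · exact Or.inl (by rw [b1, b2, AA_off h0 k h2])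
    rcases le_or_gt |u| 4 with k' | k'
    · exact Or.inr (Or.inr ⟨u, y, k', k.le, rfl⟩)
    · exact Or.inr (Or.inl ⟨by linarith [lo u (hB 1) k' h1, hi (-2) y (by norm_num) k],
        by linarith [lo u (hB 2) k' h1, hi 2 y le_rfl k]⟩)
  · refine Real.smoothTransition.one_of_one_le ?_
    rw [hole v (by linarith [PiLp.norm_apply_le v 0, Real.norm_eq_abs (v 0)])
      (by linarith [PiLp.norm_apply_le v 1, Real.norm_eq_abs (v 1)])]
    nlinarith [norm_nonneg v]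
  · obtain ⟨u, y, h1, h2, rfl⟩ := red2 h h0 (L / 2) (L / 2) z
    have k : c - 34 < AA R L (c / 2 + 3) 2 (L / 2 + u) + AA R L (c / 2 + 3) 2 (L / 2 + y) := by
      rw [ev2, a3, b3] at hz
      exact lt_of_not_ge fun k => hz (Real.smoothTransition.zero_of_nonpos (by linarith))
    have k2 : ∀ u, |u| ≤ L / 2 → c / 2 - 35 < AA R L (c / 2 + 3) 2 (L / 2 + u) → |u| ≤ 6 :=
      fun u h1 h2 => le_of_not_gt fun k => by
        have h3 := AA_top (m := c / 2 + 3) (τ := 2) (y := -6) hR hL (by norm_num)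
        have h4 := p3.mono (t := L / 2 - |u|) (u := L / 2 + -6)
          (by rw [abs_of_nonneg (sub_nonneg.2 h1)]; linarith [le_abs_self (L / 2 + -6)])
          (by rw [abs_of_nonneg (by linarith)]; linarith)
        rw [gam_two] at h3
        rw [p3.ctr] at h2
        linarith
    refine ⟨!₂[u, y], k2 u h1 (by linarith [(p3.bd hR0 h0 (L / 2 + y)).2]),
      k2 y h2 (by linarith [(p3.bd hR0 h0 (L / 2 + u)).2]), congrArg p ?_⟩
    ext k
    fin_cases k <;> rfl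
  · rcases le_total (sm2 p (A 3) (B 3) z) (c - 23) with k | k
    · linarith [st ((sm2 p (A 3) (B 3) z - (c - 34)) / 11)]
    · rw [Real.smoothTransition.one_of_one_le (by linarith)]
      linarith [bd 3 z]
  · constructor <;> linarith [bd 4 z]
  · obtain ⟨v, rfl⟩ := h.sur z
    have k : ∀ {top A} (u : ℝ), Pr R L top A → 0 ≤ deriv A u * sn L u := fun u hA =>
      (tri hR0 h0 u).elim (fun e => by simp [e.1]) fun e => (e _ _ hA).le
    rw [sm2_Df h h0 (hA n) (hB n)]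
    exact add_nonneg (k _ (hA n)) (k _ (hB n))
  · obtain ⟨v, rfl⟩ := h.sur z
    have k : ∀ {top A} (u : ℝ), Pr R L top A → 0 ≤ deriv A u * sn L u := fun u hA =>
      (tri hR0 h0 u).elim (fun e => by simp [e.1]) fun e => (e _ _ hA).le
    simp only [fun n => sm2_Df h h0 (hA n) (hB n) v, ev]
    rcases tri hR0 h0 (v 0) with ⟨-, e⟩ | e
    swap
    · exact Or.inl fun n => add_pos_of_pos_of_nonneg (e _ _ (hA n)) (k _ (hB n))
    rcases tri hR0 h0 (v 1) with ⟨-, e'⟩ | e'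
    swap
    · exact Or.inl fun n => add_pos_of_nonneg_of_pos (k _ (hA n)) (e' _ _ (hB n))
    right
    rcases e with e | e <;> rcases e' with e' | e' <;>
      simp only [fun n => e _ _ (hA n), fun n => e' _ _ (hB n), Fin.forall_fin_succ,
        Fin.succ_zero_eq_one, Fin.succ_one_eq_two, Fin.reduceSucc, IsEmpty.forall_iff, s0, s1, s2,
        s3, s4, t0, t1, t2, t3, t4] <;> grind

end Pool.Agent.MP_e1dc65_gt.T

end
end MrgPart1

-- ======== part 2: formerly Pool.Agent.MP_e1dc65_gt.t4.InsB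
section MrgPart2

/-! PROJECT HC, part T4: repeating a local insertion, and composing insertions. -/

open scoped Topology
open Set Filter Function Topology

noncomputable section

namespace Pool.Agent.MP_e1dc65_gt.T4.Ins

variable {A P N Y Y' ι ι' Λ : Type} [TopologicalSpace A] [TopologicalSpace P] [TopologicalSpace N]
  [TopologicalSpace Y] [TopologicalSpace Y'] {q : Pat A P} {W : Set A} {e : ι → A → N}

/-- an insertion into the space itself with support `C` is repeated in disjoint copies of `O` -/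
theorem add [Nonempty Y] {g : Λ → N → Y} {O C : Set N} {α : N → N} {β : ι → P → N}
    (h : Ins q W univ e univ α β univ) (CO' : C ⊆ O) (eC : ∀ i, e i '' q.K ⊆ C)
    (fix : ∀ n ∉ C, α n = n) (eO : ∀ i, e i '' W ⊆ O) (t : ∀ l, TE (g l) O)
    (d : ∀ l l', ∀ n ∈ O, ∀ n' ∈ O, g l n = g l' n' → l = l') (cl : IsClosed (⋃ l, g l '' C)) :
    ∃ α' : Y → Y, Ins q W univ (fun (x : Λ × ι) w => g x.1 (e x.2 w)) univ α'
        (fun x p => g x.1 (β x.2 p)) univ ∧ (∀ y ∉ ⋃ l, g l '' C, α' y = y) ∧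
      (∀ y ∈ q.rest univ (fun (x : Λ × ι) w => g x.1 (e x.2 w)) univ,
        α' y = y ∨ ∃ l, y ∈ g l '' C ∧ α' y ∈ g l '' C) ∧ ∀ i, ∀ p ∈ q.KP, β i p ∈ C := by
  have nC : ∀ n ∉ C, n ∈ q.rest univ e univ := fun n hn =>
    Pat.mem_rest.2 ⟨trivial, fun i _ w hw c => hn (eC i ⟨w, hw, c⟩)⟩
  have aC : ∀ n ∈ q.rest univ e univ, n ∈ C → α n ∈ C := fun n hn hC => by
    by_contra c
    exact c ((h.ta.inj (nC _ c) hn (fix _ c)).symm ▸ hC)
  have bC : ∀ i, ∀ p ∈ q.KP, β i p ∈ C := fun i p hp => by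
    by_contra c
    exact h.sep i trivial p hp _ (nC _ c) (fix _ c)
  have aO : ∀ n ∈ q.rest univ e univ, n ∈ O → α n ∈ O := fun n hn hO => by
    by_cases c : n ∈ C
    exacts [CO' (aC n hn c), (fix n c).symm ▸ hO]
  have bO : ∀ i, MapsTo (β i) (q.dom W) O := by
    rintro i _ (⟨w, hw, rfl⟩ | hp)
    · rw [h.com i trivial w hw]; exact aO _ (h.off i trivial w hw) (eO i ⟨w, hw.1, rfl⟩)
    · exact CO' (bC i _ hp)
  obtain ⟨a, ha⟩ := exists_desc (fun y y' : Y => (∃ l, ∃ n ∈ O, g l n = y ∧ g l (α n) = y') ∨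
      ((∀ l, y ∉ g l '' O) ∧ y = y')) (by
    rintro y z z' (⟨l, n, hn, rfl, rfl⟩ | ⟨c, rfl⟩) (⟨l', n', hn', b, rfl⟩ | ⟨c', rfl⟩)
    · obtain rfl := d _ _ _ hn' _ hn b
      rw [(t _).inj hn' hn b]
    · exact (c' l ⟨n, hn, rfl⟩).elim
    · exact (c l' ⟨n', hn', b⟩).elim
    · rfl)
  have a1 : ∀ l, ∀ n ∈ O, a (g l n) = g l (α n) := fun l n hn => ha _ _ (Or.inl ⟨l, n, hn, rfl, rfl⟩)
  have a2 : ∀ y, (∀ l, y ∉ g l '' O) → a y = y := fun y c => ha _ _ (Or.inr ⟨c, rfl⟩)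
  have a3 : ∀ y ∉ ⋃ l, g l '' C, a y = y := fun y hy => by
    by_cases c : ∀ l, y ∉ g l '' O
    · exact a2 y c
    · obtain ⟨l, n, hn, rfl⟩ : ∃ l, y ∈ g l '' O := by simpa only [not_forall, not_not] using c
      rw [a1 l n hn, fix n fun c => hy (mem_iUnion.2 ⟨l, n, c, rfl⟩)]
  have r : ∀ l, ∀ n ∈ O, g l n ∈ q.rest univ (fun (x : Λ × ι) w => g x.1 (e x.2 w)) univ ↔
      n ∈ q.rest univ e univ := fun l n hn => by
    simp only [Pat.mem_rest, mem_univ, true_and, forall_true_left]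
    refine ⟨fun b i w hw c => b (l, i) w hw (by rw [c]), fun b x w hw c => ?_⟩
    have hO := CO' (eC x.2 ⟨w, hw, rfl⟩)
    obtain rfl := d _ _ _ hO _ hn c
    exact b x.2 w hw ((t _).inj hO hn c)
  have rC : ∀ y ∉ ⋃ l, g l '' C, y ∈ q.rest univ (fun (x : Λ × ι) w => g x.1 (e x.2 w)) univ :=
    fun y hy => Pat.mem_rest.2 ⟨trivial, fun x _ w hw c =>
      hy (mem_iUnion.2 ⟨x.1, _, eC x.2 ⟨w, hw, rfl⟩, c⟩)⟩
  have cs : ∀ y : Y, (∃ l, ∃ n ∈ O, g l n = y) ∨ ∀ l, y ∉ g l '' O := fun y => by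
    by_cases c : ∀ l, y ∉ g l '' O
    exacts [Or.inr c, Or.inl (by simpa only [not_forall, not_not, mem_image] using c)]
  refine ⟨a, ⟨⟨CO.of_local fun y hy => ?_, fun y hy y' hy' c => ?_⟩,
    fun x _ => (h.tb x.2 trivial).comp (t x.1) (bO x.2),
    fun x _ w hw => (r _ _ (eO _ ⟨w, hw.1, rfl⟩)).2 (h.off _ trivial w hw),
    fun x _ w hw => by rw [a1 _ _ (eO _ ⟨w, hw.1, rfl⟩), h.com _ trivial w hw],
    fun x _ p hp y hy c => ?_, fun x _ x' _ p hp p' hp' c => ?_,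
    cov_of (fun _ _ => trivial) (fun _ _ _ _ => trivial) fun y _ => ?_⟩, a3, fun y hy => ?_, bC⟩
  · by_cases c : y ∈ ⋃ l, g l '' C
    · obtain ⟨l, n, hn, rfl⟩ := mem_iUnion.1 c
      have o := h.ta.dom.inter (t l).dom
      refine ⟨g l '' (q.rest univ e univ ∩ O), ⟨n, ⟨(r l n (CO' hn)).1 hy, CO' hn⟩, rfl⟩, ?_,
        ((t l).toCO.mono o inter_subset_right).desc ((h.ta.toCO.mono o inter_subset_left).comp
          (t l).toCO fun n hn => aO n hn.1 hn.2) fun n hn => a1 l n hn.2⟩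
      rintro _ ⟨m, hm, rfl⟩
      exact (r l m hm.2).2 hm.1
    · exact ⟨(⋃ l, g l '' C)ᶜ, c, rC, (te_id cl.isOpen_compl).toCO.congr a3⟩
  · rcases cs y with ⟨l, n, hn, rfl⟩ | b <;> rcases cs y' with ⟨l', n', hn', rfl⟩ | b'
    · have h1 := (r l n hn).1 hy
      have h2 := (r l' n' hn').1 hy'
      rw [a1 l n hn, a1 l' n' hn'] at c
      obtain rfl := d _ _ _ (aO n h1 hn) _ (aO n' h2 hn') c
      rw [h.ta.inj h1 h2 ((t l).inj (aO n h1 hn) (aO n' h2 hn') c)]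
    · rw [a1 l n hn, a2 _ b'] at c
      exact (b' l ⟨_, aO n ((r l n hn).1 hy) hn, c⟩).elim
    · rw [a1 l' n' hn', a2 _ b] at c
      exact (b l' ⟨_, aO n' ((r l' n' hn').1 hy') hn', c.symm⟩).elim
    · rwa [a2 _ b, a2 _ b'] at c
  · have hb := bO x.2 (Or.inr hp)
    rcases cs y with ⟨l, n, hn, rfl⟩ | b
    · have h1 := (r l n hn).1 hy
      rw [a1 l n hn] at c
      obtain rfl := d _ _ _ (aO n h1 hn) _ hb c
      exact h.sep _ trivial p hp n h1 ((t _).inj (aO n h1 hn) hb c)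
    · rw [a2 _ b] at c
      exact b x.1 ⟨_, hb, c.symm⟩
  · have h1 := d _ _ _ (bO x.2 (Or.inr hp)) _ (bO x'.2 (Or.inr hp')) c
    rw [← h1] at c
    exact Prod.ext h1 (h.sep' _ trivial _ trivial p hp p' hp'
      ((t _).inj (bO x.2 (Or.inr hp)) (bO x'.2 (Or.inr hp')) c))
  · rcases cs y with ⟨l, n, hn, rfl⟩ | b
    · rcases h.cases (mem_univ n) with ⟨m, hm, rfl⟩ | ⟨i, -, p, hp, rfl⟩
      · have hO : m ∈ O := by
          by_contra c
          exact c (fix m (fun k => c (CO' k)) ▸ hn)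
        exact Or.inl ⟨_, (r l m hO).2 hm, a1 l m hO⟩
      · exact Or.inr ⟨(l, i), trivial, p, hp, rfl⟩
    · refine Or.inl ⟨y, rC y fun c => ?_, a2 y b⟩
      obtain ⟨l, n, hn, k⟩ := mem_iUnion.1 c
      exact b l ⟨n, CO' hn, k⟩
  · by_cases c : y ∈ ⋃ l, g l '' C
    · obtain ⟨l, n, hn, rfl⟩ := mem_iUnion.1 c
      exact Or.inr ⟨l, ⟨n, hn, rfl⟩, _, aC n ((r l n (CO' hn)).1 hy) hn, (a1 l n (CO' hn)).symm⟩
    · exact Or.inl (a3 y c)

/-- two insertions, one after the other -/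
theorem comp {N₀ : Set N} {α : N → Y} {β : ι → P → Y} {f : ι' → A → N} {e' : ι' → A → Y}
    {α' : Y → Y'} {β' : ι' → P → Y'} {Y₀ : Set Y'} (h : Ins q W univ e N₀ α β univ)
    (h' : Ins q W univ e' univ α' β' Y₀) (KW : q.K ⊆ W)
    (c : ∀ j, ∀ w ∈ W, f j w ∈ q.rest univ e N₀ ∧ e' j w = α (f j w))
    (d : ∀ i j, ∀ w ∈ W, ∀ w' ∈ q.K, e i w ≠ f j w') :
    Ins q W univ (Sum.elim e f) N₀ (fun n => α' (α n))
      (Sum.elim (fun i p => α' (β i p)) β') Y₀ ∧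
    (∀ n ∈ q.rest univ (Sum.elim e f) N₀, n ∈ q.rest univ e N₀ ∧ α n ∈ q.rest univ e' univ) ∧
    ∀ i, ∀ p ∈ q.dom W, β i p ∈ q.rest univ e' univ := by
  have r : q.rest univ (Sum.elim e f) N₀ = q.rest univ e N₀ ∩ α ⁻¹' q.rest univ e' univ := by
    ext n; constructor
    · intro hn
      obtain ⟨h1, h2⟩ := Pat.mem_rest.1 hn
      have h3 : n ∈ q.rest univ e N₀ := Pat.mem_rest.2 ⟨h1, fun i _ => h2 (Sum.inl i) trivial⟩
      refine ⟨h3, Pat.mem_rest.2 ⟨trivial, fun j _ w hw k => h2 (Sum.inr j) trivial w hw ?_⟩⟩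
      exact h.ta.inj (c j w (KW hw)).1 h3 ((c j w (KW hw)).2.symm.trans k)
    · rintro ⟨h1, h2⟩
      refine Pat.mem_rest.2 ⟨h1.1, ?_⟩
      rintro (i | j) - w hw k
      · exact (Pat.mem_rest.1 h1).2 i trivial w hw k
      · exact (Pat.mem_rest.1 h2).2 j trivial w hw ((c j w (KW hw)).2.trans (congrArg α k))
  have b : ∀ i, ∀ p ∈ q.dom W, β i p ∈ q.rest univ e' univ := by
    refine fun i p hp => Pat.mem_rest.2 ⟨trivial, fun j _ w' hw' k => ?_⟩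
    rw [(c j w' (KW hw')).2] at k
    rcases hp with ⟨w, hw, rfl⟩ | hp
    · rw [h.com i trivial w hw] at k
      exact d i j w hw.1 w' hw' (h.ta.inj (c j w' (KW hw')).1 (h.off i trivial w hw) k).symm
    · exact h.sep i trivial p hp _ (c j w' (KW hw')).1 k
  refine ⟨⟨?_, ?_, ?_, ?_, ?_, ?_, cov_of (fun n hn => h'.mem_a (r ▸ hn).2) ?_ fun y hy => ?_⟩,
    fun n hn => (r ▸ hn :), b⟩
  · rw [r]; exact (h.ta.mono (h.ta.pre h'.ta.dom) inter_subset_left).comp h'.ta fun _ hn => hn.2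
  · rintro (i | j) -
    exacts [(h.tb i trivial).comp h'.ta (b i), h'.tb j trivial]
  · rw [r]
    rintro (i | j) - w hw
    · exact ⟨h.off i trivial w hw, by
        rw [mem_preimage, Sum.elim_inl, ← h.com i trivial w hw]; exact b i _ (Pat.dom_φ hw)⟩
    · exact ⟨(c j w hw.1).1, by
        rw [mem_preimage, Sum.elim_inr, ← (c j w hw.1).2]; exact h'.off j trivial w hw⟩
  · rintro (i | j) - w hw
    · exact congrArg α' (h.com i trivial w hw)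
    · exact (h'.com j trivial w hw).trans (congrArg α' (c j w hw.1).2)
  · rw [r]
    rintro (i | j) - p hp n hn k
    · exact h.sep i trivial p hp n hn.1 (h'.ta.inj hn.2 (b i p (Or.inr hp)) k)
    · exact h'.sep j trivial p hp _ hn.2 k
  · rintro (i | j) - (i' | j') - p hp p' hp' k
    · rw [h.sep' i trivial i' trivial p hp p' hp'
        (h'.ta.inj (b i p (Or.inr hp)) (b i' p' (Or.inr hp')) k)]
    · exact (h'.sep j' trivial p' hp' _ (b i p (Or.inr hp)) k).elim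
    · exact (h'.sep j trivial p hp _ (b i' p' (Or.inr hp')) k.symm).elim
    · rw [h'.sep' j trivial j' trivial p hp p' hp' k]
  · rintro (i | j) - p hp
    exacts [h'.mem_a (b i p (Or.inr hp)), h'.mem_b trivial (Or.inr hp)]
  · rcases h'.cases hy with ⟨z, hz, rfl⟩ | ⟨j, -, p, hp, rfl⟩
    · rcases h.cases (mem_univ z) with ⟨n, hn, rfl⟩ | ⟨i, -, p, hp, rfl⟩
      exacts [Or.inl ⟨n, r ▸ ⟨hn, hz⟩, rfl⟩, Or.inr ⟨Sum.inl i, trivial, p, hp, rfl⟩]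
    · exact Or.inr ⟨Sum.inr j, trivial, p, hp, rfl⟩

end Pool.Agent.MP_e1dc65_gt.T4.Ins

end
end MrgPart2

-- ======== part 3: formerly Pool.Agent.MP_e1dc65_gt.t4.Spec2
section MrgPart3

/-! PROJECT HC, part T5: packages in the neck. Statement. -/

open scoped Topology Real
open Set Filter Function Module Metric Topology

noncomputable section

namespace Pool.Agent.MP_e1dc65_gt.T4

/-- the strip `|z 0| < 2πN` of `F₀ × ℝ²` inside the neck times a line -/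
def nk (D : TDat) {F₀ : Type} (j : F₀ → D.F) (N : ℕ) (w : F₀ × Z) : D.M × ℝ :=
  (D.ν (j w.1, 3 / (2 * π * N) * w.2 0), w.2 1)

/-- row MIDA: packages are put in at all cells of the strip -/
def MidAStmt : Prop :=
  ∀ (D : TDat) (F₀ : Mf V) (j : F₀ → D.F) (P : Mf (Rn 5)) (q : Pat (F₀ × Z) P) (W : Set (F₀ × Z))
    (r : ℝ) (N : ℕ), D.Ok → OE F₀ D.F j univ → (∀ m, j m ≠ D.e₀ q0) → Pkg F₀ P q → IsOpen W →
    q.K ⊆ W → (∀ w ∈ W, ‖w.2‖ < 1) → 0 < r → r ≤ 1 → 0 < N →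
    ∃ (α : D.M × ℝ → D.M × ℝ) (β : (Fin 2 → ℤ) → P → D.M × ℝ) (C : Set D.M), IsCompact C ∧
      C ⊆ (D.l '' (univ ×ˢ {0}))ᶜ ∧
      Ins q W {n : Fin 2 → ℤ | -(N : ℤ) ≤ n 0 ∧ n 0 < N} (fun n w => nk D j N (ez r n w)) univ α β univ ∧
      (∀ n : Fin 2 → ℤ, -(N : ℤ) ≤ n 0 → n 0 < N → ∀ w ∈ q.K, (nk D j N (ez r n w)).1 ∈ C) ∧
      (∀ y : D.M × ℝ, y.1 ∉ C → α y = y) ∧
      (∀ y ∈ q.rest {n : Fin 2 → ℤ | -(N : ℤ) ≤ n 0 ∧ n 0 < N} (fun n w => nk D j N (ez r n w)) univ,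
        (y.1 ∈ C → (α y).1 ∈ C) ∧ |(α y).2 - y.2| ≤ 2 * π) ∧
      ∀ n : Fin 2 → ℤ, -(N : ℤ) ≤ n 0 → n 0 < N → ∀ p ∈ q.KP,
        (β n p).1 ∈ C ∧ 2 * π * n 1 < (β n p).2 ∧ (β n p).2 < 2 * π * n 1 + 2 * π

end Pool.Agent.MP_e1dc65_gt.T4

end
end MrgPart3

-- ======== part 4: formerly Pool.Agent.MP_e1dc65_gt.t4.Mid
section MrgPart4

/-! PROJECT HC, part T5, row MID: the middle of the neck times a line is standard. -/

open scoped Topology Real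
open Set Filter Function Metric Topology

noncomputable section

namespace Pool.Agent.MP_e1dc65_gt.T4

namespace MidR
open CoreR

theorem zn_mem {r : ℝ} (r0 : 0 < r) (r1 : r ≤ 1) {z : Z} (hz : ‖z‖ < 1) (n : Fin 2 → ℤ)
    (i : Fin 2) : 2 * π * n i < zn r n z i ∧ zn r n z i < 2 * π * n i + 2 * π := by
  have h1 : |z i| < 1 := (norm_le_pi_norm z i).trans_lt hz
  have h2 : |r * z i| < 1 := by rw [abs_mul, abs_of_pos r0]; nlinarith [abs_nonneg (z i)]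
  have := abs_lt.1 h2
  have := Real.two_le_pi
  simp only [zn, zc, Pi.add_apply, Pi.smul_apply, smul_eq_mul]
  constructor <;> linarith

theorem strip {r : ℝ} (r0 : 0 < r) (r1 : r ≤ 1) {z : Z} (hz : ‖z‖ < 1) (n : Fin 2 → ℤ) (N : ℕ) :
    |zn r n z 0| < 2 * π * N ↔ -(N : ℤ) ≤ n 0 ∧ n 0 < N := by
  obtain ⟨a, b⟩ := zn_mem r0 r1 hz n 0
  have p := Real.pi_pos
  rw [abs_lt]
  constructor
  · rintro ⟨c, d⟩
    have h1 : -(N : ℝ) < n 0 + 1 := by nlinarith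
    have h2 : (n 0 : ℝ) < N := by nlinarith
    have h3 : -(N : ℤ) < n 0 + 1 := by exact_mod_cast h1
    exact ⟨by omega, by exact_mod_cast h2⟩
  · rintro ⟨c, d⟩
    have h1 : -(N : ℝ) ≤ n 0 := by exact_mod_cast c
    have h2 : (n 0 : ℝ) + 1 ≤ N := by exact_mod_cast d
    constructor <;> nlinarith

variable {D : TDat}

/-- the neck times a line, in stretched coordinates -/
def hh (D : TDat) (δ : ℝ) (p : D.F × Z) : D.M × ℝ := (D.ν (p.1, δ * p.2 0), p.2 1)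

theorem te_nu (hD : D.Ok) : TE (X := D.F × ℝ) D.ν univ := te_of_oe hD.neck

theorem te_hh (hD : D.Ok) {δ : ℝ} (h : δ ≠ 0) : TE (hh D δ) univ := by
  have k : TE (fun p : D.F × Z => ((p.1, δ * p.2 0), p.2 1)) univ :=
    te_of_inv (k := fun q : (D.F × ℝ) × ℝ => (q.1.1, ![δ⁻¹ * q.1.2, q.2])) isOpen_univ isOpen_univ
      (by fun_prop) (by fun_prop) (mapsTo_univ _ _)
      (fun x _ => Prod.ext rfl (by ext i; fin_cases i <;> simp [h])) fun _ _ => by simp [h]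
  exact k.comp ((te_nu hD).prod (te_id isOpen_univ)) fun _ _ => ⟨trivial, trivial⟩

theorem nsq0 : nsq (0 : V) < 1 := by simp [nsq]

theorem l0 (hD : D.Ok) {θ : ℝ} (h : |θ| < 3) : D.l (θ, 0) = D.ν (D.e₀ q0, θ) := by
  simpa using hD.str θ 0 h nsq0

theorem nu_core (hD : D.Ok) {m : D.F} (hm : m ≠ D.e₀ q0) {θ : ℝ} (h : |θ| < 3) :
    D.ν (m, θ) ∉ D.l '' (univ ×ˢ {0}) := by
  rintro ⟨⟨t, v⟩, ⟨-, hv⟩, e⟩
  obtain rfl : v = 0 := hv
  obtain ⟨t', h1, h2, k, e'⟩ := red8 t 3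
  rcases le_or_gt t' 5 with c | c
  · exact hD.off t' 0 h1 c nsq0 ⟨(m, θ), ⟨trivial, abs_lt.1 h⟩, e.symm.trans (per hD.tl nsq0 e')⟩
  · rw [per hD.tl (θ' := t' - 8) nsq0 (m := k + 1) (by push_cast; linarith),
      l0 hD (abs_lt.2 ⟨by linarith, by linarith⟩)] at e
    exact hm (congrArg Prod.fst ((te_nu hD).inj trivial trivial e)).symm

theorem cont_l (hD : D.Ok) (θ : ℝ) : ContinuousAt D.l (θ, 0) := (hD.tl.ld θ 0 nsq0).sm.cont

theorem open_A (hD : D.Ok) : IsOpen (D.l '' (univ ×ˢ {0}))ᶜ := by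
  have : D.l '' (univ ×ˢ {0}) = (fun θ => D.l (θ, 0)) '' Icc 0 8 := by
    ext y; constructor
    · rintro ⟨⟨t, v⟩, ⟨-, hv⟩, rfl⟩
      obtain rfl : v = 0 := hv
      obtain ⟨t', h1, h2, k, e'⟩ := red8 t 0
      exact ⟨t', ⟨h1, by linarith⟩, (per hD.tl nsq0 e').symm⟩
    · rintro ⟨t, -, rfl⟩
      exact ⟨(t, 0), ⟨trivial, rfl⟩, rfl⟩
  rw [this]
  exact (isCompact_Icc.image (continuous_iff_continuousAt.2 fun θ =>
    (cont_l hD θ).comp (f := fun θ : ℝ => (θ, (0 : V))) (by fun_prop))).isClosed.isOpen_compl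

theorem exists_R (hD : D.Ok) {C : Set D.M} (hC : IsCompact C) (s : C ⊆ (D.l '' (univ ×ˢ {0}))ᶜ) :
    ∃ R, 1 ≤ R ∧ ∀ θ w, R < nsq w → D.l (θ, inv w) ∉ C := by
  have : ∀ᶠ v in 𝓝 (0 : V), ∀ θ ∈ Icc (0 : ℝ) 8, D.l (θ, v) ∉ C :=
    isCompact_Icc.eventually_forall_of_forall_eventually fun θ _ =>
      ((cont_l hD θ).comp (f := Prod.swap) (x := (0, θ)) continuous_swap.continuousAt).eventually
        (hC.isClosed.isOpen_compl.mem_nhds fun k => s k ⟨(θ, 0), ⟨trivial, rfl⟩, rfl⟩)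
  obtain ⟨η, h0, h1⟩ := Metric.eventually_nhds_iff.1 this
  refine ⟨max 1 (η ^ 2)⁻¹, le_max_left _ _, fun θ w hw => ?_⟩
  have a := (le_max_left _ _).trans_lt hw
  have b := (le_max_right _ _).trans_lt hw
  obtain ⟨t', h2, h3, k, e'⟩ := red8 θ 0
  rw [per hD.tl (inv_small a).2 e']
  refine h1 ?_ t' ⟨h2, by linarith⟩
  rw [dist_zero_right, pi_norm_lt_iff h0]
  intro i
  refine abs_lt_of_sq_lt_sq ((Finset.single_le_sum (f := fun i => inv w i ^ 2)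
    (fun _ _ => sq_nonneg _) (Finset.mem_univ i)).trans_lt ?_) h0.le
  show nsq (inv w) < _
  rw [nsq_inv (by linarith)]
  exact inv_lt_of_inv_lt₀ (by positivity) b

section Strip
variable {F₀ P : Type} [TopologicalSpace F₀] [TopologicalSpace P] {j : F₀ → D.F} {κ : F₀ → V}
  {q : Pat (F₀ × Z) P} {x : Ctl} {W : Set (F₀ × Z)} {ζ : P → V × Z} {ρ r : ℝ}
  {a : F₀ × Z → x.Y} {b : (Fin 2 → ℤ) → P → x.Y} {N : ℕ}

theorem cases_S (h : Pres x q W ζ κ ρ r a b) {y : x.Y} (hy : |(x.pj y).2 0| < 2 * π * N) :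
    (∃ w ∈ q.rest univ (ez r) univ, |w.2 0| < 2 * π * N ∧ a w = y) ∨
      ∃ n : Fin 2 → ℤ, (-(N : ℤ) ≤ n 0 ∧ n 0 < N) ∧ ∃ p ∈ q.KP, b n p = y := by
  rcases h.ins.cases (mem_univ y) with ⟨w, hw, rfl⟩ | ⟨n, -, p, hp, rfl⟩
  · rw [h.pa w hw] at hy
    exact Or.inl ⟨w, hw, hy, rfl⟩
  · rw [h.pb n p hp] at hy
    exact Or.inr ⟨n, (strip h.r0 h.r1 (h.ζb p hp).2 n N).1 hy, p, hp, rfl⟩

theorem exists_b {Y : Type} [TopologicalSpace Y] [Nonempty Y] {f : F₀ × Z → Y} {α : Y → Y}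
    {β : (Fin 2 → ℤ) → P → Y} (h : Pres x q W ζ κ ρ r a b) (t : TE f univ)
    (k : Ins q W {n : Fin 2 → ℤ | -(N : ℤ) ≤ n 0 ∧ n 0 < N} (fun n w => f (ez r n w)) univ α β
      univ) :
    ∃ g : x.Y → Y, TE g {y | |(x.pj y).2 0| < 2 * π * N} ∧
      (∀ w : F₀ × Z, |w.2 0| < 2 * π * N → (w ∈ q.rest univ (ez r) univ ↔
        f w ∈ q.rest {n : Fin 2 → ℤ | -(N : ℤ) ≤ n 0 ∧ n 0 < N} (fun n w => f (ez r n w)) univ)) ∧
      (∀ w ∈ q.rest univ (ez r) univ, |w.2 0| < 2 * π * N → g (a w) = α (f w)) ∧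
      ∀ n : Fin 2 → ℤ, -(N : ℤ) ≤ n 0 ∧ n 0 < N → ∀ p ∈ q.KP, g (b n p) = β n p := by
  have oS : IsOpen {w : F₀ × Z | |w.2 0| < 2 * π * N} := isOpen_lt (by fun_prop) continuous_const
  obtain ⟨i₁, r₁⟩ := k.pull (σ := id) (e' := ez r) h.KW (t.mono oS (subset_univ _))
    (mapsTo_univ _ _) (mapsTo_id _) (injOn_id _)
    (fun n hn w hw => ⟨(strip h.r0 h.r1 (h.W1 w hw) n N).2 hn, rfl⟩)
    fun n hn c => (c ⟨n, hn, rfl⟩).elim
  obtain ⟨i₂, r₂⟩ := h.ins.pull (σ := id) (e' := ez r)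
    (J' := {n : Fin 2 → ℤ | -(N : ℤ) ≤ n 0 ∧ n 0 < N}) h.KW (te_id oS) (mapsTo_univ _ _)
    (mapsTo_univ _ _) (injOn_id _)
    (fun n hn w hw => ⟨(strip h.r0 h.r1 (h.W1 w hw) n N).2 hn, rfl⟩)
    fun n _ c w hw u hu e => c ⟨n, (strip h.r0 h.r1 (h.W1 w (h.KW hw)) n N).1 (e ▸ hu :
      ez r n w ∈ {w : F₀ × Z | |w.2 0| < 2 * π * N}), rfl⟩
  obtain ⟨g, g1, -, g2, g3⟩ := i₂.uniq i₁
  refine ⟨g, g1.mono (isOpen_lt (by have := x.cont; fun_prop) continuous_const) fun y hy => ?_,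
    fun w hw => ⟨fun c => ((r₂.symm.trans r₁).subset ⟨hw, c⟩).2,
      fun c => ((r₁.symm.trans r₂).subset ⟨hw, c⟩).2⟩,
    fun w hw hs => g2 w (r₂ ▸ ⟨hs, hw⟩), fun n hn p hp => g3 n hn p (Or.inr hp)⟩
  rcases cases_S h hy with ⟨w, hw, hs, rfl⟩ | ⟨n, hn, p, hp, rfl⟩
  exacts [i₂.mem_a (r₂ ▸ ⟨hs, hw⟩), i₂.mem_b hn (Or.inr hp)]

end Strip

end MidR

open CoreR MidR in
theorem mid (hA : MidAStmt) : MidStmt := by
  intro D F₀ j κ σ th' th P q x W ζ ρ r a b hD hj hκ hE hP hx ⟨R₀, ε, ε0, Ψ, hΨ⟩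
  have pi0 := Real.pi_pos
  have c0 : cq D.e₀ 0 = D.e₀ q0 := by simp [cq]
  obtain ⟨N, hN⟩ := exists_nat_gt (3 * ε / (2 * π))
  have hL : 3 * ε < 2 * π * N := by rwa [div_lt_iff₀ (by positivity), mul_comm (N : ℝ)] at hN
  have L0 : 0 < 2 * π * N := by linarith
  have N0 : 0 < N := Nat.pos_of_ne_zero fun c => by simp [c] at L0
  obtain ⟨α, β, C, hC, CA, ins, -, fix, mv, bC⟩ :=
    hA D F₀ j P q W r N hD hj (c0 ▸ hE.ne) hP hx.Wo hx.KW hx.W1 hx.r0 hx.r1 N0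
  obtain ⟨δ, hδ⟩ : ∃ δ, δ = 3 / (2 * π * N) := ⟨_, rfl⟩
  have δ0 : 0 < δ := by rw [hδ]; positivity
  have δL : δ * (2 * π * N) = 3 := by rw [hδ]; field_simp
  have enk : ∀ w, nk D j N w = hh D δ (j w.1, w.2) := fun w => by rw [hδ]; rfl
  have th0 := te_hh hD δ0.ne'
  have tn : TE (nk D j N) univ := ((((te_of_oe hj).prod (te_id isOpen_univ)).mono isOpen_univ
    fun _ _ => ⟨trivial, trivial⟩).comp th0 (mapsTo_univ _ _)).congr fun w _ => enk w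
  obtain ⟨g, tg, gr, ga, gb⟩ := exists_b hx tn ins
  obtain ⟨L, eL⟩ : ∃ L, L = 2 * π * N := ⟨_, rfl⟩
  have cS := fun y => cases_S (N := N) (y := y) hx
  rw [← eL] at hL L0 δL tg gr ga cS
  have tα := ins.ta
  have cov := fun y => ins.cases (mem_univ y)
  have sep := ins.sep
  have memR : ∀ m z, (∀ w ∈ q.K, j w.1 ≠ m) → hh D δ (m, z) ∈ _ := fun m z c =>
    (Pat.mem_rest (q := q) (J := {n : Fin 2 → ℤ | -(N : ℤ) ≤ n 0 ∧ n 0 < N})
      (e := fun n w => nk D j N (ez r n w)) (N₀ := univ)).2 ⟨trivial, fun n _ w hw e =>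
      c w hw (congrArg Prod.fst (th0.inj trivial trivial ((enk _).symm.trans e)))⟩
  obtain ⟨RM, eR⟩ : ∃ RM, RM = q.rest {n : Fin 2 → ℤ | -(N : ℤ) ≤ n 0 ∧ n 0 < N}
    (fun n w => nk D j N (ez r n w)) univ := ⟨_, rfl⟩
  rw [← eR] at mv gr tα cov sep memR
  simp only [enk] at gr ga
  clear ins eR tn
  obtain ⟨B, hB⟩ := hP.ok.cpt.exists_bound_of_continuousOn
    (hκ.cont.comp continuous_fst).continuousOn
  obtain ⟨R₁, b0, b1, b2, b3⟩ : ∃ R₁, R₀ ≤ R₁ ∧ ρ ≤ R₁ ∧ 1 ≤ R₁ ∧ B ≤ R₁ :=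
    ⟨max (max R₀ ρ) (max 1 B), by simp, by simp, by simp, by simp⟩
  have cT : IsCompact (th' '' closedBall 0 R₁) :=
    (isCompact_closedBall _ _).image (continuousOn_univ.1 hE.te'.cont)
  obtain ⟨Dt, eD⟩ : ∃ Dt, Dt = {cq D.e₀ 0}ᶜ \ j '' {m | ‖κ m‖ ≤ 1} := ⟨_, rfl⟩
  obtain ⟨Rf, hf⟩ := hE.far
  have tt := hE.te
  have im := hE.img
  rw [← eD] at hf tt im
  have jD : ∀ m, j m ∈ Dt ↔ 1 < ‖κ m‖ := fun m => by
    rw [eD]
    exact ⟨fun c => lt_of_not_ge fun k => c.2 ⟨m, k, rfl⟩, fun c => ⟨hE.ne m,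
      fun ⟨m', k, e⟩ => absurd (hj.inj trivial trivial e ▸ k : ‖κ m‖ ≤ 1) (not_le.2 c)⟩⟩
  have Dq : ∀ m ∈ Dt, m ≠ D.e₀ q0 := fun m c => by rw [eD] at c; exact c0 ▸ c.1
  obtain ⟨U, eU⟩ : ∃ U : Set (D.F × Z), U = (Dt ∩ th ⁻¹' (th' '' closedBall 0 R₁)ᶜ) ×ˢ
    {z | |z 0| < L} := ⟨_, rfl⟩
  have oU : IsOpen U := eU ▸ (tt.pre cT.isClosed.isOpen_compl).prod
    (isOpen_lt (by fun_prop) continuous_const)
  have mU : ∀ m z, (m, z) ∈ U ↔ (m ∈ Dt ∧ th m ∉ th' '' closedBall 0 R₁) ∧ |z 0| < L :=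
    fun m z => by rw [eU]; rfl
  have UR : MapsTo (hh D δ) U RM := fun p hp => memR p.1 p.2 fun w hw e => by
    obtain ⟨⟨h1, h2⟩, -⟩ := (mU p.1 p.2).1 hp
    rw [← e] at h1 h2
    exact h2 ⟨κ w.1, mem_closedBall_zero_iff.2 ((hB w hw).trans b3),
      (hE.com _ ((jD _).1 h1)).symm⟩
  have Ψe : ∀ y, R₁ < ‖(x.pj y).1‖ ∨ R₁ < ‖(Ψ y).1‖ → Ψ y = x.pj y := fun y c =>
    (hΨ y).elim Eq.symm fun k => by
      have k1 := mem_closedBall_zero_iff.1 k.1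
      have k2 : ‖(Ψ y).1‖ ≤ R₀ := mem_closedBall_zero_iff.1 k.2.1
      rcases c with c | c <;> linarith
  have Ψd : ∀ y i, |(x.pj y).2 i - (Ψ y).2 i| ≤ ε := fun y i => by
    refine (hΨ y).elim (fun k => ?_) fun k => (dist_le_pi_dist _ _ i).trans k.2.2
    rw [k]; simpa [one] using ε0
  have nb : ∀ u : V, th' u ∉ th' '' closedBall 0 R₁ → R₁ < ‖u‖ := fun u c =>
    lt_of_not_ge fun k => c ⟨u, mem_closedBall_zero_iff.2 k, rfl⟩
  obtain ⟨Φ, tΦ, Φ1, Φ2⟩ := glue2 (g₁ := fun y => (th' (Ψ y).1, (Ψ y).2)) tg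
    ((te_homeo Ψ tg.dom).comp (hE.te'.prod (te_id isOpen_univ)) fun _ _ => ⟨trivial, trivial⟩)
    ((th0.mono oU (subset_univ _)).comp tα UR)
    ((tt.prod (te_id isOpen_univ)).mono oU fun p hp => ⟨((mU p.1 p.2).1 hp).1.1, trivial⟩) (by
      rintro y hy ⟨m, z⟩ hp
      obtain ⟨⟨h1, h2⟩, h3⟩ := (mU m z).1 hp
      constructor
      · intro e
        rcases cS y hy with ⟨w, hw, hs, rfl⟩ | ⟨n, hn, p, hp', rfl⟩
        · rw [ga w hw hs] at e
          obtain ⟨rfl, rfl⟩ := Prod.mk.inj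
            (th0.inj trivial trivial (tα.inj ((gr w hs).1 hw) (UR hp) e))
          have k := hE.com _ ((jD _).1 h1)
          rw [Ψe _ (Or.inl (by rw [hx.pa w hw]; exact nb _ (k ▸ h2))), hx.pa w hw]
          exact Prod.ext k.symm rfl
        · rw [gb n hn p hp'] at e
          exact (sep n hn p hp' _ (UR hp) e.symm).elim
      · intro e
        obtain ⟨e1, e2⟩ : th' (Ψ y).1 = th m ∧ (Ψ y).2 = z := Prod.mk.inj e
        have k := nb _ (e1 ▸ h2)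
        have k' := Ψe y (Or.inr k)
        rw [k'] at k e1 e2
        rcases cS y hy with ⟨w, hw, hs, rfl⟩ | ⟨n, hn, p, hp', rfl⟩
        · rw [hx.pa w hw] at k e1 e2
          have k1 : 1 < ‖κ w.1‖ := b2.trans_lt k
          obtain rfl := tt.inj ((jD _).2 k1) h1 ((hE.com _ k1).trans e1)
          subst e2
          exact ga w hw hs
        · rw [hx.pb n p hp'] at k
          exact absurd ((hx.ζb p hp').1.trans b1) (not_le.2 k))
  obtain ⟨Y, eY⟩ : ∃ Y, Y = g '' {y | |(x.pj y).2 0| < L} ∪ (fun p => α (hh D δ p)) '' U :=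
    ⟨_, rfl⟩
  rw [← eY] at tΦ
  have Y1 : ∀ y, |(x.pj y).2 0| < L → g y ∈ Y := fun y hy => eY ▸ Or.inl ⟨y, hy, rfl⟩
  have Y2 : ∀ p ∈ U, α (hh D δ p) ∈ Y := fun p hp => eY ▸ Or.inr ⟨p, hp, rfl⟩
  -- the three kinds of points of `Y`
  have cY : ∀ y ∈ Y, (∃ m z, m ≠ D.e₀ q0 ∧ |z 0| < L ∧ hh D δ (m, z) ∈ RM ∧ α (hh D δ (m, z)) = y ∧
      ∀ i, |z i - (Φ y).2 i| ≤ ε) ∨ (y.1 ∈ C ∧ y ∉ α '' RM ∧ |y.2 - (Φ y).2 1| ≤ 2 * π + ε) := by
    rw [eY]
    rintro _ (⟨y, hy, rfl⟩ | ⟨⟨m, z⟩, hp, rfl⟩)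
    · rw [Φ1 y hy]
      rcases cS y hy with ⟨w, hw, hs, rfl⟩ | ⟨n, hn, p, hp', rfl⟩
      · refine Or.inl ⟨j w.1, w.2, c0 ▸ hE.ne _, hs, (gr w hs).1 hw, (ga w hw hs).symm, fun i => ?_⟩
        simpa only [hx.pa w hw] using Ψd (a w) i
      · rw [gb n hn p hp']
        obtain ⟨k1, k2, k3⟩ := bC n hn.1 hn.2 p hp'
        refine Or.inr ⟨k1, fun ⟨u, hu, e⟩ => sep n hn p hp' u hu e, ?_⟩
        have k4 := abs_le.1 (Ψd (b n p) 1)
        obtain ⟨k5, k6⟩ := zn_mem hx.r0 hx.r1 (hx.ζb p hp').2 n 1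
        rw [hx.pb n p hp'] at k4
        exact abs_le.2 ⟨by linarith [k4.1], by linarith [k4.2]⟩
    · obtain ⟨⟨h1, -⟩, h3⟩ := (mU m z).1 hp
      refine Or.inl ⟨m, z, Dq m h1, h3, UR hp, rfl, fun i => ?_⟩
      rw [Φ2 _ hp]; simpa using ε0
  have δ3 : ∀ t : ℝ, |t| < L ↔ |δ * t| < 3 := fun t => by
    rw [abs_mul, abs_of_pos δ0, ← δL, mul_lt_mul_iff_right₀ δ0]
  have αA : ∀ u ∈ RM, u.1 ∉ D.l '' (univ ×ˢ {0}) → (α u).1 ∉ D.l '' (univ ×ˢ {0}) :=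
    fun u hu c => by
      by_cases k : u.1 ∈ C
      exacts [CA ((mv u hu).1 k), (fix u k).symm ▸ c]
  have YA : ∀ y ∈ Y, y.1 ∉ D.l '' (univ ×ˢ {0}) := fun y hy => by
    rcases cY y hy with ⟨m, z, h1, h2, h3, rfl, -⟩ | k
    exacts [αA _ h3 (nu_core hD h1 ((δ3 _).1 h2)), CA k.1]
  -- the image of `Φ`
  have sur : ∀ u : V × Z, |u.2 0| < 2 * L / 3 → u ∈ Φ '' Y := fun u hu => by
    by_cases k : u.1 ∈ th' '' closedBall 0 R₁
    · obtain ⟨v, -, e⟩ := k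
      have k1 := Ψd (Ψ.symm (v, u.2)) 0
      rw [Ψ.apply_symm_apply] at k1
      have k2 : |(x.pj (Ψ.symm (v, u.2))).2 0| < L := by
        have := abs_sub_abs_le_abs_sub ((x.pj (Ψ.symm (v, u.2))).2 0) (u.2 0)
        linarith [show |(x.pj (Ψ.symm (v, u.2))).2 0 - u.2 0| ≤ ε from k1]
      refine ⟨_, Y1 _ k2, ?_⟩
      rw [Φ1 _ k2, Ψ.apply_symm_apply]
      exact Prod.ext e rfl
    · obtain ⟨m, hm, e⟩ : u.1 ∈ th '' Dt :=
        im ▸ fun c => k (image_mono (closedBall_subset_closedBall b2) c)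
      have hp := (mU m u.2).2 ⟨⟨hm, e ▸ k⟩, by linarith⟩
      exact ⟨_, Y2 _ hp, (Φ2 _ hp).trans (Prod.ext e rfl)⟩
  obtain ⟨sc, esc⟩ : ∃ sc : V × Z → V × Z, ∀ u, sc u = (u.1, ![δ⁻¹ * u.2 0, u.2 1]) :=
    ⟨_, fun _ => rfl⟩
  have tsc : TE sc univ :=
    (te_of_inv (f := fun u : V × Z => (u.1, ![δ⁻¹ * u.2 0, u.2 1]))
      (k := fun u : V × Z => (u.1, ![δ * u.2 0, u.2 1])) isOpen_univ isOpen_univ (by fun_prop) (by fun_prop) (mapsTo_univ _ _)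
      (fun x _ => Prod.ext rfl (by ext i; fin_cases i <;> simp [δ0.ne']))
      fun x _ => Prod.ext rfl (by ext i; fin_cases i <;> simp [δ0.ne'])).congr fun u _ => esc u
  have sc0 : ∀ u, |(sc u).2 0| = L / 3 * |u.2 0| := fun u => by
    have : δ⁻¹ = L / 3 := inv_eq_of_mul_eq_one_right (by linarith)
    rw [esc, this]
    exact (abs_mul _ _).trans (by rw [abs_of_pos (by positivity)])
  have ms : MapsTo sc {u | |u.2 0| < 2} (Φ '' Y) := fun u hu => sur _ (by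
    rw [sc0]; nlinarith [show |u.2 0| < 2 from hu])
  obtain ⟨γ, eγ⟩ : ∃ γ : V × Z → D.M × ℝ, γ = fun u => invFunOn Φ Y (sc u) := ⟨_, rfl⟩
  have γ1 : ∀ u : V × Z, |u.2 0| < 2 → γ u ∈ Y ∧ Φ (γ u) = sc u := fun u hu =>
    eγ ▸ invFunOn_pos (ms hu)
  have γ2 : ∀ y ∈ Y, ∀ u, Φ y = sc u → γ u = y := fun y hy u e => by
    rw [eγ]; dsimp only; rw [← e, tΦ.left hy]
  obtain ⟨Rc, c1, hc⟩ := exists_R hD hC CA
  obtain ⟨Rt, ht⟩ := cT.bddAbove_image (f := nsq) (by unfold nsq; fun_prop)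
  obtain ⟨R, d1, d2, d3⟩ : ∃ R, Rc ≤ R ∧ Rf ≤ R ∧ Rt ≤ R :=
    ⟨max Rc (max Rf Rt), by simp, by simp, by simp⟩
  have far : ∀ θ w t, |θ| < 3 → R < nsq w →
      (D.l (θ, inv w), t) ∈ Y ∧ Φ (D.l (θ, inv w), t) = sc (w, ![θ, t]) := fun θ w t hθ hw => by
    obtain ⟨k1, k2⟩ := hf w (d2.trans_lt hw)
    have k3 : δ * (δ⁻¹ * θ) = θ := mul_inv_cancel_left₀ δ0.ne' θ
    have hp := (mU _ ![δ⁻¹ * θ, t]).2 ⟨⟨k1, fun c => absurd (ht ⟨_, k2 ▸ c, rfl⟩)
      (not_le.2 (d3.trans_lt hw))⟩, (δ3 (δ⁻¹ * θ)).2 (k3.symm ▸ hθ)⟩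
    have e : hh D δ (cq D.e₀ (inv w), ![δ⁻¹ * θ, t]) = (D.l (θ, inv w), t) := by
      rw [hD.str θ _ hθ (inv_small ((c1.trans d1).trans_lt hw)).2]
      exact Prod.ext (congrArg (fun s => D.ν (cq D.e₀ (inv w), s)) k3) rfl
    have e' : α (hh D δ (cq D.e₀ (inv w), ![δ⁻¹ * θ, t])) = (D.l (θ, inv w), t) := by
      rw [e]; exact fix _ (hc θ w (d1.trans_lt hw))
    rw [← e']
    exact ⟨Y2 _ hp, (Φ2 _ hp).trans (by rw [esc]; exact Prod.ext k2 rfl)⟩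
  refine ⟨R, 2 * π + ε, γ, c1.trans d1,
    eγ ▸ (tsc.mono open_U (subset_univ _)).comp tΦ.symm ms, fun u hu => YA _ (γ1 u hu).1,
    fun u hu hR => ?_, fun u hu θ w h2 h6 hR e => ?_, ?_, fun u hu => ?_⟩
  · obtain ⟨k1, k2⟩ := far (u.2 0) u.1 (u.2 1) (by linarith) hR
    exact γ2 _ k1 u (k2.trans (congrArg sc (Prod.ext rfl (by ext i; fin_cases i <;> rfl))))
  · obtain ⟨k1, k2⟩ := γ1 u hu
    have hw := (inv_small ((c1.trans d1).trans_lt hR)).2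
    have nC : (γ u).1 ∉ C := e ▸ hc θ w (d1.trans_lt hR)
    have key : ∀ s, 2 ≤ |s| → |s| < 3 → (γ u).1 ≠ D.l (s, inv w) := fun s s2 s3 e => by
      have k3 := (far s w (γ u).2 s3 hR).2
      rw [← e, k2] at k3
      have k4 : u.2 0 = s := by rw [tsc.inj trivial trivial k3]; rfl
      linarith [k4 ▸ hu]
    rcases lt_or_ge θ 3 with c | c
    · exact key θ (le_abs.2 (Or.inl h2)) (abs_lt.2 ⟨by linarith, c⟩) e
    rcases le_or_gt θ 5 with c' | c'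
    · rcases cY _ k1 with ⟨m, z, -, h2, h3, e', -⟩ | k
      · have : (hh D δ (m, z)).1 ∉ C := fun k => nC (e' ▸ (mv _ h3).1 k)
        rw [fix _ this] at e'
        exact hD.off θ _ c c' hw ⟨(m, δ * z 0), ⟨trivial, abs_lt.1 ((δ3 _).1 h2)⟩,
          (congrArg Prod.fst e').trans e⟩
      · exact nC k.1
    · exact key (θ - 8) (le_abs.2 (Or.inr (by linarith))) (abs_lt.2 ⟨by linarith, by linarith⟩)
        (e.trans (per hD.tl hw (m := 1) (by simp)))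
  · have γ3 : ∀ y, y ∈ γ '' {u | |u.2 0| ≤ 1} ↔ y ∈ Y ∧ |(Φ y).2 0| ≤ L / 3 := fun y => by
      constructor
      · rintro ⟨u, hu, rfl⟩
        have hu' : |u.2 0| ≤ 1 := hu
        obtain ⟨k1, k2⟩ := γ1 u (by linarith)
        exact ⟨k1, by rw [k2, sc0]; nlinarith⟩
      · rintro ⟨k1, k2⟩
        have e : Φ y = sc ((Φ y).1, ![δ * (Φ y).2 0, (Φ y).2 1]) := by
          rw [esc]; exact Prod.ext rfl (by ext i; fin_cases i <;> simp [δ0.ne'])
        refine ⟨_, ?_, γ2 y k1 _ e⟩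
        rw [e, sc0] at k2
        exact le_of_mul_le_mul_left (k2.trans_eq (mul_one _).symm) (by positivity)
    have := hD.isF.cpt
    have cN : IsCompact (D.ν '' (univ ×ˢ Icc (-2) 2)) :=
      (isCompact_univ.prod isCompact_Icc).image (continuousOn_univ.1 (te_nu hD).cont)
    refine isOpen_iff_forall_mem_open.2 fun y hy => ?_
    by_cases k : y ∈ Y
    · refine ⟨Y ∩ Φ ⁻¹' {u | L / 3 < |u.2 0|}, fun y' hy' => ⟨⟨YA _ hy'.1, trivial⟩, fun c =>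
        absurd ((γ3 _).1 c).2 (not_le.2 hy'.2)⟩, tΦ.pre (isOpen_lt continuous_const (by fun_prop)),
        k, lt_of_not_ge fun c => hy.2 ((γ3 _).2 ⟨k, c⟩)⟩
    · refine ⟨α '' (RM ∩ ((D.l '' (univ ×ˢ {0}))ᶜ \ D.ν '' (univ ×ˢ Icc (-2) 2)) ×ˢ univ), ?_,
        tα.op _ (tα.dom.inter (((open_A hD).sdiff cN.isClosed).prod isOpen_univ))
          inter_subset_left, ?_⟩
      · rintro _ ⟨u, hu, rfl⟩
        refine ⟨⟨αA u hu.1 hu.2.1.1, trivial⟩, fun c => ?_⟩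
        obtain ⟨k1, k2⟩ := (γ3 _).1 c
        rcases cY _ k1 with ⟨m, z, -, -, h3, e', h4⟩ | k'
        · obtain rfl := tα.inj h3 hu.1 e'
          refine hu.2.1.2 ⟨(m, δ * z 0), ⟨trivial, abs_le.1 ?_⟩, rfl⟩
          have := abs_sub_abs_le_abs_sub (z 0) ((Φ (α (hh D δ (m, z)))).2 0)
          rw [abs_mul, abs_of_pos δ0]
          nlinarith [h4 0]
        · exact k'.2.1 ⟨u, hu.1, rfl⟩
      · rcases cov y with ⟨u, hu, rfl⟩ | ⟨n, hn, p, hp, rfl⟩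
        · have uA : u.1 ∉ D.l '' (univ ×ˢ {0}) := fun c =>
            hy.1.1 ((fix u fun c' => CA c' c).symm ▸ c)
          refine ⟨u, ⟨hu, ⟨uA, ?_⟩, trivial⟩, rfl⟩
          rintro ⟨⟨m, θ⟩, ⟨-, hθ⟩, e⟩
          have θ3 : |θ| < 3 := (abs_le.2 hθ).trans_lt (by norm_num)
          have k3 : δ * (δ⁻¹ * θ) = θ := mul_inv_cancel_left₀ δ0.ne' θ
          have hz : |δ⁻¹ * θ| < L := (δ3 _).2 (k3.symm ▸ θ3)
          have e' : hh D δ (m, ![δ⁻¹ * θ, u.2]) = u :=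
            Prod.ext ((congrArg (fun s => D.ν (m, s)) k3).trans e) rfl
          rw [← e'] at k hu
          by_cases c : m ∈ range j
          · obtain ⟨m, rfl⟩ := c
            have hw := (gr (m, ![δ⁻¹ * θ, u.2]) hz).2 hu
            exact k (ga _ hw hz ▸ Y1 _ (by rw [hx.pa _ hw]; exact hz))
          · have mD : m ∈ Dt := eD ▸ ⟨fun c' => uA ⟨(θ, 0), ⟨trivial, rfl⟩, by
              rw [l0 hD θ3, ← c0, ← e, mem_singleton_iff.1 c']⟩,
              fun c' => c (image_subset_range _ _ c')⟩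
            refine k (Y2 _ ((mU _ _).2 ⟨⟨mD, ?_⟩, hz⟩))
            rintro ⟨v, -, e1⟩
            have v1 : 1 < ‖v‖ := lt_of_not_ge fun c' => (im ▸ mem_image_of_mem th mD :
              th m ∈ (th' '' closedBall 0 1)ᶜ) ⟨v, mem_closedBall_zero_iff.2 c', e1⟩
            have v2 : 1 < ‖κ (σ v)‖ := (hκ.right v v1).symm ▸ v1
            exact c ⟨σ v, tt.inj ((jD _).2 v2) mD (by rw [hE.com _ v2, hκ.right v v1, e1])⟩
        · exact (k (gb n hn p hp ▸ Y1 _ (by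
            rw [hx.pb n p hp, eL]; exact (strip hx.r0 hx.r1 (hx.ζb p hp).2 n N).2 hn))).elim
  · obtain ⟨k1, k2⟩ := γ1 u hu
    have e : (Φ (γ u)).2 1 = u.2 1 := by rw [k2, esc]; rfl
    rw [← e]
    rcases cY _ k1 with ⟨m, z, -, -, h3, e', h4⟩ | k
    · have k3 : |(γ u).2 - z 1| ≤ 2 * π := e' ▸ (mv _ h3).2
      exact (abs_sub_le _ _ _).trans (add_le_add k3 (h4 1))
    · exact k.2.2

end Pool.Agent.MP_e1dc65_gt.T4

end
end MrgPart4

-- marker of a merged file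
example : 731051 + 647031 = 731051 + 647031 := rfl

end MrgPart0

-- ======== part 1: formerly Pool.Agent.MP_e1dc65_gt.t.T23
section MrgPart1

/-! PROJECT HC, part T, row T23: the blocks of T2 and T3 give the interface to T4. -/

open scoped ContDiff Manifold Topology Real
open Set Filter Function Module Topology

set_option linter.unusedSectionVars false

noncomputable section

namespace Pool.Agent.MP_e1dc65_gt.T

namespace T23
open Loc T4

/-! ### Coordinates, the control and the end -/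

/-- coordinates of three-space -/
def c3 : R3 ≃ₜ V where
  toFun p := ![p.1 0, p.1 1, p.2]
  invFun v := (!₂[v 0, v 1], v 2)
  left_inv p := Prod.ext (by ext k; fin_cases k <;> rfl) rfl
  right_inv v := by ext k; fin_cases k <;> rfl
  continuous_toFun := continuous_pi fun k => by fin_cases k <;> simp <;> fun_prop
  continuous_invFun := by fun_prop

theorem c3_two (p : R3) : c3 p 2 = p.2 := rfl

theorem abs_le_c3 (p : R3) : |p.2| ≤ ‖c3 p‖ := norm_le_pi_norm (c3 p) 2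

theorem norm_c3_le {p : R3} {r : ℝ} (h1 : ‖p.1‖ ≤ r) (h2 : |p.2| ≤ r) : ‖c3 p‖ ≤ r :=
  (pi_norm_le_iff_of_nonneg ((abs_nonneg _).trans h2)).2 fun k => by
    fin_cases k
    exacts [(PiLp.norm_apply_le p.1 0).trans h1, (PiLp.norm_apply_le p.1 1).trans h1, h2]

theorem norm_c3_le' {x : E2} {t t' r : ℝ} (h1 : ‖c3 (x, t')‖ ≤ r) (h2 : |t| ≤ r) : ‖c3 (x, t)‖ ≤ r :=
  (pi_norm_le_iff_of_nonneg ((abs_nonneg _).trans h2)).2 fun k => by
    fin_cases k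
    exacts [(norm_le_pi_norm (c3 (x, t')) 0).trans h1, (norm_le_pi_norm (c3 (x, t')) 1).trans h1, h2]

theorem out_of {p : R3} (h : 1 < ‖c3 p‖) : p ∈ Out := by_contra fun c =>
  h.not_ge (norm_c3_le (not_lt.1 fun a => c (Or.inl a)) (not_lt.1 fun a => c (Or.inr a)))

variable {N : NF}

/-- the control -/
def kap (N : NF) (m : N.F) : V := c3 (N.pj m)

theorem cont_kap (hN : N.Ok) : Continuous (kap N) := c3.continuous.comp (cont_pj hN)

theorem kap_ok (hN : N.Ok) : Kap (kap N) fun v => N.pinv (c3.symm v) where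
  cont := cont_kap hN
  scont v hv := (ContinuousAt.comp (cont_pinv hN (out_of (by rwa [c3.apply_symm_apply])))
    c3.symm.continuous.continuousAt).continuousWithinAt
  right v hv := by
    rw [kap, pj_pinv hN (out_of (by rwa [c3.apply_symm_apply])), c3.apply_symm_apply]
  left m hm := by
    rw [kap, c3.symm_apply_apply]
    exact hN.oe.left (out_of hm)

theorem end_ok {F : Mf V} {e₀ : V → F} {em : N.F → F} {th : OpenPartialHomeomorph F V}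
    {th' : R3 → V} (hN : N.Ok) (h : N.End F e₀ em th th') :
    T4.End (cq e₀) em (kap N) (fun v => th' (c3.symm v)) th := by
  have c0 : cq e₀ 0 = e₀ q0 := by simp [cq]
  have hB : IsCompact {m | ‖kap N m‖ ≤ 1} := by
    convert hN.prop _ ((isCompact_closedBall (0 : V) 1).image c3.symm.continuous) using 1
    ext m
    simp [c3.symm.image_eq_preimage_symm, kap]
  have hK : N.K ⊆ {m | ‖kap N m‖ ≤ 1} := fun m hm => not_lt.1 fun a => hm (out_of a)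
  have hs : {cq e₀ 0}ᶜ \ em '' {m | ‖kap N m‖ ≤ 1} ⊆ th.source := fun y hy => by
    rw [h.src]
    rintro (a | a)
    exacts [hy.1 (c0 ▸ a), hy.2 (image_mono hK a)]
  have hm : ∀ m ∉ N.K, em m ∈ th.source := fun m hm => by
    rw [h.src]
    rintro (a | ⟨m', a, e⟩)
    exacts [h.ne m a, hm (h.oe.inj trivial trivial e ▸ a)]
  have hn : ∀ y ∈ th.source, y ∉ {cq e₀ 0} ∧ ∀ m, em m = y → m ∉ N.K := fun y hy => by
    rw [h.src] at hy
    exact ⟨fun a => hy (Or.inl (c0 ▸ a)), fun m e a => hy (Or.inr ⟨m, a, e⟩)⟩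
  have hb : ∀ m, ‖kap N m‖ ≤ 1 → th' (N.pj m) ∈
      (fun v => th' (c3.symm v)) '' Metric.closedBall 0 1 := fun m a =>
    ⟨kap N m, mem_closedBall_zero_iff.2 a, by simp only [kap, c3.symm_apply_apply]⟩
  have he := h.emb.comp c3.symm.isOpenEmbedding
  refine ⟨fun m => c0 ▸ h.ne m, ⟨co_of_isOpenMap he.continuous he.isOpenMap isOpen_univ,
    he.injective.injOn⟩, ⟨⟨isOpen_compl_singleton.sdiff (hB.image h.oe.sm.cont).isClosed,
      th.continuousOn.mono hs, fun O hO a => th.isOpen_image_of_subset_source hO (a.trans hs)⟩,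
      th.injOn.mono hs⟩, ?_, fun m a => ?_, ?_⟩
  · ext v
    constructor
    · rintro ⟨y, hy, rfl⟩ ⟨v, hv, e⟩
      have ht := th.map_source (hs hy)
      rw [h.tgt] at ht
      obtain ⟨m, a⟩ := hN.onto (by_contra fun c => ht ⟨_, c, e⟩ : c3.symm v ∈ Out)
      have b : m ∉ N.K := not_K.2 (a ▸ by_contra fun c => ht ⟨_, c, e⟩)
      refine hy.2 ⟨m, ?_, th.injOn (hm m b) (hs hy) (by rw [h.rel m b, a]; exact e)⟩
      show ‖c3 (N.pj m)‖ ≤ 1
      rw [a, c3.apply_symm_apply]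
      exact mem_closedBall_zero_iff.1 hv
    · intro hv
      have ht : v ∈ th.target := by
        rw [h.tgt]
        rintro ⟨p, hp, rfl⟩
        exact hv ⟨c3 p, mem_closedBall_zero_iff.2 (not_lt.1 fun a => hp (out_of a)), by
          simp only [c3.symm_apply_apply]⟩
      have a := hn _ (th.map_target ht)
      refine ⟨th.symm v, ⟨a.1, ?_⟩, th.right_inv ht⟩
      rintro ⟨m, b, e⟩
      refine hv ?_
      rw [← th.right_inv ht, ← e, h.rel m (a.2 m e)]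
      exact hb m b
  · rw [h.rel m (not_K.2 (out_of a)), kap, c3.symm_apply_apply]
  · obtain ⟨r, r0, hr⟩ := h.inv
    have cn : Continuous (nsq : V → ℝ) := by unfold nsq; fun_prop
    obtain ⟨M, hM⟩ := (((isCompact_closedBall (0 : V) 1).image he.continuous).image cn).bddAbove
    refine ⟨max r⁻¹ M, fun v hv => ?_⟩
    have v1 : r⁻¹ < nsq v := (le_max_left _ _).trans_lt hv
    have v0 : 0 < nsq v := (inv_pos.2 r0).trans v1
    have e1 : nsq (T4.inv v) = (nsq v)⁻¹ := by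
      have : nsq (T4.inv v) = (nsq v)⁻¹ ^ 2 * nsq v := by
        simp only [T4.inv, nsq, Pi.smul_apply, smul_eq_mul, mul_pow, Finset.mul_sum]
      rw [this, sq, mul_assoc, inv_mul_cancel₀ v0.ne', mul_one]
    obtain ⟨a, b⟩ := hr (T4.inv v) (e1 ▸ inv_pos.2 v0) (e1 ▸ inv_lt_of_inv_lt₀ r0 v1)
    have e2 : th (cq e₀ (T4.inv v)) = v := by
      rw [cq, b, e1, inv_inv, T4.inv, smul_smul, mul_inv_cancel₀ v0.ne', one_smul]
    refine ⟨⟨(hn _ a).1, ?_⟩, e2⟩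
    rintro ⟨m, c, e⟩
    have d := hb m c
    rw [← h.rel m ((hn _ a).2 m e), e, e2] at d
    exact ((le_max_right _ _).trans_lt hv).not_ge (hM ⟨v, d, rfl⟩)

/-! ### The model -/

theorem sm_Gm (t : ℝ) : ContDiff ℝ ∞ (Gm t) := by
  have h : ContDiff ℝ ∞ fun b : R3 => bet b.2 := Real.smoothTransition.contDiff.comp (by fun_prop)
  exact (((contDiff_snd.pow 2).add contDiff_const).sub (contDiff_const.mul h)).sub
    (ContDiff.norm_sq ℝ contDiff_fst)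

theorem bet_le (y : ℝ) : bet y ≤ 1 := Real.smoothTransition.le_one _
theorem bet_nonneg (y : ℝ) : 0 ≤ bet y := Real.smoothTransition.nonneg _

/-- the two models have no critical value in the unit interval -/
theorem fd_Gm {t : ℝ} (ht : t = -2 ∨ t = 2) {b : R3} (h : |Gm t b| < 1) : fderiv ℝ (Gm t) b ≠ 0 := by
  intro h0
  have hd : ∀ v : R3, HasDerivAt (fun s : ℝ => Gm t (b + s • v)) 0 0 := fun v => by
    have h1 : HasDerivAt (fun s : ℝ => b + s • v) v 0 := by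
      simpa using ((hasDerivAt_id (0 : ℝ)).smul_const v).const_add b
    have h2 : HasFDerivAt (Gm t) (0 : R3 →L[ℝ] ℝ) (b + (0 : ℝ) • v) := by
      simpa [h0] using ((sm_Gm t).differentiable (by simp) b).hasFDerivAt
    exact h2.comp_hasDerivAt 0 h1
  have h1 : HasDerivAt (fun s : ℝ => gam t b.2 - (1 + s) ^ 2 * ‖b.1‖ ^ 2) (-(2 * ‖b.1‖ ^ 2)) 0 := by
    simpa using ((((hasDerivAt_id (0 : ℝ)).const_add 1).pow 2).mul_const (‖b.1‖ ^ 2)).const_sub _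
  have h2 : ‖b.1‖ ^ 2 = 0 := by
    have : (fun s : ℝ => Gm t (b + s • (b.1, 0))) =
        fun s : ℝ => gam t b.2 - (1 + s) ^ 2 * ‖b.1‖ ^ 2 := funext fun s => by
      have : b.1 + s • b.1 = (1 + s) • b.1 := by rw [add_smul, one_smul]
      simp [Gm, this, norm_smul, mul_pow]
    linarith [(this ▸ hd (b.1, 0)).unique h1]
  have h3 := abs_lt.1 h
  rw [Gm, h2, sub_zero, gam] at h3
  have b1 := bet_le b.2
  rcases ht with rfl | rfl
  · have h4 : ∀ y : ℝ, y ^ 2 < 4 → gam (-2) y = y ^ 2 - 2 := fun y hy => by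
      rw [gam, bet, Real.smoothTransition.one_of_one_le (by linarith)]; ring
    have h5 : b.2 ^ 2 < 4 := by linarith [h3.2]
    have h6 : HasDerivAt (fun s : ℝ => (b.2 + s) ^ 2 - 2 - ‖b.1‖ ^ 2) (2 * b.2) 0 := by
      simpa using ((((hasDerivAt_id (0 : ℝ)).const_add b.2).pow 2).sub_const 2).sub_const (‖b.1‖ ^ 2)
    have h7 : ∀ᶠ s : ℝ in 𝓝 0, (b.2 + s) ^ 2 < 4 :=
      (by fun_prop : ContinuousAt (fun s : ℝ => (b.2 + s) ^ 2) 0).eventually_lt_const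
        (by simpa using h5)
    have h8 := (hd (0, 1)).unique (h6.congr_of_eventuallyEq (h7.mono fun s hs => by
      simp [Gm, h4 _ hs]))
    have h9 := h4 _ h5
    rw [gam] at h9
    rw [h9, show b.2 = 0 by linarith] at h3
    linarith [h3.1]
  · nlinarith [h3.2, sq_nonneg b.2]

theorem v_lt (h : N.Good) {a : ℝ} (ha : a = N.v₁ ∨ a = N.v₂) : |a| < 1 := by
  obtain ⟨t, h1, h2, -⟩ := h.wind
  have := h.ok.lo
  have := h.ok.hi
  have := sq_nonneg N.δ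
  rcases ha with rfl | rfl <;> rw [abs_lt] <;> constructor <;> linarith

theorem reg_Gm (h : N.Good) {t : ℝ} (ht : t = -2 ∨ t = 2) (D : Set (E2 × R3)) :
    Reg N (vs R3) (Gm t) D :=
  ⟨fun _ _ => smAt_vs.2 (sm_Gm t).contDiffAt, fun _ _ a => by
    rw [Df_vs]; exact fd_Gm ht (v_lt h a)⟩

theorem open_D0 : IsOpen D0 :=
  (isOpen_lt continuous_fst.norm continuous_const).inter
    ((isOpen_lt continuous_snd.fst.norm continuous_const).inter
      (isOpen_lt continuous_snd.snd.abs continuous_const))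

theorem adm_Gm {D : Set (E2 × R3)} (hD : IsOpen D) (h : Q0 ⊆ D) : Adm (Gm (-2)) (Gm 2) D Q0 := by
  refine ⟨hD, ?_, h, (sm_Gm _).continuous, (sm_Gm _).continuous, fun q hq h1 => ?_⟩
  · convert (isCompact_closedBall (0 : E2) 1).prod ((isCompact_closedBall (0 : E2) 4).prod
      (isCompact_closedBall (0 : ℝ) 3)) using 1
    ext q
    simp [Q0]
  · by_cases c : 3 < |q.2.2|
    · have : bet q.2.2 = 0 := Real.smoothTransition.zero_of_nonpos (by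
        nlinarith [sq_abs q.2.2, abs_nonneg q.2.2])
      exact Or.inl (by simp [Gm, gam, this])
    · have c1 : 4 < ‖q.2.1‖ := not_le.1 fun a => hq.2 ⟨h1, a, not_lt.1 c⟩
      have c2 : q.2.2 ^ 2 ≤ 9 := by nlinarith [sq_abs q.2.2, abs_nonneg q.2.2, not_lt.1 c]
      have c3 := bet_nonneg q.2.2
      have c4 : 16 < ‖q.2.1‖ ^ 2 := by nlinarith
      refine Or.inr ⟨lt_abs.2 (Or.inr ?_), lt_abs.2 (Or.inr ?_)⟩ <;> simp only [Gm, gam] <;> linarith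

theorem Q0_sub : Q0 ⊆ D0 := fun _ hq =>
  ⟨hq.1.trans_lt (by norm_num), hq.2.1.trans_lt (by norm_num), hq.2.2.trans_lt (by norm_num)⟩

/-! ### Replacements as patches -/

section
variable {A P L Y ι : Type} [TopologicalSpace A] [TopologicalSpace P] [TopologicalSpace L]
  [TopologicalSpace Y] {Γ Γ' : R3 → ℝ} {D D' Q : Set (E2 × R3)} {i : N.F × R3 → A}
  {i' : N.F × R3 → P} {h : OpenPartialHomeomorph A P}

theorem te_oph (h : OpenPartialHomeomorph A P) {U : Set A} (hU : IsOpen U) (s : U ⊆ h.source) :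
    TE h U :=
  ⟨⟨hU, h.continuousOn.mono s, fun _ hO a => h.isOpen_image_of_subset_source hO (a.trans s)⟩,
    h.injOn.mono s⟩

theorem te_emb {f : A → P} (h : IsOpenEmbedding f) : TE f univ :=
  ⟨co_of_isOpenMap h.continuous h.isOpenMap isOpen_univ, h.injective.injOn⟩

theorem pat_ok [T2Space A] [T2Space P] [LocallyCompactSpace P] (hN : N.Ok)
    (r : Rp N Γ Γ' D Q i i' h) : Pat.Ok ⟨h, i '' N.Pt Γ Q, i' '' N.Pt Γ' Q⟩ := by
  refine ⟨(compact_pt hN r.adm.c r.adm.cp).image_of_continuousOn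
    ((oe_cont r.oe).mono (pt_mono r.adm.sub)), r.src ▸ te_oph h h.open_source subset_rfl,
    by rw [← r.src, ← r.tgt, h.image_source_eq_target], fun W hW hK => ?_⟩
  have hs : Wᶜ ⊆ h.source := by rw [r.src]; exact compl_subset_compl.2 hK
  refine isOpen_iff_mem_nhds.2 fun y hy => ?_
  obtain ⟨C, hC, hy'⟩ := WeaklyLocallyCompactSpace.exists_compact_mem_nhds y
  have hc := (((core_compact hN r hC).inter_right hW.isClosed_compl).image_of_continuousOn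
    (h.continuousOn.mono (inter_subset_right.trans hs))).isClosed
  refine mem_of_superset (inter_mem hy' (hc.isOpen_compl.mem_nhds ?_)) fun z hz => ?_
  · rintro ⟨x, hx, rfl⟩
    rcases hy with ⟨w, hw, e⟩ | hy
    · exact hx.2 (h.injOn (r.src ▸ hw.2) (hs hx.2) e ▸ hw.1)
    · exact (r.tgt ▸ h.map_source (hs hx.2) :) hy
  · refine or_iff_not_imp_right.2 fun c => ?_
    have ht : z ∈ h.target := r.tgt ▸ c
    have a := h.map_target ht
    refine ⟨h.symm z, ⟨by_contra fun b => hz.2 ⟨h.symm z, ⟨Or.inr ⟨a, ?_⟩, b⟩, h.right_inv ht⟩,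
      (r.src ▸ a :)⟩, h.right_inv ht⟩
    rw [mem_preimage, h.right_inv ht]
    exact hz.1

variable {I : N.F × (Σ _ : ι, R3) → L} {I' : N.F × (Σ _ : ι, R3) → Y}
  {H : OpenPartialHomeomorph L Y} {W : Set A} {e : ι → A → L}

/-- one copy of the part over `D` is openly embedded -/
theorem te_cps (hN : N.Ok) (hD : IsOpen D)
    (h : IsOpenEmbedding ((N.Pt (fun b => Γ b.2) (cps ι D)).domRestrict I)) (k : ι) :
    TE ((N.Pt Γ D).domRestrict fun p => I (p.1, ⟨k, p.2⟩)) univ :=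
  te_emb (oe_sub (V := univ) hN h
    (IsOpenEmbedding.sigmaMk.comp isOpen_univ.isOpenEmbedding_subtypeVal) hD
    fun _ hq => ⟨trivial, hq, rfl⟩)

/-- a family of replacements is an insertion -/
theorem ins_of_rp [Nonempty Y] [T2Space A] (hN : N.Ok) (r : Rp N Γ Γ' D' Q i i' h)
    (R : Rp N (fun b => Γ b.2) (fun b => Γ' b.2) (cps ι D) (cps ι Q) I I' H) (hD : IsOpen D)
    (hQ : Q ⊆ D) (hD' : D ⊆ D') (te : ∀ k, TE (e k) W)
    (dis : ∀ k l, ∀ w ∈ W, ∀ w' ∈ W, e k w = e l w' → k = l) (m : MapsTo i (N.Pt Γ D) W)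
    (c : ∀ k, ∀ p ∈ N.Pt Γ D, I (p.1, ⟨k, p.2⟩) = e k (i p)) :
    ∃ β, Ins ⟨h, i '' N.Pt Γ Q, i' '' N.Pt Γ' Q⟩ W univ e univ H β univ := by
  have cK := closed_img hN r.adm.c r.oe r.adm.cp r.adm.sub
  have ad : Adm Γ' Γ D Q := ⟨hD, r.adm.cp, hQ, r.adm.c', r.adm.c, fun q hq a =>
    far_symm (r.adm.far q ⟨hD' hq.1, hq.2⟩ a)⟩
  have src : Pat.rest ⟨h, i '' N.Pt Γ Q, i' '' N.Pt Γ' Q⟩ univ e univ = H.source := by
    rw [R.src]
    ext n
    rw [Pat.mem_rest]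
    constructor
    · rintro a ⟨⟨x, k, b⟩, hp, rfl⟩
      exact a.2 k trivial _ ⟨(x, b), hp, rfl⟩ (c k (x, b) (pt_mono hQ hp)).symm
    · rintro a
      refine ⟨trivial, ?_⟩
      rintro k - _ ⟨p, hp, rfl⟩ rfl
      exact a ⟨(p.1, ⟨k, p.2⟩), hp, c k p (pt_mono hQ hp)⟩
  have off : ∀ k, ∀ w ∈ W \ i '' N.Pt Γ Q, e k w ∈ H.source := fun k w hw => by
    rw [← src, Pat.mem_rest]
    refine ⟨trivial, ?_⟩
    rintro l - _ ⟨p, hp, rfl⟩ a
    obtain rfl := dis _ _ _ (m (pt_mono hQ hp)) _ hw.1 a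
    exact hw.2 ⟨p, hp, (te l).inj (m (pt_mono hQ hp)) hw.1 a⟩
  have ws : W \ i '' N.Pt Γ Q ⊆ h.source := fun w hw => r.src ▸ hw.2
  have par : ∀ b ∈ N.Pt Γ' (D \ Q), ∃ a ∈ W \ i '' N.Pt Γ Q, h a = i' b ∧
      ∀ k, H (e k a) = I' (b.1, ⟨k, b.2⟩) := fun b hb => by
    obtain ⟨h1, h2⟩ := partner hN ad hb
    have h3 : rg N Γ b ∈ N.Pt Γ (D' \ Q) := ⟨h1.1, hD' h1.2.1, h1.2.2⟩
    refine ⟨_, ⟨m (pt_mono sdiff_subset h1), (r.src ▸ mem_src r h3 :)⟩,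
      r.rel _ h3 b hb.1 (mt_symm h2), fun k => ?_⟩
    rw [← c k _ (pt_mono sdiff_subset h1)]
    exact R.rel (_, ⟨k, _⟩) h1 (b.1, ⟨k, b.2⟩) hb.1 ⟨congrArg (Sigma.mk k) h2.1.symm, (mt_symm h2).2⟩
  have tg : ∀ n ∈ H.source, ∀ k, ∀ b ∈ N.Pt Γ' Q, H n ≠ I' (b.1, ⟨k, b.2⟩) := fun n hn k b hb a =>
    (R.tgt ▸ H.map_source hn :) ⟨(b.1, ⟨k, b.2⟩), hb, a.symm⟩
  have t2 : TE ((N.Pt Γ' D).domRestrict i') univ := te_emb (oe_sub (V := univ) (β := fun b => b) hN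
    r.oe' isOpen_univ.isOpenEmbedding_subtypeVal hD fun _ hq => ⟨trivial, hD' hq, rfl⟩)
  have dom : h '' (W \ i '' N.Pt Γ Q) ∪ (N.Pt Γ' D).domRestrict i' '' univ =
      Pat.dom ⟨h, i '' N.Pt Γ Q, i' '' N.Pt Γ' Q⟩ W := by
    ext y
    refine ⟨?_, Or.imp id fun ⟨b, hb, a⟩ => ⟨⟨b, pt_mono hQ hb⟩, trivial, a⟩⟩
    rintro (a | ⟨b, -, rfl⟩)
    · exact Or.inl a
    · by_cases a : N.pr b.1 ∈ Q
      · exact Or.inr ⟨b, ⟨b.2.1, a⟩, rfl⟩
      · exact Or.inl ((par b ⟨b.2.1, b.2.2, a⟩).imp fun _ t => ⟨t.1, t.2.1⟩)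
  choose β hβ b1 b2 using fun k => glue2
    (te_oph h ((te k).dom.sdiff cK) ws)
    (((te k).mono ((te k).dom.sdiff cK) sdiff_subset).comp (te_oph H H.open_source subset_rfl)
      (off k)) t2 (te_cps hN hD R.oe' k) fun a ha b _ => by
      by_cases t : N.pr b.1 ∈ Q
      · exact iff_of_false (fun u => (r.tgt ▸ h.map_source (ws ha) :) ⟨b, ⟨b.2.1, t⟩, u.symm⟩)
          (tg _ (off k a ha) k b ⟨b.2.1, t⟩)
      · obtain ⟨a', ha', e1, e2⟩ := par b ⟨b.2.1, b.2.2, t⟩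
        refine ⟨fun u => ?_, fun u => ?_⟩
        · rw [h.injOn (ws ha) (ws ha') (u.trans e1.symm)]
          exact e2 k
        · rw [(te k).inj ha.1 ha'.1 (H.injOn (off k a ha) (off k a' ha') (u.trans (e2 k).symm))]
          exact e1
  have b3 : ∀ k, ∀ b ∈ N.Pt Γ' Q, β k (i' b) = I' (b.1, ⟨k, b.2⟩) := fun k b hb =>
    b2 k ⟨b, pt_mono hQ hb⟩ trivial
  refine ⟨β, src ▸ te_oph H H.open_source subset_rfl, fun k _ => dom ▸ hβ k,
    fun k _ w hw => src ▸ off k w hw, fun k _ => b1 k, ?_, ?_, (eq_univ_of_forall fun y => ?_).symm⟩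
  · rintro k - _ ⟨b, hb, rfl⟩ n hn
    rw [b3 k b hb]
    exact tg n (src ▸ hn) k b hb
  · rintro k - l - _ ⟨b, hb, rfl⟩ _ ⟨b', hb', rfl⟩ a
    rw [b3 k b hb, b3 l b' hb'] at a
    exact congrArg (fun p => p.2.1) (oe_inj R.oe' (x₁ := (b.1, ⟨k, b.2⟩)) (pt_mono hQ hb)
      (x₂ := (b'.1, ⟨l, b'.2⟩)) (pt_mono hQ hb') a)
  · rw [src, H.image_source_eq_target, R.tgt]
    refine or_iff_not_imp_left.2 fun a => ?_
    obtain ⟨⟨x, k, b⟩, hp, rfl⟩ := not_not.1 a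
    exact mem_biUnion (mem_univ k) ⟨_, ⟨(x, b), hp, rfl⟩, b3 k (x, b) hp⟩

end

/-! ### The package -/

/-- an affine chart of the plane -/
def af (a : Z) (c : ℝ) (hc : c ≠ 0) : E2 ≃ₜ Z where
  toFun z := a + c • z.ofLp
  invFun v := WithLp.toLp 2 (c⁻¹ • (v - a))
  left_inv z := by simp [smul_smul, hc]
  right_inv v := by simp [smul_smul, hc]
  continuous_toFun := by fun_prop
  continuous_invFun := by fun_prop

theorem ld_af (a : Z) {c : ℝ} (hc : c ≠ 0) (z : E2) : LDAt (vs E2) (vs Z) (af a c hc) z :=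
  ldAt_of_inv (X := vs E2) (Y := vs Z) (g := (af a c hc).symm) isOpen_univ isOpen_univ trivial
    (fun _ _ => smAt_vs.2 (contDiff_const.add ((PiLp.contDiff_ofLp).const_smul c)).contDiffAt)
    (fun _ _ => smAt_vs.2 (PiLp.contDiff_toLp.comp
      ((contDiff_id.sub contDiff_const).const_smul c⁻¹)).contDiffAt)
    (mapsTo_univ _ _) (mapsTo_univ _ _) (fun _ _ => (af a c hc).symm_apply_apply _)
    fun _ _ => (af a c hc).apply_symm_apply _

theorem norm_ofLp_le (z : E2) : ‖z.ofLp‖ ≤ ‖z‖ :=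
  (pi_norm_le_iff_of_nonneg (norm_nonneg _)).2 fun k => PiLp.norm_apply_le z k

section
variable {E ι : Type} [NormedAddCommGroup E] [NormedSpace ℝ E] [FiniteDimensional ℝ E] {X : Mf E}
  [Finite ι] {Γ Γ' : R3 → ℝ} {D Q : Set (E2 × R3)}

theorem fr3 : finrank ℝ R3 = 3 := by simp

theorem adm_cps (h : Adm Γ Γ' D Q) :
    Adm (fun b => Γ b.2) (fun b => Γ' b.2) (cps ι D) (cps ι Q) := by
  have c : Continuous fun b : (Σ _ : ι, R3) => b.2 := continuous_sigma fun _ => continuous_id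
  refine ⟨h.op.preimage (continuous_fst.prodMk (c.comp continuous_snd)), ?_, fun q hq => h.sub hq,
    h.c.comp c, h.c'.comp c, fun q hq => h.far (q.1, q.2.2) hq⟩
  convert isCompact_iUnion fun k : ι => h.cp.image
    (continuous_fst.prodMk ((continuous_sigmaMk (σ := fun _ : ι => R3) (i := k)).comp continuous_snd))
  ext q
  exact ⟨fun hq => mem_iUnion.2 ⟨q.2.1, (q.1, q.2.2), hq, rfl⟩, fun hq => by
    obtain ⟨k, p, hp, rfl⟩ := mem_iUnion.1 hq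
    exact hp⟩

variable [Nonempty ι]

theorem reg_cps (h : Reg N (vs R3) Γ D) :
    Reg N (Mf.sigma fun _ : ι => vs R3) (fun b => Γ b.2) (cps ι D) := by
  have s : Sm (Mf.sigma fun _ : ι => vs R3) (vs ℝ) (fun b => Γ b.2) univ := fun b _ =>
    (ldAt_sigmaMk (fun _ : ι => vs R3) b.1 b.2).sm_of_comp (h.1 b.2 trivial)
  refine ⟨s, fun q hq a b => h.2 (q.1, q.2.2) hq a ?_⟩
  have := Df_comp (ldAt_sigmaMk (fun _ : ι => vs R3) q.2.1 q.2.2).sm (s _ trivial)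
  rw [show Df (Mf.sigma fun _ : ι => vs R3) (vs ℝ) (fun b => Γ b.2) ⟨q.2.1, q.2.2⟩ = 0 from b,
    ContinuousLinearMap.zero_comp] at this
  exact this

theorem loe_cps (hL : LoeStmt) (hN : N.Ok) (hE : finrank ℝ E = 5) (hD : IsOpen D)
    (hr : Reg N (vs R3) Γ D) {I : N.F × (Σ _ : ι, R3) → X}
    (h : ∀ k, LOE N (vs R3) Γ D X fun p => I (p.1, ⟨k, p.2⟩))
    (inj : InjOn I (N.Pt (fun b => Γ b.2) (cps ι D))) :
    LOE N (Mf.sigma fun _ : ι => vs R3) (fun b => Γ b.2) (cps ι D) X I := by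
  intro Z j hj
  refine ⟨isOpen_univ, fun z _ => ?_, fun z _ z' _ a =>
    hj.emb.injective (inj (hj.mem z) (hj.mem z') a)⟩
  obtain ⟨Z₁, j₁, h1, -⟩ := (hL N E R3 (vs R3) X Γ D (fun p => I (p.1, ⟨(j z).2.1, p.2⟩)) hN hE fr3
    hD hr).1 ⟨((j z).1, (j z).2.2), hj.mem z⟩
  have hU : IsOpen {y | (j y).2.1 = (j z).2.1} :=
    (isOpen_sigma_fst_preimage {(j z).2.1}).preimage (continuous_snd.comp hj.emb.continuous)
  have e1 : ∀ y, j₁ (invFun j₁ ((j y).1, (j y).2.2)) = ((j y).1, (j y).2.2) := fun y =>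
    h1.inv_eq (hj.mem y)
  have s2 : ∀ b, SmAt (Mf.sigma fun _ : ι => vs R3) (vs R3) (fun b => b.2) b := fun b =>
    (ldAt_sigmaMk (fun _ : ι => vs R3) b.1 b.2).sm_of_comp smAt_id
  have h2 : LDAt Z Z₁ (fun y => invFun j₁ ((j y).1, (j y).2.2)) z := by
    refine ldAt_of_inv (g := fun y => invFun j ((j₁ y).1, ⟨(j z).2.1, (j₁ y).2⟩)) hU isOpen_univ rfl
      (fun y _ => h1.sm_inv (((hj.sm y trivial).trans smAt_fst).pair
        (((hj.sm y trivial).trans smAt_snd).trans (s2 _))) (.of_forall hj.mem))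
      (fun y _ => hj.sm_inv (((h1.sm y trivial).trans smAt_fst).pair
        (((h1.sm y trivial).trans smAt_snd).trans (ldAt_sigmaMk (fun _ : ι => vs R3) _ _).sm))
          (.of_forall h1.mem))
      (mapsTo_univ _ _) (fun y _ => ?_) (fun y hy => ?_) fun y _ => ?_
    · exact congrArg (fun p => p.2.1) (hj.inv_eq (x := (_, ⟨_, _⟩)) (h1.mem y))
    · rw [e1, ← show (j y).2.1 = _ from hy]
      exact hj.inv_left y
    · rw [hj.inv_eq (x := (_, ⟨_, _⟩)) (h1.mem y)]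
      exact h1.inv_left y
  refine (h2.trans ((h (j z).2.1 Z₁ j₁ h1).ld _ trivial)).congr' ?_
  filter_upwards [hU.mem_nhds rfl] with y hy
  rw [e1, ← show (j y).2.1 = _ from hy]

end

theorem insert_ok (hK : KeyFStmt) (hX : ExistStmt) (hL : LoeStmt) (hN : N.Good) {P : Mf (Rn 5)}
    {i : N.F × R3 → N.F × Z} {i' : N.F × R3 → P} {h : OpenPartialHomeomorph (N.F × Z) P}
    (hi : LOE N (vs R3) (Gm (-2)) D0 (N.F.prod (vs Z)) i) (r : Rp N (Gm (-2)) (Gm 2) D0 Q0 i i' h) :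
    Insert N.F P ⟨h, i '' N.Pt (Gm (-2)) Q0, i' '' N.Pt (Gm 2) Q0⟩ := by
  intro E _ _ _ X ι _ W e O hE hW he dis hO hO' thin
  rcases isEmpty_or_nonempty ι with hι | ⟨⟨k₀⟩⟩
  · refine ⟨fun n => n, fun k => hι.elim k, ∅, isCompact_empty, empty_subset _, fun k => hι.elim k,
      fun _ _ => rfl, te_id (by simp [Pat.rest]), fun k => hι.elim k, fun k => hι.elim k,
      fun k => hι.elim k, fun k => hι.elim k, fun k => hι.elim k, by simp [Pat.rest]⟩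
  have : Nonempty ι := ⟨k₀⟩
  have ok := hN.ok
  obtain ⟨U, hU, e1⟩ := continuousOn_iff'.1 (oe_cont r.oe) W (he k₀).op
  obtain ⟨D, hD⟩ : ∃ D, D = D0 \ N.pr '' (N.Hyp (Gm (-2)) ∩ Uᶜ) := ⟨_, rfl⟩
  have oD : IsOpen D := hD ▸ open_D0.sdiff (closed_pr ok r.adm.c hU.isClosed_compl)
  have sD : D ⊆ D0 := hD ▸ sdiff_subset
  have hQ : Q0 ⊆ D := fun q hq => hD ▸ ⟨Q0_sub hq, fun ⟨p, hp, a⟩ => by
    have b : p ∈ N.Pt (Gm (-2)) Q0 := ⟨hp.1, show N.pr p ∈ Q0 from a ▸ hq⟩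
    exact hp.2 (e1.subset ⟨hW ⟨p, b, rfl⟩, pt_mono Q0_sub b⟩).1⟩
  have m : MapsTo i (N.Pt (Gm (-2)) D) W := fun p hp => (e1.symm.subset
    ⟨by_contra fun a => (hD ▸ hp.2 :).2 ⟨p, ⟨hp.1, a⟩, rfl⟩, pt_mono sD hp⟩).1
  have f5 : finrank ℝ (Rn 3 × Z) = 5 := by simp
  have rg := reg_Gm hN (Or.inl rfl)
  have l1 : LOE N (vs R3) (Gm (-2)) D (N.F.prod (vs Z)) i :=
    (hL N _ R3 (vs R3) (N.F.prod (vs Z)) _ D0 i ok f5 fr3 open_D0 (rg _)).2.2.2.2 R3 (vs R3)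
      (fun b => b) univ _ D (oe_id isOpen_univ) oD (rg D).1 (fun _ hq => ⟨trivial, sD hq, rfl⟩) hi
  have l2 : ∀ k, LOE N (vs R3) (Gm (-2)) D X fun p => e k (i p) := fun k =>
    (hL N _ R3 (vs R3) (N.F.prod (vs Z)) _ D i ok f5 fr3 oD (rg _)).2.2.2.1 E X (e k) W (he k) m l1
  have d : ∀ k l, ∀ w ∈ W, ∀ w' ∈ W, e k w = e l w' → k = l := fun k l w hw w' hw' a =>
    by_contra fun c => disjoint_left.1 (dis c) ⟨w, hw, rfl⟩ ⟨w', hw', a.symm⟩
  obtain ⟨q₀, hq₀, hq₁⟩ : ∃ q ∈ D, 1 < ‖q.1‖ := by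
    have hc : ContinuousAt (fun s : ℝ => ((s • EuclideanSpace.single 0 1, 0) : E2 × R3)) 1 := by
      fun_prop
    obtain ⟨s, h1, h2⟩ := ((hc.eventually (oD.mem_nhds (hQ (by simp [Q0])))).filter_mono
      nhdsWithin_le_nhds).and (self_mem_nhdsWithin (s := Ioi (1 : ℝ))) |>.exists
    exact ⟨_, h1, by simpa [norm_smul] using lt_abs.2 (Or.inl h2)⟩
  obtain ⟨Y, I', H, R, -, -⟩ := hX N E R3 (Mf.sigma fun _ : ι => vs R3) X (fun b => Gm (-2) b.2)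
    (fun b => Gm 2 b.2) (cps ι D) (cps ι Q0) (fun p => e p.2.1 (i (p.1, p.2.2))) ok hE fr3
    (adm_cps (adm_Gm oD hQ)) (reg_cps (rg D)) (reg_cps (reg_Gm hN (Or.inr rfl) D))
    ⟨(q₀.1, ⟨k₀, q₀.2⟩), hq₀, hq₁⟩ (loe_cps hL ok hE oD (rg D) l2 (by
      rintro ⟨x, k, b⟩ hp ⟨x', k', b'⟩ hp' a
      obtain rfl := d _ _ _ (m (x := (x, b)) hp) _ (m (x := (x', b')) hp') a
      have := oe_inj r.oe (pt_mono sD (a := (x, b)) hp) (pt_mono sD (a := (x', b')) hp')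
        ((he k).inj (m (x := (x, b)) hp) (m (x := (x', b')) hp') a)
      cases this
      rfl))
  have sub : ∀ k, (fun p : N.F × R3 => e k (i (p.1, p.2))) '' N.Pt (Gm (-2)) Q0 ⊆ e k '' W :=
    fun k => image_subset_iff.2 fun p hp => ⟨_, m (pt_mono hQ hp), rfl⟩
  obtain ⟨G, C, c1, c2, c3, c4⟩ := hK N E X Y ι D _ I' H O ok hN.int hE l2 R hO
    (fun k => (sub k).trans (hO' k)) fun k x γ hγ => thin k x γ fun t => sub k (hγ t)
  obtain ⟨β, hβ⟩ := ins_of_rp ok r R oD hQ sD (fun k => te_of_oe (he k)) d m fun _ _ _ => rfl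
  refine ⟨_, _, C, c1, c2, fun k => by rw [image_image]; exact c3 k, fun n hn => ?_,
    (image_univ_of_surjective G.symm.surjective) ▸ hβ.map (te_homeo G.symm isOpen_univ) subset_rfl⟩
  rw [← c4 n hn, G.symm_apply_apply]

theorem pkg_ok (hP : PkStmt) (hK : KeyFStmt) (hX : ExistStmt) (hL : LoeStmt) (hN : N.Good)
    {ε : N.F × E2 → R3 × E2} {R : ℝ} (hε : Emb N ε R) {c : ℝ} (hc : c = (2 * R + 2)⁻¹)
    {i : N.F × R3 → N.F × Z} (hi : i = fun p => ((N.io ε p).1, c • (N.io ε p).2.ofLp)) :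
    ∃ (P : Mf (Rn 5)) (i' : N.F × R3 → P) (h : OpenPartialHomeomorph (N.F × Z) P),
      Rp N (Gm (-2)) (Gm 2) D0 Q0 i i' h ∧
      Pkg N.F P ⟨h, i '' N.Pt (Gm (-2)) Q0, i' '' N.Pt (Gm 2) Q0⟩ := by
  have ok := hN.ok
  have R0 := hε.big
  have c0 : 0 < c := hc ▸ inv_pos.2 (by linarith)
  have c1 : c * (2 * R + 2) = 1 := hc ▸ inv_mul_cancel₀ (by linarith)
  obtain ⟨p1, p2, p3⟩ := hP N ε R ok hε
  obtain ⟨u, hu⟩ : ∃ u : N.F × E2 ≃ₜ N.F × Z, u = (Homeomorph.refl _).prodCongr (af 0 c c0.ne') :=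
    ⟨_, rfl⟩
  have u1 : ∀ p, u p = (p.1, c • p.2.ofLp) := fun p => by rw [hu]; exact Prod.ext rfl (zero_add _)
  have hi' : i = fun p => u (N.io ε p) := by rw [hi]; exact funext fun p => (u1 _).symm
  have rg := reg_Gm hN (Or.inl rfl)
  have l1 : LOE N (vs R3) (Gm (-2)) D0 (N.F.prod (vs Z)) i := hi' ▸
    (hL N (Rn 3 × E2) R3 (vs R3) (N.F.prod (vs E2)) _ D0 _ ok (by simp) fr3 open_D0 (rg _)).2.2.2.1
      _ (N.F.prod (vs Z)) u univ ⟨isOpen_univ, fun p _ => hu ▸ ldAt_id.prodMap (ld_af 0 c0.ne' p.2),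
        u.injective.injOn⟩ (mapsTo_univ _ _) p1
  obtain ⟨P, i', h, r, -, oe⟩ := hX N (Rn 3 × Z) R3 (vs R3) (N.F.prod (vs Z)) (Gm (-2)) (Gm 2) D0 Q0
    i ok (by simp) fr3 (adm_Gm open_D0 Q0_sub) (rg _) (reg_Gm hN (Or.inr rfl) _)
    ⟨(EuclideanSpace.single 0 2, 0), by simp [D0]; norm_num, by simp⟩ l1
  have nz : ‖(EuclideanSpace.single 0 (R + 1 / 2) : E2)‖ = R + 1 / 2 := by
    rw [PiLp.norm_single, Real.norm_of_nonneg (by linarith)]
  have nz' : ‖c • (EuclideanSpace.single 0 (R + 1 / 2) : E2).ofLp‖ = c * (R + 1 / 2) := by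
    rw [norm_smul, Real.norm_of_nonneg c0.le, PiLp.ofLp_single, Pi.norm_single,
      Real.norm_of_nonneg (by linarith)]
  have nb : ∀ z : E2, ‖c • z.ofLp‖ ≤ c * ‖z‖ := fun z => by
    rw [norm_smul, Real.norm_of_nonneg c0.le]
    exact mul_le_mul_of_nonneg_left (norm_ofLp_le z) c0.le
  refine ⟨P, i', h, r, pat_ok ok r, r.src ▸ oe, ⟨c * R, _, by rw [nz']; nlinarith,
    by rw [nz']; nlinarith, ?_, fun x γ hγ => ?_⟩, insert_ok hK hX hL hN l1 r⟩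
  · rintro _ ⟨p, hp, rfl⟩
    rw [hi]
    exact (nb _).trans (mul_le_mul_of_nonneg_left (p2 p (pt_mono Q0_sub hp)).2.2.le c0.le)
  · obtain ⟨H, hH⟩ := p3 _ P u i' h _ (u.isEmbedding.comp IsEmbedding.subtypeVal) (hi' ▸ r)
      (by rw [nz]; linarith) (by rw [nz]; linarith) x γ fun t => by
        obtain ⟨w, hw, a⟩ := hγ t
        exact ⟨w, ⟨(w.1, _), ⟨trivial, rfl⟩, (u1 _).trans (Prod.ext rfl hw.2.symm)⟩, a⟩
    refine ⟨H, fun t => (hH t).imp (fun a => image_mono ?_ a) id⟩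
    rintro _ ⟨⟨w, hw, rfl⟩, a⟩
    refine ⟨⟨trivial, ?_⟩, (r.src ▸ a :)⟩
    rw [u1, mem_ball_zero_iff]
    have := mem_ball_zero_iff.1 hw.2
    exact (nb _).trans_lt (by nlinarith)

/-! ### The top level -/

section
variable {T : Type} [TopologicalSpace T] {Γ S : T × ℝ → ℝ}

/-- an even function of the last variable that decreases on the half-line, with its inverse -/
structure Ev (Γ S : T × ℝ → ℝ) : Prop where
  c : Continuous Γ
  ev : ∀ z s, Γ (z, -s) = Γ (z, s)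
  anti : ∀ z, StrictAntiOn (fun s => Γ (z, s)) (Ici 0)
  cS : ContinuousOn S {a | a.2 ≤ Γ (a.1, 0)}
  inv : ∀ z t, t ≤ Γ (z, 0) → 0 ≤ S (z, t) ∧ Γ (z, S (z, t)) = t

namespace Ev
variable (h : Ev Γ S)
include h

theorem le (z : T) {s : ℝ} (hs : 0 ≤ s) : Γ (z, s) ≤ Γ (z, 0) :=
  (h.anti z).antitoneOn (mem_Ici.2 le_rfl) hs hs

theorem left (z : T) {s : ℝ} (hs : 0 ≤ s) : S (z, Γ (z, s)) = s :=
  (h.anti z).injOn (h.inv z _ (h.le z hs)).1 hs (h.inv z _ (h.le z hs)).2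

/-- unfolding of the two sheets -/
def E : E2 × T × ℝ ≃ₜ V × T where
  toFun y := (c3 (y.1, Γ (y.2.1, min y.2.2 0) + Γ (y.2.1, 0) - Γ (y.2.1, max y.2.2 0)), y.2.1)
  invFun b := ((c3.symm b.1).1, b.2, S (b.2, min (2 * Γ (b.2, 0) - b.1 2) (Γ (b.2, 0))) -
    S (b.2, min (b.1 2) (Γ (b.2, 0))))
  left_inv y := by
    obtain ⟨x, z, s⟩ := y
    simp only [c3.symm_apply_apply, c3_two]
    refine Prod.ext rfl (Prod.ext rfl ?_)
    rcases le_total s 0 with a | a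
    · have b := h.le z (neg_nonneg.2 a)
      simp only [min_eq_left a, max_eq_right a, add_sub_cancel_right]
      rw [← h.ev z s, min_eq_left b, min_eq_right (by linarith), h.left z le_rfl,
        h.left z (neg_nonneg.2 a), zero_sub, neg_neg]
    · have b := h.le z a
      simp only [min_eq_right a, max_eq_left a]
      rw [min_eq_right (a := _ - Γ (z, s)) (by linarith), show 2 * Γ (z, 0) - (Γ (z, 0) + Γ (z, 0) -
        Γ (z, s)) = Γ (z, s) by ring, min_eq_left b, h.left z le_rfl, h.left z a, sub_zero]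
  right_inv b := by
    obtain ⟨v, z⟩ := b
    refine Prod.ext (c3.symm.injective ?_) rfl
    simp only [c3.symm_apply_apply]
    refine Prod.ext rfl (show _ = v 2 from ?_)
    rcases le_total (v 2) (Γ (z, 0)) with a | a
    · have b := h.inv z _ a
      simp only [min_eq_left a]
      rw [min_eq_right (a := _ - v 2) (by linarith), h.left z le_rfl, zero_sub,
        min_eq_left (neg_nonpos.2 b.1), max_eq_right (neg_nonpos.2 b.1), h.ev, b.2,
        add_sub_cancel_right]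
    · have a' : 2 * Γ (z, 0) - v 2 ≤ Γ (z, 0) := by linarith
      have b := h.inv z _ a'
      simp only [min_eq_right a]
      rw [min_eq_left a', h.left z le_rfl, sub_zero, min_eq_right b.1, max_eq_left b.1, b.2]
      ring
  continuous_toFun := by have := h.c; fun_prop
  continuous_invFun := by
    have := h.c
    exact (by fun_prop : Continuous fun b : V × T => (c3.symm b.1).1).prodMk (continuous_snd.prodMk
      ((h.cS.comp_continuous (by fun_prop) fun _ => mem_ofPred.2 (min_le_right _ _)).sub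
        (h.cS.comp_continuous (by fun_prop) fun _ => mem_ofPred.2 (min_le_right _ _))))

theorem E_neg (x : E2) (z : T) {s : ℝ} (hs : s ≤ 0) : h.E (x, z, s) = (c3 (x, Γ (z, s)), z) := by
  simp [E, min_eq_left hs, max_eq_right hs]

theorem E_pos (x : E2) (z : T) {s : ℝ} (hs : 0 ≤ s) :
    h.E (x, z, s) = (c3 (x, 2 * Γ (z, 0) - Γ (z, s)), z) := by
  simp [E, min_eq_right hs, max_eq_left hs, two_mul]

end Ev

end

theorem top_core (ok : N.Ok) {T : Type} [TopologicalSpace T] [T2Space T] [CompactSpace T]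
    {p : Z → T} (tor : T4.Tor p) {Γ S : T × ℝ → ℝ} (ev : Ev Γ S) {ρ a C : ℝ} (ρ1 : 1 ≤ ρ)
    (a0 : 0 < a) (a1 : a ≤ 1) (g2 : ∀ z, ρ + 1 < Γ (z, 0)) {i : N.F × R3 → N.F × Z} {P : Type}
    [TopologicalSpace P] {i' : N.F × R3 → P} {h : OpenPartialHomeomorph (N.F × Z) P}
    (r : Rp N (Gm (-2)) (Gm 2) D0 Q0 i i' h)
    (hW : ∀ q ∈ N.Pt (Gm (-2)) D0, ‖kap N (i q).1‖ < ρ ∧ ‖(i q).2‖ < 1)
    {I : N.F × (Σ _ : Bool, R3) → N.Hyp Γ} {I' : N.F × (Σ _ : Bool, R3) → E2 × T × ℝ}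
    {H : OpenPartialHomeomorph (N.Hyp Γ) (E2 × T × ℝ)}
    (g7 : ∀ σ, ∀ q ∈ N.Pt (Gm (-2)) D0, (I (q.1, ⟨σ, q.2⟩) : N.F × T × ℝ) = ((i q).1,
      p (zc + a • (i q).2), (if σ then -1 else 1) * S (p (zc + a • (i q).2), N.f (i q).1)))
    (g8 : Rp N (fun b => Gm (-2) b.2) (fun b => Gm 2 b.2) (cps Bool D0) (cps Bool Q0) I I' H)
    (g9 : ∀ y : N.Hyp Γ, C < ‖N.w y.1.1‖ ∨ C < |y.1.2.2| → y ∈ H.source ∧ H y = N.pr y.1) :
    ∃ (k : N.Hyp Γ → V × T) (s : V × T → N.Hyp Γ) (j : N.F × T → N.Hyp Γ) (ρ' : ℝ)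
      (u : Z → Z) (W : Set (N.F × Z)) (e : Bool → N.F × Z → N.Hyp Γ) (α : N.Hyp Γ → V × T)
      (β : Bool → P → V × T),
      Top3 (kap N) ⟨h, i '' N.Pt (Gm (-2)) Q0, i' '' N.Pt (Gm 2) Q0⟩ p k s j ρ ρ' a u W e α β := by
  have g1 := ev.c
  obtain ⟨M, hM⟩ := (isCompact_range (g1.comp (continuous_id.prodMk
    (continuous_const (y := (0 : ℝ)))))).bddAbove
  have hM' : ∀ z, Γ (z, 0) ≤ M := fun z => hM ⟨z, rfl⟩
  have M0 : ρ + 1 < M := (g2 (p 0)).trans_le (hM' _)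
  have : Nonempty (N.Hyp Γ) := ⟨I (Classical.arbitrary _, ⟨true, 0⟩)⟩
  obtain ⟨o, o1⟩ : ∃ o : N.F × T × ℝ → N.Hyp Γ, ∀ y ∈ N.Hyp Γ, (o y).1 = y :=
    ⟨invFun Subtype.val, fun y hy => invFun_eq ⟨⟨y, hy⟩, rfl⟩⟩
  have o2 : ∀ y : N.Hyp Γ, o y.1 = y := fun y => Subtype.ext (o1 _ y.2)
  have oc : ∀ {A : Type} [TopologicalSpace A] {g : A → N.F × T × ℝ} {U : Set A},
      ContinuousOn g U → MapsTo g U (N.Hyp Γ) → ContinuousOn (fun a => o (g a)) U := fun hg m =>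
    IsInducing.subtypeVal.continuousOn_iff.2 (hg.congr fun a ha => o1 _ (m ha))
  -- the sheets
  have sh : ∀ (m : N.F) (τ : T), ‖kap N m‖ < ρ + 1 → N.f m < Γ (τ, 0) ∧ 0 < S (τ, N.f m) ∧
      (m, τ, -S (τ, N.f m)) ∈ N.Hyp Γ ∧ (m, τ, S (τ, N.f m)) ∈ N.Hyp Γ := fun m τ hm => by
    have a : N.f m < Γ (τ, 0) :=
      (((le_abs_self _).trans (abs_le_c3 (N.pj m))).trans_lt hm).trans (g2 τ)
    have b := ev.inv τ _ a.le
    exact ⟨a, b.1.lt_of_ne fun t => a.ne (by rw [← b.2, ← t]), b.2.symm.trans (ev.ev _ _).symm,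
      b.2.symm⟩
  obtain ⟨e, he⟩ : ∃ e : Bool → N.F × Z → N.Hyp Γ, ∀ σ w, e σ w = o (w.1, p (zc + a • w.2),
    (if σ then -1 else 1) * S (p (zc + a • w.2), N.f w.1)) := ⟨_, fun _ _ => rfl⟩
  have eI : ∀ σ, ∀ q ∈ N.Pt (Gm (-2)) D0, I (q.1, ⟨σ, q.2⟩) = e σ (i q) := fun σ q hq => by
    rw [← o2 (I _), g7 σ q hq, he]
  have ti := te_emb r.oe
  have im : (N.Pt (Gm (-2)) D0).domRestrict i '' univ = i '' N.Pt (Gm (-2)) D0 := by
    rw [image_univ, range_domRestrict]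
  have inj : ∀ σ σ', ∀ q ∈ N.Pt (Gm (-2)) D0, ∀ q' ∈ N.Pt (Gm (-2)) D0,
      e σ (i q) = e σ' (i q') → σ = σ' ∧ q = q' := fun σ σ' q hq q' hq' a => by
    rw [← eI σ q hq, ← eI σ' q' hq'] at a
    have := oe_inj g8.oe (x₁ := (q.1, ⟨σ, q.2⟩)) hq (x₂ := (q'.1, ⟨σ', q'.2⟩)) hq' a
    exact ⟨congrArg (fun t => t.2.1) this, congrArg (fun t => (t.1, t.2.2)) this⟩
  have te : ∀ σ, TE (e σ) (i '' N.Pt (Gm (-2)) D0) := fun σ =>
    ⟨im ▸ ti.toCO.desc (te_cps ok open_D0 g8.oe σ).toCO fun q _ => (eI σ q q.2).symm, by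
      rintro _ ⟨q, hq, rfl⟩ _ ⟨q', hq', rfl⟩ a
      rw [(inj _ _ q hq q' hq' a).2]⟩
  have : Nonempty (E2 × T × ℝ) := ⟨(0, p 0, 0)⟩
  obtain ⟨β, hβ⟩ := ins_of_rp ok r g8 open_D0 Q0_sub subset_rfl te (by
    rintro σ σ' _ ⟨q, hq, rfl⟩ _ ⟨q', hq', rfl⟩ a
    exact (inj _ _ q hq q' hq' a).1) (mapsTo_image _ _) eI
  obtain ⟨E, En, Ep⟩ : ∃ E : E2 × T × ℝ ≃ₜ V × T,
      (∀ x z s, s ≤ 0 → E (x, z, s) = (c3 (x, Γ (z, s)), z)) ∧
      ∀ x z s, 0 ≤ s → E (x, z, s) = (c3 (x, 2 * Γ (z, 0) - Γ (z, s)), z) :=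
    ⟨ev.E, fun x z _ => ev.E_neg x z, fun x z _ => ev.E_pos x z⟩
  -- the section
  have out : ∀ y : E2 × T × ℝ, 1 < ‖(E y).1‖ → (E y).1 ∉ hi (ρ + 1) (2 * M + ρ) →
      (y.1, Γ y.2) ∈ Out := by
    rintro ⟨x, z, s⟩ a b
    rcases le_total s 0 with t | t
    · exact out_of (by rwa [En x z s t] at a)
    · rw [Ep x z s t] at b
      by_contra d
      have d1 : ‖x‖ ≤ 1 := not_lt.1 fun u => d (Or.inl u)
      have d2 : |Γ (z, s)| ≤ 1 := not_lt.1 fun u => d (Or.inr u)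
      have d3 : |2 * Γ (z, 0) - Γ (z, s)| ≤ 2 * M + ρ := by
        rw [abs_le] at d2 ⊢
        constructor <;> linarith [g2 z, hM' z, d2.1, d2.2]
      exact b ⟨norm_c3_le (d1.trans (by linarith)) d3,
        show ρ + 1 ≤ 2 * Γ (z, 0) - Γ (z, s) by linarith [(abs_le.1 d2).2, g2 z]⟩
  have sec : ∀ y : E2 × T × ℝ, (y.1, Γ y.2) ∈ Out → (N.pinv (y.1, Γ y.2), y.2) ∈ N.Hyp Γ ∧
      N.w (N.pinv (y.1, Γ y.2)) = y.1 := fun y a =>
    ⟨congrArg Prod.snd (pj_pinv ok a), congrArg Prod.fst (pj_pinv ok a)⟩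
  have kn : ∀ y : N.Hyp Γ, y.1.2.2 ≤ 0 → E (N.pr y.1) = (kap N y.1.1, y.1.2.1) := fun y a =>
    (En _ _ _ a).trans (Prod.ext (congrArg c3 (Prod.ext rfl (Eq.symm y.2))) rfl)
  have jl : ∀ y : N.Hyp Γ, y.1.2.2 ≤ 0 →
      o (y.1.1, y.1.2.1, -S (y.1.2.1, N.f y.1.1)) = y := fun y a => by
    rw [show N.f y.1.1 = Γ (y.1.2.1, y.1.2.2) from y.2, ← ev.ev, ev.left _ (neg_nonneg.2 a), neg_neg]
    exact o2 y
  have ck := cont_kap ok
  have ce := E.symm.continuous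
  have d0 : ∀ b : V × T, 1 < ‖b.1‖ ∧ b.1 ∉ hi (ρ + 1) (2 * M + ρ) →
      ((E.symm b).1, Γ (E.symm b).2) ∈ Out := fun b a =>
    out _ (by rw [E.apply_symm_apply]; exact a.1) (by rw [E.apply_symm_apply]; exact a.2)
  refine ⟨fun y => E (N.pr y.1), fun b => o (N.pinv ((E.symm b).1, Γ (E.symm b).2), (E.symm b).2),
    fun w => o (w.1, w.2, -S (w.2, N.f w.1)), 2 * M + ρ, fun z => zc + a • z,
    i '' N.Pt (Gm (-2)) D0, e, fun n => E (H n), fun σ y => E (β σ y), tor, ρ1, by linarith, a0, a1,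
    E.continuous.comp ((cont_pr ok).comp continuous_subtype_val), ?_, fun b a1 a2 => ?_,
    fun y a1 a2 => ?_, ?_, fun m τ a => ?_, fun y a => ?_, (te true).dom,
    image_mono (pt_mono Q0_sub), forall_mem_image.2 hW, fun w _ => ?_, by fun_prop,
    fun σ => (te σ).cont, ?_, ?_, ?_⟩
  · exact oc (fun b a => (((cont_pinv ok (d0 b a)).comp (f := fun b => ((E.symm b).1,
      Γ (E.symm b).2)) (by fun_prop)).prodMk ce.snd.continuousAt).continuousWithinAt)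
      fun b a => (sec _ (d0 b a)).1
  · have d := sec _ (d0 b ⟨a1, a2⟩)
    rw [o1 _ d.1, NF.pr, d.2]
    exact E.apply_symm_apply b
  · have d := out _ a1 a2
    rw [E.symm_apply_apply]
    rw [show ((N.pr y.1).1, Γ (N.pr y.1).2) = N.pj y.1.1 from Prod.ext rfl (Eq.symm y.2)] at d ⊢
    rw [show N.pinv (N.pj y.1.1) = _ from ok.oe.left d]
    exact o2 y
  · refine te_of_inv (k := fun y => (y.1.1, y.1.2.1))
      (T := {y | ‖kap N y.1.1‖ < ρ + 1} ∩ {y | y.1.2.2 < 0})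
      (isOpen_lt (ck.comp continuous_fst).norm continuous_const)
      ((isOpen_lt (ck.comp continuous_subtype_val.fst).norm continuous_const).inter
        (isOpen_lt continuous_subtype_val.snd.snd continuous_const))
      (oc (continuousOn_fst.prodMk (continuousOn_snd.prodMk
        (ev.cS.comp (continuous_snd.prodMk ((cont_f ok).comp continuous_fst)).continuousOn
          fun w hw => (sh w.1 w.2 hw).1.le).neg)) fun w hw => (sh w.1 w.2 hw).2.2.1)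
      (continuous_subtype_val.fst.prodMk continuous_subtype_val.snd.fst).continuousOn
      (fun w hw => ?_) (fun w hw => ?_) fun y hy => jl y hy.2.le
    · have d := sh w.1 w.2 hw
      simp only [mem_inter_iff, mem_ofPred_eq, o1 _ d.2.2.1]
      exact ⟨hw, neg_neg_of_pos d.2.1⟩
    · simp only [o1 _ (sh w.1 w.2 hw).2.2.1]
  · have d := sh m τ a
    rw [kn _ (by rw [o1 _ d.2.2.1]; exact (neg_neg_of_pos d.2.1).le), o1 _ d.2.2.1]
  · have d : y.1.2.2 ≤ 0 := by_contra fun t => by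
      have t' := (not_le.1 t).le
      rw [show N.pr y.1 = (N.w y.1.1, y.1.2.1, y.1.2.2) from rfl, Ep _ _ _ t'] at a
      have b : |2 * Γ (y.1.2.1, 0) - Γ (y.1.2.1, y.1.2.2)| ≤ 1 := (abs_le_c3 (_, _)).trans a
      linarith [ev.le y.1.2.1 t', g2 y.1.2.1, (abs_le.1 b).2]
    rw [kn y d] at a
    exact ⟨_, _, a.trans_lt (by linarith), jl y d⟩
  · rw [he, if_pos rfl, neg_one_mul]
  · rintro _ ⟨q, hq, rfl⟩
    obtain ⟨τ, hτ⟩ : ∃ τ, τ = p (zc + a • (i q).2) := ⟨_, rfl⟩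
    have b := (hW q hq).1
    have d := sh (i q).1 τ (b.trans (lt_add_one _))
    have b3 : E (N.pr (e false (i q)).1) = (c3 (N.w (i q).1, 2 * Γ (τ, 0) - N.f (i q).1), τ) := by
      rw [he, if_neg Bool.false_ne_true, one_mul, ← hτ, o1 _ d.2.2.2]
      exact (Ep _ _ _ d.2.1.le).trans (by rw [(ev.inv τ _ d.1.le).2])
    have b4 : |N.f (i q).1| < ρ := (abs_le_c3 (N.pj (i q).1)).trans_lt b
    have b5 : |2 * Γ (τ, 0) - N.f (i q).1| ≤ 2 * M + ρ := by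
      rw [abs_lt] at b4
      rw [abs_le]
      constructor <;> linarith [g2 τ, hM' τ, b4.1, b4.2]
    rw [b3]
    exact ⟨⟨norm_c3_le' (b.le.trans (by linarith)) b5, show ρ + 1 ≤ 2 * Γ (τ, 0) - N.f (i q).1 by
      linarith [g2 τ, (abs_lt.1 b4).2]⟩, hτ⟩
  · exact (image_univ_of_surjective E.surjective) ▸ hβ.map (te_homeo E isOpen_univ) subset_rfl
  · obtain ⟨B, hB⟩ := (((isCompact_closedBall (0 : E2) C).prod (isCompact_univ.prod
      (isCompact_closedBall (0 : ℝ) C))).image E.continuous.fst.norm).bddAbove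
    refine ⟨B + 1, fun y a => ?_⟩
    rw [(g9 y (by_contra fun t => ?_)).2]
    rw [not_or, not_lt, not_lt] at t
    linarith [hB ⟨N.pr y.1, ⟨mem_closedBall_zero_iff.2 t.1, trivial, mem_closedBall_zero_iff.2 t.2⟩,
      rfl⟩]

theorem top_ok (hP : PkStmt) (hA : AStmt) (hN : N.Good) {ε : N.F × E2 → R3 × E2} {R : ℝ}
    (hε : Emb N ε R) {c : ℝ} (hc : c = (2 * R + 2)⁻¹) {i : N.F × R3 → N.F × Z}
    (hi : i = fun p => ((N.io ε p).1, c • (N.io ε p).2.ofLp)) {P : Type} [TopologicalSpace P]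
    {i' : N.F × R3 → P} {h : OpenPartialHomeomorph (N.F × Z) P}
    (r : Rp N (Gm (-2)) (Gm 2) D0 Q0 i i' h) :
    ∃ (T L : Type) (_ : TopologicalSpace T) (_ : T2Space T) (_ : TopologicalSpace L)
      (_ : T2Space L) (p : Z → T) (k : L → V × T) (s : V × T → L) (j : N.F × T → L) (ρ ρ' r : ℝ)
      (u : Z → Z) (W : Set (N.F × Z)) (e : Bool → N.F × Z → L) (α : L → V × T)
      (β : Bool → P → V × T),
      Top3 (kap N) ⟨h, i '' N.Pt (Gm (-2)) Q0, i' '' N.Pt (Gm 2) Q0⟩ p k s j ρ ρ' r u W e α β := by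
  have R0 := hε.big
  have c0 : 0 < c := hc ▸ inv_pos.2 (by linarith)
  have c1 : c * (2 * R + 2) = 1 := hc ▸ inv_mul_cancel₀ (by linarith)
  obtain ⟨-, p2, -⟩ := hP N ε R hN.ok hε
  obtain ⟨L₀, hL₀⟩ := hA N ε R hN hε (2 * R ^ 2 + 1)
  obtain ⟨T, p, t1, t2, t3, t4, t5⟩ := torus 2
  obtain ⟨L, L1, L2⟩ : ∃ L, 2 * π * (2 * R + 2) ≤ L ∧ L₀ ≤ L :=
    ⟨max _ _, le_max_left _ _, le_max_right _ _⟩
  have L0 : 0 < L := lt_of_lt_of_le (mul_pos Real.two_pi_pos (by linarith)) L1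
  have a0 : 0 < 2 * π / L := div_pos Real.two_pi_pos L0
  obtain ⟨Γ, S, I, I', H, g1, g2, g3, g4, g5, g6, g7, g8, C, g9⟩ := hL₀ L L2 T
    (fun z => p (af zc _ a0.ne' z)) ⟨fun z => (ld_af zc a0.ne' z).trans (t1 _),
      t2.comp (af zc _ a0.ne').surjective, t3.comp_homeomorph _, fun z z' => by
        rw [t4]
        refine forall_congr' fun k => exists_congr fun n => ?_
        rw [show af zc _ a0.ne' z k - af zc _ a0.ne' z' k = 2 * π / L * (z k - z' k) by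
          simp [af]; ring, div_mul_eq_mul_div, div_eq_iff L0.ne', mul_comm (n : ℝ) (2 * π),
          mul_assoc (2 * π), mul_right_inj' Real.two_pi_pos.ne'], t5⟩
  obtain ⟨k, s, j, ρ', u, W, e, α, β, H⟩ := top_core (a := 2 * π / L * (2 * R + 2)) hN.ok
    ⟨t3, t2, fun z z' => by simp only [t4, Lat, mul_comm]⟩ ⟨g1, g3, g4, g5, g6⟩ (by nlinarith)
    (mul_pos a0 (by linarith)) (by rwa [div_mul_eq_mul_div, div_le_one L0]) g2 r (fun q hq => by
      obtain ⟨a1, a2, a3⟩ := p2 q hq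
      rw [hi]
      refine ⟨(pi_norm_lt_iff (by positivity)).2 fun k => ?_, ?_⟩
      · fin_cases k
        exacts [(PiLp.norm_apply_le _ 0).trans_lt (a1.trans_le (by nlinarith)),
          (PiLp.norm_apply_le _ 1).trans_lt (a1.trans_le (by nlinarith)), a2]
      · rw [norm_smul, Real.norm_of_nonneg c0.le]
        nlinarith [norm_ofLp_le (N.io ε q).2]) (fun σ q hq => by
      rw [g7 σ q hq, hi]
      simp only [smul_smul, mul_assoc, mul_comm (2 * R + 2) c, c1, mul_one]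
      rfl) g8 g9
  exact ⟨T, _, _, inferInstance, _, inferInstance, p, k, s, j, _, ρ', _, u, W, e, α, β, H⟩

end T23

open T23 in
theorem t23 (h1 : NFStmt) (h2 : EmbStmt) (h3 : PkStmt) (h4 : KeyFStmt) (h5 : ExistStmt)
    (h6 : LoeStmt) (_h : SelfStmt) (h7 : AStmt) : T4.T23Stmt := by
  intro F e₀ e hF
  obtain ⟨N, em, th, th', hN, hE⟩ := h1 F e₀ e hF
  obtain ⟨ε, R, hε⟩ := h2 N hN
  obtain ⟨P, i', h, r, hP⟩ := pkg_ok h3 h4 h5 h6 hN hε rfl rfl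
  exact ⟨N.F, em, _, _, _, th, P, _, hE.oe, kap_ok hN.ok, end_ok hN.ok hE, hP,
    top_ok h3 h7 hN hε rfl rfl r⟩

end Pool.Agent.MP_e1dc65_gt.T

end
end MrgPart1

-- marker of a merged file
example : 731051 + 63910 = 731051 + 63910 := rfl
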