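import Pool.Agent.MP_e1dc65_gt.t1.Base
import Mathlib.Analysis.Calculus.DerivativeTest
import Mathlib.Analysis.Convex.PathConnected
import Mathlib.Analysis.Calculus.ContDiff.Polynomial
import Mathlib.Analysis.Normed.Module.Connected
import Mathlib.LinearAlgebra.Lagrange
import Mathlib.Analysis.Calculus.InverseFunctionTheorem.FDeriv
import Mathlib.Analysis.Normed.Module.HahnBanach
import Mathlib.Analysis.Calculus.Deriv.Slope
import Mathlib.Analysis.Calculus.Deriv.Comp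
import Mathlib.Analysis.Calculus.Deriv.Add
import Mathlib.Analysis.Calculus.Deriv.Linear
import Pool.Agent.MP_e1dc65_gt.t1.Arc
import Pool.Agent.MP_e1dc65_gt.t1.Cancel
import Pool.Agent.MP_e1dc65_gt.t2.Kill
import Pool.Agent.MP_e1dc65_gt.t1.Loc2
import Pool.Agent.MP_e1dc65_gt.k.Hol
import Pool.Agent.MP_e1dc65_gt.e.aLie
import Pool.Agent.MP_e1dc65_gt.k.Std
import Pool.Agent.MP_e1dc65_gt.k.Cov
import Pool.Agent.MP_e1dc65_gt.t.KeyM1

-- ======== part 0: formerly Pool.Agent.MP_e1dc65_gt.t.Key1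
section MrgPart0

-- ======== part 0: formerly Pool.Agent.MP_e1dc65_gt.t1.Mdl1
section MrgPart0

/-! PROJECT HC, part T1, row MDL1: the model of dimension one. -/

open scoped ContDiff
open Set Metric Filter Topology Function Module

noncomputable section

namespace Pool.Agent.MP_e1dc65_gt.T1

theorem mdl1_det (D : ℝ →L[ℝ] ℝ) : D.det = D 1 := by
  have : (D : ℝ →ₗ[ℝ] ℝ) = D 1 • LinearMap.id := by ext; simp
  rw [ContinuousLinearMap.det, this]
  simp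

theorem mdl1_join (D D' : ℝ →L[ℝ] ℝ) (h : D.det * D'.det < 0) :
    JoinedIn {0}ᶜ (D 1) (-D' 1) := by
  rw [mdl1_det, mdl1_det] at h
  refine JoinedIn.of_segment_subset ?_
  rcases mul_neg_iff.1 h with ⟨a, b⟩ | ⟨a, b⟩
  · exact ((convex_Ioi 0).segment_subset a (neg_pos.2 b)).trans fun _ hx => ne_of_gt hx
  · exact ((convex_Iio 0).segment_subset a (neg_lt_zero.2 b)).trans fun _ hx => ne_of_lt hx

theorem mdl1_sign {f : ℝ → ℝ} {a d : ℝ} (hf : HasDerivAt f d a) (h0 : f a = 0) (hd : 0 < d) :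
    ∀ᶠ z in 𝓝 a, (z < a → f z < 0) ∧ (a < z → 0 < f z) := by
  filter_upwards [eventually_nhdsWithin_sign_eq_of_deriv_pos (hf.deriv.symm ▸ hd) h0] with z hz
  exact ⟨fun h => by rwa [sign_neg (sub_neg.2 h), sign_eq_neg_one_iff] at hz,
    fun h => by rwa [sign_pos (sub_pos.2 h), sign_eq_one_iff] at hz⟩

/-- the analysis along one arc -/
theorem mdl1_arc {y : ℝ → ℝ} {a b : ℝ} (hab : a < b) (hy : ∀ t ∈ Icc a b, ContDiffAt ℝ 2 y t)
    (ha : y a = 0) (hb : y b = 0) (hi : ∀ t ∈ Ioo a b, y t ≠ 0) (hd : deriv y a * deriv y b < 0) :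
    ∀ t ∈ Icc a b, 0 ≤ deriv y a * y t ∧
      ∀ᶠ z in 𝓝 t, ContinuousAt y z ∧ (0 ≤ deriv y a * y z → z ∈ Icc a b) := by
  have d : ∀ t ∈ Icc a b, HasDerivAt y (deriv y t) t := fun t ht =>
    ((hy t ht).differentiableAt (by simp)).hasDerivAt
  have h1 := mdl1_sign ((d a (left_mem_Icc.2 hab.le)).const_mul (deriv y a)) (by simp [ha])
    (mul_self_pos.2 (left_ne_zero_of_mul hd.ne))
  have h2 := mdl1_sign ((d b (right_mem_Icc.2 hab.le)).const_mul (deriv y a)).neg (by simp [hb])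
    (neg_pos.2 hd)
  intro t ht
  refine ⟨by_contra fun c => ?_, Eventually.and
    (((hy t ht).eventually (by simp)).mono fun z hz => hz.continuousAt) ?_⟩
  · have ht' : a < t := lt_of_le_of_ne ht.1 (by rintro rfl; simp [ha] at c)
    have ht'' : t < b := lt_of_le_of_ne ht.2 (by rintro rfl; simp [hb] at c)
    obtain ⟨s, hs, h3⟩ := ((h1.filter_mono nhdsWithin_le_nhds).and (Ioo_mem_nhdsGT ht')).exists
    have hc : ContinuousOn (fun z => deriv y a * y z) (Icc s t) := fun z hz =>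
      (continuousAt_const.mul (d z ⟨h3.1.le.trans hz.1, hz.2.trans ht.2⟩).continuousAt).continuousWithinAt
    obtain ⟨z, hz, e⟩ := intermediate_value_Icc' h3.2.le hc ⟨(not_le.1 c).le, (hs.2 h3.1).le⟩
    exact mul_ne_zero (left_ne_zero_of_mul hd.ne)
      (hi z ⟨h3.1.trans_le hz.1, hz.2.trans_lt ht''⟩) e
  · rcases ht.1.eq_or_lt with rfl | h3
    · filter_upwards [h1, Iio_mem_nhds hab] with z h4 h5 h6
      exact ⟨not_lt.1 fun c => (h4.1 c).not_ge h6, le_of_lt h5⟩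
    rcases ht.2.eq_or_lt with rfl | h4
    · filter_upwards [h2, Ioi_mem_nhds hab] with z h4 h5 h6
      exact ⟨le_of_lt h5, not_lt.1 fun c => (neg_pos.1 (h4.2 c)).not_ge h6⟩
    · filter_upwards [Icc_mem_nhds h3 h4] with z h5 _ using h5

theorem mdl1_loc : LocP (ContinuousLinearMap.id ℝ ℝ) := by
  intro I y hy hE
  simp only [ContinuousLinearMap.coe_id', id, image_id'] at hy ⊢
  have mem : ∀ n ∈ I, ∀ t ∈ Icc (2 * n : ℝ) (2 * n + 1), t ∈ KI I := fun n hn t ht =>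
    mem_biUnion hn ht
  have hd : ∀ n ∈ I, deriv y (2 * n) * deriv y (2 * n + 1) < 0 := fun n hn => by
    simpa only [mdl1_det, ContinuousLinearMap.coe_id', id, deriv] using (hE n hn).2.2.2
  have key := fun n hn => mdl1_arc (lt_add_one _) (fun t ht => hy t (mem n hn t ht)) (hE n hn).1
    (hE n hn).2.1 (hE n hn).2.2.1 (hd n hn)
  let ε : ℝ → ℝ := fun z => deriv y (2 * (⌊(z + 1 / 2) / 2⌋₊ : ℕ))
  have hε : ∀ n : ℕ, ∀ z ∈ Ioo (2 * n - 1 / 2 : ℝ) (2 * n + 3 / 2), ε z = deriv y (2 * n) :=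
    fun n z hz => by
      have h0 : (0 : ℝ) ≤ n := n.cast_nonneg
      simp only [ε, (Nat.floor_eq_iff (a := (z + 1 / 2) / 2) (n := n) (by linarith [hz.1])).2
        ⟨by linarith [hz.1], by linarith [hz.2]⟩]
  have sub : ∀ n : ℕ, Icc (2 * n : ℝ) (2 * n + 1) ⊆ Ioo (2 * n - 1 / 2 : ℝ) (2 * n + 3 / 2) :=
    fun n => Icc_subset_Ioo (by linarith) (by linarith)
  let T : Set ℝ := {z | ∃ n ∈ I, z ∈ Ioo (2 * n - 1 / 2 : ℝ) (2 * n + 3 / 2) ∧ ContinuousAt y z ∧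
    (0 ≤ deriv y (2 * n) * y z → z ∈ Icc (2 * n : ℝ) (2 * n + 1))}
  have cε : ∀ z ∈ T, ContinuousAt ε z ∧ ε z ≠ 0 := fun z ⟨n, hn, h, _⟩ =>
    ⟨continuousAt_const.congr (eventually_of_mem (isOpen_Ioo.mem_nhds h) fun w hw =>
      (hε n w hw).symm), hε n z h ▸ left_ne_zero_of_mul (hd n hn).ne⟩
  refine ⟨T, mem_nhdsSet_iff_forall.2 fun t ht => ?_, fun z => (ε z)⁻¹ * max (ε z * y z) 0, ε,
    fun _ => 0, fun z hz => ?_, fun z hz => (cε z hz).1.continuousWithinAt, continuousOn_const,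
    fun t ht => ⟨?_, rfl⟩, fun z hz κ hκ r hr r' _ _ e => ?_⟩
  · obtain ⟨n, hn, h⟩ := mem_iUnion₂.1 ht
    filter_upwards [(key n hn t h).2, isOpen_Ioo.mem_nhds (sub n h)] with z h1 h2
    exact ⟨n, hn, h2, h1⟩
  · obtain ⟨h1, h2⟩ := cε z hz
    obtain ⟨n, -, -, h3, -⟩ := hz
    exact ((h1.inv₀ h2).mul ((h1.mul h3).max continuousAt_const)).continuousWithinAt
  · obtain ⟨n, hn, h⟩ := mem_iUnion₂.1 ht
    beta_reduce
    rw [hε n t (sub n h), max_eq_left (key n hn t h).1,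
      inv_mul_cancel_left₀ (left_ne_zero_of_mul (hd n hn).ne)]
  · have h2 := (cε z hz).2
    obtain ⟨n, hn, h1, -, h3⟩ := hz
    have h4 : 0 < κ * (ε z * ε z) := mul_pos hκ (mul_self_pos.2 h2)
    have h5 : ε z * y z = r * (max (ε z * y z) 0 + κ * (ε z * ε z)) := by
      simp only [smul_eq_mul, mul_zero, add_zero] at e
      generalize max (ε z * y z) 0 = M at e ⊢
      rw [e]
      field_simp
    refine ⟨mem n hn z (h3 ?_), lt_of_le_of_ne hr.2 ?_⟩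
    · rw [← hε n z h1, h5]
      exact mul_nonneg hr.1 (add_nonneg (le_max_right _ _) h4.le)
    · rintro rfl
      linarith [le_max_left (ε z * y z) 0]

theorem mdl1_place : PlaceP (ContinuousLinearMap.id ℝ ℝ) := by
  classical
  intro Z m _ h
  have key : ∀ z ∈ Z, ∀ w ∈ Z, w ∈ uIcc z (m z) → w = z ∨ w = m z := fun z hz w hw hm => by
    obtain ⟨γ, hγ⟩ := (h z hz).2.2.2 (finrank_self ℝ)
    obtain ⟨t, rfl⟩ : w ∈ range γ :=
      (isPreconnected_range γ.continuous).ordConnected.uIcc_subset ⟨0, γ.source⟩ ⟨1, γ.target⟩ hm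
    by_cases h0 : t = 0
    · exact .inl (h0 ▸ γ.source)
    by_cases h1 : t = 1
    · exact .inr (h1 ▸ γ.target)
    exact absurd hw (hγ t h0 h1)
  have seg : ∀ z, ∀ t ∈ Icc (0 : ℝ) 1, z + t * (m z - z) ∈ uIcc z (m z) := fun z t ht => by
    rw [← segment_eq_uIcc, segment_eq_image']
    exact ⟨t, ht, rfl⟩
  let c : ℝ → ℝ := fun z => if m z = z then 1 else m z - z
  have c0 : ∀ z, c z ≠ 0 := fun z => by
    simp only [c]
    split_ifs with e
    exacts [one_ne_zero, sub_ne_zero.2 e]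
  have c1 : ∀ z ∈ Z, c z = m z - z := fun z hz => if_neg (h z hz).2.2.1
  let A : ℝ → ℝ ≃ₜ ℝ := fun z => (Homeomorph.mulRight₀ (c z) (c0 z)).trans (.addLeft z)
  have hA : ∀ z ∈ Z, ∀ t, A z t = z + t * (m z - z) := fun z hz t => by rw [← c1 z hz]; rfl
  refine ⟨A, fun z hz => ⟨?_, ?_, by simp [hA z hz], by simp [hA z hz], fun t ht hw => ?_,
    fun z' hz' t ht t' ht' e => ?_⟩⟩
  · exact contDiff_const.add (contDiff_id.mul contDiff_const)
  · exact (contDiff_const.add contDiff_id).mul contDiff_const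
  · have n := sub_ne_zero.2 (h z hz).2.2.1
    rw [ContinuousLinearMap.id_apply, hA z hz] at hw
    rcases key z hz _ hw (seg z t (Ioo_subset_Icc_self ht)) with e | e
    · exact mul_ne_zero ht.1.ne' n (by linarith)
    · exact mul_ne_zero (sub_pos.2 ht.2).ne' n (by linarith)
  · simp only [ContinuousLinearMap.id_apply, hA z hz, hA z' hz'] at e
    have h1 := seg z t ht
    have h2 := e ▸ seg z' t' ht'
    have a1 := key z hz z' hz'
    have a2 := key z hz _ (h z' hz').1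
    have a3 := key z' hz' z hz
    have a4 := key z' hz' _ (h z hz).1
    have b1 := (h z hz).2.1
    have b2 := (h z' hz').2.1
    generalize z + t * (m z - z) = x at h1 h2
    simp only [mem_uIcc] at h1 h2 a1 a2 a3 a4
    grind

theorem mdl1 : Mdl1Stmt :=
  ⟨⟨.id ℝ ℝ, fun _ => rfl⟩, by simp, mdl1_join, mdl1_loc, mdl1_place⟩

end Pool.Agent.MP_e1dc65_gt.T1

end
end MrgPart0

-- ======== part 1: formerly Pool.Agent.MP_e1dc65_gt.t1.Pair
section MrgPart1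

/-! PROJECT HC, part T1, row PAIR: matching of the intersection points. -/

open Set Function

namespace Pool.Agent.MP_e1dc65_gt.T1

theorem pair_swap {X : Type} {A B : Set X} (hA : A.Finite) (hB : B.Finite) (hd : Disjoint A B)
    (h : A.ncard = B.ncard) : ∃ m : X → X, (∀ s ∈ A, m s ∈ B ∧ m (m s) = s) ∧
      ∀ s ∈ B, m s ∈ A ∧ m (m s) = s := by
  classical
  have := hA.to_subtype
  have := hB.to_subtype
  obtain ⟨e⟩ : Nonempty (A ≃ B) := Finite.card_eq.1 (by simpa [Nat.card_coe_set_eq] using h)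
  have h1 : ∀ s : B, (s : X) ∉ A := fun s c => Set.disjoint_left.1 hd c s.2
  refine ⟨fun s => if c : s ∈ A then e ⟨s, c⟩ else if c : s ∈ B then e.symm ⟨s, c⟩ else s,
    fun s hs => ?_, fun s hs => ?_⟩
  · simp only [dif_pos hs, dif_neg (h1 _), dif_pos (e ⟨s, hs⟩).2]
    exact ⟨(e ⟨s, hs⟩).2, by simp⟩
  · simp only [dif_neg (h1 ⟨s, hs⟩), dif_pos hs, dif_pos (e.symm ⟨s, hs⟩).2]
    exact ⟨(e.symm ⟨s, hs⟩).2, by simp⟩

theorem pair_pos (ι X : Type) (Z : ι → Set X) (d : X → ℝ) (i : ι) (hf : ∀ j, (Z j).Finite)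
    (hd : Pairwise (Disjoint on Z)) (h0 : ∀ j, ∀ s ∈ Z j, d s ≠ 0)
    (h1 : ∀ j, j ≠ i → {s ∈ Z j | 0 < d s}.ncard = {s ∈ Z j | d s < 0}.ncard)
    (h2 : {s ∈ Z i | 0 < d s}.ncard = {s ∈ Z i | d s < 0}.ncard + 1) :
    ∃ s₀ ∈ Z i, ∃ m : X → X, ∀ j, ∀ s ∈ Z j, s ≠ s₀ →
      m s ≠ s₀ ∧ m s ∈ Z j ∧ m (m s) = s ∧ d s * d (m s) < 0 := by
  classical
  have uniq : ∀ {j k s}, s ∈ Z j → s ∈ Z k → j = k := fun {j k s} a b => by
    by_contra c
    exact Set.disjoint_left.1 (hd c) a b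
  obtain ⟨s₀, hs₀⟩ : {s ∈ Z i | 0 < d s}.Nonempty := Set.nonempty_of_ncard_ne_zero (by omega)
  have key : ∀ j, ∃ m : X → X,
      (∀ s ∈ {s ∈ Z j | 0 < d s} \ {s₀}, m s ∈ {s ∈ Z j | d s < 0} ∧ m (m s) = s) ∧
      ∀ s ∈ {s ∈ Z j | d s < 0}, m s ∈ {s ∈ Z j | 0 < d s} \ {s₀} ∧ m (m s) = s := fun j => by
    refine pair_swap (((hf j).subset fun s hs => hs.1).subset sdiff_subset)
      ((hf j).subset fun s hs => hs.1)
      (Set.disjoint_left.2 fun s a b => lt_asymm a.1.2 b.2) ?_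
    by_cases c : j = i
    · subst c
      rw [Set.ncard_sdiff_singleton_of_mem hs₀, h2]
      rfl
    · rw [Set.sdiff_singleton_eq_self fun a => c (uniq a.1 hs₀.1), h1 j c]
  choose m hm hm' using key
  have e : ∀ j, ∀ s ∈ Z j, (if c : ∃ k, s ∈ Z k then m c.choose s else s) = m j s :=
    fun j s hs => by
      have c : ∃ k, s ∈ Z k := ⟨j, hs⟩
      rw [dif_pos c, uniq c.choose_spec hs]
  refine ⟨s₀, hs₀.1, fun s => if c : ∃ k, s ∈ Z k then m c.choose s else s, fun j s hs hne => ?_⟩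
  beta_reduce
  rw [e j s hs]
  rcases (h0 j s hs).lt_or_gt with c | c
  · obtain ⟨a, a'⟩ := hm' j s ⟨hs, c⟩
    rw [e j _ a.1.1]
    exact ⟨a.2, a.1.1, a', mul_neg_of_neg_of_pos c a.1.2⟩
  · obtain ⟨a, a'⟩ := hm j s ⟨⟨hs, c⟩, hne⟩
    rw [e j _ a.1]
    exact ⟨fun b => lt_asymm hs₀.2 (b ▸ a.2), a.1, a', mul_neg_of_pos_of_neg c a.2⟩

theorem pair : PairStmt := by
  intro ι X Z d i hf hd h0 h1 h2
  rcases h2 with h2 | h2
  · exact pair_pos ι X Z d i hf hd h0 h1 h2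
  · obtain ⟨s₀, a, m, h⟩ := pair_pos ι X Z (fun s => -d s) i hf hd
      (fun j s hs => neg_ne_zero.2 (h0 j s hs))
      (fun j hj => by simpa only [neg_pos, neg_lt_zero] using (h1 j hj).symm)
      (by simpa only [neg_pos, neg_lt_zero] using h2)
    exact ⟨s₀, a, m, fun j s hs hne => by simpa only [neg_mul_neg] using h j s hs hne⟩

end Pool.Agent.MP_e1dc65_gt.T1

end MrgPart1

-- ======== part 2: formerly Pool.Agent.MP_e1dc65_gt.t1.Place2
section MrgPart2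

/-! PROJECT HC, part T1: the model of dimension two. -/

open scoped ContDiff
open Set Function Module

noncomputable section

namespace Pool.Agent.MP_e1dc65_gt.T1

/-- a shear followed by the exchange of the coordinates -/
def place2Sh (f : ℝ → ℝ) (hf : ContDiff ℝ ∞ f) : ℝ × ℝ ≃ₜ ℝ × ℝ where
  toFun p := (p.2 + f p.1, p.1)
  invFun p := (p.2, p.1 - f p.2)
  left_inv p := by simp
  right_inv p := by simp
  continuous_toFun := by have := hf.continuous; fun_prop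
  continuous_invFun := by have := hf.continuous; fun_prop

theorem place2_sm {f : ℝ → ℝ} (hf : ContDiff ℝ ∞ f) : ContDiff ℝ ∞ (place2Sh f hf) :=
  (contDiff_snd.add (hf.comp contDiff_fst)).prodMk contDiff_fst

theorem place2_sm' {f : ℝ → ℝ} (hf : ContDiff ℝ ∞ f) : ContDiff ℝ ∞ (place2Sh f hf).symm :=
  contDiff_snd.prodMk (contDiff_fst.sub (hf.comp contDiff_snd))

theorem place2_interp {X : Type} {Z : Set X} (hZ : Z.Finite) {u : X → ℝ} (hu : InjOn u Z)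
    (w : X → ℝ) : ∃ f : ℝ → ℝ, ContDiff ℝ ∞ f ∧ ∀ z ∈ Z, f (u z) = w z := by
  classical
  refine ⟨fun x => Polynomial.aeval x (Lagrange.interpolate hZ.toFinset u w),
    Polynomial.contDiff_aeval _ _, fun z hz => ?_⟩
  beta_reduce
  rw [Polynomial.coe_aeval_eq_eval]
  exact Lagrange.eval_interpolate_at_node w (s := hZ.toFinset) (by simpa using hu)
    (hZ.mem_toFinset.2 hz)

/-- finitely many points of the plane can be moved to given points of the first axis -/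
theorem place2_axis {Z : Set (ℝ × ℝ)} (hZ : Z.Finite) {ν : ℝ × ℝ → ℝ} (hν : InjOn ν Z) :
    ∃ Θ : ℝ × ℝ ≃ₜ ℝ × ℝ, ContDiff ℝ ∞ Θ ∧ ContDiff ℝ ∞ Θ.symm ∧ ∀ z ∈ Z, Θ (ν z, 0) = z := by
  obtain ⟨l, hl⟩ := ((hZ.prod hZ).image
    fun q : (ℝ × ℝ) × ℝ × ℝ => (q.2.2 - q.1.2) / (q.1.1 - q.2.1)).exists_notMem
  have hu : InjOn (fun z : ℝ × ℝ => z.2 + l * z.1) Z := fun z hz z' hz' e => by
    have e' : z.2 + l * z.1 = z'.2 + l * z'.1 := e
    by_cases c : z.1 = z'.1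
    · exact Prod.ext c (by rw [c] at e'; linarith)
    · refine absurd ⟨(z, z'), ⟨hz, hz'⟩, ?_⟩ hl
      show (z'.2 - z.2) / (z.1 - z'.1) = l
      rw [div_eq_iff (sub_ne_zero.2 c)]; linarith
  have h1 : ContDiff ℝ ∞ fun x : ℝ => l * x := contDiff_const.mul contDiff_id
  obtain ⟨f2, h2, e2⟩ := place2_interp hZ hu fun z => ν z - z.1
  obtain ⟨f3, h3, e3⟩ := place2_interp hZ hν fun z => -(z.2 + l * z.1)
  have h4 : ContDiff ℝ ∞ fun _ : ℝ => (0 : ℝ) := contDiff_const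
  refine ⟨((((place2Sh _ h1).trans (place2Sh _ h2)).trans (place2Sh _ h3)).trans
    (place2Sh _ h4)).symm,
    (place2_sm' h1).comp ((place2_sm' h2).comp ((place2_sm' h3).comp (place2_sm' h4))),
    (place2_sm h4).comp ((place2_sm h3).comp ((place2_sm h2).comp (place2_sm h1))),
    fun z hz => ?_⟩
  rw [Homeomorph.symm_apply_eq]
  have e4 : z.1 + f2 (z.2 + l * z.1) = ν z := by rw [e2 z hz]; ring
  show (ν z, (0 : ℝ)) = (z.1 + f2 (z.2 + l * z.1) + 0,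
    z.2 + l * z.1 + f3 (z.1 + f2 (z.2 + l * z.1)))
  rw [e4, e3 z hz]; simp

/-- the affine map `(t, s) ↦ (a + e t, s)` for `e = 1` or `e = -1` -/
def place2Af (a : ℝ) (b : Bool) : ℝ × ℝ ≃ₜ ℝ × ℝ where
  toFun p := (a + (if b then 1 else -1) * p.1, p.2)
  invFun p := ((if b then 1 else -1) * (p.1 - a), p.2)
  left_inv p := by cases b <;> simp
  right_inv p := by cases b <;> simp
  continuous_toFun := by fun_prop
  continuous_invFun := by fun_prop

theorem place2_place : PlaceP (ContinuousLinearMap.inl ℝ ℝ ℝ) := by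
  classical
  intro Z m hZ hm
  obtain ⟨f, hf⟩ := countable_iff_exists_injOn.1 hZ.countable
  have hne : ∀ z ∈ Z, f z ≠ f (m z) := fun z hz e => (hm z hz).2.2.1 (hf hz (hm z hz).1 e).symm
  let k : ℝ × ℝ → ℕ := fun z => min (f z) (f (m z))
  let ν : ℝ × ℝ → ℝ := fun z => 2 * k z + if f z < f (m z) then 0 else 1
  have hk : ∀ z ∈ Z, ∀ z' ∈ Z, k z = k z' → z' = z ∨ z' = m z := fun z hz z' hz' e => by
    have a1 := (hm z hz).1
    have a2 := (hm z' hz').1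
    have a3 : ∀ w, m z' = w → z' = m w := fun w e => by rw [← e, (hm z' hz').2.1]
    rcases min_choice (f z) (f (m z)) with e1 | e1 <;>
      rcases min_choice (f z') (f (m z')) with e2 | e2
    · exact Or.inl (hf hz' hz (e2.symm.trans (e.symm.trans e1)))
    · exact Or.inr (a3 _ (hf a2 hz (e2.symm.trans (e.symm.trans e1))))
    · exact Or.inr (hf hz' a1 (e2.symm.trans (e.symm.trans e1)))
    · exact Or.inl ((a3 _ (hf a2 a1 (e2.symm.trans (e.symm.trans e1)))).trans (hm z hz).2.1)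
  have hI : ∀ (z : ℝ × ℝ), ∀ t ∈ Icc (0 : ℝ) 1,
      ν z + (if decide (f z < f (m z)) then 1 else -1) * t ∈ Icc (2 * k z : ℝ) (2 * k z + 1) :=
    fun z t ht => by
      by_cases c : f z < f (m z) <;> simp only [ν, c, decide_true, decide_false, if_true, if_false,
        Bool.false_eq_true] <;> constructor <;> linarith [ht.1, ht.2]
  have hK : ∀ (a b : ℕ) (x : ℝ), x ∈ Icc (2 * a : ℝ) (2 * a + 1) → x ∈ Icc (2 * b : ℝ) (2 * b + 1) →
      a = b := fun a b x h1 h2 => by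
    have h3 : (2 * a : ℝ) ≤ 2 * b + 1 := h1.1.trans h2.2
    have h4 : (2 * b : ℝ) ≤ 2 * a + 1 := h2.1.trans h1.2
    have h5 : 2 * a ≤ 2 * b + 1 := by exact_mod_cast h3
    have h6 : 2 * b ≤ 2 * a + 1 := by exact_mod_cast h4
    omega
  have hI0 : ∀ z, ν z ∈ Icc (2 * k z : ℝ) (2 * k z + 1) := fun z => by
    simpa using hI z 0 ⟨le_rfl, zero_le_one⟩
  have hm1 : ∀ z ∈ Z, ν (m z) = ν z + if decide (f z < f (m z)) then 1 else -1 := fun z hz => by
    have := hne z hz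
    simp only [ν, k, (hm z hz).2.1, min_comm (f (m z))]
    by_cases c : f z < f (m z)
    · simp [c, c.not_gt]
    · simp [c, show f (m z) < f z by omega]
  have hν : InjOn ν Z := fun z hz z' hz' e => by
    rcases hk z hz z' hz' (hK _ _ _ (hI0 z) (e ▸ hI0 z')) with c | c
    · exact c.symm
    · rw [c, hm1 z hz] at e
      split_ifs at e <;> linarith
  obtain ⟨Θ, h1, h2, h3⟩ := place2_axis hZ hν
  have ap : ∀ z t, (place2Af (ν z) (decide (f z < f (m z)))).trans Θ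
      (ContinuousLinearMap.inl ℝ ℝ ℝ t) =
      Θ (ν z + (if decide (f z < f (m z)) then 1 else -1) * t, 0) := fun _ _ => rfl
  refine ⟨fun z => (place2Af (ν z) (decide (f z < f (m z)))).trans Θ, fun z hz =>
    ⟨h1.comp ((contDiff_const.add (contDiff_const.mul contDiff_fst)).prodMk contDiff_snd),
      ContDiff.comp (g := (place2Af (ν z) (decide (f z < f (m z)))).symm)
        ((contDiff_const.mul (contDiff_fst.sub contDiff_const)).prodMk contDiff_snd) h2,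
      ?_, ?_, fun t ht hz' => ?_, fun z' hz' t ht t' ht' e => ?_⟩⟩
  · rw [ap, mul_zero, add_zero, h3 z hz]
  · rw [ap, mul_one, ← hm1 z hz, h3 _ (hm z hz).1]
  · have e := h3 _ hz'
    set z' := (place2Af (ν z) (decide (f z < f (m z)))).trans Θ
      (ContinuousLinearMap.inl ℝ ℝ ℝ t) with hz''
    rw [ap] at hz''
    have e' := congrArg Prod.fst (Θ.injective (e.trans hz''))
    simp only at e'
    rcases hk z hz z' hz' (hK _ _ _ (hI z t (Ioo_subset_Icc_self ht)) (e' ▸ hI0 z')) with c | c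
    · rw [c] at e'
      split_ifs at e' <;> linarith [ht.1]
    · rw [c, hm1 z hz] at e'
      split_ifs at e' <;> linarith [ht.2]
  · rw [ap, ap] at e
    have e' := congrArg Prod.fst (Θ.injective e)
    simp only at e'
    exact hk z hz z' hz' (hK _ _ _ (hI z t ht) (e' ▸ hI z' t' ht'))

theorem place2_ne {D : ℝ × ℝ →L[ℝ] ℝ × ℝ} (h : D.det ≠ 0) :
    D (ContinuousLinearMap.inl ℝ ℝ ℝ 1) ≠ 0 := fun e =>
  h (LinearMap.det_eq_zero_iff_ker_ne_bot.2 fun c => by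
    have := LinearMap.ker_eq_bot'.1 c _ e
    simpa using congrArg Prod.fst this)

theorem mdl2 (h : LocP (ContinuousLinearMap.inl ℝ ℝ ℝ)) : Mdl2Stmt where
  left := ⟨ContinuousLinearMap.fst ℝ ℝ ℝ, fun _ => rfl⟩
  dim := by simp
  join D D' hD := by
    refine (isPathConnected_compl_singleton_of_one_lt_rank (E := ℝ × ℝ) ?_ 0).joinedIn _
      (place2_ne (left_ne_zero_of_mul hD.ne)) _
      (neg_ne_zero.2 (place2_ne (right_ne_zero_of_mul hD.ne)))
    rw [← finrank_eq_rank]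
    simp
  loc := h
  place := place2_place

end Pool.Agent.MP_e1dc65_gt.T1

end
end MrgPart2

-- ======== part 3: formerly Pool.Agent.MP_e1dc65_gt.t1.Proj
section MrgPart3

/-! PROJECT HC, part T1, row PROJ: generic linear projections. -/

open Set Filter Topology Function Module

namespace Pool.Agent.MP_e1dc65_gt.T1

section

variable {P G E E' : Type} [NormedAddCommGroup P] [NormedSpace ℝ P] [NormedAddCommGroup G]
  [NormedSpace ℝ G] [NormedAddCommGroup E] [NormedSpace ℝ E] [NormedAddCommGroup E']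
  [NormedSpace ℝ E'] {ι : ℝ →L[ℝ] P} {K : Set ℝ} {σ : P → E}

theorem proj_comp (h : GermE ι K σ) (π : E →L[ℝ] E')
    (h1 : ∀ t ∈ K, ∀ η, π (fderiv ℝ σ (ι t) η) = 0 → fderiv ℝ σ (ι t) η = 0)
    (h2 : ∀ t ∈ K, ∀ t' ∈ K, π (σ (ι t) - σ (ι t')) = 0 → σ (ι t) - σ (ι t') = 0) :
    GermE ι K (π ∘ σ) := by
  refine ⟨fun t ht => ⟨π.contDiff.contDiffAt.comp _ (h.1 t ht).1, ?_⟩, fun t ht t' ht' e =>
    h.2 ht ht' (sub_eq_zero.1 (h2 t ht t' ht' (by rw [map_sub]; exact sub_eq_zero.2 e)))⟩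
  rw [(π.hasFDerivAt.comp _
    ((h.1 t ht).1.differentiableAt (by norm_num)).hasFDerivAt).fderiv, injective_iff_map_eq_zero]
  exact fun η e => (injective_iff_map_eq_zero _).1 (h.1 t ht).2 η (h1 t ht η e)

theorem proj_along [FiniteDimensional ℝ E] {m : ℕ} (hm : finrank ℝ E = m + 1) {v : E}
    (hv : v ≠ 0) : ∃ π : E →L[ℝ] (Fin m → ℝ), ∀ x, π x = 0 → x = 0 ∨ ∃ c : ℝ, c • x = v := by
  have h1 := (ℝ ∙ v).finrank_quotient_add_finrank
  rw [finrank_span_singleton hv, hm] at h1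
  obtain ⟨e⟩ := FiniteDimensional.nonempty_linearEquiv_of_finrank_eq (R := ℝ) (M := E ⧸ ℝ ∙ v)
    (M' := Fin m → ℝ) (by simpa using h1)
  refine ⟨(e.toLinearMap ∘ₗ (ℝ ∙ v).mkQ).toContinuousLinearMap, fun x hx => ?_⟩
  have h2 : x ∈ ℝ ∙ v := by simpa using hx
  obtain ⟨c, rfl⟩ := Submodule.mem_span_singleton.1 h2
  by_cases hc : c = 0
  · simp [hc]
  · exact Or.inr ⟨c⁻¹, inv_smul_smul₀ hc v⟩

theorem proj_gen [FiniteDimensional ℝ P] [FiniteDimensional ℝ G] [FiniteDimensional ℝ E]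
    (i : G →L[ℝ] E) {Z : Set G} (hP : finrank ℝ P ≤ 2) (hG : 3 ≤ finrank ℝ G)
    (hE : finrank ℝ G < finrank ℝ E) (h : GermE ι K σ) (hZ : Z.Countable) :
    ∃ v : E, (∀ x, i x ≠ v) ∧ (∀ t ∈ K, ∀ η, fderiv ℝ σ (ι t) η ≠ v) ∧
      (∀ t ∈ K, ∀ t' ∈ K, ∀ c : ℝ, c • (σ (ι t) - σ (ι t')) ≠ v) ∧
      ∀ t ∈ K, ∀ z ∈ Z, ∀ c : ℝ, c • (σ (ι t) - i z) ≠ v := by
  have c1 : ∀ t ∈ K, ContDiffAt ℝ 1 (fun t => σ (ι t)) t := fun t ht =>
    ((h.1 t ht).1.of_le (by norm_num)).comp t ι.contDiff.contDiffAt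
  let F₁ : ℝ × P → E := fun w => fderiv ℝ σ (ι w.1) w.2
  let F₂ : ℝ × ℝ × ℝ → E := fun w => w.1 • (σ (ι w.2.1) - σ (ι w.2.2))
  let F₃ : G → ℝ × ℝ → E := fun z w => w.1 • (σ (ι w.2) - i z)
  have key : ∀ {Q : Type} [NormedAddCommGroup Q] [NormedSpace ℝ Q] [FiniteDimensional ℝ Q]
      (F : Q → E), finrank ℝ Q ≤ finrank ℝ G →
      dimH (F '' {z | ContDiffAt ℝ 1 F z}) ≤ finrank ℝ G := fun F hF =>
    (dimH_vals F).trans (Nat.cast_le.2 hF)
  obtain ⟨v, -, hv⟩ := exists_gen (x := 0) (A := (i '' {z | ContDiffAt ℝ 1 i z} ∪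
      F₁ '' {z | ContDiffAt ℝ 1 F₁ z}) ∪ (F₂ '' {z | ContDiffAt ℝ 1 F₂ z} ∪
      ⋃ z ∈ Z, F₃ z '' {w | ContDiffAt ℝ 1 (F₃ z) w})) (by
    refine lt_of_le_of_lt ?_ (Nat.cast_lt.2 hE)
    rw [dimH_union, dimH_union, dimH_union, dimH_bUnion hZ]
    exact max_le (max_le (key i le_rfl) (key F₁ (by simp; omega)))
      (max_le (key F₂ (by simpa using hG)) (iSup₂_le fun z _ => key (F₃ z) (by simp; omega))))
    univ_mem
  refine ⟨v, fun x e => hv (.inl (.inl ⟨x, ?_, e⟩)),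
    fun t ht η e => hv (.inl (.inr ⟨(t, η), ?_, e⟩)),
    fun t ht t' ht' c e => hv (.inr (.inl ⟨(c, t, t'), ?_, e⟩)),
    fun t ht z hz c e => hv (.inr (.inr (mem_biUnion hz ⟨(c, t), ?_, e⟩)))⟩
  · exact i.contDiff.contDiffAt (n := 1)
  · exact (((h.1 t ht).1.fderiv_right (m := 1) (by norm_num)).comp (t, η)
      (ι.contDiff.comp contDiff_fst).contDiffAt).clm_apply contDiffAt_snd
  · exact contDiffAt_fst.smul (((c1 t ht).comp (c, t, t') contDiffAt_snd.fst).sub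
      ((c1 t' ht').comp (c, t, t') contDiffAt_snd.snd))
  · exact contDiffAt_fst.smul (((c1 t ht).comp (c, t) contDiffAt_snd).sub contDiffAt_const)

end

theorem proj : ProjStmt := by
  intro P G E _ _ _ _ _ _ _ _ _ ι i K σ Z hP hG hi h hZ hz
  obtain ⟨n, hn⟩ := Nat.exists_eq_add_of_le (LinearMap.finrank_le_finrank_of_injective
    (f := i.toLinearMap) hi)
  induction n generalizing E with
  | zero =>
    let e := (i.toLinearMap.linearEquivOfInjective hi hn.symm).toContinuousLinearEquiv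
    exact ⟨e.symm, fun x => e.symm_apply_apply x, proj_comp h _
      (fun _ _ _ => e.symm.map_eq_zero_iff.1) fun _ _ _ _ => e.symm.map_eq_zero_iff.1,
      fun t ht c => hz t ht _ c (e.apply_symm_apply _).symm⟩
  | succ n ih =>
    obtain ⟨v, h0, h1, h2, h3⟩ := proj_gen i hP hG (by omega) h hZ
    obtain ⟨π, hπ⟩ := proj_along (m := finrank ℝ G + n) hn (v := v) fun c => h0 0 (by simp [c])
    obtain ⟨π', k1, k2, k3⟩ := ih (Fin (finrank ℝ G + n) → ℝ) (π ∘L i) (π ∘ σ)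
      ((injective_iff_map_eq_zero _).2 fun x c => (hπ _ c).elim
        ((injective_iff_map_eq_zero _).1 hi x) fun ⟨c, e⟩ => (h0 (c • x) (by simpa using e)).elim)
      (proj_comp h π
        (fun t ht η c => (hπ _ c).resolve_right fun ⟨c, e⟩ => h1 t ht (c • η) (by simpa using e))
        fun t ht t' ht' c => (hπ _ c).resolve_right fun ⟨c, e⟩ => h2 t ht t' ht' c e)
      (fun t ht z hz' c => (hπ (σ (ι t) - i z) (by rw [map_sub]; exact sub_eq_zero.2 c)).elim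
        (fun e => hz t ht z hz' (sub_eq_zero.1 e)) fun ⟨c, e⟩ => h3 t ht z hz' c e) (by simp)
    exact ⟨π' ∘L π, k1, k2, k3⟩

end Pool.Agent.MP_e1dc65_gt.T1

end MrgPart3

-- ======== part 4: formerly Pool.Agent.MP_e1dc65_gt.t1.Shrink
section MrgPart4

/-! PROJECT HC, part T1: collapsing a compact set. -/

open Set Metric Filter Topology Function

namespace Pool.Agent.MP_e1dc65_gt.T1

theorem shrink_seq {X : Type} [MetricSpace X] {C W₀ : Set X} {c : X} (hW : IsOpen W₀)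
    (hC : C ⊆ W₀) (H : ∀ U', IsOpen U' → C ⊆ U' → ∀ V ∈ 𝓝 c, ∃ h : X ≃ₜ X,
      (∀ x ∉ U', h x = x) ∧ h c = c ∧ MapsTo h C V) :
    ∃ (F : ℕ → X ≃ₜ X) (W : ℕ → Set X), (∀ x, F 0 x = x) ∧ W 0 = W₀ ∧
      (∀ n, IsOpen (W n) ∧ C ⊆ W n ∧ F n c = c) ∧ ∀ n, (∀ x ∉ W n, F (n + 1) x = F n x) ∧
        W (n + 1) ⊆ W n ∧ MapsTo (F (n + 1)) (W (n + 1)) (ball c (1 / (n + 1))) ∧
        W (n + 1) ⊆ thickening (1 / (n + 1)) C := by
  have step : ∀ (n : ℕ) (p : {p : (X ≃ₜ X) × Set X // IsOpen p.2 ∧ C ⊆ p.2 ∧ p.1 c = c}),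
      ∃ q : {p : (X ≃ₜ X) × Set X // IsOpen p.2 ∧ C ⊆ p.2 ∧ p.1 c = c},
        (∀ x ∉ p.1.2, q.1.1 x = p.1.1 x) ∧ q.1.2 ⊆ p.1.2 ∧
        MapsTo q.1.1 q.1.2 (ball c (1 / (n + 1))) ∧ q.1.2 ⊆ thickening (1 / (n + 1)) C := by
    rintro n ⟨⟨f, W⟩, h1, h2, h3⟩
    have e : (0 : ℝ) < 1 / (n + 1) := Nat.one_div_pos_of_nat
    obtain ⟨h, a1, a2, a3⟩ := H W h1 h2 (f ⁻¹' ball c (1 / (n + 1)))
      (f.continuous.continuousAt.preimage_mem_nhds (by
        rw [show f c = c from h3]; exact ball_mem_nhds c e))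
    refine ⟨⟨(h.trans f, W ∩ (h.trans f) ⁻¹' ball c (1 / (n + 1)) ∩ thickening (1 / (n + 1)) C),
      (h1.inter (isOpen_ball.preimage (h.trans f).continuous)).inter isOpen_thickening,
      fun x hx => ⟨⟨h2 hx, a3 hx⟩, self_subset_thickening e C hx⟩,
      (congrArg f a2).trans h3⟩, fun x hx => congrArg f (a1 x hx), fun x hx => hx.1.1,
      fun x hx => hx.1.2, fun x hx => hx.2⟩
  choose g hg using step
  let s : ℕ → {p : (X ≃ₜ X) × Set X // IsOpen p.2 ∧ C ⊆ p.2 ∧ p.1 c = c} := fun n =>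
    Nat.rec ⟨(Homeomorph.refl X, W₀), hW, hC, rfl⟩ g n
  exact ⟨fun n => (s n).1.1, fun n => (s n).1.2, fun _ => rfl, rfl, fun n => (s n).2,
    fun n => hg n (s n)⟩

theorem shrink : ShrinkStmt := by
  classical
  intro X _ _ _ C U c hC hc hU hCU H
  let _ := TopologicalSpace.metrizableSpaceMetric X
  obtain ⟨L, hL, h1, h2⟩ := exists_compact_between hC hU hCU
  obtain ⟨F, W, f0, w0, inv, st⟩ := shrink_seq isOpen_interior h1 H
  have anti : Antitone W := antitone_nat_of_succ_le fun n => (st n).2.1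
  have agree : ∀ n m, n ≤ m → ∀ x ∉ W n, F m x = F n x := fun n m h x hx => by
    induction h with
    | refl => rfl
    | step h ih => exact ((st _).1 x fun e => hx (anti h e)).trans ih
  have exit : ∀ x ∉ C, ∃ n, ∀ᶠ y in 𝓝 x, y ∉ W n := fun x hx => by
    obtain ⟨ε, e0, e1⟩ := Metric.isOpen_iff.1 hC.isClosed.isOpen_compl x hx
    obtain ⟨n, hn⟩ := exists_nat_one_div_lt (half_pos e0)
    refine ⟨n + 1, eventually_of_mem (ball_mem_nhds x (half_pos e0)) fun y hy e => ?_⟩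
    obtain ⟨z, z1, z2⟩ := mem_thickening_iff.1 ((st n).2.2.2 e)
    refine e1 (mem_ball.2 ?_) z1
    linarith [dist_triangle_left z x y, mem_ball.1 hy]
  choose N hN using exit
  let f : X → X := fun x => if h : x ∈ C then c else F (N x h) x
  have fc : ∀ x ∈ C, f x = c := fun x hx => dif_pos hx
  have fe : ∀ n, ∀ x ∉ W n, f x = F n x := fun n x hx => by
    have h : x ∉ C := fun e => hx ((inv n).2.1 e)
    rw [show f x = F (N x h) x from dif_neg h,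
      ← agree _ _ (le_max_left _ n) x (hN x h).self_of_nhds, agree _ _ (le_max_right _ n) x hx]
  have out : ∀ x ∉ C, ∀ n, ∃ m ≥ n, x ∉ W m := fun x hx n =>
    ⟨_, le_max_right (N x hx) n, fun e => (hN x hx).self_of_nhds (anti (le_max_left _ _) e)⟩
  have fb : ∀ n : ℕ, MapsTo f (W (n + 1)) (ball c (1 / (n + 1))) := fun n x hx => by
    by_cases h : x ∈ C
    · rw [fc x h]; exact mem_ball_self Nat.one_div_pos_of_nat
    obtain ⟨m, m1, m2⟩ := out x h (n + 1)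
    obtain ⟨y, hy⟩ := (F (n + 1)).surjective (F m x)
    rw [fe m x m2, ← hy]
    refine (st n).2.2.1 (by_contra fun e => e ?_)
    rwa [(F m).injective ((agree _ _ m1 y e).trans hy)]
  have fib : ∀ x, f x = c → x ∈ C := fun x hx => by_contra fun h => by
    obtain ⟨m, -, m2⟩ := out x h 0
    rw [fe m x m2, ← (inv m).2.2] at hx
    exact h ((F m).injective hx ▸ hc)
  refine ⟨f, continuous_iff_continuousAt.2 fun x => ?_, fun y => ?_,
    ⟨L, h2, hL, fun x hx => (fe 0 x fun e => hx (interior_subset (w0 ▸ e))).trans (f0 x)⟩,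
    fun x hx => ?_, fun x x' => ⟨fun e => ?_, ?_⟩⟩
  · by_cases h : x ∈ C
    · refine Metric.tendsto_nhds.2 fun ε e0 => ?_
      obtain ⟨n, hn⟩ := exists_nat_one_div_lt e0
      filter_upwards [(inv (n + 1)).1.mem_nhds ((inv (n + 1)).2.1 h)] with y hy
      rw [fc x h]
      exact (mem_ball.1 (fb n hy)).trans hn
    · exact (F (N x h)).continuous.continuousAt.congr ((hN x h).mono fun y hy => (fe _ y hy).symm)
  · by_cases h : y = c
    · exact ⟨c, (fc c hc).trans h.symm⟩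
    obtain ⟨n, hn⟩ := exists_nat_one_div_lt (dist_pos.2 h)
    obtain ⟨x, rfl⟩ := (F (n + 1)).surjective y
    exact ⟨x, fe _ x fun e => (mem_ball.1 ((st n).2.2.1 e)).not_gt hn⟩
  · by_cases h : x ∈ C
    · rw [fc x h]; exact hCU hc
    obtain ⟨m, -, m2⟩ := out x h 0
    rw [fe m x m2]
    exact (mem_of_id_off (F m).injective (C := W 0) (w0 ▸ interior_subset.trans h2)
      fun y hy => (agree 0 m m.zero_le y hy).trans (f0 y)).2 hx
  · by_cases h : x ∈ C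
    · exact Or.inr ⟨h, fib x' (e ▸ fc x h)⟩
    have h' : x' ∉ C := fun h' => h (fib x (e.trans (fc x' h')))
    obtain ⟨m, -, m2⟩ := out x h 0
    obtain ⟨k, k1, k2⟩ := out x' h' m
    rw [fe k x fun a => m2 (anti k1 a), fe k x' k2] at e
    exact Or.inl ((F k).injective e)
  · rintro (rfl | h)
    · rfl
    · rw [fc x h.1, fc x' h.2]

end Pool.Agent.MP_e1dc65_gt.T1

end MrgPart4

-- ======== part 5: formerly Pool.Agent.MP_e1dc65_gt.t1.Vert
section MrgPart5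

/-! PROJECT HC, part T1, row VERT: the Whitney move inside the tube of the belt sphere. -/

open scoped ContDiff Manifold NNReal
open Set Metric Filter Topology Function Module

namespace Pool.Agent.MP_e1dc65_gt.T1

variable {P G E : Type} [NormedAddCommGroup P] [NormedSpace ℝ P] [FiniteDimensional ℝ P]
  [NormedAddCommGroup G] [NormedSpace ℝ G] [FiniteDimensional ℝ G]
  [NormedAddCommGroup E] [NormedSpace ℝ E] [FiniteDimensional ℝ E]

/-- an immersion is locally injective -/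
theorem vert_loc {x : P → G} {a : P} (h : ContDiffAt ℝ 2 x a) (hi : Injective (fderiv ℝ x a)) :
    ∃ u ∈ 𝓝 a, InjOn x u := by
  have := FiniteDimensional.complete ℝ P
  obtain ⟨L, hL⟩ := (fderiv ℝ x a).toLinearMap.exists_leftInverse_of_injective
    (LinearMap.ker_eq_bot.2 hi)
  have h1 := (LinearMap.toContinuousLinearMap L).hasStrictFDerivAt.comp a
    (h.hasStrictFDerivAt (by simp))
  have e : (LinearMap.toContinuousLinearMap L).comp (fderiv ℝ x a) =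
      (ContinuousLinearEquiv.refl ℝ P : P →L[ℝ] P) := by
    ext v
    exact LinearMap.congr_fun hL v
  rw [e] at h1
  refine ⟨_, h1.eventually_left_inverse, fun u hu v hv c => ?_⟩
  simp only [mem_ofPred_eq] at hu hv
  rw [← hu, ← hv, c]

/-- a small push in a generic direction moves `R` off `D` -/
theorem vert_push {Q : Type} [NormedAddCommGroup Q] [NormedSpace ℝ Q] [FiniteDimensional ℝ Q]
    {R U : Set E} {A : Set Q} {d : Q → E} (hR : IsClosed R) (hr : RectE P R) (hA : IsCompact A)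
    (hd : ∀ a ∈ A, ContDiffAt ℝ 1 d a) (hU : IsOpen U) (hs : d '' A ∩ R ⊆ U)
    (hdim : finrank ℝ Q + finrank ℝ P < finrank ℝ E) :
    ∃ ψ : E ≃ₜ E, ∃ C ⊆ U, IsCompact C ∧ (∀ w ∉ C, ψ w = w) ∧ ∀ a ∈ A, d a ∉ ψ '' R := by
  have := FiniteDimensional.complete ℝ E
  have hD : IsCompact (d '' A) :=
    hA.image_of_continuousOn fun a ha => (hd a ha).continuousAt.continuousWithinAt
  obtain ⟨χ, c1, c2, c3, c4, -⟩ := exists_bump (hD.inter_right hR) hU hs
  obtain ⟨L, hL⟩ := c1.lipschitzWith_of_hasCompactSupport c2 (by simp)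
  obtain ⟨J, hJ, hj⟩ := hr
  have hb : RectE (Q × P) {v : E | ∃ a ∈ A, ∃ ρ ∈ R, χ ρ ≠ 0 ∧ v = (χ ρ)⁻¹ • (d a - ρ)} := by
    refine ⟨(fun (j : P → E) (z : Q × P) => (χ (j z.2))⁻¹ • (d z.1 - j z.2)) '' J, hJ.image _, ?_⟩
    rintro _ ⟨a, ha, ρ, hρ, h0, rfl⟩
    obtain ⟨j, h1, z, h2, rfl⟩ := hj ρ hρ
    refine ⟨_, mem_image_of_mem _ h1, (a, z), ?_, rfl⟩
    have h3 : ContDiffAt ℝ 1 (fun w : Q × P => j w.2) (a, z) :=
      ContDiffAt.comp (g := j) (f := Prod.snd) (a, z) h2 contDiffAt_snd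
    have h4 : ContDiffAt ℝ 1 (fun w : Q × P => d w.1) (a, z) :=
      ContDiffAt.comp (g := d) (f := Prod.fst) (a, z) (hd a ha) contDiffAt_fst
    exact (((c1.of_le (by simp)).contDiffAt.comp (a, z) h3).inv h0).smul (h4.sub h3)
  obtain ⟨v, hv, hv'⟩ := exists_gen (hb.dimH_le.trans_lt (by
    rw [finrank_prod]; exact_mod_cast hdim)) (ball_mem_nhds (0 : E)
      (show (0 : ℝ) < (L + 1 : ℝ)⁻¹ by positivity))
  have h0 : L * ‖v‖₊ < 1 := by
    have h1 := mul_lt_mul_of_pos_right (mem_ball_zero_iff.1 hv) (show (0 : ℝ) < L + 1 by positivity)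
    rw [inv_mul_cancel₀ (by positivity)] at h1
    exact_mod_cast (show (L : ℝ) * ‖v‖ < 1 by nlinarith [norm_nonneg v])
  have h2 : LipschitzWith (L * ‖v‖₊) fun w => χ w • v := LipschitzWith.of_dist_le_mul fun a b => by
    rw [dist_eq_norm, ← sub_smul, norm_smul, NNReal.coe_mul, coe_nnnorm, mul_right_comm]
    exact mul_le_mul_of_nonneg_right (by simpa [dist_eq_norm] using hL.dist_le_mul a b)
      (norm_nonneg v)
  have h3 : ∀ w ∉ tsupport χ, w + χ w • v = w := fun w hw => by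
    simp [image_eq_zero_of_notMem_tsupport hw]
  obtain ⟨ψ, hψ⟩ := homeo_of_bij (continuous_id.add h2.continuous) (pert_bij h0 h2) c2 h3
  refine ⟨ψ, _, c3, c2, fun w hw => by rw [hψ]; exact h3 w hw, ?_⟩
  rintro a ha ⟨ρ, hρ, e⟩
  have e' : ρ + χ ρ • v = d a := by rw [← e, hψ]; rfl
  by_cases c : χ ρ = 0
  · rw [c, zero_smul, add_zero] at e'
    have h4 : χ ρ = 1 := c4.self_of_nhdsSet ρ ⟨⟨a, ha, e'.symm⟩, hρ⟩
    exact zero_ne_one (c.symm.trans h4)
  · exact hv' ⟨a, ha, ρ, hρ, c, by rw [← e', add_sub_cancel_left, inv_smul_smul₀ c]⟩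

/-- the move when the strip projects injectively along the fibres -/
theorem vert_core (hG : GraphStmt) {ι : ℝ →L[ℝ] P} {I : Finset ℕ} {σ : P → G × P}
    {S : Set (G × P)} (hM : Mdl ι) (h5 : finrank ℝ G + finrank ℝ P = 5) (hS : IsClosed S)
    (hr : RectE P S) (hσ : ∀ t ∈ KI I, ContDiffAt ℝ 2 σ (ι t))
    (hx : GermE ι (KI I) fun z => (σ z).1) (he : Ends ι I fun z => (σ z).2)
    (hZ : ∀ t ∈ KI I, ∀ w ∈ S, w.2 = 0 → (∀ t ∈ KI I, w ≠ σ (ι t)) → (σ (ι t)).1 ≠ w.1)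
    (hl : ∀ t ∈ KI I, ∀ N ∈ 𝓝 (ι t), σ '' N ∈ 𝓝[S] σ (ι t)) :
    ∃ Φ : G × P ≃ₜ G × P, ∃ C, IsCompact C ∧ (∀ w ∉ C, Φ w = w) ∧
      (∀ w ∈ S, (Φ w).2 = 0 → w.2 = 0 ∧ ∀ t ∈ KI I, w ≠ σ (ι t)) ∧
      ∀ w ∈ S, w.2 = 0 → (∀ t ∈ KI I, w ≠ σ (ι t)) → Φ =ᶠ[𝓝 w] id := by
  have := FiniteDimensional.proper ℝ P
  obtain ⟨T₁, hT₁, p, q, n, cp, cq, cn, h1, h2⟩ := hM.loc I _ (fun t ht => (hσ t ht).snd) he
  have k0 : IsCompact (ι '' KI I) := (KI_cpt I).image ι.continuous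
  obtain ⟨T₂, hT₂, i2⟩ := InjOn.exists_mem_nhdsSet (f := fun z => (σ z).1) (s := ι '' KI I)
    (by rintro _ ⟨t, ht, rfl⟩ _ ⟨t', ht', rfl⟩ e; rw [hx.2 ht ht' e]) k0
    (by rintro _ ⟨t, ht, rfl⟩; exact (hx.1 t ht).1.continuousAt)
    (by rintro _ ⟨t, ht, rfl⟩; exact vert_loc (hx.1 t ht).1 (hx.1 t ht).2)
  have hT₃ : {z | ContinuousAt σ z} ∈ 𝓝ˢ (ι '' KI I) := by
    rw [mem_nhdsSet_iff_forall]
    rintro _ ⟨t, ht, rfl⟩
    exact ((hσ t ht).eventually (by simp)).mono fun z hz => hz.continuousAt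
  obtain ⟨U, u1, u2, u3⟩ := mem_nhdsSet_iff_exists.1 (inter_mem hT₁ (inter_mem hT₂ hT₃))
  obtain ⟨T, t1, t2, t3⟩ := exists_compact_between k0 u1 u2
  have s1 : T ⊆ T₁ := fun z hz => (u3 (t3 hz)).1
  have i3 : InjOn (fun z => (σ z).1) T := i2.mono fun z hz => (u3 (t3 hz)).2.1
  have cσ : ContinuousOn σ T := fun z hz => (u3 (t3 hz)).2.2.continuousWithinAt
  have t4 : ι '' KI I ⊆ T := t2.trans interior_subset
  obtain ⟨R, r1, r2, r3, r4⟩ : ∃ R ⊆ S, IsClosed R ∧ (∀ t ∈ KI I, σ (ι t) ∉ R) ∧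
      ∀ w ∈ S, w ∉ R → w ∈ σ '' T := by
    refine ⟨S \ interior {w | w ∈ S → w ∈ σ '' T}, sdiff_subset, hS.sdiff isOpen_interior,
      fun t ht c => c.2 (mem_interior_iff_mem_nhds.2 ?_), fun w hw c => ?_⟩
    · exact eventually_nhdsWithin_iff.1 (hl t ht T (mem_interior_iff_mem_nhds.1 (t2 ⟨t, ht, rfl⟩)))
    · exact interior_subset (not_not.1 fun c' => c ⟨hw, c'⟩) hw
  obtain ⟨ψ, C, c1, c2, c3, c4⟩ := vert_push (P := P) (Q := ℝ × ℝ) (R := R)
    (U := ({w : G × P | w.2 = 0} ∪ σ '' T)ᶜ) (A := KI I ×ˢ Icc 0 1)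
    (d := fun a => ((σ (ι a.1)).1, a.2 • (σ (ι a.1)).2)) r2
    (let ⟨J, hJ, hj⟩ := hr; ⟨J, hJ, fun w hw => hj w (r1 hw)⟩)
    ((KI_cpt I).prod isCompact_Icc) (fun a ha => by
      have h3 : ContDiffAt ℝ 1 (fun a : ℝ × ℝ => σ (ι a.1)) a :=
        ContDiffAt.comp (g := σ) (f := fun a : ℝ × ℝ => ι a.1) a
          ((hσ a.1 ha.1).of_le (by simp)) (by fun_prop)
      exact h3.fst.prodMk (contDiffAt_snd.smul h3.snd))
    (((isClosed_eq continuous_snd continuous_const).union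
      (t1.image_of_continuousOn cσ).isClosed).isOpen_compl) (by
      rintro w ⟨⟨a, ha, rfl⟩, hw⟩ (c | ⟨z, hz, c⟩)
      · exact hZ a.1 ha.1 _ (r1 hw) c (fun t ht e => r3 t ht (e ▸ hw)) rfl
      · have h3 : z = ι a.1 := i3 hz (t4 ⟨_, ha.1, rfl⟩) (by simpa using congrArg Prod.fst c)
        exact r3 a.1 ha.1 (by rw [← h3, c]; exact hw)) (by
      have := hM.dim
      simp only [finrank_prod, finrank_self]
      omega)
  obtain ⟨Φ, C', d1, d2, d3, d4⟩ := hG P G P T (ι '' KI I) (fun z => (σ z).1) (fun z => (σ z).2)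
    p q n (ψ '' R) t1 k0 t4 cσ.fst i3 (cp.mono s1) (cq.mono s1) (cn.mono s1)
    (by rintro _ ⟨t, ht, rfl⟩; exact h1 t ht) (ψ.isClosed_image.2 r2)
    (by rintro _ ⟨t, ht, rfl⟩ r hr; exact c4 (t, r) ⟨ht, hr⟩) fun z hz => h2 z (s1 hz)
  refine ⟨ψ.trans Φ, C ∪ C', c2.union d1, fun w hw => ?_, fun w hw h0 => ?_, fun w hw h0 h3 => ?_⟩
  · rw [Homeomorph.trans_apply, c3 w fun c => hw (Or.inl c), d2 w fun c => hw (Or.inr c)]
  · rw [Homeomorph.trans_apply] at h0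
    by_cases c : w ∈ R
    · refine ⟨by_contra fun c' => ?_, fun t ht e => r3 t ht (e ▸ c)⟩
      have h4 : Φ (ψ w) = ψ w := (d4 _ (mem_image_of_mem _ c) (Or.inl h0)).self_of_nhds
      exact (mem_of_id_off (U := {w : G × P | w.2 ≠ 0}) ψ.injective
        (fun w hw c => c1 hw (Or.inl c)) c3).2 c' (h4 ▸ h0)
    · obtain ⟨z, hz, rfl⟩ := r4 w hw c
      rw [c3 _ fun c => c1 c (Or.inr ⟨z, hz, rfl⟩)] at h0
      exact absurd h0 (d3 z hz)
  · have c : w ∈ R := by_contra fun c => by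
      obtain ⟨z, hz, rfl⟩ := r4 w hw c
      obtain ⟨⟨t, ht, rfl⟩, -⟩ := h2 z (s1 hz) 1 one_pos 0 ⟨le_rfl, zero_le_one⟩ 0
        ⟨le_rfl, zero_le_one⟩ (Or.inl rfl) (by simpa using h0)
      exact h3 t ht rfl
    have h4 : w ∉ C := fun c => c1 c (Or.inl h0)
    filter_upwards [ev_id_off c2 c3 h4, d4 w ⟨w, c, c3 w h4⟩ (Or.inr h0)] with y h5 h6
    rw [Homeomorph.trans_apply, h5, id, h6, id]

theorem vert (hP : ProjStmt) (hG : GraphStmt) : VertStmt := by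
  intro P G _ _ _ _ _ _ ι I σ S hM h5 hS hr hc hσ he hl
  obtain ⟨π, p1, p2, p3⟩ := hP P G (G × P) ι (ContinuousLinearMap.inl ℝ G P) (KI I) σ
    (Prod.fst '' {w | (w ∈ S ∧ w.2 = 0) ∧ ∀ t ∈ KI I, w ≠ σ (ι t)}) hM.dim
    (by have := hM.dim; omega) (Prod.mk_left_injective 0) hσ
    ((hc.mono fun w hw => hw.1).image _) (by
      rintro t ht _ ⟨w, hw, rfl⟩ e
      exact hw.2 t ht (by rw [e]; exact Prod.ext rfl hw.1.2))
  have p4 : ∀ w : G × P, π w = w.1 + π (0, w.2) := fun w => by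
    rw [← p1 w.1, ← map_add]; simp
  obtain ⟨Sh, s1, s2⟩ : ∃ Sh : (G × P) ≃L[ℝ] G × P, (∀ w, (Sh w).1 = π w) ∧ ∀ w, (Sh w).2 = w.2 :=
    ⟨ContinuousLinearEquiv.equivOfInverse (π.prod (ContinuousLinearMap.snd ℝ G P))
      ((ContinuousLinearMap.fst ℝ G P - (π.comp (ContinuousLinearMap.inr ℝ G P)).comp
        (ContinuousLinearMap.snd ℝ G P)).prod (ContinuousLinearMap.snd ℝ G P))
      (fun w => Prod.ext (by simp [p4 w]) rfl)
      (fun w => Prod.ext (by simp [p4 (w.1 - π (0, w.2), w.2)]) rfl), fun _ => rfl, fun _ => rfl⟩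
  have s3 : ∀ w, (Sh.symm w).2 = w.2 := fun w => by rw [← s2, Sh.apply_symm_apply]
  obtain ⟨Φ, C, c1, c2, c3, c4⟩ := vert_core hG (σ := fun z => Sh (σ z)) (S := Sh '' S) hM h5
    (Sh.toHomeomorph.isClosed_image.2 hS) (by
      obtain ⟨J, hJ, hj⟩ := hr
      refine ⟨(fun j => Sh ∘ j) '' J, hJ.image _, ?_⟩
      rintro _ ⟨w, hw, rfl⟩
      obtain ⟨j, h1, z, h2, rfl⟩ := hj w hw
      exact ⟨_, mem_image_of_mem _ h1, z, Sh.contDiff.contDiffAt.comp z h2, rfl⟩)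
    (fun t ht => Sh.contDiff.contDiffAt.comp _ (hσ.1 t ht).1) (by simp only [s1]; exact p2)
    (by simpa only [s2] using he) (by
      rintro t ht _ ⟨w, hw, rfl⟩ h0 h1 e
      rw [s2] at h0
      refine p3 t ht ⟨w, ⟨⟨hw, h0⟩, fun t ht e => h1 t ht (by rw [e])⟩, ?_⟩
      rw [← s1, e, s1, p4, h0, Prod.mk_zero_zero, map_zero, add_zero]) fun t ht N hN => by
      have h1 := image_mem_map (m := Sh) (hl t ht N hN)
      rw [image_image] at h1
      exact Sh.toHomeomorph.isEmbedding.map_nhdsWithin_eq S (σ (ι t)) ▸ h1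
  refine ⟨Sh.toHomeomorph.trans (Φ.trans Sh.toHomeomorph.symm), Sh.symm '' C,
    c1.image Sh.symm.continuous, fun w hw => ?_, fun w hw h0 => ?_, fun w hw h0 h1 => ?_⟩
  · change Sh.symm (Φ (Sh w)) = w
    rw [c2 _ fun c => hw ⟨_, c, Sh.symm_apply_apply w⟩, Sh.symm_apply_apply]
  · change (Sh.symm (Φ (Sh w))).2 = 0 at h0
    obtain ⟨h1, h2⟩ := c3 _ (mem_image_of_mem _ hw) (by rwa [s3] at h0)
    exact ⟨by rwa [s2] at h1, fun t ht e => h2 t ht (by rw [e])⟩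
  · have h2 := c4 _ (mem_image_of_mem _ hw) (by rwa [s2]) fun t ht e => h1 t ht (Sh.injective e)
    filter_upwards [Sh.continuous.continuousAt.eventually h2] with y hy
    change Sh.symm (Φ (Sh y)) = y
    rw [hy, id, Sh.symm_apply_apply]

end Pool.Agent.MP_e1dc65_gt.T1

end MrgPart5

-- ======== part 6: formerly Pool.Agent.MP_e1dc65_gt.t1.Whit
section MrgPart6

/-! PROJECT HC, part T1: the Whitney move. -/

set_option linter.unusedSectionVars false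

open scoped ContDiff Manifold
open Set Metric Filter Topology Function Module

noncomputable section

namespace Pool.Agent.MP_e1dc65_gt.T1

namespace WhitP

section

variable {P G E E' M Λ : Type} [NormedAddCommGroup P] [NormedSpace ℝ P] [NormedAddCommGroup G]
  [NormedSpace ℝ G] [NormedAddCommGroup E] [NormedSpace ℝ E] [NormedAddCommGroup E']
  [NormedSpace ℝ E'] [TopologicalSpace M] [ChartedSpace E M] {ι : ℝ →L[ℝ] P}

theorem mem_KI {I : Finset ℕ} {t : ℝ} :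
    t ∈ KI I ↔ ∃ m ∈ I, ∃ u ∈ Icc (0 : ℝ) 1, t = 2 * m + u := by
  simp only [KI, mem_iUnion, exists_prop]
  refine exists_congr fun m => and_congr_right fun _ => ⟨fun h => ⟨t - 2 * m, ⟨by linarith [h.1],
    by linarith [h.2]⟩, by ring⟩, ?_⟩
  rintro ⟨u, hu, rfl⟩
  exact ⟨by linarith [hu.1], by linarith [hu.2]⟩

theorem nat_eq {m m' : ℕ} {u u' : ℝ} (hu : u ∈ Icc (0 : ℝ) 1) (hu' : u' ∈ Icc (0 : ℝ) 1)
    (h : 2 * (m : ℝ) + u = 2 * m' + u') : m = m' := by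
  have h1 : (2 * m : ℝ) < 2 * m' + 2 := by linarith [hu.1, hu'.2]
  have h2 : (2 * m' : ℝ) < 2 * m + 2 := by linarith [hu'.1, hu.2]
  have h3 : 2 * m < 2 * m' + 2 := by exact_mod_cast h1
  have h4 : 2 * m' < 2 * m + 2 := by exact_mod_cast h2
  omega

/-- one map that carries all the strips -/
theorem exists_hat [Nonempty Λ] {n : Λ → ℕ} (hn : Injective n) {π : P →L[ℝ] ℝ}
    (hπ : ∀ t, π (ι t) = t) (σ : Λ → P → M) : ∃ s : P → M, ∀ l, ∀ t ∈ Icc (0 : ℝ) 1,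
      s =ᶠ[𝓝 (ι (2 * n l + t))] fun z => σ l (z - ι (2 * n l)) := by
  refine ⟨fun z => σ (invFun n ⌊(π z + 1 / 2) / 2⌋₊)
    (z - ι (2 * n (invFun n ⌊(π z + 1 / 2) / 2⌋₊))), fun l t ht => ?_⟩
  have h : ∀ᶠ z in 𝓝 (ι (2 * n l + t)), π z ∈ Ioo (2 * n l - 1 / 2 : ℝ) (2 * n l + 3 / 2) :=
    π.continuous.continuousAt.preimage_mem_nhds (by
      rw [hπ]; exact Ioo_mem_nhds (by linarith [ht.1]) (by linarith [ht.2]))
  filter_upwards [h] with z hz
  have h0 : (0 : ℝ) ≤ n l := Nat.cast_nonneg _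
  have : ⌊(π z + 1 / 2) / 2⌋₊ = n l := (Nat.floor_eq_iff (by linarith [hz.1])).2
    ⟨by linarith [hz.1], by linarith [hz.2]⟩
  rw [this, leftInverse_invFun hn l]

theorem imm_pre {Q : Type} [NormedAddCommGroup Q] [NormedSpace ℝ Q] {f : P → M} {g : Q → P}
    {A : Q →L[ℝ] P} {z : Q} (hg : HasFDerivAt g A z) (hA : Injective A)
    (hf : MDifferentiableAt 𝓘(ℝ, P) 𝓘(ℝ, E) f (g z))
    (h : Injective (mfderiv 𝓘(ℝ, P) 𝓘(ℝ, E) f (g z))) :
    Injective (mfderiv 𝓘(ℝ, Q) 𝓘(ℝ, E) (f ∘ g) z) := by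
  rw [(hf.hasMFDerivAt.comp z hg.hasMFDerivAt).mfderiv]
  exact h.comp hA

theorem Imm.md {K : Set ℝ} {s : P → M} (h : Imm E ι K s) {t : ℝ} (ht : t ∈ K) :
    MDifferentiableAt 𝓘(ℝ, P) 𝓘(ℝ, E) s (ι t) :=
  (h t ht).1.self_of_nhds.mdifferentiableAt (by simp)

theorem imm_dif {K : Set ℝ} {s : P → M} {X : Set M} {ψ : M ≃ₜ M} (h : Imm E ι K s)
    (hψ : Dif E X ψ) : Imm E ι K (ψ ∘ s) := fun t ht =>
  ⟨(h t ht).1.mono fun _ hz => hψ.sm.contMDiffAt.comp _ hz,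
    inj_comp (g := ψ.symm) (Imm.md h ht) (hψ.sm.mdifferentiableAt (by simp))
      (hψ.sm'.mdifferentiableAt (by simp)) (Eventually.of_forall ψ.symm_apply_apply) (h t ht).2⟩

theorem imm_arc {K : Set ℝ} {s : P → M} (hι : Injective ι) (h : Imm E ι K s) :
    Imm E (ContinuousLinearMap.id ℝ ℝ) K (s ∘ ι) := fun t ht =>
  ⟨(ι.continuous.continuousAt.eventually (h t ht).1).mono fun _ hz =>
      hz.comp _ ι.contDiff.contMDiff.contMDiffAt,
    imm_pre ι.hasFDerivAt hι (Imm.md h ht) (h t ht).2⟩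

theorem imm_hat {n : Λ → ℕ} {σ : Λ → P → M} {s : P → M} (hI : ∀ l, Imm E ι (Icc 0 1) (σ l))
    (hs : ∀ l, ∀ t ∈ Icc (0 : ℝ) 1,
      s =ᶠ[𝓝 (ι (2 * n l + t))] fun z => σ l (z - ι (2 * n l)))
    {I : Finset ℕ} (hn : ∀ m ∈ I, ∃ l, n l = m) : Imm E ι (KI I) s := fun t ht => by
  obtain ⟨m, hm, u, hu, rfl⟩ := mem_KI.1 ht
  obtain ⟨l, rfl⟩ := hn m hm
  have e : ι (2 * n l + u) - ι (2 * n l) = ι u := by rw [map_add, add_sub_cancel_left]
  have c : Tendsto (fun z => z - ι (2 * n l)) (𝓝 (ι (2 * n l + u))) (𝓝 (ι u)) := by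
    rw [← e]; exact (continuous_id.sub continuous_const).continuousAt
  refine ⟨?_, ?_⟩
  · filter_upwards [(hs l u hu).eventually_nhds, c.eventually (hI l u hu).1] with z h1 h2
    exact (h2.comp z (f := fun z => z - ι (2 * n l))
      (contDiff_id.sub contDiff_const).contMDiff.contMDiffAt).congr_of_eventuallyEq h1
  · rw [(hs l u hu).mfderiv_eq]
    exact imm_pre (f := σ l) (g := fun z => z - ι (2 * n l)) ((hasFDerivAt_id _).sub_const _)
      injective_id (by rw [e]; exact Imm.md (hI l) hu) (by rw [e]; exact (hI l u hu).2)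

theorem germ {K : Set ℝ} {s : P → M} {e : OpenPartialHomeomorph M E'} (he : SC E e)
    (h : Imm E ι K s) {t : ℝ} (ht : t ∈ K) (hm : s (ι t) ∈ e.source) :
    ContDiffAt ℝ 2 (e ∘ s) (ι t) ∧ Injective (fderiv ℝ (e ∘ s) (ι t)) := by
  refine ⟨(contMDiffAt_iff_contDiffAt.1 ((he.at hm).comp _ (h t ht).1.self_of_nhds)).of_le
    (WithTop.coe_le_coe.2 le_top), ?_⟩
  rw [← mfderiv_eq_fderiv]
  exact inj_comp (g := e.symm) (Imm.md h ht) ((he.at hm).mdifferentiableAt (by simp))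
    ((he.symm_at (e.map_source hm)).mdifferentiableAt (by simp)) (e.eventually_left_inverse hm)
    (h t ht).2

theorem join_right {c : ℝ → P} {v : P} (hc : HasDerivAt c v 0) (h0 : c 0 = 0) (hv : v ≠ 0) :
    ∀ᶠ d in 𝓝[>] (0 : ℝ), JoinedIn {0}ᶜ (c d) v := by
  obtain ⟨φ, -, hφ⟩ := exists_dual_vector ℝ v (norm_ne_zero_iff.2 hv)
  have h1 : 0 < φ v := by rw [hφ]; exact norm_pos_iff.2 hv
  have h2 := (φ.continuous.tendsto v).comp hc.tendsto_slope_zero_right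
  filter_upwards [h2.eventually (lt_mem_nhds h1), self_mem_nhdsWithin] with d hd hd0
  simp only [comp, h0, zero_add, sub_zero, map_smul, smul_eq_mul] at hd
  have h3 : 0 < φ (c d) := (mul_pos_iff_of_pos_left (inv_pos.2 hd0)).1 hd
  refine JoinedIn.of_segment_subset (((convex_Ioi (0 : ℝ)).linear_preimage
    φ.toLinearMap).segment_subset h3 h1 |>.trans fun w hw (e : w = 0) => ?_)
  simp [e] at hw

/-- the two ends of an arc lie in the chart and are joined off `B` -/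
theorem ends (hM : Mdl ι) {B : Set M} {e : OpenPartialHomeomorph M (G × P)} {σ : P → M}
    (he : SC E e) (ht : e.target = univ) (hB : ∀ x ∈ e.source, x ∈ B ↔ (e x).2 = 0)
    (hI : Imm E ι (Icc 0 1) σ) (h0 : σ (ι 0) ∈ B ∩ e.source) (h1 : σ (ι 1) ∈ B ∩ e.source)
    (hd : (fderiv ℝ (fun z => (e (σ z)).2) (ι 0)).det *
      (fderiv ℝ (fun z => (e (σ z)).2) (ι 1)).det < 0) :
    ∃ d : ℝ, 0 < d ∧ d < 1 / 2 ∧ (∀ t ∈ Icc (0 : ℝ) d, σ (ι t) ∈ e.source ∧ σ (ι (1 - t)) ∈ e.source) ∧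
      JoinedIn (e.source \ B) (σ (ι d)) (σ (ι (1 - d))) := by
  have hj := hM.join _ _ hd
  have d0 : DifferentiableAt ℝ (fun z => (e (σ z)).2) (ι 0) :=
    ((germ he hI (left_mem_Icc.2 zero_le_one) h0.2).1.differentiableAt two_ne_zero).snd
  have d1 : DifferentiableAt ℝ (fun z => (e (σ z)).2) (ι (1 - 0)) := by
    rw [sub_zero]
    exact ((germ he hI (right_mem_Icc.2 zero_le_one) h1.2).1.differentiableAt two_ne_zero).snd
  have j0 := join_right (d0.hasFDerivAt.comp_hasDerivAt (0 : ℝ) ι.hasDerivAt)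
    ((hB _ h0.2).1 h0.1) hj.source_mem
  have k1 : HasDerivAt (fun t : ℝ => ι (1 - t)) (-ι 1) 0 := by
    rw [← map_neg]
    exact ι.hasFDerivAt.comp_hasDerivAt (0 : ℝ) ((hasDerivAt_id (0 : ℝ)).const_sub 1)
  have k2 := d1.hasFDerivAt.comp_hasDerivAt (f := fun t : ℝ => ι (1 - t)) (0 : ℝ) k1
  rw [sub_zero, map_neg] at k2
  have j1 := join_right k2 (by simpa using (hB _ h1.2).1 h1.1) hj.target_mem
  have c0 : ∀ᶠ t in 𝓝 (0 : ℝ), σ (ι t) ∈ e.source :=
    ((Imm.md hI (left_mem_Icc.2 zero_le_one)).continuousAt.comp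
      ι.continuous.continuousAt).preimage_mem_nhds (e.open_source.mem_nhds h0.2)
  have c1 : ∀ᶠ t in 𝓝 (0 : ℝ), σ (ι (1 - t)) ∈ e.source := by
    have : Tendsto (fun t : ℝ => ι (1 - t)) (𝓝 0) (𝓝 (ι 1)) := by
      simpa using k1.continuousAt.tendsto
    exact ((Imm.md hI (right_mem_Icc.2 zero_le_one)).continuousAt.tendsto.comp this).eventually
      (e.open_source.mem_nhds h1.2)
  obtain ⟨ε, hε, h⟩ := Metric.eventually_nhds_iff.1 (c0.and c1)
  obtain ⟨d, ⟨a0, a1⟩, a2⟩ := ((j0.and j1).and (Ioo_mem_nhdsGT (lt_min hε one_half_pos))).exists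
  have hd' : ∀ t ∈ Icc (0 : ℝ) d, σ (ι t) ∈ e.source ∧ σ (ι (1 - t)) ∈ e.source := fun t ht =>
    h (by rw [Real.dist_eq, sub_zero, abs_of_nonneg ht.1]
          exact ht.2.trans_lt (lt_min_iff.1 a2.2).1)
  refine ⟨d, a2.1, (lt_min_iff.1 a2.2).2, hd', ?_⟩
  obtain ⟨m0, m1⟩ := hd' d (right_mem_Icc.2 a2.1.le)
  have := ((JoinedIn.of_segment_subset (subset_univ (segment ℝ (e (σ (ι d))).1
    (e (σ (ι (1 - d)))).1))).prod ((a0.trans hj).trans a1.symm)).map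
      (continuousOn_univ.1 (ht ▸ e.continuousOn_symm))
  simp only [comp, Prod.mk.eta, e.left_inv m0, e.left_inv m1] at this
  refine this.mono ?_
  rintro _ ⟨w, hw, rfl⟩
  have hw' : w ∈ e.target := ht ▸ mem_univ w
  exact ⟨e.map_target hw', fun c => hw.2 (by
    simpa only [e.right_inv hw', mem_singleton_iff] using (hB _ (e.map_target hw')).1 c)⟩

/-- the homotopy of the middle part of an arc into the chart -/
theorem homot {c : ℝ → M} {B U X : Set M} {d : ℝ} (hc : ContinuousOn c (Icc 0 1))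
    (hB : ∀ t ∈ Ioo (0 : ℝ) 1, c t ∉ B) (hT : Thin ((c '' Icc 0 1 ∪ U) \ B) X) (h0 : 0 < d)
    (h1 : d < 1 / 2) (hj : JoinedIn (U \ B) (c d) (c (1 - d))) :
    ∃ H : ℝ × ℝ → M, Continuous H ∧ (∀ z, H z ∈ X) ∧ (∀ t ∈ Icc d (1 - d), H (0, t) = c t) ∧
      (∀ u, H (u, d) = c d ∧ H (u, 1 - d) = c (1 - d)) ∧ ∀ t, H (1, t) ∈ U \ B := by
  have hm : ∀ τ : unitInterval, d + τ * (1 - 2 * d) ∈ Ioo (0 : ℝ) 1 := fun τ =>
    ⟨by nlinarith [τ.2.1], by nlinarith [τ.2.2]⟩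
  let p : Path (c d) (c (1 - d)) :=
    ⟨⟨fun τ => c (d + τ * (1 - 2 * d)), hc.comp_continuous (by fun_prop)
      fun τ => Ioo_subset_Icc_self (hm τ)⟩, by simp, by
        show c (d + ((1 : unitInterval) : ℝ) * (1 - 2 * d)) = _
        congr 1; simp; ring⟩
  obtain ⟨q, hq⟩ := hj
  obtain ⟨H, hH⟩ := hT _ _ p q
    (fun τ => ⟨Or.inl ⟨_, Ioo_subset_Icc_self (hm τ), rfl⟩, hB _ (hm τ)⟩)
    fun τ => ⟨Or.inr (hq τ).1, (hq τ).2⟩
  have h2 : 0 < 1 - 2 * d := by linarith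
  refine ⟨fun z => H (projIcc 0 1 zero_le_one z.1, projIcc 0 1 zero_le_one ((z.2 - d) / (1 - 2 * d))),
    H.continuous.comp ((continuous_projIcc.comp continuous_fst).prodMk
      (continuous_projIcc.comp (by fun_prop))), fun z => hH _, fun t ht => ?_, fun u => ⟨?_, ?_⟩,
    fun t => ?_⟩
  · have : (t - d) / (1 - 2 * d) ∈ Icc (0 : ℝ) 1 :=
      ⟨div_nonneg (by linarith [ht.1]) h2.le, (div_le_one h2).2 (by linarith [ht.2])⟩
    simp only [projIcc_left, projIcc_of_mem _ this]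
    refine (H.apply_zero _).trans ?_
    show c (d + (t - d) / (1 - 2 * d) * (1 - 2 * d)) = c t
    rw [div_mul_cancel₀ _ h2.ne', add_sub_cancel]
  · simp only [sub_self, zero_div, projIcc_left]
    exact H.source _
  · have : (1 - d - d) / (1 - 2 * d) = 1 := by rw [div_eq_one_iff_eq h2.ne']; ring
    simp only [this, projIcc_right]
    exact H.target _
  · simp only [projIcc_right]
    exact (H.apply_one _).symm ▸ hq _

theorem dif_mem {O B : Set M} {ψ : M ≃ₜ M} (h : Dif E (O \ B) ψ) {x : M} : ψ x ∈ B ↔ x ∈ B := by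
  obtain ⟨C, h1, -, h3⟩ := h.supp
  exact not_iff_not.1 (mem_of_id_off (U := Bᶜ) ψ.injective (fun _ hx => (h1 hx).2) h3)

theorem dif_ev [T2Space M] {O B : Set M} {ψ : M ≃ₜ M} (h : Dif E (O \ B) ψ) {x : M} (hx : x ∈ B) :
    ψ =ᶠ[𝓝 x] id := by
  obtain ⟨C, h1, h2, h3⟩ := h.supp
  exact ev_id_off h2 h3 fun c => (h1 c).2 hx

end

/-- all arcs are moved into their charts -/
theorem move (hA : ArcStmt) {E M Λ : Type} [Fintype Λ] [NormedAddCommGroup E] [NormedSpace ℝ E]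
    [FiniteDimensional ℝ E] [TopologicalSpace M] [T2Space M] [ChartedSpace E M]
    [IsManifold 𝓘(ℝ, E) ∞ M] (hE : 4 ≤ finrank ℝ E) {O B : Set M} (hO : IsOpen O)
    (hB : IsClosed B) {U : Λ → Set M} (hU : ∀ l, IsOpen (U l)) {n : Λ → ℕ} {a : ℝ → M}
    {c : Λ → ℝ → M} (ha : Imm E (ContinuousLinearMap.id ℝ ℝ) (KI (Finset.univ.image n)) a)
    (hac : ∀ l, ∀ t ∈ Icc (0 : ℝ) 1, a (2 * n l + t) = c l t)
    (hinj : ∀ l l', ∀ t ∈ Icc (0 : ℝ) 1, ∀ t' ∈ Icc (0 : ℝ) 1, c l t = c l' t' → l = l' ∧ t = t')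
    (hH : ∀ l, ∃ d : ℝ, 0 < d ∧ d < 1 / 2 ∧ (∀ t ∈ Icc (0 : ℝ) d, c l t ∈ U l ∧ c l (1 - t) ∈ U l) ∧
      ∃ H : ℝ × ℝ → M, Continuous H ∧ (∀ z, H z ∈ O \ B) ∧
        (∀ t ∈ Icc d (1 - d), H (0, t) = c l t) ∧
        (∀ u, H (u, d) = c l d ∧ H (u, 1 - d) = c l (1 - d)) ∧ ∀ t, H (1, t) ∈ U l \ B) :
    ∃ ψ : M ≃ₜ M, Dif E (O \ B) ψ ∧ ∀ l, ∀ t ∈ Icc (0 : ℝ) 1, ψ (c l t) ∈ U l := by
  classical
  suffices h : ∀ T : Finset Λ, ∃ ψ : M ≃ₜ M, Dif E (O \ B) ψ ∧ ∀ l, ∀ t ∈ Icc (0 : ℝ) 1,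
      (l ∈ T → ψ (c l t) ∈ U l) ∧ (l ∉ T → ψ (c l t) = c l t) by
    obtain ⟨ψ, h1, h2⟩ := h Finset.univ
    exact ⟨ψ, h1, fun l t ht => (h2 l t ht).1 (Finset.mem_univ l)⟩
  have hK : ∀ l, ∀ t ∈ Icc (0 : ℝ) 1, 2 * (n l : ℝ) + t ∈ KI (Finset.univ.image n) :=
    fun l t ht => mem_KI.2 ⟨n l, Finset.mem_image_of_mem n (Finset.mem_univ l), t, ht, rfl⟩
  intro T
  induction T using Finset.induction_on with
  | empty => exact ⟨Homeomorph.refl M, Dif.refl _, fun l t _ => ⟨by simp, fun _ => rfl⟩⟩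
  | insert l T hl ih =>
    obtain ⟨ψ, h1, h2⟩ := ih
    obtain ⟨d, d0, d1, hd, H, H1, H2, H3, H4, H5⟩ := hH l
    have sub : ∀ t ∈ Icc (2 * (n l : ℝ) + d) (2 * n l + (1 - d)), t - 2 * n l ∈ Icc d (1 - d) :=
      fun t ht => ⟨by linarith [ht.1], by linarith [ht.2]⟩
    have sub' : Icc d (1 - d) ⊆ Icc (0 : ℝ) 1 := Icc_subset_Icc d0.le (by linarith)
    have val : ∀ t ∈ Icc (2 * (n l : ℝ) + d) (2 * n l + (1 - d)),
        ψ (a t) = c l (t - 2 * n l) := fun t ht => by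
      rw [← (h2 l _ (sub' (sub t ht))).2 hl, ← hac l _ (sub' (sub t ht)), add_sub_cancel]
    obtain ⟨ψ', k1, k2, k3⟩ := hA E M (O \ B) (KI (Finset.univ.image n))
      (Icc (2 * (n l : ℝ) + d) (2 * n l + (1 - d))) (ψ ∘ a) (fun z => H (z.1, z.2 - 2 * n l))
      (univ ×ˢ U l) hE (hO.sdiff hB) (KI_cpt _) isCompact_Icc
      (fun t ht => by simpa using hK l _ (sub' (sub t ht))) (imm_dif ha h1)
      (fun t ht t' ht' e => by
        obtain ⟨m, hm, u, hu, rfl⟩ := mem_KI.1 ht'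
        obtain ⟨l', -, rfl⟩ := Finset.mem_image.1 hm
        have e' := ψ.injective e
        rw [hac l' u hu, ← add_sub_cancel (2 * (n l : ℝ)) t, hac l _ (sub' (sub t ht))] at e'
        obtain ⟨rfl, e''⟩ := hinj _ _ _ (sub' (sub t ht)) _ hu e'
        linarith)
      (H1.comp (by fun_prop)).continuousOn (fun z _ => H2 _)
      (fun t ht => (H3 _ (sub t ht)).trans (val t ht).symm)
      (fun u _ t ht => by
        have ht' := isClosed_Icc.frontier_subset ht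
        rw [frontier_Icc (by linarith)] at ht
        rw [comp_apply, val t ht']
        rcases ht with rfl | rfl
        · simpa only [add_sub_cancel_left] using (H4 u).1
        · simpa only [add_sub_cancel_left] using (H4 u).2)
      (isOpen_univ.prod (hU l)) fun t _ => ⟨mem_univ _, (H5 _).1⟩
    have fix : ∀ l', ∀ t ∈ Icc (0 : ℝ) 1, (l' = l → t ∉ Icc d (1 - d)) →
        ψ' (ψ (c l' t)) = ψ (c l' t) := fun l' t ht hne => by
      have := k2 _ ⟨hK l' t ht, fun hi => ?_⟩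
      · rwa [comp_apply, hac l' t ht] at this
      · have hi' := sub _ (interior_subset hi)
        have e := hac l _ (sub' hi')
        rw [add_sub_cancel, hac l' t ht] at e
        obtain ⟨rfl, e'⟩ := hinj _ _ _ ht _ (sub' hi') e
        exact hne rfl (e' ▸ hi')
    refine ⟨ψ.trans ψ', h1.trans k1, fun l' t ht => ⟨fun hm => ?_, fun hm => ?_⟩⟩
    · rw [Homeomorph.trans_apply]
      rcases eq_or_ne l' l with rfl | hne
      · by_cases hc : t ∈ Icc d (1 - d)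
        · have := (k3 (2 * n l' + t) ⟨by linarith [hc.1], by linarith [hc.2]⟩).2
          rwa [comp_apply, hac l' t ht] at this
        · rw [fix l' t ht fun _ => hc, (h2 l' t ht).2 hl]
          rcases not_and_or.1 hc with hc | hc
          · exact (hd t ⟨ht.1, (not_le.1 hc).le⟩).1
          · simpa using (hd (1 - t) ⟨by linarith [ht.2], by linarith [not_le.1 hc]⟩).2
      · rw [fix l' t ht fun e => absurd e hne]
        exact (h2 l' t ht).1 ((Finset.mem_insert.1 hm).resolve_left hne)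
    · rw [Finset.mem_insert, not_or] at hm
      rw [Homeomorph.trans_apply, fix l' t ht fun e => absurd e hm.1, (h2 l' t ht).2 hm.2]

end WhitP

open WhitP in
theorem whit (hA : ArcStmt) (hV : VertStmt) : WhitStmt := by
  intro P G E M J Λ _ _ _ _ _ _ _ _ _ _ _ _ _ _ _ ι O B S e σ j hM hE hGP hO hB hS hR hSB he hd hI
    hinj hN hends
  classical
  rcases isEmpty_or_nonempty Λ with hΛ | hΛ
  · exact ⟨Homeomorph.refl M, ∅, empty_subset _, isCompact_empty, fun _ _ => rfl,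
      fun x _ hx => ⟨hx, fun l => isEmptyElim l⟩, fun _ _ _ => EventuallyEq.rfl⟩
  have := Fintype.ofFinite Λ
  obtain ⟨n, hn⟩ := exists_injective_nat Λ
  obtain ⟨π, hπ⟩ := hM.left
  have hι : Injective ι := LeftInverse.injective hπ
  obtain ⟨s, hs⟩ := exists_hat hn hπ σ
  have sub : ∀ (l : Λ) (t : ℝ), ι (2 * n l + t) - ι (2 * n l) = ι t := fun l t => by
    rw [map_add, add_sub_cancel_left]
  have hs0 : ∀ l, ∀ t ∈ Icc (0 : ℝ) 1, s (ι (2 * n l + t)) = σ l (ι t) := fun l t ht => by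
    rw [(hs l t ht).eq_of_nhds, sub]
  have z0 : (0 : ℝ) ∈ Icc (0 : ℝ) 1 := left_mem_Icc.2 zero_le_one
  have z1 : (1 : ℝ) ∈ Icc (0 : ℝ) 1 := right_mem_Icc.2 zero_le_one
  obtain ⟨ψ, hψ, hin⟩ := move hA (by omega) hO hB (U := fun l => (e (j l)).source)
    (fun l => (e (j l)).open_source) (n := n) (a := s ∘ ι) (c := fun l t => σ l (ι t))
    (imm_arc hι (imm_hat hI hs fun m hm => by simpa using hm)) hs0 hinj fun l => by
      obtain ⟨e0, e1, e2, e3, e4⟩ := hends l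
      obtain ⟨d, d0, d1, d2, d3⟩ := ends hM (he _).1 (he _).2.1 (he _).2.2.2 (hI l) e0 e1 e3
      exact ⟨d, d0, d1, d2, homot (c := fun t => σ l (ι t)) (fun t ht =>
        ((Imm.md (hI l) ht).continuousAt.comp ι.continuous.continuousAt).continuousWithinAt)
        e2 e4 d0 d1 d3⟩
  have tg : ∀ i w, w ∈ (e i).target := fun i w => (he i).2.1 ▸ mem_univ w
  have cs : ∀ i, Continuous (e i).symm := fun i =>
    continuousOn_univ.1 ((he i).2.1 ▸ (e i).continuousOn_symm)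
  have fixB : ∀ x ∈ B, ψ x = x := fun x hx => (dif_ev hψ hx).eq_of_nhds
  let I : J → Finset ℕ := fun i => (Finset.univ.filter fun l => j l = i).image n
  have memI : ∀ {i t}, t ∈ KI (I i) → ∃ l, j l = i ∧ ∃ u ∈ Icc (0 : ℝ) 1, t = 2 * n l + u := by
    intro i t ht
    obtain ⟨m, hm, u, hu, rfl⟩ := mem_KI.1 ht
    obtain ⟨l, hl, rfl⟩ := Finset.mem_image.1 hm
    exact ⟨l, (Finset.mem_filter.1 hl).2, u, hu, rfl⟩
  have hIm : ∀ i, Imm E ι (KI (I i)) (ψ ∘ s) := fun i => imm_dif (imm_hat hI hs fun m hm =>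
    let ⟨l, _, h⟩ := Finset.mem_image.1 hm; ⟨l, h⟩) hψ
  have key : ∀ i, _ := fun i => hV P G ι (I i) (e i ∘ ψ ∘ s) ((e i).symm ⁻¹' (ψ '' S)) hM hGP
    ((hS.image ψ.continuous).isClosed.preimage (cs i))
    (by
      obtain ⟨T, h1, h2⟩ := hR
      refine ⟨(fun g => e i ∘ ψ ∘ g) '' T, h1.image _, ?_⟩
      rintro w ⟨x, hx, hw⟩
      obtain ⟨g, hg, z, h3, rfl⟩ := h2 x hx
      have m : ψ (g z) ∈ (e i).source := hw ▸ (e i).map_target (tg i w)
      refine ⟨_, mem_image_of_mem _ hg, z, contMDiffAt_iff_contDiffAt.1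
        ((((he i).1.at m).of_le (by simp)).comp z ((hψ.sm.contMDiffAt.of_le (by simp)).comp z h3)), ?_⟩
      simp only [comp_apply, hw, (e i).right_inv (tg i w)])
    (by
      refine (hSB.image (e i)).mono ?_
      rintro w ⟨⟨x, hx, hw⟩, h0⟩
      have m : ψ x ∈ B := by
        rw [hw, (he i).2.2.2 _ ((e i).map_target (tg i w)), (e i).right_inv (tg i w)]; exact h0
      have m' := (dif_mem hψ).1 m
      exact ⟨x, ⟨hx, m'⟩, by rw [← fixB x m', hw, (e i).right_inv (tg i w)]⟩)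
    ⟨fun t ht => germ (he i).1 (hIm i) ht (by
        obtain ⟨l, rfl, u, hu, rfl⟩ := memI ht
        rw [comp_apply, hs0 l u hu]; exact hin l u hu),
      fun t ht t' ht' h => by
        obtain ⟨l, rfl, u, hu, rfl⟩ := memI ht
        obtain ⟨l', hl', u', hu', rfl⟩ := memI ht'
        simp only [comp_apply, hs0 l u hu, hs0 l' u' hu'] at h
        obtain ⟨rfl, rfl⟩ := hinj _ _ _ hu _ hu' (ψ.injective
          ((e (j l)).injOn (hin l u hu) (hl' ▸ hin l' u' hu') h))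
        rfl⟩
    (by
      intro m hm
      obtain ⟨l, hl, rfl⟩ := Finset.mem_image.1 hm
      obtain rfl := (Finset.mem_filter.1 hl).2
      obtain ⟨e0, e1, e2, e3, -⟩ := hends l
      have dv : ∀ u ∈ Icc (0 : ℝ) 1, σ l (ι u) ∈ B →
          fderiv ℝ (fun z => ((e (j l) ∘ ψ ∘ s) z).2) (ι (2 * n l + u)) =
            fderiv ℝ (fun z => (e (j l) (σ l z)).2) (ι u) := fun u hu hb => by
        have c : Tendsto s (𝓝 (ι (2 * n l + u))) (𝓝 (σ l (ι u))) := by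
          rw [← hs0 l u hu]
          exact (Imm.md (imm_hat hI hs (I := {n l}) (by simp))
            (mem_KI.2 ⟨n l, by simp, u, hu, rfl⟩)).continuousAt
        have q : (fun z => ((e (j l) ∘ ψ ∘ s) z).2) =ᶠ[𝓝 (ι (2 * n l + u))]
            fun z => (fun z => (e (j l) (σ l z)).2) (z - ι (2 * n l)) := by
          filter_upwards [hs l u hu, c.eventually (dif_ev hψ hb)] with z h1 h2
          simp only [comp_apply, h2, id, ← h1]
        rw [q.fderiv_eq, fderiv_comp_sub (f := fun z => (e (j l) (σ l z)).2), sub]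
      have v0 := hs0 l 0 z0
      have d0 := dv 0 z0 e0.1
      rw [add_zero] at v0 d0
      refine ⟨?_, ?_, fun t ht => ?_, ?_⟩
      · simp only [comp_apply, v0, fixB _ e0.1]; exact ((he _).2.2.2 _ e0.2).1 e0.1
      · simp only [comp_apply, hs0 l 1 z1, fixB _ e1.1]; exact ((he _).2.2.2 _ e1.2).1 e1.1
      · have ht' : t - 2 * n l ∈ Ioo (0 : ℝ) 1 := ⟨by linarith [ht.1], by linarith [ht.2]⟩
        have v := hs0 l _ (Ioo_subset_Icc_self ht')
        rw [add_sub_cancel] at v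
        simp only [comp_apply, v]
        exact fun h => e2 _ ht' ((dif_mem hψ).1
          (((he _).2.2.2 _ (hin l _ (Ioo_subset_Icc_self ht'))).2 h))
      · rw [d0, dv 1 z1 e1.1]; exact e3)
    (by
      intro t ht N hN'
      obtain ⟨l, rfl, u, hu, rfl⟩ := memI ht
      have c : Tendsto (fun z => z + ι (2 * n l)) (𝓝 (ι u)) (𝓝 (ι (2 * n l + u))) := by
        rw [map_add, add_comm]; exact (continuous_id.add continuous_const).continuousAt
      have h1 := hN l u hu _ ((c.eventually (hs l u hu)).and (c hN'))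
      have h2 := (ψ.symm.continuous.comp (cs (j l))).continuousWithinAt.tendsto_nhdsWithin
        (s := (e (j l)).symm ⁻¹' (ψ '' S)) (t := S) (x := (e (j l) ∘ ψ ∘ s) (ι (2 * n l + u)))
        (by rintro w ⟨x, hx, hw⟩; simpa [← hw] using hx)
      simp only [comp_apply, hs0 l u hu, (e (j l)).left_inv (hin l u hu),
        ψ.symm_apply_apply] at h2 ⊢
      refine mem_of_superset (h2 h1) ?_
      rintro w ⟨z, ⟨h3, h4⟩, h5⟩
      refine ⟨_, h4, ?_⟩
      simp only [comp_apply, add_sub_cancel_right] at h3 h5 ⊢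
      rw [h3, h5, ψ.apply_symm_apply, (e (j l)).right_inv (tg _ w)])
  choose Φ C hC hΦ0 hΦ1 hΦ2 using key
  choose g hg1 hg2 hg3 using fun i => transport (e i) (Φ i) (hC i) (fun w _ => tg i w) (hΦ0 i)
  have hK : ∀ i, IsCompact ((e i).symm '' C i) := fun i => (hC i).image (cs i)
  have hKs : ∀ i, (e i).symm '' C i ⊆ (e i).source := by
    rintro i _ ⟨w, -, rfl⟩
    exact (e i).map_target (tg i w)
  obtain ⟨F, hF1, hF2⟩ := glue_homeo (fun i => (e i).open_source) hd hK hKs hg3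
  obtain ⟨C₀, c1, c2, c3⟩ := hψ.supp
  have out : ∀ x, (∀ i, x ∉ (e i).source) → x ∉ ⋃ i, (e i).symm '' C i := fun x hx h =>
    let ⟨i, hi⟩ := mem_iUnion.1 h; hx i (hKs i hi)
  have memS : ∀ i, ∀ x ∈ S, ψ x ∈ (e i).source → e i (ψ x) ∈ (e i).symm ⁻¹' (ψ '' S) :=
    fun i x hx hi => ⟨x, hx, ((e i).left_inv hi).symm⟩
  refine ⟨ψ.trans F, C₀ ∪ ⋃ i, (e i).symm '' C i, union_subset (fun x hx => (c1 hx).1)
    (iUnion_subset fun i => (hKs i).trans (he i).2.2.1), c2.union (isCompact_iUnion hK),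
    fun x hx => ?_, fun x hx hb => ?_, fun x hx hne => ?_⟩
  · rw [Homeomorph.trans_apply, c3 x fun c => hx (Or.inl c), hF2 x fun c => hx (Or.inr c)]
  · rw [Homeomorph.trans_apply] at hb
    by_cases hc : ∃ i, ψ x ∈ (e i).source
    · obtain ⟨i, hi⟩ := hc
      rw [hF1 i _ hi, hg1 i _ hi, (he i).2.2.2 _ ((e i).map_target (tg i _)),
        (e i).right_inv (tg i _)] at hb
      obtain ⟨h1, h2⟩ := hΦ1 i _ (memS i x hx hi) hb
      have hxB := (dif_mem hψ).1 (((he i).2.2.2 _ hi).2 h1)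
      have : ∀ l, ∀ u ∈ Icc (0 : ℝ) 1, x ≠ σ l (ι u) := by
        rintro l u hu rfl
        obtain rfl : j l = i := by_contra fun c => disjoint_left.1 (hd c) (hin l u hu) hi
        exact h2 _ (mem_KI.2 ⟨n l, Finset.mem_image_of_mem n (by simp), u, hu, rfl⟩)
          (by simp only [comp_apply, hs0 l u hu])
      exact ⟨hxB, fun l => ⟨this l 0 z0, this l 1 z1⟩⟩
    · rw [not_exists] at hc
      rw [hF2 _ (out _ hc)] at hb
      refine ⟨(dif_mem hψ).1 hb, fun l => ⟨?_, ?_⟩⟩ <;> rintro rfl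
      exacts [hc _ (hin l 0 z0), hc _ (hin l 1 z1)]
  · have hF : F =ᶠ[𝓝 x] id := by
      by_cases hc : ∃ i, x ∈ (e i).source
      · obtain ⟨i, hi⟩ := hc
        have m := memS i x hx.1 (by rwa [fixB x hx.2])
        rw [fixB x hx.2] at m
        have := hΦ2 i _ m (((he i).2.2.2 _ hi).1 hx.2) fun t ht h => by
          obtain ⟨l, rfl, u, hu, rfl⟩ := memI ht
          simp only [comp_apply, hs0 l u hu] at h
          have h' := (e (j l)).injOn hi (hin l u hu) h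
          rw [← fixB x hx.2] at h'
          have h'' := ψ.injective h'
          rcases hu.1.eq_or_lt with rfl | a
          · exact (hne l).1 h''
          · rcases hu.2.eq_or_lt with rfl | b
            · exact (hne l).2 h''
            · exact (hends l).2.2.1 u ⟨a, b⟩ (h'' ▸ hx.2)
        filter_upwards [(e i).open_source.mem_nhds hi, ((e i).continuousAt hi).eventually this]
          with y h1 h2
        rw [hF1 i y h1, hg1 i y h1, h2, id, (e i).left_inv h1, id]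
      · exact ev_id_off (isCompact_iUnion hK) hF2 (out x (not_exists.1 hc))
    filter_upwards [dif_ev hψ hx.2, hF] with y h1 h2
    rw [Homeomorph.trans_apply, h1]
    exact h2

end Pool.Agent.MP_e1dc65_gt.T1

end
end MrgPart6

-- ======== part 7: formerly Pool.Agent.MP_e1dc65_gt.t1.Main
section MrgPart7

/-! PROJECT HC, part T1: the final statements. -/

namespace Pool.Agent.MP_e1dc65_gt.T1

theorem cancelThm : CancelStmt := cancel shrink

theorem whitThm : WhitStmt := whit arc (vert proj graph)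

theorem hcThm : HCStmt := hc whitThm cancelThm mdl1 (mdl2 loc2)

/-- the two notions of a thin subset agree -/
theorem thin_of {X : Type} [TopologicalSpace X] {S T : Set X} (h : MP_e1dc65_gt.Thin S T) :
    T1.Thin S T := fun _ _ _ _ hp hq => h.hin hp hq

end Pool.Agent.MP_e1dc65_gt.T1

end MrgPart7

-- ======== part 8: formerly Pool.Agent.MP_e1dc65_gt.t.Key1
section MrgPart8

/-! PROJECT HC, block KEY, part 1: surgeries in finitely many patches. -/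

open scoped ContDiff Manifold Topology
open Set Filter Function Module Metric Topology

set_option linter.unusedSectionVars false

noncomputable section

namespace Pool.Agent.MP_e1dc65_gt.T.Key

open T1 T1.Cancel

section Top

variable {ι κ U V Z Z' X X' : Type} [NormedAddCommGroup U] [NormedSpace ℝ U] [NormedAddCommGroup V]
  [NormedSpace ℝ V] [TopologicalSpace Z] [TopologicalSpace Z'] [TopologicalSpace X]
  [TopologicalSpace X'] [Nonempty Z] [Nonempty Z']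

/-- a family of disjoint open embeddings -/
structure Fam (e : ι → Z → X) : Prop where
  oe : ∀ k, IsOpenEmbedding (e k)
  dis : ∀ k k' z z', e k z = e k' z' → k = k'

variable {e : ι → Z → X} {e' : ι → Z' → X'}

theorem Fam.eq (h : Fam e) {k k' : ι} {z z' : Z} (H : e k z = e k' z') : k = k' ∧ z = z' := by
  obtain rfl := h.dis _ _ _ _ H
  exact ⟨rfl, (h.oe k).injective H⟩

theorem Fam.mem (h : Fam e) {C : Set Z} {k : ι} {z : Z} : e k z ∈ ⋃ k, e k '' C ↔ z ∈ C :=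
  ⟨fun H => let ⟨_, _, h1, h2⟩ := mem_iUnion.1 H; (h.eq h2).2 ▸ h1,
    fun H => mem_iUnion.2 ⟨k, z, H, rfl⟩⟩

/-- tubes in the patches -/
def Fam.push (h : Fam e) (T : Tubes κ U V Z) : Tubes (ι × κ) U V X where
  a p := (T.a p.2).trans ((h.oe p.1).toOpenPartialHomeomorph (e p.1))
  zero p θ := ⟨T.zero p.2 θ, trivial⟩
  disj _ _ θ θ' H := Prod.ext (h.eq H).1 (T.disj _ _ θ θ' (h.eq H).2)

theorem Fam.core (h : Fam e) (T : Tubes κ U V Z) (p : ι × κ) :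
    (h.push T).core p = e p.1 '' T.core p.2 := range_comp (e p.1) fun θ => T.a p.2 (θ, 0)

theorem Fam.cores (h : Fam e) (T : Tubes κ U V Z) : (h.push T).cores = ⋃ k, e k '' T.cores := by
  simp only [Tubes.cores, h.core, image_iUnion, iUnion_prod']

theorem Fam.target (h : Fam e) (T : Tubes κ U V Z) (p : ι × κ) :
    ((h.push T).a p).target ⊆ e p.1 '' (T.a p.2).target := fun _ hx =>
  ⟨_, hx.2, ((h.oe p.1).toOpenPartialHomeomorph (e p.1)).right_inv hx.1⟩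

theorem exists_fw (he : Fam e) (he' : Fam e') (φ : OpenPartialHomeomorph Z Z')
    (h : OpenPartialHomeomorph X X') {C A : Set Z} (hs : h.source = (⋃ k, e k '' C)ᶜ)
    (hA : φ.source = Aᶜ) (hAC : A ⊆ C) (hr : ∀ k z, z ∉ C → h (e k z) = e' k (φ z)) :
    ∃ F : X → X', (∀ x ∈ h.source, F x = h x) ∧ (∀ k z, F (e k z) = e' k (φ z)) ∧
      IsOpen (⋃ k, e k '' A)ᶜ ∧ ContinuousOn F (⋃ k, e k '' A)ᶜ ∧
      ∀ x ∈ (⋃ k, e k '' A)ᶜ, x ∈ h.source ∨ ∃ k, ∃ z ∈ φ.source, e k z = x := by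
  classical
  let F : X → X' := fun x =>
    if H : ∃ p : ι × Z, e p.1 p.2 = x then e' H.choose.1 (φ H.choose.2) else h x
  have f2 : ∀ k z, F (e k z) = e' k (φ z) := fun k z => by
    have H : ∃ p : ι × Z, e p.1 p.2 = e k z := ⟨(k, z), rfl⟩
    simp only [F, dif_pos H]
    rw [(he.eq H.choose_spec).2, (he.eq H.choose_spec).1]
  have f1 : ∀ x ∈ h.source, F x = h x := fun x hx => by
    by_cases H : ∃ p : ι × Z, e p.1 p.2 = x
    · obtain ⟨p, rfl⟩ := H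
      rw [f2, hr _ _ fun c => (hs ▸ hx :) (he.mem.2 c)]
    · simp only [F, dif_neg H]
  have f3 : ∀ x ∈ (⋃ k, e k '' A)ᶜ, x ∈ h.source ∨ ∃ k, ∃ z ∈ φ.source, e k z = x := fun x hx =>
    or_iff_not_imp_left.2 fun c => by
      obtain ⟨k, z, -, rfl⟩ := mem_iUnion.1 (not_not.1 (hs ▸ c :))
      exact ⟨k, z, hA ▸ fun c => hx (he.mem.2 c), rfl⟩
  have f4 : ∀ x ∈ (⋃ k, e k '' A)ᶜ, (⋃ k, e k '' A)ᶜ ∈ 𝓝 x ∧ ContinuousAt F x := fun x hx => by
    obtain c | ⟨k, z, hz, rfl⟩ := f3 x hx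
    · exact ⟨mem_of_superset (h.open_source.mem_nhds c) (hs ▸ compl_subset_compl.2
        (iUnion_mono fun k => image_mono hAC)), (h.continuousAt c).congr
        (mem_of_superset (h.open_source.mem_nhds c) fun y hy => (f1 y hy).symm)⟩
    · refine ⟨mem_of_superset ((he.oe k).image_mem_nhds.2 (φ.open_source.mem_nhds hz)) ?_,
        (he.oe k).continuousAt_iff.1 ?_⟩
      · rintro _ ⟨y, hy, rfl⟩ c
        exact (hA ▸ hy :) (he.mem.1 c)
      · rw [show F ∘ e k = e' k ∘ φ from funext (f2 k)]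
        exact (he'.oe k).continuous.continuousAt.comp (φ.continuousAt hz)
  exact ⟨F, f1, f2, isOpen_iff_mem_nhds.2 fun x hx => (f4 x hx).1,
    fun x hx => (f4 x hx).2.continuousWithinAt, f3⟩

/-- PATCH -/
theorem patch (he : Fam e) (he' : Fam e') (σ : Surg κ U V Z Z') (h : OpenPartialHomeomorph X X')
    {C : Set Z} {C' : Set Z'} (hc : Cor σ univ C C') (hs : h.source = (⋃ k, e k '' C)ᶜ)
    (ht : h.target = (⋃ k, e' k '' C')ᶜ) (hr : ∀ k z, z ∉ C → h (e k z) = e' k (σ.φ z)) :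
    ∃ τ : Surg (ι × κ) U V X X', τ.A = he.push σ.A ∧ τ.B = he'.push σ.B ∧
      (∀ x ∈ h.source, τ.φ x = h x) ∧ ∀ k z, τ.φ (e k z) = e' k (σ.φ z) := by
  have a : σ.A.cores ⊆ C := iUnion_subset fun i x hx => (hc.A i x hx).2 trivial
  have b : σ.B.cores ⊆ C' := iUnion_subset fun i x hx => (hc.B i x hx).2 trivial
  obtain ⟨F, f1, f2, f3, f4, f5⟩ := exists_fw he he' σ.φ h hs σ.src a hr
  obtain ⟨G, g1, g2, g3, g4, g5⟩ := exists_fw he' he σ.φ.symm h.symm ht σ.tgt b fun k z hz => by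
    have h1 : z ∈ σ.φ.target := σ.tgt ▸ fun c => hz (b c)
    have h2 : σ.φ.symm z ∉ C := fun c => hz ((hc.symm.φ z h1).2 c)
    rw [← h.left_inv (x := e k (σ.φ.symm z)) (hs ▸ fun c => h2 (he.mem.1 c)), hr _ _ h2,
      σ.φ.right_inv h1]
  refine ⟨⟨he.push σ.A, he'.push σ.B, ⟨⟨⟨F, G, _, _, fun x hx => ?_, fun x hx => ?_, fun x hx => ?_,
    fun x hx => ?_⟩, f4, g4⟩, f3, g3⟩, congrArg compl (he.cores σ.A).symm,
    congrArg compl (he'.cores σ.B).symm,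
    fun p => ?_⟩, rfl, rfl, f1, f2⟩
  · obtain c | ⟨k, z, hz, rfl⟩ := f5 x hx
    · rw [f1 x c]
      exact fun d => (ht ▸ h.map_source c :) (iUnion_mono (fun k => image_mono b) d)
    · rw [f2]
      exact fun d => (σ.tgt ▸ σ.φ.map_source hz :) (he'.mem.1 d)
  · obtain c | ⟨k, z, hz, rfl⟩ := g5 x hx
    · rw [g1 x c]
      exact fun d => (hs ▸ h.map_target c :) (iUnion_mono (fun k => image_mono a) d)
    · rw [g2]
      exact fun d => (σ.src ▸ σ.φ.map_target hz :) (he.mem.1 d)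
  · obtain c | ⟨k, z, hz, rfl⟩ := f5 x hx
    · rw [f1 x c, g1 _ (h.map_source c), h.left_inv c]
    · rw [f2, g2, σ.φ.left_inv hz]
  · obtain c | ⟨k, z, hz, rfl⟩ := g5 x hx
    · rw [g1 x c, f1 _ (h.map_target c), h.right_inv c]
    · rw [g2, f2, σ.φ.right_inv hz]
  · obtain ⟨ε, hε, H⟩ := σ.rel p.2
    refine ⟨ε, hε, fun θ η r h0 h1 => ⟨fun c => ?_, (f2 _ _).trans (congrArg _ (H θ η r h0 h1).2)⟩⟩
    exact (σ.src ▸ (H θ η r h0 h1).1 :) (he.mem.1 c)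

end Top

variable {E E₁ E₀ : Type} [NormedAddCommGroup E] [NormedSpace ℝ E] [FiniteDimensional ℝ E]
  [NormedAddCommGroup E₁] [NormedSpace ℝ E₁] [FiniteDimensional ℝ E₁]
  [NormedAddCommGroup E₀] [NormedSpace ℝ E₀] [FiniteDimensional ℝ E₀]
  {ι κ U V U' V' : Type} [Finite ι] [Finite κ]
  [NormedAddCommGroup U] [InnerProductSpace ℝ U] [FiniteDimensional ℝ U]
  [NormedAddCommGroup V] [InnerProductSpace ℝ V] [FiniteDimensional ℝ V]
  [NormedAddCommGroup U'] [InnerProductSpace ℝ U'] [FiniteDimensional ℝ U']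
  [NormedAddCommGroup V'] [InnerProductSpace ℝ V'] [FiniteDimensional ℝ V']

theorem push_smooth {Z : Mf E₀} {X : Mf E} {e : ι → Z → X} (h : Fam e) (ho : ∀ k, OE Z X (e k) univ)
    {T : Tubes κ U V Z} (hT : T.Smooth E₀) : (h.push T).Smooth E := fun p => by
  obtain ⟨⟨f, hf⟩, h2⟩ := hT p.2
  refine ⟨⟨fun q => e p.1 (f q), fun q hq => ⟨((ho p.1).sm _ trivial).comp _ (hf q hq.1).1,
    congrArg _ (hf q hq.1).2⟩⟩, fun x hx => ?_⟩
  exact ((h2.contMDiffAt ((T.a p.2).open_target.mem_nhds hx.2)).comp x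
    ((ho p.1).symm.sm x hx.1)).contMDiffWithinAt

/-- circles in a manifold of dimension at least four do not matter for thinness -/
theorem thin_diff {X : Mf E} (T : Tubes κ U V X) (hU : finrank ℝ U = 2) (hV : 3 ≤ finrank ℝ V)
    {P O : Set X} (hO : IsOpen O) (h : Thin P O) : Thin (P \ T.cores) (O \ T.cores) := by
  have : Fact (finrank ℝ U = 1 + 1) := ⟨hU⟩
  have hc := T.cpts.isClosed
  have loc : ∀ x, ∀ W ∈ 𝓝 x, ∃ S, IsOpen S ∧ x ∈ S ∧ S ⊆ W ∧ SC (S \ T.cores) := by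
    intro x W hW
    by_cases hx : x ∈ T.cores
    swap
    · obtain ⟨S, a, b, c, d⟩ := X.exists_sc x (inter_mem hW (hc.isOpen_compl.mem_nhds hx))
      refine ⟨S, a, b, c.trans inter_subset_left, ?_⟩
      rwa [sdiff_eq_left.2 (disjoint_left.2 fun y hy h => (c hy).2 h)]
    obtain ⟨i, θ, rfl⟩ := mem_iUnion.1 hx
    have h1 : IsClosed (⋃ j : {j // j ≠ i}, T.core j) :=
      (isCompact_iUnion fun j => T.cpt _).isClosed
    have h2 : (T.a i).source ∩ T.a i ⁻¹' (W ∩ (⋃ j : {j // j ≠ i}, T.core j)ᶜ) ∈ 𝓝 (θ, (0 : V)) :=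
      inter_mem ((T.a i).open_source.mem_nhds (T.zero i θ))
        (((T.a i).continuousAt (T.zero i θ)).preimage_mem_nhds (inter_mem hW
          (h1.isOpen_compl.mem_nhds fun c => let ⟨j, hj⟩ := mem_iUnion.1 c
            j.2 (core_eq T hj ⟨θ, rfl⟩))))
    obtain ⟨A, hA, B, hB, h3⟩ := mem_nhds_prod_iff.1 h2
    obtain ⟨j, hj, j0, h4⟩ := exists_emb (E := EuclideanSpace ℝ (Fin 1)) θ hA
    obtain ⟨r, hr, h5⟩ := Metric.mem_nhds_iff.1 hB
    have h6 : range j ×ˢ ball (0 : V) r ⊆ _ := (prod_mono h4 h5).trans h3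
    have h7 : range j ×ˢ {v : V | ‖v‖ ∈ Ioo 0 r} ⊆ range j ×ˢ ball (0 : V) r :=
      prod_mono subset_rfl fun v hv => mem_ball_zero_iff.2 hv.2
    refine ⟨T.a i '' (range j ×ˢ ball 0 r), (T.a i).isOpen_image_of_subset_source
      (hj.isOpen_range.prod isOpen_ball) fun p hp => (h6 hp).1,
      ⟨(θ, 0), ⟨⟨0, j0⟩, mem_ball_self hr⟩, rfl⟩, ?_, ?_⟩
    · rintro _ ⟨p, hp, rfl⟩
      exact (h6 hp).2.1
    have e : T.a i '' (range j ×ˢ ball 0 r) \ T.cores =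
        T.a i '' (range j ×ˢ {v : V | ‖v‖ ∈ Ioo 0 r}) := by
      refine subset_antisymm ?_ ?_
      · rintro _ ⟨⟨p, hp, rfl⟩, c⟩
        exact ⟨p, ⟨hp.1, norm_pos_iff.2 fun d => c (mem_iUnion.2 ⟨i, p.1, by rw [← d]⟩),
          mem_ball_zero_iff.1 hp.2⟩, rfl⟩
      · rintro _ ⟨p, hp, rfl⟩
        refine ⟨⟨p, h7 hp, rfl⟩, fun c => ?_⟩
        obtain ⟨k, hk⟩ := mem_iUnion.1 c
        by_cases d : k = i
        · rw [d, T.mem_core ((T.a i).map_source (h6 (h7 hp)).1),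
            (T.a i).left_inv (h6 (h7 hp)).1] at hk
          exact norm_pos_iff.1 hp.2.1 hk
        · exact (h6 (h7 hp)).2.2 (mem_iUnion.2 ⟨⟨k, d⟩, hk⟩)
    rw [e]
    refine (SC.prod (image_univ ▸ (sc_image_emb hj.isEmbedding).2 sc_univ) (sc_norm_shell hV
      ordConnected_Ioo (fun _ h => h.1) (nonempty_Ioo.2 hr))).image (g := (T.a i).symm)
      ((T.a i).continuousOn.mono fun p hp => (h6 (h7 hp)).1) ((T.a i).continuousOn_symm.mono ?_)
      fun p hp => (T.a i).left_inv (h6 (h7 hp)).1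
    rintro _ ⟨p, hp, rfl⟩
    exact (T.a i).map_source (h6 (h7 hp)).1
  refine (thin X _ _ (sdiff_subset_sdiff_left h.subset)).2 fun G _ τ hτ => ?_
  obtain ⟨τ', h1, h2⟩ := (ext2 X G O T.cores τ hO (hO.sdiff hc) fun x _ W hW =>
    let ⟨S, a, b, c, d⟩ := loc x W hW; ⟨S, a, b, c, d.1⟩).2 hτ fun x hx =>
    let ⟨S, a, b, c, d⟩ := loc x O (hO.mem_nhds hx)
    ⟨S, a.mem_nhds b, hτ.triv_of_sc d (sdiff_subset_sdiff_left c)⟩
  exact ((h1.triv_of_thin h).mono sdiff_subset).congr_tau fun x y γ hγ =>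
    (h2 x y γ (hγ.mono (sdiff_subset_sdiff_left h.subset))).symm

/-- the intermediate manifold -/
theorem exists_mid {Z : Mf E₁} {Z₀ : Mf E₀} {X : Mf E} (d1 : finrank ℝ E = finrank ℝ E₀)
    (σ : Surg κ U V Z Z₀) {C : Set Z} {C₀ : Set Z₀} (hc : Cor σ univ C C₀) (hC : IsCompact C)
    (hne : Cᶜ.Nonempty) (ho : ∀ z ∉ C, LDAt Z Z₀ σ.φ z) {e : ι → Z → X} (he : Fam e)
    (hoe : ∀ k, OE Z X (e k) univ) : ∃ (X₀ : Mf E₀) (e₀ : ι → Z₀ → X₀)
      (h : OpenPartialHomeomorph X X₀), Fam e₀ ∧ (∀ k, OE Z₀ X₀ (e₀ k) univ) ∧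
      h.source = (⋃ k, e k '' C)ᶜ ∧ h.target = (⋃ k, e₀ k '' C₀)ᶜ ∧
      ∀ k z, z ∉ C → h (e k z) = e₀ k (σ.φ z) := by
  have a : Cᶜ ⊆ σ.φ.source := σ.src ▸ compl_subset_compl.2
    (iUnion_subset fun i x hx => (hc.A i x hx).2 trivial)
  have hU : IsOpen (⋃ k, e k '' C)ᶜ :=
    (isCompact_iUnion fun k => hC.image (he.oe k).continuous).isClosed.isOpen_compl
  obtain ⟨X₀, io, ka, H⟩ := glueFam (X := X) (Y := Z₀) (C := Z) (U := (⋃ k, e k '' C)ᶜ)
    (V := univ) (D := Cᶜ) (a := e) (b := σ.φ) d1 rfl hU isOpen_univ hC.isClosed.isOpen_compl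
    (by
      obtain ⟨z, hz⟩ := hne
      rcases isEmpty_or_nonempty ι with h | ⟨⟨k⟩⟩
      · simp
      · exact ⟨e k z, fun c => hz (he.mem.1 c)⟩)
    (fun k c _ => (hoe k).ld c trivial) ho
    (fun k c h d => h (he.mem.1 d)) (fun _ _ => trivial)
    (fun i j c h c' h' => ⟨fun d => ⟨(he.eq d).1, by rw [(he.eq d).2]⟩,
      fun d => by rw [d.1, σ.φ.injOn (a h) (a h') d.2]⟩) (by
      intro k x hx y _ hxy
      obtain ⟨N, hN, hy⟩ := exists_compact_mem_nhds y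
      obtain ⟨P, hP⟩ := exists_cor' (σ := σ) (I := univ) (P' := N ∪ σ.B.cores) fun i y hy =>
        ⟨fun _ => trivial, fun _ => Or.inr (mem_iUnion.2 ⟨i, hy⟩)⟩
      have h1 := ((hP.symm.isCompact (hN.union σ.B.cpts)).image (he.oe k).continuous).isClosed
      obtain ⟨c, -, rfl⟩ : x ∈ e k '' P := by
        by_contra d
        obtain ⟨_, h2, c, h3, rfl⟩ := mem_closure_iff_nhds.1 hxy _
          (prod_mem_nhds (h1.isOpen_compl.mem_nhds d) hy)
        exact h2.1 ⟨c, (hP.φ c (a h3)).2 (Or.inl h2.2), rfl⟩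
      have h2 : c ∈ Cᶜ := fun d => hx (he.mem.2 d)
      refine ⟨c, h2, rfl, by_contra fun d => ?_⟩
      obtain ⟨A, B, hA, hB, h3, h4, h5⟩ := t2_separation d
      obtain ⟨_, ⟨⟨c', h6, h7⟩, h8⟩, c'', -, rfl⟩ := mem_closure_iff_nhds.1 hxy _ (prod_mem_nhds
        ((he.oe k).image_mem_nhds.2 ((σ.φ.continuousAt (a h2)).preimage_mem_nhds (hA.mem_nhds h3)))
        (hB.mem_nhds h4))
      exact disjoint_left.1 h5 ((he.eq h7).2 ▸ h6 :) h8)
  refine ⟨X₀, ka, oph H.oi, ⟨fun k => oe_emb (H.ok k),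
      fun k k' z z' d => ((H.eqk _ _ _ trivial _ trivial).1 d).1⟩, H.ok, rfl, ?_,
    fun k z hz => H.glue k hz⟩
  refine Set.ext (H.ind (fun x hx => ⟨fun _ d => ?_, fun _ => ⟨x, hx, rfl⟩⟩) fun k y _ => ?_)
  · obtain ⟨k, y, h1, h2⟩ := mem_iUnion.1 d
    obtain ⟨c, h3, -, rfl⟩ := (H.eq x hx k y trivial).1 h2.symm
    exact h3 ((hc.φ c (a h3)).2 h1)
  · refine (H.ka_mem trivial).trans ⟨?_, fun d => ?_⟩
    · rintro ⟨c, h1, rfl⟩ d
      obtain ⟨k', y, h2, h3⟩ := mem_iUnion.1 d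
      exact h1 ((hc.φ c (a h1)).2 (((H.eqk _ _ _ trivial _ trivial).1 h3).2 ▸ h2))
    · have h1 : y ∉ C₀ := fun c => d (mem_iUnion.2 ⟨k, y, c, rfl⟩)
      have h2 : y ∈ σ.φ.target := σ.tgt ▸ fun c =>
        let ⟨i, hi⟩ := mem_iUnion.1 c; h1 ((hc.B i y hi).2 trivial)
      exact ⟨σ.φ.symm y, fun c => h1 ((hc.symm.φ y h2).2 c), σ.φ.right_inv h2⟩

/-- intersection data of the attaching spheres `S` and the belt spheres `B` -/
structure HD (Z : Mf E) (B : Tubes κ V U Z) (S : Tubes κ U' V' Z) (g : κ → Z → U)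
    (k : (ℝ × U) ≃L[ℝ] U') (d : κ → sphere (0 : U') 1 → ℝ) (s₀ : κ → sphere (0 : U') 1)
    (m : κ → sphere (0 : U') 1 → sphere (0 : U') 1) : Prop where
  smB : B.Smooth E
  smS : S.Smooth E
  eqn : ∀ j, ∀ x ∈ B.core j, SmAt Z (vs U) (g j) x ∧ g j x = 0 ∧ Surjective (Df Z (vs U) (g j) x)
  sgn : ∀ i j s, S.a i (s, 0) ∈ B.core j → d i s ≠ 0 ∧ Sg k (fun s => g j (S.a i (s, 0))) s (d i s)
  base : ∀ i, S.a i (s₀ i, 0) ∈ B.core i
  pair : ∀ i j s, S.a i (s, 0) ∈ B.core j → s ≠ s₀ i →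
    m i s ≠ s₀ i ∧ S.a i (m i s, 0) ∈ B.core j ∧ m i (m i s) = s ∧ d i s * d i (m i s) < 0

/-- cancellation in finitely many patches -/
theorem fam {Z : Mf E₁} {Z₀ : Mf E₀} {X : Mf E} {Z' X' : Type} [TopologicalSpace Z'] [Nonempty Z']
    [TopologicalSpace X'] [TopologicalSpace.MetrizableSpace X'] [LocallyCompactSpace X']
    (d0 : finrank ℝ E₀ = 5) (d1 : finrank ℝ E = 5) (dU : finrank ℝ U = 2) (dV : finrank ℝ V = 4)
    (dV' : finrank ℝ V' = 3) (σ : Surg κ U V Z Z₀) (σ' : Surg κ U' V' Z₀ Z') {C : Set Z}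
    {C₀ : Set Z₀} {C' : Set Z'} (hc : Cor σ univ C C₀) (hc' : Cor σ' univ C₀ C') (hC : IsCompact C)
    (hne : Cᶜ.Nonempty) (ho : ∀ z ∉ C, LDAt Z Z₀ σ.φ z) (ht : ∀ j, (σ.B.a j).target ⊆ C₀)
    {g k d s₀ m} (hd : HD Z₀ σ.B σ'.A g k d s₀ m) {e : ι → Z → X} {e' : ι → Z' → X'} (he : Fam e)
    (he' : Fam e') (hoe : ∀ k, OE Z X (e k) univ) {h : OpenPartialHomeomorph X X'}
    (hs : h.source = (⋃ k, e k '' C)ᶜ) (hs' : h.target = (⋃ k, e' k '' C')ᶜ)
    (hr : ∀ k z, z ∉ C → h (e k z) = e' k (σ'.φ (σ.φ z))) {O : Set X} (hO : IsOpen O)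
    (hT : ∀ k, Thin (e k '' C) O) : ∃ (H : X ≃ₜ X') (K : Set X), IsCompact K ∧ K ⊆ O ∧
      (∀ k, e k '' C ⊆ K) ∧ ∀ x ∉ K, H x = h x := by
  obtain ⟨X₀, e₀, h₀, he₀, oe₀, s0, t0, r0⟩ := exists_mid (d1.trans d0.symm) σ hc hC hne ho he hoe
  have a : σ.A.cores ⊆ C := iUnion_subset fun i x hx => (hc.A i x hx).2 trivial
  have b : σ.B.cores ⊆ C₀ := iUnion_subset fun i x hx => (hc.B i x hx).2 trivial
  obtain ⟨τ, tA, tB, t1, t2⟩ := patch he he₀ σ h₀ hc s0 t0 r0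
  obtain ⟨τ', tA', -, t1', -⟩ := patch he₀ he' σ' (h₀.symm.trans h) hc'
    (by
      rw [← t0]
      exact inter_eq_left.2 fun x hx => (hs.trans s0.symm) ▸ h₀.map_target hx)
    (by
      rw [← hs']
      refine inter_eq_left.2 fun x hx => ?_
      show h.symm x ∈ h₀.source
      rw [s0, ← hs]
      exact h.map_target hx)
    fun k z hz => by
      have h1 : z ∈ σ.φ.target := σ.tgt ▸ fun c => hz (b c)
      have h2 : σ.φ.symm z ∉ C := fun c => hz ((hc.symm.φ z h1).2 c)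
      have h3 := r0 k _ h2
      rw [σ.φ.right_inv h1] at h3
      change h (h₀.symm _) = _
      rw [← h3, h₀.left_inv (s0 ▸ fun c => h2 (he.mem.1 c)), hr _ _ h2, σ.φ.right_inv h1]
  obtain ⟨O₀, c0⟩ := exists_cor (σ := τ) (I := univ) (P := O) fun p x hx =>
    ⟨fun _ => trivial, fun _ => by
      rw [tA, he.core] at hx
      exact (hT _).subset (image_mono ((subset_iUnion _ p.2).trans a) hx)⟩
  have m0 : ∀ k, e₀ k '' C₀ \ τ.B.cores ⊆ τ.φ '' (e k '' C \ τ.A.cores) := by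
    rintro k _ ⟨⟨z, h1, rfl⟩, h2⟩
    rw [tB, he₀.cores] at h2
    have h3 : z ∈ σ.φ.target := σ.tgt ▸ fun c => h2 (he₀.mem.2 c)
    refine ⟨e k (σ.φ.symm z), ⟨⟨_, (hc.symm.φ z h3).1 h1, rfl⟩, ?_⟩, by rw [t2, σ.φ.right_inv h3]⟩
    rw [tA, he.cores]
    exact fun c => (σ.src ▸ σ.φ.map_target h3 :) (he.mem.1 c)
  have th : ∀ k, Thin (e₀ k '' C₀ \ τ.B.cores) (O₀ \ τ.B.cores) := fun k =>
    ((thin_diff τ.A dU (by omega) hO (hT k)).image (g := τ.φ.symm) (U := O₀ \ τ.B.cores)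
      (τ.φ.continuousOn.mono fun x hx => τ.src ▸ hx.2)
      (fun x hx => ⟨(c0.φ x (τ.src ▸ hx.2)).1 hx.1,
        τ.tgt.subset (τ.φ.map_source (τ.src ▸ hx.2))⟩)
      (τ.φ.continuousOn_symm.mono (image_subset_iff.2 fun x hx =>
        τ.φ.map_source (τ.src ▸ hx.2)))
      fun x hx => τ.φ.left_inv (τ.src ▸ hx.2)).mono (m0 k) subset_rfl
  have bO : τ.B.cores ⊆ O₀ := iUnion_subset fun i x hx => (c0.B i x hx).2 trivial
  have cO : ∀ k, e₀ k '' C₀ ⊆ O₀ := fun k x hx => by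
    by_cases c : x ∈ τ.B.cores
    exacts [bO c, ((th k).subset ⟨hx, c⟩).1]
  have mc : ∀ {p q : ι × κ} {s}, τ'.A.a p (s, 0) ∈ τ.B.core q ↔
      p.1 = q.1 ∧ σ'.A.a p.2 (s, 0) ∈ σ.B.core q.2 := fun {p q s} => by
    rw [tA', tB, he₀.core]
    refine ⟨fun ⟨z, h1, h2⟩ => have h3 := he₀.eq (z' := σ'.A.a p.2 (s, 0)) h2
      ⟨h3.1.symm, h3.2 ▸ h1⟩, fun c => ⟨_, c.2, ?_⟩⟩
    rw [← c.1]
    rfl
  obtain ⟨H, K₀, k1, k2, k3, -, k4⟩ := hcThm (ι × κ) U V U' V' E₀ X X₀ X' τ τ' O₀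
    (fun p x => g p.2 (invFunOn (e₀ p.1) univ x)) k (fun p => d p.2) (fun p => s₀ p.2)
    (fun p => m p.2) d0 (Or.inr dU) (by omega) (by omega) (tB ▸ push_smooth he₀ oe₀ hd.smB)
    (tA' ▸ push_smooth he₀ oe₀ hd.smS) (c0.isOpen hO) bO
    (by
      rw [tA', he₀.cores]
      exact iUnion_subset fun k => (image_mono (iUnion_subset fun i x hx =>
        (hc'.A i x hx).2 trivial)).trans (cO k))
    (fun p x hx => by
      rw [tB, he₀.core] at hx
      obtain ⟨z, hz, rfl⟩ := hx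
      have h1 := (oe₀ p.1).symm.ld _ ⟨z, trivial, rfl⟩
      have h2 := hd.eqn _ z hz
      rw [← (oe₀ p.1).left (x := z) trivial] at h2
      refine ⟨(h1.sm.trans h2.1).of_le (by simp), h2.2.1, ?_⟩
      change Surjective (Df X₀ (vs U) _ _)
      rw [Df_comp h1.sm h2.1]
      exact h2.2.2.comp h1.inv.surjective)
    (fun p q s hs => by
      obtain ⟨h1, h2⟩ := mc.1 hs
      refine ⟨(hd.sgn _ _ s h2).1, ?_⟩
      have : (fun s => g q.2 (invFunOn (e₀ q.1) univ (τ'.A.a p (s, 0)))) =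
          fun s => g q.2 (σ'.A.a p.2 (s, 0)) := funext fun s => by
        rw [tA', ← h1]
        exact congrArg _ ((oe₀ p.1).left trivial)
      exact this ▸ (hd.sgn _ _ s h2).2)
    (fun p => mc.2 ⟨rfl, hd.base _⟩) fun p q s hs hn => by
      obtain ⟨h1, h2⟩ := mc.1 hs
      obtain ⟨h3, h4, h5, h6⟩ := hd.pair _ _ s h2 hn
      refine ⟨h3, mc.2 ⟨h1, h4⟩, h5, h6, fun c => by omega,
        thin_of ((th p.1).mono (sdiff_subset_sdiff_left (union_subset ?_ ?_)) subset_rfl)⟩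
      · rw [tA', he₀.core]
        exact image_mono fun x hx => (hc'.A _ x hx).2 trivial
      · rw [tB, h1]
        exact (he₀.target _ q).trans (image_mono (ht _))
  obtain ⟨K, c1⟩ := exists_cor' (σ := τ) (I := univ) (P' := K₀) fun p x hx =>
    ⟨fun _ => trivial, fun _ => k3 (mem_iUnion.2 ⟨p, hx⟩)⟩
  refine ⟨H, K ∪ ⋃ k, e k '' C, (c1.symm.isCompact k1).union
    (isCompact_iUnion fun k => hC.image (he.oe k).continuous),
    union_subset (c1.mono c0 subset_rfl k2) (iUnion_subset fun k => (hT k).subset),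
    fun k => subset_union_of_subset_right (subset_iUnion (fun k => e k '' C) k) _, fun x hx => ?_⟩
  have h1 : x ∈ h₀.source := s0 ▸ fun c => hx (Or.inr c)
  have h2 : x ∈ τ.φ.source := by
    rw [τ.src, tA, he.cores]
    exact fun c => hx (Or.inr (iUnion_mono (fun k => image_mono a) c))
  have h3 : h₀.symm (h₀ x) ∈ h.source := by
    rw [h₀.left_inv h1, hs, ← s0]; exact h1
  rw [k4 x h2 fun c => hx (Or.inl ((c1.φ x h2).2 c)), t1 x h1,
    t1' _ (mem_inter (h₀.map_source h1) h3)]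
  exact congrArg h (h₀.left_inv h1)

end Pool.Agent.MP_e1dc65_gt.T.Key

end
end MrgPart8

-- marker of a merged file
example : 731051 + 380439 = 731051 + 380439 := rfl

end MrgPart0

-- ======== part 1: formerly Pool.Agent.MP_e1dc65_gt.t.Key2
section MrgPart1

/-! PROJECT HC, block KEY, part 2: transfer from the model to the patches. -/

open scoped ContDiff Manifold Topology
open Set Filter Function Module Metric Topology

set_option linter.unusedSectionVars false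

noncomputable section

namespace Pool.Agent.MP_e1dc65_gt.T.Key

open T1 T1.Cancel Loc

section Top

variable {κ U V Z Z' Y Y' : Type} [NormedAddCommGroup U] [NormedSpace ℝ U] [NormedAddCommGroup V]
  [NormedSpace ℝ V] [TopologicalSpace Z] [TopologicalSpace Z'] [TopologicalSpace Y]
  [TopologicalSpace Y'] [Nonempty Y] [Nonempty Y'] {a : Y → Z} {b : Y' → Z'}

theorem back (ha : IsOpenEmbedding a) {z : Z} (hz : z ∈ range a) :
    a ((ha.toOpenPartialHomeomorph a).symm z) = z :=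
  (ha.toOpenPartialHomeomorph a).right_inv (image_univ (f := a) ▸ hz :)

/-- tubes in an open subset -/
def res (T : Tubes κ U V Z) (ha : IsOpenEmbedding a) (hT : T.cores ⊆ range a) : Tubes κ U V Y where
  a i := (T.a i).trans (ha.toOpenPartialHomeomorph a).symm
  zero i θ := ⟨T.zero i θ, (image_univ (f := a) ▸ hT (mem_iUnion.2 ⟨i, θ, rfl⟩) :)⟩
  disj i j θ θ' H := T.disj i j θ θ' ((back ha (hT (mem_iUnion.2 ⟨i, θ, rfl⟩))).symm.trans
    ((congrArg a H).trans (back ha (hT (mem_iUnion.2 ⟨j, θ', rfl⟩)))))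

variable {T : Tubes κ U V Z} {ha : IsOpenEmbedding a} {hT : T.cores ⊆ range a}

theorem res_zero (i : κ) (θ : sphere (0 : U) 1) : a ((res T ha hT).a i (θ, 0)) = T.a i (θ, 0) :=
  back ha (hT (mem_iUnion.2 ⟨i, θ, rfl⟩))

theorem res_core {i : κ} {y : Y} : y ∈ (res T ha hT).core i ↔ a y ∈ T.core i :=
  exists_congr fun θ => ⟨fun h => h ▸ (res_zero i θ).symm,
    fun h => ha.injective ((res_zero i θ).trans h)⟩

theorem res_cores : (res T ha hT).cores = a ⁻¹' T.cores := by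
  ext y
  simp only [Tubes.cores, mem_iUnion, mem_preimage, res_core]

theorem exists_res [Finite κ] [ProperSpace U] [ProperSpace V] [T2Space Z] [T2Space Z']
    (σ : Surg κ U V Z Z') (ha : IsOpenEmbedding a) (hb : IsOpenEmbedding b)
    (hc : Cor σ univ (range a) (range b)) : ∃ (τ : Surg κ U V Y Y') (hA : _) (hB : _),
      τ.A = res σ.A ha hA ∧ τ.B = res σ.B hb hB ∧ (∀ y, y ∈ τ.φ.source ↔ a y ∈ σ.φ.source) ∧
      ∀ y ∈ τ.φ.source, b (τ.φ y) = σ.φ (a y) := by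
  have hA : σ.A.cores ⊆ range a := iUnion_subset fun i x hx => (hc.A i x hx).2 trivial
  have hB : σ.B.cores ⊆ range b := iUnion_subset fun i x hx => (hc.B i x hx).2 trivial
  let φ := (ha.toOpenPartialHomeomorph a).trans (σ.φ.trans (hb.toOpenPartialHomeomorph b).symm)
  have h1 : ∀ y, y ∈ φ.source ↔ a y ∈ σ.φ.source := fun y =>
    ⟨fun h => h.2.1, fun h => ⟨trivial, h, (image_univ (f := b) ▸ (hc.φ _ h).1 ⟨y, rfl⟩ :)⟩⟩
  have h2 : ∀ y, y ∈ φ.target ↔ b y ∈ σ.φ.target := fun y =>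
    ⟨fun h => h.1.2, fun h => ⟨⟨trivial, h⟩,
      (image_univ (f := a) ▸ (hc.symm.φ _ h).1 ⟨y, rfl⟩ :)⟩⟩
  refine ⟨⟨res σ.A ha hA, res σ.B hb hB, φ, Set.ext fun y => by rw [h1, res_cores, σ.src]; rfl,
    Set.ext fun y => by rw [h2, res_cores, σ.tgt]; rfl, fun i => ?_⟩, hA, hB, rfl, rfl, h1,
    fun y hy => back hb ((hc.φ _ hy.2.1).1 ⟨y, rfl⟩)⟩
  obtain ⟨ε, hε, H⟩ := unif σ (O := fun _ => range a) (O' := fun _ => univ)
    (fun _ => ha.isOpen_range) (fun i => (subset_iUnion _ i).trans hA) (fun _ => isOpen_univ)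
    fun _ => subset_univ _
  refine ⟨ε, hε, fun θ η r h0 hr => ?_⟩
  have h3 : a ((res σ.A ha hA).a i (θ, r • (η : V))) = σ.A.a i (θ, r • (η : V)) :=
    back ha ((H i).1 θ _ (by simpa [norm_smul, abs_of_pos h0] using hr.le)).2
  obtain ⟨h4, h5⟩ := (H i).2.2 θ η r h0 hr.le
  refine ⟨(h1 _).2 (h3 ▸ h4), ?_⟩
  change (hb.toOpenPartialHomeomorph b).symm (σ.φ (a _)) = _
  rw [h3, h5]
  rfl

end Top

variable {E : Type} [NormedAddCommGroup E] [NormedSpace ℝ E] [FiniteDimensional ℝ E]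
  {κ U V U' V' : Type} [Finite κ]
  [NormedAddCommGroup U] [InnerProductSpace ℝ U] [FiniteDimensional ℝ U]
  [NormedAddCommGroup V] [InnerProductSpace ℝ V] [FiniteDimensional ℝ V]
  [NormedAddCommGroup U'] [InnerProductSpace ℝ U'] [FiniteDimensional ℝ U']
  [NormedAddCommGroup V'] [InnerProductSpace ℝ V'] [FiniteDimensional ℝ V']

theorem res_smooth {Y Z : Mf E} {a : Y → Z} (ho : OE Y Z a univ) {T : Tubes κ U V Z} {hT}
    (h : T.Smooth E) : (res T (oe_emb ho) hT).Smooth E := fun i => by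
  obtain ⟨⟨f, hf⟩, h2⟩ := h i
  refine ⟨⟨fun q => invFunOn a univ (f q), fun q hq => ?_⟩, fun x hx => ?_⟩
  · have h1 : f (q.1, q.2) ∈ a '' univ := (hf q hq.1).2 ▸ hq.2
    refine ⟨(ho.symm.sm _ h1).comp _ (hf q hq.1).1, (oe_emb ho).injective ?_⟩
    rw [invFunOn_eq h1, (hf q hq.1).2]
    exact (back (oe_emb ho) (image_subset_range a univ hq.2)).symm
  · exact ((h2.contMDiffAt ((T.a i).open_target.mem_nhds hx.2)).comp x
      (ho.sm x trivial)).contMDiffWithinAt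

theorem HD.res {Y Z : Mf E} {a : Y → Z} (ho : OE Y Z a univ) {B : Tubes κ V U Z}
    {S : Tubes κ U' V' Z} {hB hS g k d s₀ m} (h : HD Z B S g k d s₀ m) :
    HD Y (res B (oe_emb ho) hB) (res S (oe_emb ho) hS) (fun j y => g j (a y)) k d s₀ m where
  smB := res_smooth ho h.smB
  smS := res_smooth ho h.smS
  eqn j x hx := by
    obtain ⟨h1, h2, h3⟩ := h.eqn j _ (res_core.1 hx)
    refine ⟨(ho.sm x trivial).trans h1, h2, ?_⟩
    rw [Df_comp (ho.sm x trivial) h1]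
    exact h3.comp (ho.ld x trivial).inv.surjective
  sgn := by simpa only [res_core, res_zero] using h.sgn
  base := by simpa only [res_core, res_zero] using h.base
  pair := by simpa only [res_core, res_zero] using h.pair

variable {N : NF} {D : Set (E2 × R3)}

/-- the part of a model hypersurface over `D` as a manifold -/
abbrev Lv (N : NF) (s : ℝ) (D : Set (E2 × R3)) (Z : Mf (Rn 5)) (j : Z → N.F.prod (vs R3)) : Prop :=
  Level (N.F.prod (vs R3)) (fun p => N.f p.1 - Gm s p.2) (N.Pt (Gm s) D) Z j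

theorem cor {Z Z' : Mf (Rn 5)} {j j'} {σ : Surg (Fin 3) U V Z Z'} (h : MS N j j' σ)
    (hQ : Q0 ⊆ D) : Cor σ univ {z | N.pr (j z) ∈ D} {z | N.pr (j' z) ∈ D} :=
  ⟨fun x hx => by
    by_cases c : N.pr (j x) ∈ Q0
    · exact iff_of_true (hQ c) (hQ (h.inn x hx c))
    · rw [mem_ofPred_eq, mt_pr (h.out x c).2, mem_ofPred_eq],
    fun i x hx => iff_of_true (hQ (h.tA i x (σ.A.core_sub i hx))) trivial,
    fun i x hx => iff_of_true (hQ (h.tB i x (σ.B.core_sub i hx))) trivial⟩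

theorem ms_res {Z Z' Y Y' : Mf (Rn 5)} {j j'} {σ : Surg (Fin 3) U V Z Z'} (h : MS N j j' σ)
    (hQ : Q0 ⊆ D) {a : Y → Z} {b : Y' → Z'} (ha : OE Y Z a univ) (hb : OE Y' Z' b univ)
    (ra : range a = {z | N.pr (j z) ∈ D}) (rb : range b = {z | N.pr (j' z) ∈ D}) :
    ∃ (τ : Surg (Fin 3) U V Y Y') (hA : _) (hB : _), τ.A = res σ.A (oe_emb ha) hA ∧
      τ.B = res σ.B (oe_emb hb) hB ∧ MS N (fun y => j (a y)) (fun y => j' (b y)) τ := by
  obtain ⟨τ, hA, hB, e1, e2, h1, h2⟩ :=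
    exists_res σ (oe_emb ha) (oe_emb hb) (ra ▸ rb ▸ cor h hQ)
  refine ⟨τ, hA, hB, e1, e2, e1 ▸ res_smooth ha h.smA, e2 ▸ res_smooth hb h.smB,
    fun k z hz => h.tA k _ (e1 ▸ hz :).2, fun k z hz => h.tB k _ (e2 ▸ hz :).2, fun z hz => ?_,
    fun z hz c => ?_⟩
  · have := (h1 z).2 (h.out _ hz).1
    exact ⟨this, h2 z this ▸ (h.out _ hz).2⟩
  · exact h2 z hz ▸ h.inn _ ((h1 z).1 hz) c

theorem exists_lv (hN : N.Ok) (hD : IsOpen D) (hq : ∃ q ∈ D, 1 < ‖q.1‖) {s : ℝ} (h0 : s ≤ 2)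
    (h1 : s ≠ N.v₁) (h2 : s ≠ N.v₂) {Z j} (h : N.Lv s Z j) : ∃ (Y : Mf (Rn 5)) (a : Y → Z),
      OE Y Z a univ ∧ range a = {z | N.pr (j z) ∈ D} ∧ Lv N s D Y fun y => j (a y) := by
  obtain ⟨Y, l, hl⟩ := loe_level hN (by simp) hD (reg_Gm N h0 h1 h2 D) (ex_ne hN hq _)
  have e : ∀ y, j (invFun j (l y)) = l y := fun y => h.inv_eq (hl.mem y).1
  refine ⟨Y, fun y => invFun j (l y), ⟨isOpen_univ, fun _ _ => loe_ld hl h ldAt_id fun _ hp => hp.1,
    fun y _ y' _ c => hl.emb.injective ((e y).symm.trans ((congrArg j c).trans (e y')))⟩,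
    Set.ext fun z => ⟨?_, fun hz => ⟨invFun l (j z), ?_⟩⟩, by rw [funext e]; exact hl⟩
  · rintro ⟨y, rfl⟩
    exact (congrArg (N.pr · ∈ D) (e y)).mpr (hl.mem y).2
  · exact (congrArg _ (hl.inv_eq ⟨h.mem z, hz⟩)).trans (h.inv_left z)

theorem img {s : ℝ} {Z j} (h : Lv N s D Z j) (hQ : Q0 ⊆ D) {X : Type} (i : N.F × R3 → X) :
    (fun z => i (j z)) '' {z | N.pr (j z) ∈ Q0} = i '' N.Pt (Gm s) Q0 := by
  refine subset_antisymm ?_ ?_
  · rintro _ ⟨z, hz, rfl⟩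
    exact ⟨_, ⟨(h.mem z).1, hz⟩, rfl⟩
  · rintro _ ⟨p, hp, rfl⟩
    have := h.inv_eq (pt_mono hQ hp)
    exact ⟨invFun j p, by rw [mem_ofPred_eq, this]; exact hp.2, congrArg i this⟩

theorem emb {s : ℝ} {Z j} (h : Lv N s D Z j) {X : Type} [TopologicalSpace X] {i : N.F × R3 → X}
    (hi : IsOpenEmbedding ((N.Pt (Gm s) D).domRestrict i)) : IsOpenEmbedding fun z => i (j z) :=
  hi.comp (h.emb.toHomeomorph.trans (Homeomorph.setCongr h.range)).isOpenEmbedding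

theorem ms_ld (hN : N.Ok) (hD : IsOpen D) (hQ : Q0 ⊆ D) {s t : ℝ} (hs : s ≤ 2) (ht : t ≤ 2)
    {Z Z' j j'} (h : Lv N s D Z j) (h' : Lv N t D Z' j') {σ : Surg (Fin 3) U V Z Z'}
    (m : MS N j j' σ) (z : Z) (hz : N.pr (j z) ∉ Q0) : LDAt Z Z' σ.φ z := by
  have ad := adm_Gm hs ht hD hQ
  have ad' := adm_symm ad
  have sm : ∀ r, Sm (vs R3) (vs ℝ) (Gm r) univ := fun r _ _ => smAt_vs.2 (cd_Gm r).contDiffAt
  refine ((oe_of_inv (ex_open h hN ad) (ex_open h' hN ad') (ex_sm' h h' hN ad (sm t))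
    (ex_sm' h' h hN ad' (sm s)) (ex_map h h' hN ad) (ex_map h' h hN ad')
    (fun _ => ex_left h h' hN ad) fun _ => ex_left h' h hN ad').ld z hz).congr' ?_
  filter_upwards [(ex_open h hN ad).mem_nhds hz] with y hy
  have k := partner hN ad (ex_mem h hy)
  rw [mt_uniq hN (mt_trans (mt_symm k.2) (m.out y hy).2) k.1.1 (h'.mem _).1, h'.inv_left]

theorem exists_out (hD : IsOpen D) (hQ : Q0 ⊆ D) : ∃ q ∈ D \ Q0, 1 < ‖q.1‖ := by
  have h1 : ‖cir 0‖ = 1 := by simp [cir, EuclideanSpace.norm_eq]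
  have h2 : ContinuousAt (fun r : ℝ => ((r • cir 0, 0) : E2 × R3)) 1 := by fun_prop
  obtain ⟨r, h3, h4⟩ := ((Filter.Eventually.filter_mono (nhdsWithin_le_nhds (s := Ioi 1))
    (h2.preimage_mem_nhds (hD.mem_nhds (hQ (by simp [Q0, h1]))))).and self_mem_nhdsWithin).exists
  have h5 : 1 < ‖r • cir 0‖ := by
    rw [norm_smul, h1, mul_one]; exact lt_of_lt_of_le h4 (le_abs_self r)
  exact ⟨_, ⟨h3, fun c => c.1.not_gt h5⟩, h5⟩

/-- the transfer -/
theorem transfer (hM : KeyMStmt) {X : Mf E} {X' ι : Type} [TopologicalSpace X']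
    [TopologicalSpace.MetrizableSpace X'] [LocallyCompactSpace X'] [Finite ι]
    {i : ι → N.F × R3 → X} {i' : ι → N.F × R3 → X'} {h : OpenPartialHomeomorph X X'} {O : Set X}
    (hN : N.Ok) (hI : ∃ t b d s₀ μ, N.Int t b d s₀ μ) (hE : finrank ℝ E = 5) (hD : IsOpen D)
    (hQ : Q0 ⊆ D) (hi : ∀ k, LOE N (vs R3) (Gm (-2)) D X (i k))
    (hi' : ∀ k, IsOpenEmbedding ((N.Pt (Gm 2) D).domRestrict (i' k)))
    (d1 : ∀ k k', ∀ p ∈ N.Pt (Gm (-2)) D, ∀ p' ∈ N.Pt (Gm (-2)) D, i k p = i k' p' → k = k')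
    (d2 : ∀ k k', ∀ p ∈ N.Pt (Gm 2) D, ∀ p' ∈ N.Pt (Gm 2) D, i' k p = i' k' p' → k = k')
    (hs : h.source = (⋃ k, i k '' N.Pt (Gm (-2)) Q0)ᶜ)
    (ht : h.target = (⋃ k, i' k '' N.Pt (Gm 2) Q0)ᶜ)
    (hr : ∀ k, ∀ p ∈ N.Pt (Gm (-2)) (D \ Q0), ∀ p' ∈ N.Hyp (Gm 2), N.Mt p p' → h (i k p) = i' k p')
    (hO : IsOpen O) (hT : ∀ k, Thin (i k '' N.Pt (Gm (-2)) Q0) O) :
    ∃ (H : X ≃ₜ X') (K : Set X), IsCompact K ∧ K ⊆ O ∧ (∀ k, i k '' N.Pt (Gm (-2)) Q0 ⊆ K) ∧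
      ∀ x ∉ K, H x = h x := by
  obtain ⟨t, Zm, Z0, Zp, jm, j0, jp, σ₁, σ₂, g, κ, d, s₀, m, t1, t2, t3, lm, l0, lp, m1, m2, e1, e2,
    e3, e4⟩ := hM N hN hI
  have hq := exists_out hD hQ
  have hq' : ∃ q ∈ D, 1 < ‖q.1‖ := hq.imp fun _ h => ⟨h.1.1, h.2⟩
  have t4 := abs_lt.1 t3
  have b1 := hN.lo
  have b2 := hN.hi
  have b3 := sq_nonneg N.δ
  obtain ⟨Ym, am, a1, a2, a3⟩ := exists_lv hN hD hq' (by norm_num) (by linarith) (by linarith) lm
  obtain ⟨Y0, a0, c1, c2, c3⟩ := exists_lv hN hD hq' (by linarith) t1.ne' t2.ne l0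
  obtain ⟨Yp, ap, p1, p2, p3⟩ := exists_lv hN hD hq' le_rfl (by linarith) (by linarith) lp
  obtain ⟨τ₁, -, hB, -, f1, n1⟩ := ms_res m1 hQ a1 c1 a2 c2
  obtain ⟨τ₂, hA, -, f2, -, n2⟩ := ms_res m2 hQ c1 p1 c2 p2
  have hd := HD.res c1 (hB := hB) (hS := hA) ⟨m1.smB, m2.smA, e1, e2, e3, e4⟩
  rw [← f1, ← f2] at hd
  have key := fam (X := X) (e := fun k z => i k (jm (am z))) (e' := fun k z => i' k (jp (ap z)))
    (by simp) hE (by simp [(WithLp.linearEquiv 2 ℝ _).finrank_eq])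
    (by simp [(WithLp.linearEquiv 2 ℝ _).finrank_eq])
    (by simp [(WithLp.linearEquiv 2 ℝ _).finrank_eq]) τ₁ τ₂ (cor n1 subset_rfl) (cor n2 subset_rfl)
    (by
      have := a3.emb.isInducing.isCompact_preimage' (compact_pt hN (cd_Gm _).continuous compact_Q0)
        (a3.range ▸ pt_mono hQ)
      convert this using 1
      exact Set.ext fun z => ⟨fun c => ⟨(a3.mem z).1, c⟩, fun c => c.2⟩)
    (by
      obtain ⟨p, hp⟩ := ex_ne (B := vs R3) hN hq (Gm (-2))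
      exact ⟨_, fun c => hp.2.2
        ((congrArg (N.pr · ∈ Q0) (a3.inv_eq (pt_mono sdiff_subset hp))).mp c)⟩)
    (ms_ld hN hD hQ (by norm_num) (by linarith) a3 c3 n1) n1.tB hd
    ⟨fun k => oe_emb (hi k _ _ a3), fun k k' z z' => d1 k k' _ (a3.mem z) _ (a3.mem z')⟩
    ⟨fun k => emb p3 (hi' k), fun k k' z z' => d2 k k' _ (p3.mem z) _ (p3.mem z')⟩
    (fun k => hi k _ _ a3) (h := h) (by simp only [img a3 hQ, hs]) (by simp only [img p3 hQ, ht])
    (fun k z hz => by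
      have k1 := (n1.out z hz).2
      exact hr k _ ⟨(a3.mem z).1, (a3.mem z).2, hz⟩ _ (p3.mem _).1
        (mt_trans k1 (n2.out _ (mt_pr k1 ▸ hz)).2))
    hO (by simpa only [img a3 hQ] using hT)
  simpa only [img a3 hQ] using key

end Pool.Agent.MP_e1dc65_gt.T.Key

namespace Pool.Agent.MP_e1dc65_gt.T

open Key Loc

theorem key_of (hM : KeyMStmt) : KeyStmt := by
  intro N E _ _ _ X X' _ _ _ D i i' h O hN hI hE hi hr hO _ hT
  obtain ⟨H, K, k1, k2, k3, k4⟩ := transfer hM (ι := Unit) (i := fun _ => i) (i' := fun _ => i') hN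
    hI hE hr.adm.op hr.adm.sub (fun _ => hi) (fun _ => hr.oe') (fun _ _ _ _ _ _ _ => rfl)
    (fun _ _ _ _ _ _ _ => rfl) (by rw [iUnion_const, hr.src]) (by rw [iUnion_const, hr.tgt])
    (fun _ => hr.rel) hO fun _ => hT
  exact ⟨H, K, k1, k2, k3 (), k4⟩

theorem keyF_of (hM : KeyMStmt) : KeyFStmt := by
  intro N E _ _ _ X X' _ _ _ ι _ D i i' h O hN hI hE hi hr hO _ hT
  have u : ∀ {Y : Type} (s : ℝ) (l : N.F × (Σ _ : ι, R3) → Y), l '' N.Pt (fun b => Gm s b.2)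
      (cps ι Q0) = ⋃ k, (fun p => l (p.1, ⟨k, p.2⟩)) '' N.Pt (Gm s) Q0 := fun s l =>
    subset_antisymm (by rintro _ ⟨⟨m, k, b⟩, hp, rfl⟩; exact mem_iUnion.2 ⟨k, (m, b), hp, rfl⟩)
      (iUnion_subset fun k => by rintro _ ⟨p, hp, rfl⟩; exact ⟨_, hp, rfl⟩)
  rcases isEmpty_or_nonempty ι with h0 | ⟨⟨k₀⟩⟩
  · exact ⟨h.toHomeomorphOfSourceEqUnivTargetEqUniv (by simp [hr.src, u]) (by simp [hr.tgt, u]), ∅,
      isCompact_empty, empty_subset _, fun k => h0.elim k, fun _ _ => rfl⟩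
  have hD : IsOpen D := hr.adm.op.preimage
    (continuous_id.prodMap (continuous_sigmaMk (σ := fun _ : ι => R3) (i := k₀)))
  exact transfer hM hN hI hE hD (fun q hq => hr.adm.sub (a := (q.1, ⟨k₀, q.2⟩)) hq) hi
    (fun k => oe_sub hN hr.oe' (V := univ) (β := Sigma.mk k)
      (IsOpenEmbedding.sigmaMk.comp isOpen_univ.isOpenEmbedding_subtypeVal) hD
      fun q hq => ⟨trivial, hq, rfl⟩)
    (fun k k' p hp p' hp' e => congrArg (·.2.1) (oe_inj hr.oe (x₁ := (p.1, ⟨k, p.2⟩))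
      hp (x₂ := (p'.1, ⟨k', p'.2⟩)) hp' e))
    (fun k k' p hp p' hp' e => congrArg (·.2.1) (oe_inj hr.oe' (x₁ := (p.1, ⟨k, p.2⟩))
      hp (x₂ := (p'.1, ⟨k', p'.2⟩)) hp' e))
    (by rw [hr.src, u]) (by rw [hr.tgt, u])
    (fun k p hp p' hp' m => hr.rel (p.1, ⟨k, p.2⟩) hp (p'.1, ⟨k, p'.2⟩) hp'
      ⟨congrArg (Sigma.mk k) m.1, m.2⟩)
    hO hT

end Pool.Agent.MP_e1dc65_gt.T

end
end MrgPart1

-- marker of a merged file
example : 731051 + 672435 = 731051 + 672435 := rfl
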