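import Pool.Agent.MP_e1dc65_gt.t.KeyM
import Pool.Agent.MP_e1dc65_gt.t.Key2

namespace Pool.Agent.MP_e1dc65_gt.T

theorem key : KeyStmt := key_of keyM

theorem keyF : KeyFStmt := keyF_of keyM

end Pool.Agent.MP_e1dc65_gt.T
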