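import Pool.Agent.MP_e1dc65_gt.t.KeyM1

/-! PROJECT HC, block KEY: the two surgeries in the model and their intersection data. -/

open scoped ContDiff Manifold Topology
open Set Filter Function Module Metric Real WithLp

noncomputable section

namespace Pool.Agent.MP_e1dc65_gt.T

namespace KeyM

open Loc

/-- the identification used for the Jacobians -/
def κ : (ℝ × U1) ≃L[ℝ] U2 := LinearEquiv.toContinuousLinearEquiv
  { toFun p := toLp 2 (!₂[p.1, p.2.fst], p.2.snd)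
    invFun u := (u.fst 0, toLp 2 (u.fst 1, u.snd))
    map_add' p q := by
      refine congrArg (toLp 2) (Prod.ext ?_ rfl)
      ext k; fin_cases k <;> rfl
    map_smul' a p := by
      refine congrArg (toLp 2) (Prod.ext ?_ rfl)
      ext k; fin_cases k <;> rfl
    left_inv _ := rfl
    right_inv u := by
      refine congrArg (toLp 2) (Prod.ext ?_ rfl)
      ext k; fin_cases k <;> rfl }

theorem det_eq (θ : E2) (β : E2 →L[ℝ] ℝ) (l : ℝ) (L : U2 →L[ℝ] U2)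
    (hL : ∀ u, L u = toLp 2 (!₂[inner ℝ θ u.fst, β u.fst], l * u.snd)) :
    L.det = l * β (rot θ) := by
  obtain ⟨A, hA⟩ : ∃ A : E2 →ₗ[ℝ] E2, ∀ x, A x = !₂[inner ℝ θ x, β x] :=
    ⟨⟨⟨fun x => !₂[inner ℝ θ x, β x], fun x y => by
      ext k; fin_cases k <;> simp [inner_add_right]⟩, fun a x => by
      ext k; fin_cases k <;> simp [inner_smul_right]⟩, fun _ => rfl⟩
  have e := LinearMap.det_conj (L : U2 →ₗ[ℝ] U2) (WithLp.linearEquiv 2 ℝ (E2 × ℝ))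
  have e1 : (WithLp.linearEquiv 2 ℝ (E2 × ℝ)).toLinearMap ∘ₗ (L : U2 →ₗ[ℝ] U2) ∘ₗ
      (WithLp.linearEquiv 2 ℝ (E2 × ℝ)).symm.toLinearMap = A.prodMap (l • LinearMap.id) :=
    LinearMap.ext fun u => (congrArg ofLp (hL _)).trans (Prod.ext (hA _).symm rfl)
  have e2 : rot θ = -θ 1 • EuclideanSpace.single 0 1 + θ 0 • EuclideanSpace.single 1 1 := by
    ext k; fin_cases k <;> simp [rot]
  rw [ContinuousLinearMap.det, ← e, e1, LinearMap.det_prodMap, LinearMap.det_smul,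
    ← LinearMap.det_toMatrix (EuclideanSpace.basisFun (Fin 2) ℝ).toBasis, Matrix.det_fin_two, e2]
  simp [LinearMap.toMatrix_apply, hA, EuclideanSpace.inner_single_right]
  ring

variable {N : NF} (h : N.Ok) {t τ : ℝ} {m : N.F} {b : Fin 3 → N.F → ℝ} {d : Fin 3 → E2 → ℝ}
  {s₀ : Fin 3 → E2} {μ : Fin 3 → E2 → E2} {i j : Fin 3}

theorem Dm1 (N : NF) : Dm N ℝ E2 = N.D₁ := by ext; simp [Dm, NF.D₁]
theorem Dm2 (N : NF) : Dm N E2 ℝ = N.D₂ := by ext; simp [Dm, NF.D₂]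

include h

theorem fam (h1 : N.v₁ < t) (h2 : t < N.v₂) :
    Fam N N.c₁ N.v₁ (-2) t ∧ Fam N N.c₂ N.v₂ t 2 := by
  obtain ⟨z1, z2⟩ := zero_mem h.δpos
  have v1 : ∀ k, N.f (N.c₁ k 0) = N.v₁ := fun k => by simpa using h.f₁ k 0 z1
  have v2 : ∀ k, N.f (N.c₂ k 0) = N.v₂ := fun k => by simpa using h.f₂ k 0 z2
  have a1 := h.lo
  have a2 := h.hi
  have a3 := sq_nonneg N.δ
  refine ⟨⟨Dm1 N ▸ h.oe₁, v1, Dm1 N ▸ h.ξ₁, Dm1 N ▸ h.ρ₁, fun _ _ => h.dis₁ _ _ _ z1 _ z1,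
      fun m k k1 k2 => ?_, le_rfl, by linarith, h1, by linarith⟩,
    ⟨Dm2 N ▸ h.oe₂, v2, Dm2 N ▸ h.ξ₂, Dm2 N ▸ h.ρ₂, fun _ _ => h.dis₂ _ _ _ z2 _ z2,
      fun m k k1 k2 => ?_, by linarith, h2, by linarith, le_rfl⟩⟩ <;> by_contra! k3
  · exact (h.pos m k3 fun i e => by rw [e, v2] at k2; linarith).ne' (by rw [k, map_zero])
  · exact (h.pos m (fun i e => by rw [e, v1] at k1; linarith) k3).ne' (by rw [k, map_zero])

theorem A_flow (τ : ℝ) : N.φ τ m ∈ N.A j ↔ m ∈ N.A j :=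
  ⟨fun ⟨u, y, k, e⟩ => ⟨-τ + u, y, k, by rw [h.fl.add, ← e, h.fl.neg_left]⟩,
    fun ⟨u, y, k, e⟩ => ⟨τ + u, y, k, by rw [h.fl.add, e]⟩⟩

theorem A_sph (H : Fam N N.c₁ N.v₁ (-2) t) (hm : m ∈ N.A j) (hf : N.f m = t) :
    ∃ τ y, ‖y‖ = N.δ / 2 ∧ N.φ τ m = N.c₁ j (0, y) := by
  obtain ⟨u, y, k, rfl⟩ := hm
  have hδ := h.δpos
  have k1 : 0 < ‖y‖ := norm_pos_iff.2 (by
    rintro rfl
    exact H.gt.ne ((H.val j).symm.trans ((H.sad0 h j).fixed u ▸ hf)))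
  have k2 : exp (log (N.δ / 2 / ‖y‖)) * ‖y‖ = N.δ / 2 := by
    rw [exp_log (by positivity), div_mul_cancel₀ _ k1.ne']
  have k3 : ‖y‖ ^ 2 < N.δ ^ 2 := by simpa [NF.D₁] using k
  refine ⟨log (N.δ / 2 / ‖y‖) + -u, exp (log (N.δ / 2 / ‖y‖)) • y,
    by rw [norm_smul, norm_of_nonneg (exp_pos _).le, k2], ?_⟩
  rw [h.fl.add, h.fl.neg_left, (H.sad0 h j).lin 0 y _ fun s hs => ?_, smul_zero]
  have k4 := mul_pos (exp_pos s) k1
  simp only [Dm, mem_ofPred_eq, smul_zero, norm_zero, norm_smul, norm_of_nonneg (exp_pos s).le]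
  rcases mem_uIcc.1 hs with k5 | k5
  · nlinarith [mul_le_mul_of_nonneg_right (exp_le_exp.2 k5.2) k1.le]
  · nlinarith [mul_le_of_le_one_left k1.le (exp_le_one_iff.2 k5.2)]

theorem b_ξ (I : N.Int t b d s₀ μ) (hm : m ∈ N.A j) (hf : N.f m ≤ t) :
    Df N.F (vs ℝ) (b j) m (N.ξ m) = 0 := by
  have h1 := h.fl.hasDerivAt (t := 0) (x := m) (g := b j)
    (by rw [h.fl.zero]; exact (I.bsm j m hm hf).1)
  rw [h.fl.zero] at h1
  have e : ∀ u ∈ Iic (0 : ℝ), b j (N.φ u m) = 0 := fun u hu =>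
    (I.bsm j _ ((A_flow h u).2 hm) ((f_mono h m hu).trans (by simpa only [h.fl.zero]))).2.1
  exact (uniqueDiffWithinAt_Iic 0).eq_deriv _ h1.hasDerivWithinAt
    ((hasDerivWithinAt_const 0 _ 0).congr e (e 0 self_mem_Iic))

/-- the equations of the belt spheres -/
def gg (N : NF) (b : N.F → ℝ) (p : M N) : U1 := toLp 2 (b p.1, p.2.2)

theorem surj (I : N.Int t b d s₀ μ) {Z : Mf (Rn 5)} {e : Z → M N} (hZ : N.Lv t Z e) {x : Z}
    (hp : 0 < dG N t (e x)) (h1 : (e x).2.2 = 0) (h2 : (e x).1 ∈ N.A j) (h3 : N.f (e x).1 ≤ t) :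
    SmAt Z (vs U1) (fun x => gg N (b j) (e x)) x ∧ gg N (b j) (e x) = 0 ∧
      Surjective (Df Z (vs U1) (fun x => gg N (b j) (e x)) x) := by
  obtain ⟨k1, k2, k3⟩ := I.bsm j _ h2 h3
  have s1 : SmAt (M N) (vs ℝ) (fun p => b j p.1) (e x) := smAt_fst.trans k1
  have s2 : SmAt (M N) (vs ℝ) (fun p => p.2.2) (e x) := smAt_snd.vcomp contDiffAt_snd
  have s3 : SmAt (M N) (vs U1) (gg N (b j)) (e x) := (s1.vpair s2).vcomp contDiff_toLp.contDiffAt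
  have hD : ∀ w, Df (M N) (vs U1) (gg N (b j)) (e x) w =
      toLp 2 (Df N.F (vs ℝ) (b j) (e x).1 w.1, w.2.2) := fun w => by
    have := Df_vcomp (s1.vpair s2) (prodContinuousLinearEquiv 2 ℝ ℝ ℝ).symm.contDiff.contDiffAt
    rw [ContinuousLinearEquiv.fderiv, Lev.Df_vpair s1 s2, Df_comp smAt_fst k1,
      Df_vcomp smAt_snd contDiffAt_snd, Df_fst, Df_snd, fderiv_snd] at this
    exact congrArg (· w) this
  refine ⟨(hZ.sm x trivial).trans s3, by rw [gg, k2, h1]; rfl, fun u => ?_⟩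
  obtain ⟨w, hw⟩ := LinearMap.surjective (f := (Df N.F (vs ℝ) (b j) (e x).1).toLinearMap)
    (fun k => k3 (ContinuousLinearMap.coe_injective k)) u.fst
  obtain ⟨z, hz⟩ := (hZ.tan x ((w, 0, u.snd) - (Df (M N) (vs ℝ) (G N t) (e x) (w, 0, u.snd) /
    dG N t (e x)) • Ξ N (e x))).2 (by
      change Df (M N) (vs ℝ) (G N t) (e x) _ = 0
      rw [map_sub, map_smul, Df_G h, smul_eq_mul, div_mul_cancel₀ _ hp.ne', sub_self])
  refine ⟨z, ?_⟩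
  rw [Df_comp (hZ.sm x trivial) s3, ContinuousLinearMap.comp_apply, hz, map_sub, map_smul, hD, hD]
  simp only [Ξ, b_ξ h I h2 h3, h1, mul_zero, neg_zero]
  rw [show Df N.F (vs ℝ) (b j) (e x).1 w = u.fst from hw]
  exact (congrArg _ (smul_zero _)).trans (sub_zero _)

theorem sg (I : N.Int t b d s₀ μ) (H : Fam N N.c₂ N.v₂ t 2) {Z : Mf (Rn 5)} {e : Z → M N}
    (he : Sec (M N) (Φ N) Z e) (re : range e = {p | G N t p = 0}) {a : sphere (0 : U2) 1 → Z}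
    (ha : ∀ s, ∃ τ, Φ N τ (e (a s)) = C N.c₂ i ((N.δ / 2) • (s : U2), 0))
    (s : sphere (0 : U2) 1) : ∃ l, 0 < l ∧ ∀ j, s.1.snd = 0 → N.dn i s.1.fst ∈ N.A j →
      d i s.1.fst ≠ 0 ∧ T1.Sg κ (fun s => gg N (b j) (e (a s))) s (l * d i s.1.fst) := by
  have hφ := flow h
  obtain ⟨T, hT⟩ : ∃ T : U2 → ℝ,
    T = fun u => -(Sec.inv (M N) (Φ N) Z e (C N.c₂ i ((N.δ / 2) • u, 0))).2 := ⟨_, rfl⟩
  have e1 : ∀ s, e (a s) = Φ N (T s) (C N.c₂ i ((N.δ / 2) • (s : U2), 0)) := fun s => by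
    obtain ⟨τ, k⟩ := ha s
    rw [hT]
    dsimp only
    rw [← k, he.inv_eq, hφ.neg_left]
  obtain ⟨l, hl⟩ : ∃ l : U2 → ℝ, l = fun u => (Φ N (T u) (N.dn i u.fst, 0, N.δ / 2)).2.2 := ⟨_, rfl⟩
  refine ⟨l s, hl ▸ mul_pos (exp_pos _) (half_pos h.δpos), fun j h1 h2 => ?_⟩
  have hs := H.sad h i
  have m1 := hs.sub _ 0 (hs.norm_sph s).le (by simpa using hs.pos.le)
  have n1 : ‖s.1.fst‖ = 1 := by
    have := prod_norm_sq_eq_of_L2 s.1
    rw [norm_eq_of_mem_sphere, h1] at this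
    exact (sq_eq_sq₀ (norm_nonneg _) zero_le_one).1 (by simpa using this.symm)
  have f1 : N.f (N.φ (T s) (N.dn i s.1.fst)) = t := by
    have : G N t (e (a s)) = 0 := re.subset ⟨_, rfl⟩
    rw [e1, G_zero (by simp [Φ, C, h1]), sub_eq_zero] at this
    exact this
  have a1 := (A_flow h (T s)).2 h2
  obtain ⟨k1, k2⟩ := I.der i j _ _ n1 h2 f1
  have sT : SmAt (vs U2) (vs ℝ) T s.1 := hT ▸ ((SmAt.trans (X := vs U2) (Y := vs (U2 × V2))
    (f := fun u => ((N.δ / 2) • u, 0)) (smAt_vs.2 (by fun_prop)) (hs.oe.sm _ m1)).trans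
      (he.sm_time (let ⟨τ, k⟩ := ha s; ⟨_, τ, k⟩))).vcomp (g := fun r => -r) contDiffAt_id.neg
  have sd : SmAt (vs E2) N.F (N.dn i) s.1.fst := SmAt.trans (X := vs E2) (Y := vs (E2 × ℝ))
    (g := N.c₂ i) (f := fun θ : E2 => ((N.δ / 2) • θ, 0)) (smAt_vs.2 (by fun_prop))
    ((H.oe i).sm _ (mem_Dm h (by rw [norm_smul, n1, mul_one, norm_of_nonneg hs.pos.le])
      (by simpa using hs.pos.le)))
  have sl : SmAt (vs U2) (vs ℝ) l s.1 := hl ▸ ((hφ.comp ((SmAt.trans (Y := vs E2) (smAt_vs.2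
    (fstL 2 ℝ E2 ℝ).contDiff.contDiffAt) sd).pair (smAt_const (Y := vs R3) _)) sT).trans
      smAt_snd).vcomp contDiffAt_snd
  have sB : SmAt (vs (E2 × ℝ)) (vs ℝ) (fun q => b j (N.φ q.2 (N.dn i q.1))) (s.1.fst, T s) :=
    (h.fl.comp (SmAt.trans (x := (s.1.fst, T s)) (Y := vs E2) (smAt_vs.2 contDiffAt_fst) sd)
      (smAt_vs.2 contDiffAt_snd)).trans (I.bsm j _ a1 f1.le).1
  have dB := ((smAt_vs.1 sB).differentiableAt (by simp)).hasFDerivAt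
  generalize fderiv ℝ (fun q : E2 × ℝ => b j (N.φ q.2 (N.dn i q.1))) (s.1.fst, T s) = L at dB
  have d1 : L (0, 1) = 0 :=
    ((dB.comp_hasDerivAt _ ((hasDerivAt_const _ _).prodMk (hasDerivAt_id _))).unique
      (h.fl.hasDerivAt (I.bsm j _ a1 f1.le).1)).trans (b_ξ h I a1 f1.le)
  have d2 : L (rot s.1.fst, 0) = d i s.1.fst := by
    have := ((((hasDerivAt_id (0 : ℝ)).smul_const (rot s.1.fst)).const_add s.1.fst).prodMk
      (hasDerivAt_const _ (T s)))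
    rw [one_smul] at this
    exact (dB.comp_hasDerivAt_of_eq 0 this (by simp)).unique k2
  have dT := ((smAt_vs.1 sT).differentiableAt (by simp)).hasFDerivAt
  have dl := ((smAt_vs.1 sl).differentiableAt (by simp)).hasFDerivAt
  have dF := (prodContinuousLinearEquiv 2 ℝ ℝ ℝ).symm.hasFDerivAt.comp s.1
    ((dB.comp (f := fun u : U2 => (u.fst, T u)) s.1 ((fstL 2 ℝ E2 ℝ).hasFDerivAt.prodMk dT)).prodMk
      (dl.mul (sndL 2 ℝ E2 ℝ).hasFDerivAt))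
  refine ⟨k1, _, _, dF, .of_forall fun s' => ?_, ?_⟩
  · change toLp 2 (b j (N.φ (T s') (N.dn i s'.1.fst)), l s' * s'.1.snd) = gg N (b j) (e (a s'))
    rw [e1, hl]
    exact congrArg (toLp 2) (Prod.ext rfl (mul_assoc _ _ _))
  · rw [det_eq s.1.fst (L.comp (.inl ℝ E2 ℝ)) (l s) _ fun u => ?_, ← d2]
    · rfl
    · have : ∀ x r, L (x, r) = L (x, 0) := fun x r => by
        rw [show (x, r) = (x, 0) + r • (0, 1) by simp, map_add, map_smul, d1, smul_zero, add_zero]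
      simp [κ, h1, this _ (fderiv ℝ T s u)]

end KeyM

open KeyM in
theorem keyM : KeyMStmt := by
  rintro N h ⟨t, b, d, s₀, μ, I⟩
  classical
  have a1 := h.lo
  have a2 := h.hi
  have a3 := sq_nonneg N.δ
  have a4 := I.lo
  have a5 := I.hi
  obtain ⟨H1, H2⟩ := fam h (t := t) (by linarith) (by linarith)
  obtain ⟨Zm, jm, Lm, sm, rm⟩ := exists_lv h (by norm_num) H1.rg.1
  obtain ⟨Z0, j0, L0, s0, r0⟩ := exists_lv h H1.hi H1.rg.2
  obtain ⟨Zp, jp, Lp, sp, rp⟩ := exists_lv h le_rfl H2.rg.2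
  obtain ⟨σ₁, F1, M1⟩ := H1.stage h sm s0 rm r0
  obtain ⟨σ₂, F2, M2⟩ := H2.stage h s0 sp r0 rp
  have g0 : ∀ x, G N t (j0 x) = 0 := fun x => r0.subset ⟨x, rfl⟩
  have c1 : ∀ j, ∀ x ∈ σ₁.B.core j, (j0 x).2.2 = 0 ∧ (j0 x).1 ∈ N.A j := fun j x hx => by
    obtain ⟨y, τ, hy, e⟩ := (F1.coreB j x).1 hx
    refine ⟨(mul_eq_zero.1 (congrArg (fun p : M N => p.2.2) e)).resolve_left (exp_pos _).ne',
      (A_flow h τ).1 ⟨0, y.fst, Dm1 N ▸ (H1.sad h j).sub 0 y ?_ hy.le, ?_⟩⟩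
    · simpa using (H1.sad h j).pos.le
    · rw [h.fl.zero]; exact congrArg Prod.fst e
  have ha : ∀ i s, ∃ τ, Φ N τ (j0 (σ₂.A.a i (s, 0))) = C N.c₂ i ((N.δ / 2) • (s : U2), 0) :=
    fun i s => (F2.tubeA i _ (σ₂.A.zero i s)).2
  have hit : ∀ i j s, σ₂.A.a i (s, 0) ∈ σ₁.B.core j ↔ s.1.snd = 0 ∧ N.dn i s.1.fst ∈ N.A j := by
    intro i j s
    obtain ⟨τ, e⟩ := ha i s
    have e1 : N.φ τ (j0 (σ₂.A.a i (s, 0))).1 = N.dn i s.1.fst := congrArg Prod.fst e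
    have e2 : exp _ • _ = (0 : E2) := congrArg (fun p : M N => p.2.1) e
    have e3 : exp _ * _ = N.δ / 2 * s.1.snd := congrArg (fun p : M N => p.2.2) e
    refine ⟨fun k => ⟨?_, e1 ▸ (A_flow h τ).2 (c1 j _ k).2⟩, fun k => ?_⟩
    · rw [(c1 j _ k).1, mul_zero] at e3
      exact (mul_eq_zero.1 e3.symm).resolve_left (half_pos h.δpos).ne'
    · rw [k.1, mul_zero] at e3
      have e4 : (j0 (σ₂.A.a i (s, 0))).2 = 0 := Prod.ext
        ((smul_eq_zero.1 e2).resolve_left (exp_pos _).ne')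
        ((mul_eq_zero.1 e3).resolve_left (exp_pos _).ne')
      obtain ⟨u, y, hy, e5⟩ := A_sph h H1 ((A_flow h τ).1 (e1 ▸ k.2))
        (sub_eq_zero.1 ((G_zero e4).symm.trans (g0 _)))
      exact (F1.coreB j _).2 ⟨toLp 2 (y, 0), u, (norm_toLp_fst ..).trans hy,
        Prod.ext e5 (by simp [Φ, C, e4])⟩
  choose l l0 hl using fun i => sg h I H2 s0 r0 (ha i)
  have sp : ∀ θ : E2, ‖θ‖ = 1 → toLp 2 (θ, (0 : ℝ)) ∈ sphere (0 : U2) 1 := fun θ k =>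
    mem_sphere_zero_iff_norm.2 ((norm_toLp_fst ..).trans k)
  refine ⟨t, Zm, Z0, Zp, jm, j0, jp, σ₁, σ₂, fun j x => gg N (b j) (j0 x), κ,
    fun i s => l i s * d i s.1.fst, fun i => ⟨_, sp _ (I.base i).1⟩,
    fun i s => if k : ‖μ i s.1.fst‖ = 1 then ⟨_, sp _ k⟩ else s, H1.gt, H2.lt,
    abs_lt.2 ⟨by linarith, by linarith⟩, Lm, L0, Lp, M1, M2, fun j x hx => ?_, fun i j s k => ?_,
    fun i => (hit i i _).2 ⟨rfl, (I.base i).2⟩, fun i j s k k1 => ?_⟩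
  · refine surj h I L0 (dG_pos' h H1.hi H1.rg.2 _ (g0 x)) (c1 j x hx).1 (c1 j x hx).2 ?_
    have := g0 x
    rw [G, Gm, (c1 j x hx).1, Loc.gam_zero] at this
    linarith [sq_nonneg ‖(j0 x).2.1‖]
  · obtain ⟨k1, k2⟩ := hl i s j ((hit i j s).1 k).1 ((hit i j s).1 k).2
    exact ⟨mul_ne_zero (l0 i s).ne' k1, k2⟩
  · obtain ⟨k2, k3⟩ := (hit i j s).1 k
    have e : s.1 = toLp 2 (s.1.fst, 0) := congrArg (toLp 2) (Prod.ext rfl k2)
    have n : ‖s.1.fst‖ = 1 := by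
      rw [← norm_toLp_fst 2 E2 ℝ, ← e, norm_eq_of_mem_sphere]
    obtain ⟨p1, p2, p3, p4, p5⟩ := I.pair i j _ n k3 fun k4 => k1 (Subtype.ext (by rw [e, k4]))
    simp only [dif_pos p1]
    refine ⟨fun k4 => p2 (congrArg (fun s : sphere (0 : U2) 1 => s.1.fst) k4),
      (hit i j _).2 ⟨rfl, p3⟩, ?_, ?_⟩
    · exact (dif_pos (show ‖μ i (μ i s.1.fst)‖ = 1 by rwa [p4])).trans
        (Subtype.ext ((congrArg (fun θ => toLp 2 (θ, (0 : ℝ))) p4).trans e.symm))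
    · rw [mul_mul_mul_comm]
      exact mul_neg_of_pos_of_neg (mul_pos (l0 _ _) (l0 _ _)) p5

end Pool.Agent.MP_e1dc65_gt.T
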