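import Pool.Agent.MP_e1dc65_gt.t4.Inf
import Pool.Agent.MP_e1dc65_gt.t.KeyM1
import Pool.Agent.MP_e1dc65_gt.t.Core
import Pool.Agent.MP_e1dc65_gt.t2.Kill
import Pool.Agent.MP_e1dc65_gt.k.Std
import Pool.Agent.MP_e1dc65_gt.t2.Io
import Pool.Agent.MP_e1dc65_gt.t2.Sc
import Pool.Agent.MP_e1dc65_gt.t2.Th
import Pool.Agent.MP_e1dc65_gt.t4.SwCore
import Pool.Agent.MP_e1dc65_gt.t4.MidA
import Pool.Agent.MP_e1dc65_gt.t.T23
import Pool.Agent.MP_e1dc65_gt.t.Key2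
import Pool.Agent.MP_e1dc65_gt.t.KeyM

-- ======== part 0: formerly Pool.Agent.MP_e1dc65_gt.t.AMain
section MrgPart0

/-! PROJECT HC, block A: the chain of stages. -/

open scoped ContDiff Manifold Topology Real
open Set Filter Function Module Topology

noncomputable section

namespace Pool.Agent.MP_e1dc65_gt.T

open Loc

section Eqv
variable {X Z Z' Z'' : Type} [TopologicalSpace X] [TopologicalSpace Z] [TopologicalSpace Z']
  [TopologicalSpace Z'']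

/-- two replacements are homeomorphic by the obvious map near the end -/
def Eqv (h : OpenPartialHomeomorph X Z) (h' : OpenPartialHomeomorph X Z') : Prop :=
  ∃ (H : Z ≃ₜ Z') (K : Set X), IsCompact K ∧ ∀ x ∉ K, H (h x) = h' x

variable {h : OpenPartialHomeomorph X Z} {h' : OpenPartialHomeomorph X Z'}
  {h'' : OpenPartialHomeomorph X Z''}

theorem Eqv.trans (a : Eqv h h') (b : Eqv h' h'') : Eqv h h'' := by
  obtain ⟨H, K, hK, e⟩ := a
  obtain ⟨H', K', hK', e'⟩ := b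
  exact ⟨H.trans H', K ∪ K', hK.union hK', fun x hx => by
    rw [Homeomorph.trans_apply, e x fun a => hx (.inl a), e' x fun a => hx (.inr a)]⟩

theorem Eqv.symm (a : Eqv h h') : Eqv h' h := by
  obtain ⟨H, K, hK, e⟩ := a
  exact ⟨H.symm, K, hK, fun x hx => by rw [← e x hx, H.symm_apply_apply]⟩

end Eqv

section Flip
variable {N : NF} {B : Type} {Γ Γ' : B → ℝ}

theorem hyp_flip : N.flip.Hyp (fun b => -Γ b) = N.Hyp Γ := Set.ext fun _ => neg_inj
theorem pt_flip (D : Set (E2 × B)) : N.flip.Pt (fun b => -Γ b) D = N.Pt Γ D :=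
  Set.ext fun _ => and_congr neg_inj Iff.rfl
theorem K_flip : N.flip.K = N.K := Set.ext fun m =>
  (mem_K (N := N.flip) (m := m)).trans
    ((and_congr Iff.rfl (by rw [show N.flip.f m = -N.f m from rfl, abs_neg])).trans
      (mem_K (N := N) (m := m)).symm)
theorem mt_flip {p p' : N.F × B} (h : N.flip.Mt p p') : N.Mt p p' :=
  ⟨h.1, h.2.imp id fun a => ⟨K_flip (N := N) ▸ a.1, K_flip (N := N) ▸ a.2.1, a.2.2⟩⟩
theorem far_neg {a b : ℝ} (h : Far a b) : Far (-a) (-b) :=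
  h.imp (congrArg Neg.neg) fun h => by rwa [abs_neg, abs_neg]

variable [TopologicalSpace B] {X X' : Type} [TopologicalSpace X] [TopologicalSpace X']
  {D Q : Set (E2 × B)} {i : N.F × B → X} {i' : N.F × B → X'} {h : OpenPartialHomeomorph X X'}

theorem rp_flip (r : Rp N Γ Γ' D Q i i' h) :
    Rp N.flip (fun b => -Γ b) (fun b => -Γ' b) D Q i i' h where
  adm := ⟨r.adm.op, r.adm.cp, r.adm.sub, r.adm.c.neg, r.adm.c'.neg,
    fun q hq h1 => far_neg (r.adm.far q hq h1)⟩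
  oe := by rw [pt_flip]; exact r.oe
  oe' := by rw [pt_flip]; exact r.oe'
  src := by rw [pt_flip]; exact r.src
  tgt := by rw [pt_flip]; exact r.tgt
  rel p hp p' hp' m := r.rel p (pt_flip (N := N) _ ▸ hp) p' (hyp_flip (N := N) ▸ hp') (mt_flip m)

theorem rp_post {X'' : Type} [TopologicalSpace X''] (r : Rp N Γ Γ' D Q i i' h) (H : X' ≃ₜ X'') :
    Rp N Γ Γ' D Q i (fun p => H (i' p)) (h.transHomeomorph H) where
  adm := r.adm
  oe := r.oe
  oe' := H.isOpenEmbedding.comp r.oe'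
  src := r.src
  tgt := by
    rw [← image_image, ← image_compl_eq H.bijective, ← r.tgt]
    exact (H.image_eq_preimage_symm _).symm
  rel p hp p' hp' m := congrArg H (r.rel p hp p' hp' m)

end Flip

section Step
variable {E EB : Type} [NormedAddCommGroup E] [NormedSpace ℝ E] [FiniteDimensional ℝ E]
  [NormedAddCommGroup EB] [NormedSpace ℝ EB] [FiniteDimensional ℝ EB] {N : NF} {B : Mf EB}
  {Γ Γ' Γ'' : B → ℝ} {D Q : Set (E2 × B)}

omit [FiniteDimensional ℝ E] in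
theorem df_neg (X : Mf E) (g : X → ℝ) (m : X) :
    Df X (vs ℝ) (fun m => -g m) m = -Df X (vs ℝ) g m := mfderiv_neg (f := g)

omit [FiniteDimensional ℝ EB] in
theorem reg_flip (r : Reg N B Γ D) : Reg N.flip B (fun b => -Γ b) D := by
  refine ⟨fun b _ => (r.1 b trivial).vcomp contDiffAt_id.neg, fun q hq a e => ?_⟩
  rw [df_neg, neg_eq_zero] at e
  exact r.2 q hq (a.symm.imp neg_inj.1 neg_inj.1) e

omit [FiniteDimensional ℝ EB] [FiniteDimensional ℝ E] in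
theorem loe_flip {X : Mf E} {i : N.F × B → X} (h : LOE N B Γ D X i) :
    LOE N.flip B (fun b => -Γ b) D X i := by
  intro Z j l
  refine h Z j ⟨l.sm, l.emb, l.range.trans (pt_flip D), l.inj, fun z v => (l.tan z v).trans ?_,
    l.lift⟩
  have e : (fun p : N.F.prod B => -N.f p.1 - -Γ p.2) =
      fun p : N.F.prod B => -(N.f p.1 - Γ p.2) := funext fun p => by ring
  have e2 : Df (N.F.prod B) (vs ℝ) (fun p : N.F.prod B => -N.f p.1 - -Γ p.2) (j z) =
      -Df (N.F.prod B) (vs ℝ) (fun p : N.F.prod B => N.f p.1 - Γ p.2) (j z) :=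
    e ▸ df_neg (N.F.prod B) _ _
  exact (congrArg (fun L : Rn 3 × EB →L[ℝ] ℝ => L v = 0) e2).to_iff.trans neg_eq_zero

theorem step_key (hK : KeyStmt) (hN : N.Ok) (hI : ∃ t b d s₀ μ, N.Int t b d s₀ μ)
    (hE : finrank ℝ E = 5) (hB : finrank ℝ EB = 3) {X : Type} [TopologicalSpace X] [T2Space X]
    {Z : Mf E} {Z' : Mf (Rn 5)} {I : N.F × B → X} {e : N.F × B → Z} {e' : N.F × B → Z'}
    {h : OpenPartialHomeomorph X Z} {h' : OpenPartialHomeomorph X Z'} (r : Rp N Γ Γ' D Q I e h)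
    (r' : Rp N Γ Γ'' D Q I e' h') (rg : Reg N B Γ' D) (lo : LOE N B Γ' D Z e) {β : R3 → B}
    (hβ : OE (vs R3) B β V0) (P : Pch β V0 Γ' Γ'' (Gm (-2)) (Gm 2) D D0 Q0)
    (t : ∀ σ : ℝ, σ = 1 ∨ σ = -1 → Thin ((fun q => e (q.1, β q.2)) '' N.Sheet σ) univ) :
    Eqv h h' := by
  obtain ⟨k, rk, k1, -⟩ := sub N B R3 X Z Z' Γ Γ' Γ'' D Q I e e' h h' β V0 _ _ D0 Q0 hN r r' P.adm
    P.op P.emb P.val P.far
  have l2 : LOE N (vs R3) (Gm (-2)) D0 Z fun p => e (p.1, β p.2) :=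
    loe_base hN hB r.adm.op rg hβ (fun q hq => ⟨(P.val q hq).1, (P.val q hq).2.1,
      (P.val q hq).2.2.1⟩) lo
  obtain ⟨H, K, hK1, -, hK2, hH⟩ := hK N E Z Z' D0 _ _ k univ hN hI hE l2 rk isOpen_univ
    (subset_univ _) (core N Z _ univ hN rk.oe.isEmbedding (subset_univ _) (t 1 (.inl rfl))
      (t (-1) (.inr rfl)))
  refine ⟨H, _, core_compact hN r hK1, fun x hx => ?_⟩
  have h1 : x ∈ h.source := by rw [r.src]; exact fun a => hx (.inl a)
  have h2 : h x ∉ K := fun a => hx (.inr ⟨h1, a⟩)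
  rw [hH _ h2]
  exact k1 x h1 (by rw [rk.src]; exact fun a => h2 (hK2 a))

end Step

theorem sheet_img {N : NF} {B Z : Type} (e : N.F × B → Z) {β : R3 → B} {ζ : ℝ → B} {σ : ℝ}
    (h : ∀ t, β (√(57 / 4 - t) • cir 0, σ * (7 / 2)) = ζ t) :
    (fun q : N.F × R3 => e (q.1, β q.2)) '' N.Sheet σ = e '' N.St ζ := by
  ext x
  constructor
  · rintro ⟨q, hq, rfl⟩
    exact ⟨(q.1, β q.2), ⟨hq.1, hq.2.1, by rw [hq.2.2]; exact h _⟩, rfl⟩
  · rintro ⟨q, hq, rfl⟩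
    refine ⟨(q.1, (√(57 / 4 - N.f q.1) • cir 0, σ * (7 / 2))), ⟨hq.1, hq.2.1, rfl⟩, ?_⟩
    show e (q.1, β _) = e q
    rw [h, ← hq.2.2]

theorem norm_cir (s : ℝ) : ‖cir s‖ = 1 := by
  rw [EuclideanSpace.norm_eq, Fin.sum_univ_two]
  simp [cir]

theorem dimY : finrank ℝ (E2 × Rn 2 × ℝ) = 5 := by simp
theorem dimB : finrank ℝ (Rn 2 × ℝ) = 3 := by simp

theorem partA (hK : KeyStmt) (hI : DatStmt) (hB : BlobStmt) (hS : SlideStmt) (hT : TopStmt)
    (hR : ARegStmt) (hP : APchStmt) : AStmt := by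
  intro N ε R hG hε C
  refine ⟨4 * R + 40, fun L hL T p tor => ?_⟩
  obtain ⟨d, hd⟩ := hI R C L T p hε.big hL tor
  have hN := hG.ok
  have A : AH N ε R C L T p d := ⟨hN, hε, tor, hd, hL⟩
  obtain ⟨ne, ra, mv⟩ := hR N ε R C L T p d A
  obtain ⟨p0, p1, p2, p3, p4, zv, z0, c1, c2, c3, c4, S, c5, c6⟩ := hP N ε R C L T p d A
  have op := (ra 0).2.op
  obtain ⟨lI, thin⟩ := hB N ε R C L T p d A op (ra 0).1
  have oI := loe_emb hN dimB op (ra 0).1 lI
  choose Z e h r lo _ using fun n => exist N _ _ T.cyl ((vs E2).prod T.cyl) (d.G0 (-2))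
    (d.stage n) (DD p) (QQ p) (II N ε p) hN dimY dimB (ra n).2 (ra 0).1 (ra n).1 ne lI
  obtain ⟨k0, r0, hk0⟩ := (self N (T × ℝ) (E2 × T × ℝ) (E2 × T × ℝ) (d.G0 (-2)) (d.G0 (-2)) (DD p)
    (QQ p) (II N ε p) (II N ε p) (OpenPartialHomeomorph.refl _) hN).1 (ra 0).2 oI
  have th : ∀ n σ θ, σ = 1 ∨ σ = -1 → ‖θ‖ = 1 → Thin (e n '' N.St (zo p σ θ)) univ :=
    fun n σ θ a b => thin (Z n) _ (e n) (h n) σ θ (r n) a b fun t ht => zv n σ θ t a b ht
  have mo : ∀ n : Fin 9, n = 1 ∨ n = 4 ∨ n = 6 → Eqv (h n) (h (n + 1)) := fun n hn => by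
    obtain ⟨Q, q1, q2, q3, q4⟩ := mv n hn
    obtain ⟨H, hH⟩ := loc N (T × ℝ) (E2 × T × ℝ) (Z n) (Z (n + 1)) _ _ _ _ _ Q _ _ _ _ _ hN (r n)
      (r (n + 1)) q1 q2 q3 q4
    exact ⟨H, _, (compact_pt hN (ra 0).2.c q1).image_of_continuousOn
      ((oe_cont oI).mono (pt_mono q3)), hH⟩
  have s0 : Eqv k0 (h 1) := step_key (Z := (vs E2).prod T.cyl) hK hN hG.int dimY dimB r0 (r 1)
    (ra 0).1 lI p0.1 p0.2 fun σ a => by
      rw [sheet_img _ fun t => z0 σ t a]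
      exact thin _ _ _ k0 σ _ r0 a (norm_cir 0) fun t ht => zv 0 σ _ t a (norm_cir 0) ht
  have d5 : finrank ℝ (Rn 5) = 5 := by simp
  have s2 : Eqv (h 2) (h 3) := step_key hK hN hG.int d5 dimB (r 2) (r 3) (ra 2).1 (lo 2) p1.1 p1.2
    fun σ a => (hS N ε R C L T p d (Z 2) (e 2) 0 0 σ A a (r 2).oe'.isEmbedding (th 2)).1 rfl rfl
  have s3 : Eqv (h 3) (h 4) := step_key hK hN hG.int d5 dimB (r 3) (r 4) (ra 3).1 (lo 3) p2.1 p2.2
    fun σ a => (hS N ε R C L T p d (Z 3) (e 3) 0 1 σ A a (r 3).oe'.isEmbedding (th 3)).2.1 rfl rfl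
  have s6 : Eqv (h 6) (h 5) := step_key (N := N.flip) hK (flip_ok N hN) hG.int' d5 dimB
    (rp_flip (r 6)) (rp_flip (r 5)) (reg_flip (ra 6).1) (loe_flip (lo 6)) p3.1 p3.2
    fun σ a => (hS N ε R C L T p d (Z 6) (e 6) 4 3 σ A a (r 6).oe'.isEmbedding (th 6)).2.2 rfl rfl
  obtain ⟨H, K, hK1, hH⟩ := s0.trans ((mo 1 (.inl rfl)).trans (s2.trans (s3.trans
    ((mo 4 (.inr (.inl rfl))).trans (s6.symm.trans (mo 6 (.inr (.inr rfl))))))))
  obtain ⟨eY, hY, rY, y1, y2⟩ := hT N ε R C L T p d A (ra 8).2 oI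
  obtain ⟨k, rk, k1, -⟩ := sub N (T × ℝ) (Σ _ : Bool, R3) (E2 × T × ℝ) (N.Hyp (d.Gs gt 0 4)) (Z 7)
    _ _ _ _ _ _ _ _ hY (h 7) (β4 p) _ _ _ _ _ hN rY (r 7) p4.adm p4.op p4.emb p4.val p4.far
  refine ⟨d.Gs gt 0 4, S, _, _, _, c1, c2, c3, c4, c5, c6, fun σ q hq => ?_, rp_post rk H.symm, ?_⟩
  · obtain ⟨a1, a2, a3⟩ := y2 σ q hq
    have a4 := (eY (q.1, β4 p ⟨σ, q.2⟩)).2
    generalize (eY (q.1, β4 p ⟨σ, q.2⟩) : N.F × T × ℝ) = y at a1 a2 a3 a4
    obtain ⟨m, z, s⟩ := y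
    obtain rfl : m = _ := a1
    obtain rfl : z = _ := a2
    have a4' : N.f (N.io ε q).1 = d.Gs gt 0 4 (p (N.io ε q).2, s) := a4
    have a5 : N.f (N.io ε q).1 = d.Gs gt 0 4 (p (N.io ε q).2, (if σ then -1 else 1) * s) := by
      rw [a4']
      cases σ
      · simp
      · simp only [if_true, neg_mul, one_mul, c3]
    have a6 : N.f (N.io ε q).1 ≤ d.Gs gt 0 4 (p (N.io ε q).2, 0) :=
      a5 ▸ (c4 _).antitoneOn self_mem_Ici a3 a3
    have a7 := (c4 _).injOn (c6 _ _ a6).1 a3 ((c6 _ _ a6).2.trans a5)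
    rw [a7]
    cases σ <;> simp
  · have cp : Continuous fun y : N.Hyp (d.Gs gt 0 4) => N.pr y.1 :=
      (cont_pr hN).comp continuous_subtype_val
    have K2 := ((compact_pt hN rY.adm.c' rY.adm.cp).image_of_continuousOn
      ((oe_cont rY.oe').mono (pt_mono rY.adm.sub))).image cp
    have K3 := ((compact_pt hN rk.adm.c rk.adm.cp).image_of_continuousOn
      ((oe_cont rk.oe).mono (pt_mono rk.adm.sub))).image cp
    obtain ⟨c, hc⟩ := ((hK1.union (K2.union K3)).image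
      (f := fun q : E2 × T × ℝ => max ‖q.1‖ |q.2.2|) (by fun_prop)).bddAbove
    refine ⟨c, fun y hy => ?_⟩
    have b := fun a => not_lt.2 (hc ⟨N.pr y.1, a, rfl⟩) (lt_max_iff.2 hy)
    have b1 : y ∈ hY.target := by rw [rY.tgt]; exact fun a => b (.inr (.inl ⟨y, a, rfl⟩))
    have b2 : y ∈ k.source := by rw [rk.src]; exact fun a => b (.inr (.inr ⟨y, a, rfl⟩))
    have b3 := y1 _ (hY.map_target b1)
    rw [hY.right_inv b1] at b3
    refine ⟨b2, ?_⟩
    have b4 := k1 _ (hY.map_target b1) (by rwa [hY.right_inv b1])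
    rw [hY.right_inv b1, ← b3] at b4
    have b5 := hH _ fun a => b (.inl a)
    rw [hk0] at b5
    change H.symm (k y) = _
    rw [b4]
    exact H.symm_apply_eq.2 b5.symm

end Pool.Agent.MP_e1dc65_gt.T

end
end MrgPart0

-- ======== part 1: formerly Pool.Agent.MP_e1dc65_gt.t.Blob
section MrgPart1

/-! PROJECT HC, block A, row BLOB: the big patch. -/

open scoped ContDiff Manifold Topology Real
open Set Filter Function Module Topology Metric

set_option linter.unusedSectionVars false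

noncomputable section

namespace Pool.Agent.MP_e1dc65_gt.T

open Loc

namespace Blob

theorem ld_real {G : ℝ → ℝ} {s : ℝ} (h : ContDiff ℝ ∞ G) (hd : deriv G s ≠ 0) :
    LDAt (vs ℝ) (vs ℝ) G s :=
  ldAt_vs univ_mem (fun _ _ => h.contDiffAt) (Lev.inv_of_inj rfl fun u v e => by
    rw [fderiv_eq_smul_deriv, fderiv_eq_smul_deriv] at e
    exact mul_right_cancel₀ hd e)

theorem gam_abs (t y : ℝ) : gam t |y| = gam t y := by
  rcases abs_choice y with h | h <;> rw [h]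
  exact gam_neg t y

/-- off the core the projection of the fibre product is a local diffeomorphism -/
theorem ld_pr {EB : Type} [NormedAddCommGroup EB] [NormedSpace ℝ EB] [FiniteDimensional ℝ EB]
    {N : NF} {B : Mf EB} {Γ : B → ℝ} (hN : N.Ok) (hΓ : Sm B (vs ℝ) Γ univ) {q : N.F.prod B}
    (hq : q.1 ∉ N.K) : LDAt (N.F.prod B) ((vs E2).prod B).cyl
      (fun q => (N.pr q, N.f q.1 - Γ q.2)) q := by
  have a : LDAt ((vs R3).prod B) ((vs E2).prod B).cyl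
      (fun y => ((y.1.1, y.2), y.1.2 - Γ y.2)) (N.pj q.1, q.2) :=
    ldAt_of_inv (g := fun x => ((x.1.1, x.2 + Γ x.1.2), x.1.2)) isOpen_univ isOpen_univ trivial
      (fun _ _ => ((smAt_fst.vcomp contDiffAt_fst).pair smAt_snd).pair
        (((smAt_fst.vcomp contDiffAt_snd).vpair (smAt_snd.trans (hΓ _ trivial))).vcomp
          (g := fun t : ℝ × ℝ => t.1 - t.2) (contDiffAt_fst.sub contDiffAt_snd)))
      (fun _ _ => ((smAt_fst.trans smAt_fst).vpair
        ((smAt_snd.vpair ((smAt_fst.trans smAt_snd).trans (hΓ _ trivial))).vcomp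
          (g := fun t : ℝ × ℝ => t.1 + t.2) (contDiffAt_fst.add contDiffAt_snd))).pair
        (smAt_fst.trans smAt_snd))
      (mapsTo_univ _ _) (mapsTo_univ _ _) (fun _ _ => by simp) fun _ _ => by simp
  exact (LDAt.prodMap (hN.oe.ld _ (not_K.1 hq)) ldAt_id).trans a

variable {N : NF} {ε : N.F × E2 → R3 × E2} {R C L : ℝ} {T : Mf (Rn 2)} {p : E2 → T} {d : Dat T}
  {σ σ' : ℝ} {y y' : R3 × E2} {q q' : N.F × T × ℝ} {v : E2}

theorem cd_G5 : ContDiff ℝ ∞ G5 := contDiff_fst.snd.add (contDiff_snd.norm_sq ℝ)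

theorem up_ld (hp : ∀ z, LDAt (vs E2) T p z) (hσ : σ = 1 ∨ σ = -1) (hy : -2 < G5 y) :
    LDAt (vs (R3 × E2)) ((vs E2).prod T.cyl) (Up p σ) y := by
  have h2 : σ * σ = 1 := by rcases hσ with h | h <;> simp [h]
  have a : LDAt (vs (R3 × E2)) ((vs E2).prod (vs E2).cyl)
      (fun y => (y.1.1, y.2, σ * (12 + √(G5 y + 2)))) y :=
    ldAt_of_inv (X := vs (R3 × E2)) (U := {y | -2 < G5 y}) (W := {x | 12 < σ * x.2.2})
      (g := fun x => ((x.1, (σ * x.2.2 - 12) ^ 2 - 2 - ‖x.2.1‖ ^ 2), x.2.1))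
      (isOpen_lt continuous_const cd_G5.continuous) (isOpen_lt continuous_const (by fun_prop)) hy
      (fun y hy => SmAt.pair (Y := vs E2) (smAt_vs.2 contDiffAt_fst.fst)
        (SmAt.pair (Y := vs E2) (Z := vs ℝ) (smAt_vs.2 contDiffAt_snd) (smAt_vs.2
          (contDiffAt_const.mul (contDiffAt_const.add ((cd_G5.contDiffAt.add contDiffAt_const).sqrt
            (by have : -2 < G5 y := hy; linarith)))))))
      (fun _ _ => (smAt_fst.vpair ((smAt_snd.trans smAt_fst).vpair (smAt_snd.trans smAt_snd))).vcomp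
        (g := fun x : E2 × E2 × ℝ => ((x.1, (σ * x.2.2 - 12) ^ 2 - 2 - ‖x.2.1‖ ^ 2), x.2.1))
        ((contDiffAt_fst.prodMk (((((contDiffAt_const.mul contDiffAt_snd.snd).sub
          contDiffAt_const).pow 2).sub contDiffAt_const).sub
            (contDiffAt_snd.fst.norm_sq ℝ))).prodMk contDiffAt_snd.fst))
      (fun y hy => by
        have : 0 < √(G5 y + 2) := Real.sqrt_pos.2 (by have : -2 < G5 y := hy; linarith)
        simp only [mem_ofPred_eq, ← mul_assoc, h2]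
        linarith)
      (fun x hx => by
        have : 12 < σ * x.2.2 := hx
        simp only [mem_ofPred_eq, G5]
        nlinarith)
      (fun y hy => by
        have : -2 < G5 y := hy
        simp only [← mul_assoc, h2, one_mul, add_sub_cancel_left]
        rw [Real.sq_sqrt (by linarith)]
        simp [G5])
      fun x hx => by
        have : 12 < σ * x.2.2 := hx
        simp only [G5, sub_add_cancel]
        rw [Real.sqrt_sq (by linarith), add_sub_cancel, ← mul_assoc, h2, one_mul]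
  exact a.trans (LDAt.prodMap ldAt_id (LDAt.prodMap (hp _) ldAt_id))

theorem up_abs (hσ : σ = 1 ∨ σ = -1) : |(Up p σ y).2.2| = 12 + √(G5 y + 2) := by
  have : 0 ≤ 12 + √(G5 y + 2) := by positivity
  rcases hσ with h | h <;> simp [Up, h, -neg_add_rev, abs_of_nonneg this]

theorem sgn (s : ℝ) : (if 0 < s then (1 : ℝ) else -1) = 1 ∨ (if 0 < s then (1 : ℝ) else -1) = -1 := by
  split_ifs <;> simp

theorem sgn_mul (s : ℝ) : (if 0 < s then (1 : ℝ) else -1) * |s| = s := by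
  split_ifs with h
  · rw [one_mul, abs_of_pos h]
  · rw [abs_of_nonpos (not_lt.1 h)]; ring

variable (H : AH N ε R C L T p d)
include H

theorem p_inj : InjOn p (ball 0 R) := fun v hv v' hv' e => by
  ext k
  obtain ⟨n, hn⟩ := (H.tor.eq v v').1 e k
  have a := (PiLp.norm_apply_le v k).trans_lt (mem_ball_zero_iff.1 hv)
  have b := (PiLp.norm_apply_le v' k).trans_lt (mem_ball_zero_iff.1 hv')
  rw [Real.norm_eq_abs, abs_lt] at a b
  have c := H.big
  have c' := H.emb.big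
  have h1 : (n : ℝ) < 1 := by nlinarith
  have h2 : (-1 : ℝ) < n := by nlinarith
  obtain rfl : n = 0 := by
    have : n < 1 := by exact_mod_cast h1
    have : -1 < n := by exact_mod_cast h2
    omega
  linarith [Int.cast_zero (R := ℝ), zero_mul L, hn.trans (by simp : ((0 : ℤ) : ℝ) * L = 0)]

theorem oe_p : OE (vs E2) T p (ball 0 5) :=
  ⟨isOpen_ball, fun _ _ => H.tor.ld _, (p_inj H).mono (ball_subset_ball (by linarith [H.emb.big]))⟩

theorem a_nonneg (z : T) : 0 ≤ d.a 0 z := by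
  by_contra h
  obtain ⟨v, hv, rfl⟩ := H.dat.big 0 z 0 le_rfl (by linarith [H.emb.big]) (by linarith)
  exact h ((H.dat.quad 0 v (by linarith [H.emb.big])).1 ▸ sq_nonneg _)

theorem up_inj (hσ : σ = 1 ∨ σ = -1) (hσ' : σ' = 1 ∨ σ' = -1) (h1 : ‖y.2‖ < R) (h1' : ‖y'.2‖ < R)
    (h2 : -2 ≤ G5 y) (h2' : -2 ≤ G5 y') (e : Up p σ y = Up p σ' y') : σ = σ' ∧ y = y' := by
  have a : √(G5 y + 2) = √(G5 y' + 2) :=
    add_left_cancel ((up_abs hσ).symm.trans ((congrArg (|·.2.2|) e).trans (up_abs hσ')))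
  have b : σ * (12 + √(G5 y + 2)) = σ' * (12 + √(G5 y' + 2)) := congrArg (·.2.2) e
  have c : y.2 = y'.2 :=
    p_inj H (mem_ball_zero_iff.2 h1) (mem_ball_zero_iff.2 h1') (congrArg (·.2.1) e)
  refine ⟨mul_right_cancel₀ (by positivity) (a ▸ b), Prod.ext (Prod.ext (congrArg (·.1) e) ?_) c⟩
  have := (Real.sqrt_inj (by linarith) (by linarith)).1 a
  simp only [G5, c] at this
  linarith

theorem core_sub : N.Core ⊆ N.NR := fun _ h =>
  ⟨by linarith [h.1], by linarith [h.2.1], by linarith [h.2.2.1], by linarith [h.2.2.2]⟩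

theorem G5_gt {x : N.F × E2} (h : x ∈ N.NR) (h2 : -2 < N.g x) : -2 < G5 (ε x) := by
  rcases lt_or_ge (N.g x) (-(3 / 2)) with a | a
  · rwa [H.emb.std x h a]
  · linarith [H.emb.low x h (by linarith)]

/-- the standard part of the core -/
theorem mem_core (h1 : ‖y.1.1‖ ≤ 1) (h2 : ‖y.2‖ ≤ 4) (h3 : -2 ≤ G5 y) (h4 : G5 y < -(3 / 2)) :
    y ∈ ε '' N.Core := by
  have o : y.1 ∈ Out := .inr (lt_abs.2 (.inr (by unfold G5 at h4; nlinarith [sq_nonneg ‖y.2‖])))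
  have g : N.g (N.pinv y.1, y.2) = G5 y := by rw [NF.g, f_pinv H.ok o]; rfl
  have c : (N.pinv y.1, y.2) ∈ N.Core :=
    ⟨(w_pinv H.ok o).symm ▸ h1, h2, g ▸ h3, g ▸ by linarith⟩
  exact ⟨_, c, by rw [H.emb.std _ (core_sub H c) (g ▸ h4), pj_pinv H.ok o]⟩

theorem II_out (hs : 49 / 4 < |q.2.2|) (hv : ‖v‖ < 5) (e : q.2.1 = p v) :
    II N ε p q = Up p (if 0 < q.2.2 then 1 else -1) (ε (q.1, v)) := by
  have := mem_ball_zero_iff.2 hv
  rw [II, if_pos ⟨hs, v, this, e.symm⟩, e, (oe_p H).left this]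

variable (hP : ProfStmt)
include hP

theorem g_out (hq : q ∈ N.Hyp (d.G0 (-2))) (hs : 49 / 4 ≤ |q.2.2|) (hv : ‖v‖ < 5)
    (e : q.2.1 = p v) : N.g (q.1, v) = gam (-2) (|q.2.2| - 12) := by
  have a : N.f q.1 = gam (-2) (tau q.2.2) - d.a 0 q.2.1 := hq
  rw [e, (H.dat.quad 0 v (by linarith [H.emb.big])).1, ← gam_abs, hP.2.2.2.2.2.2.1 _ hs] at a
  rw [NF.g, a, sub_add_cancel]

theorem nr_out (hq : q ∈ N.Pt (d.G0 (-2)) (DD p)) (hs : 49 / 4 ≤ |q.2.2|) (hv : ‖v‖ < 5)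
    (e : q.2.1 = p v) : (q.1, v) ∈ N.NR ∧ -2 < N.g (q.1, v) := by
  have a := g_out H hP hq.1 hs hv e
  have b : |q.2.2| < 17 := hq.2.2.elim (fun h => lt_trans h (by norm_num)) And.right
  have c := le_gam (t := -2) (by norm_num) (|q.2.2| - 12)
  have c' := gam_le (t := -2) (by norm_num) (|q.2.2| - 12)
  exact ⟨⟨hq.2.1, hv, by nlinarith, by nlinarith⟩, by nlinarith⟩

theorem II_in (hq : q ∈ N.Pt (d.G0 (-2)) (DD p)) (hs : |q.2.2| < 25 / 2) :
    II N ε p q = N.pr q := by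
  by_cases h : 49 / 4 < |q.2.2| ∧ q.2.1 ∈ p '' ball 0 5
  · obtain ⟨h1, v, hv, e⟩ := h
    have hv := mem_ball_zero_iff.1 hv
    have a := g_out H hP hq.1 h1.le hv e.symm
    rw [gam_in _ (abs_le.2 ⟨by linarith, by linarith⟩)] at a
    rw [II_out H h1 hv e.symm, H.emb.std _ (nr_out H hP hq h1.le hv e.symm).1 (by nlinarith)]
    refine Prod.ext rfl (Prod.ext e ?_)
    have b : G5 (N.pj q.1, v) + 2 = (|q.2.2| - 12) ^ 2 := by
      rw [show G5 (N.pj q.1, v) = N.g (q.1, v) from rfl, a]; ring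
    simp only [Up, b, NF.pr]
    rw [Real.sqrt_sq (by linarith), add_sub_cancel, sgn_mul]
  · exact if_neg h

theorem not_K_in (hq : q ∈ N.Hyp (d.G0 (-2))) (hs : |q.2.2| < 25 / 2) : q.1 ∉ N.K := fun h => by
  have a : N.f q.1 = gam (-2) (tau q.2.2) - d.a 0 q.2.1 := hq
  have b : |tau q.2.2| ≤ 1 / 2 := by
    rcases le_total (49 / 4) |q.2.2| with c | c
    · linarith [hP.2.2.2.2.2.2.1 _ c]
    · linarith [hP.2.2.2.2.2.2.2.1 _ c]
  rw [gam_in _ (by linarith)] at a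
  nlinarith [abs_le.1 (mem_K.1 h).2, a_nonneg H q.2.1, sq_abs (tau q.2.2), abs_nonneg (tau q.2.2)]

theorem far_out (hq : q ∈ N.Pt (d.G0 (-2)) (DD p)) (hs : 25 / 2 ≤ |q.2.2|) :
    (∃ v, ‖v‖ < 5 ∧ q.2.1 = p v) ∧ 25 / 2 ≤ |(II N ε p q).2.2| := by
  obtain ⟨⟨v, hv, e⟩, -⟩ := hq.2.2.resolve_left (not_lt.2 hs)
  have hv := mem_ball_zero_iff.1 hv
  have h1 : 49 / 4 < |q.2.2| := by linarith
  refine ⟨⟨v, hv, e.symm⟩, ?_⟩
  have a := g_out H hP hq.1 h1.le hv e.symm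
  have c := le_gam (t := -2) (by norm_num) (|q.2.2| - 12)
  have b := H.emb.low _ (nr_out H hP hq h1.le hv e.symm).1 (by nlinarith)
  rw [II_out H h1 hv e.symm, up_abs (sgn _)]
  linarith [Real.le_sqrt_of_sq_le (show (1 / 2 : ℝ) ^ 2 ≤ G5 (ε (q.1, v)) + 2 by linarith)]

theorem inj : InjOn (II N ε p) (N.Pt (d.G0 (-2)) (DD p)) := fun q hq q' hq' e => by
  rcases lt_or_ge |q.2.2| (25 / 2) with a | a <;> rcases lt_or_ge |q'.2.2| (25 / 2) with b | b
  · rw [II_in H hP hq a, II_in H hP hq' b] at e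
    exact mt_uniq H.ok ⟨congrArg (·.2) e, .inr ⟨not_K_in H hP hq.1 a, not_K_in H hP hq'.1 b,
      congrArg (·.1) e⟩⟩ hq.1 hq'.1
  · have := (far_out H hP hq' b).2
    rw [← e, II_in H hP hq a] at this
    exact absurd a (not_lt.2 this)
  · have := (far_out H hP hq a).2
    rw [e, II_in H hP hq' b] at this
    exact absurd b (not_lt.2 this)
  · obtain ⟨v, hv, ev⟩ := (far_out H hP hq a).1
    obtain ⟨v', hv', ev'⟩ := (far_out H hP hq' b).1
    have n := nr_out H hP hq (by linarith) hv ev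
    have n' := nr_out H hP hq' (by linarith) hv' ev'
    rw [II_out H (by linarith) hv ev, II_out H (by linarith) hv' ev'] at e
    obtain ⟨e1, e2⟩ := up_inj H (sgn _) (sgn _) (H.emb.bdd _ n.1).2.1 (H.emb.bdd _ n'.1).2.1
      (G5_gt H n.1 n.2).le (G5_gt H n'.1 n'.2).le e
    have e3 := H.emb.oe.inj n.1 n'.1 e2
    have e4 := (gam_strict (t := -2) (by norm_num)).injOn (mem_Ici.2 (by linarith))
      (mem_Ici.2 (by linarith)) ((g_out H hP hq.1 (by linarith) hv ev).symm.trans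
        ((congrArg N.g e3).trans (g_out H hP hq'.1 (by linarith) hv' ev')))
    refine Prod.ext (Prod.ext_iff.1 e3).1 (Prod.ext ?_ ?_)
    · rw [ev, ev', show v = v' from (Prod.ext_iff.1 e3).2]
    · rw [← sgn_mul q.2.2, e1, sub_left_injective e4, sgn_mul]

theorem ld_out (hq : q ∈ N.Pt (d.G0 (-2)) (DD p)) (hs : 49 / 4 ≤ |q.2.2|) (hv : ‖v‖ < 5)
    (e : q.2.1 = p v) (hσ : σ = 1 ∨ σ = -1) :
    LDAt (N.F.prod T.cyl) ((vs E2).prod T.cyl).cyl (fun q =>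
      (Up p σ (ε (q.1, invFunOn p (ball 0 5) q.2.1)), N.f q.1 - d.G0 (-2) q.2)) q := by
  obtain ⟨m, z, s⟩ := q
  obtain rfl : z = p v := e
  have n := nr_out H hP hq hs hv rfl
  have hb := mem_ball_zero_iff.2 hv
  have t0 : tau s ≠ 0 := fun h => by
    have := hP.2.2.2.2.2.2.1 _ hs
    rw [h, abs_zero] at this
    linarith
  have a1 : LDAt (vs ℝ) (vs ℝ) (fun s => gam (-2) (tau s)) s :=
    (ld_real hP.2.2.1 (hP.2.2.2.1 s).ne').trans
      (ld_real (cd_gam _) (right_ne_zero_of_mul (mul_deriv_pos (by norm_num) t0).ne'))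
  have a2 : ∀ x, LDAt (N.F.prod T.cyl) (N.F.prod T).cyl
      (fun x => ((x.1, x.2.1), N.f x.1 - (x.2.2 - d.a 0 x.2.1))) x := fun x =>
    ldAt_of_inv (g := fun x => (x.1.1, x.1.2, N.f x.1.1 - (x.2 - d.a 0 x.1.2))) isOpen_univ
      isOpen_univ trivial
      (fun _ _ => (smAt_fst.pair (smAt_snd.trans smAt_fst)).pair
        (((smAt_fst.trans (H.ok.smf _ trivial)).vpair ((smAt_snd.trans smAt_snd).vpair
          ((smAt_snd.trans smAt_fst).trans (H.dat.sm 0 _ trivial)))).vcomp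
          (g := fun t : ℝ × ℝ × ℝ => t.1 - (t.2.1 - t.2.2)) (by fun_prop)))
      (fun _ _ => (smAt_fst.trans smAt_fst).pair ((smAt_fst.trans smAt_snd).pair
        ((((smAt_fst.trans smAt_fst).trans (H.ok.smf _ trivial)).vpair (smAt_snd.vpair
          ((smAt_fst.trans smAt_snd).trans (H.dat.sm 0 _ trivial)))).vcomp
          (g := fun t : ℝ × ℝ × ℝ => t.1 - (t.2.1 - t.2.2)) (by fun_prop))))
      (mapsTo_univ _ _) (mapsTo_univ _ _)
      (fun _ _ => Prod.ext rfl (Prod.ext rfl (by dsimp only; ring)))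
      fun _ _ => Prod.ext rfl (by dsimp only; ring)
  have a3 : LDAt (N.F.prod T) ((vs E2).prod T.cyl)
      (fun x => Up p σ (ε (x.1, invFunOn p (ball 0 5) x.2))) (m, p v) := by
    refine ((LDAt.prodMap ldAt_id ((oe_p H).symm.ld _ ⟨v, hb, rfl⟩)).trans
      (Z := vs (R3 × E2)) (g := ε) ?_).trans (up_ld H.tor.ld hσ ?_)
    · rw [(oe_p H).left hb]; exact H.emb.oe.ld _ n.1
    · rw [(oe_p H).left hb]; exact G5_gt H n.1 n.2
  exact ((LDAt.prodMap ldAt_id (LDAt.prodMap ldAt_id a1)).trans (a2 _)).trans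
    (LDAt.prodMap a3 ldAt_id)

theorem loe_II (hD : IsOpen (DD p)) (hR : Reg N T.cyl (d.G0 (-2)) (DD p)) :
    LOE N T.cyl (d.G0 (-2)) (DD p) ((vs E2).prod T.cyl) (II N ε p) := by
  refine loe_of (by simp) (inj H hP) fun q hq => ?_
  have c : Continuous fun q : N.F × T × ℝ => q.2.2 := by fun_prop
  rcases lt_or_ge |q.2.2| (25 / 2) with a | a
  · refine ⟨N.pr, ?_, ld_pr H.ok hR.1 (not_K_in H hP hq.1 a)⟩
    filter_upwards [self_mem_nhdsWithin, nhdsWithin_le_nhds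
      ((hD.preimage (cont_pr H.ok)).mem_nhds hq.2), nhdsWithin_le_nhds
      (c.abs.continuousAt.eventually_lt_const a)] with x h1 h2 h3 using II_in H hP ⟨h1, h2⟩ h3
  · obtain ⟨v, hv, e⟩ := (far_out H hP hq a).1
    refine ⟨_, nhdsWithin_le_nhds ?_, ld_out H hP hq (by linarith) hv e (sgn q.2.2)⟩
    have h3 : ∀ᶠ x : N.F × T × ℝ in 𝓝 q, (0 < x.2.2 ↔ 0 < q.2.2) := by
      rcases lt_trichotomy q.2.2 0 with b | b | b
      · filter_upwards [c.continuousAt.eventually_lt_const b] with x hx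
        exact iff_of_false hx.not_gt b.not_gt
      · rw [b, abs_zero] at a; linarith
      · filter_upwards [c.continuousAt.eventually_const_lt b] with x hx using iff_of_true hx b
    filter_upwards [c.abs.continuousAt.eventually_const_lt (show 49 / 4 < |q.2.2| by linarith),
      (continuous_snd.fst).continuousAt.eventually_mem (((oe_p H).isOpen_image isOpen_ball
        subset_rfl).mem_nhds ⟨v, mem_ball_zero_iff.2 hv, e.symm⟩), h3] with x h1 h2 h3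
    rw [II, if_pos ⟨h1, h2⟩]
    simp only [h3]

/-- the region above the paraboloid misses the core of the patch -/
theorem up_not (hσ : σ = 1 ∨ σ = -1) (hy : y ∈ TR R \ ε '' N.Core) :
    Up p σ y ∉ II N ε p '' N.Pt (d.G0 (-2)) (QQ p) := by
  rintro ⟨q, hq, e⟩
  have h0 : 0 < √(G5 y + 2) := Real.sqrt_pos.2 (by linarith [hy.1.2.2.1])
  have hD : q ∈ N.Pt (d.G0 (-2)) (DD p) := ⟨hq.1, hq.2.1.trans_lt (by norm_num),
    hq.2.2.imp (fun h => h.trans_lt (by norm_num)) fun h =>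
      ⟨image_mono (closedBall_subset_ball (by norm_num)) h.1, h.2.trans_lt (by norm_num)⟩⟩
  have key : |q.2.2| < 25 / 2 → |q.2.2| = 12 + √(G5 y + 2) := fun a => by
    rw [← up_abs (p := p) hσ, ← e, II_in H hP hD a]; rfl
  obtain ⟨⟨v, hv, ev⟩, h15⟩ := hq.2.2.resolve_left fun a : |q.2.2| ≤ 12 => by
    linarith [key (by linarith)]
  have hv := mem_closedBall_zero_iff.1 hv
  have hv' : ‖v‖ < 5 := by linarith
  have h15 : |q.2.2| ≤ 15 := h15
  rcases lt_or_ge (49 / 4) |q.2.2| with a | a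
  · have n := nr_out H hP hD a.le hv' ev.symm
    rw [II_out H a hv' ev.symm] at e
    refine hy.2 ⟨(q.1, v), ⟨hq.2.1, hv, n.2.le, ?_⟩, (up_inj H (sgn _) hσ (H.emb.bdd _ n.1).2.1
      hy.1.2.1 (G5_gt H n.1 n.2).le hy.1.2.2.1.le e).2⟩
    rw [g_out H hP hq.1 a.le hv' ev.symm]
    nlinarith [gam_le (t := -2) (by norm_num) (|q.2.2| - 12)]
  · have b := key (by linarith)
    rw [II_in H hP hD (by linarith)] at e
    have e2 : v = y.2 := p_inj H (mem_ball_zero_iff.2 (by linarith [H.emb.big]))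
      (mem_ball_zero_iff.2 hy.1.2.1) (ev.trans (congrArg (·.2.1) e))
    refine hy.2 (mem_core H ((congrArg (‖·.1‖ ≤ 1) e).mp hq.2.1) (e2 ▸ hv) hy.1.2.2.1.le ?_)
    nlinarith [Real.sq_sqrt (show 0 ≤ G5 y + 2 by linarith [hy.1.2.2.1])]

theorem thin_St {Z : Type} [TopologicalSpace Z] {Γ : T × ℝ → ℝ} {e : N.F × T × ℝ → Z}
    {h : OpenPartialHomeomorph (E2 × T × ℝ) Z} {θ : E2}
    (r : Rp N (d.G0 (-2)) Γ (DD p) (QQ p) (II N ε p) e h) (hσ : σ = 1 ∨ σ = -1) (hθ : ‖θ‖ = 1)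
    (hΓ : ∀ t, |t| ≤ 6 / 5 → Γ (zo p σ θ t) = t) : Thin (e '' N.St (zo p σ θ)) univ := by
  have oe : OE (vs (R3 × E2)) ((vs E2).prod T.cyl) (Up p σ) (TR R) :=
    ⟨(isOpen_lt continuous_fst.fst.norm continuous_const).inter ((isOpen_lt continuous_snd.norm
      continuous_const).inter ((isOpen_lt continuous_const cd_G5.continuous).inter
        (isOpen_lt cd_G5.continuous continuous_const))),
      fun y hy => up_ld H.tor.ld hσ hy.2.2.1, fun y hy y' hy' e =>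
        (up_inj H hσ hσ hy.2.1 hy'.2.1 hy.2.2.1.le hy'.2.2.1.le e).2⟩
  have ms : MapsTo (Up p σ) (TR R \ ε '' N.Core) h.source := fun y hy =>
    r.src ▸ up_not H hP hσ hy
  have t1 := H.emb.sc.2.image (oe.sm.contOn.mono sdiff_subset) (mapsTo_image _ _)
    (oe.symm.sm.contOn.mono (image_mono sdiff_subset)) fun y hy => oe.left hy.1
  have t2 := t1.image (h.continuousOn.mono ms.image_subset) (mapsTo_univ _ _)
    (h.continuousOn_symm.mono (h.mapsTo.mono_left ms.image_subset).image_subset)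
    fun x hx => h.left_inv (ms.image_subset hx)
  refine t2.mono ?_ subset_rfl
  rintro _ ⟨⟨m, b⟩, ⟨h1, h2, rfl : b = zo p σ θ (N.f m)⟩, rfl⟩
  have h2' := abs_le.1 h2
  have s1 : |σ * (31 / 2)| = 31 / 2 := by rcases hσ with a | a <;> norm_num [a, abs_of_pos]
  have s2 : (if 0 < σ * (31 / 2) then (1 : ℝ) else -1) = σ := by
    rcases hσ with a | a <;> norm_num [a]
  have n2 : ‖√(57 / 4 - N.f m) • θ‖ ^ 2 = 57 / 4 - N.f m := by
    rw [norm_smul, hθ, mul_one, Real.norm_eq_abs, sq_abs, Real.sq_sqrt (by linarith)]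
  have n1 : ‖√(57 / 4 - N.f m) • θ‖ < 5 := by nlinarith [norm_nonneg (√(57 / 4 - N.f m) • θ)]
  have hy : (m, zo p σ θ (N.f m)) ∈ N.Hyp (d.G0 (-2)) := by
    change N.f m = gam (-2) (tau (σ * (31 / 2))) - d.a 0 (p _)
    rw [(H.dat.quad 0 _ (by linarith [H.emb.big])).1, n2, ← gam_abs,
      hP.2.2.2.2.2.2.1 _ (by rw [s1]; norm_num), s1, gam_out _ (by norm_num [abs_of_pos])]
    ring
  have hD : (m, zo p σ θ (N.f m)) ∈ N.Pt (d.G0 (-2)) (DD p) :=
    ⟨hy, h1.trans_lt (by norm_num), .inr ⟨⟨_, mem_ball_zero_iff.2 n1, rfl⟩,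
      s1.trans_lt (by norm_num)⟩⟩
  have hs : 49 / 4 < |(zo p σ θ (N.f m)).2| := lt_of_lt_of_eq (by norm_num) s1.symm
  have n := nr_out H hP hD hs.le n1 rfl
  have bd := H.emb.bdd _ n.1
  refine ⟨_, ⟨ε (m, √(57 / 4 - N.f m) • θ), ⟨⟨bd.1, bd.2.1, G5_gt H n.1 n.2, bd.2.2⟩, ?_⟩, rfl⟩, ?_⟩
  · rintro ⟨x, hx, ex⟩
    have := hx.2.2.2
    rw [H.emb.oe.inj (core_sub H hx) n.1 ex, NF.g, n2] at this
    linarith
  · rw [← r.rel _ ⟨hy, hD.2, fun a => ?_⟩ _ (hΓ _ h2).symm (mt_refl _), II_out H hs n1 rfl]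
    · exact congrArg (fun t => h (Up p t _)) s2.symm
    · rcases a.2 with a | a
      · linarith [s1.symm.trans_le a]
      · linarith [s1.symm.trans_le a.2]

end Blob

theorem blob (hP : ProfStmt) : BlobStmt := fun _ _ _ _ _ _ _ _ H hD hR =>
  ⟨Blob.loe_II H hP hD hR, fun _ _ _ _ _ _ _ r hσ hθ hΓ => Blob.thin_St H hP r hσ hθ hΓ⟩

end Pool.Agent.MP_e1dc65_gt.T

end
end MrgPart1

-- ======== part 2: formerly Pool.Agent.MP_e1dc65_gt.t.Slide
section MrgPart2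

/-! PROJECT HC, block A, row SLIDE: the later sheets slide onto the outer sheets. -/

open scoped ContDiff Manifold Topology Real
open Set Filter Function Module Topology

noncomputable section

namespace Pool.Agent.MP_e1dc65_gt.T

namespace SLD

open Loc

/-- the parameter domain -/
def PD : Set (ℝ × ℝ) := Icc 0 1 ×ˢ {t | |t| ≤ 6 / 5}

/-- a family of strips moves thinness -/
theorem mv {N : NF} {B Z : Type} [TopologicalSpace B] [TopologicalSpace Z] {Γ : B → ℝ}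
    {D : Set (E2 × B)} {e : N.F × B → Z} (hN : N.Ok)
    (he : IsEmbedding ((N.Pt Γ D).domRestrict e)) {ζ : ℝ × ℝ → B} (hζ : ContinuousOn ζ PD)
    (h : ∀ q ∈ PD, Γ (ζ q) = q.2 ∧ ∀ w : E2, ‖w‖ < 5 → (w, ζ q) ∈ D) {ζ₀ ζ₁ : ℝ → B}
    (h0 : ∀ t, |t| ≤ 6 / 5 → ζ (0, t) = ζ₀ t) (h1 : ∀ t, |t| ≤ 6 / 5 → ζ (1, t) = ζ₁ t)
    (ht : Thin (e '' N.St ζ₁) univ) : Thin (e '' N.St ζ₀) univ := by
  have ce : ContinuousOn e (N.Pt Γ D) := continuousOn_iff_continuous_domRestrict.2 he.continuous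
  have m : ∀ s ∈ Icc (0 : ℝ) 1, ∀ x : N.F, ‖N.w x‖ ≤ 6 / 5 → |N.f x| ≤ 6 / 5 →
      (x, ζ (s, N.f x)) ∈ N.Pt Γ D := fun s hs x a b =>
    ⟨(h (s, N.f x) ⟨hs, b⟩).1.symm, (h (s, N.f x) ⟨hs, b⟩).2 _ (by linarith)⟩
  have s0 : N.St ζ₀ ⊆ N.Pt Γ D := fun q hq => by
    rw [show q = (q.1, ζ (0, N.f q.1)) from Prod.ext rfl (hq.2.2.trans (h0 _ hq.2.1).symm)]
    exact m 0 (left_mem_Icc.2 zero_le_one) _ hq.1 hq.2.1
  have s1 : N.St ζ₁ ⊆ N.Pt Γ D := fun q hq => by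
    rw [show q = (q.1, ζ (1, N.f q.1)) from Prod.ext rfl (hq.2.2.trans (h1 _ hq.2.1).symm)]
    exact m 1 (right_mem_Icc.2 zero_le_one) _ hq.1 hq.2.1
  refine (thin Z _ univ (subset_univ _)).2 fun G _ τ hτ => ?_
  have hp := pullT_pull e ce τ
  have hτ' := hp.hol hτ ce (mapsTo_univ _ _)
  obtain ⟨s, hs⟩ : Triv (pullT e ce τ) (N.St ζ₀) := by
    refine hτ'.deform (S' := N.St ζ₁) (H := fun q => (q.2.1, ζ (q.1, N.f q.2.1)))
      (continuous_snd.fst.continuousOn.prodMk (hζ.comp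
        (continuous_fst.prodMk ((cont_f hN).comp continuous_snd.fst)).continuousOn fun q hq => ⟨hq.1, hq.2.2.1⟩)) (fun q hq => m _ hq.1 _ hq.2.1 hq.2.2.1)
      (fun q hq => Prod.ext rfl ((h0 _ hq.2.1).trans hq.2.2.symm))
      (fun q hq => ⟨hq.1, hq.2.1, h1 _ hq.2.1⟩)
      (hp.triv ce s1 (mapsTo_image _ _) (hτ.triv_of_thin ht))
  have hi : InjOn e (N.Pt Γ D) := injOn_iff_injective.2 he.injective
  obtain ⟨s', hs', -⟩ := (hp.mono s0).descend hτ (mapsTo_univ _ _) (COR.locSec_emb he s0) hs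
    fun p hp q hq e => by rw [hi (s0 hp) (s0 hq) e]
  exact ⟨s', hs'⟩

/-- the continuous root of a family of strictly decreasing functions -/
theorem root {X : Type} [TopologicalSpace X] {A : Set X} {F : X → ℝ → ℝ} {a b : ℝ} (hab : a ≤ b)
    (c1 : ∀ s, ContinuousOn (fun x => F x s) A) (c2 : ∀ x ∈ A, ContinuousOn (F x) (Icc a b))
    (an : ∀ x ∈ A, StrictAntiOn (F x) (Icc a b)) (h : ∀ x ∈ A, F x b ≤ 0 ∧ 0 ≤ F x a) :
    ∃ S : X → ℝ, ContinuousOn S A ∧ ∀ x ∈ A, S x ∈ Icc a b ∧ F x (S x) = 0 := by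
  have ex : ∀ x, ∃ s, x ∈ A → s ∈ Icc a b ∧ F x s = 0 := fun x => by
    by_cases hx : x ∈ A
    · obtain ⟨s, hs⟩ := intermediate_value_Icc' hab (c2 x hx) (h x hx)
      exact ⟨s, fun _ => hs⟩
    · exact ⟨0, fun a => (hx a).elim⟩
  choose S hS using ex
  refine ⟨S, fun x hx => tendsto_order.2 ⟨fun c hc => ?_, fun c hc => ?_⟩, hS⟩
  · rcases lt_or_ge c a with h1 | h1
    · filter_upwards [self_mem_nhdsWithin] with y hy using h1.trans_le (hS y hy).1.1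
    have h2 : c ∈ Icc a b := ⟨h1, hc.le.trans (hS x hx).1.2⟩
    have h3 : 0 < F x c := (hS x hx).2 ▸ an x hx h2 (hS x hx).1 hc
    filter_upwards [self_mem_nhdsWithin, (c1 c x hx).eventually (lt_mem_nhds h3)] with y hy h4
    refine lt_of_not_ge fun h5 => h4.not_ge ?_
    exact (hS y hy).2 ▸ (an y hy).antitoneOn (hS y hy).1 h2 h5
  · rcases lt_or_ge b c with h1 | h1
    · filter_upwards [self_mem_nhdsWithin] with y hy using (hS y hy).1.2.trans_lt h1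
    have h2 : c ∈ Icc a b := ⟨(hS x hx).1.1.trans hc.le, h1⟩
    have h3 : F x c < 0 := (hS x hx).2 ▸ an x hx (hS x hx).1 h2 hc
    filter_upwards [self_mem_nhdsWithin, (c1 c x hx).eventually (gt_mem_nhds h3)] with y hy h4
    refine lt_of_not_ge fun h5 => h4.not_ge ?_
    exact (hS y hy).2 ▸ (an y hy).antitoneOn h2 (hS y hy).1 h5

theorem between {a b s : ℝ} (hs : s ∈ Icc (0 : ℝ) 1) (h1 : 0 ≤ a * b) (h2 : |b| ≤ |a|) :
    |b| ≤ |(1 - s) * a + s * b| ∧ |(1 - s) * a + s * b| ≤ |a| := by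
  obtain ⟨s0, s1⟩ := hs
  rcases mul_nonneg_iff.1 h1 with ⟨ha, hb⟩ | ⟨ha, hb⟩
  · rw [abs_of_nonneg ha, abs_of_nonneg hb] at *
    rw [abs_of_nonneg (by nlinarith)]
    constructor <;> nlinarith
  · rw [abs_of_nonpos ha, abs_of_nonpos hb] at *
    rw [abs_of_nonpos (by nlinarith)]
    constructor <;> nlinarith

theorem bet_anti : AntitoneOn bet (Ici 0) := fun a ha b _ h =>
  Real.smoothTransition.monotone (by nlinarith [ha.out])

theorem norm_sq {θ : E2} (hθ : ‖θ‖ = 1) {x : ℝ} (h0 : 0 ≤ x) (h1 : x < 5 ^ 2) :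
    ‖√x • θ‖ ^ 2 = x ∧ ‖√x • θ‖ < 5 := by
  rw [norm_smul, hθ, mul_one, Real.norm_of_nonneg (Real.sqrt_nonneg _)]
  exact ⟨Real.sq_sqrt h0, (Real.sqrt_lt' (by norm_num)).2 h1⟩

section
variable {N : NF} {ε : N.F × E2 → R3 × E2} {R C L : ℝ} {T : Mf (Rn 2)} {p : E2 → T} {d : Dat T}
  {Z : Type} [TopologicalSpace Z] {e : N.F × T × ℝ → Z} {k : ℝ} {n : Fin 5} {σ : ℝ}

theorem Gs_cont (hP : ProfStmt) (H : AH N ε R C L T p d) : Continuous (d.Gs (gam 2) k n) :=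
  (((((hP.2.2.2.2.2.2.2.2.2.2.2.2.2 d.c H.dat.c100).1 _ (cd_gam 2)).1.continuous.comp
    continuous_snd).sub ((H.dat.sm n).cont.comp continuous_fst))).add
    ((continuous_const.mul (cd_bet.continuous.comp continuous_snd)).mul
      (H.dat.smχ.cont.comp continuous_fst))

theorem Gs_sgn (hP : ProfStmt) (H : AH N ε R C L T p d) (hσ : σ = 1 ∨ σ = -1) (z : T) (s : ℝ) :
    d.Gs (gam 2) k n (z, σ * s) = d.Gs (gam 2) k n (z, s) := by
  rcases hσ with rfl | rfl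
  · rw [one_mul]
  · simp only [Dat.Gs, neg_one_mul, bet_neg,
      ((hP.2.2.2.2.2.2.2.2.2.2.2.2.2 d.c H.dat.c100).1 _ (cd_gam 2)).2.1 s]

theorem Gs_anti (hP : ProfStmt) (H : AH N ε R C L T p d) (hk : 0 ≤ k) (z : T) :
    StrictAntiOn (fun s => d.Gs (gam 2) k n (z, s)) (Icc 0 12) := by
  have h := hP.2.2.2.2.2.2.2.2.2.2.2.2.2 d.c H.dat.c100
  have h1 : StrictAntiOn (Cc d.c (gam 2)) (Icc 0 12) := by
    refine strictAntiOn_of_deriv_neg (convex_Icc _ _)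
      (h.1 _ (cd_gam 2)).1.continuous.continuousOn fun s hs => ?_
    rw [interior_Icc] at hs
    have := (h.2.1 2 (.inl rfl) s).1 (abs_pos.2 hs.1.ne') (by rw [abs_of_pos hs.1]; exact hs.2)
    exact neg_of_mul_neg_right this hs.1.le
  intro a ha b hb hab
  have h2 := mul_le_mul_of_nonneg_right (mul_le_mul_of_nonneg_left (bet_anti ha.1 hb.1 hab.le) hk)
    (H.dat.χ01 z).1
  have h3 := h1 ha hb hab
  simp only [Dat.Gs]
  linarith

theorem Gs_out (hP : ProfStmt) (H : AH N ε R C L T p d) (z : T) {s : ℝ} (hs : 6 ≤ s) :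
    d.Gs (gam 2) k n (z, s) = (12 - s) ^ 2 + 2 - d.a n z := by
  have h : |s| = s := abs_of_nonneg (by linarith)
  simp only [Dat.Gs, ((hP.2.2.2.2.2.2.2.2.2.2.2.2.2 d.c H.dat.c100).1 _ (cd_gam 2)).2.2.2 s
    (h.symm ▸ hs), h, gam_two, bet_zero (show 3 ≤ |s| by linarith), mul_zero, zero_mul, add_zero]

theorem Gs_in (hP : ProfStmt) (H : AH N ε R C L T p d) (z : T) {s : ℝ} (hs : |s| ≤ 5) :
    d.Gs (gam 2) k n (z, s) = d.c - s ^ 2 - d.a n z + k * bet s * d.χ z := by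
  simp only [Dat.Gs, ((hP.2.2.2.2.2.2.2.2.2.2.2.2.2 d.c H.dat.c100).1 _ (cd_gam 2)).2.2.1 s hs]

theorem a_eq (H : AH N ε R C L T p d) {θ : E2} (hθ : ‖θ‖ = 1) {x : ℝ} (h0 : 0 ≤ x)
    (h1 : x < 5 ^ 2) : d.a n (p (√x • θ)) = x :=
  ((H.dat.quad n _ (by linarith [(norm_sq hθ h0 h1).2, H.emb.big])).1).trans (norm_sq hθ h0 h1).1

/-- through the neck -/
theorem ph2 (hP : ProfStmt) (H : AH N ε R C L T p d) (hσ : σ = 1 ∨ σ = -1)
    (he : IsEmbedding ((N.Pt (d.Gs (gam 2) k n) (DD p)).domRestrict e)) {θ : E2} (hθ : ‖θ‖ = 1)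
    (ht : Thin (e '' N.St (zo p σ θ)) univ) :
    Thin (e '' N.St fun t => (p (√(57 / 4 - t) • θ), σ * (17 / 2))) univ := by
  refine mv (ζ := fun q => (p (√((7 / 2 - 7 * q.1) ^ 2 + 2 - q.2) • θ), σ * (17 / 2 + 7 * q.1)))
    H.ok he (Continuous.continuousOn ((H.tor.cov.continuous.comp (by fun_prop)).prodMk
      (by fun_prop))) (fun q hq => ?_) (fun t _ => by norm_num) (fun t _ => by norm_num [zo]) ht
  obtain ⟨⟨s0, s1⟩, hq⟩ := hq
  obtain ⟨t0, t1⟩ := abs_le.1 hq.out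
  have x0 : 0 ≤ (7 / 2 - 7 * q.1) ^ 2 + 2 - q.2 := by nlinarith [sq_nonneg (7 / 2 - 7 * q.1)]
  have x1 : (7 / 2 - 7 * q.1) ^ 2 + 2 - q.2 < 5 ^ 2 := by nlinarith
  refine ⟨?_, fun w hw => ⟨hw, .inr ⟨mem_image_of_mem p (mem_ball_zero_iff.2
    (norm_sq hθ x0 x1).2), ?_⟩⟩⟩
  · rw [Gs_sgn hP H hσ, Gs_out hP H _ (by linarith), a_eq H hθ x0 x1]; ring
  · rcases hσ with rfl | rfl <;> exact abs_lt.2 ⟨by linarith, by linarith⟩

/-- along the torus -/
theorem ph1 (hP : ProfStmt) (H : AH N ε R C L T p d) (hσ : σ = 1 ∨ σ = -1) (hk : 0 ≤ k)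
    (he : IsEmbedding ((N.Pt (d.Gs (gam 2) k n) (DD p)).domRestrict e)) {θ : E2} (hθ : ‖θ‖ = 1)
    {v : ℝ → E2} (hv : Continuous v) {s₀ : ℝ} (hs : s₀ ∈ Icc (0 : ℝ) 12)
    (h1 : ∀ t, |t| ≤ 6 / 5 → ∀ j, 0 ≤ v t j * (√(57 / 4 - t) * θ j) ∧
      |√(57 / 4 - t) * θ j| ≤ |v t j| ∧ |v t j| ≤ L / 2)
    (h2 : ∀ t, |t| ≤ 6 / 5 → ∀ z, d.a n z ≤ d.a n (p (v t)) → t ≤ d.Gs (gam 2) k n (z, 0))
    (h3 : ∀ t, |t| ≤ 6 / 5 → d.Gs (gam 2) k n (p (v t), s₀) = t)
    (ht : Thin (e '' N.St (zo p σ θ)) univ) :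
    Thin (e '' N.St fun t => (p (v t), σ * s₀)) univ := by
  obtain ⟨z, hz⟩ : ∃ z : ℝ × ℝ → T, z = fun q => p ((1 - q.1) • v q.2 + q.1 • √(57 / 4 - q.2) • θ) :=
    ⟨_, rfl⟩
  have cz : Continuous z := hz ▸ H.tor.cov.continuous.comp (by fun_prop)
  have cG := Gs_cont (k := k) (n := n) hP H
  have ea : ∀ t, |t| ≤ 6 / 5 → d.a n (p (√(57 / 4 - t) • θ)) = 57 / 4 - t := fun t h =>
    a_eq H hθ (by linarith [(abs_le.1 h).2]) (by linarith [(abs_le.1 h).1])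
  have an : ∀ q : ℝ × ℝ, StrictAntiOn (fun s => d.Gs (gam 2) k n (z q, s) - q.2) (Icc 0 12) :=
    fun q a ha b hb h => sub_lt_sub_right (Gs_anti hP H hk _ ha hb h) _
  obtain ⟨S, cS, hS⟩ := root (A := PD) (F := fun q s => d.Gs (gam 2) k n (z q, s) - q.2)
    (a := 0) (b := 12) (by norm_num)
    (fun s => ((cG.comp (cz.prodMk continuous_const)).sub continuous_snd).continuousOn)
    (fun q _ => ((cG.comp (continuous_const.prodMk continuous_id)).sub
      continuous_const).continuousOn) (fun q _ => an q) fun q hq => by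
      have b := fun j => between hq.1 (h1 _ hq.2 j).1 (h1 _ hq.2 j).2.1
      have b1 : d.a n (p (√(57 / 4 - q.2) • θ)) ≤ d.a n (z q) :=
        hz ▸ H.dat.mono n _ _ fun j => ⟨(b j).1, (b j).2.trans (h1 _ hq.2 j).2.2⟩
      have b2 : d.a n (z q) ≤ d.a n (p (v q.2)) :=
        hz ▸ H.dat.mono n _ _ fun j => ⟨(b j).2, (h1 _ hq.2 j).2.2⟩
      refine ⟨?_, sub_nonneg.2 (h2 _ hq.2 _ b2)⟩
      rw [ea _ hq.2] at b1
      rw [Gs_out hP H _ (by norm_num)]
      linarith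
  refine mv (ζ := fun q => (z q, σ * S q)) H.ok he
    (cz.continuousOn.prodMk (continuousOn_const.mul cS)) (fun q hq => ⟨?_, fun w hw => ⟨hw, .inl ?_⟩⟩)
    (fun t h => ?_) (fun t h => ?_) (ph2 hP H hσ he hθ ht)
  · rw [Gs_sgn hP H hσ]; exact sub_eq_zero.1 (hS q hq).2
  · obtain ⟨a, b⟩ := (hS q hq).1
    rcases hσ with rfl | rfl <;> exact abs_lt.2 ⟨by linarith, by linarith⟩
  · have e0 : z (0, t) = p (v t) := by simp [hz]
    have m : ((0, t) : ℝ × ℝ) ∈ PD := ⟨left_mem_Icc.2 zero_le_one, h⟩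
    rw [(an (0, t)).injOn (hS _ m).1 hs ((hS _ m).2.trans (by simp only [e0, h3 t h, sub_self])), e0]
  · have e1 : z (1, t) = p (√(57 / 4 - t) • θ) := by simp [hz]
    have m : ((1, t) : ℝ × ℝ) ∈ PD := ⟨right_mem_Icc.2 zero_le_one, h⟩
    rw [(an (1, t)).injOn (hS _ m).1 (show (17 / 2 : ℝ) ∈ Icc (0 : ℝ) 12 by norm_num)
      ((hS _ m).2.trans (by
        simp only [e1]
        rw [Gs_out hP H _ (by norm_num), ea t h]; ring)), e1]

end

theorem rt {t : ℝ} (h : |t| ≤ 6 / 5) :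
    0 ≤ √(57 / 4 - t) ∧ √(57 / 4 - t) ≤ 4 ∧ √(57 / 4 - t) ^ 2 = 57 / 4 - t :=
  ⟨Real.sqrt_nonneg _, (COR.sqrt_le h).2⟩

end SLD

open SLD Loc in
theorem slide (hP : ProfStmt) : SlideStmt := by
  intro N ε R C L T p d Z _ e k n σ H hσ he ht
  have hL : 148 ≤ L := by linarith [H.big, H.emb.big]
  have n0 : ‖(!₂[1, 0] : E2)‖ = 1 := by simp [EuclideanSpace.norm_eq]
  have n1 : ‖(!₂[0, 1] : E2)‖ = 1 := by simp [EuclideanSpace.norm_eq]
  have y1 : |σ * (7 / 2)| = 7 / 2 := by rcases hσ with rfl | rfl <;> norm_num [abs_of_pos]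
  have y2 : |-σ * (L / 2 - 7 / 2)| ≤ L / 2 := by
    rcases hσ with rfl | rfl <;> exact abs_le.2 ⟨by linarith, by linarith⟩
  have y3 : ∃ m : ℤ, -σ * (L / 2 - 7 / 2) - (L / 2 + σ * (7 / 2)) = m * L := by
    rcases hσ with rfl | rfl
    · exact ⟨-1, by push_cast; ring⟩
    · exact ⟨0, by push_cast; ring⟩
  have y4 : gam (-2) (σ * (7 / 2)) = 57 / 4 := by
    rw [gam_out _ (by linarith), ← sq_abs, y1]; norm_num
  have g0 : ∀ n z, d.Gs (gam 2) 0 n (z, 0) = d.c - d.a n z := fun n z => by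
    rw [Gs_in hP H _ (by norm_num)]; ring
  refine ⟨?_, ?_, ?_⟩
  · rintro rfl rfl
    have e1 : ∀ u, p !₂[u, -σ * (L / 2 - 7 / 2)] = p !₂[u, L / 2 + σ * (7 / 2)] := fun u =>
      (H.tor.eq _ _).2 (Fin.forall_fin_two.2 ⟨⟨0, by simp⟩, y3⟩)
    have e2 : ∀ t, |t| ≤ 6 / 5 →
        d.Gs (gam 2) 0 0 (p !₂[√(57 / 4 - t), -σ * (L / 2 - 7 / 2)], 0) = t := fun t h => by
      obtain ⟨r0, r1, r2⟩ := rt h
      rw [g0, e1, (H.dat.b1 _ _ (abs_le.2 ⟨by linarith, by linarith⟩) (by linarith)).1, y4, r2]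
      ring
    refine (ph1 hP H (.inl rfl) le_rfl he n0 (v := fun t => !₂[√(57 / 4 - t), -σ * (L / 2 - 7 / 2)])
      (by fun_prop) (s₀ := 0) (by norm_num) (fun t h => ?_) (fun t h z hz => ?_) e2
      (ht _ _ (.inl rfl) n0)).mono ?_ subset_rfl
    · obtain ⟨r0, r1, -⟩ := rt h
      refine Fin.forall_fin_two.2 ⟨⟨by simpa using mul_self_nonneg _, by simp, ?_⟩, by simp,
        (by simp : |_ * (0 : ℝ)| = 0).trans_le (abs_nonneg _), y2⟩
      exact abs_le.2 ⟨show _ ≤ √_ by linarith, show √_ ≤ _ by linarith⟩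
    · have := e2 t h
      rw [g0] at this ⊢
      linarith
    · rintro _ ⟨q, ⟨a, b, c⟩, rfl⟩
      refine ⟨(q.1, β1 p L q.2), ⟨a, b, ?_⟩, rfl⟩
      simp only [β1, c, e1]
      simp [cir]
  · rintro rfl rfl
    have e1 : ∀ u, p !₂[-σ * (L / 2 - 7 / 2), u] = p !₂[L / 2 + σ * (7 / 2), u] := fun u =>
      (H.tor.eq _ _).2 (Fin.forall_fin_two.2 ⟨y3, 0, by simp⟩)
    have e2 : ∀ t, |t| ≤ 6 / 5 →
        d.Gs (gam 2) 0 1 (p !₂[-σ * (L / 2 - 7 / 2), √(57 / 4 - t)], 0) = t := fun t h => by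
      obtain ⟨r0, r1, r2⟩ := rt h
      rw [g0, e1, (H.dat.b2 _ _ (abs_le.2 ⟨by linarith, by linarith⟩) (by linarith)).1, y4, r2]
      ring
    refine (ph1 hP H (.inl rfl) le_rfl he n1 (v := fun t => !₂[-σ * (L / 2 - 7 / 2), √(57 / 4 - t)])
      (by fun_prop) (s₀ := 0) (by norm_num) (fun t h => ?_) (fun t h z hz => ?_) e2
      (ht _ _ (.inl rfl) n1)).mono ?_ subset_rfl
    · obtain ⟨r0, r1, -⟩ := rt h
      refine Fin.forall_fin_two.2 ⟨⟨by simp, (by simp : |_ * (0 : ℝ)| = 0).trans_le (abs_nonneg _),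
        y2⟩, by simpa using mul_self_nonneg _, by simp, ?_⟩
      exact abs_le.2 ⟨show _ ≤ √_ by linarith, show √_ ≤ _ by linarith⟩
    · have := e2 t h
      rw [g0] at this ⊢
      linarith
    · rintro _ ⟨q, ⟨a, b, c⟩, rfl⟩
      refine ⟨(q.1, β2 p L q.2), ⟨a, b, ?_⟩, rfl⟩
      simp only [β2, c, e1]
      simp [cir]
  · rintro rfl rfl
    have e1 : ∀ u, p !₂[u - L / 2, L / 2] = p (ctr L + !₂[u, 0]) := fun u =>
      (H.tor.eq _ _).2 (Fin.forall_fin_two.2 ⟨⟨-1, by simp [ctr]; ring⟩, 0, by simp [ctr]⟩)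
    refine (ph1 hP H hσ (by norm_num) he n1 (v := fun t => !₂[√(57 / 4 - -t) - L / 2, L / 2])
      (by fun_prop) (s₀ := 7 / 2) (by norm_num) (fun t h => ?_) (fun t h z _ => ?_) (fun t h => ?_)
      (ht _ _ hσ n1)).mono ?_ subset_rfl
    · obtain ⟨r0, r1, -⟩ := rt h
      obtain ⟨r2, r3, -⟩ := rt (t := -t) (by rwa [abs_neg])
      refine Fin.forall_fin_two.2 ⟨⟨by simp, by simp, ?_⟩, ?_, ?_, ?_⟩
      · exact abs_le.2 ⟨show _ ≤ √_ - _ by linarith, show √_ - _ ≤ _ by linarith⟩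
      · exact mul_nonneg (show 0 ≤ L / 2 by linarith) (by simp)
      · change |_ * 1| ≤ |L / 2|
        rw [mul_one, abs_of_nonneg r0, abs_of_nonneg (by linarith)]
        linarith
      · exact (abs_of_nonneg (show 0 ≤ L / 2 by linarith)).le
    · rw [Gs_in hP H _ (by norm_num), bet_one (by norm_num)]
      linarith [H.dat.fill z, (abs_le.1 h).2]
    · obtain ⟨r2, r3, r4⟩ := rt (t := -t) (by rwa [abs_neg])
      rw [Gs_in hP H _ (by norm_num [abs_of_pos]), bet_zero (by norm_num [abs_of_pos]), e1,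
        H.dat.hole _ (abs_le.2 ⟨show _ ≤ √_ by linarith, show √_ ≤ _ by linarith⟩) (by simp),
        EuclideanSpace.real_norm_sq_eq]
      simp only [Fin.sum_univ_two]
      change _ - (_ - (√_ ^ 2 + 0 ^ 2)) + _ = _
      rw [r4]; ring
    · rintro _ ⟨q, ⟨a, b, c⟩, rfl⟩
      refine ⟨(q.1, β3 p L q.2), ⟨a, (abs_neg _).symm.trans_le b, ?_⟩, rfl⟩
      simp only [β3, c, e1]
      congr 3
      ext j
      fin_cases j <;> simp [cir, NF.flip]

end Pool.Agent.MP_e1dc65_gt.T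

end
end MrgPart2

-- ======== part 3: formerly Pool.Agent.MP_e1dc65_gt.t.Topl
section MrgPart3

/-! PROJECT HC, block A, row TOPL: the top level as a replacement of the trivial space. -/

open scoped ContDiff Manifold Topology Real
open Set Filter Function Module Topology

noncomputable section

namespace Pool.Agent.MP_e1dc65_gt.T

namespace TopP
open Loc

/-! ### The inverse of the projection -/

section lift
variable {N : NF} {B : Type} {Γ : B → ℝ}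

/-- where the projection is invertible -/
def LL (Γ : B → ℝ) : Set (E2 × B) := {x | (x.1, Γ x.2) ∈ Out}

open Classical in
/-- the inverse of the projection -/
def lift (hN : N.Ok) (y₀ : N.Hyp Γ) (x : E2 × B) : N.Hyp Γ :=
  if h : x ∈ LL Γ then ⟨(N.pinv (x.1, Γ x.2), x.2), f_pinv hN h⟩ else y₀

theorem lift_val (hN : N.Ok) (y₀ : N.Hyp Γ) {x : E2 × B} (h : x ∈ LL Γ) :
    (lift hN y₀ x).1 = (N.pinv (x.1, Γ x.2), x.2) := by rw [lift, dif_pos h]

theorem pr_lift (hN : N.Ok) (y₀ : N.Hyp Γ) {x : E2 × B} (h : x ∈ LL Γ) :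
    N.pr (lift hN y₀ x).1 = x := by
  rw [lift_val hN y₀ h]; exact Prod.ext (w_pinv hN h) rfl

theorem lift_pr (hN : N.Ok) (y₀ y : N.Hyp Γ) (h : N.pr y.1 ∈ LL Γ) : lift hN y₀ (N.pr y.1) = y := by
  have e : ((N.pr y.1).1, Γ (N.pr y.1).2) = N.pj y.1.1 := Prod.ext rfl (Eq.symm y.2)
  refine Subtype.ext ?_
  rw [lift_val hN y₀ h, e, pinv_pj hN (not_K.2 (e ▸ h))]
  rfl

theorem exists_h [TopologicalSpace B] (hN : N.Ok) (hΓ : Continuous Γ) (y₀ : N.Hyp Γ)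
    {S : Set (E2 × B)} (hS : IsOpen S) (h : S ⊆ LL Γ) :
    ∃ k : OpenPartialHomeomorph (E2 × B) (N.Hyp Γ), k.source = S ∧
      k.target = {y | N.pr y.1 ∈ S} ∧ ∀ x, k x = lift hN y₀ x := by
  have c : Continuous fun y : N.Hyp Γ => N.pr y.1 := (cont_pr hN).comp continuous_subtype_val
  refine ⟨⟨⟨⟨lift hN y₀, fun y => N.pr y.1, S, {y | N.pr y.1 ∈ S}, fun x hx => ?_, fun y hy => hy,
    fun x hx => pr_lift hN y₀ (h hx), fun y hy => lift_pr hN y₀ y (h hy)⟩, ?_, c.continuousOn⟩,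
    hS, hS.preimage c⟩, rfl, rfl, fun _ => rfl⟩
  · show N.pr _ ∈ S
    rwa [pr_lift hN y₀ (h hx)]
  · refine IsInducing.subtypeVal.continuousOn_iff.2 (ContinuousOn.congr (f := fun x : E2 × B =>
      (N.pinv (x.1, Γ x.2), x.2)) (fun x hx => ContinuousAt.continuousWithinAt ?_)
      fun x hx => lift_val hN y₀ (h hx))
    exact (ContinuousAt.comp (f := fun x : E2 × B => ((x.1, Γ x.2) : R3)) (cont_pinv hN (h hx))
      (by fun_prop)).prodMk continuousAt_snd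

theorem out_of_lt (x : E2) {t : ℝ} (h : t < -1) : ((x, t) : R3) ∈ Out :=
  Or.inr (lt_abs.2 (Or.inr (by linarith)))

/-- a point of the hypersurface over a given point -/
theorem exists_pt (hN : N.Ok) (x : E2 × B) (h : Γ x.2 < -1) : ∃ q ∈ N.Hyp Γ, N.pr q = x :=
  ⟨(N.pinv (x.1, Γ x.2), x.2), f_pinv hN (out_of_lt _ h),
    Prod.ext (w_pinv hN (out_of_lt _ h)) rfl⟩

end lift

/-! ### The three functions -/

variable {N : NF} {ε : N.F × E2 → R3 × E2} {R C L : ℝ} {T : Mf (Rn 2)} {p : E2 → T} {d : Dat T}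

/-- the region of the two blobs -/
def Hot (p : E2 → T) (b : T × ℝ) : Prop := 49 / 4 < |b.2| ∧ b.1 ∈ p '' Metric.ball 0 5

theorem II_cold {q : N.F × T × ℝ} (h : ¬Hot p q.2) : II N ε p q = N.pr q := if_neg h

theorem II_hot {q : N.F × T × ℝ} (h : Hot p q.2) : II N ε p q =
    Up p (if 0 < q.2.2 then 1 else -1) (ε (q.1, invFunOn p (Metric.ball 0 5) q.2.1)) := if_pos h

theorem abs_up (s t : ℝ) : |(if 0 < s then (1 : ℝ) else -1) * (12 + √t)| = 12 + √t := by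
  have : (0 : ℝ) ≤ 12 + √t := by positivity
  split_ifs
  · rw [one_mul, abs_of_nonneg this]
  · rw [neg_one_mul, abs_neg, abs_of_nonneg this]

theorem II_abs {q : N.F × T × ℝ} {r : ℝ} (hr : r < 12) (h : r < |q.2.2|) :
    r < |(II N ε p q).2.2| := by
  by_cases hq : Hot p q.2
  · rw [II_hot hq, Up, abs_up]
    linarith [Real.sqrt_nonneg (G5 (ε (q.1, invFunOn p (Metric.ball 0 5) q.2.1)) + 2)]
  · rw [II_cold hq]; exact h

variable (hP : ProfStmt) (H : AH N ε R C L T p d)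

section
include H

theorem a_nonneg (n : Fin 5) (z : T) : 0 ≤ d.a n z := by
  have hR := H.emb.big
  by_contra h
  obtain ⟨v, hv, rfl⟩ := H.dat.big n z 0 le_rfl (by linarith) (by linarith)
  rw [(H.dat.quad n v (by linarith)).1] at h
  exact h (sq_nonneg _)

theorem a_ball (n : Fin 5) {v : E2} (hv : ‖v‖ < 5) : d.a n (p v) = ‖v‖ ^ 2 :=
  (H.dat.quad n v (by linarith [H.emb.big])).1

theorem inv_p {v : E2} (hv : ‖v‖ < 5) : invFunOn p (Metric.ball 0 5) (p v) = v := by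
  refine InjOn.leftInvOn_invFunOn (fun a ha b hb e => ?_) (mem_ball_zero_iff.2 hv)
  ext k
  obtain ⟨n, hn⟩ := (H.tor.eq a b).1 e k
  have h1 := (PiLp.norm_apply_le a k).trans_lt (mem_ball_zero_iff.1 ha)
  have h2 := (PiLp.norm_apply_le b k).trans_lt (mem_ball_zero_iff.1 hb)
  rw [Real.norm_eq_abs, abs_lt] at h1 h2
  have hL : 40 ≤ L := by linarith [H.big, H.emb.big]
  have h3 : (n : ℝ) < 1 := by nlinarith
  have h4 : (-1 : ℝ) < n := by nlinarith
  have h5 : n = 0 := by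
    have a : n < 1 := by exact_mod_cast h3
    have b : -1 < n := by exact_mod_cast h4
    omega
  rw [h5] at hn
  simpa [sub_eq_zero] using hn

end

theorem G_eq {b : T × ℝ} (h : |b.2| ≤ 57 / 5) (hP : ProfStmt) :
    d.Gs (gam (-2)) 0 4 b = d.Gs gt 0 4 b := by
  simp only [Dat.Gs, Cc]
  rw [hP.2.2.2.2.2.2.2.2.2.2.2.1 _ (by linarith)]

include hP H

theorem Gs_out {g : ℝ → ℝ} (hg : ContDiff ℝ ∞ g) {b : T × ℝ} (h : 6 ≤ |b.2|) :
    d.Gs g 0 4 b = g (12 - |b.2|) - d.a 4 b.1 := by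
  rw [Dat.Gs, ((hP.2.2.2.2.2.2.2.2.2.2.2.2.2 d.c H.dat.c100).1 g hg).2.2.2 _ h]
  simp

theorem G_cont : Continuous (d.Gs gt 0 4) := by
  have h1 := ((hP.2.2.2.2.2.2.2.2.2.2.2.2.2 d.c H.dat.c100).1 gt
    hP.2.2.2.2.2.2.2.2.2.1).1.continuous
  have h2 : Continuous (d.a 4) := (H.dat.sm 4).cont
  refine ((h1.comp continuous_snd).sub (h2.comp continuous_fst)).congr fun b => ?_
  simp [Dat.Gs]

theorem G_lt {b : T × ℝ} (h : 11 < |b.2|) : d.Gs gt 0 4 b < -1 := by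
  have h1 : gt (12 - |b.2|) < gt 1 :=
    strictMono_of_deriv_pos hP.2.2.2.2.2.2.2.2.2.2.1 (by linarith)
  rw [hP.2.2.2.2.2.2.2.2.2.2.2.1 1 (by norm_num), gam_in _ (by norm_num)] at h1
  rw [Gs_out hP H hP.2.2.2.2.2.2.2.2.2.1 (by linarith)]
  linarith [a_nonneg H 4 b.1]

theorem mem_LL {x : E2 × T × ℝ} (h : 11 < |x.2.2|) : x ∈ LL (d.Gs gt 0 4) :=
  out_of_lt _ (G_lt hP H h)

theorem G0_lt {b : T × ℝ} (h : |b.2| < 25 / 2) : d.G0 (-2) b < -(3 / 2) := by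
  have h1 : |tau b.2| ≤ 1 / 2 := by
    rcases le_total |b.2| (49 / 4) with h2 | h2
    · linarith [hP.2.2.2.2.2.2.2.1 _ h2]
    · linarith [hP.2.2.2.2.2.2.1 _ h2]
  rw [Dat.G0, gam_in _ (by linarith), ← sq_abs]
  nlinarith [a_nonneg H 0 b.1, abs_nonneg (tau b.2)]

theorem G1_lt {b : T × ℝ} (h : 113 / 10 < |b.2|) (h' : |b.2| < 25 / 2) :
    d.Gs (gam (-2)) 0 4 b < -(3 / 2) := by
  rw [Gs_out hP H (cd_gam _) (by linarith), gam_in _ (abs_le.2 ⟨by linarith, by linarith⟩)]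
  nlinarith [a_nonneg H 4 b.1]

theorem G_hot {b : T × ℝ} (h : Hot p b) : d.G0 (-2) b = d.Gs (gam (-2)) 0 4 b := by
  obtain ⟨z, s⟩ := b
  obtain ⟨h1, v, hv, rfl⟩ := h
  have hv := mem_ball_zero_iff.1 hv
  rw [Gs_out hP H (cd_gam _) (by linarith), Dat.G0, a_ball H _ hv, a_ball H _ hv]
  have h2 := hP.2.2.2.2.2.2.1 s h1.le
  rcases abs_choice (tau s) with h3 | h3
  · rw [show 12 - |s| = -tau s by linarith, gam_neg]
  · rw [show 12 - |s| = tau s by linarith]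

theorem II_mt {q q' : N.F × T × ℝ} (h : q ∈ N.Hyp (d.G0 (-2)))
    (h' : q' ∈ N.Hyp (d.Gs (gam (-2)) 0 4)) (m : N.Mt q q') : II N ε p q = II N ε p q' := by
  by_cases hq : Hot p q.2
  · rw [mt_uniq H.ok m (Eq.trans h (G_hot hP H hq)) h']
  · rw [II_cold hq, II_cold (m.1 ▸ hq), mt_pr m]

/-- the big patch on the outer part of the second hypersurface -/
theorem oe_out (ad : Adm (d.G0 (-2)) (d.Gs (gam (-2)) 0 4) (DD p) (QQ p))
    (oe : IsOpenEmbedding ((N.Pt (d.G0 (-2)) (DD p)).domRestrict (II N ε p))) :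
    IsOpenEmbedding ((N.Pt (d.Gs (gam (-2)) 0 4) (DD p) ∩ {q | 113 / 10 < |q.2.2|}).domRestrict
      (II N ε p)) := by
  have o : IsOpen {x : E2 × T × ℝ | 113 / 10 < |x.2.2|} := isOpen_lt continuous_const (by fun_prop)
  have ad' : Adm (d.Gs (gam (-2)) 0 4) (d.G0 (-2)) (DD p ∩ {x | 113 / 10 < |x.2.2|}) ∅ := by
    refine ⟨ad.op.inter o, isCompact_empty, empty_subset _, ad.c', ad.c, fun x hx _ => ?_⟩
    by_cases h : |x.2.2| < 25 / 2
    · exact Or.inr ⟨lt_abs.2 (Or.inr (by linarith [G1_lt hP H hx.1.2 h])),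
        lt_abs.2 (Or.inr (by linarith [G0_lt hP H h]))⟩
    · exact Or.inl (G_hot hP H ⟨by linarith, (hx.1.1.2.resolve_left h).1⟩).symm
  obtain ⟨κ, hκ⟩ := mv_adm H.ok ad'
  have e : ∀ Γ : T × ℝ → ℝ, N.Pt Γ (DD p) ∩ {q | 113 / 10 < |q.2.2|} =
      N.Pt Γ ((DD p ∩ {x | 113 / 10 < |x.2.2|}) \ ∅) := fun Γ => by
    rw [sdiff_empty, NF.Pt, inter_assoc]; rfl
  have h1 := oe_inter oe (O := {q | 113 / 10 < |q.2.2|}) (isOpen_lt continuous_const (by fun_prop))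
  rw [e] at h1 ⊢
  convert h1.comp κ.isOpenEmbedding using 1
  funext q
  exact (II_mt hP H (κ q).2.1 q.2.1 (mt_symm (hκ q))).symm

omit hP H in
theorem Q_cold {x : E2 × T × ℝ} (h : x ∈ QQ p) (hc : ¬Hot p x.2) : |x.2.2| < 25 / 2 := by
  rcases h.2 with h1 | h1
  · linarith
  · have : ¬49 / 4 < |x.2.2| := fun a => hc ⟨a, image_mono
      (Metric.closedBall_subset_ball (by norm_num)) h1.1⟩
    linarith [not_lt.1 this]

end TopP

open TopP Loc in
theorem topl (hP : ProfStmt) : TopStmt := by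
  classical
  intro N ε R C L T p d H ad oe
  have hN := H.ok
  obtain ⟨q₀, hq₀, -⟩ := exists_pt (Γ := d.Gs gt 0 4) hN (0, p 0, 12) (G_lt hP H (by norm_num))
  let y₀ : N.Hyp (d.Gs gt 0 4) := ⟨q₀, hq₀⟩
  let e : N.F × T × ℝ → N.Hyp (d.Gs gt 0 4) := fun q =>
    if h : q ∈ N.Hyp (d.Gs gt 0 4) ∧ |q.2.2| ≤ 57 / 5 then ⟨q, h.1⟩ else lift hN y₀ (II N ε p q)
  have cold : ∀ b : T × ℝ, |b.2| ≤ 49 / 4 → ¬Hot p b := fun b h a => not_lt.2 h a.1
  have e1 : ∀ q ∈ N.Hyp (d.Gs (gam (-2)) 0 4), |q.2.2| ≤ 57 / 5 → (e q).1 = q := fun q hq h => by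
    simp only [e]
    rw [dif_pos ⟨Eq.trans hq (G_eq h hP), h⟩]
  have e2 : ∀ q, 11 < |q.2.2| → e q = lift hN y₀ (II N ε p q) := fun q h => by
    simp only [e]
    split_ifs with h1
    · rw [II_cold (cold _ (by linarith [h1.2]))]
      exact (lift_pr hN y₀ ⟨q, h1.1⟩ (mem_LL hP H h)).symm
    · rfl
  have mL : ∀ q : N.F × T × ℝ, 11 < |q.2.2| → II N ε p q ∈ LL (d.Gs gt 0 4) := fun q h =>
    mem_LL hP H (II_abs (by norm_num) h)
  have e3 : ∀ q ∈ N.Hyp (d.Gs (gam (-2)) 0 4), N.pr (e q).1 = II N ε p q := fun q hq => by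
    rcases le_or_gt |q.2.2| (57 / 5) with h | h
    · rw [e1 q hq h, II_cold (cold _ (by linarith))]
    · rw [e2 q (by linarith), pr_lift hN y₀ (mL q (by linarith))]
  have hS : (II N ε p '' N.Pt (d.G0 (-2)) (QQ p))ᶜ ⊆ LL (d.Gs gt 0 4) := fun x hx => by
    by_contra h
    have h1 : |x.2.2| ≤ 11 := not_lt.1 fun a => h (mem_LL hP H a)
    obtain ⟨q, hq, rfl⟩ := exists_pt (Γ := d.G0 (-2)) hN x
      (by linarith [G0_lt hP H (b := x.2) (by linarith)])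
    exact hx ⟨q, ⟨hq, (not_out.1 h).1, Or.inl (by linarith)⟩,
      II_cold (cold _ (le_trans h1 (by norm_num)))⟩
  obtain ⟨h, hs, ht, hh⟩ := exists_h hN (G_cont hP H) y₀
    (closed_img hN ad.c oe ad.cp ad.sub).isOpen_compl hS
  obtain ⟨k, ks, -, hk⟩ := exists_h hN (G_cont hP H) y₀ (S := {x | 11 < |x.2.2|})
    (isOpen_lt continuous_const (by fun_prop)) fun x hx => mem_LL hP H hx
  have oe2 := oe_out hP H ad oe
  have ek : ∀ q, 11 < |q.2.2| → II N ε p q ∈ k.source ∧ e q = k (II N ε p q) := fun q h =>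
    ⟨ks ▸ II_abs (by norm_num) h, by rw [hk, e2 q h]⟩
  refine ⟨e, h, ⟨ad, oe, oe_of ?_ ?_ fun O hO => ?_, hs, ?_, fun q hq q' hq' m => ?_⟩,
    fun x hx => by rw [hh, pr_lift hN y₀ (hS (hs ▸ hx))], fun σ q hq => ?_⟩
  · have mix : ∀ q ∈ N.Hyp (d.Gs (gam (-2)) 0 4), ∀ q' ∈ N.Hyp (d.Gs (gam (-2)) 0 4),
        |q.2.2| ≤ 57 / 5 → 57 / 5 < |q'.2.2| → e q ≠ e q' := fun q hq q' hq' a b c => by
      have h1 := II_abs (ε := ε) (p := p) (by norm_num) b
      rw [← e3 q' hq', ← c, e1 q hq a] at h1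
      exact not_lt.2 a h1
    intro q hq q' hq' c
    rcases le_or_gt |q.2.2| (57 / 5) with a | a <;> rcases le_or_gt |q'.2.2| (57 / 5) with b | b
    · rw [← e1 q hq.1 a, c, e1 q' hq'.1 b]
    · exact absurd c (mix q hq.1 q' hq'.1 a b)
    · exact absurd c.symm (mix q' hq'.1 q hq.1 b a)
    · refine oe_inj oe2 ⟨hq, lt_trans (by norm_num) a⟩ ⟨hq', lt_trans (by norm_num) b⟩ ?_
      rw [← e3 q hq.1, c, e3 q' hq'.1]
  · intro q hq
    rcases lt_or_ge |q.2.2| (57 / 5) with a | a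
    · have o : IsOpen {q : N.F × T × ℝ | |q.2.2| < 57 / 5} :=
        isOpen_lt (by fun_prop) continuous_const
      refine (continuousWithinAt_inter (o.mem_nhds a)).1 ((IsInducing.subtypeVal.continuousOn_iff.2
        (continuousOn_id.congr fun z hz => e1 z hz.1.1 (le_of_lt hz.2))) q ⟨hq, a⟩)
    · have o : IsOpen {q : N.F × T × ℝ | 113 / 10 < |q.2.2|} :=
        isOpen_lt continuous_const (by fun_prop)
      have b : 113 / 10 < |q.2.2| := by linarith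
      refine (continuousWithinAt_inter (o.mem_nhds b)).1 (((k.continuousOn.comp (oe_cont oe2)
        fun z hz => (ek z (lt_trans (by norm_num) hz.2)).1).congr
        fun z hz => (ek z (lt_trans (by norm_num) hz.2)).2) q ⟨hq, b⟩)
  · have o1 : IsOpen {y : N.Hyp (d.Gs gt 0 4) | N.pr y.1 ∈ DD p ∧ |y.1.2.2| < 57 / 5 ∧ y.1 ∈ O} :=
      (ad.op.preimage ((cont_pr hN).comp continuous_subtype_val)).inter
        ((isOpen_lt continuous_subtype_val.snd.snd.abs continuous_const).inter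
          (hO.preimage continuous_subtype_val))
    have o2 := k.isOpen_image_of_subset_source (oe_open oe2 hO) (by
      rintro _ ⟨z, hz, rfl⟩
      exact (ek z (lt_trans (by norm_num) hz.1.2)).1)
    convert o1.union o2 using 1
    ext y
    constructor
    · rintro ⟨q, hq, rfl⟩
      rcases lt_or_ge |q.2.2| (57 / 5) with a | a
      · refine Or.inl ?_
        rw [mem_ofPred_eq, e1 q hq.1.1 a.le]
        exact ⟨hq.1.2, a, hq.2⟩
      · exact Or.inr ⟨_, ⟨q, ⟨⟨hq.1, show 113 / 10 < |q.2.2| by linarith⟩, hq.2⟩, rfl⟩,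
          (ek q (by linarith)).2.symm⟩
    · rintro (⟨a, b, c⟩ | ⟨_, ⟨q, hq, rfl⟩, rfl⟩)
      · have h1 : y.1 ∈ N.Hyp (d.Gs (gam (-2)) 0 4) := Eq.trans y.2 (G_eq b.le hP).symm
        exact ⟨y.1, ⟨⟨h1, a⟩, c⟩, Subtype.ext (e1 _ h1 b.le)⟩
      · exact ⟨q, ⟨hq.1.1, hq.2⟩, (ek q (lt_trans (by norm_num) hq.1.2)).2⟩
  · rw [ht]
    ext y
    refine not_congr ⟨?_, ?_⟩
    · rintro ⟨q, hq, c⟩
      by_cases a : Hot p q.2
      · have b : 11 < |q.2.2| := lt_trans (by norm_num) a.1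
        exact ⟨q, ⟨Eq.trans hq.1 (G_hot hP H a), hq.2⟩, by
          rw [e2 q b, c, lift_pr hN y₀ y (c ▸ mL q b)]⟩
      · rw [II_cold a] at c
        have hQ : N.pr y.1 ∈ QQ p := c ▸ hq.2
        have a' : ¬Hot p y.1.2 := (Prod.ext_iff.1 c).2 ▸ a
        rcases le_or_gt |y.1.2.2| (57 / 5) with b | b
        · have h1 : y.1 ∈ N.Hyp (d.Gs (gam (-2)) 0 4) := Eq.trans y.2 (G_eq b hP).symm
          exact ⟨y.1, ⟨h1, hQ⟩, Subtype.ext (e1 _ h1 b)⟩
        · obtain ⟨q', hq', c'⟩ := exists_pt (Γ := d.Gs (gam (-2)) 0 4) hN (N.pr y.1)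
            (by linarith [G1_lt hP H (b := (N.pr y.1).2) (lt_trans (by norm_num) b) (Q_cold hQ a')])
          have s : q'.2 = y.1.2 := (Prod.ext_iff.1 c').2
          refine ⟨q', ⟨hq', show N.pr q' ∈ QQ p from c' ▸ hQ⟩, ?_⟩
          rw [e2 q' (s ▸ lt_trans (by norm_num) b), II_cold (s ▸ a'), c',
            lift_pr hN y₀ y (mem_LL hP H (lt_trans (by norm_num) b))]
    · rintro ⟨q, hq, rfl⟩
      rw [e3 q hq.1]
      by_cases a : Hot p q.2
      · exact ⟨q, ⟨Eq.trans hq.1 (G_hot hP H a).symm, hq.2⟩, rfl⟩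
      · obtain ⟨q', hq', c'⟩ := exists_pt (Γ := d.G0 (-2)) hN (N.pr q)
          (by linarith [G0_lt hP H (b := (N.pr q).2) (Q_cold hq.2 a)])
        have s : q'.2 = q.2 := (Prod.ext_iff.1 c').2
        exact ⟨q', ⟨hq', show N.pr q' ∈ QQ p from c' ▸ hq.2⟩, by
          rw [II_cold (s ▸ a), II_cold a, c']⟩
  · have h1 : II N ε p q = N.pr (e q').1 := by rw [e3 q' hq', II_mt hP H hq.1 hq' m]
    have h2 := hS ((not_img oe ad.sub (pt_mono sdiff_subset hq)).2 hq.2.2)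
    rw [hh, h1, lift_pr hN y₀ _ (h1 ▸ h2)]
  · obtain ⟨m, v, y⟩ := q
    obtain ⟨hf, hw, hv, hy⟩ : N.f m = gam (-2) y - ‖v‖ ^ 2 ∧ ‖N.w m‖ < 5 ∧ ‖v‖ < 5 ∧ |y| < 5 := hq
    obtain ⟨y1, y2⟩ := abs_lt.1 hy
    set u : ℝ := if σ then -1 else 1 with hu
    have u2 : u * u = 1 := by cases σ <;> simp [hu]
    have as : |u * (12 - y)| = 12 - y := by
      have : (0 : ℝ) ≤ 12 - y := by linarith
      cases σ <;> simp [hu, abs_of_nonneg this, abs_sub_comm y]
    have us : (if 0 < u * (12 - y) then (1 : ℝ) else -1) = u := by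
      cases σ
      · rw [if_pos (by simp [hu]; linarith)]; simp [hu]
      · rw [if_neg (by simp [hu]; linarith)]; simp [hu]
    have nr : (m, v) ∈ N.NR := by
      have a := le_gam (t := -2) (by norm_num) y
      have b := gam_le (t := -2) (by norm_num) y
      refine ⟨hw, hv, ?_, ?_⟩ <;> simp only [NF.g, hf] <;> nlinarith
    have gs : ∀ (x : E2) (s : ℝ), ‖x‖ < R → 6 ≤ |s| →
        d.Gs gt 0 4 (p x, s) = gt (12 - |s|) - ‖x‖ ^ 2 := fun x s a b => by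
      rw [Gs_out hP H hP.2.2.2.2.2.2.2.2.2.1 b, (H.dat.quad 4 x a.le).1]
    show (e (m, p v, u * (12 - y))).1.1 = _ ∧ (e (m, p v, u * (12 - y))).1.2.1 = _ ∧
      0 ≤ u * (e (m, p v, u * (12 - y))).1.2.2
    have hot : Hot p (p v, u * (12 - y)) → II N ε p (m, p v, u * (12 - y)) = Up p u (ε (m, v)) :=
      fun a => by rw [II_hot a]; simp only [us, inv_p H hv]
    unfold NF.io
    split_ifs with c1 c2
    · rw [e1 _ (by
        show N.f m = _
        rw [Gs_out hP H (cd_gam _) (by rw [as]; linarith), as, a_ball H _ hv, hf]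
        simp) (by rw [as]; linarith)]
      exact ⟨rfl, rfl, by rw [← mul_assoc, u2]; linarith⟩
    · have c1 : y < 3 / 5 := not_le.1 c1
      have c2 : -(3 / 5) ≤ y := c2
      have b : 11 < |u * (12 - y)| := by rw [as]; linarith
      have i : II N ε p (m, p v, u * (12 - y)) = (N.w m, p v, u * (12 - y)) := by
        by_cases a : Hot p (p v, u * (12 - y))
        · have a1 : 49 / 4 < 12 - y := as ▸ a.1
          have g : gam (-2) y = y ^ 2 + -2 := gam_in _ (abs_le.2 ⟨by linarith, by linarith⟩)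
          rw [hot a, H.emb.std _ nr (by simp only [NF.g, hf, g]; nlinarith)]
          have : G5 (N.pj m, v) + 2 = (-y) ^ 2 := by simp only [G5, NF.pj, hf, g]; ring
          simp only [Up, this, Real.sqrt_sq (show 0 ≤ -y by linarith)]
          rfl
        · exact II_cold a
      rw [e2 _ b, i, lift_val hN y₀ (mem_LL hP H b), gs v _ (by linarith [H.emb.big]) (by linarith),
        as, sub_sub_cancel]
      exact ⟨rfl, rfl, by rw [← mul_assoc, u2]; linarith⟩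
    · have c2 : y < -(3 / 5) := not_le.1 c2
      have a : Hot p (p v, u * (12 - y)) :=
        ⟨by rw [as]; linarith, v, mem_ball_zero_iff.2 hv, rfl⟩
      have b : 11 < |u * (12 - y)| := by rw [as]; linarith
      have r := Real.sqrt_nonneg (G5 (ε (m, v)) + 2)
      have au : |u * (12 + √(G5 (ε (m, v)) + 2))| = 12 + √(G5 (ε (m, v)) + 2) := by
        rw [← us, abs_up]
      rw [e2 _ b, lift_val hN y₀ (mL _ b), hot a, Up, gs _ _ (H.emb.bdd _ nr).2.1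
        (by rw [au]; linarith), au, sub_add_cancel_left]
      exact ⟨rfl, rfl, by rw [← mul_assoc, u2]; linarith⟩

end Pool.Agent.MP_e1dc65_gt.T

end
end MrgPart3

-- ======== part 4: formerly Pool.Agent.MP_e1dc65_gt.t.AReg
section MrgPart4

/-! PROJECT HC, block A, row REG: regularity of the stage functions and the three moves. -/

open scoped ContDiff Manifold Topology Real
open Set Filter Function Metric

noncomputable section

namespace Pool.Agent.MP_e1dc65_gt.T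

namespace ARegP

open Loc PROF

variable {T : Mf (Rn 2)} {p : E2 → T} {d : Dat T} {R C L : ℝ}

/-! ### Derivatives -/

theorem shape {A B : ℝ → ℝ} {a χ : T → ℝ} (hA : ContDiff ℝ ∞ A) (hB : ContDiff ℝ ∞ B)
    (ha : Sm T (vs ℝ) a univ) (hχ : Sm T (vs ℝ) χ univ) (b : T.cyl) :
    SmAt T.cyl (vs ℝ) (fun b => A b.2 - a b.1 + B b.2 * χ b.1) b ∧ ∀ u r,
      Df T.cyl (vs ℝ) (fun b => A b.2 - a b.1 + B b.2 * χ b.1) b (u, r) =
        r * (deriv A b.2 + deriv B b.2 * χ b.1) - Df T (vs ℝ) a b.1 u +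
          B b.2 * Df T (vs ℝ) χ b.1 u := by
  have s2 : SmAt T.cyl (vs ℝ) Prod.snd b := smAt_snd (Y := vs ℝ)
  have s1 : SmAt T.cyl T Prod.fst b := smAt_fst
  have a1 := s1.trans (ha _ trivial)
  have c1 := s1.trans (hχ _ trivial)
  have A1 := s2.vcomp hA.contDiffAt
  have B1 := s2.vcomp hB.contDiffAt
  have m1 : SmAt T.cyl (vs ℝ) (fun _ => (-1 : ℝ)) b := smAt_const (Y := vs ℝ) _
  refine ⟨(A1.vsub a1).vadd (B1.vmul c1), fun u r => ?_⟩
  have e : (fun b : T.cyl => A b.2 - a b.1 + B b.2 * χ b.1) =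
      fun b => A b.2 + (-1 : ℝ) • a b.1 + B b.2 • χ b.1 := funext fun b => by simp [sub_eq_add_neg]
  rw [e, Df_vadd (A1.vadd (m1.vsmul a1)) (B1.vsmul c1), Df_vadd A1 (m1.vsmul a1),
    add_apply, add_apply, Df_vsmul m1 a1, Df_vsmul B1 c1,
    Df_comp s1 (ha _ trivial), Df_comp s1 (hχ _ trivial), Df_vcomp s2 hA.contDiffAt,
    Df_vcomp s2 hB.contDiffAt, Df_const (Y := vs ℝ), Df_fst, Df_snd (Y := vs ℝ)]
  simp only [ContinuousLinearMap.comp_apply, fderiv_eq_smul_deriv, smul_eq_mul,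
    ContinuousLinearMap.coe_fst', ContinuousLinearMap.coe_snd', zero_apply]
  ring

theorem G0_df (h : d.Ok p R C L) (t : ℝ) (b : T.cyl) : SmAt T.cyl (vs ℝ) (d.G0 t) b ∧ ∀ u r,
    Df T.cyl (vs ℝ) (d.G0 t) b (u, r) =
      r * (deriv (gam t) (tau b.2) * deriv tau b.2) - Df T (vs ℝ) (d.a 0) b.1 u := by
  have e : d.G0 t = fun b : T.cyl => (gam t ∘ tau) b.2 - d.a 0 b.1 + (fun _ => 0) b.2 * d.χ b.1 :=
    funext fun b => by simp [Dat.G0]
  obtain ⟨h1, h2⟩ := shape (B := fun _ => 0) ((cd_gam t).comp cd_tau) contDiff_const (h.sm 0) h.smχ b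
  rw [e]
  refine ⟨h1, fun u r => (h2 u r).trans ?_⟩
  rw [deriv_comp _ ((cd_gam t).differentiable (by simp) _) (cd_tau.differentiable (by simp) _)]
  simp

theorem Gs_df (h : d.Ok p R C L) (t k : ℝ) (n : Fin 5) (b : T.cyl) :
    SmAt T.cyl (vs ℝ) (d.Gs (gam t) k n) b ∧ ∀ u r,
      Df T.cyl (vs ℝ) (d.Gs (gam t) k n) b (u, r) =
        r * (deriv (Cc d.c (gam t)) b.2 + k * deriv bet b.2 * d.χ b.1) -
          Df T (vs ℝ) (d.a n) b.1 u + k * bet b.2 * Df T (vs ℝ) d.χ b.1 u := by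
  obtain ⟨h1, h2⟩ := shape (B := fun s => k * bet s) (cd_Cc (c := d.c) (cd_gam t))
    (contDiff_const.mul cd_bet) (h.sm n) h.smχ b
  exact ⟨h1, fun u r => (h2 u r).trans (by rw [deriv_const_mul_field])⟩

theorem bet_d (s : ℝ) : s * deriv bet s ≤ 0 := by
  have h1 : HasDerivAt (fun y : ℝ => (9 - y ^ 2) / 5) (-(2 * s) / 5) s := by
    simpa using (((hasDerivAt_id s).fun_pow 2).const_sub 9).div_const 5
  have h2 : deriv bet s = _ := ((hd ((9 - s ^ 2) / 5)).comp s h1).deriv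
  rw [h2]
  nlinarith [mul_nonneg (d0 ((9 - s ^ 2) / 5)) (sq_nonneg s)]

theorem bet_d0 {s : ℝ} (h : 3 < |s|) : deriv bet s = 0 := by
  have : bet =ᶠ[𝓝 s] fun _ => 0 :=
    (continuous_abs.continuousAt.eventually_const_lt h).mono fun y hy => bet_zero hy.le
  rw [this.deriv_eq, deriv_const]

/-- the profile of the later stages -/
theorem cc (h : d.Ok p R C L) {t : ℝ} (ht : t = 2 ∨ t = -2) (s : ℝ) :
    (0 < |s| → |s| < 12 → s * deriv (Cc d.c (gam t)) s < 0) ∧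
      (12 < |s| → 0 < s * deriv (Cc d.c (gam t)) s) ∧ t ≤ Cc d.c (gam t) s ∧
      (|s| < 17 → Cc d.c (gam t) s ≤ d.c - min (s ^ 2) 25) :=
  (prof.2.2.2.2.2.2.2.2.2.2.2.2.2 d.c h.c100).2.1 t ht s

theorem inner_d (h : d.Ok p R C L) {t k s : ℝ} (ht : t = 2 ∨ t = -2) (hk : 0 ≤ k) (z : T)
    (h0 : s ≠ 0) (h1 : |s| < 12) :
    s * (deriv (Cc d.c (gam t)) s + k * deriv bet s * d.χ z) < 0 := by
  have a := (cc h ht s).1 (abs_pos.2 h0) h1
  have b := mul_nonpos_of_nonneg_of_nonpos (mul_nonneg hk (h.χ01 z).1) (bet_d s)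
  nlinarith

/-! ### The functions on the torus -/

theorem a_nonneg (h : d.Ok p R C L) (hR : 27 ≤ R) (n : Fin 5) (z : T) : 0 ≤ d.a n z := by
  by_contra H
  obtain ⟨v, h1, rfl⟩ := h.big n z 0 le_rfl (by linarith) (by linarith)
  exact H ((h.quad n v (by linarith)).1 ▸ sq_nonneg _)

theorem a_16 (h : d.Ok p R C L) (hR : 27 ≤ R) (n : Fin 5) {z : T} (hz : z ∉ p '' closedBall 0 4) :
    16 < d.a n z := by
  by_contra H
  obtain ⟨v, h1, rfl⟩ := h.big n z 4 (by norm_num) (by linarith) (by linarith)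
  exact hz ⟨v, mem_closedBall_zero_iff.2 h1, rfl⟩

theorem a_eq (h : d.Ok p R C L) (hR : 27 ≤ R) (n m : Fin 5) (z : T) :
    d.a n z = d.a m z ∨ (729 < d.a n z ∧ 729 < d.a m z) := by
  have k : ∀ i, d.a i z ≤ 729 → d.a n z = d.a m z := fun i hi => by
    obtain ⟨v, h1, rfl⟩ := h.big i z 27 (by norm_num) hR (by linarith)
    rw [(h.quad n v (h1.trans hR)).1, (h.quad m v (h1.trans hR)).1]
  by_contra H
  obtain ⟨h1, h2⟩ := not_or.1 H
  exact h2 ⟨not_le.1 fun a => h1 (k n a), not_le.1 fun a => h1 (k m a)⟩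

theorem low (h : d.Ok p R C L) (hR : 27 ≤ R) {n : Fin 5} {z : T} (h1 : 0 < d.a n z)
    (h2 : d.a n z < 729) : 0 < Df T (vs ℝ) (d.a n) z (d.W z) := by
  obtain H | ⟨H, -⟩ := h.crit z
  · exact H n
  · obtain a | a := (H n).1 <;> nlinarith

/-! ### Regularity -/

theorem v_le {N : NF} (h : N.Ok) : |N.v₁| ≤ 1 ∧ |N.v₂| ≤ 1 := by
  have d1 : (0 : ℝ × E2) ∈ N.D₁ := by simpa [NF.D₁] using pow_pos h.δpos 2
  have d2 : (0 : E2 × ℝ) ∈ N.D₂ := by simpa [NF.D₂] using pow_pos h.δpos 2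
  refine ⟨not_lt.1 fun H => ?_, not_lt.1 fun H => ?_⟩
  · have a := h.unit (N.c₁ 0 0) (by simpa [h.f₁ 0 0 d1] using H)
    rw [← h.ξ₁ 0 0 d1, show ((-(0 : ℝ × E2).1, (0 : ℝ × E2).2) : ℝ × E2) = 0 by simp, map_zero,
      map_zero] at a
    exact zero_ne_one a
  · have a := h.unit (N.c₂ 0 0) (by simpa [h.f₂ 0 0 d2] using H)
    rw [← h.ξ₂ 0 0 d2, show ((-(0 : E2 × ℝ).1, (0 : E2 × ℝ).2) : E2 × ℝ) = 0 by simp, map_zero,
      map_zero] at a
    exact zero_ne_one a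

theorem reg0 (h : d.Ok p R C L) (hR : 27 ≤ R) {t : ℝ} (ht : t = 2 ∨ t = -2) {b : T.cyl}
    (hb : |d.G0 t b| ≤ 1) : Df T.cyl (vs ℝ) (d.G0 t) b ≠ 0 := fun e => by
  have D := (G0_df h t b).2
  simp only [e, zero_apply] at D
  by_cases h0 : tau b.2 = 0
  · have a := a_nonneg h hR 0 b.1
    rw [Dat.G0, h0, gam_zero, abs_le] at hb
    have := D (d.W b.1) 0
    obtain rfl | rfl := ht
    · linarith [low h hR (n := 0) (z := b.1) (by linarith) (by linarith)]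
    · linarith
  · have a := mul_pos (mul_deriv_pos (t := t) (by obtain rfl | rfl := ht <;> norm_num) h0)
      (d_tau b.2)
    have := D 0 (tau b.2)
    rw [map_zero] at this
    linarith

theorem regs (h : d.Ok p R C L) (hR : 27 ≤ R) {t k : ℝ} {n : Fin 5} (ht : t = 2 ∨ t = -2)
    (hk : k = 0 ∨ k = 4 ∧ n = 3) {b : T.cyl} (hb : |d.Gs (gam t) k n b| ≤ 1) :
    Df T.cyl (vs ℝ) (d.Gs (gam t) k n) b ≠ 0 := fun e => by
  have D := (Gs_df h t k n b).2
  simp only [e, zero_apply] at D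
  have k0 : 0 ≤ k := by obtain rfl | ⟨rfl, -⟩ := hk <;> norm_num
  have D1 := D 0 b.2
  have D2 := D (d.W b.1) 0
  simp only [map_zero, sub_zero, mul_zero, add_zero] at D1
  rw [Dat.Gs, abs_le] at hb
  by_cases h0 : b.2 = 0
  · rw [h0, Cc_in (by norm_num), bet_one (by norm_num)] at hb
    obtain rfl | ⟨rfl, rfl⟩ := hk
    · obtain H | ⟨H, -⟩ := h.crit b.1
      · linarith [H n]
      · obtain a | a := (H n).2 <;> linarith [hb.1, hb.2]
    · linarith [h.fill b.1, hb.2]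
  rcases lt_trichotomy |b.2| 12 with h1 | h1 | h1
  · linarith [inner_d h ht k0 b.1 h0 h1]
  · rw [bet_zero (by linarith)] at D2 hb
    rw [Cc_out (by linarith), h1, sub_self, gam_zero] at hb
    have a := a_nonneg h hR n b.1
    obtain rfl | rfl := ht
    · linarith [low h hR (n := n) (z := b.1) (by linarith [hb.2]) (by linarith [hb.1])]
    · linarith [hb.1]
  · rw [bet_d0 (by linarith)] at D1
    linarith [(cc h ht b.2).2.1 h1]

theorem stage_cases (d : Dat T) (n : Fin 9) : ∃ t, (t = 2 ∨ t = -2) ∧ (d.stage n = d.G0 t ∨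
    ∃ k m, (k = 0 ∨ k = 4 ∧ m = 3) ∧ d.stage n = d.Gs (gam t) k m) := by
  fin_cases n
  exacts [⟨_, .inr rfl, .inl rfl⟩, ⟨_, .inl rfl, .inl rfl⟩,
    ⟨_, .inl rfl, .inr ⟨_, _, .inl rfl, rfl⟩⟩, ⟨_, .inl rfl, .inr ⟨_, _, .inl rfl, rfl⟩⟩,
    ⟨_, .inl rfl, .inr ⟨_, _, .inl rfl, rfl⟩⟩, ⟨_, .inl rfl, .inr ⟨_, _, .inl rfl, rfl⟩⟩,
    ⟨_, .inl rfl, .inr ⟨_, _, .inr ⟨rfl, rfl⟩, rfl⟩⟩, ⟨_, .inl rfl, .inr ⟨_, _, .inl rfl, rfl⟩⟩,
    ⟨_, .inr rfl, .inr ⟨_, _, .inl rfl, rfl⟩⟩]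

theorem sm_stage (h : d.Ok p R C L) (n : Fin 9) : Sm T.cyl (vs ℝ) (d.stage n) univ := by
  obtain ⟨t, -, e | ⟨k, m, -, e⟩⟩ := stage_cases d n <;> rw [e]
  exacts [fun b _ => (G0_df h t b).1, fun b _ => (Gs_df h t k m b).1]

theorem reg {N : NF} (hN : N.Ok) (h : d.Ok p R C L) (hR : 27 ≤ R) (n : Fin 9)
    (D : Set (E2 × T.cyl)) : Reg N T.cyl (d.stage n) D := by
  refine ⟨sm_stage h n, fun q _ hq => ?_⟩
  have : |d.stage n q.2| ≤ 1 := hq.elim (· ▸ (v_le hN).1) (· ▸ (v_le hN).2)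
  obtain ⟨t, ht, e | ⟨k, m, hk, e⟩⟩ := stage_cases d n <;> rw [e] at this ⊢
  exacts [reg0 h hR ht this, regs h hR ht hk this]

/-! ### The sets -/

theorem open_DD (h : Tor T p L) : IsOpen (DD p) := by
  have o : IsOpen (p '' ball 0 5) := isOpen_image_ld (X := vs E2) isOpen_ball fun z _ => h.ld z
  exact (isOpen_lt continuous_fst.norm continuous_const).inter
    ((isOpen_lt continuous_snd.snd.abs continuous_const).union
      ((o.preimage continuous_snd.fst).inter (isOpen_lt continuous_snd.snd.abs continuous_const)))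

theorem cpt_S (h : Tor T p L) (r : ℝ) : IsCompact {b : T × ℝ | |b.2| ≤ r} := by
  have := h.cpt
  convert (isCompact_univ (X := T)).prod (isCompact_closedBall (0 : ℝ) r) using 1
  ext b; simp

theorem cpt_QQ (h : Tor T p L) : IsCompact (QQ p) := by
  have c : IsClosed (p '' closedBall 0 4) :=
    ((isCompact_closedBall 0 4).image h.cov.continuous).isClosed
  refine ((isCompact_closedBall (0 : E2) 1).prod (cpt_S h 15)).of_isClosed_subset
    ((isClosed_le continuous_fst.norm continuous_const).inter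
      ((isClosed_le continuous_snd.snd.abs continuous_const).union
        ((c.preimage continuous_snd.fst).inter
          (isClosed_le continuous_snd.snd.abs continuous_const)))) fun q hq => ?_
  exact ⟨mem_closedBall_zero_iff.2 hq.1, hq.2.elim (·.trans (by norm_num)) (·.2)⟩

theorem QQ_sub : QQ p ⊆ DD p := fun _ hq =>
  ⟨hq.1.trans_lt (by norm_num), hq.2.imp (·.trans_lt (by norm_num)) fun a =>
    ⟨image_mono (closedBall_subset_ball (by norm_num)) a.1, a.2.trans_lt (by norm_num)⟩⟩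

theorem DD_lt {q : E2 × T × ℝ} (hq : q ∈ DD p) : |q.2.2| < 17 :=
  hq.2.elim (·.trans (by norm_num)) (·.2)

theorem Gs_out (d : Dat T) (t k : ℝ) (n : Fin 5) {b : T × ℝ} (h : 6 ≤ |b.2|) :
    d.Gs (gam t) k n b = gam t (12 - |b.2|) - d.a n b.1 := by
  rw [Dat.Gs, Cc_out h, bet_zero (by linarith), mul_zero, zero_mul, add_zero]

/-- the stages beyond `|s| = 12` -/
theorem outer (d : Dat T) (n : Fin 9) {b : T × ℝ} (h : 12 < |b.2|) : ∃ t y m, t ≤ 2 ∧
    d.stage n b = gam t y - d.a m b.1 ∧ (|b.2| ≤ 15 → |y| ≤ 3) ∧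
      (49 / 4 ≤ |b.2| → |y| = |b.2| - 12) := by
  obtain ⟨t, ht, H⟩ := stage_cases d n
  have t2 : t ≤ 2 := by obtain rfl | rfl := ht <;> norm_num
  obtain e | ⟨k, m, -, e⟩ := H
  · refine ⟨t, tau b.2, 0, t2, e ▸ rfl, fun a => ?_, tau_out⟩
    rcases le_total |b.2| (49 / 4) with c | c
    · linarith [tau_in c]
    · linarith [tau_out c]
  · have : abs (12 - |b.2|) = |b.2| - 12 := by rw [abs_sub_comm, abs_of_nonneg (by linarith)]
    exact ⟨t, _, m, t2, e ▸ Gs_out d t k m (by linarith), fun a => by linarith, fun _ => this⟩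

theorem adm (hT : Tor T p L) (h : d.Ok p R C L) (hR : 27 ≤ R) (n n' : Fin 9) :
    Adm (d.stage n) (d.stage n') (DD p) (QQ p) := by
  refine ⟨open_DD hT, cpt_QQ hT, QQ_sub, (sm_stage h n).cont, (sm_stage h n').cont,
    fun q hq h1 => ?_⟩
  obtain ⟨h2, h3⟩ := not_or.1 fun a => hq.2 ⟨h1, a⟩
  obtain ⟨t, y, m, a1, a2, a3, a4⟩ := outer d n (not_le.1 h2)
  obtain ⟨t', y', m', b1, b2, b3, b4⟩ := outer d n' (not_le.1 h2)
  rw [a2, b2]
  by_cases h4 : |q.2.2| ≤ 15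
  · have k : ∀ t y m, t ≤ 2 → |y| ≤ 3 → 3 / 2 < |gam t y - d.a m q.2.1| := fun t y m c1 c2 => by
      have := a_16 h hR m fun a => h3 ⟨a, h4⟩
      have := gam_le c1 y
      exact lt_abs.2 (.inr (by nlinarith [sq_abs y, abs_nonneg y]))
    exact .inr ⟨k t y m a1 (a3 h4), k t' y' m' b1 (b3 h4)⟩
  · have h5 := not_le.1 h4
    obtain ⟨v, hv, e⟩ := (hq.1.2.resolve_left (by linarith)).1
    have hv' : ‖v‖ ≤ R := by linarith [mem_ball_zero_iff.1 hv]
    have c := a4 (by linarith)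
    have c' := b4 (by linarith)
    left
    rw [← e, (h.quad m v hv').1, (h.quad m' v hv').1, gam_out t (by linarith),
      gam_out t' (by linarith), ← sq_abs y, ← sq_abs y', c, c']

/-! ### The moves -/

theorem move {N : NF} (hN : N.Ok) (hT : Tor T p L) (h : d.Ok p R C L) (n n' : Fin 9) {r : ℝ}
    (j k : ℝ) (hr : r < 25 / 2)
    (off : ∀ b : T × ℝ, r < |b.2| → |b.2| < 17 → d.stage n b = d.stage n' b ∨
      (d.stage n b < -(3 / 2) ∧ d.stage n' b < -(3 / 2)))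
    (ins : ∀ b : T.cyl, |b.2| ≤ r → ∀ t ∈ Icc (0 : ℝ) 1,
      |(1 - t) * d.stage n b + t * d.stage n' b| ≤ 3 / 2 →
      0 < (1 - t) * Df T.cyl (vs ℝ) (d.stage n) b (j • d.W b.1, k * b.2) +
        t * Df T.cyl (vs ℝ) (d.stage n') b (j • d.W b.1, k * b.2)) :
    ∃ Q, IsCompact Q ∧ QQ p ⊆ Q ∧ Q ⊆ DD p ∧ Mv N (d.stage n) (d.stage n') (DD p) Q := by
  have sub : ∀ x (b : T × ℝ), ‖x‖ ≤ 2 → |b.2| ≤ r → (x, b) ∈ DD p := fun x b h1 h2 =>
    ⟨h1.trans_lt (by norm_num), .inl (h2.trans_lt hr)⟩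
  obtain ⟨κ, hκ⟩ := iso N _ T.cyl (d.stage n) (d.stage n') (fun b => (j • d.W b.1, k * b.2))
    {b | |b.2| ≤ r} (DD p) hN (open_DD hT) (cpt_S hT r) (sm_stage h n) (sm_stage h n')
    (fun b => ((h.vf b.1).const_smul j).prod (Y := vs ℝ) (u := fun s => k * s)
      (vfAt_vs.2 (by fun_prop))) sub
    (fun q hq hs => (off q.2 (not_le.1 hs) (DD_lt hq)).imp_right .inr) ins
  exact ⟨QQ p ∪ closedBall 0 2 ×ˢ {b : T × ℝ | |b.2| ≤ r},
    (cpt_QQ hT).union ((isCompact_closedBall 0 2).prod (cpt_S hT r)), subset_union_left,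
    union_subset QQ_sub fun q hq => sub q.1 q.2 (mem_closedBall_zero_iff.1 hq.1) hq.2,
    κ, fun q hq => hκ q fun a => hq (.inr a)⟩

theorem off7 (h : d.Ok p R C L) (hR : 27 ≤ R) (k k' : ℝ) (n n' : Fin 5) (b : T × ℝ)
    (h1 : 7 < |b.2|) (h2 : |b.2| < 17) : d.Gs (gam 2) k n b = d.Gs (gam 2) k' n' b ∨
      (d.Gs (gam 2) k n b < -(3 / 2) ∧ d.Gs (gam 2) k' n' b < -(3 / 2)) := by
  rw [Gs_out d 2 k n (by linarith), Gs_out d 2 k' n' (by linarith), gam_two]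
  refine (a_eq h hR n n' b.1).imp (fun e => by rw [e]) fun a => ?_
  constructor <;> nlinarith [a.1, a.2]

theorem conv {t x y : ℝ} (ht : t ∈ Icc (0 : ℝ) 1) (hx : 0 < x) (hy : 0 < y) :
    0 < (1 - t) * x + t * y := by
  rcases le_total x y with h | h <;> nlinarith [ht.1, ht.2]

theorem conv_le {t x y c : ℝ} (ht : t ∈ Icc (0 : ℝ) 1) (hx : c ≤ x) (hy : c ≤ y) :
    c ≤ (1 - t) * x + t * y := by nlinarith [ht.1, ht.2]

theorem conv_ge {t x y c : ℝ} (ht : t ∈ Icc (0 : ℝ) 1) (hx : x ≤ c) (hy : y ≤ c) :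
    (1 - t) * x + t * y ≤ c := by nlinarith [ht.1, ht.2]

end ARegP

open ARegP Loc PROF in
theorem areg : ARegStmt := by
  intro N ε R C L T p d H
  have h := H.dat
  have hR := H.emb.big
  refine ⟨⟨(!₂[2, 0], p 0, 0), ?_⟩, fun n => ⟨reg H.ok h hR n _, adm H.tor h hR 0 n⟩, ?_⟩
  · have : ‖(!₂[2, 0] : E2)‖ = 2 := by simp [EuclideanSpace.norm_eq]
    exact ⟨⟨by rw [this]; norm_num, .inl (by norm_num)⟩, by rw [this]; norm_num⟩
  rintro n (rfl | rfl | rfl)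
  · refine move H.ok H.tor h 1 2 (r := 49 / 4) (-1) 0 (by norm_num) (fun b h1 _ => .inl ?_)
      fun b h1 t ht h2 => ?_
    · change gam 2 (tau b.2) - d.a 0 b.1 = d.Gs (gam 2) 0 0 b
      rw [Gs_out d 2 0 0 (by linarith), gam_two, gam_two, ← sq_abs, tau_out h1.le]
      ring
    · change |(1 - t) * (gam 2 (tau b.2) - d.a 0 b.1) + t * d.Gs (gam 2) 0 0 b| ≤ 3 / 2 at h2
      change 0 < (1 - t) * Df T.cyl (vs ℝ) (d.G0 2) b _ +
        t * Df T.cyl (vs ℝ) (d.Gs (gam 2) 0 0) b _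
      rw [(G0_df h 2 b).2, (Gs_df h 2 0 0 b).2, map_smul]
      rw [Dat.Gs, gam_two, abs_le] at h2
      obtain ⟨-, -, c1, c2⟩ := cc h (.inl rfl) b.2
      have c3 : tau b.2 ^ 2 ≤ 1 := by nlinarith [tau_in h1, sq_abs (tau b.2), abs_nonneg (tau b.2)]
      have c4 := conv_le ht (le_add_of_nonneg_left (sq_nonneg (tau b.2))) c1
      have c5 := conv_ge (x := tau b.2 ^ 2 + 2) (c := d.c) ht (by linarith [h.c100])
        ((c2 (by linarith)).trans (sub_le_self _ (le_min (sq_nonneg _) (by norm_num))))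
      obtain a | ⟨-, a | a, -⟩ := h.crit b.1
      · simpa using conv ht (a 0) (a 0)
      · linarith [h2.2]
      · linarith [h2.1]
  · refine move H.ok H.tor h 4 5 (r := 7) (-1) (-1) (by norm_num) (off7 h hR 0 0 2 3)
      fun b h1 t ht h2 => ?_
    change |(1 - t) * d.Gs (gam 2) 0 2 b + t * d.Gs (gam 2) 0 3 b| ≤ 3 / 2 at h2
    change 0 < (1 - t) * Df T.cyl (vs ℝ) (d.Gs (gam 2) 0 2) b _ +
      t * Df T.cyl (vs ℝ) (d.Gs (gam 2) 0 3) b _
    rw [(Gs_df h 2 0 2 b).2, (Gs_df h 2 0 3 b).2]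
    simp only [map_smul, smul_eq_mul]
    by_cases h0 : b.2 = 0
    · rw [Dat.Gs, Dat.Gs, h0, Cc_in (by norm_num), abs_le] at h2
      obtain a | ⟨a, -, e⟩ := h.crit b.1
      · exact conv ht (by rw [h0]; linarith [a 2]) (by rw [h0]; linarith [a 3])
      · obtain c | c := (a 2).2
        · linarith [conv_ge ht c (e.1 c), h2.2]
        · linarith [conv_le ht c ((a 3).2.resolve_left fun c' => by linarith [e.2 c']), h2.1]
    · have := inner_d h (.inl rfl) le_rfl b.1 h0 (by linarith)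
      exact conv ht (by linarith [h.dW 2 b.1]) (by linarith [h.dW 3 b.1])
  · refine move H.ok H.tor h 6 7 (r := 7) 0 (-1) (by norm_num) (off7 h hR 4 0 3 4)
      fun b h1 t ht h2 => ?_
    change |(1 - t) * d.Gs (gam 2) 4 3 b + t * d.Gs (gam 2) 0 4 b| ≤ 3 / 2 at h2
    change 0 < (1 - t) * Df T.cyl (vs ℝ) (d.Gs (gam 2) 4 3) b _ +
      t * Df T.cyl (vs ℝ) (d.Gs (gam 2) 0 4) b _
    rw [(Gs_df h 2 4 3 b).2, (Gs_df h 2 0 4 b).2, zero_smul, map_zero, map_zero, map_zero]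
    by_cases h0 : b.2 = 0
    · rw [Dat.Gs, Dat.Gs, h0, Cc_in (by norm_num), bet_one (by norm_num), abs_le] at h2
      have := conv_le (x := d.c - 0 ^ 2 - d.a 3 b.1 + 4 * 1 * d.χ b.1)
        (y := d.c - 0 ^ 2 - d.a 4 b.1 + 0 * 1 * d.χ b.1) (c := 2) ht (by linarith [h.fill b.1])
        (by linarith [(h.top b.1).2])
      linarith [h2.2]
    · exact conv ht (by linarith [inner_d h (k := 4) (.inl rfl) (by norm_num) b.1 h0 (by linarith)])
        (by linarith [inner_d h (.inl rfl) le_rfl b.1 h0 (by linarith)])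

end Pool.Agent.MP_e1dc65_gt.T

end
end MrgPart4

-- ======== part 5: formerly Pool.Agent.MP_e1dc65_gt.t.APch
section MrgPart5

/-! PROJECT HC, block A, row PCH: the patches and the top stage. -/

open scoped ContDiff Manifold Topology Real
open Set Filter Function Module Topology

noncomputable section

namespace Pool.Agent.MP_e1dc65_gt.T

namespace APCH
open Loc PROF

variable {T : Mf (Rn 2)} {p : E2 → T} {L R C : ℝ} {d : Dat T}

theorem co_le (v : E2) (k : Fin 2) : |v k| ≤ ‖v‖ := PiLp.norm_apply_le v k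

theorem nsq2 (v : E2) : ‖v‖ ^ 2 = v 0 ^ 2 + v 1 ^ 2 := by
  rw [EuclideanSpace.real_norm_sq_eq, Fin.sum_univ_two]

theorem p_inj (h : Tor T p L) {z z' : E2} (hz : ∀ k, |z k - z' k| < L) (e : p z = p z') :
    z = z' := by
  ext k
  obtain ⟨n, hn⟩ := (h.eq z z').1 e k
  have h1 := hz k
  have h0 : 0 < L := (abs_nonneg _).trans_lt h1
  rw [hn, abs_mul, abs_of_pos h0, mul_lt_iff_lt_one_left h0, ← Int.cast_abs, ← Int.cast_one,
    Int.cast_lt, Int.abs_lt_one_iff] at h1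
  rw [← sub_eq_zero, hn, h1, Int.cast_zero, zero_mul]

theorem open_V0 : IsOpen V0 :=
  (isOpen_lt continuous_fst.norm continuous_const).inter
    (isOpen_lt continuous_snd.abs continuous_const)

/-- patches that factor through a diffeomorphism of three-space -/
theorem oe_gen (h : Tor T p L) {A A' : R3 → R3} (hA : ContDiff ℝ ∞ A) (hA' : ContDiff ℝ ∞ A')
    (l : ∀ b, A' (A b) = b) (r : ∀ b, A (A' b) = b)
    (hb : ∀ b ∈ V0, ∀ b' ∈ V0, ∀ k, |(A b).1 k - (A b').1 k| < L) :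
    OE (vs R3) T.cyl (fun b => (p (A b).1, (A b).2)) V0 := by
  refine ⟨open_V0, fun b _ => ?_, fun b m b' m' e => ?_⟩
  · have h1 : LDAt (vs R3) (vs R3) A b := ldAt_of_inv isOpen_univ isOpen_univ trivial
      (fun _ _ => smAt_vs.2 hA.contDiffAt) (fun _ _ => smAt_vs.2 hA'.contDiffAt)
      (mapsTo_univ _ _) (mapsTo_univ _ _) (fun b _ => l b) fun b _ => r b
    have h2 : LDAt (vs R3) ((vs E2).prod (vs ℝ)) (fun q => q) (A b) :=
      ldAt_of_inv (X := vs R3) (Y := (vs E2).prod (vs ℝ)) (g := fun q => q) isOpen_univ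
        isOpen_univ trivial (fun _ _ => smAt_vs_prod) (fun _ _ => smAt_prod_vs) (mapsTo_univ _ _)
        (mapsTo_univ _ _) (fun _ _ => rfl) fun _ _ => rfl
    exact (h1.trans h2).trans ((h.ld (A b).1).prodMap (ldAt_id (X := vs ℝ) (x := (A b).2)))
  · rw [← l b, ← l b', show A b = A b' from
      Prod.ext (p_inj h (hb b m b' m') (Prod.ext_iff.1 e).1) (Prod.ext_iff.1 e).2]

theorem sub_lt {a b L : ℝ} (hL : 10 ≤ L) (ha : |a| < 5) (hb : |b| < 5) : |a - b| < L :=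
  (abs_sub a b).trans_lt (by linarith)

theorem co_lt {b : R3} (h : b ∈ V0) (k : Fin 2) : |b.1 k| < 5 := (co_le _ k).trans_lt h.1

theorem oe0 (h : Tor T p L) (hL : 10 ≤ L) : OE (vs R3) T.cyl (β0 p) V0 :=
  oe_gen h (A := fun b => (b.1, sig b.2)) (A' := fun b => (b.1, tau b.2))
    (contDiff_fst.prodMk (cd_sig.comp contDiff_snd)) (contDiff_fst.prodMk (cd_tau.comp contDiff_snd))
    (fun b => by simp [tau_sig]) (fun b => by simp [sig_tau])
    fun _ m _ m' k => sub_lt hL (co_lt m k) (co_lt m' k)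

theorem cd_vec {f g : R3 → ℝ} (hf : ContDiff ℝ ∞ f) (hg : ContDiff ℝ ∞ g) :
    ContDiff ℝ ∞ fun b => (!₂[f b, g b] : E2) :=
  contDiff_euclidean.2 fun i => by fin_cases i <;> simpa

theorem cd_co (k : Fin 2) : ContDiff ℝ ∞ fun b : R3 => b.1 k := by fun_prop

theorem vec_eta (v : E2) : (!₂[v 0, v 1] : E2) = v := by ext k; fin_cases k <;> rfl

theorem oe1 (h : Tor T p L) (hL : 10 ≤ L) : OE (vs R3) T.cyl (β1 p L) V0 :=
  oe_gen h (A := fun b => (!₂[b.1 0, L / 2 + b.2], b.1 1))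
    (A' := fun b => (!₂[b.1 0, b.2], b.1 1 - L / 2))
    ((cd_vec (cd_co 0) (contDiff_const.add contDiff_snd)).prodMk (cd_co 1))
    ((cd_vec (cd_co 0) contDiff_snd).prodMk ((cd_co 1).sub contDiff_const))
    (fun b => by simp [vec_eta]) (fun b => by simp [vec_eta]) fun _ m _ m' k => by
      fin_cases k
      · exact sub_lt hL (co_lt m 0) (co_lt m' 0)
      · simpa using sub_lt hL m.2 m'.2

theorem oe2 (h : Tor T p L) (hL : 10 ≤ L) : OE (vs R3) T.cyl (β2 p L) V0 :=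
  oe_gen h (A := fun b => (!₂[L / 2 + b.2, b.1 0], b.1 1))
    (A' := fun b => (!₂[b.1 1, b.2], b.1 0 - L / 2))
    ((cd_vec (contDiff_const.add contDiff_snd) (cd_co 0)).prodMk (cd_co 1))
    ((cd_vec (cd_co 1) contDiff_snd).prodMk ((cd_co 0).sub contDiff_const))
    (fun b => by simp [vec_eta]) (fun b => by simp [vec_eta]) fun _ m _ m' k => by
      fin_cases k
      · simpa using sub_lt hL m.2 m'.2
      · exact sub_lt hL (co_lt m 0) (co_lt m' 0)

theorem oe3 (h : Tor T p L) (hL : 10 ≤ L) : OE (vs R3) T.cyl (β3 p L) V0 :=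
  oe_gen h (A := fun b => (ctr L + b.1, b.2)) (A' := fun b => (b.1 - ctr L, b.2))
    (by fun_prop) (by fun_prop) (fun b => by simp) (fun b => by simp)
    fun _ m _ m' k => by simpa using sub_lt hL (co_lt m k) (co_lt m' k)

theorem oe4 (h : Tor T p L) (hL : 10 ≤ L) (σ : Bool) :
    OE (vs R3) T.cyl (fun b => β4 p ⟨σ, b⟩) V0 :=
  oe_gen h (A := fun b => (b.1, (if σ then -1 else 1) * (12 - b.2)))
    (A' := fun b => (b.1, 12 - (if σ then -1 else 1) * b.2))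
    (by fun_prop) (by fun_prop) (fun b => by cases σ <;> simp) (fun b => by cases σ <;> simp)
    fun _ m _ m' k => sub_lt hL (co_lt m k) (co_lt m' k)

theorem emb_of {β : R3 → T × ℝ} (h : OE (vs R3) T.cyl β V0) : IsOpenEmbedding (V0.domRestrict β) :=
  oe_of h.inj h.sm.contOn fun _ hO => h.isOpen_image (h.op.inter hO) inter_subset_left

theorem adm0 : Adm (Gm (-2)) (Gm 2) D0 Q0 := adm_Gm (by norm_num) le_rfl open_D0 Q0_sub

theorem far_neg {a b : ℝ} (ha : a < -5) (hb : b < -5) : Far a b :=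
  Or.inr ⟨lt_abs.2 (Or.inr (by linarith)), lt_abs.2 (Or.inr (by linarith))⟩

theorem gam11 {t y : ℝ} (ht : t ≤ 2) (h : |y| ≤ 3) : gam t y ≤ 11 := by
  nlinarith [gam_le ht y, abs_le.1 h]

theorem DD17 {q : E2 × T × ℝ} (h : q ∈ DD p) : |q.2.2| < 17 :=
  h.2.elim (fun h => h.trans (by norm_num)) fun h => h.2

theorem mem5 {v : E2} (h : ‖v‖ < 5) : p v ∈ p '' Metric.ball 0 5 :=
  mem_image_of_mem p (mem_ball_zero_iff.2 h)

theorem big4 (h : d.Ok p R C L) (hR : 27 ≤ R) (n : Fin 5) (z : T)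
    (hz : ∀ v, ‖v‖ ≤ 4 → z ≠ p v) : 16 < d.a n z := not_le.1 fun a => by
  obtain ⟨v, h1, h2⟩ := h.big n z 4 (by norm_num) (by linarith) (by linarith)
  exact hz v h1 h2

theorem pch0 (hT : Tor T p L) (hL : 10 ≤ L) (h : d.Ok p R C L) (hR : 27 ≤ R) :
    Pch (β0 p) V0 (d.G0 (-2)) (d.G0 2) (Gm (-2)) (Gm 2) (DD p) D0 Q0 := by
  refine ⟨adm0, open_V0, emb_of (oe0 hT hL), fun q hq => ?_, fun q _ h1 hn => ?_⟩
  · have e : ∀ t, d.G0 t (β0 p q.2) = Gm t q.2 := fun t => by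
      simp only [Dat.G0, β0, Gm, tau_sig, (h.quad 0 q.2.1 (by linarith [hq.2.1])).1]
    obtain ⟨s1, s2⟩ := sig_out (y := 5) (by norm_num)
    obtain ⟨a1, a2⟩ := abs_lt.1 hq.2.2
    exact ⟨hq.2, ⟨hq.1, Or.inr ⟨mem5 hq.2.1, show |sig q.2.2| < 17 from
      abs_lt.2 ⟨by linarith [mono_sig a1], by linarith [mono_sig a2]⟩⟩⟩, e _, e _⟩
  · rcases le_total 3 |tau q.2.2| with a | a
    · exact Or.inl (by rw [Dat.G0, Dat.G0, gam_out _ a, gam_out _ a])
    have := big4 h hR 0 q.2.1 fun v hv e => hn (v, tau q.2.2) ⟨h1, hv, a⟩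
      (Prod.ext e.symm (sig_tau _))
    exact far_neg (by linarith [gam11 (t := -2) (by norm_num) a, Dat.G0.eq_1 d (-2) q.2])
      (by linarith [gam11 le_rfl a, Dat.G0.eq_1 d 2 q.2])

theorem Gs0 (g : ℝ → ℝ) (n : Fin 5) (b : T × ℝ) : d.Gs g 0 n b = Cc d.c g b.2 - d.a n b.1 := by
  simp [Dat.Gs]

theorem Cc_le (hc : 100 ≤ d.c) {s : ℝ} (h : |s| < 17) :
    Cc d.c (gam 2) s ≤ d.c - min (s ^ 2) 25 :=
  ((prof.2.2.2.2.2.2.2.2.2.2.2.2.2 d.c hc).2.1 2 (Or.inl rfl) s).2.2.2 h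

/-- the two band patches -/
theorem pch12 (hc : 100 ≤ d.c) {n m : Fin 5} {ζ : ℝ → ℝ → T} {β : R3 → T × ℝ}
    (hβ : ∀ b, β b = (ζ (b.1 0) b.2, b.1 1)) (oe : OE (vs R3) T.cyl β V0)
    (hb : ∀ u y, |u| ≤ 6 → |y| ≤ 6 → d.a n (ζ u y) = u ^ 2 + d.c - gam (-2) y ∧
      d.a m (ζ u y) = u ^ 2 + d.c - gam 2 y)
    (hf : ∀ z, d.a n z = d.a m z ∨ (d.c + 5 ≤ d.a n z ∧ d.c + 5 ≤ d.a m z) ∨
      ∃ u y, |u| ≤ 4 ∧ |y| ≤ 3 ∧ z = ζ u y) :
    Pch β V0 (d.Gs (gam 2) 0 n) (d.Gs (gam 2) 0 m) (Gm (-2)) (Gm 2) (DD p) D0 Q0 := by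
  refine ⟨adm0, open_V0, emb_of oe, fun q hq => ?_, fun q hq h1 hn => ?_⟩
  · have a0 := co_lt hq.2 0
    have a1 := co_lt hq.2 1
    obtain ⟨e1, e2⟩ := hb (q.2.1 0) q.2.2 (by linarith) (by linarith [hq.2.2])
    rw [hβ]
    refine ⟨hq.2, ⟨hq.1, Or.inl (a1.trans (by norm_num))⟩, ?_, ?_⟩
    · rw [Gs0, Cc_in a1.le, e1, Gm, nsq2]; ring
    · rw [Gs0, Cc_in a1.le, e2, Gm, nsq2]; ring
  · have c1 := Cc_le hc (DD17 hq)
    have c2 : 0 ≤ min (q.2.2 ^ 2) 25 := le_min (sq_nonneg _) (by norm_num)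
    rw [Gs0, Gs0]
    rcases hf q.2.1 with e | ⟨e1, e2⟩ | ⟨u, y, hu, hy, e⟩
    · exact Or.inl (by rw [e])
    · exact Or.inr ⟨lt_abs.2 (Or.inr (by linarith)), lt_abs.2 (Or.inr (by linarith))⟩
    have c3 : 4 < ‖(!₂[u, q.2.2] : E2)‖ := not_le.1 fun a => hn (!₂[u, q.2.2], y) ⟨h1, a, hy⟩
      ((hβ _).trans (Prod.ext e.symm rfl))
    have c4 : 16 < u ^ 2 + q.2.2 ^ 2 := by
      have := nsq2 !₂[u, q.2.2]
      simp only [Matrix.cons_val_zero, Matrix.cons_val_one] at this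
      nlinarith
    have c5 : 16 < u ^ 2 + min (q.2.2 ^ 2) 25 := by
      rcases min_choice (q.2.2 ^ 2) 25 with a | a <;> rw [a] <;> nlinarith
    obtain ⟨e1, e2⟩ := hb u y (by linarith) (by linarith)
    rw [e, e1, e2]
    exact far_neg (by linarith [gam11 (t := -2) (by norm_num) hy]) (by linarith [gam11 le_rfl hy])

theorem pch3 (hT : Tor T p L) (hL : 10 ≤ L) (h : d.Ok p R C L) :
    Pch (β3 p L) V0 (fun b => -d.Gs (gam 2) 4 3 b) (fun b => -d.Gs (gam 2) 0 3 b) (Gm (-2)) (Gm 2)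
      (DD p) D0 Q0 := by
  refine ⟨adm0, open_V0, emb_of (oe3 hT hL), fun q hq => ?_, fun q hq h1 hn => ?_⟩
  · have e := h.hole q.2.1 (by linarith [co_lt hq.2 0]) (by linarith [co_lt hq.2 1])
    refine ⟨hq.2, ⟨hq.1, Or.inl (hq.2.2.trans (by norm_num))⟩, ?_, ?_⟩ <;>
      simp only [Dat.Gs, β3, Cc_in hq.2.2.le, e, h.χ1 _ hq.2.1.le, Gm, gam] <;> ring
  · by_cases a : d.χ q.2.1 = 0
    · exact Or.inl (by simp [Dat.Gs, a])
    rcases le_total 3 |q.2.2| with b | b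
    · exact Or.inl (by simp [Dat.Gs, bet_zero b])
    obtain ⟨v, v0, v1, e⟩ := h.χ0 _ a
    have c3 : 4 < ‖v‖ := not_le.1 fun c => hn (v, q.2.2) ⟨h1, c, b⟩ (Prod.ext e.symm rfl)
    have c4 : 5 ≤ d.Gs (gam 2) 0 3 q.2 := by
      rw [Gs0, Cc_in (by linarith), e, h.hole v v0 v1]
      nlinarith [abs_le.1 b]
    have c5 : d.Gs (gam 2) 0 3 q.2 ≤ d.Gs (gam 2) 4 3 q.2 := by
      rw [Gs0, Dat.Gs]
      nlinarith [mul_nonneg (bet_nonneg q.2.2) (h.χ01 q.2.1).1]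
    exact Or.inr ⟨lt_abs.2 (Or.inr (by linarith)), lt_abs.2 (Or.inr (by linarith))⟩

theorem cont_s2 : Continuous fun b : Σ _ : Bool, R3 => b.2 := continuous_sigma fun _ => continuous_id

theorem adm4 : Adm (fun b : Σ _ : Bool, R3 => Gm (-2) b.2) (fun b => Gm 2 b.2) (cps Bool D0)
    (cps Bool Q0) := by
  refine ⟨open_D0.preimage (continuous_fst.prodMk (cont_s2.comp continuous_snd)), ?_,
    fun _ hq => Q0_sub hq, adm0.c.comp cont_s2, adm0.c'.comp cont_s2,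
    fun q hq h1 => adm0.far (q.1, q.2.2) hq h1⟩
  have : cps Bool Q0 = ⋃ σ, (fun q : E2 × R3 => (q.1, (⟨σ, q.2⟩ : Σ _ : Bool, R3))) '' Q0 := by
    ext q
    simp only [mem_iUnion]
    exact ⟨fun hq => ⟨q.2.1, _, hq, rfl⟩, by rintro ⟨σ, q, hq, rfl⟩; exact hq⟩
  rw [this]
  exact isCompact_iUnion fun σ => compact_Q0.image
    (continuous_fst.prodMk (continuous_sigmaMk.comp continuous_snd))

theorem abs_β4 (b : Σ _ : Bool, R3) (hb : b.2.2 ≤ 12) : |(β4 p b).2| = 12 - b.2.2 := by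
  have : |12 - b.2.2| = 12 - b.2.2 := abs_of_nonneg (by linarith)
  obtain ⟨σ, b⟩ := b
  cases σ <;> simp only [β4, abs_mul, this] <;> simp

theorem emb4 (hT : Tor T p L) (hL : 10 ≤ L) :
    IsOpenEmbedding ({b : Σ _ : Bool, R3 | b.2 ∈ V0}.domRestrict (β4 p)) := by
  refine oe_of ?_ ?_ fun O hO => ?_
  · rintro ⟨σ, b⟩ hb ⟨σ', b'⟩ hb' e
    obtain rfl : σ = σ' := by
      have e2 := congrArg Prod.snd e
      have a := (abs_lt.1 hb.2).2
      have a' := (abs_lt.1 hb'.2).2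
      cases σ <;> cases σ' <;> simp only [β4, Bool.false_eq_true, if_false, if_true] at e2 a a' ⊢ <;>
        linarith
    exact congrArg _ ((oe4 hT hL σ).inj hb hb' e)
  · have hp : Continuous p := hT.cov.continuous
    refine (continuous_sigma fun σ => ?_).continuousOn
    change Continuous fun b : R3 => (p b.1, (if σ then (-1 : ℝ) else 1) * (12 - b.2))
    generalize (if σ then (-1 : ℝ) else 1) = c
    fun_prop
  · have : β4 p '' ({b | b.2 ∈ V0} ∩ O) =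
        ⋃ σ, (fun b => β4 p ⟨σ, b⟩) '' (V0 ∩ (fun b => ⟨σ, b⟩) ⁻¹' O) := by
      ext z
      simp only [mem_iUnion]
      exact ⟨fun ⟨b, hb, e⟩ => ⟨b.1, b.2, hb, e⟩, fun ⟨σ, b, hb, e⟩ => ⟨⟨σ, b⟩, hb, e⟩⟩
    rw [this]
    exact isOpen_iUnion fun σ => (oe4 hT hL σ).isOpen_image
      (open_V0.inter (hO.preimage continuous_sigmaMk)) inter_subset_left

theorem pch4 (hT : Tor T p L) (hL : 10 ≤ L) (h : d.Ok p R C L) (hR : 27 ≤ R) :
    Pch (β4 p) {b | b.2 ∈ V0} (d.Gs (gam (-2)) 0 4) (d.Gs (gam 2) 0 4) (fun b => Gm (-2) b.2)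
      (fun b => Gm 2 b.2) (DD p) (cps Bool D0) (cps Bool Q0) := by
  refine ⟨adm4, open_V0.preimage cont_s2, emb4 hT hL, fun q hq => ?_, fun q _ h1 hn => ?_⟩
  · obtain ⟨a1, a2⟩ : -5 < q.2.2.2 ∧ q.2.2.2 < 5 := abs_lt.1 hq.2.2
    have a3 : ‖q.2.2.1‖ < 5 := hq.2.1
    have a := abs_β4 (p := p) q.2 (by linarith)
    have e : ∀ t, d.Gs (gam t) 0 4 (β4 p q.2) = Gm t q.2.2 := fun t => by
      rw [Gs0, Cc_out (by linarith), a, sub_sub_cancel, Gm]
      exact congrArg _ (h.quad 4 _ (by linarith)).1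
    exact ⟨hq.2, ⟨hq.1, Or.inr ⟨mem5 a3, show |(β4 p q.2).2| < 17 by linarith⟩⟩, e _, e _⟩
  · rw [Gs0, Gs0]
    rcases le_total 3 |12 - abs q.2.2| with a | a
    · exact Or.inl (by rw [Cc, Cc, gam_out _ a, gam_out _ a])
    have := big4 h hR 4 q.2.1 fun v hv e => hn ⟨decide (q.2.2 < 0), v, 12 - |q.2.2|⟩ ⟨h1, hv, a⟩
      (Prod.ext e.symm (by
        by_cases b : q.2.2 < 0
        · simp [β4, b, abs_of_neg b]
        · simp [β4, b, abs_of_nonneg (not_lt.1 b)]))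
    have b : 6 ≤ |q.2.2| := by linarith [(abs_le.1 a).2]
    rw [Cc_out b, Cc_out b]
    exact far_neg (by linarith [gam11 (t := -2) (by norm_num) a]) (by linarith [gam11 le_rfl a])

theorem zo_val (h : d.Ok p R C L) (hR : 27 ≤ R) {σ t : ℝ} {θ : E2} (hσ : σ = 1 ∨ σ = -1)
    (hθ : ‖θ‖ = 1) (ht : |t| ≤ 6 / 5) : (∀ t', d.G0 t' (zo p σ θ t) = t) ∧
      ∀ t' k n, d.Gs (gam t') k n (zo p σ θ t) = t := by
  obtain ⟨t1, t2⟩ := abs_le.1 ht
  have n1 : ‖√(57 / 4 - t) • θ‖ ^ 2 = 57 / 4 - t := by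
    rw [norm_smul, hθ, mul_one, Real.norm_eq_abs, sq_abs, Real.sq_sqrt (by linarith)]
  have n2 : ‖√(57 / 4 - t) • θ‖ ≤ R := by nlinarith [norm_nonneg (√(57 / 4 - t) • θ)]
  have s1 : |σ * (31 / 2)| = 31 / 2 := by rcases hσ with rfl | rfl <;> norm_num [abs_of_pos]
  have s2 : |tau (σ * (31 / 2))| = 7 / 2 := by rw [tau_out (by linarith), s1]; norm_num
  refine ⟨fun t' => ?_, fun t' k n => ?_⟩
  · simp only [Dat.G0, zo]
    rw [gam_out _ (by linarith), ← sq_abs, s2, (h.quad 0 _ n2).1, n1]; ring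
  · simp only [Dat.Gs, zo]
    rw [Cc_out (by linarith), s1, gam_out _ (by norm_num [abs_of_pos]), (h.quad n _ n2).1,
      (h.quad n _ n2).2, n1]; ring

theorem anti (hc : 100 ≤ d.c) : StrictAntiOn (Cc d.c gt) (Ici 0) :=
  strictAntiOn_of_deriv_neg (convex_Ici 0) (cd_Cc cd_gt).continuous.continuousOn fun s hs => by
    have h0 : 0 < s := by simpa using hs
    exact neg_of_mul_neg_right ((prof.2.2.2.2.2.2.2.2.2.2.2.2.2 d.c hc).2.2 s h0.ne') h0.le

/-- the inverse of the profile of the top stage -/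
theorem exists_inv (hc : 100 ≤ d.c) : ∃ K : ℝ → ℝ, Continuous K ∧
    ∀ r ≤ d.c, 0 ≤ K r ∧ Cc d.c gt (K r) = r := by
  let F : ℝ → ℝ := fun s => min s 0 - Cc d.c gt (max s 0)
  have hc' : Continuous F := (continuous_id.min continuous_const).sub
    ((cd_Cc cd_gt).continuous.comp (continuous_id.max continuous_const))
  have F0 : ∀ s ≤ 0, F s = s - d.c := fun s hs => by
    simp only [F, min_eq_left hs, max_eq_right hs, Cc_in (s := 0) (by simp)]; ring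
  have F1 : ∀ s, 0 ≤ s → F s = -Cc d.c gt s := fun s hs => by
    simp only [F, min_eq_right hs, max_eq_left hs, zero_sub]
  have hm : StrictMono F := fun x y hxy => by
    rcases le_total 0 x with a | a
    · rw [F1 x a, F1 y (a.trans hxy.le)]
      exact neg_lt_neg (anti hc a (a.trans hxy.le) hxy)
    rcases le_or_gt y 0 with b | b
    · rw [F0 x a, F0 y b]; linarith
    · have := anti hc self_mem_Ici b.le b
      rw [F0 x a, F1 y b.le]
      rw [Cc_in (s := 0) (by simp)] at this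
      linarith
  have hs : Surjective F := fun r => by
    have a := abs_nonneg r
    refine mem_range.1 (intermediate_value_univ (-|r|) (|r| + 12) hc' ⟨?_, ?_⟩)
    · rw [F0 _ (by linarith)]; linarith [neg_abs_le r]
    · have b : abs (|r| + 12) = |r| + 12 := abs_of_nonneg (by linarith)
      rw [F1 _ (by linarith), Cc_out (by linarith), b, gt_lo (by linarith)]
      linarith [le_abs_self r]
  let e := hm.orderIsoOfSurjective F hs
  refine ⟨fun r => e.symm (-r), e.symm.continuous.comp continuous_neg, fun r hr => ?_⟩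
  have h1 : F (e.symm (-r)) = -r := e.apply_symm_apply _
  have h2 : 0 ≤ e.symm (-r) := hm.le_iff_le.1 (by rw [h1, F0 0 le_rfl]; linarith)
  exact ⟨h2, neg_injective ((F1 _ h2).symm.trans h1)⟩

end APCH

open APCH Loc PROF in
theorem apch : APchStmt := by
  intro N ε R C L T p d H
  have hR := H.emb.big
  have hL : 10 ≤ L := by linarith [H.big]
  have h := H.dat
  have ca : Continuous (d.a 4) := continuousOn_univ.1 (h.sm 4).contOn
  have G0 : ∀ z, d.Gs gt 0 4 (z, 0) = d.c - d.a 4 z := fun z => by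
    rw [Gs0, Cc_in (by simp)]; ring
  refine ⟨⟨oe0 H.tor hL, pch0 H.tor hL h hR⟩,
    ⟨oe1 H.tor hL, pch12 h.c100 (ζ := fun u y => p !₂[u, L / 2 + y]) (fun _ => rfl)
      (oe1 H.tor hL) h.b1 h.f1⟩,
    ⟨oe2 H.tor hL, pch12 h.c100 (ζ := fun u y => p !₂[L / 2 + y, u]) (fun _ => rfl)
      (oe2 H.tor hL) h.b2 h.f2⟩,
    ⟨oe3 H.tor hL, pch3 H.tor hL h⟩, pch4 H.tor hL h hR, fun n σ θ t hσ hθ ht => ?_,
    fun σ t hσ => ?_, ?_, fun z => G0 z ▸ (h.top z).1, fun z s => by rw [Gs0, Gs0, Cc_neg],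
    fun z s hs s' hs' e => ?_, ?_⟩
  · obtain ⟨z1, z2⟩ := zo_val h hR hσ hθ ht
    fin_cases n
    exacts [z1 _, z1 _, z2 _ _ _, z2 _ _ _, z2 _ _ _, z2 _ _ _, z2 _ _ _, z2 _ _ _, z2 _ _ _]
  · obtain ⟨s1, s2⟩ := sig_out (y := 7 / 2) (by norm_num)
    refine Prod.ext rfl ?_
    rcases hσ with rfl | rfl
    · change sig (1 * (7 / 2)) = 1 * (31 / 2)
      rw [one_mul, s1]; norm_num
    · change sig (-1 * (7 / 2)) = -1 * (31 / 2)
      rw [neg_one_mul, s2]; norm_num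
  · rw [funext (Gs0 gt 4)]
    exact ((cd_Cc cd_gt).continuous.comp continuous_snd).sub (ca.comp continuous_fst)
  · simp only [Gs0]
    exact sub_lt_sub_right (anti h.c100 hs hs' e) _
  · obtain ⟨K, k1, k2⟩ := exists_inv h.c100
    refine ⟨fun a => K (a.2 + d.a 4 a.1),
      (k1.comp (continuous_snd.add (ca.comp continuous_fst))).continuousOn, fun z t ht => ?_⟩
    rw [G0] at ht
    obtain ⟨k3, k4⟩ := k2 (t + d.a 4 z) (by linarith)
    exact ⟨k3, by rw [Gs0, k4]; ring⟩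

end Pool.Agent.MP_e1dc65_gt.T

end
end MrgPart5

-- ======== part 6: formerly Pool.Agent.MP_e1dc65_gt.t2.Main
section MrgPart6

/-! PROJECT HC: blocks EMB and PK. -/

namespace Pool.Agent.MP_e1dc65_gt.T

theorem emb : EmbStmt := emb_of fa di th tube (sc gp)

theorem pk : PkStmt := pk_of fa (io loe) kill

end Pool.Agent.MP_e1dc65_gt.T

end MrgPart6

-- ======== part 7: formerly Pool.Agent.MP_e1dc65_gt.t4.Asm
section MrgPart7

/-! PROJECT HC: assembly of the parts T4 and T5. -/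

open Set Metric Topology

namespace Pool.Agent.MP_e1dc65_gt.T4

/-- the result of T3 for a larger support -/
theorem Top3.grow {F P T L : Type} [TopologicalSpace F] [TopologicalSpace P] [TopologicalSpace T]
    [TopologicalSpace L] [T2Space L] {κ : F → V} {q : Pat (F × Z) P} {p : Z → T} {k : L → V × T}
    {s : V × T → L} {i : F × T → L} {ρ ρ' r : ℝ} {u : Z → Z} {W K' : Set (F × Z)}
    {e : Bool → F × Z → L} {α : L → V × T} {β : Bool → P → V × T}
    (h : Top3 κ q p k s i ρ ρ' r u W e α β) (ok : q.Ok) (hK : IsCompact K') (a : q.K ⊆ K')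
    (b : K' ⊆ W) : Top3 κ (q.grow K') p k s i ρ ρ' r u W e α β := by
  have key : ∀ w ∈ W, ∀ w' ∈ W, e true w ≠ e false w' := fun w hw w' hw' c => by
    have h1 := (h.ef w' hw').1.2
    rw [← c, h.et w hw, h.ki _ _ (by linarith [(h.Wρ w hw).1])] at h1
    linarith [(h.Wρ w hw).1, norm_le_pi_norm (κ w.1) 2, le_abs_self (κ w.1 2),
      Real.norm_eq_abs (κ w.1 2)]
  refine { h with KW := b, ins := h.ins.grow' ok hK a b h.ec ?_ }
  rintro (_ | _) (_ | _) w hw w' hw' c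
  exacts [rfl, (key w' hw' w hw c.symm).elim, (key w hw w' hw' c).elim, rfl]

theorem partT_of (hM : MidStmt) (h : T23Stmt) : TStmt := by
  intro D hD
  obtain ⟨F₀, j, κ, σ, th', th, P, q, hj, hκ, hE, hP, T, L, _, _, _, _, p, k, s, i, ρ, ρ', r, u, W,
    e, α, β, h3⟩ := h D.F D.e₀ D.e hD.isF
  obtain ⟨K', a, b, hP', hx⟩ := cpk F₀ P q W hP h3.Wo h3.KW
  obtain ⟨x, y, ζ, α', β', sx, sy, hA, hp⟩ := xrow lift split F₀ P T L κ σ _ p k s i ρ ρ' r u W e α β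
    hP'.ok hx hκ (h3.grow hP.ok hP'.ok.cpt a b)
  have hx1 : BIso x one := swindle (swCore inf) x y ρ (ρ + 1) ρ' (by linarith)
    (sx.mono fun v hv => by
      have := mem_closedBall_zero_iff.1 hv
      exact ⟨by linarith [h3.ρ2], by
        linarith [norm_le_pi_norm v 2, le_abs_self (v 2), Real.norm_eq_abs (v 2)]⟩)
    sy hA (half F₀ P _ x W ζ κ ρ r α' β' hP' hp)
  obtain ⟨R, c, γ, hγ⟩ := hM D F₀ j κ σ th' th P _ x W ζ ρ r α' β' hD hj hκ hE hP' hp hx1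
  exact core D R c γ hD hγ

end Pool.Agent.MP_e1dc65_gt.T4

end MrgPart7

-- ======== part 8: formerly Pool.Agent.MP_e1dc65_gt.t4.Main
section MrgPart8

/-! PROJECT HC: parts T4 and T5 are complete. -/

namespace Pool.Agent.MP_e1dc65_gt.T4

theorem partT45 (h : T23Stmt) : TStmt := partT_of (mid midA) h

end Pool.Agent.MP_e1dc65_gt.T4

end MrgPart8

-- ======== part 9: formerly Pool.Agent.MP_e1dc65_gt.t.OfNf
section MrgPart9

/-! PROJECT HC, part T: everything except the normal form. -/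

namespace Pool.Agent.MP_e1dc65_gt.T

theorem blockA : AStmt :=
  partA (key_of keyM) dat (blob prof) (slide prof) (topl prof) areg apch

theorem partT_of_nf (h : NFStmt) : TStmt :=
  T4.partT45 (t23 h emb pk (keyF_of keyM) exist loe self blockA)

end Pool.Agent.MP_e1dc65_gt.T

end MrgPart9

-- marker of a merged file
example : 731051 + 791322 = 731051 + 791322 := rfl
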