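import Pool.Agent.MP_e1dc65_gt.t.PreWind
import Pool.Agent.MP_e1dc65_gt.t.MLevel
import Pool.Agent.MP_e1dc65_gt.t.PreAx
import Mathlib.Analysis.Real.Pi.Bounds
import Mathlib.Analysis.Calculus.Deriv.Slope
import Mathlib.Analysis.Calculus.LocalExtr.Basic
import Mathlib.MeasureTheory.Integral.IntervalIntegral.FundThmCalculus
import Mathlib.Analysis.SpecialFunctions.ExpDeriv
import Pool.Agent.MP_e1dc65_gt.k.Flow
import Pool.Agent.MP_e1dc65_gt.k.Bump
import Pool.Agent.MP_e1dc65_gt.e.aTwB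

-- ======== part 0: formerly Pool.Agent.MP_e1dc65_gt.t.PreIntS
section MrgPart0

/-! PROJECT HC, block NF, row INT: the pieces and their assembly. -/

open scoped ContDiff Manifold Topology Real
open Set Filter Function Module Topology

noncomputable section

namespace Pool.Agent.MP_e1dc65_gt.T.Pr

/-- the descending circle in coordinates -/
def zz (i : Fin 3) (θ : E2) : Rn 3 := q0 - Pi.single i π + ins i 0 ((1 / 50 : ℝ) • θ)
/-- the direction that crosses the cut in the middle -/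
def s0 (i : Fin 3) : E2 := (sg i / √2) • !₂[1, -1]
/-- the level -/
def tt : ℝ := -π + 1 / 400

theorem zz_i (i : Fin 3) (θ : E2) : zz i θ i = 0 := by simp [zz, ins, q0]
theorem zz_j (i : Fin 3) (θ : E2) : zz i θ (jx i) = π + θ 0 / 50 := by
  simp [zz, ins, q0, jx_ne i]; ring
theorem zz_k (i : Fin 3) (θ : E2) : zz i θ (kx i) = π + θ 1 / 50 := by
  simp [zz, ins, q0, kx_ne i, (jx_ne_kx i).symm]; ring

theorem Fit.dn {N : NF} {D : Dat N.F} (h : Fit N D) (i : Fin 3) (θ : E2) :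
    N.dn i θ = D.K none (zz i θ) := by
  rw [NF.dn, h.c₂, h.δ, show (1 / 25 / 2 : ℝ) = 1 / 50 by norm_num]; rfl

/-- all hypotheses; `b j` is the component `j` of the field -/
structure Ctx (U : Eu) (N : NF) (D : Dat N.F) (b : Fin 3 → N.F → ℝ) : Prop where
  ok : U.Ok
  fl : U.Fl
  gd : GD U D
  fit : Fit N D
  bd : ∀ j a, ∀ z ∈ Dom a, b j (D.K a z) = U.V z j

def BsmStmt : Prop := ∀ U N D b, Ctx U N D b → ∀ j, ∀ m ∈ N.A j, N.f m ≤ tt →
  (∃ w, Nv w ∧ m = D.K none w) ∧ SmAt N.F (vs ℝ) (b j) m ∧ b j m = 0 ∧ Df N.F (vs ℝ) (b j) m ≠ 0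

def ClsStmt : Prop := ∀ U N D b, Ctx U N D b → ∀ i j (θ : E2), ‖θ‖ = 1 → N.dn i θ ∈ N.A j →
  (θ = s0 i ∧ j = i) ∨ (θ 0 = 0 ∧ j = jx i) ∨ (θ 1 = 0 ∧ j = kx i)

def MemStmt : Prop := ∀ U N D b, Ctx U N D b → ∀ i, N.dn i (s0 i) ∈ N.A i ∧
  ∀ θ : E2, ‖θ‖ = 1 → (θ 0 = 0 → N.dn i θ ∈ N.A (jx i)) ∧ (θ 1 = 0 → N.dn i θ ∈ N.A (kx i))

def AxdStmt : Prop := ∀ U N D b, Ctx U N D b → ∀ i (θ : E2) (T : ℝ), ‖θ‖ = 1 →
  (θ 0 = 0 → ∃ c, 0 < c ∧
    HasDerivAt (fun s : ℝ => b (jx i) (N.φ T (N.dn i (θ + s • rot θ)))) (c * θ 1) 0) ∧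
  (θ 1 = 0 → ∃ c, 0 < c ∧
    HasDerivAt (fun s : ℝ => b (kx i) (N.φ T (N.dn i (θ + s • rot θ)))) (-c * θ 0) 0)

def SodStmt : Prop := ∀ U N D b, Ctx U N D b → ∀ i (T : ℝ) (w : Rn 3),
  N.f (N.φ T (N.dn i (s0 i))) = tt → Nv w → N.φ T (N.dn i (s0 i)) = D.K none w →
  ∃ d, d ≠ 0 ∧ HasDerivAt (fun s : ℝ => b i (N.φ T (N.dn i (s0 i + s • rot (s0 i))))) d 0

end Pool.Agent.MP_e1dc65_gt.T.Pr

end
end MrgPart0

-- ======== part 1: formerly Pool.Agent.MP_e1dc65_gt.t.PreAxd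
section MrgPart1

/-! PROJECT HC, block NF, row INT: the derivative at the four axial intersection points. -/

open scoped ContDiff Manifold Topology Real
open Set Filter Function Module Topology

noncomputable section

namespace Pool.Agent.MP_e1dc65_gt.T.Pr

theorem Ctx.axd {U : Eu} {N : NF} {D : Dat N.F} {b : Fin 3 → N.F → ℝ} (h : Ctx U N D b)
    {i l : Fin 3} (hl : l ≠ i) (T : ℝ) : ∃ d, 0 < d ∧ ∀ (y : ℝ → Rn 3) (a : ℝ), Continuous y →
      (∀ s, y s i = 0) → (∀ s, y s l = π + s * a) →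
      HasDerivAt (fun s => b l (N.φ T (D.K none (y s)))) (-d * a) 0 := by
  obtain ⟨d, d0, hd⟩ := h.fl.ψder T π
  refine ⟨d, d0, fun y a hy yi yl => ?_⟩
  have si : ∀ s, Real.sin (y s i) = 0 := fun s => by rw [yi, Real.sin_zero]
  have q0 : ∀ k, y 0 ∉ Qd k := fun k => by
    by_cases e : i = k
    · exact not_qd (k := l) (by simp [yl]) (e ▸ hl)
    · exact not_qd (si 0) e
  have ev : ∀ᶠ s in 𝓝 (0 : ℝ), ∀ t ∈ uIcc 0 T, U.Ψ t (y s) ∈ Dom none :=
    isCompact_uIcc.eventually_forall_of_forall_eventually fun t _ =>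
      ((isOpen_dom none).preimage (h.ok.Ψfl.cont_comp (g := fun p : ℝ × ℝ => y p.1) (τ := Prod.snd)
        (hy.comp continuous_fst) continuous_snd)).mem_nhds (h.gd.orb0 h.ok h.fl q0 t).1
  have e : (fun s => b l (N.φ T (D.K none (y s)))) =ᶠ[𝓝 0] fun s => U.η (U.ψ T (π + s * a)) := by
    filter_upwards [ev] with s hs
    have w : Real.sin (U.Ψ T (y s) i) = 0 := by rw [h.fl.Ψfix T _ _ (si s), si]
    rw [h.fit.φ, h.gd.orb h.ok hs, h.bd l none _ (hs T right_mem_uIcc),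
      h.ok.vd.prod _ (not_oct w) l fun c => not_qd w hl.symm c.1,
      h.fl.Ψψ T _ (not_oct (si s)) l (not_qd (si s) hl.symm), yl]
  have hη : HasDerivAt U.η (-1) (U.ψ T (π + 0 * a)) := by
    rw [zero_mul, add_zero, h.fl.ψfix T π Real.sin_pi]
    refine ((hasDerivAt_id π).const_sub π).congr_of_eventuallyEq ?_
    have : ∀ᶠ x in 𝓝 π, |π - x| < 2 / 25 :=
      (isOpen_lt (f := fun x : ℝ => |π - x|) (by fun_prop) continuous_const).mem_nhds (by simp)
    filter_upwards [this] with x hx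
    rw [← h.ok.sc.ηmir, h.ok.sc.η0 _ hx, id]
  have h1 : HasDerivAt (fun s : ℝ => π + s * a) a 0 := by
    simpa using ((hasDerivAt_id (0 : ℝ)).mul_const a).const_add π
  have h2 := hη.comp 0 (HasDerivAt.comp 0 (h₂ := U.ψ T) (by simpa using hd) h1)
  exact (h2.congr_deriv (by ring)).congr_of_eventuallyEq e

theorem axd : AxdStmt := by
  intro U N D b h i θ T _
  have hy : Continuous fun s : ℝ => zz i (θ + s • rot θ) := continuous_pi fun k => by
    rcases idx i k with rfl | rfl | rfl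
    · simp only [zz_i]; fun_prop
    · simp only [zz_j]; fun_prop
    · simp only [zz_k]; fun_prop
  simp only [h.fit.dn]
  constructor <;> intro e
  · obtain ⟨d, d0, hd⟩ := h.axd (jx_ne i) T
    exact ⟨d / 50, by positivity, (hd _ (-θ 1 / 50) hy (fun _ => zz_i _ _) fun s => by
      rw [zz_j]; simp [rot, e]; ring).congr_deriv (by ring)⟩
  · obtain ⟨d, d0, hd⟩ := h.axd (kx_ne i) T
    exact ⟨d / 50, by positivity, (hd _ (θ 0 / 50) hy (fun _ => zz_i _ _) fun s => by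
      rw [zz_k]; simp [rot, e]; ring).congr_deriv (by ring)⟩

end Pool.Agent.MP_e1dc65_gt.T.Pr

end
end MrgPart1

-- ======== part 2: formerly Pool.Agent.MP_e1dc65_gt.t.PreBsm
section MrgPart2

/-! PROJECT HC, block NF, row INT-BSM: the ascending disc below the level is cut out by `b j`. -/

open scoped ContDiff Manifold Topology Real
open Set Filter Function Module Topology

noncomputable section

namespace Pool.Agent.MP_e1dc65_gt.T.Pr

namespace Bsm

/-- the cube round the vertex -/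
def Cb (j : Fin 3) : Set (Rn 3) :=
  {w | ∀ k, |w k - ((Pi.single j 1 : Fin 3 → ℤ) k : ℝ) * π| < 2 / 25}
/-- the disc in the wall -/
def Dk (j : Fin 3) : Set (Rn 3) := {w | w j = π ∧ w (jx j) ^ 2 + w (kx j) ^ 2 ≤ 1 / 400}

variable {j : Fin 3} {w : Rn 3} {U : Eu}

theorem cb_open (j : Fin 3) : IsOpen (Cb j) := by
  rw [Cb, ofPred_forall]
  exact isOpen_iInter_of_finite fun k => isOpen_lt (by fun_prop) continuous_const

theorem dk_closed (j : Fin 3) : IsClosed (Dk j) :=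
  (isClosed_eq (continuous_apply j) continuous_const).inter (isClosed_le
    (f := fun w : Rn 3 => w (jx j) ^ 2 + w (kx j) ^ 2) (by fun_prop) continuous_const)

theorem dk_cb (h : w ∈ Dk j) : w ∈ Cb j := fun k => by
  obtain ⟨h1, h2⟩ := h
  rcases idx j k with rfl | rfl | rfl
  · simp [h1]
  · simp only [Pi.single_eq_of_ne (jx_ne j), Int.cast_zero, zero_mul, sub_zero]
    exact abs_lt_of_sq_lt_sq (by nlinarith) (by norm_num)
  · simp only [Pi.single_eq_of_ne (kx_ne j), Int.cast_zero, zero_mul, sub_zero]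
    exact abs_lt_of_sq_lt_sq (by nlinarith) (by norm_num)

theorem g_eq (hU : U.Ok) (h : w ∈ Cb j) (e : w j = π) :
    U.g w = -π + (w (jx j) ^ 2 + w (kx j) ^ 2) := by
  have a := h (jx j)
  have b := h (kx j)
  simp only [Pi.single_eq_of_ne (jx_ne j), Pi.single_eq_of_ne (kx_ne j), Int.cast_zero, zero_mul,
    sub_zero] at a b
  have c := hU.sc.mir 0
  rw [sub_zero, hU.sc.quad 0 (by norm_num)] at c
  have s : ∑ k, U.p (w k) = U.p (w j) + U.p (w (jx j)) + U.p (w (kx j)) := by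
    rw [Fin.sum_univ_three]
    fin_cases j <;> simp [jx, kx] <;> ring
  rw [(hU.vd.near w _ h).2, s, e, c, hU.sc.quad _ a.le, hU.sc.quad _ b.le]
  ring

end Bsm

open Bsm in
theorem bsm : BsmStmt := by
  rintro U N D b ⟨hU, hF, hD, hN, hb⟩ j m ⟨τ, c, hc, e⟩ hm
  obtain ⟨y, hy⟩ : ∃ y : Rn 3, y = Pi.single j π - ins j 0 c := ⟨_, rfl⟩
  have yj : y j = π := by simp [hy, ins]
  have yk : y ∈ Dk j := by
    have h1 : (0 : ℝ) ^ 2 + ‖c‖ ^ 2 < N.δ ^ 2 := hc
    rw [hN.δ, EuclideanSpace.real_norm_sq_eq, Fin.sum_univ_two] at h1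
    refine ⟨yj, ?_⟩
    simp only [hy, Pi.sub_apply, Pi.single_eq_of_ne (jx_ne j), Pi.single_eq_of_ne (kx_ne j), ins,
      if_neg (jx_ne j), if_neg (kx_ne j), if_neg (jx_ne_kx j).symm, if_true]
    linarith
  have em : m = D.φ τ (D.K none y) := by rw [e, hN.φ, hN.c₁, hy]; rfl
  have nv : ∀ w ∈ Cb j, Nv w := fun w h => ⟨_, h⟩
  have lv : ∀ s ∈ uIcc 0 τ, D.f (D.φ s (D.K none y)) ≤ tt := fun s hs => by
    refine (hD.mono hU _ hs.2).trans ?_
    rcases max_choice 0 τ with t | t <;> simp only [t]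
    · rw [hD.fl.zero, hD.fn none y (nv y (dk_cb yk)).dom, g_eq hU (dk_cb yk) yj, tt]
      linarith [yk.2]
    · rw [← em, ← hN.f]; exact hm
  have step : ∀ s ∈ uIcc 0 τ, (∀ u ∈ uIcc 0 s, U.Ψ u y ∈ Cb j) → U.Ψ s y ∈ Dk j := fun s hs H => by
    have h1 := H s right_mem_uIcc
    have h2 : U.Ψ s y j = π := (hF.Ψfix s y j (by rw [yj, Real.sin_pi])).trans yj
    have h3 := lv s hs
    rw [hD.orb hU fun u hu => (nv _ (H u hu)).dom, hD.fn none _ (nv _ h1).dom, g_eq hU h1 h2,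
      tt] at h3
    exact ⟨h2, by linarith⟩
  have all : ∀ s ∈ uIcc 0 τ, U.Ψ s y ∈ Dk j := by
    rcases le_total 0 τ with t | t
    · rw [uIcc_of_le t] at step ⊢
      exact hU.Ψfl.stay (dk_closed j) (cb_open j) (fun _ => dk_cb) yk fun s hs H =>
        step s hs (by rwa [uIcc_of_le hs.1])
    · rw [uIcc_of_ge t] at step ⊢
      intro s hs
      have := hU.Ψfl.neg.stay (t := -τ) (dk_closed j) (cb_open j) (fun _ => dk_cb) yk
        (fun s hs H => step (-s) ⟨by linarith [hs.2], by linarith [hs.1]⟩ fun u hu => by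
          rw [uIcc_of_ge (by linarith [hs.1])] at hu
          simpa using H (-u) ⟨by linarith [hu.2], by linarith [hu.1]⟩)
        (-s) ⟨by linarith [hs.2], by linarith [hs.1]⟩
      simpa using this
  have hw := all τ right_mem_uIcc
  rw [hD.orb hU fun u hu => (nv _ (dk_cb (all u hu))).dom] at em
  generalize U.Ψ τ y = w at hw em
  have hc' := dk_cb hw
  have ev : (fun z => b j (D.K none z)) =ᶠ[𝓝 w] fun z : Rn 3 => π - z j := by
    filter_upwards [(cb_open j).mem_nhds hc'] with z hz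
    have a := hz j
    rw [Pi.single_eq_same, Int.cast_one, one_mul, abs_sub_comm] at a
    rw [hb j none z (nv z hz).dom, (hU.vd.near z _ hz).1 j, ← hU.sc.ηmir, hU.sc.η0 _ a]
  have ld := hD.ld none w (nv w hc').dom
  have sm : SmAt N.F (vs ℝ) (b j) (D.K none w) :=
    ld.sm_of_comp ((smAt_vs.2 (by fun_prop)).congr' ev)
  subst em
  refine ⟨⟨w, nv w hc', rfl⟩, sm, by rw [ev.eq_of_nhds, hw.1, sub_self], fun h0 => ?_⟩
  have h1 := Df_comp ld.sm sm
  have h2 : HasFDerivAt (fun z : Rn 3 => π - z j) _ w :=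
    (hasFDerivAt_apply (𝕜 := ℝ) j w).const_sub π
  rw [h0, ContinuousLinearMap.zero_comp, Df_congr (X := vs (Rn 3)) (Y := vs ℝ) ev, Df_vs,
    h2.fderiv] at h1
  simpa using congrArg (fun L => L (Pi.single j 1)) h1

end Pool.Agent.MP_e1dc65_gt.T.Pr

end
end MrgPart2

-- ======== part 3: formerly Pool.Agent.MP_e1dc65_gt.t.PreCh
section MrgPart3

/-! PROJECT HC, block NF, row CH: the cut-off functions of the quadrants. -/

open scoped ContDiff Manifold Topology Real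
open Set Filter Function Module Topology

noncomputable section

namespace Pool.Agent.MP_e1dc65_gt.T.Pr

namespace ChP

/-- the cut-off as a function of the two values of `p` -/
def cc (a b : ℝ) : ℝ := Real.smoothTransition ((529 / 25 - (a + b) ^ 2) / (88 / 25)) *
  Real.smoothTransition ((1 - (b - a) ^ 2) / (9 / 25))

theorem cc_mem (a b : ℝ) : cc a b ∈ Icc (0 : ℝ) 1 :=
  ⟨mul_nonneg (Real.smoothTransition.nonneg _) (Real.smoothTransition.nonneg _),
    mul_le_one₀ (Real.smoothTransition.le_one _) (Real.smoothTransition.nonneg _)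
      (Real.smoothTransition.le_one _)⟩

theorem cc_ne {a b : ℝ} (h : cc a b ≠ 0) : |a + b| ≤ 23 / 5 ∧ |b - a| ≤ 1 := by
  obtain ⟨h1, h2⟩ := mul_ne_zero_iff.1 h
  rw [Ne, Real.smoothTransition.zero_iff_nonpos, not_le, div_pos_iff_of_pos_right (by norm_num)]
    at h1 h2
  exact ⟨abs_le_of_sq_le_sq' (by linarith) (by norm_num) |> abs_le.2,
    abs_le_of_sq_le_sq' (by linarith) (by norm_num) |> abs_le.2⟩

theorem cc_one {a b : ℝ} (ha : |a| ≤ 2 / 5) (hb : |b| ≤ 2 / 5) : cc a b = 1 := by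
  obtain ⟨a1, a2⟩ := abs_le.1 ha
  obtain ⟨b1, b2⟩ := abs_le.1 hb
  rw [cc, Real.smoothTransition.one_of_one_le, Real.smoothTransition.one_of_one_le, mul_one] <;>
    rw [one_le_div (by norm_num)] <;> nlinarith

theorem cc_neg (a b : ℝ) : cc (-a) (-b) = cc a b := by
  rw [cc, cc, show (-a + -b) ^ 2 = (a + b) ^ 2 by ring, show (-b - -a) ^ 2 = (b - a) ^ 2 by ring]

theorem st_der {t : ℝ} (h : 1 < t) : deriv Real.smoothTransition t = 0 := by
  have : Real.smoothTransition =ᶠ[𝓝 t] fun _ => 1 :=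
    (lt_mem_nhds h).mono fun s hs => Real.smoothTransition.one_of_one_le hs.le
  rw [this.deriv_eq, deriv_const]

open Classical in
/-- the cut-off function of the quadrant `i` -/
def chi (p : ℝ → ℝ) (i : Fin 3) (z : Rn 3) : ℝ :=
  if z ∈ Qd i then cc (p (z (jx i))) (p (z (kx i))) else 0

theorem isOpen_qd (i : Fin 3) : IsOpen (Qd i) := by
  refine IsOpen.and (isOpen_lt ?_ ?_) (isOpen_lt ?_ ?_) <;> fun_prop

theorem sg_ne (i : Fin 3) : sg i ≠ 0 := by fin_cases i <;> simp [sg]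

variable {p η : ℝ → ℝ}

theorem chi_mem (i : Fin 3) (z : Rn 3) : chi p i z ∈ Icc (0 : ℝ) 1 := by
  unfold chi
  split_ifs
  exacts [cc_mem _ _, ⟨le_rfl, zero_le_one⟩]

theorem chi_ne {i : Fin 3} {z : Rn 3} (h : chi p i z ≠ 0) :
    z ∈ Qd i ∧ cc (p (z (jx i))) (p (z (kx i))) ≠ 0 := by
  unfold chi at h
  split_ifs at h with hz
  exacts [⟨hz, h⟩, absurd rfl h]

theorem chi_sup {i : Fin 3} {z : Rn 3} (h : z ∉ Cor p i) : chi p i z = 0 := by
  by_contra hc
  obtain ⟨h1, h2⟩ := chi_ne hc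
  obtain ⟨h3, h4⟩ := (cc_ne h2).imp abs_le.1 abs_le.1
  exact h ⟨h1, abs_le.2 ⟨by linarith, by linarith⟩, abs_le.2 ⟨by linarith, by linarith⟩⟩

theorem chi_ev {i : Fin 3} {z : Rn 3} (h : z ∈ Qd i) :
    chi p i =ᶠ[𝓝 z] fun w => cc (p (w (jx i))) (p (w (kx i))) :=
  mem_of_superset ((isOpen_qd i).mem_nhds h) fun _ hw => if_pos hw

theorem isClosed_cor (h : Sc p η) (i : Fin 3) : IsClosed (Cor p i) := by
  have c := h.sm.continuous
  have k : ∀ t, |p t| ≤ 14 / 5 → sg i * Real.sin t ≠ 0 := fun t ht =>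
    mul_ne_zero (sg_ne i) fun e => by linarith [h.top t e, Real.pi_gt_three]
  have : Cor p i = {z | (sg i * Real.sin (z (jx i)) ≤ 0 ∧ 0 ≤ sg i * Real.sin (z (kx i))) ∧
      |p (z (jx i))| ≤ 14 / 5 ∧ |p (z (kx i))| ≤ 14 / 5} := Set.ext fun z =>
    ⟨fun hz => ⟨⟨hz.1.1.le, hz.1.2.le⟩, hz.2⟩, fun hz =>
      ⟨⟨hz.1.1.lt_of_ne (k _ hz.2.1), hz.1.2.lt_of_ne' (k _ hz.2.2)⟩, hz.2⟩⟩
  rw [this]
  refine IsClosed.and (IsClosed.and (isClosed_le ?_ ?_) (isClosed_le ?_ ?_))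
    (IsClosed.and (isClosed_le ?_ ?_) (isClosed_le ?_ ?_)) <;> fun_prop

theorem chi_sm (h : Sc p η) (i : Fin 3) : ContDiff ℝ ∞ (chi p i) := by
  refine contDiff_iff_contDiffAt.2 fun z => ?_
  by_cases hz : z ∈ Qd i
  · refine ContDiffAt.congr_of_eventuallyEq (ContDiff.contDiffAt ?_) (chi_ev hz)
    have a : ∀ k, ContDiff ℝ ∞ fun w : Rn 3 => p (w k) := fun k =>
      h.sm.comp (contDiff_apply ℝ ℝ k)
    exact (Real.smoothTransition.contDiff.comp
      ((contDiff_const.sub (((a _).add (a _)).pow 2)).div_const _)).mul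
      (Real.smoothTransition.contDiff.comp
        ((contDiff_const.sub (((a _).sub (a _)).pow 2)).div_const _))
  · exact (contDiffAt_const (c := 0)).congr_of_eventuallyEq (mem_of_superset
      ((isClosed_cor h i).isOpen_compl.mem_nhds fun hc => hz hc.1) fun _ hw => chi_sup hw)

theorem near1 (h : Sc p η) {t : ℝ} (ht : |t - π / 2| < 2 * eps) :
    0 < Real.sin t ∧ |p t| ≤ 2 / 5 := by
  have h3 := Real.pi_gt_three
  rw [eps] at ht
  obtain ⟨a, b⟩ := abs_lt.1 ht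
  refine ⟨Real.sin_pos_of_pos_of_lt_pi (by linarith) (by linarith), ?_⟩
  rw [h.lin t (by linarith)]
  exact abs_le.2 ⟨by linarith, by linarith⟩

theorem near2 (h : Sc p η) {t : ℝ} (ht : |t - 3 * π / 2| < 2 * eps) :
    Real.sin t < 0 ∧ |p t| ≤ 2 / 5 := by
  obtain ⟨a, b⟩ := near1 h (t := 2 * π - t)
    (by rwa [show 2 * π - t - π / 2 = -(t - 3 * π / 2) by ring, abs_neg])
  rw [Real.sin_two_pi_sub] at a
  rw [show 2 * π - t = -t + 2 * π * (1 : ℤ) by push_cast; ring, h.per, h.even] at b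
  exact ⟨by linarith, b⟩

theorem chi_box (h : Sc p η) (i : Fin 3) {z : Rn 3} (hz : z ∈ Box i) : chi p i z = 1 := by
  have k : z ∈ Qd i ∧ |p (z (jx i))| ≤ 2 / 5 ∧ |p (z (kx i))| ≤ 2 / 5 := by
    obtain ⟨h1, h2⟩ := hz
    fin_cases i
    · exact ⟨⟨(one_mul _).trans_lt (near2 h h1).1, (near1 h h2).1.trans_eq (one_mul _).symm⟩,
        (near2 h h1).2, (near1 h h2).2⟩
    · exact ⟨⟨mul_neg_of_neg_of_pos neg_one_lt_zero (near1 h h1).1,
        mul_pos_of_neg_of_neg neg_one_lt_zero (near2 h h2).1⟩, (near1 h h1).2, (near2 h h2).2⟩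
    · exact ⟨⟨(one_mul _).trans_lt (near2 h h1).1, (near1 h h2).1.trans_eq (one_mul _).symm⟩,
        (near2 h h1).2, (near1 h h2).2⟩
  rw [chi, if_pos k.1, cc_one k.2.1 k.2.2]

theorem chi_der (h : Sc p η) (i : Fin 3) (z v : Rn 3) (h1 : v (jx i) = η (z (jx i)))
    (h2 : v (kx i) = η (z (kx i))) :
    0 ≤ fderiv ℝ (chi p i) z v * (-p (z i) - 3 / 4 * (p (z (jx i)) + p (z (kx i)))) := by
  by_cases hz : z ∈ Cor p i
  swap
  · have : IsLocalMin (chi p i) z := .of_forall fun w => (chi_sup hz).trans_le (chi_mem i w).1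
    rw [this.fderiv_eq_zero, zero_apply, zero_mul]
  have a : ∀ k, HasFDerivAt (fun w : Rn 3 => p (w k))
      ((2 * η (z k)) • (ContinuousLinearMap.proj k : Rn 3 →L[ℝ] ℝ)) z := fun k =>
    (h.der _).comp_hasFDerivAt z (hasFDerivAt_apply k z)
  have s : ∀ t, HasDerivAt Real.smoothTransition (deriv Real.smoothTransition t) t := fun t =>
    ((Real.smoothTransition.contDiff (n := 1)).differentiable one_ne_zero t).hasDerivAt
  have d := ((s _).comp_hasFDerivAt z (((((a (jx i)).add (a (kx i))).pow 2).const_sub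
    (529 / 25)).mul_const (88 / 25 : ℝ)⁻¹)).mul ((s _).comp_hasFDerivAt z
      (((((a (kx i)).sub (a (jx i))).pow 2).const_sub 1).mul_const (9 / 25 : ℝ)⁻¹))
  have e : fderiv ℝ (chi p i) z = _ := (chi_ev hz.1).fderiv_eq.trans d.fderiv
  have f1 := h.flat _ hz.2.1
  have f2 := h.flat _ hz.2.2
  set g := p (z (jx i)) + p (z (kx i)) with hg
  have e2 : fderiv ℝ (chi p i) z v = -(deriv Real.smoothTransition
      ((529 / 25 - g ^ 2) * (88 / 25 : ℝ)⁻¹) * Real.smoothTransition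
        ((1 - (p (z (kx i)) - p (z (jx i))) ^ 2) * (9 / 25 : ℝ)⁻¹) * (25 / 11)) * g := by
    rw [e]
    simp [h1, h2, hg, mul_assoc 2 (η _), ← sq, f1, f2]
    ring
  rw [e2]
  by_cases hc : g ^ 2 < 441 / 25
  · rw [st_der (by linarith)]
    simp
  · have b1 : 0 ≤ g * (p (z i) + 3 / 4 * g) := by
      obtain ⟨c1, c2⟩ := abs_le.1 (h.bd (z i))
      have := Real.pi_lt_d2
      rcases le_total 0 g with h0 | h0
      · have : 21 / 5 ≤ g := by nlinarith
        exact mul_nonneg h0 (by linarith)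
      · have : g ≤ -(21 / 5) := by nlinarith
        exact mul_nonneg_of_nonpos_of_nonpos h0 (by linarith)
    have b2 := mul_nonneg (mul_nonneg (Real.smoothTransition.monotone.deriv_nonneg
      (x := (529 / 25 - g ^ 2) * (88 / 25 : ℝ)⁻¹)) (Real.smoothTransition.nonneg
        ((1 - (p (z (kx i)) - p (z (jx i))) ^ 2) * (9 / 25 : ℝ)⁻¹))) b1
    linarith

end ChP

open ChP in
theorem ch : ChStmt := by
  intro p η h
  refine ⟨chi p, chi_sm h, fun i z z' hl => ?_, fun i z => ?_, chi_mem, fun _ _ => chi_sup,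
    fun i _ => chi_box h i, fun i z hz => (cc_ne (chi_ne hz).2).1, chi_der h⟩
  · have k : ∀ k, Real.sin (z k) = Real.sin (z' k) ∧ p (z k) = p (z' k) := fun k => by
      obtain ⟨m, hm⟩ := hl k
      rw [show z k = z' k + 2 * π * m by linarith, h.per, mul_comm, Real.sin_add_int_mul_two_pi]
      exact ⟨rfl, rfl⟩
    simp only [chi, Qd, mem_ofPred_eq, k]
    congr
  · simp only [chi, Qd, mem_ofPred_eq, Pi.sub_apply, q0, Real.sin_pi_sub, h.mir, cc_neg]
    congr

end Pool.Agent.MP_e1dc65_gt.T.Pr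

end
end MrgPart3

-- ======== part 4: formerly Pool.Agent.MP_e1dc65_gt.t.PreCls
section MrgPart4

/-! PROJECT HC, block NF, row INT-CLS: the directions whose orbit meets an ascending disc. -/

open scoped ContDiff Manifold Topology Real
open Set Filter Function Module Topology

noncomputable section

namespace Pool.Agent.MP_e1dc65_gt.T.Pr

namespace ClsP

theorem st_half {x : ℝ} (h : Real.smoothTransition x = 1 / 2) : x = 1 / 2 := by
  have p := Real.smoothTransition.pos_denom x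
  have e : expNegInvGlue x = expNegInvGlue (1 - x) := by
    rw [Real.smoothTransition, div_eq_iff p.ne'] at h
    linarith
  have h0 : ¬x ≤ 0 := fun c => by rw [← e, expNegInvGlue.zero_of_nonpos c] at p; linarith
  have h1 : ¬1 - x ≤ 0 := fun c => by rw [e, expNegInvGlue.zero_of_nonpos c] at p; linarith
  simp only [expNegInvGlue, if_neg h0, if_neg h1, Real.exp_eq_exp, neg_inj, inv_inj] at e
  linarith

theorem lam_half {x : ℝ} (h : lam x = 1 / 2) : x = 0 := by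
  have := st_half h
  rw [eps, div_eq_iff (by norm_num)] at this
  linarith

theorem abs_le_one {θ : E2} (h : ‖θ‖ = 1) (k : Fin 2) : |θ k| ≤ 1 :=
  h ▸ PiLp.norm_apply_le θ k

theorem small {x : ℝ} {m : ℤ} (h : |x| ≤ 1) (e : x / 50 = 2 * π * m) : x = 0 := by
  have := Lat.close (n := 1) (z := fun _ => x / 50) (z' := 0) (i := 0)
    (fun _ => ⟨m, by simpa using e⟩) (by
      rw [Pi.zero_apply, sub_zero, abs_div, abs_of_pos (by norm_num : (0 : ℝ) < 50)]
      linarith [Real.pi_gt_three])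
  simpa using this

theorem sin_pos {x : ℝ} (h : |x| ≤ 1) (e : 0 < Real.sin (x / 50)) : 0 < x := by
  by_contra c
  have h1 := abs_le.1 h
  exact absurd (Real.sin_nonpos_of_nonpos_of_neg_pi_le (x := x / 50) (by linarith)
    (by linarith [Real.pi_gt_three])) (not_le.2 e)

end ClsP

open ClsP in
theorem cls : ClsStmt := by
  rintro U N D b ⟨hU, hF, hD, hN, -⟩ i j θ hθ ⟨τ, c, hc, e⟩
  have h3 := Real.pi_gt_three
  have a0 := abs_le_one hθ 0
  have a1 := abs_le_one hθ 1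
  have b0 := abs_le.1 a0
  have b1 := abs_le.1 a1
  set z := zz i θ with hz
  set y : Rn 3 := Pi.single j π - ins j 0 c with hy
  have hc' : ‖c‖ < 1 / 25 := by
    have : (0 : ℝ) ^ 2 + ‖c‖ ^ 2 < N.δ ^ 2 := hc
    rw [hN.δ] at this
    exact lt_of_pow_lt_pow_left₀ 2 (by norm_num) (by linarith)
  have ck2 : ∀ k, |c k| < 2 / 25 := fun k => (PiLp.norm_apply_le c k).trans_lt (by linarith)
  have ny : Nv y := ⟨Pi.single j 1, fun k => by
    by_cases h : k = j
    · simp [y, ins, h]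
    · by_cases h' : k = jx j
      · simpa [y, ins, h, h', jx_ne j] using ck2 0
      · simpa [y, ins, h, h'] using ck2 1⟩
  have e1 : D.φ (-τ) (D.K none z) = D.K none y := by
    rw [← hN.dn, e, hN.φ, ← hD.fl.add, neg_add_cancel, hD.fl.zero, hN.c₁]
    rfl
  have fin : ∀ a T x, U.Ψ T x ∈ Dom a → D.K a (U.Ψ T x) = D.K none y →
      Real.sin (x j) = 0 ∧ ∃ m : ℤ, x j - π = 2 * π * m := fun a T x h1 h2 => by
    have l := (hD.sep a none _ h1 _ ny.dom h2).lat ny
    have yj : y j = π := by simp [y, ins]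
    have s : Real.sin (U.Ψ T x j) = 0 := by rw [lat_sin l, yj, Real.sin_pi]
    have lj := l j
    rw [yj] at lj
    rw [← hF.Ψfix' T x j s]
    exact ⟨s, lj⟩
  have zi : z i = 0 := zz_i i θ
  have zj : z (jx i) = π + θ 0 / 50 := zz_j i θ
  have zk : z (kx i) = π + θ 1 / 50 := zz_k i θ
  have si : Real.sin (z i) = 0 := by rw [zi, Real.sin_zero]
  have easy : (∃ m : ℤ, z j - π = 2 * π * m) →
      (θ = s0 i ∧ j = i) ∨ (θ 0 = 0 ∧ j = jx i) ∨ (θ 1 = 0 ∧ j = kx i) := by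
    rintro ⟨m, hm⟩
    rcases idx i j with rfl | rfl | rfl
    · exact absurd hm (no_int (k := -1) (by push_cast; linarith) (by push_cast; linarith))
    · exact Or.inr (Or.inl ⟨small a0 (m := m) (by linarith), rfl⟩)
    · exact Or.inr (Or.inr ⟨small a1 (m := m) (by linarith), rfl⟩)
  by_cases hq : z ∈ Qd i
  swap
  · obtain ⟨h1, h2⟩ := hD.orb0 hU hF (z := z) (fun k => by
      by_cases h : i = k
      · exact h ▸ hq
      · exact not_qd si h) (-τ)
    exact easy (fin none _ z h1 (h2.symm.trans e1)).2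
  have p0 : 0 < sg i * θ 0 := by
    have h := hq.1
    rw [zj, add_comm, Real.sin_add_pi] at h
    refine sin_pos (by rwa [abs_sg_mul]) ?_
    rcases sg_cases i with s | s <;> rw [s] at h ⊢
    · rw [one_mul]; linarith
    · rw [neg_one_mul, neg_div, Real.sin_neg]; linarith
  have p1 : 0 < -(sg i * θ 1) := by
    have h := hq.2
    rw [zk, add_comm, Real.sin_add_pi] at h
    refine sin_pos (by rwa [abs_neg, abs_sg_mul]) ?_
    rcases sg_cases i with s | s <;> rw [s] at h ⊢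
    · rw [one_mul, neg_div, Real.sin_neg]; linarith
    · rw [neg_one_mul, neg_neg]; linarith
  have q0 := abs_le.1 ((abs_sg_mul i _).trans_le a0)
  have q1 := abs_le.1 ((abs_sg_mul i _).trans_le a1)
  have et : sg i * tau i z = sg i * θ 0 / 50 - π / 2 := by
    rw [tau, zj, cj_eq]; linear_combination (-(π / 2)) * sg_sq i
  have en : sg i * nu i z = sg i * θ 1 / 50 + π / 2 := by
    rw [nu, zk, ck_eq]; linear_combination (π / 2) * sg_sq i
  have hs : z ∈ St i :=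
    ⟨by rw [← abs_sg_mul i, et, abs_lt]; constructor <;> linarith,
      by rw [← abs_sg_mul i, en, abs_lt]; constructor <;> linarith⟩
  have nz : Nv z := ⟨fun k => if k = i then 0 else 1, fun k => by
    rcases idx i k with rfl | rfl | rfl
    · simp [zi]
    · simp only [if_neg (jx_ne i), zj, abs_lt]; push_cast; constructor <;> linarith
    · simp only [if_neg (kx_ne i), zk, abs_lt]; push_cast; constructor <;> linarith⟩
  rw [← hD.eq0 (some (i, true)) z ⟨hs, by rw [en]; linarith⟩ nz.dom] at e1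
  obtain ⟨T₀, -, hT⟩ := hF.time i
  set T := T₀ (z (kx i))
  have hk : U.ψ T (z (kx i)) = ck i := hT _ hs.2
  have wk : U.Ψ T z (kx i) = ck i :=
    (hF.Ψψ T z (not_oct si) _ fun h => kx_ne i (qd_disj h hq)).trans hk
  have wj : U.Ψ T z (jx i) = U.ψ T (z (jx i)) :=
    hF.Ψψ T z (not_oct si) _ fun h => jx_ne i (qd_disj h hq)
  have n0 : nu i (U.Ψ T z) = 0 := by rw [nu, wk, sub_self]
  have T0 : T ≤ 0 := ((hF.Ψnu i z hs).lt_iff_lt.1 (by
    simp only [n0, mul_zero, hU.Ψfl.zero, en]; linarith)).le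
  rcases le_total T (-τ) with h | h
  · obtain ⟨h1, h2⟩ := hD.late hU hF hs T0 (by rw [n0]; norm_num) h
    exact easy (fin _ _ z h1 (h2.symm.trans e1)).2
  obtain ⟨h1, h2⟩ := hD.early hU hF hs T0 (by rw [n0]; norm_num) h
  obtain ⟨s, m, hm⟩ := fin _ _ _ h1 (h2.symm.trans e1)
  obtain rfl : j = i := by_contra fun c =>
    not_qd s c (st_qd (st_sh _ _ ((hF.Ψst T z i).2 hs)))
  refine Or.inl ⟨?_, rfl⟩
  have wi : U.Ψ T z j = 0 := (hF.Ψfix T z j si).trans zi
  simp only [Pi.sub_apply, sh, Pi.single_eq_same, wi, n0, add_zero] at hm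
  have l0 := Fn.lam_nonneg (t := D.s * tau j (U.Ψ T z))
  have l1 := Fn.lam_le_one (t := D.s * tau j (U.Ψ T z))
  have l2 : sg j * lam (D.s * tau j (U.Ψ T z)) = -(1 / 2) - m :=
    mul_left_cancel₀ Real.two_pi_pos.ne' (by linarith)
  have l3 : lam (D.s * tau j (U.Ψ T z)) = 1 / 2 := by
    rcases sg_cases j with s | s <;> rw [s] at l2
    · have c1 : (-2 : ℤ) < m := by exact_mod_cast (by linarith : (-2 : ℝ) < m)
      have c2 : m < 0 := by exact_mod_cast (by linarith : (m : ℝ) < 0)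
      obtain rfl : m = -1 := by omega
      push_cast at l2
      linarith
    · have c1 : (-1 : ℤ) < m := by exact_mod_cast (by linarith : (-1 : ℝ) < m)
      have c2 : m < 1 := by exact_mod_cast (by linarith : (m : ℝ) < 1)
      obtain rfl : m = 0 := by omega
      push_cast at l2
      linarith
  have t0 : tau j (U.Ψ T z) = 0 := by
    have := lam_half l3
    rcases hD.sgn with s | s <;> rw [s] at this <;> linarith
  have e2 : z (jx j) = -z (kx j) + 2 * π * (1 : ℤ) := (hF.ψmono T).injective (by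
    rw [hF.ψper, hF.ψodd, hk, ← wj, sub_eq_zero.1 t0, cj_eq, ck_eq]; push_cast; ring)
  have e3 : θ 1 = -θ 0 := by rw [zj, zk] at e2; push_cast at e2; linarith
  have e4 : θ 0 ^ 2 + θ 1 ^ 2 = 1 := by
    have := EuclideanSpace.real_norm_sq_eq θ
    rw [hθ, Fin.sum_univ_two] at this
    linarith
  have r2 : (0 : ℝ) < √2 := by positivity
  have e5 : sg j * θ 0 = 1 / √2 := by
    refine (pow_left_inj₀ p0.le (by positivity) two_ne_zero).1 ?_
    rw [div_pow, Real.sq_sqrt zero_le_two, mul_pow, sq (sg j), sg_sq]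
    rw [e3] at e4
    linarith
  have e6 : θ 0 = sg j / √2 := by
    rw [← one_mul (θ 0), ← sg_sq j, mul_assoc, e5]; ring
  ext k
  fin_cases k
  · simpa [s0] using e6
  · simpa [s0, e3] using e6

end Pool.Agent.MP_e1dc65_gt.T.Pr

end
end MrgPart4

-- ======== part 5: formerly Pool.Agent.MP_e1dc65_gt.t.PreFl
section MrgPart5

/-! PROJECT HC, block NF, row FL: the flows on the line and on three-space. -/

open scoped ContDiff Manifold Topology Real
open Set Filter Function Module Topology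

noncomputable section

namespace Pool.Agent.MP_e1dc65_gt.T.Pr

namespace FlP

theorem flow_bdd {E : Type} [NormedAddCommGroup E] [NormedSpace ℝ E] [FiniteDimensional ℝ E]
    {v : E → E} (hv : ContDiff ℝ ∞ v) {C : ℝ} (hC : ∀ x, ‖v x‖ ≤ C) : ∃ φ, IsFlow (vs E) v φ := by
  have := FiniteDimensional.proper_real E
  refine exists_flow_proper (X := vs E) (g := fun x => x) (C := C)
    (fun _ => vfAt_vs.2 hv.contDiffAt) (fun _ _ => smAt_id) (fun R => ?_) fun x => ?_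
  · simpa only [Metric.closedBall, dist_zero_right] using isCompact_closedBall (0 : E) R
  · rw [Df_id (X := vs E)]
    exact hC x

theorem lin {u a : ℝ → ℝ} (ha : Continuous a) (hu : ∀ t, HasDerivAt u (a t * u t) t) (t : ℝ) :
    ∃ r, 0 < r ∧ u t = r * u 0 := by
  have h1 : ∀ t, HasDerivAt (fun t => u t * Real.exp (-∫ s in (0 : ℝ)..t, a s)) 0 t := fun t =>
    ((hu t).mul (ha.integral_hasStrictDerivAt 0 t).hasDerivAt.neg.exp).congr_deriv (by ring)
  have h2 := is_const_of_deriv_eq_zero (fun t => (h1 t).differentiableAt) (fun t => (h1 t).deriv) t 0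
  simp only [intervalIntegral.integral_same, neg_zero, Real.exp_zero, mul_one] at h2
  refine ⟨Real.exp (∫ s in (0 : ℝ)..t, a s), Real.exp_pos _, ?_⟩
  rw [← h2, mul_left_comm, ← Real.exp_add, add_neg_cancel, Real.exp_zero, mul_one]

/-- a curve whose speed is a multiple of `η` -/
def Cv (η c : ℝ → ℝ) : Prop := ∃ h : ℝ → ℝ, Continuous h ∧ ∀ t, HasDerivAt c (η (c t) * h t) t

section
variable {p η c : ℝ → ℝ} (S : Sc p η) (hc : Cv η c)
include hc

theorem Cv.cont : Continuous c :=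
  let ⟨_, _, h⟩ := hc; continuous_iff_continuousAt.2 fun t => (h t).continuousAt

include S

theorem Cv.sgn (t : ℝ) : ∃ r, 0 < r ∧ η (c t) = r * η (c 0) := by
  have k := hc.cont
  obtain ⟨h, h1, h2⟩ := hc
  refine lin (u := fun t => η (c t)) (a := fun t => deriv η (c t) * h t)
    (((S.ηsm.continuous_deriv (by simp)).comp k).mul h1) (fun t => ?_) t
  exact ((S.ηsm.differentiable (by simp) (c t)).hasDerivAt.comp t (h2 t)).congr_deriv (by ring)

theorem Cv.pos (t : ℝ) : 0 < Real.sin (c t) ↔ 0 < Real.sin (c 0) := by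
  obtain ⟨r, h1, h2⟩ := hc.sgn S t
  rw [← S.ηpos, ← S.ηpos, h2, mul_pos_iff_of_pos_left h1]

theorem Cv.neg (t : ℝ) : Real.sin (c t) < 0 ↔ Real.sin (c 0) < 0 := by
  obtain ⟨r, h1, h2⟩ := hc.sgn S t
  rw [← S.ηneg, ← S.ηneg, h2, ← neg_pos, ← mul_neg, mul_pos_iff_of_pos_left h1, neg_pos]

theorem Cv.zero (t : ℝ) : Real.sin (c t) = 0 ↔ Real.sin (c 0) = 0 := by
  obtain ⟨r, h1, h2⟩ := hc.sgn S t
  rw [← S.ηzero, ← S.ηzero, h2, mul_eq_zero_iff_left h1.ne']

theorem Cv.fix {s : ℝ} (hs : Real.sin (c s) = 0) (t : ℝ) : c t = c 0 := by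
  have h0 : ∀ t, η (c t) = 0 := fun t => (S.ηzero _).2 ((hc.zero S t).2 ((hc.zero S s).1 hs))
  obtain ⟨h, -, h2⟩ := hc
  exact is_const_of_deriv_eq_zero (fun t => (h2 t).differentiableAt)
    (fun t => by rw [(h2 t).deriv, h0, zero_mul]) t 0

theorem Cv.side {a : ℝ} (ha : Real.sin a = 0) (s t : ℝ) :
    (a < c s → a < c t) ∧ (c s < a → c t < a) := by
  have k : a ∈ uIcc (c s) (c t) → c s = a := fun h => by
    obtain ⟨u, -, hu⟩ := intermediate_value_uIcc hc.cont.continuousOn h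
    rw [hc.fix S (hu ▸ ha) s, ← hc.fix S (hu ▸ ha) u, hu]
  exact ⟨fun h => not_le.1 fun h' => h.ne' (k (mem_uIcc_of_ge h' h.le)),
    fun h => not_le.1 fun h' => h.ne (k (mem_uIcc_of_le h.le h'))⟩

theorem Cv.box {a : ℝ} (h1 : Real.sin (a - π / 2) = 0) (h2 : Real.sin (a + π / 2) = 0) (s t : ℝ)
    (h : |c s - a| < π / 2) : |c t - a| < π / 2 := by
  rw [abs_lt] at h ⊢
  constructor
  · linarith [(hc.side S h1 s t).1 (by linarith [h.1])]
  · linarith [(hc.side S h2 s t).2 (by linarith [h.2])]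

end

theorem sg_or (i : Fin 3) : sg i = 1 ∨ sg i = -1 := by fin_cases i <;> simp [sg]

theorem sin_c {a : ℝ} (h : a = π / 2 ∨ a = 3 * π / 2) :
    Real.sin (a - π / 2) = 0 ∧ Real.sin (a + π / 2) = 0 := by
  rcases h with rfl | rfl
  · simp
  · rw [show 3 * π / 2 - π / 2 = π by ring, show 3 * π / 2 + π / 2 = 2 * π by ring]
    simp

theorem cj_or (i : Fin 3) : cj i = π / 2 ∨ cj i = 3 * π / 2 := by fin_cases i <;> simp [cj]
theorem ck_or (i : Fin 3) : ck i = π / 2 ∨ ck i = 3 * π / 2 := by fin_cases i <;> simp [ck]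

theorem sin1 {x : ℝ} (h : |x - π / 2| < π / 2) : 0 < Real.sin x :=
  Real.sin_pos_of_pos_of_lt_pi (by linarith [(abs_lt.1 h).1]) (by linarith [(abs_lt.1 h).2])

theorem sin3 {x : ℝ} (h : |x - 3 * π / 2| < π / 2) : Real.sin x < 0 := by
  have := sin1 (x := x - π) (by rwa [show x - π - π / 2 = x - 3 * π / 2 by ring])
  rwa [Real.sin_sub_pi, neg_pos] at this

theorem st_pos {p η : ℝ → ℝ} {κ : ℝ} {V : Rn 3 → Rn 3} {g : Rn 3 → ℝ} (S : Sc p η)
    (D : VD p η κ V g) {i : Fin 3} {z : Rn 3} (hz : z ∈ St i) : 0 < sg i * V z (kx i) := by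
  obtain ⟨h1, h2⟩ := hz
  fin_cases i
  · have a := sin3 h1
    have b := sin1 h2
    rw [D.prod z (fun h => (h _).not_gt a) _ fun h => (h.1.2.trans_eq (one_mul _)).not_gt a]
    simpa [sg] using (S.ηpos _).2 b
  · have a := sin1 h1
    have b := sin3 h2
    rw [D.prod z (fun h => (h _).not_gt b) _ fun h => ((one_mul _).symm.trans_lt h.1.1).not_gt a]
    simpa [sg] using (S.ηneg _).2 b
  · have a := sin3 h1
    have b := sin1 h2
    rw [D.prod z (fun h => (h _).not_gt a) _ fun h =>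
      (neg_lt_zero.1 ((neg_one_mul _).symm.trans_lt h.1.1)).not_gt a]
    simpa [sg] using (S.ηpos _).2 b

variable {U : Eu} (h : U.Ok)
include h

theorem dψ (x t : ℝ) : HasDerivAt (fun s => U.ψ s x) (U.η (U.ψ t x)) t := h.ψfl.hasDerivAt_vs x t

theorem dΨ (z : Rn 3) (k : Fin 3) (t : ℝ) :
    HasDerivAt (fun s => U.Ψ s z k) (U.V (U.Ψ t z) k) t :=
  hasDerivAt_pi.1 (h.Ψfl.hasDerivAt_vs z t) k

theorem cψ (x : ℝ) : Cv U.η fun s => U.ψ s x :=
  ⟨fun _ => 1, continuous_const, fun t => by simpa only [mul_one] using dψ h x t⟩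

theorem cΨ (z : Rn 3) (k : Fin 3) : Cv U.η fun s => U.Ψ s z k := by
  obtain ⟨H, h1, h2⟩ := h.vd.fac
  have hc : Continuous fun s => U.Ψ s z := h.Ψfl.cont_curve z
  exact ⟨fun s => H (U.Ψ s z) k, (continuous_apply k).comp (h1.comp hc),
    fun t => h2 _ k ▸ dΨ h z k t⟩

theorem ψ0 (x : ℝ) : U.ψ 0 x = x := h.ψfl.zero x
theorem Ψ0 (z : Rn 3) : U.Ψ 0 z = z := h.Ψfl.zero z

theorem ψeq {c : ℝ → ℝ} (hc : ∀ s, HasDerivAt c (U.η (c s)) s) (t : ℝ) : U.ψ t (c 0) = c t :=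
  h.ψfl.eq_of_zero fun s _ => ic_vs.2 (hc s)

theorem ψper (t x : ℝ) (n : ℤ) : U.ψ t (x + 2 * π * n) = U.ψ t x + 2 * π * n := by
  have := ψeq h (c := fun s => U.ψ s x + 2 * π * n)
    (fun s => by rw [h.sc.ηper]; exact (dψ h x s).add_const _) t
  rwa [ψ0 h] at this

theorem ψodd (t x : ℝ) : U.ψ t (-x) = -U.ψ t x := by
  have := ψeq h (c := fun s => -U.ψ s x) (fun s => by rw [h.sc.ηodd]; exact (dψ h x s).neg) t
  rwa [ψ0 h] at this

theorem ψref (t x : ℝ) : U.ψ t (2 * π - x) = 2 * π - U.ψ t x := by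
  have := ψper h t (-x) 1
  rw [ψodd h, Int.cast_one, mul_one] at this
  rw [sub_eq_neg_add, this, sub_eq_neg_add]

theorem ψfix (t x : ℝ) (hx : Real.sin x = 0) : U.ψ t x = x := h.ψfl.fix ((h.sc.ηzero x).2 hx) t

theorem ψmono (t : ℝ) : StrictMono (U.ψ t) := by
  have hc : Continuous (U.ψ t) := h.ψfl.cont_time t
  refine (hc.strictMono_of_inj (h.ψfl.bij t).1).resolve_right fun k => ?_
  have := k Real.pi_pos
  rw [ψfix h t _ Real.sin_pi, ψfix h t _ Real.sin_zero] at this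
  exact this.not_gt Real.pi_pos

theorem ψder (t x : ℝ) : ∃ d, 0 < d ∧ HasDerivAt (U.ψ t) d x := by
  have k : ∀ t x, HasDerivAt (U.ψ t) (deriv (U.ψ t) x) x := fun t x =>
    ((smAt_vs.1 (h.ψfl.smAt_time t x)).differentiableAt (by simp)).hasDerivAt
  refine ⟨_, ((k t x).nonneg_of_monotone (ψmono h t).monotone).lt_of_ne fun e => ?_, k t x⟩
  have h1 := (k (-t) (U.ψ t x)).comp x (k t x)
  rw [← e, mul_zero, show U.ψ (-t) ∘ U.ψ t = id from funext (h.ψfl.neg_left t)] at h1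
  exact zero_ne_one (h1.unique (hasDerivAt_id x))

theorem lim {x L : ℝ} {l : Filter ℝ} [l.NeBot] (hl : ∀ s, Tendsto (fun t => s + t) l l)
    (hL : Tendsto (fun t => U.ψ t x) l (𝓝 L)) : Real.sin L = 0 := by
  have k : ∀ s, U.ψ s L = L := fun s => by
    have hc : Continuous (U.ψ s) := h.ψfl.cont_time s
    exact tendsto_nhds_unique ((hc.tendsto L).comp hL)
      ((hL.comp (hl s)).congr fun t => h.ψfl.add s t x)
  have h1 := dψ h L 0
  simp only [k] at h1
  exact (h.sc.ηzero L).1 (h1.unique (hasDerivAt_const 0 L))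

theorem ψin {x : ℝ} (hx : x ∈ Ioo 0 π) (t : ℝ) : U.ψ t x ∈ Ioo 0 π :=
  ⟨((cψ h x).side h.sc Real.sin_zero 0 t).1 ((ψ0 h x).symm ▸ hx.1),
    ((cψ h x).side h.sc Real.sin_pi 0 t).2 ((ψ0 h x).symm ▸ hx.2)⟩

theorem ψup (x : ℝ) (hx : x ∈ Ioo 0 π) : StrictMono (fun t => U.ψ t x) ∧
    Tendsto (fun t => U.ψ t x) atBot (𝓝 0) ∧ Tendsto (fun t => U.ψ t x) atTop (𝓝 π) := by
  have m : StrictMono fun t => U.ψ t x := strictMono_of_hasDerivAt_pos (dψ h x) fun t =>
    (h.sc.ηpos _).2 (Real.sin_pos_of_pos_of_lt_pi (ψin h hx t).1 (ψin h hx t).2)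
  have b1 : BddBelow (range fun t => U.ψ t x) := ⟨0, forall_mem_range.2 fun t => (ψin h hx t).1.le⟩
  have b2 : BddAbove (range fun t => U.ψ t x) := ⟨π, forall_mem_range.2 fun t => (ψin h hx t).2.le⟩
  have t1 := tendsto_atBot_ciInf m.monotone b1
  have t2 := tendsto_atTop_ciSup m.monotone b2
  have s1 := lim h (fun s => tendsto_atBot_add_const_left _ s tendsto_id) t1
  have s2 := lim h (fun s => tendsto_atTop_add_const_left _ s tendsto_id) t2
  refine ⟨m, ?_, ?_⟩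
  · rwa [← (le_ciInf fun t => (ψin h hx t).1.le).eq_of_not_lt fun k =>
      (Real.sin_pos_of_pos_of_lt_pi k ((ciInf_le b1 0).trans_lt (ψin h hx 0).2)).ne' s1] at t1
  · rwa [(ciSup_le fun t => (ψin h hx t).2.le).eq_of_not_lt fun k =>
      (Real.sin_pos_of_pos_of_lt_pi ((ψin h hx 0).1.trans_le (le_ciSup b2 0)) k).ne' s2] at t2

theorem ψdn (x : ℝ) (hx : x ∈ Ioo π (2 * π)) : StrictAnti (fun t => U.ψ t x) ∧
    Tendsto (fun t => U.ψ t x) atBot (𝓝 (2 * π)) ∧ Tendsto (fun t => U.ψ t x) atTop (𝓝 π) := by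
  obtain ⟨a, b, c⟩ := ψup h (2 * π - x) ⟨by linarith [hx.2], by linarith [hx.1]⟩
  have e : (fun t => U.ψ t x) = fun t => 2 * π - U.ψ t (2 * π - x) :=
    funext fun t => by rw [ψref h, sub_sub_cancel]
  rw [e]
  refine ⟨fun s t k => sub_lt_sub_left (a k) _, by simpa using b.const_sub (2 * π), ?_⟩
  simpa only [show 2 * π - π = π by ring] using c.const_sub (2 * π)

theorem time0 : ∃ T₀ : ℝ → ℝ, ContinuousOn T₀ (Ioo 0 π) ∧ ∀ x ∈ Ioo 0 π, U.ψ (T₀ x) x = π / 2 := by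
  obtain ⟨a, b, c⟩ := ψup h (π / 2) ⟨by positivity, half_lt_self Real.pi_pos⟩
  have hc := (cψ h (π / 2)).cont
  have r : ∀ x ∈ Ioo 0 π, U.ψ (invFun (fun t => U.ψ t (π / 2)) x) (π / 2) = x := fun x hx => by
    obtain ⟨t, -, ht⟩ := isPreconnected_univ.intermediate_value_Ioo (by simp) (by simp)
      hc.continuousOn b c hx
    exact invFun_eq (f := fun t => U.ψ t (π / 2)) ⟨t, ht⟩
  have e := a.isEmbedding_of_ordConnected (isPreconnected_range hc).ordConnected
  refine ⟨fun x => -invFun (fun t => U.ψ t (π / 2)) x,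
    (e.isInducing.continuousOn_iff.2 (continuousOn_id.congr r)).neg, fun x hx => ?_⟩
  have := h.ψfl.neg_left (invFun (fun t => U.ψ t (π / 2)) x) (π / 2)
  rwa [r x hx] at this

theorem time (i : Fin 3) : ∃ T₀ : ℝ → ℝ, ContinuousOn T₀ {x | |x - ck i| < π / 2} ∧
    ∀ x, |x - ck i| < π / 2 → U.ψ (T₀ x) x = ck i := by
  obtain ⟨T, h1, h2⟩ := time0 h
  rcases ck_or i with e | e <;> rw [e]
  · have m : ∀ x, |x - π / 2| < π / 2 → x ∈ Ioo 0 π := fun x hx =>
      ⟨by linarith [(abs_lt.1 hx).1], by linarith [(abs_lt.1 hx).2]⟩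
    exact ⟨T, h1.mono m, fun x hx => h2 x (m x hx)⟩
  · have m : ∀ x, |x - 3 * π / 2| < π / 2 → 2 * π - x ∈ Ioo 0 π := fun x hx =>
      ⟨by linarith [(abs_lt.1 hx).2], by linarith [(abs_lt.1 hx).1]⟩
    refine ⟨fun x => T (2 * π - x), h1.comp (by fun_prop) m, fun x hx => ?_⟩
    have := h2 _ (m x hx)
    rw [ψref h] at this
    linarith

theorem Ψlat (t : ℝ) (z : Rn 3) (n : Fin 3 → ℤ) :
    U.Ψ t (z + fun k => 2 * π * (n k : ℝ)) = U.Ψ t z + fun k => 2 * π * (n k : ℝ) := by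
  have := h.Ψfl.eq_of_zero (t := t) (c := fun s => U.Ψ s z + fun k => 2 * π * (n k : ℝ))
    fun s _ => ic_vs.2 (by
      rw [h.vd.latV _ (U.Ψ s z) fun k => ⟨n k, by simp⟩]
      exact (h.Ψfl.hasDerivAt_vs z s).add_const _)
  rwa [Ψ0 h] at this

theorem Ψpos (t : ℝ) (z : Rn 3) (k : Fin 3) : 0 < Real.sin (U.Ψ t z k) ↔ 0 < Real.sin (z k) := by
  simpa only [Ψ0 h] using (cΨ h z k).pos h.sc t

theorem Ψneg (t : ℝ) (z : Rn 3) (k : Fin 3) : Real.sin (U.Ψ t z k) < 0 ↔ Real.sin (z k) < 0 := by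
  simpa only [Ψ0 h] using (cΨ h z k).neg h.sc t

theorem Ψoct (t : ℝ) (z : Rn 3) : U.Ψ t z ∈ Oct ↔ z ∈ Oct := forall_congr' (Ψpos h t z)

theorem Ψqd (t : ℝ) (z : Rn 3) (i : Fin 3) : U.Ψ t z ∈ Qd i ↔ z ∈ Qd i := by
  rcases sg_or i with e | e <;> simp [Qd, e, Ψpos h, Ψneg h]

theorem Ψst (s t : ℝ) (z : Rn 3) (i : Fin 3) (k : U.Ψ s z ∈ St i) : U.Ψ t z ∈ St i :=
  ⟨(cΨ h z _).box h.sc (sin_c (cj_or i)).1 (sin_c (cj_or i)).2 s t k.1,
    (cΨ h z _).box h.sc (sin_c (ck_or i)).1 (sin_c (ck_or i)).2 s t k.2⟩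

end FlP

open FlP in
theorem fl : FlStmt := by
  refine ⟨fun p η κ V g S D => ?_, fun U h => ⟨ψper h, ψodd h, ψfix h, ψmono h, ψder h, ψup h,
    ψdn h, time h, Ψlat h, fun t z k e => ?_, fun t z k e => ?_, Ψpos h, Ψneg h, Ψoct h, Ψqd h,
    fun t z i => ⟨fun k => Ψ0 h z ▸ Ψst h t 0 z i k, fun k => Ψst h 0 t z i ((Ψ0 h z).symm ▸ k)⟩,
    fun t z hz k hk => ?_, fun i z hz => ?_⟩⟩
  · have per : Periodic η (2 * π) := fun t => by simpa using S.ηper t 1
    obtain ⟨C, hC⟩ := (per.isBounded_of_continuous Real.two_pi_pos.ne' S.ηsm.continuous).exists_norm_le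
    obtain ⟨ψ, hψ⟩ := flow_bdd S.ηsm fun x => hC _ (mem_range_self x)
    obtain ⟨B, hB⟩ := (isCompact_closedBall (0 : Rn 3) (2 * π)).exists_bound_of_continuousOn
      D.smV.continuous.continuousOn
    obtain ⟨Ψ, hΨ⟩ := flow_bdd D.smV (C := B) fun z => by
      rw [D.latV z (fun k => toIocMod Real.two_pi_pos 0 (z k)) fun k =>
        ⟨toIocDiv Real.two_pi_pos 0 (z k), by rw [self_sub_toIocMod, zsmul_eq_mul, mul_comm]⟩]
      refine hB _ (mem_closedBall_zero_iff.2 ((pi_norm_le_iff_of_nonneg Real.two_pi_pos.le).2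
        fun k => ?_))
      have := toIocMod_mem_Ioc Real.two_pi_pos 0 (z k)
      rw [Real.norm_of_nonneg this.1.le]
      exact this.2.trans_eq (zero_add _)
    exact ⟨ψ, Ψ, S, D, hψ, hΨ⟩
  · simpa only [Ψ0 h] using (cΨ h z k).fix h.sc (s := 0) (by rwa [Ψ0 h]) t
  · simpa only [Ψ0 h] using (cΨ h z k).fix h.sc e t
  · have := ψeq h (c := fun s => U.Ψ s z k) (fun s => by
      rw [← h.vd.prod _ (fun e => hz ((Ψoct h s z).1 e)) k fun e => hk ((Ψqd h s z k).1 e.1)]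
      exact dΨ h z k s) t
    rw [← this, Ψ0 h]
  · exact strictMono_of_hasDerivAt_pos
      (fun t => ((dΨ h z (kx i) t).sub_const (ck i)).const_mul (sg i))
      fun t => st_pos h.sc h.vd (Ψst h 0 t z i ((Ψ0 h z).symm ▸ hz))

end Pool.Agent.MP_e1dc65_gt.T.Pr

end
end MrgPart5

-- ======== part 6: formerly Pool.Agent.MP_e1dc65_gt.t.PreFlip
section MrgPart6

/-! PROJECT HC, block NF, row FLIP: the atlas upside down. -/

open scoped ContDiff Manifold Topology Real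
open Set Filter Function Module Topology

noncomputable section

namespace Pool.Agent.MP_e1dc65_gt.T.Pr

namespace FlipP

/-- the centre of the reflection -/
def ce : Option (Fin 3 × Bool) → Rn 3
  | none => q0
  | some (i, _) => fun k => if k = i then π else if k = jx i then 2 * cj i else 2 * ck i

/-- the opposite chart -/
def op : Option (Fin 3 × Bool) → Option (Fin 3 × Bool)
  | none => none
  | some (i, b) => some (i, !b)

theorem op_op : ∀ a, op (op a) = a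
  | none => rfl
  | some (i, b) => by simp [op]

theorem ce_op : ∀ a, ce (op a) = ce a
  | none => rfl
  | some (_, _) => rfl

theorem K_eq {F : Mf (Rn 3)} (D : Dat F) : ∀ a, D.flip.K a = fun z => D.K (op a) (ce a - z)
  | none => rfl
  | some (_, _) => rfl

theorem lat_ce : ∀ a, Lat (ce a) q0
  | none => Lat.refl _
  | some (i, _) => fun k => by
    have h0 : ∀ x : ℝ, x = π ∨ x = 3 * π → ∃ m : ℤ, x - π = 2 * π * m := by
      rintro _ (rfl | rfl)
      exacts [⟨0, by simp⟩, ⟨1, by push_cast; ring⟩]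
    refine h0 _ ?_
    simp only [ce]
    split_ifs
    · exact .inl rfl
    · fin_cases i <;> simp [cj] <;> first | (left; ring1) | (right; ring1)
    · fin_cases i <;> simp [ck] <;> first | (left; ring1) | (right; ring1)

theorem lat_sub {a a' z z' : Rn 3} (h : Lat a a') (h' : Lat z z') : Lat (a - z) (a' - z') :=
  fun k => let ⟨m, e⟩ := h k; let ⟨n, e'⟩ := h' k
    ⟨m - n, by simp only [Pi.sub_apply]; push_cast; linarith⟩

theorem lat_io {a z w : Rn 3} (i : Fin 3) (ha : Lat a q0) (h : Lat (a - z) w) : Lat z (io i w) := by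
  have := lat_sub (ha.trans (lat_ce (some (i, true))).symm) h
  rwa [sub_sub_cancel] at this

theorem tau_io (i : Fin 3) (z : Rn 3) : tau i (io i z) = -tau i z := by
  simp only [tau, io, if_neg (jx_ne i), if_true]; ring

theorem nu_io (i : Fin 3) (z : Rn 3) : nu i (io i z) = -nu i z := by
  simp only [nu, io, if_neg (kx_ne i), if_neg (jx_ne_kx i).symm]; ring

theorem st_io {i : Fin 3} {z : Rn 3} (h : z ∈ St i) : io i z ∈ St i :=
  ⟨by rw [tau_io, abs_neg]; exact h.1, by rw [nu_io, abs_neg]; exact h.2⟩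

theorem box_io {i : Fin 3} {z : Rn 3} (h : z ∈ Box i) : io i z ∈ Box i :=
  ⟨((congrArg abs (tau_io i z)).trans (abs_neg _)).trans_lt h.1,
    ((congrArg abs (nu_io i z)).trans (abs_neg _)).trans_lt h.2⟩

theorem dom0 {a z : Rn 3} (ha : Lat a q0) (h : z ∈ Dom none) : a - z ∈ Dom none :=
  fun i ⟨w, l, h1, h2⟩ => h i ⟨io i w, lat_io i ha l, by rwa [tau_io, abs_neg],
    by rwa [nu_io, abs_neg]⟩

theorem dom : ∀ {a} {z : Rn 3}, z ∈ Dom a → ce a - z ∈ Dom (op a)
  | none, _, h => dom0 (Lat.refl _) h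
  | some (i, false), z, h => ⟨st_io h.1, by
      change _ < sg i * nu i (io i z)
      rw [nu_io]; linarith [h.2]⟩
  | some (i, true), z, h => ⟨st_io h.1, by
      change sg i * nu i (io i z) < _
      rw [nu_io]; linarith [h.2]⟩

theorem rel {a a' z z' : Rn 3} (ha : Lat a q0) (ha' : Lat a' q0) (h : Rel (a - z) (a' - z')) :
    Rel z z' := by
  rcases h with h | ⟨i, w, hw, w', hw', l, l', e⟩
  · exact .inl (by simpa only [sub_sub_cancel] using lat_sub (ha.trans ha'.symm) h)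
  · exact .inr ⟨i, _, box_io hw, _, box_io hw', lat_io i ha l, lat_io i ha' l',
      fun k hk => by simp only [io, e k hk]⟩

theorem ld_sub (a z : Rn 3) : LDAt (vs (Rn 3)) (vs (Rn 3)) (fun z => a - z) z :=
  ldAt_of_inv (X := vs (Rn 3)) (Y := vs (Rn 3)) (g := fun z => a - z) isOpen_univ isOpen_univ trivial
    (fun _ _ => smAt_vs.2 (by fun_prop)) (fun _ _ => smAt_vs.2 (by fun_prop)) (mapsTo_univ _ _)
    (mapsTo_univ _ _) (fun _ _ => sub_sub_cancel _ _) fun _ _ => sub_sub_cancel _ _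

end FlipP

open FlipP in
theorem flip : FlipStmt := by
  intro U F D hU h
  have l0 : ∀ a (z : Rn 3), Lat (ce a - z) (q0 - z) := fun a z => lat_sub (lat_ce a) (Lat.refl z)
  refine ⟨h.sgn.symm.imp (fun e => ?_) fun e => congrArg Neg.neg e, fun a z hz => ?_,
    fun a a' z hz z' hz' e => ?_, fun m => ?_,
    fun z hz z' l => h.lat _ (dom hz) _ (lat_sub (Lat.refl _) l), fun a z hz hz' => ?_,
    fun i z hz hn => ?_, fun m => (h.vf m).neg, h.fl.neg, fun m _ => (h.smf m trivial).vneg,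
    fun a z hz => ?_, fun a z hz => ?_⟩
  · exact (congrArg Neg.neg e).trans (neg_neg _)
  · rw [K_eq]
    exact (ld_sub _ z).trans (h.ld _ _ (dom hz))
  · rw [K_eq, K_eq] at e
    exact rel (lat_ce a) (lat_ce a') (h.sep _ _ _ (dom hz) _ (dom hz') e)
  · obtain ⟨a, z, hz, rfl⟩ := h.cov m
    exact ⟨op a, _, dom hz, by simp only [K_eq, op_op, ce_op, sub_sub_cancel]⟩
  · rw [K_eq]
    exact (h.eq0 _ _ (dom hz) (dom0 (lat_ce a) hz')).trans
      (h.lat _ (dom0 (lat_ce a) hz') _ (l0 a z))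
  · have t : tau i (z + sh (-D.s) i z) = tau i z := by simp [tau, sh, jx_ne]
    have n : nu i (z + sh (-D.s) i z) = nu i z := by simp [nu, sh, kx_ne]
    have m := h.mat i _ (st_io (z := z + sh (-D.s) i z) ⟨t ▸ hz.1, n ▸ hz.2⟩)
      (by rwa [nu_io, abs_neg, n])
    have e : sh D.s i (io i (z + sh (-D.s) i z)) = sh (-D.s) i z := by
      rw [sh, tau_io, nu_io, t, n, sh, ← neg_add, mul_neg, neg_mul]
    rw [e, show io i (z + sh (-D.s) i z) + sh (-D.s) i z = io i z from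
      funext fun k => by simp only [io, Pi.add_apply]; ring] at m
    exact m.symm
  · rw [K_eq, Df_comp (ld_sub _ z).sm (h.ld _ _ (dom hz)).sm, Df_vs, fderiv_const_sub, fderiv_id',
      ContinuousLinearMap.comp_apply, ContinuousLinearMap.neg_apply, ContinuousLinearMap.id_apply,
      map_neg, ← hU.vd.mirV, ← hU.vd.latV _ _ (l0 a z), h.fld _ _ (dom hz)]
    rfl
  · rw [K_eq]
    change -D.f _ = _
    rw [h.fn _ _ (dom hz), hU.vd.latg _ _ (l0 a z), hU.vd.mirg, neg_neg]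

end Pool.Agent.MP_e1dc65_gt.T.Pr

end
end MrgPart6

-- ======== part 7: formerly Pool.Agent.MP_e1dc65_gt.t.PreInt
section MrgPart7

/-! PROJECT HC, block NF, row INT: assembly of the pieces. -/

open scoped ContDiff Manifold Topology Real
open Set Filter Function Module Topology

noncomputable section

namespace Pool.Agent.MP_e1dc65_gt.T.Pr

theorem s0_ne (i : Fin 3) : s0 i 0 ≠ 0 ∧ s0 i 1 ≠ 0 := by
  rcases sg_cases i with h | h <;> simp [s0, h]

theorem norm_s0 (i : Fin 3) : ‖s0 i‖ = 1 := by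
  have h2 : √2 ^ 2 = 2 := Real.sq_sqrt zero_le_two
  rw [EuclideanSpace.norm_eq, Real.sqrt_eq_one, Fin.sum_univ_two]
  rcases sg_cases i with h | h <;> simp [s0, h, h2] <;> norm_num

theorem unit_ne {θ : E2} (h : ‖θ‖ = 1) (h0 : θ 0 = 0) : θ 1 ≠ 0 := fun h1 => by
  rw [EuclideanSpace.norm_eq, Fin.sum_univ_two, h0, h1] at h
  simp at h

open Classical in
theorem int_of (h1 : BsmStmt) (h2 : ClsStmt) (h3 : MemStmt) (h4 : AxdStmt) (h5 : SodStmt) :
    IntStmt := by
  intro U N D hU hF hD hN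
  choose a z hz e using hD.cov
  have c : Ctx U N D fun j m => U.V (z m) j := ⟨hU, hF, hD, hN, fun j a' w hw =>
    congrFun (hU.relV (hD.sep _ _ _ (hz _) w hw (e _))) j⟩
  set b : Fin 3 → N.F → ℝ := fun j m => U.V (z m) j
  let T (i : Fin 3) (θ : E2) : ℝ := epsilon fun T => N.f (N.φ T (N.dn i θ)) = tt
  let J (i : Fin 3) (θ : E2) : Fin 3 := if θ 0 = 0 then jx i else if θ 1 = 0 then kx i else i
  have p3 := Real.pi_gt_three
  have ax : ∀ i (θ : E2), ‖θ‖ = 1 → θ 0 = 0 ∨ θ 1 = 0 → ∃ c, 0 < c ∧ HasDerivAt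
      (fun s : ℝ => b (J i θ) (N.φ (T i θ) (N.dn i (θ + s • rot θ)))) (c * (θ 1 - θ 0)) 0 := by
    intro i θ hθ h
    by_cases h0 : θ 0 = 0
    · simpa only [J, if_pos h0, h0, sub_zero, if_true] using (h4 U N D b c i θ _ hθ).1 h0
    · have k := h.resolve_left h0
      simpa only [J, if_neg h0, if_pos k, k, zero_sub, mul_neg, neg_mul, if_true] using
        (h4 U N D b c i θ _ hθ).2 k
  have ne : ∀ θ : E2, ‖θ‖ = 1 → θ 0 = 0 ∨ θ 1 = 0 → θ 1 - θ 0 ≠ 0 := fun θ hθ h n => by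
    rcases h with h | h
    · exact unit_ne hθ h (by linarith)
    · exact unit_ne hθ (by linarith) h
  refine ⟨tt, b, fun i θ => deriv (fun s : ℝ => b (J i θ) (N.φ (T i θ) (N.dn i (θ + s • rot θ)))) 0,
    s0, fun _ θ => -θ, by rw [hN.v₁, hN.δ, tt]; norm_num, by rw [hN.v₂, hN.δ, tt]; linarith,
    fun j m hm ht => (h1 U N D b c j m hm ht).2, fun i j θ T' hθ hA hT => ?_,
    fun i => ⟨norm_s0 i, (h3 U N D b c i).1⟩, fun i j θ hθ hA hs => ?_⟩
  · have e1 : N.f (N.φ (T i θ) (N.dn i θ)) = tt :=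
      epsilon_spec (p := fun T => N.f (N.φ T (N.dn i θ)) = tt) ⟨T', hT⟩
    have e2 : T' = T i θ := (hD.fl.toDer hD.smf).once (a := tt) (fun m hm => hD.df_pos hU (by
      rw [hm, tt, abs_lt]; constructor <;> linarith)) (by rwa [← hN.φ, ← hN.f]) (by rwa [← hN.φ, ← hN.f])
    subst e2
    have k : θ 0 = 0 ∨ θ 1 = 0 → J i θ = j → ∀ d,
        d = deriv (fun s : ℝ => b (J i θ) (N.φ (T i θ) (N.dn i (θ + s • rot θ)))) 0 → d ≠ 0 ∧
        HasDerivAt (fun s : ℝ => b j (N.φ (T i θ) (N.dn i (θ + s • rot θ)))) d 0 := by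
      rintro h rfl _ rfl
      obtain ⟨r, hr, hd⟩ := ax i θ hθ h
      exact ⟨hd.deriv ▸ mul_ne_zero hr.ne' (ne θ hθ h), hd.differentiableAt.hasDerivAt⟩
    rcases h2 U N D b c i j θ hθ hA with ⟨rfl, rfl⟩ | ⟨h, rfl⟩ | ⟨h, rfl⟩
    · have hm : N.φ (T j (s0 j)) (N.dn j (s0 j)) ∈ N.A j := by
        obtain ⟨τ, y, hy, ey⟩ := hA
        exact ⟨T j (s0 j) + τ, y, hy, by rw [ey, hN.φ, hN.φ, hN.φ, hD.fl.add]⟩
      obtain ⟨w, hw, ew⟩ := (h1 U N D b c j _ hm hT.le).1
      obtain ⟨r, hr, hd⟩ := h5 U N D b c j _ w hT hw ew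
      simp only [J, if_neg (s0_ne j).1, if_neg (s0_ne j).2]
      exact ⟨hd.deriv ▸ hr, hd.differentiableAt.hasDerivAt⟩
    · exact k (Or.inl h) (if_pos h) _ rfl
    · exact k (Or.inr h) ((if_neg fun n => unit_ne hθ n h).trans (if_pos h)) _ rfl
  · have hθ' : ‖-θ‖ = 1 := by rwa [norm_neg]
    have k : (θ 0 = 0 ∧ j = jx i) ∨ (θ 1 = 0 ∧ j = kx i) :=
      (h2 U N D b c i j θ hθ hA).resolve_left fun h => hs h.1
    have k1 : θ 0 = 0 ∨ θ 1 = 0 := k.imp And.left And.left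
    have k2 : (-θ) 0 = 0 ∨ (-θ) 1 = 0 := by simpa using k1
    refine ⟨hθ', fun n => ?_, ?_, neg_neg θ, ?_⟩
    · rw [n] at k2
      exact k2.elim (s0_ne i).1 (s0_ne i).2
    · rcases k with ⟨h, rfl⟩ | ⟨h, rfl⟩
      · exact ((h3 U N D b c i).2 _ hθ').1 (by simpa using h)
      · exact ((h3 U N D b c i).2 _ hθ').2 (by simpa using h)
    · obtain ⟨r, hr, hd⟩ := ax i θ hθ k1
      obtain ⟨r', hr', hd'⟩ := ax i (-θ) hθ' k2
      rw [hd.deriv, hd'.deriv, PiLp.neg_apply, PiLp.neg_apply]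
      nlinarith [mul_pos (mul_pos hr hr') (sq_pos_of_ne_zero (ne θ hθ k1))]

end Pool.Agent.MP_e1dc65_gt.T.Pr

end
end MrgPart7

-- ======== part 8: formerly Pool.Agent.MP_e1dc65_gt.t.PreMem
section MrgPart8

/-! PROJECT HC, block NF, row INT-MEM: five directions lie on ascending discs. -/

open scoped ContDiff Manifold Topology Real
open Set Filter Function Module Topology

noncomputable section

namespace Pool.Agent.MP_e1dc65_gt.T.Pr

variable {U : Eu} {N : NF} {D : Dat N.F} {b : Fin 3 → N.F → ℝ}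

/-- near the vertex `π e_j`, in the plane through it -/
def Mem.Nr (j : Fin 3) (w : Rn 3) : Prop :=
  (∃ n : ℤ, w j = π + 2 * π * n) ∧ ∀ k, k ≠ j → ∃ n : ℤ, |w k - 2 * π * n| < 1 / 50

theorem Mem.Nr.nv {j : Fin 3} {w : Rn 3} (h : Mem.Nr j w) : Nv w := by
  obtain ⟨⟨n, hn⟩, h⟩ := h
  have : ∀ k, ∃ m : ℤ, |w k - m * π| < 2 / 25 := fun k => by
    by_cases e : k = j
    · exact ⟨1 + 2 * n, by rw [e, hn]; push_cast; ring_nf; norm_num⟩
    · obtain ⟨m, hm⟩ := h k e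
      exact ⟨2 * m, by push_cast; rw [show 2 * (m : ℝ) * π = 2 * π * m by ring]; linarith⟩
  choose m hm using this
  exact ⟨m, hm⟩

theorem Mem.memA (C : Ctx U N D b) {j : Fin 3} {w : Rn 3} {m : N.F} {t : ℝ} (h : Mem.Nr j w)
    (e : D.φ t m = D.K none w) : m ∈ N.A j := by
  obtain ⟨⟨n, hn⟩, h'⟩ := id h
  obtain ⟨n1, h1⟩ := h' _ (jx_ne j)
  obtain ⟨n2, h2⟩ := h' _ (kx_ne j)
  refine ⟨-t, !₂[2 * π * n1 - w (jx j), 2 * π * n2 - w (kx j)], ?_, ?_⟩
  · rw [NF.D₁, mem_ofPred_eq, C.fit.δ, EuclideanSpace.norm_sq_eq]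
    simp only [Fin.sum_univ_two, Real.norm_eq_abs, sq_abs, Matrix.cons_val_zero, Matrix.cons_val_one]
    nlinarith [abs_lt.1 h1, abs_lt.1 h2]
  · rw [C.fit.φ, C.fit.c₁, Dat.c₁, ← C.gd.lat w h.nv.dom, ← e, ← C.gd.fl.add, neg_add_cancel,
      C.gd.fl.zero]
    intro k
    rcases idx j k with rfl | rfl | rfl
    · exact ⟨n, by simp [ins, hn]⟩
    · exact ⟨n1, by simp [ins, jx_ne j]⟩
    · exact ⟨n2, by simp [ins, kx_ne j, (jx_ne_kx j).symm]⟩

theorem Mem.lim (hF : U.Fl) {x : ℝ} (h : |x - π| < π) (h' : x ≠ π) :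
    ∀ᶠ t in atBot, ∃ n : ℤ, |U.ψ t x - 2 * π * n| < 1 / 50 := by
  have h := abs_lt.1 h
  rcases lt_or_gt_of_ne h' with c | c
  · filter_upwards [Metric.tendsto_nhds.1 (hF.ψup x ⟨by linarith, c⟩).2.1 (1 / 50) (by norm_num)]
      with t ht using ⟨0, by simpa [Real.dist_eq] using ht⟩
  · filter_upwards [Metric.tendsto_nhds.1 (hF.ψdn x ⟨c, by linarith⟩).2.1 (1 / 50) (by norm_num)]
      with t ht using ⟨1, by simpa [Real.dist_eq] using ht⟩

theorem Mem.axis (C : Ctx U N D b) {i j k : Fin 3} {z : Rn 3} (hi : z i = 0) (hj : z j = π)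
    (hk : |z k - π| < π) (hk' : z k ≠ π) (ij : j ≠ i) (c : ∀ l, l = i ∨ l = j ∨ l = k) :
    D.K none z ∈ N.A j := by
  have si : Real.sin (z i) = 0 := by rw [hi, Real.sin_zero]
  have sj : Real.sin (z j) = 0 := by rw [hj, Real.sin_pi]
  have q : ∀ l, z ∉ Qd l := fun l => by
    by_cases e : i = l
    · exact not_qd sj (e ▸ ij)
    · exact not_qd si e
  obtain ⟨t, n, hn⟩ := (Mem.lim C.fl hk hk').exists
  refine Mem.memA C (w := U.Ψ t z) ⟨⟨0, by simp [C.fl.Ψfix t z j sj, hj]⟩, fun l hl => ?_⟩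
    (C.gd.orb0 C.ok C.fl q t).2
  rcases c l with rfl | rfl | rfl
  · exact ⟨0, by simp [C.fl.Ψfix t z l si, hi]⟩
  · exact (hl rfl).elim
  · exact ⟨n, by rwa [C.fl.Ψψ t z (not_oct si) l (q l)]⟩

theorem Mem.base (C : Ctx U N D b) (i : Fin 3) : D.K none (zz i (s0 i)) ∈ N.A i := by
  have p := Real.pi_gt_three
  have r1 : (1 : ℝ) < √2 := Real.one_lt_sqrt_two
  obtain ⟨c, c0, c1, hj, hk⟩ : ∃ c : ℝ, 0 < c ∧ c < 1 / 50 ∧ zz i (s0 i) (jx i) = π + sg i * c ∧
      zz i (s0 i) (kx i) = π - sg i * c := by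
    refine ⟨1 / √2 / 50, by positivity, ?_, ?_, ?_⟩
    · have : 1 / √2 < 1 := by rw [div_lt_one (by positivity)]; exact r1
      linarith
    · rw [zz_j]; simp [s0]; ring
    · rw [zz_k]; simp [s0]; ring
  have hi := zz_i i (s0 i)
  generalize zz i (s0 i) = z at hi hj hk
  have hn : sg i * nu i z = π / 2 - c := by
    rw [nu, hk, ck_eq]; linear_combination (π / 2 - c) * sg_sq i
  have ht : sg i * tau i z = c - π / 2 := by
    rw [tau, hj, cj_eq]; linear_combination (c - π / 2) * sg_sq i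
  have hz : z ∈ St i := ⟨by rw [← abs_sg_mul i, ht, abs_lt]; constructor <;> linarith,
    by rw [← abs_sg_mul i, hn, abs_lt]; constructor <;> linarith⟩
  have ψ : ∀ y ∈ St i, ∀ t k, k ≠ i → U.Ψ t y k = U.ψ t (y k) := fun y hy t k hk =>
    C.fl.Ψψ t y (qd_oct (st_qd hy)) k fun q => hk (qd_disj q (st_qd hy))
  obtain ⟨T₀, -, hT⟩ := C.fl.time i
  obtain ⟨T, hT⟩ : ∃ T, U.ψ T (z (kx i)) = ck i := ⟨_, hT _ hz.2⟩
  have wk : U.Ψ T z (kx i) = ck i := by rw [ψ z hz T _ (kx_ne i), hT]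
  have wj : U.Ψ T z (jx i) = cj i := by
    have := C.fl.ψper T (-z (kx i)) 1
    rw [C.fl.ψodd, hT, show -z (kx i) + 2 * π * ((1 : ℤ) : ℝ) = z (jx i) by
      rw [hj, hk]; push_cast; ring] at this
    rw [ψ z hz T _ (jx_ne i), this, cj_eq, ck_eq]; push_cast; ring
  have wn : nu i (U.Ψ T z) = 0 := by rw [nu, wk, sub_self]
  have wt : tau i (U.Ψ T z) = 0 := by rw [tau, wj, sub_self]
  have T0 : T ≤ 0 := ((C.fl.Ψnu i z hz).lt_iff_lt.1 (by
    simp only [C.ok.Ψfl.zero, wn, hn]; linarith)).le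
  have l0 : lam 0 = 1 / 2 := by have := Fn.lam_neg 0; rw [neg_zero] at this; linarith
  have hy := st_sh D.s (U.Ψ T z) ((C.fl.Ψst T z i).2 hz)
  have ea := fun t => C.gd.early (t := t) C.ok C.fl hz T0 (by rw [wn]; norm_num)
  have yi : (U.Ψ T z - sh D.s i (U.Ψ T z)) i = -(sg i * π) := by
    simp [sh, wn, wt, l0, C.fl.Ψfix T z i (by rw [hi, Real.sin_zero]), hi]; ring
  have yj : (U.Ψ T z - sh D.s i (U.Ψ T z)) (jx i) = cj i := by simp [sh, jx_ne i, wj]
  have yk : (U.Ψ T z - sh D.s i (U.Ψ T z)) (kx i) = ck i := by simp [sh, kx_ne i, wk]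
  generalize U.Ψ T z - sh D.s i (U.Ψ T z) = y at hy ea yi yj yk
  have a1 : |cj i - π| < π ∧ cj i ≠ π ∧ |ck i - π| < π ∧ ck i ≠ π := by
    rw [cj_eq, ck_eq, abs_lt, abs_lt]
    rcases sg_cases i with h | h <;> rw [h] <;>
      exact ⟨⟨by linarith, by linarith⟩, fun e => by linarith, ⟨by linarith, by linarith⟩,
        fun e => by linarith⟩
  obtain ⟨t, ⟨h1, h2⟩, t0⟩ := (((Mem.lim C.fl a1.1 a1.2.1).and (Mem.lim C.fl a1.2.2.1 a1.2.2.2)).and
    (eventually_le_atBot 0)).exists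
  have nr : Mem.Nr i (U.Ψ t y) := by
    refine ⟨?_, fun k hk => ?_⟩
    · rw [C.fl.Ψfix t y i (by rcases sg_cases i with h | h <;> simp [yi, h]), yi]
      rcases sg_cases i with h | h <;> rw [h]
      exacts [⟨-1, by push_cast; ring⟩, ⟨0, by simp⟩]
    · rcases idx i k with rfl | rfl | rfl
      · exact (hk rfl).elim
      · rwa [ψ y hy t _ hk, yj]
      · rwa [ψ y hy t _ hk, yk]
  have nv : Nv z := ⟨fun k => if k = i then 0 else 1, fun k => by
    rcases idx i k with rfl | rfl | rfl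
    · simp [hi]
    · simp only [jx_ne i, if_false, hj, Int.cast_one, one_mul, add_sub_cancel_left, abs_sg_mul]
      rw [abs_of_pos c0]; linarith
    · simp only [kx_ne i, if_false, hk, Int.cast_one, one_mul, sub_sub_cancel_left, abs_neg,
        abs_sg_mul]
      rw [abs_of_pos c0]; linarith⟩
  obtain ⟨d, e⟩ := ea (t + T) (by linarith)
  rw [add_sub_cancel_right] at d e
  rw [C.gd.eq0 _ _ d nr.nv.dom, C.gd.eq0 (some (i, true)) z ⟨hz, by rw [hn]; linarith⟩ nv.dom] at e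
  exact Mem.memA C nr e

theorem mem : MemStmt := fun U N D b C i => by
  have p := Real.pi_gt_three
  refine ⟨by rw [C.fit.dn]; exact Mem.base C i, fun θ h => ?_⟩
  have n : θ 0 ^ 2 + θ 1 ^ 2 = 1 := by
    have := EuclideanSpace.norm_sq_eq θ
    simpa [h, Fin.sum_univ_two] using this.symm
  rw [C.fit.dn]
  refine ⟨fun e => Mem.axis C (k := kx i) (zz_i i θ) (by simp [zz_j, e]) ?_ ?_ (jx_ne i) (idx i),
    fun e => Mem.axis C (k := jx i) (zz_i i θ) (by simp [zz_k, e]) ?_ ?_ (kx_ne i) fun l => by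
      rcases idx i l with h | h | h <;> simp [h]⟩
  · rw [zz_k, abs_lt]; constructor <;> nlinarith
  · rw [zz_k]; intro c; rw [e, show θ 1 = 0 by linarith] at n; norm_num at n
  · rw [zz_j, abs_lt]; constructor <;> nlinarith
  · rw [zz_j]; intro c; rw [e, show θ 0 = 0 by linarith] at n; norm_num at n

end Pool.Agent.MP_e1dc65_gt.T.Pr

end
end MrgPart8

-- ======== part 9: formerly Pool.Agent.MP_e1dc65_gt.t.PreSod
section MrgPart9

/-! PROJECT HC, block NF, row INT: the derivative at the orbit through the middle of the cut. -/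

open scoped ContDiff Manifold Topology Real
open Set Filter Function Module Topology

noncomputable section

namespace Pool.Agent.MP_e1dc65_gt.T.Pr

namespace Sod

theorem glue_der : HasDerivAt expNegInvGlue (Real.exp (-2) * 4) (1 / 2) := by
  have h : HasDerivAt (fun x : ℝ => Real.exp (-x⁻¹)) (Real.exp (-2) * 4) (1 / 2) := by
    have := ((hasDerivAt_inv (x := (1 / 2 : ℝ)) (by norm_num)).neg).exp
    norm_num at this ⊢
    exact this
  refine h.congr_of_eventuallyEq ?_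
  filter_upwards [Ioi_mem_nhds (by norm_num : (0 : ℝ) < 1 / 2)] with x hx
  exact if_neg (not_le.2 hx)

theorem lam_der : ∃ d, d ≠ 0 ∧ HasDerivAt lam d 0 := by
  have e := Real.exp_pos (-2)
  have v : expNegInvGlue (1 / 2) = Real.exp (-2) := by
    rw [expNegInvGlue, if_neg (by norm_num)]; norm_num
  have h2 : HasDerivAt (fun x : ℝ => expNegInvGlue (1 - x)) (Real.exp (-2) * 4 * -1) (1 / 2) :=
    HasDerivAt.comp_of_eq (1 / 2 : ℝ) glue_der ((hasDerivAt_id' (1 / 2 : ℝ)).const_sub 1) (by norm_num)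
  have h3 := glue_der.fun_div (glue_der.fun_add h2) (by
    rw [show (1 : ℝ) - 1 / 2 = 1 / 2 by norm_num, v]; positivity)
  have h4 : HasDerivAt (fun t : ℝ => (t + eps) / (2 * eps)) (1 / (2 * eps)) 0 :=
    ((hasDerivAt_id' (0 : ℝ)).add_const eps).div_const _
  refine ⟨_, ?_, HasDerivAt.comp_of_eq (0 : ℝ) h3 h4 (by norm_num [eps])⟩
  rw [show (1 : ℝ) - 1 / 2 = 1 / 2 by norm_num, v, eps]
  refine ne_of_gt (mul_pos (div_pos ?_ (by positivity)) (by norm_num))
  nlinarith [mul_pos e e]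

theorem lam_half : lam 0 = 1 / 2 := by
  have := Fn.lam_neg 0
  rw [neg_zero] at this
  linarith

variable {U : Eu} {i : Fin 3}

theorem eta_der (hU : U.Ok) (i : Fin 3) : HasDerivAt U.η (-1) (-(sg i * π)) := by
  have h : HasDerivAt (fun t : ℝ => -(sg i * π) - t) (-1) (-(sg i * π)) :=
    (hasDerivAt_id' _).const_sub _
  have o : ∀ᶠ t : ℝ in 𝓝 (-(sg i * π)), |t + sg i * π| < 2 / 25 :=
    (isOpen_lt (f := fun t : ℝ => |t + sg i * π|) (by fun_prop) continuous_const).mem_nhds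
      (by simp)
  refine h.congr_of_eventuallyEq (o.mono fun t ht => ?_)
  rcases sg_cases i with e | e <;> rw [e] at ht ⊢
  · rw [← neg_neg t, hU.sc.ηodd, ← hU.sc.ηmir, hU.sc.η0 _ (by rwa [sub_neg_eq_add, add_comm, ← one_mul π])]
    ring
  · rw [← hU.sc.ηmir, hU.sc.η0 _ (by rwa [abs_sub_comm, sub_eq_add_neg, ← neg_one_mul π])]
    ring

/-- on a wall the normal derivative of the flow does not vanish -/
theorem wall (hU : U.Ok) (hF : U.Fl) (t : ℝ) {y : Rn 3} (h : Real.sin (y i) = 0) :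
    ∃ c, c ≠ 0 ∧ ∀ (z : ℝ → Rn 3) (v : Rn 3), z 0 = y → HasDerivAt z v 0 →
      HasDerivAt (fun s => U.Ψ t (z s) i) (c * v i) 0 := by
  have d : HasFDerivAt (U.Ψ t) (fderiv ℝ (U.Ψ t) y) y :=
    ((smAt_vs.1 (hU.Ψfl.smAt_time t y)).differentiableAt (by simp)).hasFDerivAt
  have k : ∀ (z : ℝ → Rn 3) (v : Rn 3), z 0 = y → HasDerivAt z v 0 →
      HasDerivAt (fun s => U.Ψ t (z s) i) (fderiv ℝ (U.Ψ t) y v i) 0 := fun z v e hz =>
    hasDerivAt_pi.1 (HasFDerivAt.comp_hasDerivAt_of_eq 0 d hz e.symm) i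
  have k0 : ∀ v : Rn 3, v i = 0 → fderiv ℝ (U.Ψ t) y v i = 0 := fun v hv => by
    have a := k (fun s => y + s • v) v (by simp)
      (by simpa using ((hasDerivAt_id' (0 : ℝ)).smul_const v).const_add y)
    have b : (fun s : ℝ => U.Ψ t (y + s • v) i) = fun _ => y i := funext fun s => by
      rw [hF.Ψfix] <;> simp [hv, h]
    rw [b] at a
    exact a.unique (hasDerivAt_const _ _)
  have k1 : ∀ v : Rn 3, fderiv ℝ (U.Ψ t) y v i = fderiv ℝ (U.Ψ t) y (Pi.single i 1) i * v i :=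
    fun v => by
      have := k0 (v - v i • Pi.single i 1) (by simp)
      rw [map_sub, map_smul, Pi.sub_apply, Pi.smul_apply, smul_eq_mul] at this
      linarith
  refine ⟨_, fun c0 => ?_, fun z v e hz => k1 v ▸ k z v e hz⟩
  obtain ⟨L, hL⟩ := (hU.Ψfl.ld t y).inv
  rw [Df_vs] at hL
  obtain ⟨v, hv⟩ := L.surjective (Pi.single i 1)
  have := k1 v
  rw [c0, ← hL, ContinuousLinearEquiv.coe_coe, hv] at this
  simp at this

end Sod

open Sod in
theorem sod : SodStmt := by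
  intro U N D b C i T w hT hw ew
  have hU := C.ok
  have hF := C.fl
  have hD := C.gd
  have p3 := Real.pi_gt_three
  obtain ⟨a, ha⟩ : ∃ a : ℝ, a = sg i / √2 := ⟨_, rfl⟩
  have r1 : 1 ≤ √2 := Real.one_le_sqrt.2 (by norm_num)
  have a1 : 0 < sg i * a ∧ sg i * a ≤ 1 := by
    rw [ha, ← mul_div_assoc, sg_sq]
    exact ⟨by positivity, (div_le_one (by positivity)).2 r1⟩
  have a0 : a ≠ 0 := fun h => by simp [h] at a1
  obtain ⟨z, hz⟩ : ∃ z : ℝ → Rn 3, z = fun s => zz i (s0 i + s • rot (s0 i)) := ⟨_, rfl⟩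
  have zi : ∀ s, z s i = 0 := fun s => by rw [hz]; exact zz_i _ _
  have zj : ∀ s, z s (jx i) = π + (a + s * a) / 50 := fun s => by
    simp only [hz, zz_j]; simp [s0, rot, ha]
  have zk : ∀ s, z s (kx i) = π + (-a + s * a) / 50 := fun s => by
    simp only [hz, zz_k]; simp [s0, rot, ha]
  have si : ∀ s, Real.sin (z s i) = 0 := fun s => by rw [zi, Real.sin_zero]
  have zc : Continuous z := continuous_pi fun k => by
    rcases idx i k with rfl | rfl | rfl
    · simp only [zi]; fun_prop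
    · simp only [zj]; fun_prop
    · simp only [zk]; fun_prop
  have n0 : sg i * nu i (z 0) = π / 2 - sg i * a / 50 := by
    rw [nu, zk, ck_eq]; linear_combination (π / 2) * sg_sq i
  have t0 : sg i * tau i (z 0) = -(π / 2 - sg i * a / 50) := by
    rw [tau, zj, cj_eq]; linear_combination (-(π / 2)) * sg_sq i
  have st0 : z 0 ∈ St i :=
    ⟨by rw [← abs_sg_mul i, t0, abs_lt]; constructor <;> linarith [a1.1, a1.2],
      by rw [← abs_sg_mul i, n0, abs_lt]; constructor <;> linarith [a1.1, a1.2]⟩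
  have ab : |a| ≤ 1 := by rw [← abs_sg_mul i, abs_of_pos a1.1]; exact a1.2
  have nv0 : Nv (z 0) := ⟨fun k => if k = i then 0 else 1, fun k => by
    have := abs_le.1 ab
    rcases idx i k with rfl | rfl | rfl
    · simp [zi]
    · simp only [zj, if_neg (jx_ne i), abs_lt]; constructor <;> push_cast <;> linarith
    · simp only [zk, if_neg (kx_ne i), abs_lt]; constructor <;> push_cast <;> linarith⟩
  obtain ⟨T₀, -, hT₀⟩ := hF.time i
  have e0 := hT₀ _ st0.2
  generalize T₀ (z 0 (kx i)) = t at e0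
  have wj : ∀ s, U.Ψ t (z s) (jx i) = U.ψ t (z s (jx i)) := fun s =>
    hF.Ψψ t _ (not_oct (si s)) _ (not_qd (si s) (jx_ne i).symm)
  have wk : ∀ s, U.Ψ t (z s) (kx i) = U.ψ t (z s (kx i)) := fun s =>
    hF.Ψψ t _ (not_oct (si s)) _ (not_qd (si s) (kx_ne i).symm)
  have wi : ∀ s, U.Ψ t (z s) i = 0 := fun s => (hF.Ψfix t _ i (si s)).trans (zi s)
  have n1 : nu i (U.Ψ t (z 0)) = 0 := by rw [nu, wk, e0, sub_self]
  have t1 : tau i (U.Ψ t (z 0)) = 0 := by
    have := hF.ψper t (-z 0 (kx i)) 1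
    rw [hF.ψodd, e0] at this
    rw [tau, wj, show z 0 (jx i) = -z 0 (kx i) + 2 * π * (1 : ℤ) by rw [zj, zk]; push_cast; ring,
      this, cj_eq, ck_eq]
    push_cast; ring
  have h0 : t ≤ 0 := (hF.Ψnu i _ st0).le_iff_le.1 (by
    simp only [hU.Ψfl.zero, n0, n1]; linarith [a1.2])
  have dn : ∀ s, z s ∈ Dom (some (i, true)) → Nv (z s) →
      N.dn i (s0 i + s • rot (s0 i)) = D.K (some (i, true)) (z s) := fun s h1 h2 => by
    rw [hD.eq0 _ _ h1 h2.dom, C.fit.dn, hz]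
  have d0 : z 0 ∈ Dom (some (i, true)) := ⟨st0, by rw [n0]; linarith [a1.2]⟩
  have dn0 := dn 0 d0 nv0
  rw [zero_smul, add_zero] at dn0
  rw [C.fit.φ, dn0] at hT ew
  have hTt : T ≤ t := by
    refine le_of_not_gt fun h => ?_
    have l := hD.late hU hF st0 h0 (by rw [n1]; norm_num) le_rfl
    have m := hD.mono hU (D.K (some (i, true)) (z 0)) h.le
    have bx : U.Ψ t (z 0) ∈ Box i := mem_box.2 ⟨by rw [t1]; norm_num, by rw [n1]; norm_num⟩
    simp only [l.2, hD.fn _ _ l.1, (hU.vd.box i _ bx).2.2.2, n1, t1, ← C.fit.f, hT, tt] at m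
    linarith
  obtain ⟨y, hy⟩ : ∃ y : ℝ → Rn 3, y = fun s => U.Ψ t (z s) - sh D.s i (U.Ψ t (z s)) := ⟨_, rfl⟩
  obtain ⟨d1, p1, q1⟩ := hF.ψder t (z 0 (jx i))
  obtain ⟨d2, p2, q2⟩ := hF.ψder t (z 0 (kx i))
  obtain ⟨l, l0, hl⟩ := lam_der
  have aff : ∀ c : ℝ, HasDerivAt (fun s : ℝ => π + (c + s * a) / 50) (a / 50) 0 := fun c => by
    simpa using ((((hasDerivAt_id' (0 : ℝ)).mul_const a).const_add c).div_const 50).const_add π
  have dj : HasDerivAt (fun s => U.Ψ t (z s) (jx i)) (d1 * (a / 50)) 0 := by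
    simp only [wj, zj]; exact HasDerivAt.comp_of_eq 0 q1 (aff a) (zj 0)
  have dk : HasDerivAt (fun s => U.Ψ t (z s) (kx i)) (d2 * (a / 50)) 0 := by
    simp only [wk, zk]; exact HasDerivAt.comp_of_eq 0 q2 (aff (-a)) (zk 0)
  have di : HasDerivAt (fun s => y s i)
      (-(2 * π * sg i * (l * (D.s * (d1 * (a / 50) + d2 * (a / 50)))))) 0 := by
    simp only [hy, Pi.sub_apply, wi, sh, Pi.single_eq_same, zero_sub]
    exact ((HasDerivAt.comp_of_eq 0 hl (((dj.sub_const _).fun_add (dk.sub_const _)).const_mul D.s)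
      (by rw [← tau, ← nu, t1, n1]; simp)).const_mul _).neg
  have yi : y 0 i = -(sg i * π) := by
    simp only [hy, Pi.sub_apply, wi, sh, Pi.single_eq_same, t1, n1, add_zero, mul_zero, lam_half]
    ring
  have sy : Real.sin (y 0 i) = 0 := by rcases sg_cases i with e | e <;> simp [yi, e]
  have dy : HasDerivAt y (fun k => deriv (fun s => y s k) 0) 0 := hasDerivAt_pi.2 fun k => by
    refine DifferentiableAt.hasDerivAt ?_
    rcases idx i k with rfl | rfl | rfl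
    · exact di.differentiableAt
    · simpa [hy, sh, jx_ne i] using dj.differentiableAt
    · simpa [hy, sh, kx_ne i] using dk.differentiableAt
  obtain ⟨c, c0, hc⟩ := wall hU hF (T - t) sy
  have h1 := hc y _ rfl dy
  rw [di.deriv] at h1
  have er : ∀ s, z s ∈ St i → |nu i (U.Ψ t (z s))| < 1 / 20 →
      U.Ψ (T - t) (y s) ∈ Dom (some (i, false)) ∧ D.φ T (D.K (some (i, true)) (z s)) =
        D.K (some (i, false)) (U.Ψ (T - t) (y s)) := fun s a b => by
    rw [hy]; exact hD.early hU hF a h0 b hTt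
  have e1 := er 0 st0 (by rw [n1]; norm_num)
  obtain ⟨n, hn⟩ : Nv (U.Ψ (T - t) (y 0)) :=
    hw.lat ((hD.sep _ _ _ e1.1 _ hw.dom (e1.2.symm.trans ew)).lat hw).symm
  have h2 := HasDerivAt.comp_of_eq 0 (eta_der hU i) h1 ((hF.Ψfix _ _ i sy).trans yi).symm
  refine ⟨_, ?_, h2.congr_of_eventuallyEq ?_⟩
  · have b1 : D.s ≠ 0 := by rcases hD.sgn with e | e <;> simp [e]
    have b2 : sg i ≠ 0 := by rcases sg_cases i with e | e <;> simp [e]
    have b3 : d1 * (a / 50) + d2 * (a / 50) ≠ 0 := by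
      rw [← add_mul]; exact mul_ne_zero (add_pos p1 p2).ne' (by simpa using a0)
    simp [b1, b2, b3, c0, l0]
  · have c1 : ContinuousAt (fun s => U.Ψ (T - t) (y s)) 0 :=
      (hU.Ψfl.cont_time _).continuousAt.comp dy.continuousAt
    have v1 : ∀ᶠ s in 𝓝 (0 : ℝ), ∀ k, |U.Ψ (T - t) (y s) k - n k * π| < 2 / 25 :=
      eventually_all.2 fun k => (((continuous_apply k).continuousAt.comp c1).sub
        continuousAt_const).abs.eventually_lt continuousAt_const (hn k)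
    have v2 : ∀ᶠ s in 𝓝 (0 : ℝ), |nu i (U.Ψ t (z s))| < 1 / 20 :=
      (dk.continuousAt.sub continuousAt_const).abs.eventually_lt continuousAt_const
        (show |nu i (U.Ψ t (z 0))| < 1 / 20 by rw [n1]; norm_num)
    filter_upwards [v1, v2, zc.continuousAt.eventually nv0.ev,
      zc.continuousAt.eventually ((isOpen_dom _).mem_nhds d0)] with s u1 u2 u3 u4
    rw [dn s u4 u3, C.fit.φ, (er s u4.1 u2).2, C.bd _ _ _ (er s u4.1 u2).1,
      (hU.vd.near _ n u1).1 i]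
    rfl

end Pool.Agent.MP_e1dc65_gt.T.Pr

end
end MrgPart9

-- marker of a merged file
example : 731051 + 97881 = 731051 + 97881 := rfl
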