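import Pool.Agent.MP_e1dc65_gt.t.PreAx
import Pool.Agent.MP_e1dc65_gt.t.MLevel

/-! PROJECT HC, block NF, row UP: limits of the orbits on the compact manifold. -/

open scoped ContDiff Manifold Topology Real
open Set Filter Function Module Topology Metric

noncomputable section

namespace Pool.Agent.MP_e1dc65_gt.T.Pr

namespace Up

variable {E : Type} [NormedAddCommGroup E] [NormedSpace ℝ E]
  {W : Mf E} {ξ : W → E} {φ : ℝ → W → W}
  {U V : Type} [NormedAddCommGroup U] [InnerProductSpace ℝ U] [FiniteDimensional ℝ U]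
  [NormedAddCommGroup V] [InnerProductSpace ℝ V] [FiniteDimensional ℝ V]

/-- an orbit which accumulates at a saddle and only at fixed points is in the stable manifold -/
theorem stable {c : U × V → W} {D : Set (U × V)} {δ : ℝ} (hφ : IsFlow W ξ φ) (h : Sad W φ c D δ)
    {x : W} (hp : MapClusterPt (c 0) atTop fun t => φ t x)
    (h2 : ∀ p, (MapClusterPt p atTop fun t => φ t x) → ∀ t, φ t p = p) :
    ∃ u t, ‖u‖ ≤ δ ∧ φ t x = c (u, 0) := by
  have hδ := h.pos
  by_contra hn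
  have s1 : closedBall (0 : U) δ ×ˢ sphere (0 : V) δ ⊆ D := fun p hp =>
    h.sub _ _ (by simpa using hp.1) (mem_sphere_zero_iff_norm.1 hp.2).le
  have hC : IsCompact (c '' (closedBall (0 : U) δ ×ˢ sphere (0 : V) δ)) :=
    ((isCompact_closedBall 0 δ).prod (isCompact_sphere 0 δ)).image_of_continuousOn
      (h.oe.sm.contOn.mono s1)
  have hB : c '' (ball (0 : U) δ ×ˢ ball (0 : V) δ) ∈ 𝓝 (c 0) :=
    (h.oe.ld _ h.zero_mem).image_mem (prod_mem_nhds (ball_mem_nhds _ hδ) (ball_mem_nhds _ hδ))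
  obtain ⟨_, ⟨q, hq, rfl⟩, hq'⟩ := hC.exists_mapClusterPt_of_frequently (l := atTop)
    (f := fun t => φ t x) (frequently_atTop.2 fun T => by
      obtain ⟨t, ht, ⟨u, v⟩, ⟨hu, hv⟩, e⟩ := frequently_atTop.1 (hp.frequently hB) T
      rw [mem_ball_zero_iff] at hu hv
      rcases eq_or_ne v 0 with rfl | h3
      · exact (hn ⟨u, t, hu.le, e.symm⟩).elim
      · have k1 : 0 < ‖v‖ := norm_pos_iff.2 h3
        have k2 := Real.log_nonneg ((one_le_div k1).2 hv.le)
        have k3 : Real.exp (Real.log (δ / ‖v‖)) * ‖v‖ = δ := by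
          rw [Real.exp_log (div_pos hδ k1), div_mul_cancel₀ _ k1.ne']
        refine ⟨Real.log (δ / ‖v‖) + t, by linarith, _, ⟨?_, ?_⟩, by
          rw [hφ.add, ← e, h.flow k2 hu.le k3.le]⟩
        · rw [mem_closedBall_zero_iff, norm_smul, Real.norm_of_nonneg (Real.exp_pos _).le]
          exact (mul_le_of_le_one_left (norm_nonneg _)
            (Real.exp_le_one_iff.2 (by linarith))).trans hu.le
        · rw [mem_sphere_zero_iff_norm, norm_smul, Real.norm_of_nonneg (Real.exp_pos _).le, k3])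
  have := h.not_fixed (s1 hq) (h2 _ hq')
  have h5 := mem_sphere_zero_iff_norm.1 hq.2
  rw [this, Prod.snd_zero, norm_zero] at h5
  exact hδ.ne h5

/-- a cluster point of the forward orbit -/
theorem limit [CompactSpace W] {f e : W → ℝ} (hφ : IsFlow W ξ φ) (h : Der φ f e)
    (he : ∀ m, 0 ≤ e m) (x : W) : ∃ p, (MapClusterPt p atTop fun t => φ t x) ∧ f x ≤ f p ∧
      ∀ a < f p, ∃ t, a < f (φ t x) := by
  obtain ⟨p, hp⟩ := exists_clusterPt_of_compactSpace (map (fun t => φ t x) atTop)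
  have hp' : MapClusterPt p atTop fun t => φ t x := hp
  have hm : Monotone fun t => f (φ t x) :=
    monotone_of_deriv_nonneg (fun t => (h.der x t).differentiableAt)
      fun t => by rw [(h.der x t).deriv]; exact he _
  have k := hp'.continuousAt_comp h.cont.continuousAt
  refine ⟨p, hp', ?_, fun a ha => (k.frequently (Ioi_mem_nhds ha)).exists⟩
  refine isClosed_Ici.mem_of_mapClusterPt k ((eventually_ge_atTop 0).mono fun t ht => ?_)
  have := hm ht
  simp only [hφ.zero] at this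
  exact this

theorem nsq_eq {z : Rn 3} (h : nsq z ≤ 0) : z = 0 := by
  funext i
  have := Finset.single_le_sum (f := fun i => z i ^ 2) (fun i _ => sq_nonneg _) (Finset.mem_univ i)
  exact pow_eq_zero_iff two_ne_zero |>.1 (le_antisymm (this.trans h) (sq_nonneg _))

theorem nsq_nonneg (z : Rn 3) : 0 ≤ nsq z := Finset.sum_nonneg fun _ _ => sq_nonneg _

theorem nsq_zero : nsq (0 : Rn 3) = 0 := by simp [nsq]

end Up

theorem up : UpStmt := by
  intro F _ P e₀ h
  have hδ := h.δpos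
  have hr := h.rpos
  have r2 : 0 < P.r ^ 2 := by positivity
  have m₁ : ∀ (x : ℝ) (y : E2), ‖x‖ ≤ P.δ / 2 → ‖y‖ ≤ P.δ / 2 → (x, y) ∈ P.nf.D₁ := fun x y a b => by
    show x ^ 2 + ‖y‖ ^ 2 < P.δ ^ 2
    rw [← sq_abs x]
    rw [Real.norm_eq_abs] at a
    nlinarith [abs_nonneg x, norm_nonneg y]
  have m₂ : ∀ (x : E2) (y : ℝ), ‖x‖ ≤ P.δ / 2 → ‖y‖ ≤ P.δ / 2 → (x, y) ∈ P.nf.D₂ := fun x y a b => by
    show ‖x‖ ^ 2 + y ^ 2 < P.δ ^ 2
    rw [← sq_abs y]
    rw [Real.norm_eq_abs] at b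
    nlinarith [abs_nonneg y, norm_nonneg x]
  have n0 : ∀ {A : Type} [NormedAddCommGroup A], ‖(0 : A)‖ ≤ P.δ / 2 := by
    intro A _
    rw [norm_zero]
    linarith
  have s₁ : ∀ j, Sad F P.φ (P.c₁ j) P.nf.D₁ (P.δ / 2) := fun j =>
    sad_of_field h.fl (h.oe₁ j) (by linarith) m₁ (h.ξ₁ j)
  have s₂ : ∀ i, Sad F P.φ (P.c₂ i) P.nf.D₂ (P.δ / 2) := fun i =>
    sad_of_field h.fl (h.oe₂ i) (by linarith) m₂ (h.ξ₂ i)
  have z0 : nsq (0 : Rn 3) < 4 * P.r ^ 2 := by rw [Up.nsq_zero]; linarith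
  have z1 : nsq (q0 - q0) < 4 * P.r ^ 2 := by rwa [sub_self]
  have cases : ∀ m, (∃ j, m = P.c₁ j 0) ∨ (∃ i, m = P.c₂ i 0) ∨ m = e₀ 0 ∨ m = e₀ q0 ∨
      0 < Df F (vs ℝ) P.f m (P.ξ m) := fun m => by
    by_contra hn
    simp only [not_or, not_exists] at hn
    exact hn.2.2.2.2 (h.pos m hn.1 hn.2.1 hn.2.2.1 hn.2.2.2.1)
  have zero : ∀ m, 0 < Df F (vs ℝ) P.f m (P.ξ m) ∨ P.ξ m = 0 := fun m => by
    rcases cases m with ⟨j, rfl⟩ | ⟨i, rfl⟩ | rfl | rfl | k
    · right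
      rw [← h.ξ₁ j 0 (s₁ j).zero_mem, Prod.fst_zero, Prod.snd_zero, neg_zero]
      exact map_zero _
    · right
      rw [← h.ξ₂ i 0 (s₂ i).zero_mem, Prod.fst_zero, Prod.snd_zero, neg_zero]
      exact map_zero _
    · right
      have e : mean 0 = 0 := by simp [mean]
      rw [← (h.ax 0 (Or.inl z0)).2, e, h.η0 0 (by rw [abs_zero]; linarith)]
      exact (congrArg _ (funext fun i => by simp)).trans (map_zero _)
    · right
      have e : mean q0 = π := by simp only [mean, q0]; ring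
      rw [← (h.ax q0 (Or.inr (Or.inl z1))).2, e, h.η1 π (by rw [sub_self, abs_zero]; linarith)]
      exact (congrArg _ (funext fun i => by simp [q0])).trans (map_zero _)
    · exact Or.inl k
  have he : ∀ m, 0 ≤ Df F (vs ℝ) P.f m (P.ξ m) := fun m => by
    rcases zero m with k | k
    · exact k.le
    · rw [k, map_zero]
  have fx : ∀ m, Df F (vs ℝ) P.f m (P.ξ m) = 0 → ∀ t, P.φ t m = m := fun m k t =>
    h.fl.fix ((zero m).resolve_left fun k' => k'.ne' k) t
  have d := h.fl.toDer h.smf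
  have f0 : P.f (e₀ 0) = P.a₀ := by rw [h.bot 0 z0, Up.nsq_zero, add_zero]
  have f1 : P.f (e₀ q0) = P.a₁ := by rw [h.top q0 z1, sub_self, Up.nsq_zero, sub_zero]
  refine { h with up := fun m hm => ?_, down := fun m hm => ?_ }
  · obtain ⟨p, hp, a, b⟩ := Up.limit h.fl d he m
    have w : ∀ q, (MapClusterPt q atTop fun t => P.φ t m) → ∀ t, P.φ t q = q := fun q hq =>
      fx q (d.omega h.fl (fun _ _ => he _) hq)
    rcases cases p with ⟨j, rfl⟩ | ⟨i, rfl⟩ | rfl | rfl | k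
    · obtain ⟨u, t, k1, k2⟩ := Up.stable h.fl (s₁ j) hp w
      exact Or.inr (Or.inl ⟨j, t, u, m₁ _ _ k1 n0, k2⟩)
    · obtain ⟨u, t, k1, k2⟩ := Up.stable h.fl (s₂ i) hp w
      exact Or.inr (Or.inr ⟨i, t, u, m₂ _ _ k1 n0, k2⟩)
    · obtain ⟨z, hz, rfl⟩ := h.bot' m (by linarith)
      rw [h.bot z hz, f0] at a
      exact (hm (by rw [Up.nsq_eq (z := z) (by linarith)])).elim
    · exact Or.inl (b _ (by linarith))
    · exact (k.ne' (d.omega h.fl (fun _ _ => he _) hp)).elim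
  · obtain ⟨p, hp, a, b⟩ := Up.limit h.fl.neg d.neg he m
    have w : ∀ q, (MapClusterPt q atTop fun t => P.φ (-t) m) → ∀ t, P.φ (-t) q = q :=
      fun q hq t => fx q (d.neg.omega h.fl.neg (fun _ _ => he _) hq) (-t)
    rcases cases p with ⟨j, rfl⟩ | ⟨i, rfl⟩ | rfl | rfl | k
    · obtain ⟨u, t, k1, k2⟩ := Up.stable h.fl.neg (s₁ j).swap hp w
      exact Or.inr (Or.inl ⟨j, -t, u, m₁ _ _ n0 k1, k2⟩)
    · obtain ⟨u, t, k1, k2⟩ := Up.stable h.fl.neg (s₂ i).swap hp w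
      exact Or.inr (Or.inr ⟨i, -t, u, m₂ _ _ n0 k1, k2⟩)
    · obtain ⟨t, ht⟩ := b (-(P.a₀ + P.r ^ 2)) (by linarith)
      exact Or.inl ⟨-t, by linarith⟩
    · obtain ⟨z, hz, rfl⟩ := h.top' m (by linarith)
      rw [h.top z hz, f1] at a
      exact (hm (by rw [sub_eq_zero.1 (Up.nsq_eq (z := z - q0) (by linarith))])).elim
    · exact (k.ne' (d.neg.omega h.fl.neg (fun _ _ => he _) hp)).elim

end Pool.Agent.MP_e1dc65_gt.T.Pr
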