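import Pool.Agent.MP_e1dc65_gt.t.PreAx
import Pool.Agent.MP_e1dc65_gt.e.aTwB
import Pool.Agent.MP_e1dc65_gt.k.Flow
import Pool.Agent.MP_e1dc65_gt.k.Bump
import Pool.Agent.MP_e1dc65_gt.k.Level
import Mathlib.Analysis.Real.Pi.Bounds

-- ======== part 0: formerly Pool.Agent.MP_e1dc65_gt.t.PreGd
section MrgPart0

/-! PROJECT HC, block NF, row GD: the atlas of `F` and the descent of the field. -/

open scoped ContDiff Manifold Topology Real
open Set Filter Function

noncomputable section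

namespace Pool.Agent.MP_e1dc65_gt.T.Pr

namespace Gd

variable {i i' : Fin 3} {z z' : Rn 3} {b : Bool} {α β : ℝ → ℝ → ℝ} {c t n : ℝ}

/-! ### Strips, boxes and thick cuts -/

theorem three (i k : Fin 3) : k = i ∨ k = jx i ∨ k = kx i := by
  fin_cases i <;> fin_cases k <;> simp [jx, kx]

theorem sg_cases (i : Fin 3) : sg i = 1 ∨ sg i = -1 := by fin_cases i <;> simp [sg]

theorem mem_box : z ∈ Box i ↔ |tau i z| < 1 / 5 ∧ |nu i z| < 1 / 5 := by
  simp only [Box, tau, nu, eps, mem_ofPred_eq]; norm_num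

theorem small_st (h1 : |tau i z| < 1) (h2 : |nu i z| < 1) : z ∈ St i :=
  ⟨by linarith [Real.pi_gt_three], by linarith [Real.pi_gt_three]⟩

theorem box_st (h : z ∈ Box i) : z ∈ St i :=
  small_st (by linarith [(mem_box.1 h).1]) (by linarith [(mem_box.1 h).2])

theorem st_lat (h : z ∈ St i) (h' : z' ∈ St i') (l : Lat z z') :
    i' = i ∧ tau i z = tau i' z' ∧ nu i z = nu i' z' := by
  have hp := Real.pi_pos
  have k : ∀ k, |z k - z' k| < 2 * π → z k = z' k := fun k => l.close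
  simp only [St, tau, nu, mem_ofPred_eq, abs_lt] at h h' k ⊢
  obtain ⟨⟨a1, a2⟩, a3, a4⟩ := h
  obtain ⟨⟨b1, b2⟩, b3, b4⟩ := h'
  have e : i' = i := by
    by_contra c
    have k0 := k 0
    have k1 := k 1
    have k2 := k 2
    fin_cases i <;> fin_cases i' <;> simp [jx, kx, cj, ck] at a1 a2 a3 a4 b1 b2 b3 b4 c <;>
      first
      | linarith [k0 ⟨by linarith, by linarith⟩]
      | linarith [k1 ⟨by linarith, by linarith⟩]
      | linarith [k2 ⟨by linarith, by linarith⟩]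
  subst e
  rw [k (jx i') ⟨by linarith, by linarith⟩, k (kx i') ⟨by linarith, by linarith⟩]
  exact ⟨rfl, rfl, rfl⟩

theorem blk_st (h : z ∈ St i) (h' : z ∈ Blk i') :
    i' = i ∧ |tau i z| ≤ 3 / 20 ∧ |nu i z| ≤ 1 / 20 := by
  obtain ⟨y, l, h1, h2⟩ := h'
  obtain ⟨e, e1, e2⟩ := st_lat h (small_st (by linarith) (by linarith)) l
  exact ⟨e, e1 ▸ h1, e2 ▸ h2⟩

theorem blk_lat (l : Lat z z') (h : z ∈ Blk i) : z' ∈ Blk i :=
  let ⟨y, hy, h2⟩ := h; ⟨y, l.symm.trans hy, h2⟩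

theorem none_main (h : z ∈ Dom none) : z ∈ Main := fun i ⟨y, l, h1, h2⟩ =>
  h i ⟨y, l, h1.trans (by norm_num [eps]), by simp [nu, h2]⟩

theorem main_lat (l : Lat z z') (h : z ∈ Main) : z' ∈ Main := fun i c => h i (l.symm.cut c)

theorem main_st (h : z ∈ St i) (h' : z ∉ Cut i ∨ nu i z ≠ 0) : z ∈ Main := by
  rintro i' ⟨y, l, h1, h2⟩
  have h3 : nu i' y = 0 := sub_eq_zero.2 h2
  obtain ⟨rfl, -, e2⟩ := st_lat h (small_st (h1.trans_lt (by norm_num [eps])) (by simp [h3])) l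
  exact h'.elim (· ⟨y, l, h1, h2⟩) (· (e2.trans h3))

theorem none_st (h : z ∈ St i) (h' : z ∉ Blk i) : z ∈ Dom none := fun _ c =>
  h' ((blk_st h c).1 ▸ c)

theorem blk_box (h : z ∈ St i) (h' : z ∈ Blk i') : z ∈ Box i :=
  mem_box.2 ⟨by linarith [(blk_st h h').2.1], by linarith [(blk_st h h').2.2]⟩

theorem isClosed_blk (i : Fin 3) : IsClosed (Blk i) := by
  have : Blk i = (fun z : Rn 3 => z (jx i)) ⁻¹' {t | ∃ m : ℤ, |t - 2 * π * m - cj i| ≤ 3 / 20} ∩
      (fun z : Rn 3 => z (kx i)) ⁻¹' {t | ∃ m : ℤ, |t - 2 * π * m - ck i| ≤ 1 / 20} := by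
    ext z
    constructor
    · rintro ⟨y, hy, h1, h2⟩
      obtain ⟨m, hm⟩ := hy (jx i)
      obtain ⟨k, hk⟩ := hy (kx i)
      exact ⟨⟨m, by rwa [show z (jx i) - 2 * π * m = y (jx i) by linarith]⟩, k, by
        rwa [show z (kx i) - 2 * π * k = y (kx i) by linarith]⟩
    · rintro ⟨⟨m, hm⟩, k, hk⟩
      refine ⟨z - Pi.single (jx i) (2 * π * m) - Pi.single (kx i) (2 * π * k), fun l => ?_, ?_, ?_⟩
      · by_cases a : l = jx i
        · exact ⟨m, by simp [a, jx_ne_kx]⟩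
        · by_cases b : l = kx i
          · exact ⟨k, by simp [b, (jx_ne_kx i).symm]⟩
          · exact ⟨0, by simp [a, b]⟩
      · simpa [tau, jx_ne_kx] using hm
      · simpa [nu, (jx_ne_kx i).symm] using hk
  rw [this]
  exact ((isClosed_per _ _).preimage (continuous_apply _)).inter
    ((isClosed_per _ _).preimage (continuous_apply _))

theorem isOpen_dom (a : Option (Fin 3 × Bool)) : IsOpen (Dom a) := by
  have c1 : ∀ i, Continuous (tau i) := fun i => by unfold tau; fun_prop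
  have c2 : ∀ i, Continuous (nu i) := fun i => by unfold nu; fun_prop
  have h : ∀ i, IsOpen (St i) := fun i => by
    refine IsOpen.and (isOpen_lt ?_ ?_) (isOpen_lt ?_ ?_) <;> fun_prop
  rcases a with _ | ⟨i, _ | _⟩
  · rw [show Dom none = ⋂ i, (Blk i)ᶜ by ext; simp [Dom]]
    exact isOpen_iInter_of_finite fun i => (isClosed_blk i).isOpen_compl
  all_goals
    refine (h i).and (isOpen_lt ?_ ?_) <;> fun_prop

/-- `0` for the chart on the side `ν < 1 / 20`, `1` for the other one -/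
def cc (i : Fin 3) (b : Bool) : ℝ := if b then (1 + sg i) / 2 else (1 - sg i) / 2

theorem dom_some (h : z ∈ Dom (some (i, b))) :
    z ∈ St i ∧ (cc i b = 0 ∧ nu i z < 1 / 20 ∨ cc i b = 1 ∧ -(1 / 20) < nu i z) := by
  cases b <;> obtain ⟨h1, h2⟩ := h <;> rcases sg_cases i with e | e <;> rw [e] at h2 <;>
    refine ⟨h1, ?_⟩ <;> simp [cc, e] <;> linarith

/-! ### Shifts of the twisted coordinate -/

theorem tau_add (z : Rn 3) (c : ℝ) : tau i (z + Pi.single i c) = tau i z := by simp [tau, jx_ne]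
theorem nu_add (z : Rn 3) (c : ℝ) : nu i (z + Pi.single i c) = nu i z := by simp [nu, kx_ne]
theorem box_add (c : ℝ) : z + Pi.single i c ∈ Box i ↔ z ∈ Box i := by
  rw [mem_box, mem_box, tau_add, nu_add]

theorem lat_add (h : ∃ m : ℤ, c = 2 * π * m) : Lat (z + Pi.single i c) z := fun k => by
  by_cases e : k = i
  · simpa [e] using h
  · exact ⟨0, by simp [e]⟩

def sf (i : Fin 3) (α : ℝ → ℝ → ℝ) (z : Rn 3) : Rn 3 := z + Pi.single i (α (tau i z) (nu i z))

theorem sf_neg (z : Rn 3) : sf i α (sf i (fun s t => -α s t) z) = z := by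
  rw [sf, sf, tau_add, nu_add, add_assoc, ← Pi.single_add, neg_add_cancel, Pi.single_zero, add_zero]

theorem cd_sf (h : ContDiff ℝ ∞ fun p : ℝ × ℝ => α p.1 p.2) : ContDiff ℝ ∞ (sf i α) :=
  contDiff_id.add ((ContinuousLinearMap.single ℝ (fun _ : Fin 3 => ℝ) i).contDiff.comp
    (h.comp (f := fun z => (tau i z, nu i z)) (by unfold tau nu; fun_prop)))

theorem ld_sf (h : ContDiff ℝ ∞ fun p : ℝ × ℝ => α p.1 p.2) (z : Rn 3) :
    LDAt (vs (Rn 3)) (vs (Rn 3)) (sf i α) z :=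
  ldAt_of_inv isOpen_univ isOpen_univ trivial (fun _ _ => smAt_vs.2 (cd_sf h).contDiffAt)
    (fun _ _ => smAt_vs.2 (cd_sf (α := fun s t => -α s t) h.neg).contDiffAt) (mapsTo_univ _ _)
    (mapsTo_univ _ _) (fun y _ => by simpa using sf_neg (α := fun s t => -α s t) y)
    fun y _ => sf_neg y

def al (c s t : ℝ) : ℝ :=
  -(2 * π) * (Real.smoothTransition (20 * t) * (lam s - lam (s + t)) + c * lam (s + t))

theorem cd_al (c : ℝ) : ContDiff ℝ ∞ fun p : ℝ × ℝ => al c p.1 p.2 := by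
  have h1 : ContDiff ℝ ∞ Real.smoothTransition := Real.smoothTransition.contDiff
  have h2 : ContDiff ℝ ∞ lam := h1.comp (by fun_prop)
  unfold al
  fun_prop

theorem lam_far (h1 : 3 / 20 ≤ |t|) (h2 : |n| ≤ 1 / 20) :
    ∃ m : ℤ, lam t = m ∧ lam (t + n) = m := by
  rw [abs_le] at h2
  rcases le_abs.1 h1 with h | h
  · refine ⟨1, ?_, ?_⟩ <;> rw [lam, Real.smoothTransition.one_of_one_le, Int.cast_one] <;>
      norm_num [eps, le_div_iff₀, div_nonpos_iff] <;> linarith
  · refine ⟨0, ?_, ?_⟩ <;> rw [lam, Real.smoothTransition.zero_of_nonpos, Int.cast_zero] <;>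
      norm_num [eps, le_div_iff₀, div_nonpos_iff] <;> linarith

/-! ### The charts -/

variable {F : Mf (Rn 3)} {e₀ : Rn 3 → F} {e : Fin 3 → Rn 3 → F} {a a' : Option (Fin 3 × Bool)}

open Classical in
def KK (e₀ : Rn 3 → F) (e : Fin 3 → Rn 3 → F) : Option (Fin 3 × Bool) → Rn 3 → F
  | none => e₀
  | some (i, b) => fun z => if z ∈ Box i then e i (sf i (al (cc i b)) z) else e₀ z

theorem KK_box (h : z ∈ Box i) : KK e₀ e (some (i, b)) z = e i (sf i (al (cc i b)) z) := if_pos h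

theorem up (H : IsF F e₀ e) (h : z ∈ Box i) (h1 : 0 < nu i z) (c : ℝ) :
    e i (z + Pi.single i c) = e₀ (z + Pi.single i (c + 2 * π * lam (tau i z))) := by
  rw [H.up i _ ((box_add c).2 h) (sub_pos.1 (h1.trans_eq (nu_add z c).symm)), shr,
    Pi.single_add, ← add_assoc, ← tau_add z c]
  rfl

theorem off (H : IsF F e₀ e) (h : z ∈ Dom (some (i, b))) (h' : z ∉ Blk i) :
    KK e₀ e (some (i, b)) z = e₀ z := by
  by_cases hb : z ∈ Box i
  swap
  · exact if_neg hb
  obtain ⟨h1, h2⟩ := dom_some h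
  have hm := none_main (none_st h1 h')
  have far : |nu i z| ≤ 1 / 20 → _ := fun h3 =>
    lam_far (not_le.1 fun h4 => h' ⟨z, Lat.refl z, h4, h3⟩).le h3
  have key : ∀ c, (∃ m : ℤ, c = 2 * π * m) → e₀ (z + Pi.single i c) = e₀ z := fun c hc =>
    (H.eq0 _ (main_lat (lat_add hc).symm hm) _ hm).2 (lat_add hc)
  rw [KK_box hb, sf]
  rcases le_or_gt (nu i z) 0 with h3 | h3
  · have l : ∃ m : ℤ, al (cc i b) (tau i z) (nu i z) = 2 * π * m := by
      rw [al, Real.smoothTransition.zero_of_nonpos (by linarith)]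
      rcases h2 with ⟨h4, -⟩ | ⟨h4, h5⟩ <;> rw [h4]
      · exact ⟨0, by simp⟩
      · obtain ⟨m, -, h6⟩ := far (abs_le.2 ⟨h5.le, by linarith⟩)
        exact ⟨-m, by rw [h6]; push_cast; ring⟩
    rw [H.low i _ ((box_add _).2 hb) (main_lat (lat_add l).symm hm)
      (sub_nonpos.1 ((nu_add z _).trans_le h3)), key _ l]
  · rw [up H hb h3, key]
    rcases le_or_gt (nu i z) (1 / 20) with h4 | h4
    · obtain ⟨m, h5, h6⟩ := far (abs_le.2 ⟨by linarith, h4⟩)
      rw [al, h5, h6]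
      rcases h2 with ⟨h7, -⟩ | ⟨h7, -⟩ <;> rw [h7]
      · exact ⟨m, by ring⟩
      · exact ⟨0, by push_cast; ring⟩
    · rw [al, Real.smoothTransition.one_of_one_le (by linarith),
        (h2.resolve_left fun c => h4.not_gt c.2).1]
      exact ⟨0, by push_cast; ring⟩

theorem eq0 (H : IsF F e₀ e) (h : z ∈ Dom a) (h' : z ∈ Dom none) : KK e₀ e a z = e₀ z := by
  rcases a with _ | ⟨i, b⟩
  · rfl
  · exact off H h (h' i)

theorem ev0 (H : IsF F e₀ e) (h : z ∈ Dom a) (h' : z ∈ Dom none) :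
    ∀ᶠ y in 𝓝 z, y ∈ Dom none ∧ KK e₀ e a y = e₀ y := by
  filter_upwards [(isOpen_dom a).mem_nhds h, (isOpen_dom none).mem_nhds h'] with y h1 h2
    using ⟨h2, eq0 H h1 h2⟩

theorem split (h : z ∈ Dom a) :
    z ∈ Dom none ∨ z ∉ Dom none ∧ ∃ i b, a = some (i, b) ∧ z ∈ Box i := by
  by_cases c : z ∈ Dom none
  · exact Or.inl c
  rcases a with _ | ⟨i, b⟩
  · exact (c h).elim
  · exact Or.inr ⟨c, i, b, rfl, blk_box (dom_some h).1 (not_not.1 (mt (none_st (dom_some h).1) c))⟩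

theorem ld (H : IsF F e₀ e) (h : z ∈ Dom a) : LDAt (vs (Rn 3)) F (KK e₀ e a) z := by
  obtain c | ⟨-, i, b, rfl, hb⟩ := split h
  · exact (H.ld0 z (none_main c)).congr' ((ev0 H h c).mono fun _ h => h.2)
  · refine ((ld_sf (cd_al (cc i b)) z).trans (H.ld i _ ((box_add _).2 hb))).congr' ?_
    filter_upwards [(isOpen_box i).mem_nhds hb] with y hy using KK_box hy

theorem rel_add (h : z ∈ Box i) (h' : z' ∈ Box i) {c' : ℝ}
    (l' : Lat (z + Pi.single i c) (z' + Pi.single i c')) : ∀ k, k ≠ i → z k = z' k := fun k hk => by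
  obtain ⟨-, e1, e2⟩ := st_lat (box_st ((box_add _).2 h)) (box_st ((box_add _).2 h')) l'
  simp only [tau_add, nu_add] at e1 e2
  obtain c | rfl | rfl := three i k
  · exact (hk c).elim
  · exact sub_left_injective e1
  · exact sub_left_injective e2

theorem mix (H : IsF F e₀ e) (h : z ∈ Main) (h' : z' ∈ Box i)
    (E : e₀ z = e i (z' + Pi.single i c)) : ∃ c, Lat z (z' + Pi.single i c) := by
  have hb := (box_add c).2 h'
  rcases le_or_gt (nu i z') 0 with h3 | h3
  · have hm := main_st (box_st hb) (Or.inl fun k => H.cut i _ ⟨hb, k⟩ ⟨z, h, E⟩)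
    rw [H.low i _ hb hm (sub_nonpos.1 ((nu_add z' _).trans_le h3))] at E
    exact ⟨c, (H.eq0 _ h _ hm).1 E⟩
  · rw [up H h' h3] at E
    exact ⟨_, (H.eq0 _ h _ (main_st (box_st ((box_add _).2 h'))
      (Or.inr (by rw [nu_add]; exact h3.ne')))).1 E⟩

theorem rel_symm (h : Rel z z') : Rel z' z :=
  h.imp Lat.symm fun ⟨i, w, h1, w', h2, l, l', k⟩ =>
    ⟨i, w', h2, w, h1, l', l, fun j hj => (k j hj).symm⟩

theorem sep (H : IsF F e₀ e) (h : z ∈ Dom a) (h' : z' ∈ Dom a')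
    (E : KK e₀ e a z = KK e₀ e a' z') : Rel z z' := by
  have m : ∀ {z z' : Rn 3} {i c}, z ∈ Dom none → z' ∈ Box i →
      e₀ z = e i (z' + Pi.single i c) → Rel z z' := fun {z z' i c} h1 h2 h3 => by
    obtain ⟨c, l⟩ := mix H (none_main h1) h2 h3
    exact Or.inr ⟨i, _, (box_add c).2 h2, z', h2, l, Lat.refl _, fun k hk => by simp [hk]⟩
  obtain c | ⟨-, i, b, rfl, hb⟩ := split h <;> obtain c' | ⟨-, i', b', rfl, hb'⟩ := split h'
  · rw [eq0 H h c, eq0 H h' c'] at E
    exact Or.inl ((H.eq0 _ (none_main c) _ (none_main c')).1 E)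
  · rw [eq0 H h c, KK_box hb'] at E
    exact m c hb' E
  · rw [eq0 H h' c', KK_box hb] at E
    exact rel_symm (m c' hb E.symm)
  · rw [KK_box hb, KK_box hb'] at E
    obtain rfl : i = i' := by_contra fun c =>
      H.dis i i' c _ ((box_add _).2 hb) _ ((box_add _).2 hb') E
    exact Or.inr ⟨i, z, hb, z', hb', Lat.refl _, Lat.refl _, rel_add hb hb'
      ((H.eq i _ ((box_add _).2 hb) _ ((box_add _).2 hb')).1 E)⟩

theorem rel_none (r : Rel z z') (h : z ∈ Dom none) : z' ∈ Dom none := fun i c => by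
  obtain l | ⟨j, w, h1, w', h2, l, l', k⟩ := r
  · exact h i (blk_lat l.symm c)
  · obtain ⟨-, a1, a2⟩ := blk_st (box_st h2) (blk_lat l' c)
    exact h j ⟨w, l, by rwa [tau, k _ (jx_ne j)], by rwa [nu, k _ (kx_ne j)]⟩

theorem cov (H : IsF F e₀ e) (m : F) : ∃ a, ∃ z ∈ Dom a, KK e₀ e a z = m := by
  have k : ∀ i, ∀ y ∈ Box i, ∃ a, ∃ z ∈ Dom a, KK e₀ e a z = e i y := fun i y hy => by
    have k1 : ∀ b, KK e₀ e (some (i, b)) (sf i (fun s t => -al (cc i b) s t) y) = e i y :=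
      fun b => (KK_box ((box_add _).2 hy)).trans (congrArg _ (sf_neg y))
    rcases lt_or_ge (sg i * nu i y) (1 / 20) with h | h
    · exact ⟨some (i, false), _, ⟨box_st ((box_add _).2 hy), by rwa [nu_add]⟩, k1 false⟩
    · exact ⟨some (i, true), _, ⟨box_st ((box_add _).2 hy), by rw [nu_add]; linarith⟩, k1 true⟩
  obtain ⟨z, hz, rfl⟩ | ⟨i, y, hy, rfl⟩ := H.cov m
  swap
  · exact k i y hy
  by_cases c : z ∈ Dom none
  · exact ⟨none, z, c, rfl⟩
  obtain ⟨i, y, l, h1, h2⟩ : ∃ i, z ∈ Blk i := by simpa [Dom] using c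
  have hb : y ∈ Box i := mem_box.2 ⟨by linarith, by linarith⟩
  rw [(H.eq0 _ hz _ (main_lat l hz)).2 l]
  rcases le_or_gt (nu i y) 0 with h3 | h3
  · rw [← H.low i y hb (main_lat l hz) (sub_nonpos.1 h3)]
    exact k i y hb
  · have := up H hb h3 (-(2 * π * lam (tau i y)))
    rw [neg_add_cancel, Pi.single_zero, add_zero] at this
    rw [← this]
    exact k i _ ((box_add _).2 hb)

theorem mat (H : IsF F e₀ e) (h : z ∈ St i) (h1 : |nu i z| < 1 / 20) :
    KK e₀ e (some (i, false)) z = KK e₀ e (some (i, true)) (z + sh 1 i z) := by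
  rw [sh, one_mul]
  by_cases hb : z ∈ Box i
  · rw [KK_box hb, KK_box ((box_add _).2 hb), sf, sf, tau_add, nu_add, add_assoc, ← Pi.single_add]
    congr 3
    simp only [al, cc, if_true, Bool.false_eq_true, if_false]
    ring
  · have hm := none_main (none_st h (mt (blk_box h) hb))
    obtain ⟨m, -, h2⟩ := lam_far (t := tau i z)
      (by linarith [not_lt.1 fun c => hb (mem_box.2 ⟨c, by linarith⟩)]) h1.le
    have l : Lat (z + Pi.single i (2 * π * sg i * lam (tau i z + nu i z))) z := lat_add (by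
      rcases sg_cases i with e | e <;> rw [e, h2]
      · exact ⟨m, by ring⟩
      · exact ⟨-m, by push_cast; ring⟩)
    exact (if_neg hb).trans (((H.eq0 _ hm _ (main_lat l.symm hm)).2 l.symm).trans
      (if_neg (mt (box_add _).1 hb)).symm)

theorem Df_line {k k' : Rn 3 → F} {v : Rn 3} (h : SmAt (vs (Rn 3)) F k z)
    (h' : SmAt (vs (Rn 3)) F k' z') (E : ∀ᶠ t : ℝ in 𝓝 0, k (z + t • v) = k' (z' + t • v)) :
    Df (vs (Rn 3)) F k z v = Df (vs (Rn 3)) F k' z' v := by
  have a : ∀ {k : Rn 3 → F} {z}, SmAt (vs (Rn 3)) F k z →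
      Df (vs ℝ) F (fun t : ℝ => k (z + t • v)) 0 1 = Df (vs (Rn 3)) F k z v := fun {k z} h => by
    rw [Df_comp (X := vs ℝ) (Y := vs (Rn 3)) (f := fun t : ℝ => z + t • v)
      (smAt_vs.2 (by fun_prop)) (by simpa using h), ContinuousLinearMap.comp_apply, Df_vs,
      fderiv_apply_one_eq_deriv, (((hasDerivAt_id' (0 : ℝ)).smul_const v).const_add z).deriv]
    simp
  rw [← a h, ← a h', Df_congr (X := vs ℝ) E]

variable {U : Eu}

theorem line (z v : Rn 3) : Tendsto (fun t : ℝ => z + t • v) (𝓝 0) (𝓝 z) :=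
  Continuous.tendsto' (by fun_prop) _ _ (by simp)

theorem compat (hU : U.Ok) (H : IsF F e₀ e) (h : z ∈ Dom a) (h' : z' ∈ Dom a')
    (E : KK e₀ e a z = KK e₀ e a' z') :
    Df (vs (Rn 3)) F (KK e₀ e a) z (U.V z) = Df (vs (Rn 3)) F (KK e₀ e a') z' (U.V z') := by
  have r := sep H h h' E
  obtain c | ⟨c, i, b, rfl, hb⟩ := split h <;> obtain c' | ⟨c', i', b', rfl, hb'⟩ := split h'
  · rw [eq0 H h c, eq0 H h' c'] at E
    have l := (H.eq0 _ (none_main c) _ (none_main c')).1 E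
    rw [← hU.vd.latV _ _ l]
    refine Df_line (ld H h).sm (ld H h').sm ?_
    filter_upwards [(line z _).eventually (ev0 H h c), (line z' _).eventually (ev0 H h' c')]
      with t h1 h2
    rw [h1.2, h2.2]
    exact (H.eq0 _ (none_main h1.1) _ (none_main h2.1)).2 (l.add _)
  · exact (c' (rel_none r c)).elim
  · exact (c (rel_none (rel_symm r) c')).elim
  rw [KK_box hb, KK_box hb'] at E
  obtain rfl : i = i' := by_contra fun c =>
    H.dis i i' c _ ((box_add _).2 hb) _ ((box_add _).2 hb') E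
  have l := (H.eq i _ ((box_add _).2 hb) _ ((box_add _).2 hb')).1 E
  have k := rel_add hb hb' l
  obtain ⟨a1, a2, a3, -⟩ := hU.vd.box i z hb
  obtain ⟨b1, b2, b3, -⟩ := hU.vd.box i z' hb'
  rw [show U.V z' = U.V z from funext fun k => by
    obtain rfl | rfl | rfl := three i k
    exacts [b1.trans a1.symm, b2.trans a2.symm, b3.trans a3.symm]]
  refine Df_line (ld H h).sm (ld H h').sm ?_
  filter_upwards [(line z (U.V z)).eventually ((isOpen_box i).mem_nhds hb),
    (line z' (U.V z)).eventually ((isOpen_box i).mem_nhds hb')] with t h1 h2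
  rw [KK_box h1, KK_box h2]
  refine (H.eq i _ ((box_add _).2 h1) _ ((box_add _).2 h2)).2 fun j => (l j).imp fun m hm => ?_
  rw [← hm]
  by_cases c : j = i
  · subst c
    have e1 : ∀ y : Rn 3, tau j (y + t • U.V z) + nu j (y + t • U.V z) = tau j y + nu j y :=
      fun y => by simp only [tau, nu, Pi.add_apply, Pi.smul_apply, a2, a3, smul_eq_mul]; ring
    simp only [Pi.add_apply, Pi.single_eq_same, al, e1]
    simp only [tau, nu, Pi.add_apply, k _ (jx_ne j), k _ (kx_ne j)]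
    ring
  · simp [c]

theorem rel_g (hU : U.Ok) (r : Rel z z') : U.g z = U.g z' := by
  obtain l | ⟨j, w, h1, w', h2, l, l', k⟩ := r
  · exact hU.vd.latg _ _ l
  · rw [hU.vd.latg _ _ l, hU.vd.latg _ _ l', (hU.vd.box j w h1).2.2.2, (hU.vd.box j w' h2).2.2.2,
      tau, nu, k _ (jx_ne j), k _ (kx_ne j), tau, nu]

end Gd

open Gd in
theorem gd : GdStmt := by
  intro U F e₀ e hU H
  choose a z hz hK using cov H
  have fld : ∀ a', ∀ y ∈ Dom a', Df (vs (Rn 3)) F (KK e₀ e a') y (U.V y) =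
      (fun m => Df (vs (Rn 3)) F (KK e₀ e (a m)) (z m) (U.V (z m))) (KK e₀ e a' y) :=
    fun a' y hy => compat hU H hy (hz _) (hK _).symm
  have fn : ∀ a', ∀ y ∈ Dom a', U.g (z (KK e₀ e a' y)) = U.g y := fun a' y hy =>
    rel_g hU (sep H (hz _) hy (hK _))
  have vf : ∀ m, VfAt F (fun m => Df (vs (Rn 3)) F (KK e₀ e (a m)) (z m) (U.V (z m))) m :=
    fun m => by
      have := ((ld H (hz m)).vfAt_iff (v := U.V)
        (u := fun m => Df (vs (Rn 3)) F (KK e₀ e (a m)) (z m) (U.V (z m)))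
        (by filter_upwards [(isOpen_dom _).mem_nhds (hz m)] using fld (a m))).1
        (vfAt_vs.2 hU.vd.smV.contDiffAt)
      rwa [hK] at this
  have := H.cpt
  obtain ⟨φ, hφ⟩ := exists_flow_compact vf
  refine ⟨⟨1, KK e₀ e, _, φ, fun m => U.g (z m)⟩, ⟨Or.inl rfl, fun _ _ => ld H,
    fun _ _ _ h _ h' => sep H h h', fun m => ⟨_, _, hz m, hK m⟩, fun y h y' l =>
      (H.eq0 _ (none_main h) _ (main_lat l (none_main h))).2 l, fun _ _ => eq0 H,
    fun _ _ => mat H, vf, hφ, fun m _ => ?_, fld, fn⟩, rfl, rfl⟩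
  have := (ld H (hz m)).sm_of_comp (Z := vs ℝ) (g := fun m => U.g (z m))
    ((smAt_vs.2 hU.vd.smg.contDiffAt).congr'
      (mem_of_superset ((isOpen_dom _).mem_nhds (hz m)) (fn (a m))))
  rwa [hK] at this

end Pool.Agent.MP_e1dc65_gt.T.Pr

end
end MrgPart0

-- ======== part 1: formerly Pool.Agent.MP_e1dc65_gt.t.PreOk
section MrgPart1

/-! PROJECT HC, block NF, row OK: Morse charts, the bump function and the axial tube. -/

open scoped ContDiff Manifold Topology Real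
open Set Filter Function Module Topology

noncomputable section

namespace Pool.Agent.MP_e1dc65_gt.T.Pr

namespace OkP

/-! ### Coordinates -/

theorem tri (i k : Fin 3) : k = i ∨ k = jx i ∨ k = kx i := by
  fin_cases i <;> fin_cases k <;> simp [jx, kx]

theorem sum3 (i : Fin 3) (h : Fin 3 → ℝ) : ∑ k, h k = h i + h (jx i) + h (kx i) := by
  fin_cases i <;> simp [jx, kx, Fin.sum_univ_three] <;> ring

theorem ins_i (i : Fin 3) (a : ℝ) (b : E2) : ins i a b i = a := if_pos rfl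
theorem ins_j (i : Fin 3) (a : ℝ) (b : E2) : ins i a b (jx i) = b 0 := by simp [ins, jx_ne]
theorem ins_k (i : Fin 3) (a : ℝ) (b : E2) : ins i a b (kx i) = b 1 := by
  simp [ins, kx_ne, (jx_ne_kx i).symm]

/-- `ins` as a linear map -/
def insL (i : Fin 3) : ℝ × E2 →L[ℝ] Rn 3 := LinearMap.toContinuousLinearMap
  { toFun := fun p => ins i p.1 p.2
    map_add' := fun p q => by funext k; simp only [ins, Pi.add_apply]; split_ifs <;> rfl
    map_smul' := fun c p => by funext k; simp only [ins, Pi.smul_apply]; split_ifs <;> rfl }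

theorem insL_inj (i : Fin 3) : Injective (insL i) := fun p q e => by
  have e' : ins i p.1 p.2 = ins i q.1 q.2 := e
  refine Prod.ext (by rw [← ins_i i p.1 p.2, e', ins_i]) ?_
  ext l
  fin_cases l
  · exact (ins_j i p.1 p.2).symm.trans (e' ▸ ins_j i q.1 q.2)
  · exact (ins_k i p.1 p.2).symm.trans (e' ▸ ins_k i q.1 q.2)

theorem nrm (b : E2) : ‖b‖ ^ 2 = b 0 ^ 2 + b 1 ^ 2 := by
  rw [EuclideanSpace.real_norm_sq_eq, Fin.sum_univ_two]

theorem ins_lt {i : Fin 3} {a : ℝ} {b : E2} (h : a ^ 2 + ‖b‖ ^ 2 < (1 / 25) ^ 2) (k : Fin 3) :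
    |ins i a b k| < 1 / 25 := by
  rw [nrm] at h
  refine abs_lt_of_sq_lt_sq ?_ (by norm_num)
  rcases tri i k with rfl | rfl | rfl
  · rw [ins_i]; nlinarith [sq_nonneg (b 0), sq_nonneg (b 1)]
  · rw [ins_j]; nlinarith [sq_nonneg a, sq_nonneg (b 1)]
  · rw [ins_k]; nlinarith [sq_nonneg a, sq_nonneg (b 0)]

theorem co_lt {v : Rn 3} {r : ℝ} (hr : 0 ≤ r) (h : nsq v < r ^ 2) (k : Fin 3) : |v k| < r :=
  abs_lt_of_sq_lt_sq (lt_of_le_of_lt (Finset.single_le_sum (f := fun i => v i ^ 2)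
    (fun _ _ => sq_nonneg _) (Finset.mem_univ k)) h) hr

/-- affine charts -/
theorem aff {E : Type} [NormedAddCommGroup E] [NormedSpace ℝ E] [FiniteDimensional ℝ E]
    (hd : finrank ℝ E = 3) {L : E →L[ℝ] Rn 3} (hL : Injective L) (c : Rn 3) (x : E) :
    LDAt (vs E) (vs (Rn 3)) (fun p => c + L p) x ∧
      Df (vs E) (vs (Rn 3)) (fun p => c + L p) x = L := by
  have e : fderiv ℝ (fun p => c + L p) x = L := (L.hasFDerivAt.const_add c).fderiv
  exact ⟨ldAt_vs univ_mem (fun _ _ => contDiffAt_const.add L.contDiff.contDiffAt)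
    (by rw [e]; exact Lev.inv_of_inj (by simp [hd]) hL), (Df_vs _ _).trans e⟩

/-! ### Points far from the boxes -/

def Gd (z : Rn 3) : Prop := ∀ k, -(1 / 2) < Real.sin (z k)
def Cube (z : Rn 3) : Prop := ∀ k, -(1 / 2) < z k ∧ z k < π + 1 / 2

theorem lat_sin {z z' : Rn 3} (h : Lat z z') (k : Fin 3) : Real.sin (z k) = Real.sin (z' k) := by
  obtain ⟨m, hm⟩ := h k
  rw [show z k = z' k + m * (2 * π) by linarith, Real.sin_add_int_mul_two_pi]

theorem Cube.gd {z : Rn 3} (h : Cube z) : Gd z := fun k => by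
  obtain ⟨h1, h2⟩ := h k
  rcases le_total (z k) 0 with a | a
  · have := Real.sin_le (x := -z k) (by linarith)
    rw [Real.sin_neg] at this
    linarith
  rcases le_total (z k) π with b | b
  · linarith [Real.sin_nonneg_of_nonneg_of_le_pi a b]
  · have := Real.sin_le (x := z k - π) (by linarith)
    rw [Real.sin_sub_pi] at this
    linarith

theorem sin_lt {t : ℝ} (h : |t - 3 * π / 2| < 1 / 5) : Real.sin t < -(1 / 2) := by
  have h1 := Real.one_sub_sq_div_two_le_cos (x := t - 3 * π / 2)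
  have h2 : Real.sin t = -Real.cos (t - 3 * π / 2) := by
    rw [← Real.sin_add_pi_div_two, ← Real.sin_add_pi]; congr 1; ring
  have h3 := abs_lt.1 h
  nlinarith

theorem box_not {i : Fin 3} {z w : Rn 3} (h : Gd z) (hw : w ∈ Box i) : ¬Lat z w := fun l => by
  have h1 : |w (jx i) - cj i| < 1 / 5 := by linarith [hw.1, show 2 * eps = 1 / 5 by norm_num [eps]]
  have h2 : |w (kx i) - ck i| < 1 / 5 := by linarith [hw.2, show 2 * eps = 1 / 5 by norm_num [eps]]
  have : ∃ k, |w k - 3 * π / 2| < 1 / 5 := by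
    fin_cases i
    exacts [⟨_, h1⟩, ⟨_, h2⟩, ⟨_, h1⟩]
  obtain ⟨k, hk⟩ := this
  linarith [h k, sin_lt hk, lat_sin l k]

theorem Gd.dom {z : Rn 3} (h : Gd z) : z ∈ Dom none := fun i ⟨w, l, h1, h2⟩ =>
  box_not (i := i) h ⟨lt_of_le_of_lt h1 (by norm_num [eps]), lt_of_le_of_lt h2 (by norm_num [eps])⟩ l

theorem Gd.lat {z z' : Rn 3} (h : Gd z) (r : Rel z z') : Lat z z' :=
  r.resolve_right fun ⟨_, _, hw, _, _, l, _⟩ => box_not h hw l

theorem closed_blk (i : Fin 3) : IsClosed (Blk i) := by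
  have : Blk i = (fun z : Rn 3 => z (jx i)) ⁻¹' {t | ∃ m : ℤ, |t - 2 * π * m - cj i| ≤ 3 / 20} ∩
      (fun z : Rn 3 => z (kx i)) ⁻¹' {t | ∃ m : ℤ, |t - 2 * π * m - ck i| ≤ 1 / 20} := by
    ext z
    constructor
    · rintro ⟨y, hy, h1, h2⟩
      obtain ⟨m, hm⟩ := hy (jx i)
      obtain ⟨k, hk⟩ := hy (kx i)
      exact ⟨⟨m, by rwa [show z (jx i) - 2 * π * m = y (jx i) by linarith]⟩,
        k, by rwa [show z (kx i) - 2 * π * k = y (kx i) by linarith]⟩
    · rintro ⟨⟨m, hm⟩, k, hk⟩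
      refine ⟨z - Pi.single (jx i) (2 * π * m) - Pi.single (kx i) (2 * π * k), fun l => ?_, ?_, ?_⟩
      · by_cases a : l = jx i
        · exact ⟨m, by simp [a, jx_ne_kx]⟩
        · by_cases b : l = kx i
          · exact ⟨k, by simp [b, (jx_ne_kx i).symm]⟩
          · exact ⟨0, by simp [a, b]⟩
      · simpa [tau, jx_ne_kx] using hm
      · simpa [nu, (jx_ne_kx i).symm] using hk
  rw [this]
  exact ((isClosed_per _ _).preimage (continuous_apply _)).inter
    ((isClosed_per _ _).preimage (continuous_apply _))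

theorem open_dom (a : Option (Fin 3 × Bool)) : IsOpen (Dom a) := by
  have c1 : ∀ i, Continuous (tau i) := fun i => by unfold tau; fun_prop
  have c2 : ∀ i, Continuous (nu i) := fun i => by unfold nu; fun_prop
  have o : ∀ i, IsOpen (St i) := fun i =>
    (isOpen_lt (c1 i).abs continuous_const).inter (isOpen_lt (c2 i).abs continuous_const)
  rcases a with _ | ⟨i, _ | _⟩
  · rw [show Dom none = ⋂ i, (Blk i)ᶜ by ext z; simp [Dom]]
    exact isOpen_iInter_of_finite fun i => (closed_blk i).isOpen_compl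
  · exact (o i).inter (isOpen_lt (continuous_const.mul (c2 i)) continuous_const)
  · exact (o i).inter (isOpen_lt continuous_const (continuous_const.mul (c2 i)))

/-! ### The bump function -/

variable {p η : ℝ → ℝ} (S : Sc p η)

def rhoV (p : ℝ → ℝ) (z : Rn 3) : ℝ := Real.smoothTransition
  ((p (z 0) - p (z 1)) ^ 2 + (p (z 1) - p (z 2)) ^ 2 + (p (z 2) - p (z 0)) ^ 2 - 30)

theorem rho_one {z : Rn 3} {a b : Fin 3} (ha : p (z a) ≤ -3) (hb : 3 ≤ p (z b)) :
    rhoV p z = 1 := by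
  refine Real.smoothTransition.one_of_one_le ?_
  have h1 := sq_nonneg (p (z 0) - p (z 1))
  have h2 := sq_nonneg (p (z 1) - p (z 2))
  have h3 := sq_nonneg (p (z 2) - p (z 0))
  fin_cases a <;> fin_cases b <;> simp only [Fin.reduceFinMk, Fin.zero_eta, Fin.mk_one] at ha hb <;>
    nlinarith

theorem rho_zero {z : Rn 3} (h : ∀ a b, |p (z a) - p (z b)| ≤ π) : rhoV p z = 0 := by
  refine Real.smoothTransition.zero_of_nonpos ?_
  have b : ∀ a b, (p (z a) - p (z b)) ^ 2 ≤ 10 := fun a b => by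
    rw [← sq_abs]
    nlinarith [h a b, abs_nonneg (p (z a) - p (z b)), Real.pi_lt_d2]
  linarith [b 0 1, b 1 2, b 2 0]

include S

theorem rho_sm : ContDiff ℝ ∞ (rhoV p) := by
  have h : ∀ k, ContDiff ℝ ∞ fun z : Rn 3 => p (z k) := fun k => S.sm.comp (contDiff_apply ℝ ℝ k)
  exact Real.smoothTransition.contDiff.comp ((((((h 0).sub (h 1)).pow 2).add
    (((h 1).sub (h 2)).pow 2)).add (((h 2).sub (h 0)).pow 2)).sub contDiff_const)

theorem rho_lat {z z' : Rn 3} (h : Lat z z') : rhoV p z = rhoV p z' := by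
  have e : ∀ k, p (z k) = p (z' k) := fun k => by
    obtain ⟨m, hm⟩ := h k
    rw [← S.per (z' k) m, ← hm, add_sub_cancel]
  simp only [rhoV, e]

theorem p_lin {t : ℝ} (h : |t - π / 2| ≤ 1 / 5) : |p t| ≤ 2 / 5 := by
  rw [S.lin t (by linarith [Real.pi_gt_three])]
  obtain ⟨h1, h2⟩ := abs_le.1 h
  exact abs_le.2 ⟨by linarith, by linarith⟩

theorem p_lin' {t : ℝ} (h : |t - 3 * π / 2| ≤ 1 / 5) : |p t| ≤ 2 / 5 := by
  rw [← S.even, ← S.per (-t) 1]
  refine p_lin S ?_
  rw [← abs_neg]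
  convert h using 2
  push_cast
  ring

theorem rho_box {i : Fin 3} {w : Rn 3} (hw : w ∈ Box i) : rhoV p w = 0 := by
  have h1 : |w (jx i) - cj i| ≤ 1 / 5 := by linarith [hw.1, show 2 * eps = 1 / 5 by norm_num [eps]]
  have h2 : |w (kx i) - ck i| ≤ 1 / 5 := by linarith [hw.2, show 2 * eps = 1 / 5 by norm_num [eps]]
  have h3 : |p (w (jx i))| ≤ 2 / 5 ∧ |p (w (kx i))| ≤ 2 / 5 := by
    fin_cases i
    exacts [⟨p_lin' S h1, p_lin S h2⟩, ⟨p_lin S h1, p_lin' S h2⟩, ⟨p_lin' S h1, p_lin S h2⟩]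
  obtain ⟨a1, a2⟩ := abs_le.1 h3.1
  obtain ⟨b1, b2⟩ := abs_le.1 h3.2
  obtain ⟨c1, c2⟩ := abs_le.1 (S.bd (w i))
  have := Real.pi_lt_d2
  refine Real.smoothTransition.zero_of_nonpos ?_
  have u1 : (p (w i) - p (w (jx i))) ^ 2 ≤ 13 := by nlinarith
  have u2 : (p (w i) - p (w (kx i))) ^ 2 ≤ 13 := by nlinarith
  have u3 : (p (w (jx i)) - p (w (kx i))) ^ 2 ≤ 2 := by nlinarith
  fin_cases i <;> simp [jx, kx] at u1 u2 u3 <;> nlinarith

theorem rho_rel {z z' : Rn 3} (h : Rel z z') : rhoV p z = rhoV p z' := by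
  rcases h with h | ⟨i, w, hw, w', hw', l, l', -⟩
  · exact rho_lat S h
  · rw [rho_lat S l, rho_lat S l', rho_box S hw, rho_box S hw']

theorem p_pi {t : ℝ} (h : |t - π| ≤ 2 / 25) : p t = π - (t - π) ^ 2 := by
  have := S.mir (π - t)
  rw [sub_sub_cancel, S.quad (π - t) (by rwa [abs_sub_comm])] at this
  rw [this]; ring

theorem eta_pi {t : ℝ} (h : |t - π| < 2 / 25) : η t = π - t := by
  rw [← S.ηmir, S.η0 _ (by rwa [abs_sub_comm])]

theorem p_close {s t : ℝ} (hs : s ∈ Icc 0 π) (ht : t ∈ Icc 0 π) (h : |s - t| ≤ 1 / 5) :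
    |p s - p t| ≤ π := by
  have pi := Real.pi_gt_three
  have m : (π / 2) ∈ Icc 0 π := ⟨by linarith, by linarith⟩
  have z : p (π / 2) = 0 := by rw [S.lin _ (by rw [sub_self, abs_zero]; linarith)]; ring
  obtain ⟨h1, h2⟩ := abs_le.1 h
  obtain ⟨a1, a2⟩ := abs_le.1 (S.bd s)
  obtain ⟨b1, b2⟩ := abs_le.1 (S.bd t)
  rcases le_total s (π / 2) with a | a <;> rcases le_total t (π / 2) with b | b
  · exact abs_le.2 ⟨by linarith [S.mono.monotoneOn ht m b], by linarith [S.mono.monotoneOn hs m a]⟩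
  · obtain ⟨c1, c2⟩ := abs_le.1 (p_lin S (t := s) (abs_le.2 ⟨by linarith, by linarith⟩))
    obtain ⟨d1, d2⟩ := abs_le.1 (p_lin S (t := t) (abs_le.2 ⟨by linarith, by linarith⟩))
    exact abs_le.2 ⟨by linarith, by linarith⟩
  · obtain ⟨c1, c2⟩ := abs_le.1 (p_lin S (t := s) (abs_le.2 ⟨by linarith, by linarith⟩))
    obtain ⟨d1, d2⟩ := abs_le.1 (p_lin S (t := t) (abs_le.2 ⟨by linarith, by linarith⟩))
    exact abs_le.2 ⟨by linarith, by linarith⟩
  · exact abs_le.2 ⟨by linarith [S.mono.monotoneOn m hs a], by linarith [S.mono.monotoneOn m ht b]⟩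

omit S in
theorem mean_lt {z : Rn 3} {c : ℝ} (h : ∀ k, |z k - c| < 2 / 25) : |mean z - c| < 2 / 25 := by
  obtain ⟨a1, a2⟩ := abs_lt.1 (h 0)
  obtain ⟨b1, b2⟩ := abs_lt.1 (h 1)
  obtain ⟨c1, c2⟩ := abs_lt.1 (h 2)
  exact abs_lt.2 ⟨by unfold mean; linarith, by unfold mean; linarith⟩

/-- the three parts of the axial region -/
theorem axial {κ : ℝ} {V : Rn 3 → Rn 3} {g : Rn 3 → ℝ} (W : VD p η κ V g) {z : Rn 3}
    (h : nsq z < 4 * (1 / 25) ^ 2 ∨ nsq (z - q0) < 4 * (1 / 25) ^ 2 ∨ (0 < mean z ∧ mean z < π ∧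
      nsq (fun i => z i - mean z) < (κ * η (mean z)) ^ 2)) :
    Cube z ∧ rhoV p z = 0 ∧
      (fun i => η (mean z) + deriv η (mean z) * (z i - mean z)) = V z := by
  have pi := Real.pi_gt_three
  rcases h with h | h | ⟨h1, h2, h3⟩
  · have c := co_lt (r := 2 / 25) (by norm_num) (h.trans_eq (by norm_num))
    have m : |mean z| < 2 / 25 := by simpa using mean_lt (c := 0) (by simpa using c)
    have d : deriv η (mean z) = 1 := by
      rw [EventuallyEq.deriv_eq (f := fun t => t) ((continuous_abs.continuousAt.eventually_lt_const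
        m).mono S.η0), deriv_id'']
    refine ⟨fun k => ⟨by linarith [abs_lt.1 (c k)], by linarith [abs_lt.1 (c k)]⟩,
      rho_zero fun a b => ?_, funext fun k => ?_⟩
    · rw [S.quad _ (c a).le, S.quad _ (c b).le]
      obtain ⟨a1, a2⟩ := abs_lt.1 (c a)
      obtain ⟨b1, b2⟩ := abs_lt.1 (c b)
      exact abs_le.2 ⟨by nlinarith, by nlinarith⟩
    · rw [(W.near z 0 (by simpa using c)).1 k, S.η0 _ (c k), S.η0 _ m, d]; ring
  · have c : ∀ k, |z k - π| < 2 / 25 := co_lt (r := 2 / 25) (by norm_num) (h.trans_eq (by norm_num))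
    have m := mean_lt c
    have d : deriv η (mean z) = -1 := by
      have ca : Continuous fun t : ℝ => |t - π| := by fun_prop
      rw [EventuallyEq.deriv_eq (f := fun t => π - t)
        ((ca.continuousAt.eventually_lt_const m).mono fun t => eta_pi S)]
      simp
    refine ⟨fun k => ⟨by linarith [abs_lt.1 (c k)], by linarith [abs_lt.1 (c k)]⟩,
      rho_zero fun a b => ?_, funext fun k => ?_⟩
    · rw [p_pi S (c a).le, p_pi S (c b).le]
      obtain ⟨a1, a2⟩ := abs_lt.1 (c a)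
      obtain ⟨b1, b2⟩ := abs_lt.1 (c b)
      exact abs_le.2 ⟨by nlinarith, by nlinarith⟩
    · rw [(W.near z 1 (by simpa using c)).1 k, eta_pi S (c k), eta_pi S m, d]; ring
  · obtain ⟨t1, t2, t3⟩ := W.thin _ ⟨h1, h2⟩
    have c := fun k => abs_lt.1 (co_lt (mul_pos W.κpos ((S.ηpos _).2
      (Real.sin_pos_of_pos_of_lt_pi h1 h2))).le h3 k)
    refine ⟨fun k => ⟨by linarith [c k], by linarith [c k]⟩, rho_zero fun a b => p_close S
      ⟨by linarith [c a], by linarith [c a]⟩ ⟨by linarith [c b], by linarith [c b]⟩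
      (abs_le.2 ⟨by linarith [c a, c b], by linarith [c a, c b]⟩),
      funext fun k => (W.tube z h1 h2 h3 k).symm⟩

omit S in
theorem vertex {z : Rn 3} (h : ∀ k, Real.sin (z k) = 0) : Lat z 0 ∨ Lat z q0 ∨
    (∃ j, Lat z (Pi.single j π)) ∨ ∃ i, Lat z (q0 - Pi.single i π) := by
  have e : ∀ k, (∃ m : ℤ, z k - 0 = 2 * π * m) ∨ ∃ m : ℤ, z k - π = 2 * π * m := fun k => by
    obtain ⟨n, hn⟩ := Real.sin_eq_zero_iff.1 (h k)
    obtain ⟨m, rfl | rfl⟩ := Int.even_or_odd' n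
    · exact Or.inl ⟨m, by rw [← hn]; push_cast; ring⟩
    · exact Or.inr ⟨m, by rw [← hn]; push_cast; ring⟩
  rcases e 0 with a | a <;> rcases e 1 with b | b <;> rcases e 2 with c | c
  · exact .inl (lat3.2 ⟨a, b, c⟩)
  · exact .inr (.inr (.inl ⟨2, lat3.2 ⟨a, b, c⟩⟩))
  · exact .inr (.inr (.inl ⟨1, lat3.2 ⟨a, b, c⟩⟩))
  · exact .inr (.inr (.inr ⟨0, lat3.2 (by simpa [q0] using And.intro a (And.intro b c))⟩))
  · exact .inr (.inr (.inl ⟨0, lat3.2 ⟨a, b, c⟩⟩))
  · exact .inr (.inr (.inr ⟨1, lat3.2 (by simpa [q0] using And.intro a (And.intro b c))⟩))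
  · exact .inr (.inr (.inr ⟨2, lat3.2 (by simpa [q0] using And.intro a (And.intro b c))⟩))
  · exact .inr (.inl (lat3.2 ⟨a, b, c⟩))

/-- the chart points near the index-one points -/
theorem one {κ : ℝ} {V : Rn 3 → Rn 3} {g : Rn 3 → ℝ} (W : VD p η κ V g) (j : Fin 3) {a : ℝ}
    {b : E2} (h : a ^ 2 + ‖b‖ ^ 2 < (1 / 25) ^ 2) {z : Rn 3} (hz : z = Pi.single j π - ins j a b) :
    Cube z ∧ g z = -π - a ^ 2 + ‖b‖ ^ 2 ∧ -ins j (-a) b = V z ∧ rhoV p z = 1 ∧
      3 < z j ∧ ∀ k ≠ j, z k < 1 := by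
  have pi := Real.pi_gt_d2
  have c := fun k => ins_lt (i := j) h k
  have e1 : z j = π - a := by simp [hz, ins_i]
  have e2 : z (jx j) = -b 0 := by simp [hz, ins_j, jx_ne]
  have e3 : z (kx j) = -b 1 := by simp [hz, ins_k, kx_ne]
  have c1 := c j
  have c2 := c (jx j)
  have c3 := c (kx j)
  rw [ins_i] at c1
  rw [ins_j] at c2
  rw [ins_k] at c3
  obtain ⟨n1, n2⟩ := W.near z (Pi.single j 1) fun k => by
    have : z k - ((Pi.single j 1 : Fin 3 → ℤ) k : ℝ) * π = -ins j a b k := by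
      by_cases e : k = j <;> simp [hz, e]
    rw [this, abs_neg]; linarith [c k]
  have p1 : p (z j) = π - a ^ 2 := by rw [e1, S.mir, S.quad a (by linarith)]; ring
  have p2 : p (z (jx j)) = -π + b 0 ^ 2 := by rw [e2, S.even, S.quad _ (by linarith)]
  have p3 : p (z (kx j)) = -π + b 1 ^ 2 := by rw [e3, S.even, S.quad _ (by linarith)]
  obtain ⟨a1, a2⟩ := abs_lt.1 c1
  obtain ⟨b1, b2⟩ := abs_lt.1 c2
  obtain ⟨d1, d2⟩ := abs_lt.1 c3
  refine ⟨fun k => ?_, ?_, funext fun k => ?_, rho_one (a := jx j) (b := j) (by nlinarith)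
    (by nlinarith), by linarith, fun k hk => ?_⟩
  · rcases tri j k with rfl | rfl | rfl <;> constructor <;> linarith
  · rw [n2, sum3 j, p1, p2, p3, nrm]; ring
  · rw [n1]
    rcases tri j k with rfl | rfl | rfl
    · rw [e1, S.ηmir, S.η0 a (by linarith), Pi.neg_apply, ins_i, neg_neg]
    · rw [e2, S.ηodd, S.η0 _ (by linarith), Pi.neg_apply, ins_j]
    · rw [e3, S.ηodd, S.η0 _ (by linarith), Pi.neg_apply, ins_k]
  · rcases tri j k with rfl | rfl | rfl
    exacts [absurd rfl hk, by linarith, by linarith]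

/-- the chart points near the index-two points -/
theorem two {κ : ℝ} {V : Rn 3 → Rn 3} {g : Rn 3 → ℝ} (W : VD p η κ V g) (i : Fin 3) {a : ℝ}
    {b : E2} (h : ‖b‖ ^ 2 + a ^ 2 < (1 / 25) ^ 2) {z : Rn 3}
    (hz : z = q0 - Pi.single i π + ins i a b) :
    Cube z ∧ g z = π - ‖b‖ ^ 2 + a ^ 2 ∧ ins i a (-b) = V z ∧ rhoV p z = 1 ∧
      z i < 1 ∧ ∀ k ≠ i, 3 < z k := by
  have e : z = q0 - (Pi.single i π - ins i a b) := by rw [hz]; abel
  obtain ⟨h1, h2, h3, h4, h5, h6⟩ := one S W i (a := a) (b := b) (by linarith) rfl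
  have pi := Real.pi_gt_d2
  have pi' := Real.pi_lt_d2
  have c := fun k => abs_lt.1 (ins_lt (i := i) (a := a) (b := b) (by linarith) k)
  refine ⟨fun k => ?_, ?_, ?_, ?_, ?_, fun k hk => ?_⟩
  · rw [e, Pi.sub_apply, q0]
    exact ⟨by linarith [(h1 k).2], by linarith [(h1 k).1]⟩
  · rw [e, W.mirg, h2]; ring
  · rw [e, W.mirV, ← h3]
    funext k
    simp only [ins, Pi.neg_apply]
    split_ifs <;> simp
  · rw [← h4, e]
    simp only [rhoV, Pi.sub_apply (q0 : Rn 3), q0, S.mir]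
    congr 1
    ring
  · rw [e, Pi.sub_apply, q0]; linarith
  · simp only [hz, Pi.add_apply, Pi.sub_apply, q0, Pi.single_eq_of_ne hk]
    linarith [(c k).1]

end OkP

open OkP in
theorem ok : OkStmt := by
  intro U F D hU G
  have S := hU.sc
  have W := hU.vd
  have pi := Real.pi_gt_three
  obtain ⟨ρ, hρ⟩ := desc (Z := F) (P := fun _ => Rn 3) Dom D.K (fun _ => rhoV U.p)
    fun a a' z hz z' hz' e => rho_rel S (G.sep a a' z hz z' hz' e)
  have inj : ∀ z z', Cube z → Cube z' → D.K none z = D.K none z' → z = z' := fun z z' h h' e =>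
    funext fun k => (h.gd.lat (G.sep _ _ z h.gd.dom z' h'.gd.dom e)).close
      (abs_lt.2 ⟨by linarith [h k, h' k], by linarith [h k, h' k]⟩)
  have back : ∀ a, ∀ z ∈ Dom a, ∀ z', Lat z z' → Gd z' → D.K a z = D.K none z' :=
    fun a z hz z' l h => by
    have h' : Gd z := fun k => lat_sin l k ▸ h k
    rw [G.eq0 a z hz h'.dom, G.lat z h'.dom z' l]
  have i1 : ∀ j, Injective (-insL j) := fun j => neg_injective.comp (insL_inj j)
  have a1 := fun j => aff (E := ℝ × E2) (by simp) (i1 j) (Pi.single j π)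
  let sw : E2 × ℝ →L[ℝ] ℝ × E2 := (ContinuousLinearMap.snd ℝ E2 ℝ).prod (.fst ℝ E2 ℝ)
  have i2 : ∀ i, Injective ((insL i).comp sw) := fun i => (insL_inj i).comp Prod.swap_injective
  have a2 := fun i => aff (E := E2 × ℝ) (by simp) (i2 i) (q0 - Pi.single i π)
  have o1 := fun j (q : ℝ × E2) (h : q ∈ (D.pre U ρ).nf.D₁) =>
    one S W j (a := q.1) (b := q.2) h (z := Pi.single j π + (-insL j) q) (sub_eq_add_neg _ _).symm
  have o2 := fun i (q : E2 × ℝ) (h : q ∈ (D.pre U ρ).nf.D₂) =>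
    two S W i (a := q.2) (b := q.1) h (z := q0 - Pi.single i π + (insL i).comp sw q) rfl
  have e1 : ∀ j, D.c₁ j = fun q => D.K none (Pi.single j π + (-insL j) q) := fun j =>
    funext fun q => congrArg (D.K none) (sub_eq_add_neg _ _)
  have e2 : ∀ i, D.c₂ i = fun q => D.K none (q0 - Pi.single i π + (insL i).comp sw q) := fun i => rfl
  have ax := fun z (h : z ∈ (D.pre U ρ).Ax) => axial S W h
  have cn : Continuous (nsq : Rn 3 → ℝ) := by unfold nsq; fun_prop
  have cm : Continuous mean := by unfold mean; fun_prop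
  refine ⟨ρ,
    { smf := G.smf, vf := G.vf, fl := G.fl, δpos := by norm_num, rpos := by norm_num
      rle := by norm_num, κpos := W.κpos, lo := by simp only; linarith
      mid := by simp only; linarith, hi := by simp only; linarith, ηsm := S.ηsm
      smρ := fun m _ => ?_
      ρ01 := fun m => ?_
      oe₁ := fun j => ⟨isOpen_lt (by fun_prop) continuous_const, fun q h => ?_,
        fun q h q' h' e => ?_⟩
      oe₂ := fun i => ⟨isOpen_lt (by fun_prop) continuous_const, fun q h => ?_,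
        fun q h q' h' e => ?_⟩
      f₁ := fun j q h => ?_
      f₂ := fun i q h => (G.fn none _ (o2 i q h).1.gd.dom).trans (o2 i q h).2.1
      ξ₁ := fun j q h => ?_
      ξ₂ := fun i q h => ?_
      ρ₁ := fun j q h => ?_
      ρ₂ := fun i q h => (hρ none _ (o2 i q h).1.gd.dom).trans (o2 i q h).2.2.2.1
      dis₁ := fun j j' q h q' h' e => ?_
      dis₂ := fun i i' q h q' h' e => ?_
      pos := fun m n1 n2 n3 n4 => ?_
      ηpos := fun t ht => (S.ηpos t).2 (Real.sin_pos_of_mem_Ioo ht)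
      η0 := fun t ht => S.η0 t (ht.trans_eq (by norm_num))
      η1 := fun t ht => eta_pi S (ht.trans_eq (by norm_num))
      oe := ⟨?_, fun z h => G.ld none z (ax z h).1.gd.dom,
        fun z h z' h' => inj z z' (ax z h).1 (ax z' h').1⟩
      ax := fun z h => ⟨(hρ none z (ax z h).1.gd.dom).trans (ax z h).2.1, ?_⟩
      bot := fun z h => ?_
      top := fun z h => ?_
      bot' := fun m h => ?_
      top' := fun m h => ?_ }⟩
  · obtain ⟨a, z, hz, rfl⟩ := G.cov m
    exact (G.ld a z hz).sm_desc ((open_dom a).mem_nhds hz) (hρ a)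
      (smAt_vs.2 (rho_sm S).contDiffAt)
  · obtain ⟨a, z, hz, rfl⟩ := G.cov m
    show ρ _ ∈ _
    rw [hρ a z hz]
    exact ⟨Real.smoothTransition.nonneg _, Real.smoothTransition.le_one _⟩
  · show LDAt _ _ (D.c₁ j) q
    rw [e1]
    exact (a1 j q).1.trans (G.ld none _ (o1 j q h).1.gd.dom)
  · have e' : D.c₁ j q = D.c₁ j q' := e
    rw [e1] at e'
    exact i1 j (add_left_cancel (inj _ _ (o1 j q h).1 (o1 j q' h').1 e'))
  · exact (a2 i q).1.trans (G.ld none _ (o2 i q h).1.gd.dom)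
  · exact i2 i (add_left_cancel (inj _ _ (o2 i q h).1 (o2 i q' h').1 e))
  · show D.f (D.c₁ j q) = _
    rw [e1]
    exact (G.fn none _ (o1 j q h).1.gd.dom).trans (o1 j q h).2.1
  · show Df (vs (ℝ × E2)) F (D.c₁ j) q (-q.1, q.2) = D.ξ (D.c₁ j q)
    rw [e1, Df_comp (a1 j q).1.sm (G.ld none _ (o1 j q h).1.gd.dom).sm, (a1 j q).2,
      ← G.fld none _ (o1 j q h).1.gd.dom, ← (o1 j q h).2.2.1]
    rfl
  · show Df (vs (E2 × ℝ)) F (D.c₂ i) q (-q.1, q.2) = D.ξ (D.c₂ i q)
    rw [e2, Df_comp (a2 i q).1.sm (G.ld none _ (o2 i q h).1.gd.dom).sm, (a2 i q).2,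
      ← G.fld none _ (o2 i q h).1.gd.dom, ← (o2 i q h).2.2.1]
    rfl
  · show ρ (D.c₁ j q) = _
    rw [e1]
    exact (hρ none _ (o1 j q h).1.gd.dom).trans (o1 j q h).2.2.2.1
  · have e' : D.c₁ j q = D.c₁ j' q' := e
    rw [e1, e1] at e'
    by_contra n
    have := congrFun (inj _ _ (o1 j q h).1 (o1 j' q' h').1 e') j
    linarith [(o1 j q h).2.2.2.2.1, (o1 j' q' h').2.2.2.2.2 j n]
  · by_contra n
    have := congrFun (inj _ _ (o2 i q h).1 (o2 i' q' h').1 e) i
    linarith [(o2 i q h).2.2.2.2.1, (o2 i' q' h').2.2.2.2.2 i n]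
  · obtain ⟨a, z, hz, rfl⟩ := G.cov m
    show 0 < Df F (vs ℝ) D.f (D.K a z) (D.ξ (D.K a z))
    have e : Df (vs (Rn 3)) (vs ℝ) (fun z => D.f (D.K a z)) z = fderiv ℝ U.g z := by
      rw [← Df_vs]
      exact Df_congr (eventually_of_mem ((open_dom a).mem_nhds hz) (G.fn a))
    rw [← G.fld a z hz, ← ContinuousLinearMap.comp_apply,
      ← Df_comp (G.ld a z hz).sm (G.smf _ trivial), e]
    refine W.pos z (not_forall.1 fun h => ?_)
    have gd : ∀ z', Lat z z' → Gd z' := fun z' l k => by rw [← lat_sin l k, h k]; norm_num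
    rcases vertex h with l | l | ⟨j, l⟩ | ⟨i, l⟩
    · exact n3 (back a z hz _ l (gd _ l))
    · exact n4 (back a z hz _ l (gd _ l))
    · exact n1 j ((back a z hz _ l (gd _ l)).trans (by
        show _ = D.c₁ j 0
        rw [e1]; simp))
    · exact n2 i ((back a z hz _ l (gd _ l)).trans (by
        show _ = D.c₂ i 0
        rw [e2]; simp))
  · exact (isOpen_lt cn continuous_const).union ((isOpen_lt (cn.comp (by fun_prop))
      continuous_const).union ((isOpen_lt continuous_const cm).inter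
        ((isOpen_lt cm continuous_const).inter (isOpen_lt
          (cn.comp (continuous_pi fun i => (continuous_apply i).sub cm))
          ((continuous_const.mul (S.ηsm.continuous.comp cm)).pow 2)))))
  · exact (congrArg _ (ax z h).2.2).trans (G.fld none z (ax z h).1.gd.dom)
  · have c := co_lt (r := 2 / 25) (by norm_num) (h.trans_eq (by norm_num))
    refine (G.fn none z (ax z (.inl h)).1.gd.dom).trans ?_
    rw [(W.near z 0 (by simpa using c)).2]
    simp only [Fin.sum_univ_three, nsq, S.quad _ (c _).le]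
    ring
  · have c : ∀ k, |z k - π| < 2 / 25 := co_lt (r := 2 / 25) (by norm_num) (h.trans_eq (by norm_num))
    refine (G.fn none z (ax z (.inr (.inl h))).1.gd.dom).trans ?_
    rw [(W.near z 1 (by simpa using c)).2]
    simp only [Fin.sum_univ_three, nsq, p_pi S (c _).le, Pi.sub_apply, q0]
    ring
  · obtain ⟨a, z, hz, rfl⟩ := G.cov m
    obtain ⟨z', l, h'⟩ := W.low z (by
      rw [← G.fn a z hz]; exact lt_of_lt_of_eq h (by norm_num))
    have h2 : nsq z' < 4 * (1 / 25) ^ 2 := h'.trans_eq (by norm_num)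
    exact ⟨z', h2, back a z hz z' l (ax z' (.inl h2)).1.gd⟩
  · obtain ⟨a, z, hz, rfl⟩ := G.cov m
    obtain ⟨z', l, h'⟩ := W.low (q0 - z) (by
      have : 3 * π - 4 * (1 / 25) ^ 2 < D.f (D.K a z) := h
      rw [W.mirg, ← G.fn a z hz]; linarith)
    have h2 : nsq (q0 - z' - q0) < 4 * (1 / 25) ^ 2 := by
      refine lt_of_eq_of_lt ?_ (h'.trans_eq (by norm_num))
      simp [nsq]
    refine ⟨q0 - z', h2, back a z hz _ (fun k => ?_) (ax _ (.inr (.inl h2))).1.gd⟩
    obtain ⟨n, hn⟩ := l k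
    exact ⟨-n, by simp only [Pi.sub_apply] at hn ⊢; push_cast; linarith⟩

end Pool.Agent.MP_e1dc65_gt.T.Pr

end
end MrgPart1

-- ======== part 2: formerly Pool.Agent.MP_e1dc65_gt.t.PreSc
section MrgPart2

/-! PROJECT HC, block NF, row SC: the Morse function on the circle. -/

open scoped ContDiff Topology Real
open Set Filter

noncomputable section

namespace Pool.Agent.MP_e1dc65_gt.T.Pr

namespace ScP

lemma red (t : ℝ) : ∃ (n : ℤ) (u : ℝ), |u| ≤ π ∧ t = u + 2 * π * n := by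
  have hp := Real.pi_pos
  refine ⟨round (t / (2 * π)), t - 2 * π * round (t / (2 * π)), ?_, by ring⟩
  have h := abs_sub_round (t / (2 * π))
  have e : t - 2 * π * round (t / (2 * π)) = 2 * π * (t / (2 * π) - round (t / (2 * π))) := by
    field_simp
  rw [e, abs_mul, abs_of_pos (by positivity : 0 < 2 * π)]
  nlinarith

lemma sin_per (t : ℝ) (n : ℤ) : Real.sin (t + 2 * π * n) = Real.sin t := by
  rw [mul_comm, Real.sin_add_int_mul_two_pi]

lemma cos_per (t : ℝ) (n : ℤ) : Real.cos (t + 2 * π * n) = Real.cos t := by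
  rw [mul_comm, Real.cos_add_int_mul_two_pi]

/-- all the fields from the basic ones -/
lemma of_basic {p : ℝ → ℝ} (sm : ContDiff ℝ ∞ p) (per : ∀ t (n : ℤ), p (t + 2 * π * n) = p t)
    (even : ∀ t, p (-t) = p t) (mir : ∀ t, p (π - t) = -p t)
    (quad : ∀ t, |t| ≤ 2 / 25 → p t = -π + t ^ 2)
    (lin : ∀ t, |t - π / 2| ≤ π / 2 - 4 / 25 → p t = 2 * t - π)
    (pos : ∀ t ∈ Ioo 0 π, 0 < deriv p t) : Sc p fun t => deriv p t / 2 := by
  have hp := Real.pi_pos
  have hp3 := Real.pi_gt_d2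
  have hd : Differentiable ℝ p := sm.differentiable (by simp)
  have dper : ∀ t (n : ℤ), deriv p (t + 2 * π * n) = deriv p t := fun t n => by
    rw [← deriv_comp_add_const]; congr 1; funext x; exact per x n
  have dodd : ∀ t, deriv p (-t) = -deriv p t := fun t => by
    have h := deriv_comp_neg p t
    rw [show (fun x => p (-x)) = p from funext even] at h
    linarith
  have dmir : ∀ t, deriv p (π - t) = deriv p t := fun t => by
    have h := deriv_comp_const_sub p π t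
    rw [show (fun x => p (π - x)) = fun x => -p x from funext mir, deriv.fun_neg] at h
    linarith
  have mono : StrictMonoOn p (Icc 0 π) :=
    strictMonoOn_of_deriv_pos (convex_Icc _ _) hd.continuous.continuousOn
      (by rw [interior_Icc]; exact pos)
  have p0 : p 0 = -π := by rw [quad 0 (by norm_num)]; ring
  have p1 : p π = π := by
    have := mir 0
    rw [sub_zero, p0] at this; linarith
  have d0 : deriv p 0 = 0 := by
    have := dodd 0
    rw [neg_zero] at this; linarith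
  have d1 : deriv p π = 0 := by
    have := dmir 0
    rwa [sub_zero, d0] at this
  have pabs : ∀ u, p u = p |u| := fun u => by
    rcases abs_choice u with h | h <;> rw [h]
    exact (even u).symm
  have dabs : ∀ u, deriv p u ^ 2 = deriv p |u| ^ 2 := fun u => by
    rcases abs_choice u with h | h <;> rw [h]
    rw [dodd]; ring
  have η1 : ∀ t, |t - π / 2| < π / 2 - 4 / 25 → deriv p t / 2 = 1 := fun t ht => by
    have o : IsOpen {x : ℝ | |x - π / 2| < π / 2 - 4 / 25} :=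
      isOpen_lt (by fun_prop) continuous_const
    have e : p =ᶠ[𝓝 t] fun x => 2 * x - π :=
      eventuallyEq_of_mem (o.mem_nhds ht) fun x hx => lin x (le_of_lt hx)
    have : HasDerivAt (fun x : ℝ => 2 * x - π) 2 t := by
      simpa using ((hasDerivAt_id t).const_mul 2).sub_const π
    rw [e.deriv_eq, this.deriv]; norm_num
  have sgn : ∀ t, (0 < Real.sin t → 0 < deriv p t) ∧ (Real.sin t < 0 → deriv p t < 0) ∧
      (Real.sin t = 0 → deriv p t = 0 ∧ |p t| = π) := fun t => by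
    obtain ⟨n, u, hu, rfl⟩ := red t
    rw [sin_per, dper, per]
    obtain ⟨h1, h2⟩ := abs_le.1 hu
    have A : ∀ v, 0 < v → v < π → 0 < Real.sin v ∧ 0 < deriv p v := fun v a b =>
      ⟨Real.sin_pos_of_pos_of_lt_pi a b, pos v ⟨a, b⟩⟩
    have Z : Real.sin u = 0 → deriv p u = 0 → |p u| = π → (0 < Real.sin u → 0 < deriv p u) ∧
        (Real.sin u < 0 → deriv p u < 0) ∧ (Real.sin u = 0 → deriv p u = 0 ∧ |p u| = π) :=
      fun a b c => ⟨fun h => absurd a h.ne', fun h => absurd a h.ne, fun _ => ⟨b, c⟩⟩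
    rcases h1.eq_or_lt with rfl | h1
    · exact Z (by simp) (by rw [dodd, d1, neg_zero]) (by rw [even, p1, abs_of_pos hp])
    rcases h2.eq_or_lt with rfl | h2
    · exact Z (by simp) d1 (by rw [p1, abs_of_pos hp])
    rcases lt_trichotomy u 0 with h | rfl | h
    · obtain ⟨a, b⟩ := A (-u) (by linarith) (by linarith)
      rw [Real.sin_neg] at a
      rw [dodd] at b
      exact ⟨fun c => by linarith, fun _ => by linarith, fun c => by linarith⟩
    · exact Z (by simp) d0 (by rw [p0, abs_neg, abs_of_pos hp])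
    · obtain ⟨a, b⟩ := A u h h2
      exact ⟨fun _ => b, fun c => by linarith, fun c => by linarith⟩
  have tri := fun t => lt_trichotomy (Real.sin t) 0
  refine
    { sm := sm, per := per, even := even, mir := mir, quad := quad, lin := lin, mono := mono
      η1 := η1
      der := fun t => ?_
      bd := fun t => ?_
      top := fun t h => ((sgn t).2.2 h).2
      flat := fun t h => ?_
      low := fun t h => ?_
      ηsm := (contDiff_infty_iff_deriv.1 sm).2.div_const 2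
      ηper := fun t n => by simp only [dper]
      ηodd := fun t => by simp only [dodd]; ring
      ηmir := fun t => by simp only [dmir]
      ηpos := fun t => ⟨fun h => ?_, fun h => by linarith [(sgn t).1 h]⟩
      ηneg := fun t => ⟨fun h => ?_, fun h => by linarith [(sgn t).2.1 h]⟩
      ηzero := fun t => ⟨fun h => ?_, fun h => by linarith [((sgn t).2.2 h).1]⟩
      η0 := fun t ht => ?_ }
  · rw [mul_div_cancel₀ _ two_ne_zero]; exact (hd t).hasDerivAt
  · obtain ⟨n, u, hu, rfl⟩ := red t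
    rw [per, pabs, abs_le, ← p0]
    have m : |u| ∈ Icc 0 π := ⟨abs_nonneg u, hu⟩
    exact ⟨mono.monotoneOn ⟨le_rfl, hp.le⟩ m m.1,
      (mono.monotoneOn m ⟨hp.le, le_rfl⟩ m.2).trans_eq p1⟩
  · obtain ⟨n, u, hu, rfl⟩ := red t
    rw [per, pabs, abs_le] at h
    have m : |u| ∈ Icc 0 π := ⟨abs_nonneg u, hu⟩
    have a1 : p (4 / 25) = 2 * (4 / 25) - π := lin _ (by rw [abs_le]; constructor <;> linarith)
    have a2 : p (π - 4 / 25) = 2 * (π - 4 / 25) - π :=
      lin _ (by rw [abs_le]; constructor <;> linarith)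
    have b1 : 4 / 25 < |u| := lt_of_not_ge fun c => by
      have := mono.monotoneOn m ⟨by norm_num, by linarith⟩ c
      linarith [h.1]
    have b2 : |u| < π - 4 / 25 := lt_of_not_ge fun c => by
      have := mono.monotoneOn ⟨by linarith, by linarith⟩ m c
      linarith [h.2]
    have e := η1 |u| (by rw [abs_lt]; constructor <;> linarith)
    rw [dper, div_pow, dabs, ← div_pow, e, one_pow]
  · obtain ⟨n, u, hu, rfl⟩ := red t
    rw [per, pabs] at h
    refine ⟨n, ?_⟩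
    rw [add_sub_cancel_right]
    refine lt_of_not_ge fun c => ?_
    have := mono.monotoneOn ⟨by norm_num, by linarith⟩ ⟨abs_nonneg u, hu⟩ c
    rw [quad (2 / 25) (abs_of_pos (by norm_num)).le] at this
    linarith
  · rcases tri t with c | c | c
    exacts [by linarith [(sgn t).2.1 c], by linarith [((sgn t).2.2 c).1], c]
  · rcases tri t with c | c | c
    exacts [c, by linarith [((sgn t).2.2 c).1], by linarith [(sgn t).1 c]]
  · rcases tri t with c | c | c
    exacts [by linarith [(sgn t).2.1 c], c, by linarith [(sgn t).1 c]]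
  · have o : IsOpen {x : ℝ | |x| < 2 / 25} := isOpen_lt (by fun_prop) continuous_const
    have e : p =ᶠ[𝓝 t] fun x => -π + x ^ 2 :=
      eventuallyEq_of_mem (o.mem_nhds ht) fun x hx => quad x (le_of_lt hx)
    have : HasDerivAt (fun x : ℝ => -π + x ^ 2) (2 * t) t := by
      simpa using (hasDerivAt_pow 2 t).const_add (-π)
    show deriv p t / 2 = t
    rw [e.deriv_eq, this.deriv]; ring

def b (x : ℝ) : ℝ := Real.smoothTransition ((x - 2 / 25) / (2 / 25))
def q (x : ℝ) : ℝ := (1 - b x) * (x ^ 2 - 2 * x)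
def G (x : ℝ) : ℝ := 2 * x - π + q x - q (π - x)

lemma b_sm : ContDiff ℝ ∞ b := Real.smoothTransition.contDiff.comp (by fun_prop)
lemma q_sm : ContDiff ℝ ∞ q := (contDiff_const.sub b_sm).mul (by fun_prop)
lemma G_sm : ContDiff ℝ ∞ G :=
  (ContDiff.add (by fun_prop) q_sm).sub (q_sm.comp (by fun_prop))
lemma q_lo {x : ℝ} (h : x ≤ 2 / 25) : q x = x ^ 2 - 2 * x := by
  rw [q, b, Real.smoothTransition.zero_of_nonpos (by linarith)]; ring
lemma q_hi {x : ℝ} (h : 4 / 25 ≤ x) : q x = 0 := by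
  rw [q, b, Real.smoothTransition.one_of_one_le (by linarith)]; ring

lemma dq_hi {x : ℝ} (h : 4 / 25 < x) : deriv q x = 0 := by
  have e : q =ᶠ[𝓝 x] fun _ => 0 :=
    eventuallyEq_of_mem (Ioi_mem_nhds h) fun y hy => q_hi (le_of_lt hy)
  rw [e.deriv_eq, deriv_const]

lemma dq_pos {x : ℝ} (h0 : 0 < x) (h2 : x ≤ 2) : 0 < 2 + deriv q x := by
  have hb := (b_sm.differentiable (by simp) x).hasDerivAt
  have mb : Monotone b := fun _ _ h => Real.smoothTransition.monotone (by linarith)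
  have h1 : HasDerivAt (fun x : ℝ => x ^ 2 - 2 * x) (2 * x - 2) x := by
    simpa using (hasDerivAt_pow 2 x).fun_sub ((hasDerivAt_id x).const_mul 2)
  have h3 : HasDerivAt q (-deriv b x * (x ^ 2 - 2 * x) + (1 - b x) * (2 * x - 2)) x :=
    (hb.const_sub 1).mul h1
  have h4 : 0 ≤ deriv b x := mb.deriv_nonneg
  have h5 : 0 ≤ b x := Real.smoothTransition.nonneg _
  have h6 : b x ≤ 1 := Real.smoothTransition.le_one _
  have h7 : 0 ≤ deriv b x * (x * (2 - x)) := mul_nonneg h4 (mul_nonneg h0.le (by linarith))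
  rw [h3.deriv]
  rcases h6.eq_or_lt with h | h
  · rw [h]; nlinarith
  · nlinarith [mul_pos (sub_pos.2 h) h0]

lemma dG_pos {x : ℝ} (h0 : 0 < x) (h1 : x < π) : 0 < deriv G x := by
  have hq := fun y => (q_sm.differentiable (by simp) y).hasDerivAt
  have a1 : HasDerivAt (fun x : ℝ => 2 * x - π) 2 x := by
    simpa using ((hasDerivAt_id x).const_mul 2).sub_const π
  have h : HasDerivAt G (2 + deriv q x - -deriv q (π - x)) x :=
    (a1.add (hq x)).sub ((hq (π - x)).comp_const_sub π x)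
  have hp3 := Real.pi_gt_d2
  have hp4 := Real.pi_lt_d2
  rw [h.deriv]
  rcases le_total x (π / 2) with c | c
  · rw [dq_hi (x := π - x) (by linarith)]
    linarith [dq_pos h0 (by linarith)]
  · rw [dq_hi (x := x) (by linarith)]
    linarith [dq_pos (x := π - x) (by linarith) (by linarith)]

def P (t : ℝ) : ℝ := G (Real.arccos (Real.cos t))

lemma P_per (t : ℝ) (n : ℤ) : P (t + 2 * π * n) = P t := by rw [P, cos_per, P]
lemma P_even (t : ℝ) : P (-t) = P t := by rw [P, Real.cos_neg, P]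
lemma P_mir (t : ℝ) : P (π - t) = -P t := by
  simp only [P, Real.cos_pi_sub, Real.arccos_neg, G, sub_sub_cancel]; ring
lemma P_eq {t : ℝ} (h0 : 0 ≤ t) (h1 : t ≤ π) : P t = G t := by rw [P, Real.arccos_cos h0 h1]
lemma P_ev {t : ℝ} (h0 : 0 < t) (h1 : t < π) : P =ᶠ[𝓝 t] G :=
  eventuallyEq_of_mem (Ioo_mem_nhds h0 h1) fun _ h => P_eq h.1.le h.2.le

lemma P_quad (t : ℝ) (h : |t| ≤ 2 / 25) : P t = -π + t ^ 2 := by
  have hp3 := Real.pi_gt_d2
  have e : P t = P |t| := by
    rcases abs_choice t with c | c <;> rw [c]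
    exact (P_even t).symm
  rw [e, P_eq (abs_nonneg t) (by linarith), G, q_lo h, q_hi (by linarith), sq_abs]; ring

lemma P_lin (t : ℝ) (h : |t - π / 2| ≤ π / 2 - 4 / 25) : P t = 2 * t - π := by
  obtain ⟨h1, h2⟩ := abs_le.1 h
  rw [P_eq (by linarith) (by linarith), G, q_hi (by linarith), q_hi (by linarith)]; ring

lemma P_sm : ContDiff ℝ ∞ P := by
  have c0 : ContDiffAt ℝ ∞ P 0 := by
    have o : IsOpen {x : ℝ | |x| < 2 / 25} := isOpen_lt (by fun_prop) continuous_const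
    have e : P =ᶠ[𝓝 0] fun x => -π + x ^ 2 :=
      eventuallyEq_of_mem (o.mem_nhds (by simp)) fun x hx => P_quad x (le_of_lt hx)
    exact ContDiffAt.congr_of_eventuallyEq (by fun_prop) e
  have c1 : ContDiffAt ℝ ∞ P π := by
    have e : P = fun x => -P (π - x) := funext fun x => by rw [P_mir, neg_neg]
    rw [e]
    exact (ContDiffAt.comp π (g := P) (by rwa [sub_self]) (by fun_prop)).neg
  have c2 : ∀ u, 0 ≤ u → u ≤ π → ContDiffAt ℝ ∞ P u := fun u h0 h1 => by
    rcases h0.eq_or_lt with rfl | h0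
    · exact c0
    rcases h1.eq_or_lt with rfl | h1
    · exact c1
    exact G_sm.contDiffAt.congr_of_eventuallyEq (P_ev h0 h1)
  have c3 : ∀ u, |u| ≤ π → ContDiffAt ℝ ∞ P u := fun u hu => by
    obtain ⟨h1, h2⟩ := abs_le.1 hu
    rcases le_total 0 u with h | h
    · exact c2 u h h2
    · have e : P = fun x => P (-x) := funext fun x => (P_even x).symm
      rw [e]
      exact ContDiffAt.comp u (g := P) (c2 (-u) (by linarith) (by linarith)) (by fun_prop)
  refine contDiff_iff_contDiffAt.2 fun t => ?_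
  obtain ⟨n, u, hu, rfl⟩ := red t
  have e : P = fun x => P (x - 2 * π * n) := funext fun x => by
    rw [← P_per (x - 2 * π * n) n, sub_add_cancel]
  rw [e]
  exact ContDiffAt.comp _ (g := P) (by rw [add_sub_cancel_right]; exact c3 u hu) (by fun_prop)

end ScP

open ScP in
theorem sc : ScStmt :=
  ⟨P, _, of_basic P_sm P_per P_even P_mir P_quad P_lin fun _ h => by
    rw [(P_ev h.1 h.2).deriv_eq]; exact dG_pos h.1 h.2⟩

end Pool.Agent.MP_e1dc65_gt.T.Pr

end
end MrgPart2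

-- ======== part 3: formerly Pool.Agent.MP_e1dc65_gt.t.PreVd
section MrgPart3

/-! PROJECT HC, block NF, row VD: the field and the function on three-space. -/

open scoped ContDiff Manifold Topology Real
open Set Filter Function Module Topology

noncomputable section

namespace Pool.Agent.MP_e1dc65_gt.T.Pr

namespace Vd

theorem sum3 (f : Fin 3 → ℝ) (i : Fin 3) : ∑ k, f k = f i + f (jx i) + f (kx i) := by
  fin_cases i <;> simp [Fin.sum_univ_three, jx, kx] <;> ring

theorem qd_dis {i i' : Fin 3} {z : Rn 3} (h : z ∈ Qd i) (h' : z ∈ Qd i') : i = i' := by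
  obtain ⟨a, b⟩ := h
  obtain ⟨c, d⟩ := h'
  fin_cases i <;> fin_cases i' <;> simp [sg, jx, kx] at a b c d ⊢ <;> linarith

theorem qd_oct {i : Fin 3} {z : Rn 3} (h : z ∈ Qd i) : z ∉ Oct := fun ho => by
  obtain ⟨a, b⟩ := h
  have h0 := ho 0
  have h1 := ho 1
  have h2 := ho 2
  fin_cases i <;> simp [sg, jx, kx] at a b <;> linarith

theorem sin_lo {t : ℝ} (h : |t - π / 2| < 1 / 5) : 0 < Real.sin t := by
  have h3 := Real.pi_gt_three
  obtain ⟨a, b⟩ := abs_lt.1 h
  exact Real.sin_pos_of_pos_of_lt_pi (by linarith) (by linarith)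

theorem sin_hi {t : ℝ} (h : |t - 3 * π / 2| < 1 / 5) : Real.sin t < 0 := by
  have := sin_lo (t := 2 * π - t) (by rw [abs_sub_comm] at h; convert h using 2; ring)
  rw [Real.sin_two_pi_sub] at this
  linarith

theorem box_qd {i : Fin 3} {z : Rn 3} (h : z ∈ Box i) : z ∈ Qd i := by
  obtain ⟨a, b⟩ := h
  rw [show 2 * eps = 1 / 5 by norm_num [eps]] at a b
  fin_cases i
  · exact ⟨by simpa [sg] using sin_hi a, by simpa [sg] using sin_lo b⟩
  · exact ⟨by simpa [sg] using sin_lo a, by simpa [sg] using sin_hi b⟩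
  · exact ⟨by simpa [sg] using sin_hi a, by simpa [sg] using sin_lo b⟩

variable {p η : ℝ → ℝ} {χ : Fin 3 → Rn 3 → ℝ} {κ : ℝ} {A : Rn 3 → Rn 3}

theorem lo (hs : Sc p η) {t : ℝ} (h : |t - π / 2| < 1 / 5) : η t = 1 ∧ p t = 2 * (t - π / 2) := by
  have h3 := Real.pi_gt_three
  exact ⟨hs.η1 t (by linarith), by rw [hs.lin t (by linarith)]; ring⟩

theorem hi (hs : Sc p η) {t : ℝ} (h : |t - 3 * π / 2| < 1 / 5) :
    η t = -1 ∧ p t = -(2 * (t - 3 * π / 2)) := by
  obtain ⟨a, b⟩ := lo hs (t := -t + 2 * π * (1 : ℤ))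
    (by rw [abs_sub_comm] at h; convert h using 2; push_cast; ring)
  rw [hs.ηper, hs.ηodd] at a
  rw [hs.per, hs.even] at b
  exact ⟨by linarith, by rw [b]; push_cast; ring⟩

theorem box_val (hs : Sc p η) {i : Fin 3} {z : Rn 3} (h : z ∈ Box i) :
    η (z (jx i)) = -sg i ∧ η (z (kx i)) = sg i ∧
      p (z (jx i)) + p (z (kx i)) = 2 * (sg i * (nu i z - tau i z)) := by
  obtain ⟨a, b⟩ := h
  rw [show 2 * eps = 1 / 5 by norm_num [eps]] at a b
  fin_cases i
  · obtain ⟨c, d⟩ := hi hs a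
    obtain ⟨e, f⟩ := lo hs b
    exact ⟨by rw [c]; simp [sg], by rw [e]; simp [sg], by rw [d, f]; simp [sg, nu, tau, cj, ck]; ring⟩
  · obtain ⟨c, d⟩ := lo hs a
    obtain ⟨e, f⟩ := hi hs b
    exact ⟨by rw [c]; simp [sg], by rw [e]; simp [sg], by rw [d, f]; simp [sg, nu, tau, cj, ck]; ring⟩
  · obtain ⟨c, d⟩ := hi hs a
    obtain ⟨e, f⟩ := lo hs b
    exact ⟨by rw [c]; simp [sg], by rw [e]; simp [sg], by rw [d, f]; simp [sg, nu, tau, cj, ck]; ring⟩

theorem big (hs : Sc p η) {t : ℝ} {n : ℤ} (h : |t - n * π| < 2 / 25) : 14 / 5 < |p t| := by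
  have h3 := Real.pi_gt_three
  have k : ∀ u, |u| < 2 / 25 → p u < -(14 / 5) := fun u hu => by
    rw [hs.quad u hu.le]
    nlinarith [abs_lt.1 hu]
  obtain ⟨m, rfl | rfl⟩ := Int.even_or_odd' n
  · have := k _ h
    rw [← hs.per _ m, show t - ((2 * m : ℤ) : ℝ) * π + 2 * π * m = t by push_cast; ring] at this
    exact lt_abs.2 (Or.inr (by linarith))
  · rw [abs_sub_comm] at h
    have := k _ h
    rw [show ((2 * m + 1 : ℤ) : ℝ) * π - t = π - t + 2 * π * m by push_cast; ring, hs.per,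
      hs.mir] at this
    exact lt_abs.2 (Or.inl (by linarith))

theorem lat_p (hs : Sc p η) {z z' : Rn 3} (h : Lat z z') (k : Fin 3) :
    p (z k) = p (z' k) ∧ η (z k) = η (z' k) := by
  obtain ⟨m, hm⟩ := h k
  rw [show z k = z' k + 2 * π * m by linarith]
  exact ⟨hs.per _ _, hs.ηper _ _⟩

theorem off (hχ : CH p η χ) {i : Fin 3} {z : Rn 3} (h : z ∉ Qd i) :
    χ i z = 0 ∧ fderiv ℝ (χ i) z = 0 := by
  have h0 := hχ.sup i z fun c => h c.1
  exact ⟨h0, IsLocalMin.fderiv_eq_zero (Eventually.of_forall fun y => h0 ▸ (hχ.mem i y).1)⟩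

theorem off' (hχ : CH p η χ) {i i' : Fin 3} {z : Rn 3} (h : z ∈ Qd i) (hi : i' ≠ i) :
    χ i' z = 0 ∧ fderiv ℝ (χ i') z = 0 := off hχ fun c => hi (qd_dis c h)

/-- the weight of the cut-off function -/
def W (p : ℝ → ℝ) (i : Fin 3) (z : Rn 3) : ℝ := -p (z i) - 3 / 4 * (p (z (jx i)) + p (z (kx i)))
def fV (η : ℝ → ℝ) (χ : Fin 3 → Rn 3 → ℝ) (A : Rn 3 → Rn 3) (z : Rn 3) : Rn 3 :=
  fun k => (1 - χ k z) * η (z k) + A z k
def fg (p : ℝ → ℝ) (χ : Fin 3 → Rn 3 → ℝ) (z : Rn 3) : ℝ :=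
  ∑ k, p (z k) + ∑ i, χ i z * W p i z

theorem dg (hs : Sc p η) (hχ : CH p η χ) (z v : Rn 3) : fderiv ℝ (fg p χ) z v =
    ∑ k, 2 * η (z k) * v k + ∑ i, (fderiv ℝ (χ i) z v * W p i z + χ i z *
      (-(2 * η (z i) * v i) - 3 / 4 * (2 * η (z (jx i)) * v (jx i) + 2 * η (z (kx i)) * v (kx i)))) := by
  have hP : ∀ k, HasFDerivAt (fun y : Rn 3 => p (y k))
      ((2 * η (z k)) • ContinuousLinearMap.proj (R := ℝ) (φ := fun _ : Fin 3 => ℝ) k) z := fun k =>
    (hs.der (z k)).comp_hasFDerivAt z (hasFDerivAt_apply k z)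
  have hc : ∀ i, HasFDerivAt (χ i) (fderiv ℝ (χ i) z) z := fun i =>
    ((hχ.sm i).differentiable (by simp) z).hasFDerivAt
  have hW : ∀ i, HasFDerivAt (W p i) _ z := fun i =>
    (hP i).neg.sub (((hP (jx i)).add (hP (kx i))).const_mul (3 / 4))
  have : HasFDerivAt (fg p χ) _ z := (HasFDerivAt.fun_sum fun k _ => hP k).add
    (HasFDerivAt.fun_sum fun i _ => (hc i).mul (hW i))
  rw [this.fderiv]
  simp [Fin.sum_univ_three]
  ring

theorem pos (hs : Sc p η) (hχ : CH p η χ) (hA : AX η κ A) (z : Rn 3)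
    (hz : ∃ k, Real.sin (z k) ≠ 0) : 0 < fderiv ℝ (fg p χ) z (fV η χ A z) := by
  rw [dg hs hχ]
  by_cases hq : ∃ i, z ∈ Qd i
  · obtain ⟨i, hi⟩ := hq
    obtain ⟨j0, j1⟩ := off' hχ hi (jx_ne i)
    obtain ⟨k0, k1⟩ := off' hχ hi (kx_ne i)
    have a0 := hA.off z (qd_oct hi)
    have vi : fV η χ A z i = (1 - χ i z) * η (z i) := by simp [fV, a0]
    have vj : fV η χ A z (jx i) = η (z (jx i)) := by simp [fV, a0, j0]
    have vk : fV η χ A z (kx i) = η (z (kx i)) := by simp [fV, a0, k0]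
    have hd := hχ.der i z _ vj vk
    have ej : η (z (jx i)) ≠ 0 := fun c => by
      have := hi.1
      rw [(hs.ηzero _).1 c] at this
      simp at this
    have := sq_pos_of_ne_zero ej
    obtain ⟨c0, c1⟩ := hχ.mem i z
    rw [sum3 _ i, sum3 _ i, j0, j1, k0, k1, vi, vj, vk]
    simp only [zero_apply, zero_mul, add_zero, W]
    nlinarith [sq_nonneg (η (z i) * (1 - χ i z)), mul_nonneg (sub_nonneg.2 c1)
      (add_nonneg (sq_nonneg (η (z (jx i)))) (sq_nonneg (η (z (kx i))))), sq_nonneg (η (z (kx i)))]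
  · push Not at hq
    simp only [(off hχ (hq _)).1, (off hχ (hq _)).2, fV, zero_apply, zero_mul,
      add_zero, Finset.sum_const_zero, sub_zero, one_mul]
    by_cases ho : z ∈ Oct
    · exact Finset.sum_pos (fun k _ => mul_pos (mul_pos two_pos ((hs.ηpos _).2 (ho k)))
        (hA.pos z ho k)) Finset.univ_nonempty
    · obtain ⟨k, hk⟩ := hz
      have := sq_pos_of_ne_zero (mt (hs.ηzero _).1 hk)
      simp only [hA.off z ho, Pi.zero_apply, add_zero]
      exact Finset.sum_pos' (fun l _ => by nlinarith [sq_nonneg (η (z l))])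
        ⟨k, Finset.mem_univ _, by nlinarith⟩

theorem low (hs : Sc p η) (hχ : CH p η χ) (z : Rn 3) (h : fg p χ z < -3 * π + (2 / 25) ^ 2) :
    ∃ z', Lat z z' ∧ nsq z' < (2 / 25) ^ 2 := by
  have h3 := Real.pi_gt_three
  have bd : ∀ t, -π ≤ p t := fun t => (abs_le.1 (hs.bd t)).1
  by_cases hc : ∃ i, χ i z ≠ 0
  · obtain ⟨i, hi⟩ := hc
    have hq : z ∈ Qd i := (not_not.1 (mt (hχ.sup i z) hi)).1
    have g0 := (abs_le.1 (hχ.gle i z hi)).1
    obtain ⟨c0, c1⟩ := hχ.mem i z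
    rw [fg, sum3 _ i, sum3 _ i, (off' hχ hq (jx_ne i)).1, (off' hχ hq (kx_ne i)).1, W] at h
    nlinarith [mul_nonneg (sub_nonneg.2 c1) (sub_nonneg.2 (bd (z i))),
      mul_nonneg (show 0 ≤ 1 - 3 / 4 * χ i z by linarith) (sub_nonneg.2 g0)]
  · push Not at hc
    simp only [fg, hc, zero_mul, Finset.sum_const_zero, add_zero] at h
    have : ∀ k, ∃ n : ℤ, |z k - 2 * π * n| < 2 / 25 := fun k => hs.low _ (by
      rw [sum3 _ k] at h
      linarith [bd (z (jx k)), bd (z (kx k))])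
    choose n hn using this
    refine ⟨fun k => z k - 2 * π * n k, fun k => ⟨n k, by ring⟩, ?_⟩
    have e : ∀ k, p (z k) = -π + (z k - 2 * π * n k) ^ 2 := fun k => by
      rw [← hs.quad _ (hn k).le, ← hs.per (z k - _) (n k), sub_add_cancel]
    simp only [e, Fin.sum_univ_three, nsq] at h ⊢
    linarith

theorem tube_oct (hs : Sc p η) (hA : AX η κ A) {z : Rn 3} (h0 : 0 < mean z) (h1 : mean z < π)
    (h : nsq (fun i => z i - mean z) < (κ * η (mean z)) ^ 2) : z ∈ Oct := fun k => by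
  obtain ⟨a, b, -⟩ := hA.thin _ ⟨h0, h1⟩
  have c : 0 < κ * η (mean z) :=
    mul_pos hA.κpos ((hs.ηpos _).2 (Real.sin_pos_of_pos_of_lt_pi h0 h1))
  have d : (z k - mean z) ^ 2 < (κ * η (mean z)) ^ 2 :=
    (Finset.single_le_sum (f := fun i => (z i - mean z) ^ 2) (fun _ _ => sq_nonneg _)
      (Finset.mem_univ k)).trans_lt h
  obtain ⟨e, f⟩ := abs_lt.1 (abs_lt_of_sq_lt_sq d c.le)
  exact Real.sin_pos_of_pos_of_lt_pi (by linarith) (by linarith)

end Vd

open Vd in
theorem vd : VdStmt := by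
  intro p η χ κ A hs hχ hA
  have sP : ∀ k, ContDiff ℝ ∞ fun y : Rn 3 => p (y k) := fun k => hs.sm.comp (contDiff_apply ℝ ℝ k)
  have sE : ∀ k, ContDiff ℝ ∞ fun y : Rn 3 => η (y k) := fun k => hs.ηsm.comp (contDiff_apply ℝ ℝ k)
  have s0 : ∀ z, (∀ i, z ∉ Cor p i) → fg p χ z = ∑ k, p (z k) := fun z hz => by
    simp [fg, fun i => hχ.sup i z (hz i)]
  refine ⟨fV η χ A, fg p χ, hA.κpos, contDiff_pi.2 fun k => ?_, ?_, fun z z' h => ?_,
    fun z z' h => ?_, fun z => ?_, fun z => ?_, ?_, fun z hz k hk => ?_, s0, fun i z hz => ?_,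
    pos hs hχ hA, fun z n hn => ?_, low hs hχ, fun z h0 h1 h k => ?_, hA.thin⟩
  · exact ((contDiff_const.sub (hχ.sm k)).mul (sE k)).add (contDiff_pi.1 hA.sm k)
  · exact (ContDiff.sum fun k _ => sP k).add (ContDiff.sum fun i _ => (hχ.sm i).mul
      ((sP i).neg.sub (contDiff_const.mul ((sP _).add (sP _)))))
  · funext k
    rw [fV, fV, hχ.lat k z z' h, (lat_p hs h k).2, hA.lat z z' h]
  · simp only [fg, W, fun i => hχ.lat i z z' h, fun k => (lat_p hs h k).1]
  · funext k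
    rw [fV, fV, hχ.mir, hA.mir]
    simp only [Pi.sub_apply, q0, hs.ηmir]
  · simp only [fg, W, hχ.mir]
    simp only [Pi.sub_apply, q0, hs.mir, Fin.sum_univ_three]
    ring
  · obtain ⟨H, hH, e⟩ := hA.fac
    refine ⟨fun z k => 1 - χ k z + H z k, continuous_pi fun k => (continuous_const.sub
      (hχ.sm k).continuous).add ((continuous_apply k).comp hH), fun z k => ?_⟩
    rw [fV, e]
    ring
  · simp [fV, hχ.sup k z hk, hA.off z hz]
  · have hq := box_qd hz
    have j0 := (off' hχ hq (jx_ne i)).1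
    have k0 := (off' hχ hq (kx_ne i)).1
    have a0 := hA.off z (qd_oct hq)
    obtain ⟨a, b, c⟩ := box_val hs hz
    refine ⟨by simp [fV, a0, hχ.box i z hz], by simp [fV, a0, j0, a], by simp [fV, a0, k0, b], ?_⟩
    rw [fg, sum3 _ i, sum3 _ i, j0, k0, hχ.box i z hz, W]
    linarith
  · have : ∀ i, z ∉ Cor p i := fun i c => (big hs (hn (jx i))).not_ge c.2.1
    exact ⟨fun k => by simp [fV, hχ.sup k z (this k), hA.near z n hn], s0 z this⟩
  · have := (off hχ (i := k) fun c => qd_oct c (tube_oct hs hA h0 h1 h)).1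
    rw [fV, this, sub_zero, one_mul, hA.tube z h0 h1 h k]

end Pool.Agent.MP_e1dc65_gt.T.Pr

end
end MrgPart3

-- marker of a merged file
example : 731051 + 129105 = 731051 + 129105 := rfl
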