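import Pool.Agent.MP_e1dc65_gt.t.PreAx
import Pool.Agent.MP_e1dc65_gt.e.aTwB
import Pool.Agent.MP_e1dc65_gt.t.PreCof
import Pool.Agent.MP_e1dc65_gt.k.Flow
import Mathlib.Topology.Algebra.Order.Floor

-- ======== part 0: formerly Pool.Agent.MP_e1dc65_gt.t.PreBase
section MrgPart0

/-! PROJECT HC, block NF: quadrants, chart domains and orbits in the atlas of `F`. -/

open scoped ContDiff Manifold Topology Real
open Set Filter Function Module Topology

noncomputable section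

namespace Pool.Agent.MP_e1dc65_gt.T.Pr

variable {i j k : Fin 3} {z z' : Rn 3}

theorem sg_cases (i : Fin 3) : sg i = 1 ∨ sg i = -1 := by fin_cases i <;> simp [sg]
theorem sg_sq (i : Fin 3) : sg i * sg i = 1 := by rcases sg_cases i with h | h <;> simp [h]
theorem abs_sg_mul (i : Fin 3) (x : ℝ) : |sg i * x| = |x| := by
  rcases sg_cases i with h | h <;> simp [h]
theorem cj_eq (i : Fin 3) : cj i = π + sg i * (π / 2) := by
  fin_cases i <;> simp [cj, sg] <;> ring
theorem ck_eq (i : Fin 3) : ck i = π - sg i * (π / 2) := by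
  fin_cases i <;> simp [ck, sg] <;> ring
theorem idx (i k : Fin 3) : k = i ∨ k = jx i ∨ k = kx i := by
  fin_cases i <;> fin_cases k <;> simp [jx, kx]

theorem sin_j (i : Fin 3) (z : Rn 3) : sg i * Real.sin (z (jx i)) = -Real.cos (tau i z) := by
  rw [show z (jx i) = tau i z + sg i * (π / 2) + π by rw [tau, cj_eq]; ring, Real.sin_add_pi]
  rcases sg_cases i with h | h <;> simp [h, Real.sin_add]
theorem sin_k (i : Fin 3) (z : Rn 3) : sg i * Real.sin (z (kx i)) = Real.cos (nu i z) := by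
  rw [show z (kx i) = nu i z - sg i * (π / 2) + π by rw [nu, ck_eq]; ring, Real.sin_add_pi]
  rcases sg_cases i with h | h <;> simp [h, Real.sin_add, Real.sin_sub]

theorem st_qd (h : z ∈ St i) : z ∈ Qd i :=
  ⟨by rw [sin_j]; exact neg_lt_zero.2 (Real.cos_pos_of_mem_Ioo (abs_lt.1 h.1)),
    by rw [sin_k]; exact Real.cos_pos_of_mem_Ioo (abs_lt.1 h.2)⟩

theorem mem_box : z ∈ Box i ↔ |tau i z| < 1 / 5 ∧ |nu i z| < 1 / 5 := by
  simp only [Box, mem_ofPred_eq, tau, nu, eps]; norm_num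

theorem box_st (h : z ∈ Box i) : z ∈ St i :=
  ⟨(mem_box.1 h).1.trans (by linarith [Real.pi_gt_three]),
    (mem_box.1 h).2.trans (by linarith [Real.pi_gt_three])⟩

theorem lat_sin (h : Lat z z') (k : Fin 3) : Real.sin (z k) = Real.sin (z' k) := by
  obtain ⟨m, hm⟩ := h k
  rw [show z k = z' k + m * (2 * π) by linarith, Real.sin_add_int_mul_two_pi]

theorem lat_qd (h : Lat z z') (hz : z' ∈ Qd i) : z ∈ Qd i := by
  simpa only [Qd, mem_ofPred_eq, lat_sin h] using hz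

theorem lat_oct (h : Lat z z') (hz : z' ∈ Oct) : z ∈ Oct := fun k => by
  rw [lat_sin h]; exact hz k

theorem blk_box (h : z ∈ Blk i) : ∃ w ∈ Box i, Lat z w :=
  let ⟨w, a, b, c⟩ := h
  ⟨w, mem_box.2 ⟨b.trans_lt (by norm_num), c.trans_lt (by norm_num)⟩, a⟩

theorem blk_qd (h : z ∈ Blk i) : z ∈ Qd i :=
  let ⟨_, a, b⟩ := blk_box h
  lat_qd b (st_qd (box_st a))

theorem qd_disj (h : z ∈ Qd i) (h' : z ∈ Qd j) : i = j := by
  obtain ⟨a, b⟩ := h
  obtain ⟨c, d⟩ := h'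
  fin_cases i <;> fin_cases j <;> simp [sg, jx, kx] at a b c d ⊢ <;> linarith

theorem qd_oct (h : z ∈ Qd i) : z ∉ Oct := fun o => by
  obtain ⟨a, b⟩ := h
  have := o (jx i)
  have := o (kx i)
  rcases sg_cases i with h | h <;> rw [h] at a b <;> linarith

theorem not_qd (h : Real.sin (z k) = 0) (hk : k ≠ i) : z ∉ Qd i := fun q => by
  rcases idx i k with e | e | e
  · exact hk e
  · have := q.1; rw [← e, h] at this; simp at this
  · have := q.2; rw [← e, h] at this; simp at this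

theorem not_oct (h : Real.sin (z k) = 0) : z ∉ Oct := fun o => (o k).ne' h

theorem isOpen_st (i : Fin 3) : IsOpen (St i) := by
  refine IsOpen.and (isOpen_lt ?_ ?_) (isOpen_lt ?_ ?_) <;> (try unfold tau) <;> (try unfold nu) <;>
    fun_prop

theorem isClosed_blk (i : Fin 3) : IsClosed (Blk i) := by
  have : Blk i = (fun z : Rn 3 => z (jx i)) ⁻¹' {t | ∃ m : ℤ, |t - 2 * π * m - cj i| ≤ 3 / 20} ∩
      (fun z : Rn 3 => z (kx i)) ⁻¹' {t | ∃ m : ℤ, |t - 2 * π * m - ck i| ≤ 1 / 20} := by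
    ext z
    constructor
    · rintro ⟨w, a, b, c⟩
      obtain ⟨m, hm⟩ := a (jx i)
      obtain ⟨n, hn⟩ := a (kx i)
      exact ⟨⟨m, by rwa [← hm, sub_sub_cancel]⟩, n, by rwa [← hn, sub_sub_cancel]⟩
    · rintro ⟨⟨m, a⟩, n, b⟩
      refine ⟨fun k => z k - 2 * π * (if k = jx i then m else n : ℤ), fun k => ⟨_, sub_sub_cancel _ _⟩,
        ?_, ?_⟩
      · simpa [tau] using a
      · simpa [nu, (jx_ne_kx i).symm] using b
  rw [this]
  exact ((isClosed_per _ _).preimage (continuous_apply _)).inter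
    ((isClosed_per _ _).preimage (continuous_apply _))

theorem isOpen_dom : ∀ a, IsOpen (Dom a)
  | none => by
    rw [show Dom none = ⋂ i, (Blk i)ᶜ from by ext; simp [Dom]]
    exact isOpen_iInter_of_finite fun i => (isClosed_blk i).isOpen_compl
  | some (i, false) => (isOpen_st i).inter (isOpen_lt (f := fun z => sg i * nu i z)
      (by unfold nu; fun_prop) continuous_const)
  | some (i, true) => (isOpen_st i).inter (isOpen_lt (g := fun z => sg i * nu i z) continuous_const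
      (by unfold nu; fun_prop))

theorem dom_of_qd (h : ∀ i, z ∉ Qd i) : z ∈ Dom none := fun i b => h i (blk_qd b)

/-- all coordinates are close to multiples of `π` -/
def Nv (z : Rn 3) : Prop := ∃ n : Fin 3 → ℤ, ∀ k, |z k - n k * π| < 2 / 25

theorem Nv.lat (h : Nv z) (e : Lat z z') : Nv z' := by
  obtain ⟨n, hn⟩ := h
  choose m hm using e
  exact ⟨fun k => n k - 2 * m k, fun k => by
    rw [show z' k - ((n k - 2 * m k : ℤ) : ℝ) * π = z k - n k * π by push_cast; linarith [hm k]]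
    exact hn k⟩

theorem Nv.ev (h : Nv z) : ∀ᶠ w in 𝓝 z, Nv w := by
  obtain ⟨n, hn⟩ := h
  have : ∀ᶠ w : Rn 3 in 𝓝 z, ∀ k, |w k - n k * π| < 2 / 25 := eventually_all.2 fun k =>
    (isOpen_lt (f := fun w : Rn 3 => |w k - n k * π|) (by fun_prop) continuous_const).mem_nhds (hn k)
  exact this.mono fun _ hw => ⟨n, hw⟩

theorem Nv.not_box (h : Nv z) : z ∉ Box i := fun b => by
  obtain ⟨n, hn⟩ := h
  have h1 : |Real.sin (z (kx i))| ≤ |z (kx i) - n (kx i) * π| := by
    have := Real.abs_sin_le_abs (x := z (kx i) - n (kx i) * π)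
    rwa [Real.sin_sub_int_mul_pi, abs_mul, abs_neg_one_zpow, one_mul] at this
  have h2 := Real.one_sub_sq_div_two_le_cos (x := nu i z)
  have h3 := abs_lt.1 (mem_box.1 b).2
  rw [← abs_sg_mul i, sin_k] at h1
  nlinarith [hn (kx i), le_abs_self (Real.cos (nu i z))]

theorem Nv.dom (h : Nv z) : z ∈ Dom none := fun _ b =>
  let ⟨_, a, e⟩ := blk_box b
  (h.lat e).not_box a

theorem Rel.lat (h : Rel z z') (hz : Nv z') : Lat z z' :=
  h.resolve_right fun ⟨_, _, _, _, b, _, e, _⟩ => (hz.lat e).not_box b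

theorem tau_single (c : ℝ) : tau i (z + Pi.single i c) = tau i z := by simp [tau, jx_ne i]
theorem nu_single (c : ℝ) : nu i (z + Pi.single i c) = nu i z := by simp [nu, kx_ne i]
theorem tau_sh (s : ℝ) (w : Rn 3) : tau i (z - sh s i w) = tau i z := by simp [tau, sh, jx_ne i]
theorem nu_sh (s : ℝ) (w : Rn 3) : nu i (z - sh s i w) = nu i z := by simp [nu, sh, kx_ne i]
theorem st_sh (s : ℝ) (w : Rn 3) (h : z ∈ St i) : z - sh s i w ∈ St i :=
  ⟨by rw [tau_sh]; exact h.1, by rw [nu_sh]; exact h.2⟩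

variable {U : Eu} {F : Mf (Rn 3)} {D : Dat F} {a : Option (Fin 3 × Bool)} {t : ℝ}

theorem Eu.Ok.relV (hU : U.Ok) (h : Rel z z') : U.V z = U.V z' := by
  rcases h with h | ⟨i, w, hw, w', hw', e, e', -⟩
  · exact hU.vd.latV _ _ h
  · rw [hU.vd.latV _ _ e, hU.vd.latV _ _ e']
    obtain ⟨a, b, c, -⟩ := hU.vd.box i w hw
    obtain ⟨a', b', c', -⟩ := hU.vd.box i w' hw'
    funext k
    rcases idx i k with rfl | rfl | rfl
    exacts [a.trans a'.symm, b.trans b'.symm, c.trans c'.symm]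

namespace GD

/-- orbits in a chart -/
theorem orb (hD : GD U D) (hU : U.Ok) (h : ∀ s ∈ uIcc 0 t, U.Ψ s z ∈ Dom a) :
    D.φ t (D.K a z) = D.K a (U.Ψ t z) :=
  hU.Ψfl.natural hD.fl fun s hs => ⟨(hD.ld a _ (h s hs)).sm, hD.fld a _ (h s hs)⟩

theorem orb0 (hD : GD U D) (hU : U.Ok) (hF : U.Fl) (h : ∀ i, z ∉ Qd i) (t : ℝ) :
    U.Ψ t z ∈ Dom none ∧ D.φ t (D.K none z) = D.K none (U.Ψ t z) :=
  have k : ∀ s, U.Ψ s z ∈ Dom none := fun s => dom_of_qd fun i q => h i ((hF.Ψqd s z i).1 q)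
  ⟨k t, hD.orb hU fun s _ => k s⟩

/-- after the cut -/
theorem late (hD : GD U D) (hU : U.Ok) (hF : U.Fl) (hz : z ∈ St i) {T : ℝ} (h0 : T ≤ 0)
    (h : -(1 / 20) < sg i * nu i (U.Ψ T z)) (ht : T ≤ t) : U.Ψ t z ∈ Dom (some (i, true)) ∧
      D.φ t (D.K (some (i, true)) z) = D.K (some (i, true)) (U.Ψ t z) :=
  have k : ∀ s, T ≤ s → U.Ψ s z ∈ Dom (some (i, true)) := fun s hs =>
    ⟨(hF.Ψst s z i).2 hz, h.trans_le ((hF.Ψnu i z hz).monotone hs)⟩
  ⟨k t ht, hD.orb hU fun s hs => k s ((le_min h0 ht).trans hs.1)⟩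

/-- before the cut -/
theorem early (hD : GD U D) (hU : U.Ok) (hF : U.Fl) (hz : z ∈ St i) {T : ℝ} (h0 : T ≤ 0)
    (h : |nu i (U.Ψ T z)| < 1 / 20) (ht : t ≤ T) :
    U.Ψ (t - T) (U.Ψ T z - sh D.s i (U.Ψ T z)) ∈ Dom (some (i, false)) ∧
      D.φ t (D.K (some (i, true)) z) =
        D.K (some (i, false)) (U.Ψ (t - T) (U.Ψ T z - sh D.s i (U.Ψ T z))) := by
  have h1 := abs_lt.1 ((abs_sg_mul i _).trans_lt h)
  have hy := st_sh D.s (U.Ψ T z) ((hF.Ψst T z i).2 hz)
  have k : ∀ s, s ≤ 0 → U.Ψ s (U.Ψ T z - sh D.s i (U.Ψ T z)) ∈ Dom (some (i, false)) := fun s hs =>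
    ⟨(hF.Ψst s _ i).2 hy, ((hF.Ψnu i _ hy).monotone hs).trans_lt (by
      simpa only [hU.Ψfl.zero, nu_sh] using h1.2)⟩
  refine ⟨k _ (sub_nonpos.2 ht), ?_⟩
  rw [← hD.orb hU fun s hs => k s (hs.2.trans (max_le le_rfl (sub_nonpos.2 ht))),
    hD.mat i _ hy (by rwa [nu_sh]), show sh D.s i (U.Ψ T z - sh D.s i (U.Ψ T z)) = sh D.s i (U.Ψ T z)
      by rw [sh, tau_sh, nu_sh, sh], sub_add_cancel, ← (hD.late hU hF hz h0 h1.1 le_rfl).2,
    ← hD.fl.add, sub_add_cancel]

theorem dfξ (hD : GD U D) (hz : z ∈ Dom a) :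
    Df F (vs ℝ) D.f (D.K a z) (D.ξ (D.K a z)) = fderiv ℝ U.g z (U.V z) := by
  have e : (fun w => D.f (D.K a w)) =ᶠ[𝓝 z] U.g :=
    ((isOpen_dom a).eventually_mem hz).mono fun w hw => hD.fn a w hw
  rw [← hD.fld a z hz, ← Df_vs, ← Df_congr (X := vs (Rn 3)) (Y := vs ℝ) e,
    Df_comp (hD.ld a z hz).sm (hD.smf _ trivial)]
  rfl

theorem df_nonneg (hD : GD U D) (hU : U.Ok) (m : F) : 0 ≤ Df F (vs ℝ) D.f m (D.ξ m) := by
  obtain ⟨a, z, hz, rfl⟩ := hD.cov m
  rw [hD.dfξ hz]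
  by_cases h : ∃ k, Real.sin (z k) ≠ 0
  · exact (hU.vd.pos z h).le
  · obtain ⟨H, -, e⟩ := hU.vd.fac
    push Not at h
    rw [show U.V z = 0 from funext fun k => by rw [e, (hU.sc.ηzero _).2 (h k), zero_mul]; rfl,
      map_zero]

/-- the function increases along orbits -/
theorem mono (hD : GD U D) (hU : U.Ok) (m : F) : Monotone fun t => D.f (D.φ t m) := fun _ _ h =>
  hD.fl.mono h fun _ _ => ⟨hD.smf _ trivial, hD.df_nonneg hU _⟩

/-- levels between the critical values are regular -/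
theorem df_pos (hD : GD U D) (hU : U.Ok) {m : F} (h : |D.f m| < π) :
    0 < Df F (vs ℝ) D.f m (D.ξ m) := by
  obtain ⟨a, z, hz, rfl⟩ := hD.cov m
  rw [hD.dfξ hz]
  refine hU.vd.pos z (by_contra fun n => ?_)
  push Not at n
  rw [hD.fn a z hz, hU.vd.sum z fun i c => not_qd (n _) (jx_ne i) c.1, Fin.sum_univ_three,
    abs_lt] at h
  have p := Real.pi_pos
  rcases (abs_eq p.le).1 (hU.sc.top _ (n 0)) with a | a <;>
    rcases (abs_eq p.le).1 (hU.sc.top _ (n 1)) with b | b <;>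
    rcases (abs_eq p.le).1 (hU.sc.top _ (n 2)) with c | c <;> linarith [h.1, h.2]

end GD

end Pool.Agent.MP_e1dc65_gt.T.Pr

end
end MrgPart0

-- ======== part 1: formerly Pool.Agent.MP_e1dc65_gt.t.PreWind
section MrgPart1

/-! PROJECT HC, block NF, row WIND: circle-valued functions with prescribed winding numbers. -/

open scoped ContDiff Manifold Topology Real
open Set Filter Function Module Topology

noncomputable section

namespace Pool.Agent.MP_e1dc65_gt.T.Pr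

namespace Wd

/-! ### Generalities -/

theorem contT {X : Type} [TopologicalSpace X] {S : Set X} {h : ℝ → X → ℝ} {T : X → ℝ} {t : ℝ}
    (hc : ∀ a, ContinuousOn (h a) S) (hm : ∀ x ∈ S, StrictMono fun a => h a x)
    (e : ∀ x ∈ S, h (T x) x = t) : ContinuousOn T S := fun x hx =>
  tendsto_order.2 ⟨fun a ha => by
    filter_upwards [(hc a x hx).eventually_lt_const ((hm x hx ha).trans_eq (e x hx)),
      self_mem_nhdsWithin] with y h1 h2 using (hm y h2).lt_iff_lt.1 (h1.trans_eq (e y h2).symm),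
    fun a ha => by
    filter_upwards [(hc a x hx).eventually_const_lt ((e x hx).symm.trans_lt (hm x hx ha)),
      self_mem_nhdsWithin] with y h1 h2 using (hm y h2).lt_iff_lt.1 ((e y h2).trans_lt h1)⟩

theorem ext_per {L : ℝ → ℝ} {n : ℤ} (hc : ContinuousOn L (Icc 0 (2 * π)))
    (he : L (2 * π) = L 0 + 2 * π * n) : ∃ L' : ℝ → ℝ, Continuous L' ∧
      (∀ s, L' (s + 2 * π) = L' s + 2 * π * n) ∧ ∀ s, ∃ σ ∈ Icc 0 (2 * π), ∃ m : ℤ,
        s = σ + m * (2 * π) ∧ Circle.exp (L' s) = Circle.exp (L σ) := by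
  have hp := Real.two_pi_pos
  have m : MapsTo (fun x => 2 * π * x) (Icc 0 1) (Icc 0 (2 * π)) := fun x hx =>
    ⟨mul_nonneg hp.le hx.1, mul_le_of_le_one_right hp.le hx.2⟩
  have h1 := ContinuousOn.comp_fract'' (f := fun x => L (2 * π * x) - 2 * π * n * x)
    ((hc.comp (by fun_prop) m).sub (by fun_prop)) (by simp [he])
  refine ⟨fun s => L (2 * π * Int.fract (s / (2 * π))) - 2 * π * n * Int.fract (s / (2 * π)) +
    n * s, (h1.comp (continuous_id.div_const _)).add (by fun_prop), fun s => ?_, fun s => ?_⟩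
  · simp only [add_div, div_self hp.ne', Int.fract_add_one]
    ring
  · have e : s = 2 * π * Int.fract (s / (2 * π)) + ⌊s / (2 * π)⌋ * (2 * π) := by
      rw [Int.fract]; field_simp; ring
    refine ⟨_, m ⟨Int.fract_nonneg (s / (2 * π)), (Int.fract_lt_one _).le⟩, _, e,
      Circle.exp_eq_exp.2 ⟨n * ⌊s / (2 * π)⌋, ?_⟩⟩
    push_cast
    linear_combination n * e

/-- a degree-one map of the circle that is constant near the base point -/
def om (x : ℝ) : ℝ := x - Real.arcsin (Real.sin x) * min 1 (2 * Real.cos x)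

theorem om_cont : Continuous om := by
  unfold om
  have := Real.continuous_arcsin
  fun_prop

theorem om_per (x : ℝ) (m : ℤ) : om (x + m * (2 * π)) = om x + m * (2 * π) := by
  rw [om, om, Real.sin_add_int_mul_two_pi, Real.cos_add_int_mul_two_pi]
  ring

theorem om_zero {x : ℝ} (h : x ^ 2 ≤ 1) : om x = 0 := by
  have := abs_le.1 ((sq_le_one_iff_abs_le_one x).1 h)
  have := Real.pi_gt_three
  rw [om, Real.arcsin_sin (by linarith) (by linarith),
    min_eq_left (by linarith [Real.one_sub_sq_div_two_le_cos (x := x)]), mul_one, sub_self]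

def Lf (n : Fin 3 → ℤ) (z : Rn 3) : ℝ := -∑ k, n k * om (z k)

theorem Lf_cont (n : Fin 3 → ℤ) : Continuous (Lf n) := by
  unfold Lf
  have := om_cont
  fun_prop

variable {i : Fin 3} {y z z' w : Rn 3} {n : Fin 3 → ℤ} {σ : ℝ}

theorem Lf_lat (h : Lat z z') : Circle.exp (Lf n z) = Circle.exp (Lf n z') := by
  choose m hm using h
  refine Circle.exp_eq_exp.2 ⟨-∑ k, n k * m k, ?_⟩
  have : ∀ k, om (z k) = om (z' k) + m k * (2 * π) := fun k => by
    rw [← om_per]; congr 1; linarith [hm k]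
  simp only [Lf, this, Fin.sum_univ_three]
  push_cast
  ring

theorem sum3 (i : Fin 3) (f : Fin 3 → ℝ) : ∑ k, f k = f i + f (jx i) + f (kx i) := by
  fin_cases i <;> simp [Fin.sum_univ_three, jx, kx] <;> ring

theorem Lf_single : Lf n (z - Pi.single i (2 * π)) = Lf n z + 2 * π * n i := by
  have := om_per (z i) (-1)
  simp only [Lf, sum3 i, Pi.sub_apply, Pi.single_eq_same, Pi.single_eq_of_ne (jx_ne i),
    Pi.single_eq_of_ne (kx_ne i), sub_zero]
  rw [show z i - 2 * π = z i + (-1 : ℤ) * (2 * π) by push_cast; ring, this]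
  push_cast
  ring

theorem lat_single (z : Rn 3) (m : ℤ) : Lat z (z - Pi.single i (2 * π * m)) := fun k => by
  by_cases h : k = i
  · exact ⟨m, by simp [h]⟩
  · exact ⟨0, by simp [h]⟩

/-! ### The shift -/

def ez : Fin 3 → ℤ := ![1, 0, 1]

theorem sgc (i : Fin 3) : (sg i = 1 ∧ ez i = 1) ∨ (sg i = -1 ∧ ez i = 0) := by
  fin_cases i <;> simp [sg, ez]

theorem shA (h0 : nu i w = 0) (h : sg i * tau i w ≤ -(1 / 10)) :
    sh 1 i w = Pi.single i (2 * π * (ez i - 1 : ℤ)) := by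
  rw [sh, h0, add_zero, one_mul]
  rcases sgc i with ⟨a, b⟩ | ⟨a, b⟩ <;> rw [a] at h <;> rw [a, b]
  · rw [Fn.lam_zero (by rw [eps]; linarith)]; simp
  · rw [Fn.lam_one (by rw [eps]; linarith)]; simp

theorem shB (h0 : nu i w = 0) (h : 1 / 10 ≤ sg i * tau i w) :
    sh 1 i w = Pi.single i (2 * π * ez i) := by
  rw [sh, h0, add_zero, one_mul]
  rcases sgc i with ⟨a, b⟩ | ⟨a, b⟩ <;> rw [a] at h <;> rw [a, b]
  · rw [Fn.lam_one (by rw [eps]; linarith)]; simp
  · rw [Fn.lam_zero (by rw [eps]; linarith)]; simp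

/-! ### Orbits in three-space -/

/-- the two coordinates other than `i` follow the flow on the circle -/
def Gd (i : Fin 3) (y : Rn 3) : Prop := y ∉ Oct ∧ ∀ l, l ≠ i → y ∉ Qd l

theorem gd_st (h : y ∈ St i) : Gd i y :=
  ⟨qd_oct (st_qd h), fun _ hl q => hl (qd_disj q (st_qd h))⟩

theorem gd_sin (h : Real.sin (y i) = 0) : Gd i y := ⟨not_oct h, fun _ hl => not_qd h hl.symm⟩

variable {U : Eu} {T₀ : ℝ → ℝ}

theorem Ψsub (hF : U.Fl) (h : Lat z z') (t : ℝ) : U.Ψ t z' = U.Ψ t z - (z - z') := by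
  choose m hm using h.symm
  have e : z' = z + fun k => 2 * π * (m k : ℝ) := funext fun k => by
    rw [Pi.add_apply, ← hm k]; ring
  rw [e, hF.Ψlat]
  abel

theorem Ψlat (hF : U.Fl) (h : Lat z z') (t : ℝ) : Lat (U.Ψ t z) (U.Ψ t z') :=
  Ψsub hF h t ▸ h.sub_self _

theorem box_g (hU : U.Ok) (h : w ∈ Box i) (e : Lat z w) : |U.g z| < 1 := by
  obtain ⟨a, b⟩ := mem_box.1 h
  rw [hU.vd.latg _ _ e, (hU.vd.box i w h).2.2.2, abs_div, abs_sg_mul, abs_two]
  linarith [abs_sub (nu i w) (tau i w)]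

theorem dom_g (hU : U.Ok) (h : 1 ≤ |U.g z|) : z ∈ Dom none := fun _ b =>
  let ⟨_, a, e⟩ := blk_box b
  (box_g hU a e).not_ge h

theorem gmono (hU : U.Ok) (hF : U.Fl) {l : Fin 3} (h : Real.sin (y l) ≠ 0) :
    StrictMono fun T => U.g (U.Ψ T y) := by
  refine strictMono_of_hasDerivAt_pos (fun T => (hU.vd.smg.differentiable (by simp)
    _).hasFDerivAt.comp_hasDerivAt T (hU.Ψfl.hasDerivAt_vs y T)) fun T => hU.vd.pos _ ⟨l, ?_⟩
  exact fun e => h (hF.Ψfix' T y l e ▸ e)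

theorem tauP (hF : U.Fl) (h : Gd i z) (ht : |tau i z| < π / 2) :
    Antitone (fun t => sg i * tau i (U.Ψ t z)) ∧
      Tendsto (fun t => sg i * tau i (U.Ψ t z)) atBot (𝓝 (π / 2)) := by
  have e : ∀ t, U.Ψ t z (jx i) = U.ψ t (z (jx i)) := fun t =>
    hF.Ψψ t z h.1 _ (h.2 _ (jx_ne i))
  rw [tau, cj_eq, abs_lt] at ht
  simp only [tau, e, cj_eq]
  rcases sg_cases i with a | a <;> rw [a] at ht ⊢
  · obtain ⟨h1, h2, -⟩ := hF.ψdn (z (jx i)) ⟨by linarith, by linarith⟩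
    refine ⟨fun s t st => by linarith [h1.antitone st], ?_⟩
    exact ((h2.sub_const (π + 1 * (π / 2))).const_mul 1).trans (le_of_eq (by congr 1; ring))
  · obtain ⟨h1, h2, -⟩ := hF.ψup (z (jx i)) ⟨by linarith, by linarith⟩
    refine ⟨fun s t st => by linarith [h1.monotone st], ?_⟩
    exact ((h2.sub_const (π + -1 * (π / 2))).const_mul (-1)).trans (le_of_eq (by congr 1; ring))

theorem limT (hU : U.Ok) (hF : U.Fl) {x : ℝ} (hx : x ∈ Ioo 0 (2 * π)) :
    (∀ᶠ T in atTop, 3 < U.p (U.ψ T x)) ∧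
      (x ≠ π → ∀ᶠ T in atBot, U.p (U.ψ T x) < -π + 1 / 800) := by
  have c := hU.sc.sm.continuous
  have p0 : U.p 0 = -π := by simpa using hU.sc.quad 0 (by norm_num)
  have p1 : 3 < U.p π := by
    have := hU.sc.mir 0
    rw [sub_zero] at this
    linarith [Real.pi_gt_three]
  have p2 : U.p (2 * π) = -π := by simpa [p0] using hU.sc.per 0 1
  rcases lt_trichotomy x π with h | rfl | h
  · obtain ⟨-, h1, h2⟩ := hF.ψup x ⟨hx.1, h⟩
    exact ⟨((c.tendsto _).comp h2).eventually_const_lt p1,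
      fun _ => ((c.tendsto _).comp h1).eventually_lt_const (by linarith)⟩
  · exact ⟨.of_forall fun T => by rwa [hF.ψfix T π Real.sin_pi], fun h => absurd rfl h⟩
  · obtain ⟨-, h1, h2⟩ := hF.ψdn x ⟨h, hx.2⟩
    exact ⟨((c.tendsto _).comp h2).eventually_const_lt p1,
      fun _ => ((c.tendsto _).comp h1).eventually_lt_const (by linarith)⟩

/-- the orbit meets the level exactly once -/
theorem exT (hU : U.Ok) (hF : U.Fl) (h : Gd i y) (hj : y (jx i) ∈ Ioo 0 (2 * π))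
    (hk : y (kx i) ∈ Ioo 0 (2 * π)) (hc : (y (jx i) ≠ π ∧ y (kx i) ≠ π) ∨
      ((∃ m : ℤ, y i = 2 * π * m) ∧ (y (jx i) ≠ π ∨ y (kx i) ≠ π))) :
    StrictMono (fun T => U.g (U.Ψ T y)) ∧ ∃ T, U.g (U.Ψ T y) = -π + 1 / 400 := by
  have s : ∀ x ∈ Ioo 0 (2 * π), x ≠ π → Real.sin x ≠ 0 := fun x hx h1 h2 => h1 (by
    rw [← Real.sin_pi_sub, Real.sin_eq_zero_iff_of_lt_of_lt (by linarith [hx.2])
      (by linarith [hx.1])] at h2
    linarith)
  have g : ∀ T, 14 / 5 < |U.p (U.ψ T (y (jx i)))| ∨ 14 / 5 < |U.p (U.ψ T (y (kx i)))| →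
      U.g (U.Ψ T y) = U.p (U.Ψ T y i) + U.p (U.ψ T (y (jx i))) + U.p (U.ψ T (y (kx i))) := by
    intro T hT
    rw [← hF.Ψψ T y h.1 _ (h.2 _ (jx_ne i)), ← hF.Ψψ T y h.1 _ (h.2 _ (kx_ne i))] at hT ⊢
    rw [hU.vd.sum _ fun l c => ?_, sum3 i]
    obtain rfl : l = i := by_contra fun e => h.2 l e ((hF.Ψqd T y l).1 c.1)
    exact hT.elim c.2.1.not_gt c.2.2.not_gt
  have b := fun x => abs_le.1 (hU.sc.bd x)
  have p3 := Real.pi_gt_three
  have p4 := Real.pi_lt_four
  obtain ⟨j1, j2⟩ := limT hU hF hj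
  obtain ⟨k1, k2⟩ := limT hU hF hk
  refine ⟨(hc.elim (fun a => .inl a.1) (·.2)).elim (fun a => gmono hU hF (s _ hj a))
    fun a => gmono hU hF (s _ hk a), mem_range_of_exists_le_of_exists_ge
      (hU.vd.smg.continuous.comp (hU.Ψfl.cont_curve y)) ?_ ?_⟩
  · rcases hc with ⟨a, a'⟩ | ⟨⟨m, hm⟩, a⟩
    · obtain ⟨T, h1, h2⟩ := ((j2 a).and (k2 a')).exists
      exact ⟨T, (g T (.inl (lt_abs.2 (.inr (by linarith))))).trans_le
        (by linarith [(b (U.Ψ T y i)).2])⟩
    · have e : ∀ T, U.p (U.Ψ T y i) = -π := fun T => by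
        rw [hF.Ψfix T y i (by rw [hm, mul_comm, ← zero_add (_ * _),
          Real.sin_add_int_mul_two_pi, Real.sin_zero]), hm, ← zero_add (_ * _), hU.sc.per,
          hU.sc.quad 0 (by norm_num)]
        simp
      rcases a with a | a
      · obtain ⟨T, h1⟩ := (j2 a).exists
        exact ⟨T, (g T (.inl (lt_abs.2 (.inr (by linarith))))).trans_le
          (by linarith [e T, (b (U.ψ T (y (kx i)))).2])⟩
      · obtain ⟨T, h1⟩ := (k2 a).exists
        exact ⟨T, (g T (.inr (lt_abs.2 (.inr (by linarith))))).trans_le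
          (by linarith [e T, (b (U.ψ T (y (jx i)))).2])⟩
  · obtain ⟨T, h1, h2⟩ := (j1.and k1).exists
    exact ⟨T, (g T (.inl (lt_abs.2 (.inl (by linarith))))).ge.trans'
      (by linarith [(b (U.Ψ T y i)).1])⟩

theorem st_mem (h : y ∈ St i) : (y (jx i) ∈ Ioo 0 (2 * π) ∧ y (jx i) ≠ π) ∧
    y (kx i) ∈ Ioo 0 (2 * π) ∧ y (kx i) ≠ π := by
  obtain ⟨a, b⟩ := h
  rw [tau, cj_eq, abs_lt] at a
  rw [nu, ck_eq, abs_lt] at b
  have := Real.pi_pos
  rcases sg_cases i with e | e <;> rw [e] at a b <;>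
    exact ⟨⟨⟨by linarith, by linarith⟩, fun _ => by linarith⟩, ⟨by linarith, by linarith⟩,
      fun _ => by linarith⟩

/-! ### The attaching circle -/

def zz (i : Fin 3) (σ : ℝ) : Rn 3 := fun l =>
  if l = i then 0 else if l = jx i then π + sg i * (Real.sin σ / 50) else π - sg i * (Real.cos σ / 50)

theorem zz_cont (i : Fin 3) : Continuous (zz i) := continuous_pi fun l => by
  unfold zz
  split_ifs <;> fun_prop

theorem zz_i : zz i σ i = 0 := if_pos rfl
theorem zz_j : zz i σ (jx i) = π + sg i * (Real.sin σ / 50) := by simp [zz, jx_ne i]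
theorem zz_k : zz i σ (kx i) = π - sg i * (Real.cos σ / 50) := by
  simp [zz, kx_ne i, (jx_ne_kx i).symm]
theorem zz_tau : sg i * tau i (zz i σ) = Real.sin σ / 50 - π / 2 := by
  rw [tau, zz_j, cj_eq]; linear_combination (Real.sin σ / 50 - π / 2) * sg_sq i
theorem zz_nu : sg i * nu i (zz i σ) = π / 2 - Real.cos σ / 50 := by
  rw [nu, zz_k, ck_eq]; linear_combination (π / 2 - Real.cos σ / 50) * sg_sq i
theorem zz_sin : Real.sin (zz i σ i) = 0 := by rw [zz_i, Real.sin_zero]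

theorem zz_tau' (h : 0 < Real.sin σ) : |tau i (zz i σ)| < π / 2 := by
  rw [← abs_sg_mul i, zz_tau, abs_lt]
  constructor <;> linarith [Real.sin_le_one σ, Real.pi_gt_three]
theorem zz_nu' (h : 0 < Real.cos σ) : |nu i (zz i σ)| < π / 2 := by
  rw [← abs_sg_mul i, zz_nu, abs_lt]
  constructor <;> linarith [Real.cos_le_one σ, Real.pi_gt_three]

theorem zz_st (h : σ ∈ Ioo 0 (π / 2)) : zz i σ ∈ St i :=
  ⟨zz_tau' (Real.sin_pos_of_pos_of_lt_pi h.1 (by linarith [h.1, h.2])),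
    zz_nu' (Real.cos_pos_of_mem_Ioo ⟨by linarith [h.1, h.2], h.2⟩)⟩

theorem zz_qd (h : σ ∈ Icc 0 (2 * π)) (h' : σ ∉ Ioo 0 (π / 2)) (l : Fin 3) : zz i σ ∉ Qd l := by
  by_cases e : i = l
  · subst e
    rintro ⟨a, b⟩
    have c : ∀ x, Real.cos (sg i * x) = Real.cos x := fun x => by
      rcases sg_cases i with e | e <;> simp [e]
    rw [sin_j, ← c, zz_tau, Real.cos_sub_pi_div_two] at a
    rw [sin_k, ← c, zz_nu, Real.cos_pi_div_two_sub] at b
    have p := Real.pi_gt_three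
    have a' : 0 < Real.sin σ := by_contra fun n => (Real.sin_nonpos_of_nonpos_of_neg_pi_le
      (x := Real.sin σ / 50) (by linarith) (by linarith [Real.neg_one_le_sin σ])).not_gt
      (by linarith)
    have b' : 0 < Real.cos σ := by_contra fun n => (Real.sin_nonpos_of_nonpos_of_neg_pi_le
      (x := Real.cos σ / 50) (by linarith) (by linarith [Real.neg_one_le_cos σ])).not_gt b
    refine h' ⟨h.1.lt_of_ne ?_, by_contra fun n => ?_⟩
    · rintro rfl
      simp at a'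
    · rcases le_total σ π with q | q
      · exact (Real.cos_nonpos_of_pi_div_two_le_of_le (not_lt.1 n) (by linarith)).not_gt b'
      · have := Real.sin_nonneg_of_nonneg_of_le_pi (x := σ - π) (by linarith) (by linarith [h.2])
        rw [Real.sin_sub_pi] at this
        linarith
  · exact not_qd zz_sin e

theorem zz_abs : |sg i * (Real.sin σ / 50)| ≤ 1 / 50 ∧ |sg i * (Real.cos σ / 50)| ≤ 1 / 50 := by
  rw [abs_sg_mul, abs_sg_mul, abs_le, abs_le]
  refine ⟨⟨?_, ?_⟩, ?_, ?_⟩ <;> linarith [Real.neg_one_le_sin σ, Real.sin_le_one σ,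
    Real.neg_one_le_cos σ, Real.cos_le_one σ]

theorem zz_dom : zz i σ ∈ Dom none := by
  obtain ⟨a, b⟩ := zz_abs (i := i) (σ := σ)
  refine Nv.dom ⟨fun l => if l = i then 0 else 1, fun l => ?_⟩
  rcases idx i l with rfl | rfl | rfl
  · simp [zz_i]
  · simp only [zz_j, if_neg (jx_ne i), Int.cast_one, one_mul, add_sub_cancel_left]
    linarith
  · simp only [zz_k, if_neg (kx_ne i), Int.cast_one, one_mul, sub_sub_cancel_left, abs_neg]
    linarith

theorem zz_dn {s : ℝ} {m : ℤ} (h : s + sg i * (π / 2) = σ + m * (2 * π)) :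
    q0 - Pi.single i π + ins i 0 ((1 / 25 / 2 : ℝ) • cir s) = zz i σ := by
  have e : s = σ - sg i * (π / 2) + m * (2 * π) := by linarith
  funext l
  rcases idx i l with rfl | rfl | rfl
  · simp [q0, ins, zz_i]
  · rcases sg_cases i with a | a <;>
      simp [q0, ins, zz_j, jx_ne i, cir, e, a, Real.cos_add_pi_div_two,
        Real.cos_sub_pi_div_two] <;> ring
  · rcases sg_cases i with a | a <;> simp [q0, ins, zz_k, kx_ne i, (jx_ne_kx i).symm, cir, e, a,
      Real.sin_add_pi_div_two, Real.sin_sub_pi_div_two] <;> ring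

/-- the point where the orbit crosses the cut -/
def WW (U : Eu) (T₀ : ℝ → ℝ) (i : Fin 3) (z : Rn 3) : Rn 3 := U.Ψ (T₀ (z (kx i))) z
/-- the starting point seen from before the cut -/
def YY (U : Eu) (T₀ : ℝ → ℝ) (i : Fin 3) (z : Rn 3) : Rn 3 :=
  U.Ψ (-T₀ (z (kx i))) (WW U T₀ i z - sh 1 i (WW U T₀ i z))
def yy (U : Eu) (T₀ : ℝ → ℝ) (i : Fin 3) (σ : ℝ) : Rn 3 :=
  if σ < π / 2 then YY U T₀ i (zz i σ) else zz i σ - Pi.single i (2 * π * ez i)

theorem YY_lat (hU : U.Ok) (hF : U.Fl) {m : ℤ}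
    (h : sh 1 i (WW U T₀ i z) = Pi.single i (2 * π * m)) :
    YY U T₀ i z = z - Pi.single i (2 * π * m) := by
  rw [YY, h, Ψsub hF (lat_single _ m), sub_sub_cancel, WW, hU.Ψfl.neg_left]

section Time
variable (hU : U.Ok) (hF : U.Fl) (hT : ∀ x, |x - ck i| < π / 2 → U.ψ (T₀ x) x = ck i)
include hF hT

theorem nuW (h : Gd i z) (hn : |nu i z| < π / 2) : nu i (WW U T₀ i z) = 0 := by
  rw [nu, WW, hF.Ψψ _ z h.1 _ (h.2 _ (kx_ne i)), hT _ hn, sub_self]

include hU

theorem yy_zero : yy U T₀ i 0 = zz i 0 - Pi.single i (2 * π * (ez i - 1 : ℤ)) := by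
  rw [yy, if_pos Real.pi_div_two_pos]
  refine YY_lat hU hF (shA (nuW hF hT (gd_sin zz_sin) (zz_nu' (by simp))) ?_)
  rw [tau, WW, hF.Ψfix _ _ _ (by simp [zz_j]), ← tau, zz_tau, Real.sin_zero]
  linarith [Real.pi_gt_three]

theorem yy_lat (h : σ ∈ Icc 0 (2 * π)) (h' : σ ∉ Ioo 0 (π / 2)) :
    ∃ m : ℤ, yy U T₀ i σ = zz i σ - Pi.single i (2 * π * m) := by
  rcases h.1.eq_or_lt with rfl | h0
  · exact ⟨_, yy_zero hU hF hT⟩
  · exact ⟨_, if_neg fun n => h' ⟨h0, n⟩⟩

theorem yy_end : ∀ᶠ σ in 𝓝 (π / 2), yy U T₀ i σ = zz i σ - Pi.single i (2 * π * ez i) := by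
  have p := Real.pi_gt_three
  obtain ⟨a, ha⟩ := ((tauP hF (gd_sin (zz_sin (i := i) (σ := π / 2)))
    (zz_tau' (by simp))).2.eventually_const_lt (show 1 / 10 < π / 2 by linarith)).exists
  have c : Continuous fun σ => U.Ψ a (zz i σ) := (hU.Ψfl.cont_time a).comp (zz_cont i)
  have c1 : Continuous fun σ => sg i * tau i (U.Ψ a (zz i σ)) := by unfold tau; fun_prop
  have c2 : Continuous fun σ => sg i * nu i (U.Ψ a (zz i σ)) := by unfold nu; fun_prop
  have hb : 0 < sg i * nu i (U.Ψ a (zz i (π / 2))) := by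
    rw [nu, hF.Ψfix _ _ _ (by simp [zz_k]), ← nu, zz_nu, Real.cos_pi_div_two]
    linarith
  filter_upwards [(c1.tendsto _).eventually_const_lt ha, (c2.tendsto _).eventually_const_lt hb,
    Ioi_mem_nhds Real.pi_div_two_pos] with σ h1 h2 h3
  unfold yy
  split_ifs with h4
  · have s := zz_st (i := i) ⟨h3, h4⟩
    have n := nuW hF hT (gd_st s) s.2
    refine YY_lat hU hF (shB n (h1.le.trans ((tauP hF (gd_st s) s.1).1 ?_)))
    exact ((hF.Ψnu i _ s).lt_iff_lt.1 (lt_of_eq_of_lt (mul_eq_zero_of_right _ n) h2)).le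
  · rfl

theorem yy_cont (hc : ContinuousOn T₀ {x | |x - ck i| < π / 2}) :
    ContinuousOn (yy U T₀ i) (Icc 0 (2 * π)) := fun σ hσ => by
  have c := zz_cont i
  have c' : Continuous fun σ => zz i σ - Pi.single i (2 * π * ez i) := c.sub continuous_const
  refine ContinuousAt.continuousWithinAt ?_
  rcases lt_trichotomy σ (π / 2) with h | rfl | h
  · have t : ContinuousAt (fun σ => T₀ (zz i σ (kx i))) σ :=
      (hc.continuousAt ((isOpen_lt (by fun_prop) continuous_const).mem_nhds (zz_nu'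
        (Real.cos_pos_of_mem_Ioo ⟨by linarith [hσ.1], h⟩)))).comp
        (f := fun σ => zz i σ (kx i)) (by fun_prop)
    have w : ContinuousAt (fun σ => WW U T₀ i (zz i σ)) σ :=
      hU.Ψfl.cont.continuousAt.comp (c.continuousAt.prodMk t)
    have s : Continuous (sh 1 i) := by
      have := Fn.lam_sm.continuous
      refine (continuous_single (A := fun _ => ℝ) i).comp ?_
      unfold tau nu
      fun_prop
    refine (hU.Ψfl.cont.continuousAt.comp
      ((w.sub (s.continuousAt.comp w)).prodMk t.neg)).congr ?_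
    filter_upwards [Iio_mem_nhds h] with x hx using (if_pos hx).symm
  · exact c'.continuousAt.congr (EventuallyEq.symm (yy_end hU hF hT))
  · refine c'.continuousAt.congr ?_
    filter_upwards [Ioi_mem_nhds h] with x hx using (if_neg (lt_asymm hx)).symm

theorem yy_exT (h : σ ∈ Icc 0 (2 * π)) : StrictMono (fun T => U.g (U.Ψ T (yy U T₀ i σ))) ∧
    ∃ T, U.g (U.Ψ T (yy U T₀ i σ)) = -π + 1 / 400 := by
  by_cases h' : σ ∈ Ioo 0 (π / 2)
  · have s : yy U T₀ i σ ∈ St i := by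
      rw [yy, if_pos h'.2]
      exact (hF.Ψst _ _ i).2 (st_sh _ _ ((hF.Ψst _ _ i).2 (zz_st h')))
    obtain ⟨a, b⟩ := st_mem s
    exact exT hU hF (gd_st s) a.1 b.1 (.inl ⟨a.2, b.2⟩)
  · obtain ⟨m, e⟩ := yy_lat hU hF hT h h'
    obtain ⟨a, b⟩ := zz_abs (i := i) (σ := σ)
    have p := Real.pi_gt_three
    have ej : yy U T₀ i σ (jx i) = π + sg i * (Real.sin σ / 50) := by simp [e, jx_ne i, zz_j]
    have ek : yy U T₀ i σ (kx i) = π - sg i * (Real.cos σ / 50) := by simp [e, kx_ne i, zz_k]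
    rw [abs_le] at a b
    refine exT hU hF (gd_sin (i := i) (e ▸ (lat_sin (lat_single _ m) i).symm.trans zz_sin))
      (ej ▸ ⟨by linarith, by linarith⟩) (ek ▸ ⟨by linarith, by linarith⟩)
      (.inr ⟨⟨-m, by simp [e, zz_i]⟩, by_contra fun n => ?_⟩)
    rw [not_or, not_not, not_not, ej, ek] at n
    have := Real.sin_sq_add_cos_sq σ
    rcases sg_cases i with q | q <;> rw [q] at n <;> nlinarith [n.1, n.2]

/-- the orbit of a point of the attaching circle, below the boxes -/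
theorem yy_orb {F : Mf (Rn 3)} {D : Dat F} (hD : GD U D) (hs : D.s = 1) (h : σ ∈ Icc 0 (2 * π))
    {T : ℝ} (ht : D.f (D.φ T (D.K none (zz i σ))) ≤ -1) :
    ∃ a, ∃ x ∈ Dom a, D.φ T (D.K none (zz i σ)) = D.K a x ∧ Lat x (U.Ψ T (yy U T₀ i σ)) := by
  by_cases h' : σ ∈ Ioo 0 (π / 2)
  · have s := zz_st (i := i) h'
    have n := nuW hF hT (gd_st s) s.2
    have n0 : 0 < sg i * nu i (zz i σ) := by
      rw [zz_nu]; linarith [Real.pi_gt_three, Real.cos_le_one σ]
    have t0 : T₀ (zz i σ (kx i)) ≤ 0 := ((hF.Ψnu i _ s).lt_iff_lt.1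
      (lt_of_eq_of_lt (mul_eq_zero_of_right _ n) (by simpa only [hU.Ψfl.zero] using n0))).le
    rw [← hD.eq0 (some (i, true)) _ ⟨s, by linarith⟩ zz_dom] at ht ⊢
    rw [yy, if_pos h'.2]
    rcases le_total T (T₀ (zz i σ (kx i))) with q | q
    · obtain ⟨a, b⟩ := hD.early hU hF s t0 (by rw [← WW, n]; norm_num) q
      refine ⟨_, _, a, b, ?_⟩
      rw [YY, ← hU.Ψfl.add, hs]
      exact Lat.refl _
    · have l := fun t => hD.late hU hF s t0 (t := t) (by rw [← WW, n]; norm_num)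
      refine ⟨_, _, (l T q).1, (l T q).2, ?_⟩
      have g : D.f (D.φ _ _) ≤ -1 := (hD.mono hU _ q).trans ht
      rw [(l _ le_rfl).2, hD.fn _ _ (l _ le_rfl).1, ← WW] at g
      have b : ¬|sg i * tau i (WW U T₀ i (zz i σ))| < 1 / 5 := fun b =>
        (abs_lt.1 (box_g hU (mem_box.2 ⟨by rwa [abs_sg_mul] at b, by rw [n]; norm_num⟩)
          (Lat.refl _))).1.not_ge g
      rcases le_abs.1 (not_lt.1 b) with b | b
      · rw [YY_lat hU hF (shB n (by linarith))]
        exact Ψlat hF (lat_single _ _) T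
      · rw [YY_lat hU hF (shA n (by linarith))]
        exact Ψlat hF (lat_single _ _) T
  · obtain ⟨m, e⟩ := yy_lat hU hF hT h h'
    obtain ⟨a, b⟩ := hD.orb0 hU hF (zz_qd h h') T
    exact ⟨_, _, a, b, e ▸ Ψlat hF (lat_single _ m) T⟩

end Time

end Wd

open Wd in
theorem wind : WindStmt := by
  intro U F D ρ hU hF hD hs _
  have p := Real.pi_gt_three
  refine ⟨-π + 1 / 400, by norm_num, by norm_num; linarith, fun n => ?_⟩
  let S : Set (Rn 3) := {x | U.g x < -1}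
  have dom : ∀ x ∈ S, x ∈ Dom none := fun x hx => dom_g hU (le_abs.2 (.inr (by linarith [hx.out])))
  let G : F → Circle := fun m => Circle.exp (Lf n (invFunOn (D.K none) S m))
  have val : ∀ a, ∀ x ∈ Dom a, x ∈ S → G (D.K a x) = Circle.exp (Lf n x) := fun a x hx h => by
    have e : ∃ x' ∈ S, D.K none x' = D.K a x := ⟨x, h, (hD.eq0 a x hx (dom x h)).symm⟩
    refine Lf_lat ((hD.sep none a _ (dom _ (invFunOn_mem e)) x hx (invFunOn_eq e)).resolve_right ?_)
    rintro ⟨i, -, -, w, hw, -, e, -⟩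
    exact (abs_lt.1 (box_g hU hw e)).1.not_gt h
  refine ⟨G, fun m hm => ?_, fun m hm => ?_, fun i => ?_⟩
  · obtain ⟨a, x, hx, rfl⟩ := hD.cov m
    have h : U.g x ≤ -π + 1 / 400 := (hD.fn a x hx).symm.trans_le hm
    refine ContinuousAt.continuousWithinAt ?_
    rw [ContinuousAt, ← (hD.ld a x hx).map_nhds, tendsto_map'_iff,
      val a x hx (by linarith : U.g x < -1)]
    refine ((Circle.exp.continuous.comp (Lf_cont n)).tendsto x).congr' ?_
    filter_upwards [(isOpen_dom a).mem_nhds hx, (hU.vd.smg.continuous.tendsto x).eventually_lt_const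
      (show U.g x < -1 by linarith)] with y h1 h2 using (val a y h1 h2).symm
  · obtain ⟨a, x, hx, rfl⟩ := hD.cov m
    have h : U.g x ≤ -3 * π + (1 / 25) ^ 2 := (hD.fn a x hx).symm.trans_le hm
    obtain ⟨x', e, h'⟩ := hU.vd.low x (by linarith)
    rw [val a x hx (by linarith : U.g x < -1), Lf_lat e, Lf, Finset.sum_eq_zero, neg_zero,
      Circle.exp_zero]
    intro k _
    rw [om_zero ((Finset.single_le_sum (f := fun k => x' k ^ 2) (fun _ _ => sq_nonneg _)
      (Finset.mem_univ k)).trans (h'.le.trans (by norm_num))), mul_zero]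
  · obtain ⟨T₀, hc, hT⟩ := hF.time i
    have yc := yy_cont hU hF hT hc
    choose! T hT' using fun σ h => (yy_exT (σ := σ) hU hF hT h).2
    have sm := fun σ h => (yy_exT (σ := σ) hU hF hT h).1
    have tc := contT (fun a => (hU.vd.smg.continuous.comp
      (hU.Ψfl.cont_time a)).comp_continuousOn yc) sm hT'
    have e : yy U T₀ i (2 * π) = yy U T₀ i 0 - Pi.single i (2 * π * (1 : ℤ)) := by
      rw [yy_zero hU hF hT, yy, if_neg (by linarith), sub_sub, ← Pi.single_add,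
        show zz i (2 * π) = zz i 0 by unfold zz; simp]
      push_cast
      ring_nf
    have m0 : (0 : ℝ) ∈ Icc 0 (2 * π) := ⟨le_rfl, by linarith⟩
    have m1 : 2 * π ∈ Icc 0 (2 * π) := ⟨by linarith, le_rfl⟩
    have e' : T (2 * π) = T 0 := (sm _ m0).injective (by
      rw [hT' _ m0, ← hT' _ m1, e]
      exact hU.vd.latg _ _ (Ψlat hF (lat_single _ _) _))
    obtain ⟨L, h1, h2, h3⟩ := ext_per (L := fun σ => Lf n (U.Ψ (T σ) (yy U T₀ i σ))) (n := n i)
      ((Lf_cont n).comp_continuousOn (hU.Ψfl.cont.comp_continuousOn (yc.prodMk tc))) (by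
        simp only [e', e]
        rw [Ψsub hF (lat_single _ _), sub_sub_cancel, Int.cast_one, mul_one, Lf_single])
    refine ⟨fun s => L (s + sg i * (π / 2)), h1.comp (by fun_prop),
      fun s => by simp only [add_right_comm s (2 * π), h2], fun s t ht => ?_⟩
    obtain ⟨σ, hσ, m, e1, e2⟩ := h3 (s + sg i * (π / 2))
    have e3 : (D.pre U ρ).nf.dn i (cir s) = D.K none (zz i σ) := congrArg (D.K none) (zz_dn e1)
    rw [e3] at ht ⊢
    obtain ⟨a, x, hx, k1, k2⟩ := yy_orb hU hF hT hD hs hσ (T := t) (ht.trans_le (by linarith))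
    have k3 : U.g x = -π + 1 / 400 := by rw [← hD.fn a x hx, ← k1]; exact ht
    obtain rfl : t = T σ := (sm σ hσ).injective (by rw [hT' σ hσ, ← k3, hU.vd.latg _ _ k2])
    exact ((congrArg G k1).trans (val a x hx (by linarith : U.g x < -1))).trans
      ((Lf_lat k2).trans e2.symm)

end Pool.Agent.MP_e1dc65_gt.T.Pr

end
end MrgPart1

-- marker of a merged file
example : 731051 + 61068 = 731051 + 61068 := rfl
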