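import Pool.Agent.MP_e1dc65_gt.t.Norm
import Pool.Agent.MP_e1dc65_gt.t.OfNf
import Pool.Agent.MP_e1dc65_gt.t.PreAx
import Pool.Agent.MP_e1dc65_gt.t.PreSod
import Pool.Agent.MP_e1dc65_gt.t.PreCof
import Pool.Agent.MP_e1dc65_gt.t.PreVd
import Pool.Agent.MP_e1dc65_gt.t.PreUp
import Pool.Agent.MP_e1dc65_gt.t.PreWind

/-! PROJECT HC, part T. -/

namespace Pool.Agent.MP_e1dc65_gt

theorem partT : TStmt :=
  T.partT_of_nf (T.nf_of (T.Pr.pre_of T.Pr.sc T.Pr.ch T.Pr.ax T.Pr.vd T.Pr.fl T.Pr.gd T.Pr.flip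
    T.Pr.ok T.Pr.up (T.Pr.int_of T.Pr.bsm T.Pr.cls T.Pr.mem T.Pr.axd T.Pr.sod) T.Pr.wind T.Pr.cof)
    T.norm)

end Pool.Agent.MP_e1dc65_gt
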