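import Pool.Agent.MP_e1dc65_gt.t.PreAx
import Mathlib.Analysis.Calculus.Deriv.MeanValue
import Mathlib.Analysis.Calculus.Deriv.Slope
import Mathlib.Analysis.SpecialFunctions.Log.Deriv
import Mathlib.Analysis.SpecialFunctions.SmoothTransition
import Mathlib.Analysis.InnerProductSpace.Calculus
import Mathlib.Analysis.SpecialFunctions.Sqrt
import Pool.Agent.MP_e1dc65_gt.k.Flow
import Pool.Agent.MP_e1dc65_gt.k.Bump
import Pool.Agent.MP_e1dc65_gt.t2.Disc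

-- ======== part 0: formerly Pool.Agent.MP_e1dc65_gt.t.NormGeo
section MrgPart0

-- ======== part 0: formerly Pool.Agent.MP_e1dc65_gt.t.NormSpec
section MrgPart0

/-! PROJECT HC, block NF: the three steps of `NormStmt`. -/

open scoped ContDiff Manifold Topology Real
open Set Filter Function Module Topology

noncomputable section

namespace Pool.Agent.MP_e1dc65_gt.T

/-- logarithmic at both ends, affine in the middle -/
structure Lam (a₀ a₁ r : ℝ) (Λ : ℝ → ℝ) (k : ℝ) : Prop where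
  sm : ∀ s ∈ Ioo a₀ a₁, ContDiffAt ℝ ∞ Λ s
  pos : ∀ s ∈ Ioo a₀ a₁, 0 < deriv Λ s
  mono : StrictMonoOn Λ (Ioo a₀ a₁)
  bot : ∀ x, 0 < x → x ≤ r ^ 2 → Λ (a₀ + x) = -1 + Real.log (x / r ^ 2) / 2
  top : ∀ x, 0 < x → x ≤ r ^ 2 → Λ (a₁ - x) = 1 - Real.log (x / r ^ 2) / 2
  kpos : 0 < k
  mid : ∀ s ∈ Icc (a₀ + 2 * r ^ 2) (a₁ - 2 * r ^ 2), Λ s = k ^ 2 * (s - (a₀ + a₁) / 2)

/-- row LAM -/
def LamStmt : Prop := ∀ a₀ a₁ r : ℝ, 0 < r → a₀ + 8 * r ^ 2 ≤ a₁ → ∃ Λ k, Lam a₀ a₁ r Λ k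

/-- the closed diagonal arc -/
def Dg {F : Type} (e₀ : Rn 3 → F) : Set F := (fun t : ℝ => e₀ fun _ => t) '' Icc 0 π

/-- the normal form, read on the closed manifold; `g` is the new Morse function -/
structure Geo {F : Mf (Rn 3)} (P : Pre F) (e₀ : Rn 3 → F) (g : F → ℝ) (w : F → E2)
    (th : OpenPartialHomeomorph F (Rn 3)) (th' : R3 → Rn 3) : Prop where
  cl : IsClosed (Dg e₀)
  stay : ∀ τ, ∀ m ∉ Dg e₀, P.φ τ m ∉ Dg e₀
  ρ0 : ∀ m ∈ Dg e₀, P.ρ m = 0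
  rng : ∀ m ∉ Dg e₀, P.f m ∈ Ioo P.a₀ P.a₁
  smw : Sm F (vs E2) w (Dg e₀)ᶜ
  unit : ∀ m ∉ Dg e₀, 1 < |g m| → Df F (vs ℝ) g m (P.ξ m) = 1
  oe : OE F (vs R3) (fun m => (w m, g m)) {m | m ∉ Dg e₀ ∧ (w m, g m) ∈ Out}
  onto : ∀ q ∈ Out, ∃ m ∉ Dg e₀, (w m, g m) = q
  prop : ∀ Q : Set R3, IsCompact Q → IsCompact {m | m ∉ Dg e₀ ∧ (w m, g m) ∈ Q}
  vert : ∀ m ∉ Dg e₀, (w m, g m) ∈ Out → Df F (vs E2) w m (P.ξ m) = 0 ∧ P.ρ m = 0
  emb : IsOpenEmbedding th'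
  src : th.source = ({e₀ q0} ∪ {m | m ∉ Dg e₀ ∧ (w m, g m) ∉ Out})ᶜ
  tgt : th.target = (th' '' Outᶜ)ᶜ
  rel : ∀ m ∉ Dg e₀, (w m, g m) ∈ Out → th m = th' (w m, g m)
  inv : ∃ r > 0, ∀ v, 0 < nsq v → nsq v < r →
    e₀ (q0 + eps • v) ∈ th.source ∧ th (e₀ (q0 + eps • v)) = (nsq v)⁻¹ • v

/-- row GEO -/
def GeoStmt : Prop :=
  ∀ (F : Mf (Rn 3)) [CompactSpace F] (e₀ : Rn 3 → F) (P : Pre F) (Λ : ℝ → ℝ) (k : ℝ), P.Ok e₀ →
    Lam P.a₀ P.a₁ P.r Λ k → ∃ w th th', Geo P e₀ (fun m => Λ (P.f m)) w th th'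

/-- row TRANS: pass to the open submanifold and rescale the Morse charts -/
def TransStmt : Prop :=
  ∀ (F : Mf (Rn 3)) (e₀ : Rn 3 → F) (P : Pre F) (Λ : ℝ → ℝ) (k : ℝ) (w : F → E2)
    (th : OpenPartialHomeomorph F (Rn 3)) (th' : R3 → Rn 3), P.Good e₀ → Lam P.a₀ P.a₁ P.r Λ k →
    Geo P e₀ (fun m => Λ (P.f m)) w th th' →
    ∃ (N : NF) (em : N.F → F), N.Good ∧ N.End F e₀ em th th'

theorem norm_of (h1 : LamStmt) (h2 : GeoStmt) (h3 : TransStmt) : NormStmt := by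
  intro F _ e₀ P hP
  obtain ⟨Λ, k, hΛ⟩ := h1 P.a₀ P.a₁ P.r hP.ok.rpos
    (by nlinarith [hP.ok.lo, hP.ok.mid, hP.ok.hi, sq_nonneg P.δ])
  obtain ⟨w, th, th', hG⟩ := h2 F e₀ P Λ k hP.ok hΛ
  obtain ⟨N, em, h⟩ := h3 F e₀ P Λ k w th th' hP hΛ hG
  exact ⟨N, em, th, th', h⟩

end Pool.Agent.MP_e1dc65_gt.T

end
end MrgPart0

-- ======== part 1: formerly Pool.Agent.MP_e1dc65_gt.t.NormLam
section MrgPart1

/-! PROJECT HC, block NF, row LAM: the reparametrisation of the Morse function. -/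

open scoped ContDiff Topology
open Set Filter

noncomputable section

namespace Pool.Agent.MP_e1dc65_gt.T

namespace LamP
open Real
variable {R L x : ℝ}

/-- the correction near an end -/
def D (R L x : ℝ) : ℝ := smoothTransition (2 - x / R) * (-1 + log (x / R) / 2 - (x / L - 1 / 2))

theorem D_lo (hR : 0 < R) (h : x ≤ R) : D R L x = -1 + log (x / R) / 2 - (x / L - 1 / 2) := by
  rw [D, smoothTransition.one_of_one_le (by linarith [(div_le_one hR).2 h]), one_mul]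

theorem D_hi (hR : 0 < R) (h : 2 * R ≤ x) : D R L x = 0 := by
  rw [D, smoothTransition.zero_of_nonpos (by linarith [(le_div_iff₀ hR).2 h]), zero_mul]

theorem D_sm (hR : 0 < R) (hx : 0 < x) : ContDiffAt ℝ ∞ (D R L) x :=
  (smoothTransition.contDiff.contDiffAt.comp x (contDiffAt_const.sub (contDiffAt_id.div_const R))).mul
    ((contDiffAt_const.add (((contDiffAt_id.div_const R).log (div_pos hx hR).ne').div_const 2)).sub
      ((contDiffAt_id.div_const L).sub contDiffAt_const))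

theorem D_der (hR : 0 < R) (hL : 4 * R ≤ L) (hx : 0 < x) : ∃ d, 0 ≤ d ∧ HasDerivAt (D R L) d x := by
  rcases lt_or_ge (2 * R) x with h | h
  · refine ⟨0, le_rfl, (hasDerivAt_const x (0 : ℝ)).congr_of_eventuallyEq ?_⟩
    filter_upwards [Ioi_mem_nhds h] with y hy using D_hi hR (le_of_lt hy)
  have h0 : 0 < L := by linarith
  have h1 := ((smoothTransition.contDiff (n := 1)).differentiable (by simp)
    (2 - x / R)).hasDerivAt.comp x (((hasDerivAt_id x).div_const R).const_sub 2)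
  have h2 := (((((hasDerivAt_id x).div_const R).log (div_pos hx hR).ne').div_const 2).const_add
    (-1)).sub (((hasDerivAt_id x).div_const L).sub_const (1 / 2))
  refine ⟨_, add_nonneg (mul_nonneg_of_nonpos_of_nonpos (mul_nonpos_of_nonneg_of_nonpos
    smoothTransition.monotone.deriv_nonneg (neg_nonpos.2 (by positivity))) ?_)
    (mul_nonneg (smoothTransition.nonneg _) (sub_nonneg.2 ?_)), h1.mul h2⟩
  · have := log_le_sub_one_of_pos (div_pos hx hR)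
    have := (div_le_iff₀ hR).2 h
    have := div_pos hx h0
    change -1 + log (x / R) / 2 - (x / L - 1 / 2) ≤ 0
    linarith
  · rw [show 1 / R / (id x / R) / 2 = 1 / (2 * x) by simp only [id]; field_simp]
    exact one_div_le_one_div_of_le (by linarith) (by linarith)

end LamP

open LamP in
/-- row LAM -/
theorem lam : LamStmt := fun a₀ a₁ r hr h => by
  have hR : 0 < r ^ 2 := by positivity
  have hL : 0 < a₁ - a₀ := by linarith
  obtain ⟨Λ, hΛ⟩ : ∃ Λ : ℝ → ℝ, Λ = fun s => (s - (a₀ + a₁) / 2) / (a₁ - a₀) +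
    D (r ^ 2) (a₁ - a₀) (s - a₀) - D (r ^ 2) (a₁ - a₀) (a₁ - s) := ⟨_, rfl⟩
  have sm : ∀ s ∈ Ioo a₀ a₁, ContDiffAt ℝ ∞ Λ s := fun s hs => hΛ ▸
    (((contDiffAt_id.sub contDiffAt_const).div_const _).add
      ((D_sm hR (sub_pos.2 hs.1)).comp s (contDiffAt_id.sub contDiffAt_const))).sub
      ((D_sm hR (sub_pos.2 hs.2)).comp s (contDiffAt_const.sub contDiffAt_id))
  have pos : ∀ s ∈ Ioo a₀ a₁, 0 < deriv Λ s := fun s hs => by
    obtain ⟨d, h1, h2⟩ := D_der (L := a₁ - a₀) hR (by linarith) (sub_pos.2 hs.1)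
    obtain ⟨e, h3, h4⟩ := D_der (L := a₁ - a₀) hR (by linarith) (sub_pos.2 hs.2)
    have h5 : HasDerivAt Λ (1 / (a₁ - a₀) + d - -e) s := by
      rw [hΛ]
      exact ((((hasDerivAt_id s).sub_const ((a₀ + a₁) / 2)).div_const (a₁ - a₀)).add
        (h2.comp_sub_const s a₀)).sub (h4.comp_const_sub a₁ s)
    rw [h5.deriv]
    linarith [one_div_pos.2 hL]
  refine ⟨Λ, √(1 / (a₁ - a₀)), sm, pos, strictMonoOn_of_deriv_pos (convex_Ioo _ _)
    (fun s hs => (sm s hs).continuousAt.continuousWithinAt) (by rwa [interior_Ioo]),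
    fun x _ hx => ?_, fun x _ hx => ?_, Real.sqrt_pos.2 (one_div_pos.2 hL), fun s hs => ?_⟩
  · simp only [hΛ, add_sub_cancel_left]
    rw [D_lo hR hx, D_hi hR (by linarith)]
    field_simp
    ring
  · simp only [hΛ, sub_sub_cancel]
    rw [D_lo hR hx, D_hi hR (by linarith)]
    field_simp
    ring
  · simp only [hΛ]
    rw [D_hi hR (by linarith [hs.1]), D_hi hR (by linarith [hs.2]),
      Real.sq_sqrt (one_div_pos.2 hL).le]
    ring

end Pool.Agent.MP_e1dc65_gt.T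

end
end MrgPart1

-- ======== part 2: formerly Pool.Agent.MP_e1dc65_gt.t.NormSt
section MrgPart2

/-! PROJECT HC, block NF: polar coordinates with stereographic projection. -/

open scoped ContDiff Manifold Topology Real
open Set Filter Function Module Topology

noncomputable section

namespace Pool.Agent.MP_e1dc65_gt.T.St

/-- the Euclidean norm of `R3` -/
def nr (p : R3) : ℝ := √(‖p.1‖ ^ 2 + p.2 ^ 2)

theorem nr_nonneg (p : R3) : 0 ≤ nr p := Real.sqrt_nonneg _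
theorem nr_sq (p : R3) : nr p ^ 2 = ‖p.1‖ ^ 2 + p.2 ^ 2 := Real.sq_sqrt (by positivity)
theorem nr_eq {p : R3} {n : ℝ} (hn : 0 ≤ n) (h : ‖p.1‖ ^ 2 + p.2 ^ 2 = n ^ 2) : nr p = n := by
  rw [nr, h, Real.sqrt_sq hn]
theorem nr_smul {c : ℝ} (hc : 0 ≤ c) (p : R3) : nr (c • p) = c * nr p :=
  nr_eq (mul_nonneg hc (nr_nonneg p)) (by
    rw [mul_pow, nr_sq, Prod.smul_fst, Prod.smul_snd, norm_smul, Real.norm_of_nonneg hc, smul_eq_mul]
    ring)
theorem nr_pos {p : R3} (h : p ≠ 0) : 0 < nr p := by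
  refine (nr_nonneg p).lt_of_ne fun e => h ?_
  have := nr_sq p
  rw [← e] at this
  exact Prod.ext (norm_eq_zero.1 (by nlinarith [sq_nonneg p.2, norm_nonneg p.1]))
    (pow_eq_zero_iff two_ne_zero |>.1 (by nlinarith [sq_nonneg p.2, sq_nonneg ‖p.1‖]))
@[simp] theorem nr_zero : nr 0 = 0 := by simp [nr]
theorem abs_le_nr (p : R3) : |p.2| ≤ nr p :=
  abs_le_of_sq_le_sq' (by rw [nr_sq]; nlinarith [sq_nonneg ‖p.1‖]) (nr_nonneg p) |> abs_le.2
theorem norm_le_nr (p : R3) : ‖p.1‖ ≤ nr p :=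
  (abs_le_of_sq_le_sq' (by rw [nr_sq]; nlinarith [sq_nonneg p.2]) (nr_nonneg p)).2
theorem cd_sq : ContDiff ℝ ∞ fun p : R3 => ‖p.1‖ ^ 2 + p.2 ^ 2 :=
  (contDiff_fst.norm_sq ℝ).add (contDiff_snd.pow 2)
theorem nr_cont : Continuous nr := cd_sq.continuous.sqrt
theorem nr_cd {p : R3} (h : p ≠ 0) : ContDiffAt ℝ ∞ nr p :=
  cd_sq.contDiffAt.sqrt (by rw [← nr_sq]; exact pow_ne_zero 2 (nr_pos h).ne')

/-- the complement of the closed ray -/
def Nr : Set R3 := {z | 0 < nr z + z.2}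

theorem nr_open : IsOpen Nr := isOpen_lt continuous_const (nr_cont.add continuous_snd)
theorem not_Nr {z : R3} : z ∉ Nr ↔ z.1 = 0 ∧ z.2 ≤ 0 := by
  have h1 := abs_le.1 (abs_le_nr z)
  have h2 := nr_sq z
  rw [Nr, mem_ofPred_eq, not_lt]
  refine ⟨fun h => ⟨norm_eq_zero.1 (pow_eq_zero_iff two_ne_zero |>.1 ?_), by linarith [nr_nonneg z]⟩,
    fun h => ?_⟩
  · rw [show nr z = -z.2 by linarith] at h2; linarith
  · rw [nr_eq (neg_nonneg.2 h.2) (by simp [h.1])]; simp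
theorem ne_Nr {z : R3} (h : z ∈ Nr) : z ≠ 0 := fun e => not_Nr.2 (by simp [e]) h
theorem smul_Nr {z : R3} (h : z ∈ Nr) {c : ℝ} (hc : 0 < c) : c • z ∈ Nr := by
  rw [Nr, mem_ofPred_eq, nr_smul hc.le, Prod.smul_snd, smul_eq_mul, ← mul_add]
  exact mul_pos hc h

variable {c R : ℝ}

def Θ (c R : ℝ) (q : R3) : R3 :=
  (c * Real.exp q.2 / (R ^ 2 * ‖q.1‖ ^ 2 + 1)) • ((2 * R) • q.1, 1 - R ^ 2 * ‖q.1‖ ^ 2)
def G (R : ℝ) (z : R3) : E2 := (R * (nr z + z.2))⁻¹ • z.1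
def Ψ (c R : ℝ) (z : R3) : R3 := (G R z, Real.log (nr z / c))

theorem G_smul {a : ℝ} (ha : 0 < a) (z : R3) : G R (a • z) = G R z := by
  rw [G, G, nr_smul ha.le, Prod.smul_snd, Prod.smul_fst, smul_smul, smul_eq_mul, ← mul_add,
    mul_left_comm, mul_inv, mul_comm, ← mul_assoc, mul_inv_cancel₀ ha.ne', one_mul]

theorem nr_Θ (hc : 0 < c) (q : R3) : nr (Θ c R q) = c * Real.exp q.2 := by
  rw [Θ, nr_smul (by positivity), nr_eq (n := R ^ 2 * ‖q.1‖ ^ 2 + 1) (by positivity),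
    div_mul_cancel₀ _ (by positivity)]
  rw [norm_smul, mul_pow, Real.norm_eq_abs, sq_abs]
  ring
theorem add_Θ (hc : 0 < c) (q : R3) : nr (Θ c R q) + (Θ c R q).2 =
    2 * (c * Real.exp q.2 / (R ^ 2 * ‖q.1‖ ^ 2 + 1)) := by
  rw [nr_Θ hc, Θ, Prod.smul_snd, smul_eq_mul]
  field_simp
  ring
theorem Θ_mem (hc : 0 < c) (q : R3) : Θ c R q ∈ Nr := by
  rw [Nr, mem_ofPred_eq, add_Θ hc]; positivity
theorem Ψ_Θ (hc : 0 < c) (hR : 0 < R) (q : R3) : Ψ c R (Θ c R q) = q := by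
  refine Prod.ext ?_ ?_
  · change G R _ = _
    rw [G, add_Θ hc, Θ, Prod.smul_fst, smul_smul, smul_smul]
    convert one_smul ℝ q.1
    field_simp
  · change Real.log _ = _
    rw [nr_Θ hc, mul_div_cancel_left₀ _ hc.ne', Real.log_exp]
theorem Θ_Ψ (hc : 0 < c) (hR : 0 < R) {z : R3} (h : z ∈ Nr) : Θ c R (Ψ c R z) = z := by
  have h0 : 0 < nr z + z.2 := h
  have h1 := nr_pos (ne_Nr h)
  have h2 : R ^ 2 * ‖G R z‖ ^ 2 = (nr z - z.2) / (nr z + z.2) := by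
    rw [G, norm_smul, mul_pow, Real.norm_eq_abs, sq_abs,
      show ‖z.1‖ ^ 2 = (nr z - z.2) * (nr z + z.2) by linarith [nr_sq z]]
    field_simp
  simp only [Θ, Ψ, h2]
  rw [Real.exp_log (by positivity),
    show (nr z - z.2) / (nr z + z.2) + 1 = 2 * nr z / (nr z + z.2) by field_simp; ring]
  refine Prod.ext ?_ ?_
  · rw [Prod.smul_fst, G, smul_smul, smul_smul]
    convert one_smul ℝ z.1
    field_simp
  · rw [Prod.smul_snd, smul_eq_mul]
    field_simp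
    ring

theorem G_cd (hR : 0 < R) {z : R3} (h : z ∈ Nr) : ContDiffAt ℝ ∞ (G R) z :=
  ((contDiffAt_const.mul ((nr_cd (ne_Nr h)).add contDiffAt_snd)).inv (mul_pos hR h).ne').smul
    contDiffAt_fst
theorem Ψ_cd (hc : 0 < c) (hR : 0 < R) {z : R3} (h : z ∈ Nr) : ContDiffAt ℝ ∞ (Ψ c R) z :=
  (G_cd hR h).prodMk (((nr_cd (ne_Nr h)).div_const c).log (div_pos (nr_pos (ne_Nr h)) hc).ne')
theorem Θ_cd : ContDiff ℝ ∞ (Θ c R) :=
  have h : ContDiff ℝ ∞ fun q : R3 => R ^ 2 * ‖q.1‖ ^ 2 := contDiff_const.mul (contDiff_fst.norm_sq ℝ)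
  ((contDiff_const.mul contDiff_snd.exp).div (h.add contDiff_const) fun _ => by positivity).smul
    ((contDiff_fst.const_smul _).prodMk (contDiff_const.sub h))

theorem oe_Ψ (hc : 0 < c) (hR : 0 < R) : OE (vs R3) (vs R3) (Ψ c R) Nr :=
  oe_of_inv nr_open isOpen_univ (fun _ h => smAt_vs.2 (Ψ_cd hc hR h))
    (fun _ _ => smAt_vs.2 Θ_cd.contDiffAt) (mapsTo_univ _ _) (fun q _ => Θ_mem hc q)
    (fun _ => Θ_Ψ hc hR) fun q _ => Ψ_Θ hc hR q
theorem oe_Θ (hc : 0 < c) (hR : 0 < R) : OE (vs R3) (vs R3) (Θ c R) univ :=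
  oe_of_inv isOpen_univ nr_open (fun _ _ => smAt_vs.2 Θ_cd.contDiffAt)
    (fun _ h => smAt_vs.2 (Ψ_cd hc hR h)) (fun q _ => Θ_mem hc q) (mapsTo_univ _ _)
    (fun q _ => Ψ_Θ hc hR q) fun _ => Θ_Ψ hc hR

/-- the far part of the plane is a thin cone round the ray -/
theorem cone {κ : ℝ} (hκ : 0 < κ) {z : R3} (h : z ∈ Nr) (h1 : 1 < ‖G (1 + 4 / κ) z‖) :
    ‖z.1‖ < κ / 2 * -z.2 := by
  have hR : 0 < 1 + 4 / κ := by positivity
  rw [← Θ_Ψ one_pos hR h]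
  set x := (1 + 4 / κ) * ‖G (1 + 4 / κ) z‖ with hx
  have h2 : 1 + 4 / κ < x := lt_mul_of_one_lt_right hR h1
  have h3 : 4 < κ * (x - 1) := by
    rw [← div_lt_iff₀' hκ]; linarith
  have e1 : (1 + 4 / κ) ^ 2 * ‖G (1 + 4 / κ) z‖ ^ 2 = x ^ 2 := by rw [hx, mul_pow]
  simp only [Θ, Ψ, e1, Prod.smul_fst, Prod.smul_snd, norm_smul, smul_eq_mul]
  rw [Real.norm_of_nonneg (by positivity), Real.norm_of_nonneg (by positivity), mul_assoc 2, ← hx,
    ← mul_neg, mul_left_comm (κ / 2)]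
  refine mul_lt_mul_of_pos_left ?_ (by positivity)
  nlinarith

/-- the derivative of `G` along the radial field vanishes -/
theorem G_rad (hR : 0 < R) {z : R3} (h : z ∈ Nr) : fderiv ℝ (G R) z z = 0 := by
  have h1 : HasDerivAt (fun t : ℝ => t • z) z 1 := by simpa using (hasDerivAt_id (1 : ℝ)).smul_const z
  have h2 := ((G_cd hR h).differentiableAt (by simp)).hasFDerivAt.comp_hasDerivAt_of_eq 1 h1
    (one_smul ℝ z).symm
  refine h2.unique ((hasDerivAt_const 1 (G R z)).congr_of_eventuallyEq ?_)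
  filter_upwards [lt_mem_nhds one_pos] with t ht using G_smul ht z

theorem out_open : IsOpen Out :=
  (isOpen_lt continuous_const continuous_fst.norm).union
    (isOpen_lt continuous_const continuous_snd.abs)
theorem box_cpt : IsCompact Outᶜ := by
  convert (isCompact_closedBall (0 : E2) 1).prod (isCompact_closedBall (0 : ℝ) 1) using 1
  ext p
  simp [Out]

/-- an open embedding as a part homeomorphism -/
def oph {E E' : Type} [NormedAddCommGroup E] [NormedSpace ℝ E] [NormedAddCommGroup E']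
    [NormedSpace ℝ E'] {X : Mf E} {Y : Mf E'} {f : X → Y} {U : Set X} (h : OE X Y f U) :
    OpenPartialHomeomorph X Y where
  toFun := f
  invFun := invFunOn f U
  source := U
  target := f '' U
  map_source' _ hx := mem_image_of_mem f hx
  map_target' := by rintro _ ⟨x, hx, rfl⟩; rwa [h.left hx]
  left_inv' _ hx := h.left hx
  right_inv' := by rintro _ ⟨x, hx, rfl⟩; rw [h.left hx]
  open_source := h.op
  open_target := h.symm.op
  continuousOn_toFun := h.sm.contOn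
  continuousOn_invFun := h.symm.sm.contOn

end Pool.Agent.MP_e1dc65_gt.T.St

end
end MrgPart2

-- ======== part 3: formerly Pool.Agent.MP_e1dc65_gt.t.NormCore
section MrgPart3

/-! PROJECT HC, block NF: the end chart in coordinates round the diagonal. -/

open scoped ContDiff Manifold Topology Real
open Set Filter Function Module Topology

noncomputable section

namespace Pool.Agent.MP_e1dc65_gt.T.St

structure Dt (F : Mf (Rn 3)) where
  ψ : R3 → F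
  f : F → ℝ
  ξ : F → Rn 3
  η : ℝ → ℝ
  Λ : ℝ → ℝ
  l : ℝ
  r : ℝ
  κ : ℝ
  a₀ : ℝ
  a₁ : ℝ
  c : ℝ
  k : ℝ

namespace Dt
variable {F : Mf (Rn 3)} (D : Dt F)

def q : R3 := (0, D.l)
def O : Set R3 :=
  {p | nr p < 2 * D.r ∨ nr (p - D.q) < 2 * D.r ∨ (p.2 ∈ Ioo 0 D.l ∧ ‖p.1‖ < D.κ * D.η p.2)}
def X (p : R3) : R3 := (deriv D.η p.2 • p.1, D.η p.2)
def V (p : R3) : R3 := (p.1, -D.η p.2)
def g (p : R3) : ℝ := D.Λ (D.f (D.ψ p))
def T (p : R3) : R3 := (D.c * Real.exp (D.g p) / nr (D.V p)) • D.V p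
def Δ : Set R3 := {p | p.1 = 0 ∧ p.2 ∈ Icc 0 D.l}
def R : ℝ := 1 + 4 / D.κ
def S : Set R3 := {p | p ∈ D.O ∧ p ≠ D.q ∧ D.T p ∉ Θ D.c D.R '' Outᶜ}
def ln (u : E2) (h : ℝ) : R3 := (D.η h • u, h)

structure Ok : Prop where
  lam : Lam D.a₀ D.a₁ D.r D.Λ D.k
  r0 : 0 < D.r
  κ0 : 0 < D.κ
  c0 : 0 < D.c
  rl : 2 * D.r ≤ D.l
  gap : D.a₀ + 8 * D.r ^ 2 ≤ D.a₁
  ηsm : ContDiff ℝ ∞ D.η
  ηpos : ∀ t ∈ Ioo 0 D.l, 0 < D.η t
  η0 : ∀ t, |t| < 2 * D.r → D.η t = t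
  η1 : ∀ t, |t - D.l| < 2 * D.r → D.η t = D.l - t
  oe : OE (vs R3) F D.ψ D.O
  smf : Sm F (vs ℝ) D.f univ
  ax : ∀ p ∈ D.O, Df (vs R3) F D.ψ p (D.X p) = D.ξ (D.ψ p)
  pos : ∀ p ∈ D.O, p ≠ 0 → p ≠ D.q → 0 < Df F (vs ℝ) D.f (D.ψ p) (D.ξ (D.ψ p))
  bot : ∀ p, nr p < 2 * D.r → D.f (D.ψ p) = D.a₀ + nr p ^ 2
  top : ∀ p, nr (p - D.q) < 2 * D.r → D.f (D.ψ p) = D.a₁ - nr (p - D.q) ^ 2
  bot' : ∀ m, D.f m < D.a₀ + 4 * D.r ^ 2 → ∃ p, nr p < 2 * D.r ∧ m = D.ψ p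
  top' : ∀ m, D.a₁ - 4 * D.r ^ 2 < D.f m → ∃ p, nr (p - D.q) < 2 * D.r ∧ m = D.ψ p

variable {D} (h : D.Ok) {p p' : R3} {m : F}
include h

theorem Ok.R0 : 0 < D.R := by have := h.κ0; unfold R; positivity
theorem Ok.O0 : (0 : R3) ∈ D.O := .inl (by have := h.r0; simpa)
theorem Ok.Oq : D.q ∈ D.O := .inr (.inl (by have := h.r0; simpa))

theorem Ok.rng (h0 : m ≠ D.ψ 0) (h1 : m ≠ D.ψ D.q) : D.f m ∈ Ioo D.a₀ D.a₁ := by
  have := h.r0
  constructor <;> by_contra! e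
  · obtain ⟨p, hp, rfl⟩ := h.bot' m (by nlinarith)
    rw [h.bot p hp] at e
    exact h0 (congrArg _ (by_contra fun k => by nlinarith [nr_pos k]))
  · obtain ⟨p, hp, rfl⟩ := h.top' m (by nlinarith)
    rw [h.top p hp] at e
    exact h1 (congrArg _ (by_contra fun k => by nlinarith [nr_pos (sub_ne_zero.2 k)]))
theorem Ok.rng' (hp : p ∈ D.O) (h0 : p ≠ 0) (h1 : p ≠ D.q) : D.f (D.ψ p) ∈ Ioo D.a₀ D.a₁ :=
  h.rng (fun e => h0 (h.oe.inj hp h.O0 e)) fun e => h1 (h.oe.inj hp h.Oq e)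

theorem Ok.low (hm : D.f m ∈ Ioo D.a₀ D.a₁) (e : D.Λ (D.f m) < -1) : ∃ p, nr p < D.r ∧ m = D.ψ p := by
  have := h.r0
  have h1 : D.f m < D.a₀ + D.r ^ 2 := by
    rw [← h.lam.mono.lt_iff_lt hm ⟨by nlinarith, by nlinarith [h.gap]⟩,
      h.lam.bot _ (by positivity) le_rfl, div_self (by positivity)]
    simpa
  obtain ⟨p, hp, rfl⟩ := h.bot' m (by nlinarith)
  rw [h.bot p hp] at h1
  exact ⟨p, lt_of_pow_lt_pow_left₀ 2 this.le (by linarith), rfl⟩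
theorem Ok.high (hm : D.f m ∈ Ioo D.a₀ D.a₁) (e : 1 < D.Λ (D.f m)) :
    ∃ p, nr (p - D.q) < D.r ∧ m = D.ψ p := by
  have := h.r0
  have h1 : D.a₁ - D.r ^ 2 < D.f m := by
    rw [← h.lam.mono.lt_iff_lt ⟨by nlinarith [h.gap], by nlinarith⟩ hm,
      h.lam.top _ (by positivity) le_rfl, div_self (by positivity)]
    simpa
  obtain ⟨p, hp, rfl⟩ := h.top' m (by nlinarith)
  rw [h.top p hp] at h1
  exact ⟨p, lt_of_pow_lt_pow_left₀ 2 this.le (by linarith), rfl⟩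
theorem Ok.low' (hp : p ∈ D.O) (h0 : p ≠ 0) (h1 : p ≠ D.q) (e : D.g p < -1) : nr p < D.r := by
  obtain ⟨p', k, e⟩ := h.low (h.rng' hp h0 h1) e
  rwa [h.oe.inj hp (.inl (by linarith [h.r0])) e]
theorem Ok.high' (hp : p ∈ D.O) (h0 : p ≠ 0) (h1 : p ≠ D.q) (e : 1 < D.g p) : nr (p - D.q) < D.r := by
  obtain ⟨p', k, e⟩ := h.high (h.rng' hp h0 h1) e
  rwa [h.oe.inj hp (.inr (.inl (by linarith [h.r0]))) e]

theorem Ok.gbot (h0 : p ≠ 0) (hp : nr p ≤ D.r) : D.g p = -1 + Real.log (nr p / D.r) := by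
  have := h.r0
  rw [g, h.bot p (by linarith), h.lam.bot _ (pow_pos (nr_pos h0) 2)
    (pow_le_pow_left₀ (nr_nonneg p) hp 2), ← div_pow, Real.log_pow]
  push_cast; ring
theorem Ok.gtop (h0 : p ≠ D.q) (hp : nr (p - D.q) ≤ D.r) :
    D.g p = 1 - Real.log (nr (p - D.q) / D.r) := by
  have := h.r0
  rw [g, h.top p (by linarith), h.lam.top _ (pow_pos (nr_pos (sub_ne_zero.2 h0)) 2)
    (pow_le_pow_left₀ (nr_nonneg _) hp 2), ← div_pow, Real.log_pow]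
  push_cast; ring
theorem Ok.Vbot (hp : nr p < 2 * D.r) : D.V p = (p.1, -p.2) := by
  rw [V, h.η0 _ ((abs_le_nr p).trans_lt hp)]
theorem Ok.Vtop (hp : nr (p - D.q) < 2 * D.r) : D.V p = p - D.q := by
  rw [V, h.η1 _ ((abs_le_nr _).trans_lt hp)]
  simp [q, Prod.ext_iff]
theorem Ok.d0 {t : ℝ} (ht : |t| < 2 * D.r) : deriv D.η t = 1 := by
  rw [EventuallyEq.deriv_eq (f := id) ((isOpen_lt continuous_abs continuous_const).eventually_mem ht
    |>.mono h.η0), deriv_id]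
theorem Ok.d1 {t : ℝ} (ht : |t - D.l| < 2 * D.r) : deriv D.η t = -1 := by
  rw [EventuallyEq.deriv_eq (f := fun s => D.l - s) ((isOpen_lt (f := fun s => |s - D.l|)
    (by fun_prop) continuous_const).eventually_mem ht |>.mono h.η1)]
  exact ((hasDerivAt_id t).const_sub D.l).deriv

omit h in
theorem cases (hp : p ∈ D.O) : |p.2| < 2 * D.r ∨ |p.2 - D.l| < 2 * D.r ∨ p.2 ∈ Ioo 0 D.l :=
  hp.imp (abs_le_nr p).trans_lt (Or.imp (abs_le_nr (p - D.q)).trans_lt And.left)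
theorem Ok.η_pos (hp : p ∈ D.O) : 0 < D.η p.2 ↔ p.2 ∈ Ioo 0 D.l := by
  refine ⟨fun e => ?_, h.ηpos _⟩
  rcases cases hp with k | k | k
  · rw [h.η0 _ k] at e; exact ⟨e, by linarith [h.rl, (abs_lt.1 k).2]⟩
  · rw [h.η1 _ k] at e; exact ⟨by linarith [h.rl, (abs_lt.1 k).1], by linarith⟩
  · exact k
theorem Ok.η_nonneg {t : ℝ} (ht : t ∈ Icc 0 D.l) : 0 ≤ D.η t := by
  have := h.r0
  rcases ht.1.eq_or_lt with rfl | h1
  · rw [h.η0 _ (by simpa)]
  rcases ht.2.eq_or_lt with rfl | h2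
  · rw [h.η1 _ (by simpa), sub_self]
  · exact (h.ηpos _ ⟨h1, h2⟩).le
theorem Ok.V_mem (hp : p ∈ D.O) : D.V p ∈ Nr ↔ p ∉ D.Δ := by
  rw [← not_iff_not, not_not, not_Nr]
  refine and_congr_right fun _ => ⟨fun e => ?_, fun e => neg_nonpos.2 (h.η_nonneg e)⟩
  have e : 0 ≤ D.η p.2 := neg_nonpos.1 e
  rcases cases hp with k | k | k
  · rw [h.η0 _ k] at e; exact ⟨e, by linarith [h.rl, (abs_lt.1 k).2]⟩
  · rw [h.η1 _ k] at e; exact ⟨by linarith [h.rl, (abs_lt.1 k).1], by linarith⟩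
  · exact Ioo_subset_Icc_self k
theorem Ok.V_ne (hp : p ∈ D.O) (h0 : p ≠ 0) (h1 : p ≠ D.q) : D.V p ≠ 0 := fun e => by
  have e1 : p.1 = 0 := congrArg Prod.fst e
  have e2 : D.η p.2 = 0 := neg_eq_zero.1 (congrArg Prod.snd e)
  rcases cases hp with k | k | k
  · exact h0 (Prod.ext e1 ((h.η0 _ k).symm.trans e2))
  · exact h1 (Prod.ext e1 (sub_eq_zero.1 ((h.η1 _ k).symm.trans e2)).symm)
  · exact (h.ηpos _ k).ne' e2
theorem Ok.ne0 (hp : p ∉ D.Δ) : p ≠ 0 := by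
  rintro rfl; exact hp ⟨rfl, le_rfl, by have := h.rl; have := h.r0; change 0 ≤ _; linarith⟩
theorem Ok.neq (hp : p ∉ D.Δ) : p ≠ D.q := by
  rintro rfl; exact hp ⟨rfl, by have := h.rl; have := h.r0; change 0 ≤ D.l; linarith, le_rfl⟩
theorem Ok.Δ_sub (hp : p ∈ D.Δ) : p ∈ D.O := by
  rcases hp.2.1.eq_or_lt with e | h1
  · exact (Prod.ext hp.1 e.symm : p = 0) ▸ h.O0
  rcases hp.2.2.eq_or_lt with e | h2
  · exact (Prod.ext hp.1 e : p = D.q) ▸ h.Oq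
  · exact .inr (.inr ⟨⟨h1, h2⟩, by rw [hp.1, norm_zero]; exact mul_pos h.κ0 (h.ηpos _ ⟨h1, h2⟩)⟩)

theorem Ok.μ_pos (hV : D.V p ≠ 0) : 0 < D.c * Real.exp (D.g p) / nr (D.V p) :=
  div_pos (mul_pos h.c0 (Real.exp_pos _)) (nr_pos hV)
theorem Ok.nr_T (hV : D.V p ≠ 0) : nr (D.T p) = D.c * Real.exp (D.g p) := by
  rw [T, nr_smul (h.μ_pos hV).le, div_mul_cancel₀ _ (nr_pos hV).ne']
theorem Ok.T_mem (hV : D.V p ∈ Nr) : D.T p ∈ Nr := smul_Nr hV (h.μ_pos (ne_Nr hV))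
theorem Ok.Ψ_T (hV : D.V p ≠ 0) : Ψ D.c D.R (D.T p) = (G D.R (D.V p), D.g p) := by
  rw [Ψ, h.nr_T hV, mul_div_cancel_left₀ _ h.c0.ne', Real.log_exp, T, G_smul (h.μ_pos hV)]
theorem Ok.T_eq_Θ (hV : D.V p ∈ Nr) : D.T p = Θ D.c D.R (G D.R (D.V p), D.g p) := by
  rw [← h.Ψ_T (ne_Nr hV), Θ_Ψ h.c0 h.R0 (h.T_mem hV)]
omit h in
theorem T_eq {z : R3} {a : ℝ} (ha : 0 < a) (hz : z ≠ 0) (e : D.V p = a • z)
    (e' : D.c * Real.exp (D.g p) = nr z) : D.T p = z := by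
  have := nr_pos hz
  rw [T, e', e, nr_smul ha.le, smul_smul]
  convert one_smul ℝ z
  field_simp
theorem Ok.T_zero : D.T 0 = 0 := by
  rw [T, h.Vbot (by have := h.r0; simpa)]; simp [Prod.ext_iff]
theorem Ok.Tbot (hp : nr p ≤ D.r) : D.T p = (D.c / (Real.exp 1 * D.r)) • (p.1, -p.2) := by
  have := h.r0
  by_cases h0 : p = 0
  · rw [h0, h.T_zero]; simp [Prod.ext_iff]
  have h1 := nr_pos h0
  rw [T, h.Vbot (by linarith), h.gbot h0 hp, Real.exp_add, Real.exp_log (by positivity),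
    show nr (p.1, -p.2) = nr p by simp [nr], Real.exp_neg]
  congr 1
  field_simp
theorem Ok.Ttop (h0 : p ≠ D.q) (hp : nr (p - D.q) ≤ D.r) :
    D.T p = (D.c * Real.exp 1 * D.r / nr (p - D.q) ^ 2) • (p - D.q) := by
  have := h.r0
  have h1 := nr_pos (sub_ne_zero.2 h0)
  rw [T, h.Vtop (by linarith), h.gtop h0 hp, Real.exp_sub, Real.exp_log (by positivity)]
  congr 1
  field_simp

theorem Ok.mem_S (hp : p ∈ D.O) (hd : p ∉ D.Δ) : p ∈ D.S ↔ (G D.R (D.V p), D.g p) ∈ Out := by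
  rw [S, mem_ofPred_eq, h.T_eq_Θ ((h.V_mem hp).2 hd),
    (injOn_univ.1 (oe_Θ h.c0 h.R0).inj).mem_set_image]
  simp [hp, h.neq hd]
theorem Ok.Δ_S (hd : p ∈ D.Δ) (h1 : p ≠ D.q) : p ∈ D.S ∧ D.T p ∉ Nr := by
  have : D.T p ∉ Nr := not_Nr.2 ⟨by simp [T, V, hd.1], mul_nonpos_of_nonneg_of_nonpos
    (div_nonneg (mul_pos h.c0 (Real.exp_pos _)).le (nr_nonneg _)) (neg_nonpos.2 (h.η_nonneg hd.2))⟩
  exact ⟨⟨h.Δ_sub hd, h1, fun ⟨w, _, e⟩ => this (e ▸ Θ_mem h.c0 w)⟩, this⟩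
/-- points of `S` lie in a small ball or in the narrow tube -/
theorem Ok.S_cases (hp : p ∈ D.S) (h0 : p ≠ 0) :
    D.g p < -1 ∨ 1 < D.g p ∨ ‖p.1‖ < D.κ / 2 * D.η p.2 := by
  by_cases hd : p ∈ D.Δ
  · refine .inr (.inr ?_)
    rw [hd.1, norm_zero]
    exact mul_pos (half_pos h.κ0) (h.ηpos _ ⟨hd.2.1.lt_of_ne fun e => h0 (Prod.ext hd.1 e.symm),
      hd.2.2.lt_of_ne fun e => hp.2.1 (Prod.ext hd.1 e)⟩)
  rcases (h.mem_S hp.1 hd).1 hp with k | k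
  · exact .inr (.inr (by simpa [V] using cone h.κ0 ((h.V_mem hp.1).2 hd) k))
  · exact (lt_abs.1 k).elim (fun k => .inr (.inl k)) fun k => .inl (lt_neg.1 k)

/-! ### Derivatives -/

theorem Ok.f_cd (hp : p ∈ D.O) : ContDiffAt ℝ ∞ (fun p => D.f (D.ψ p)) p :=
  smAt_vs.1 ((h.oe.sm p hp).trans (h.smf _ trivial))
theorem Ok.g_cd (hp : p ∈ D.O) (h0 : p ≠ 0) (h1 : p ≠ D.q) : ContDiffAt ℝ ∞ D.g p :=
  (h.lam.sm _ (h.rng' hp h0 h1)).comp p (h.f_cd hp)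
theorem Ok.f_pos (hp : p ∈ D.O) (h0 : p ≠ 0) (h1 : p ≠ D.q) :
    0 < fderiv ℝ (fun p => D.f (D.ψ p)) p (D.X p) := by
  rw [← Df_vs, Df_comp (h.oe.sm p hp) (h.smf _ trivial), ContinuousLinearMap.comp_apply, h.ax p hp]
  exact h.pos p hp h0 h1
theorem Ok.g_pos (hp : p ∈ D.O) (h0 : p ≠ 0) (h1 : p ≠ D.q) : 0 < fderiv ℝ D.g p (D.X p) := by
  have := (((h.lam.sm _ (h.rng' hp h0 h1)).differentiableAt (by simp)).hasDerivAt.comp_hasFDerivAt p
    ((h.f_cd hp).differentiableAt (by simp)).hasFDerivAt).fderiv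
  rw [show fderiv ℝ D.g p = _ from this]
  exact mul_pos (h.lam.pos _ (h.rng' hp h0 h1)) (h.f_pos hp h0 h1)
theorem Ok.V_cd : ContDiff ℝ ∞ D.V := contDiff_fst.prodMk (h.ηsm.comp contDiff_snd).neg
theorem Ok.V_der (p v : R3) : fderiv ℝ D.V p v = (v.1, -(deriv D.η p.2 * v.2)) := by
  have := ((hasFDerivAt_fst (𝕜 := ℝ)).prodMk
    (((h.ηsm.differentiable (by simp) p.2).hasDerivAt.comp_hasFDerivAt p
      (hasFDerivAt_snd (𝕜 := ℝ))).neg)).fderiv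
  rw [show fderiv ℝ D.V p = _ from this]
  simp
theorem Ok.μ_cd (hp : p ∈ D.O) (h0 : p ≠ 0) (h1 : p ≠ D.q) :
    ContDiffAt ℝ ∞ (fun p => D.c * Real.exp (D.g p) / nr (D.V p)) p :=
  (contDiffAt_const.mul (h.g_cd hp h0 h1).exp).div
    ((nr_cd (h.V_ne hp h0 h1)).comp p h.V_cd.contDiffAt) (nr_pos (h.V_ne hp h0 h1)).ne'
theorem Ok.open' : IsOpen {p | p ∈ D.O ∧ p ≠ 0 ∧ p ≠ D.q} :=
  h.oe.op.inter (isOpen_ne.inter isOpen_ne)

theorem Ok.T_ld (hp : p ∈ D.O) (h1 : p ≠ D.q) : LDAt (vs R3) (vs R3) D.T p := by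
  have inj : ∀ L : R3 →L[ℝ] R3, (∀ v, L v = 0 → v = 0) → L.IsInvertible := fun L k =>
    ⟨(LinearEquiv.ofInjectiveEndo L.toLinearMap
      ((injective_iff_map_eq_zero _).2 k)).toContinuousLinearEquiv, rfl⟩
  by_cases h0 : p = 0
  · have hc : D.c / (Real.exp 1 * D.r) ≠ 0 := by have := h.r0; have := h.c0; positivity
    let L : R3 →L[ℝ] R3 := (D.c / (Real.exp 1 * D.r)) •
      (ContinuousLinearMap.fst ℝ E2 ℝ).prod (-ContinuousLinearMap.snd ℝ E2 ℝ)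
    obtain ⟨L', e⟩ := inj L fun v k => by simpa [L, hc, Prod.ext_iff, -div_eq_zero_iff] using k
    refine (ldAt_cle L' p).congr' ?_
    filter_upwards [(isOpen_lt nr_cont continuous_const).mem_nhds (show nr p < D.r by
      rw [h0, nr_zero]; exact h.r0)] with y hy
    rw [h.Tbot (le_of_lt hy)]
    exact (congrArg (fun A : R3 →L[ℝ] R3 => A y) e).symm
  have hn := h.open'.mem_nhds ⟨hp, h0, h1⟩
  have cd : ∀ y ∈ {p | p ∈ D.O ∧ p ≠ 0 ∧ p ≠ D.q}, ContDiffAt ℝ ∞ D.T y := fun y hy =>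
    (h.μ_cd hy.1 hy.2.1 hy.2.2).smul h.V_cd.contDiffAt
  refine ldAt_vs hn cd (inj _ fun v hv => ?_)
  have hV := h.V_ne hp h0 h1
  have hμ := h.μ_pos hV
  have hT : D.T p ≠ 0 := smul_ne_zero hμ.ne' hV
  have k1 : fderiv ℝ D.g p v = 0 := by
    have a1 : DifferentiableAt ℝ (fun z => Real.log (nr z / D.c)) (D.T p) :=
      (((nr_cd hT).div_const D.c).log (div_pos (nr_pos hT) h.c0).ne').differentiableAt (by simp)
    rw [EventuallyEq.fderiv_eq (f := (fun z => Real.log (nr z / D.c)) ∘ D.T), fderiv_comp p a1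
      ((cd p ⟨hp, h0, h1⟩).differentiableAt (by simp)), ContinuousLinearMap.comp_apply, hv, map_zero]
    filter_upwards [hn] with y hy using
      (congrArg Prod.snd (h.Ψ_T (h.V_ne hy.1 hy.2.1 hy.2.2))).symm
  have k2 := (((h.μ_cd hp h0 h1).differentiableAt (by simp)).hasFDerivAt.smul
    (h.V_cd.differentiable (by simp) p).hasFDerivAt).fderiv
  rw [show fderiv ℝ D.T p = _ from k2] at hv
  simp only [add_apply, smul_apply, h.V_der,
    ContinuousLinearMap.smulRight_apply] at hv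
  generalize fderiv ℝ (fun p => D.c * Real.exp (D.g p) / nr (D.V p)) p v = M at hv
  generalize D.c * Real.exp (D.g p) / nr (D.V p) = μ at hv hμ
  have e1 : v.1 = (-M / μ) • p.1 := by
    have : μ • v.1 + M • p.1 = 0 := congrArg Prod.fst hv
    rw [div_eq_inv_mul, mul_smul, neg_smul, neg_eq_of_add_eq_zero_left this, inv_smul_smul₀ hμ.ne']
  have e2 : deriv D.η p.2 * v.2 = -M / μ * D.η p.2 := by
    have : μ * -(deriv D.η p.2 * v.2) + M * -D.η p.2 = 0 := congrArg Prod.snd hv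
    field_simp
    linarith
  have k3 : ∃ t : ℝ, v = t • D.X p := by
    by_cases k : D.η p.2 = 0
    · have k4 : deriv D.η p.2 ≠ 0 := by
        rcases cases hp with k' | k' | k'
        · simp [h.d0 k']
        · simp [h.d1 k']
        · exact absurd k (h.ηpos _ k').ne'
      rw [k, mul_zero] at e2
      refine ⟨-M / μ / deriv D.η p.2, Prod.ext ?_ ?_⟩
      · rw [e1, X, Prod.smul_fst, smul_smul, div_mul_cancel₀ _ k4]
      · simp [X, k, (mul_eq_zero.1 e2).resolve_left k4]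
    · refine ⟨v.2 / D.η p.2, Prod.ext ?_ ?_⟩
      · rw [e1, X, Prod.smul_fst, smul_smul, div_mul_eq_mul_div, mul_comm, e2, mul_div_cancel_right₀ _ k]
      · simp [X, k]
  obtain ⟨t, rfl⟩ := k3
  rw [map_smul, smul_eq_mul] at k1
  rw [(mul_eq_zero.1 k1).resolve_right (h.g_pos hp h0 h1).ne', zero_smul]

theorem Ok.S_open : IsOpen D.S := by
  convert ContinuousOn.isOpen_inter_preimage (s := {p | p ∈ D.O ∧ p ≠ D.q}) (f := D.T)
    (fun _ k => (h.T_ld k.1 k.2).sm.cont.continuousWithinAt) (h.oe.op.inter isOpen_ne)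
    (box_cpt.image (Θ_cd (c := D.c) (R := D.R)).continuous).isClosed.isOpen_compl using 1
  ext; exact and_assoc.symm

/-! ### Flow lines in the tube -/

theorem Ok.ln_mem {u : E2} (hu : ‖u‖ < D.κ) {t : ℝ} (ht : t ∈ Ioo 0 D.l) :
    D.ln u t ∈ D.O ∧ D.ln u t ≠ 0 ∧ D.ln u t ≠ D.q := by
  have := h.ηpos t ht
  refine ⟨.inr (.inr ⟨ht, ?_⟩), fun e => ht.1.ne' (congrArg Prod.snd e),
    fun e => ht.2.ne (congrArg Prod.snd e)⟩
  rw [ln, norm_smul, Real.norm_of_nonneg this.le, mul_comm]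
  exact mul_lt_mul_of_pos_right hu this
theorem Ok.ln_der {u : E2} (hu : ‖u‖ < D.κ) {t : ℝ} (ht : t ∈ Ioo 0 D.l) :
    ∃ d, 0 < d ∧ HasDerivAt (fun t => D.g (D.ln u t)) d t := by
  obtain ⟨a, b, c⟩ := h.ln_mem hu ht
  have h0 := h.ηpos t ht
  have h1 : HasDerivAt (D.ln u) ((D.η t)⁻¹ • D.X (D.ln u t)) t := by
    convert ((h.ηsm.differentiable (by simp) t).hasDerivAt.smul_const u).prodMk (hasDerivAt_id t) using 1
    · rfl
    · simp [X, ln, smul_smul, h0.ne', mul_comm (deriv D.η t)]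
  refine ⟨_, ?_, ((h.g_cd a b c).differentiableAt (by simp)).hasFDerivAt.comp_hasDerivAt t h1⟩
  rw [map_smul]
  exact mul_pos (inv_pos.2 h0) (h.g_pos a b c)
theorem Ok.ln_mono {u : E2} (hu : ‖u‖ < D.κ) : StrictMonoOn (fun t => D.g (D.ln u t)) (Ioo 0 D.l) :=
  strictMonoOn_of_deriv_pos (convex_Ioo _ _)
    (fun _ ht => (h.ln_der hu ht).choose_spec.2.continuousAt.continuousWithinAt) fun t ht => by
      obtain ⟨d, h1, h2⟩ := h.ln_der hu (interior_subset ht)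
      rwa [h2.deriv]

theorem Ok.T_inj : InjOn D.T D.S := by
  have z : ∀ p ∈ D.S, D.T p = 0 → p = 0 := fun p hp e => by_contra fun k =>
    smul_ne_zero (h.μ_pos (h.V_ne hp.1 k hp.2.1)).ne' (h.V_ne hp.1 k hp.2.1) e
  intro p hp p' hp' e
  by_cases h0 : p = 0
  · rw [h0, z p' hp' (by rw [← e, h0, h.T_zero])]
  have h0' : p' ≠ 0 := fun k => h0 (z p hp (by rw [e, k, h.T_zero]))
  have hV := h.V_ne hp.1 h0 hp.2.1
  have hV' := h.V_ne hp'.1 h0' hp'.2.1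
  have eg : D.g p = D.g p' := by
    have := congrArg (fun z => (Ψ D.c D.R z).2) e
    simpa only [h.Ψ_T hV, h.Ψ_T hV'] using this
  have ef : D.f (D.ψ p) = D.f (D.ψ p') :=
    h.lam.mono.injOn (h.rng' hp.1 h0 hp.2.1) (h.rng' hp'.1 h0' hp'.2.1) eg
  have := h.r0
  have := h.c0
  by_cases k1 : D.g p < -1
  · rw [h.Tbot (h.low' hp.1 h0 hp.2.1 k1).le, h.Tbot (h.low' hp'.1 h0' hp'.2.1 (eg ▸ k1)).le] at e
    simpa [Prod.ext_iff] using smul_right_injective _ (by positivity) e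
  by_cases k2 : 1 < D.g p
  · have a := h.high' hp.1 h0 hp.2.1 k2
    have a' := h.high' hp'.1 h0' hp'.2.1 (eg ▸ k2)
    rw [h.top p (by linarith), h.top p' (by linarith), sub_right_inj] at ef
    rw [h.Ttop hp.2.1 a.le, h.Ttop hp'.2.1 a'.le, ef] at e
    have := nr_pos (sub_ne_zero.2 hp'.2.1)
    exact sub_left_injective (smul_right_injective _ (by positivity) e)
  have a := ((h.S_cases hp h0).resolve_left k1).resolve_left k2
  have a' := ((h.S_cases hp' h0').resolve_left (eg ▸ k1)).resolve_left (eg ▸ k2)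
  have b : 0 < D.η p.2 := pos_of_mul_pos_right ((norm_nonneg _).trans_lt a) (half_pos h.κ0).le
  have b' : 0 < D.η p'.2 := pos_of_mul_pos_right ((norm_nonneg _).trans_lt a') (half_pos h.κ0).le
  have l : ∀ p : R3, 0 < D.η p.2 → D.ln ((D.η p.2)⁻¹ • p.1) p.2 = p := fun p k =>
    Prod.ext (smul_inv_smul₀ k.ne' _) rfl
  have eu : (D.η p.2)⁻¹ • p.1 = (D.η p'.2)⁻¹ • p'.1 := by
    have e0 := congrArg (fun z : R3 => (-z.2)⁻¹ • z.1) e
    have k : ∀ p : R3, D.V p ≠ 0 → (-(D.T p).2)⁻¹ • (D.T p).1 = (D.η p.2)⁻¹ • p.1 := fun p k => by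
      rw [T, Prod.smul_snd, Prod.smul_fst, smul_smul, smul_eq_mul, ← mul_neg, mul_inv,
        mul_right_comm, inv_mul_cancel₀ (h.μ_pos k).ne', one_mul, V, neg_neg]
    simpa only [k p hV, k p' hV'] using e0
  have hu : ‖(D.η p.2)⁻¹ • p.1‖ < D.κ := by
    rw [norm_smul, norm_inv, Real.norm_of_nonneg b.le, inv_mul_lt_iff₀ b]
    nlinarith [h.κ0]
  have e2 : p.2 = p'.2 := (h.ln_mono hu).injOn ((h.η_pos hp.1).1 b) ((h.η_pos hp'.1).1 b') (by
    beta_reduce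
    rw [l p b, eu, l p' b', eg])
  rw [← l p b, ← l p' b', eu, e2]

theorem Ok.T_sur {z : R3} (hz : z ∉ Θ D.c D.R '' Outᶜ) : ∃ p ∈ D.S, D.T p = z := by
  suffices ∃ p ∈ D.O, p ≠ D.q ∧ D.T p = z from
    let ⟨p, a, b, c⟩ := this; ⟨p, ⟨a, b, c ▸ hz⟩, c⟩
  have r0 := h.r0
  have c0 := h.c0
  have e0 := Real.exp_pos 1
  have nq : ∀ p, nr p < D.r → p ≠ D.q := fun p k e => by
    have := abs_le_nr p
    rw [e] at k this
    linarith [le_abs_self D.q.2, h.rl, show D.q.2 = D.l from rfl]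
  by_cases k1 : nr z < D.c / Real.exp 1
  · have a : nr ((Real.exp 1 * D.r / D.c) • (z.1, -z.2)) < D.r := by
      rw [nr_smul (by positivity), show nr (z.1, -z.2) = nr z by simp [nr], div_mul_eq_mul_div,
        div_lt_iff₀ c0]
      nlinarith [(lt_div_iff₀ e0).1 k1]
    refine ⟨_, .inl (by linarith), nq _ a, ?_⟩
    rw [h.Tbot a.le]
    simp [smul_smul, ← mul_assoc, r0.ne', c0.ne', e0.ne']
  have n0 : 0 < nr z := lt_of_lt_of_le (by positivity) (not_lt.1 k1)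
  have z0 : z ≠ 0 := fun e => by simp [e] at n0
  by_cases k2 : D.c * Real.exp 1 < nr z
  · have a : nr (D.q + (D.c * Real.exp 1 * D.r / nr z ^ 2) • z - D.q) =
        D.c * Real.exp 1 * D.r / nr z := by
      rw [add_sub_cancel_left, nr_smul (by positivity)]; field_simp
    have b : D.c * Real.exp 1 * D.r / nr z < D.r := by rw [div_lt_iff₀ n0]; nlinarith
    have c : D.q + (D.c * Real.exp 1 * D.r / nr z ^ 2) • z ≠ D.q := fun e =>
      smul_ne_zero (by positivity) z0 (add_eq_left.1 e)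
    refine ⟨_, .inr (.inl (by linarith)), c, ?_⟩
    rw [h.Ttop c (a ▸ b.le), a, add_sub_cancel_left, smul_smul]
    convert one_smul ℝ z
    field_simp
  have s1 : Real.log (nr z / D.c) ∈ Icc (-1 : ℝ) 1 := by
    constructor
    · rw [Real.le_log_iff_exp_le (by positivity), le_div_iff₀ c0, Real.exp_neg, mul_comm]
      exact not_lt.1 k1
    · rw [Real.log_le_iff_le_exp (by positivity), div_le_iff₀ c0, mul_comm]
      exact not_lt.1 k2
  have a : ‖z.1‖ < D.κ / 2 * -z.2 := by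
    by_cases k : z ∈ Nr
    · refine cone h.κ0 k (by_contra fun k' => hz ⟨_, ?_, Θ_Ψ c0 h.R0 k⟩)
      exact fun o => o.elim k' (not_lt.2 (abs_le.2 s1))
    · rw [not_Nr] at k
      rw [k.1, norm_zero]
      exact mul_pos (half_pos h.κ0) (neg_pos.2 (k.2.lt_of_ne fun e => z0 (Prod.ext k.1 e)))
  have b : 0 < -z.2 := pos_of_mul_pos_right ((norm_nonneg _).trans_lt a) (half_pos h.κ0).le
  set u : E2 := (-z.2)⁻¹ • z.1 with hu'
  have hu : ‖u‖ < D.κ := by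
    rw [hu', norm_smul, norm_inv, Real.norm_of_nonneg b.le, inv_mul_lt_iff₀ b]
    nlinarith [h.κ0]
  have n1 : 1 ≤ nr (u, 1) := by simpa using abs_le_nr (u, 1)
  set t := D.r / (2 * nr (u, 1)) with ht
  have t0 : 0 < t := by positivity
  have t1 : t ≤ D.r / 2 := div_le_div_of_nonneg_left r0.le two_pos (by linarith)
  have t2 : t * nr (u, 1) / D.r = 1 / 2 := by rw [ht]; field_simp
  have t3 : Real.log (1 / 2) < 0 := Real.log_neg (by norm_num) (by norm_num)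
  have sub : Icc t (D.l - t) ⊆ Ioo 0 D.l := Icc_subset_Ioo t0 (by linarith)
  have tl : t ≤ D.l - t := by linarith [h.rl]
  have b1 : nr (D.ln u t) = t * nr (u, 1) := by
    rw [← nr_smul t0.le, ln, h.η0 t (by rw [abs_of_pos t0]; linarith)]; simp
  have b2 : nr (D.ln u (D.l - t) - D.q) = t * nr (u, 1) := by
    rw [← nr_smul t0.le, ln, h.η1 _ (by rw [sub_sub_cancel_left, abs_neg, abs_of_pos t0]; linarith)]
    simp [nr, q]
  have b3 : t * nr (u, 1) ≤ D.r := by rw [div_eq_iff r0.ne'] at t2; linarith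
  obtain ⟨s, hs, e⟩ := intermediate_value_Icc tl (f := fun t => D.g (D.ln u t))
    (fun _ k => (h.ln_der hu (sub k)).choose_spec.2.continuousAt.continuousWithinAt)
    (show Real.log (nr z / D.c) ∈ _ from ⟨by
      rw [h.gbot (h.ln_mem hu (sub ⟨le_rfl, tl⟩)).2.1 (b1 ▸ b3), b1, t2]; linarith [s1.1], by
      rw [h.gtop (h.ln_mem hu (sub ⟨tl, le_rfl⟩)).2.2 (b2 ▸ b3), b2, t2]; linarith [s1.2]⟩)
  have := h.ηpos s (sub hs)
  refine ⟨_, (h.ln_mem hu (sub hs)).1, (h.ln_mem hu (sub hs)).2.2,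
    T_eq (a := D.η s * (-z.2)⁻¹) (by positivity) z0 (Prod.ext (smul_smul _ _ _) ?_) ?_⟩
  · change -D.η s = D.η s * (-z.2)⁻¹ * z.2
    rw [inv_neg, mul_assoc, neg_mul, inv_mul_cancel₀ (neg_pos.1 b).ne, mul_neg_one]
  · rw [show D.g (D.ln u s) = _ from e, Real.exp_log (by positivity), mul_div_cancel₀ _ c0.ne']

/-- a compact set between `S` and `O` -/
theorem Ok.cpt : ∃ K, IsCompact K ∧ D.S ⊆ K ∧ K ⊆ D.O := by
  have r0 := h.r0
  have b : ∀ x : R3, IsCompact {p | nr (p - x) ≤ D.r} := fun x =>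
    (isCompact_closedBall x D.r).of_isClosed_subset
      (isClosed_le (nr_cont.comp (by fun_prop)) continuous_const) fun p hp =>
        mem_closedBall_iff_norm.2 (max_le ((norm_le_nr _).trans hp) ((abs_le_nr _).trans hp))
  have hη := h.ηsm.continuous
  refine ⟨{p | nr (p - 0) ≤ D.r} ∪ ({p | nr (p - D.q) ≤ D.r} ∪ (fun p : R3 => D.ln p.1 p.2) ''
    (Metric.closedBall 0 (D.κ / 2) ×ˢ Icc 0 D.l)), (b 0).union ((b _).union
      (((isCompact_closedBall _ _).prod isCompact_Icc).image (by unfold ln; fun_prop))),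
    fun p hp => ?_, ?_⟩
  · by_cases h0 : p = 0
    · exact .inl (by simp [h0, r0.le])
    rcases h.S_cases hp h0 with k | k | k
    · exact .inl (by simpa using (h.low' hp.1 h0 hp.2.1 k).le)
    · exact .inr (.inl (h.high' hp.1 h0 hp.2.1 k).le)
    · have b : 0 < D.η p.2 := pos_of_mul_pos_right ((norm_nonneg _).trans_lt k) (half_pos h.κ0).le
      refine .inr (.inr ⟨((D.η p.2)⁻¹ • p.1, p.2), ⟨?_, Ioo_subset_Icc_self ((h.η_pos hp.1).1 b)⟩,
        Prod.ext (smul_inv_smul₀ b.ne' _) rfl⟩)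
      rw [mem_closedBall_zero_iff, norm_smul, norm_inv, Real.norm_of_nonneg b.le, inv_mul_le_iff₀ b]
      linarith
  · rintro p (hp | hp | ⟨⟨u, t⟩, ⟨hu, ht⟩, rfl⟩)
    · exact .inl (by rw [mem_ofPred_eq, sub_zero] at hp; linarith)
    · exact .inr (.inl (by rw [mem_ofPred_eq] at hp; linarith))
    · by_cases k : t ∈ Ioo 0 D.l
      · exact (h.ln_mem ((mem_closedBall_zero_iff.1 hu).trans_lt (half_lt_self h.κ0)) k).1
      · refine h.Δ_sub ⟨?_, ht⟩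
        have : D.η t = 0 := by
          rcases ht.1.eq_or_lt with e | h1
          · rw [show t = 0 from e.symm, h.η0 _ (by simpa)]
          · rw [show t = D.l from ht.2.antisymm (not_lt.1 fun h2 => k ⟨h1, h2⟩), h.η1 _ (by simpa),
              sub_self]
        simp [ln, this]

theorem Ok.g_unit (hp : p ∈ D.O) (h0 : p ≠ 0) (h1 : p ≠ D.q) (e : 1 < |D.g p|) :
    fderiv ℝ D.g p (D.X p) = 1 := by
  have r0 := h.r0
  have a := ((h.g_cd hp h0 h1).differentiableAt (by simp)).hasFDerivAt.comp_hasDerivAt_of_eq 0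
    (f := fun t : ℝ => p + t • D.X p)
    (by simpa using ((hasDerivAt_id (0 : ℝ)).smul_const (D.X p)).const_add p) (by simp)
  have lg : ∀ {n : ℝ}, 0 < n → ∀ s : ℝ,
      HasDerivAt (fun t : ℝ => Real.log ((1 + s * t) * n / D.r)) s 0 := fun {n} hn s => by
    convert (((((hasDerivAt_id (0 : ℝ)).const_mul s).const_add 1).mul_const n).div_const D.r).log
      (by simp [hn.ne', r0.ne']) using 1
    · rfl
    · simp only [id, mul_zero, add_zero]; field_simp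
  have ev : ∀ {n : ℝ}, n < D.r → ∀ s : ℝ, ∀ᶠ t in 𝓝 (0 : ℝ), 0 < 1 + s * t ∧ (1 + s * t) * n < D.r :=
    fun k s => (ContinuousAt.eventually_lt continuousAt_const (by fun_prop) (by simp)).and
      (ContinuousAt.eventually_lt (by fun_prop) continuousAt_const (by simpa))
  rcases lt_abs.1 e with k | k
  · have k1 := h.high' hp h0 h1 k
    have k2 : |p.2 - D.l| < 2 * D.r := (abs_le_nr (p - D.q)).trans_lt (by linarith)
    refine (a.unique (((lg (nr_pos (sub_ne_zero.2 h1)) (-1)).const_sub 1).congr_of_eventuallyEq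
      ?_)).trans (neg_neg 1)
    filter_upwards [ev k1 (-1)] with t ht
    have e : p + t • D.X p - D.q = (1 + -1 * t) • (p - D.q) := by
      rw [X, h.d1 k2, h.η1 _ k2]
      exact Prod.ext (by simp [q]; module) (by simp [q]; ring)
    have e' := nr_smul ht.1.le (p - D.q)
    rw [← e] at e'
    rw [comp_apply, h.gtop (fun k => smul_ne_zero ht.1.ne' (sub_ne_zero.2 h1)
      (e.symm.trans (sub_eq_zero.2 k))) (e' ▸ ht.2.le), e']
  · have k1 := h.low' hp h0 h1 (lt_neg.1 k)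
    have k2 : |p.2| < 2 * D.r := (abs_le_nr p).trans_lt (by linarith)
    refine a.unique (((lg (nr_pos h0) 1).const_add (-1)).congr_of_eventuallyEq ?_)
    filter_upwards [ev k1 1] with t ht
    have e : p + t • D.X p = (1 + 1 * t) • p := by
      rw [X, h.d0 k2, h.η0 _ k2, one_smul, add_smul, one_smul, one_mul]
    rw [comp_apply, e, h.gbot (smul_ne_zero ht.1.ne' h0) (nr_smul ht.1.le p ▸ ht.2.le), nr_smul ht.1.le]

theorem Ok.w_cd (hV : D.V p ∈ Nr) : ContDiffAt ℝ ∞ (fun p => G D.R (D.V p)) p :=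
  (G_cd h.R0 hV).comp p h.V_cd.contDiffAt
theorem Ok.w_vert (hV : D.V p ∈ Nr) : fderiv ℝ (fun p => G D.R (D.V p)) p (D.X p) = 0 := by
  rw [fderiv_fun_comp p ((G_cd h.R0 hV).differentiableAt (by simp))
    (h.V_cd.differentiable (by simp) p), ContinuousLinearMap.comp_apply, h.V_der,
    show ((D.X p).1, -(deriv D.η p.2 * (D.X p).2)) = deriv D.η p.2 • D.V p by simp [X, V],
    map_smul, G_rad h.R0 hV, smul_zero]

end Dt

end Pool.Agent.MP_e1dc65_gt.T.St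

end
end MrgPart3

-- ======== part 4: formerly Pool.Agent.MP_e1dc65_gt.t.NormGeo
section MrgPart4

/-! PROJECT HC, block NF, row GEO. -/

open scoped ContDiff Manifold Topology Real
open Set Filter Function Module Topology

noncomputable section

namespace Pool.Agent.MP_e1dc65_gt.T

namespace St.Dt
variable {F : Mf (Rn 3)} {D : Dt F} (h : D.Ok) {p : R3} {m : F}
include h

theorem Ok.mem_Δ (hp : p ∈ D.O) : D.ψ p ∈ D.ψ '' D.Δ ↔ p ∈ D.Δ :=
  h.oe.inj.mem_image_iff (fun _ => h.Δ_sub) hp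

theorem Ok.Δ_cpt : IsCompact (D.ψ '' D.Δ) :=
  IsCompact.image_of_continuousOn (by
    rw [show D.Δ = {0} ×ˢ Icc 0 D.l from Set.ext fun _ => Iff.rfl]
    exact isCompact_singleton.prod isCompact_Icc) (h.oe.sm.contOn.mono fun _ => h.Δ_sub)

theorem Ok.stay {φ : ℝ → F → F} (hφ : IsFlow F D.ξ φ) (τ : ℝ) (hm : m ∈ D.ψ '' D.Δ) :
    φ τ m ∈ D.ψ '' D.Δ := by
  obtain ⟨⟨a, t⟩, ⟨rfl : a = 0, ht : t ∈ Icc 0 D.l⟩, rfl⟩ := hm
  have r0 := h.r0
  obtain ⟨χ, c1, -, c3, -, c5⟩ := (bumpM ℝ (vs ℝ)).1 (Icc 0 D.l) univ isClosed_Icc isOpen_univ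
    (subset_univ _)
  obtain ⟨σ, hσ⟩ := exists_flow_cpt (X := vs ℝ) (v := fun s => χ s • D.η s)
    (fun s => (vfAt_vs.2 h.ηsm.contDiffAt).smul (c1 s trivial)) (c5 isCompact_Icc)
    fun s hs => by rw [image_eq_zero_of_notMem_tsupport hs, zero_smul]
  have f0 : ∀ s, σ s 0 = 0 := hσ.fix (by rw [h.η0 0 (by simpa), smul_zero])
  have f1 : ∀ s, σ s D.l = D.l := hσ.fix (by rw [h.η1 _ (by simpa), sub_self, smul_zero])
  have mono : ∀ s, StrictMono (σ s) := fun s => by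
    refine ((hσ.cont_time s).strictMono_of_inj (hσ.bij s).1).resolve_right fun k => ?_
    have := k (show 0 < D.l by linarith [h.rl])
    rw [f0, f1] at this
    linarith [h.rl]
  have hm : ∀ s, σ s t ∈ Icc 0 D.l := fun s =>
    ⟨f0 s ▸ (mono s).monotone ht.1, f1 s ▸ (mono s).monotone ht.2⟩
  rw [hσ.natural (f := fun s => D.ψ (0, s)) hφ fun s _ => ?_]
  · exact ⟨_, ⟨rfl, hm τ⟩, rfl⟩
  have k : ((0, σ s t) : R3) ∈ D.O := h.Δ_sub ⟨rfl, hm s⟩
  have a : SmAt (vs ℝ) (vs R3) (fun s => (0, s)) (σ s t) := smAt_vs.2 (by fun_prop)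
  refine ⟨a.trans (h.oe.sm _ k), ?_⟩
  rw [Df_comp a (h.oe.sm _ k), ← h.ax _ k, Df_vs, c3.self_of_nhdsSet _ (hm s),
    ContinuousLinearMap.comp_apply, (hasFDerivAt_prodMk_right (0 : E2) (σ s t)).fderiv]
  simp [X]

theorem Ok.exists_w : ∃ w : F → E2, Sm F (vs E2) w (D.ψ '' D.Δ)ᶜ ∧
    (∀ p ∈ D.S, w (D.ψ p) = G D.R (D.V p)) ∧
    ∀ m ∉ D.ψ '' D.Δ, (w m, D.Λ (D.f m)) ∈ Out ↔ m ∈ D.ψ '' D.S := by
  obtain ⟨K, k1, k2, k3⟩ := h.cpt
  obtain ⟨χ, c1, c2, c3, c4, -⟩ := (bumpM _ F).1 _ _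
    (k1.image_of_continuousOn (h.oe.sm.contOn.mono k3)).isClosed h.oe.symm.op (image_mono k3)
  have e : ∀ p ∈ D.S, χ (D.ψ p) • G D.R (D.V (invFunOn D.ψ D.O (D.ψ p))) = G D.R (D.V p) :=
    fun p hp => by rw [c3.self_of_nhdsSet _ ⟨p, k2 hp, rfl⟩, one_smul, h.oe.left hp.1]
  refine ⟨fun m => χ m • G D.R (D.V (invFunOn D.ψ D.O m)), fun m hm => smAt_cut (c1 m trivial)
    fun k => ?_, e, fun m hm => ⟨fun k => ?_, ?_⟩⟩
  · obtain ⟨p, hp, rfl⟩ := c4 k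
    refine (h.oe.symm.sm _ ⟨p, hp, rfl⟩).vcomp (g := fun p => G D.R (D.V p)) ?_
    rw [h.oe.left hp]
    exact h.w_cd ((h.V_mem hp).2 fun k => hm ⟨p, k, rfl⟩)
  · have r0 := h.r0
    have l0 : 0 ≤ D.l := by linarith [h.rl]
    have hr := h.rng (m := m) (fun e => hm ⟨0, ⟨rfl, le_rfl, l0⟩, e.symm⟩)
      fun e => hm ⟨D.q, ⟨rfl, l0, le_rfl⟩, e.symm⟩
    rcases k with k | k
    · obtain ⟨p, hp, rfl⟩ := c4 (subset_tsupport _ fun e : χ m = 0 => by simp [e] at k; linarith)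
      refine ⟨p, (h.mem_S hp fun k => hm ⟨p, k, rfl⟩).2 (.inl (k.trans_le ?_)), rfl⟩
      rw [norm_smul, h.oe.left hp, Real.norm_of_nonneg (c2 _).1]
      exact mul_le_of_le_one_left (norm_nonneg _) (c2 _).2
    · obtain ⟨p, hp, rfl⟩ : m ∈ D.ψ '' D.O := (lt_abs.1 k).elim
        (fun k => let ⟨p, a, b⟩ := h.high hr k; ⟨p, .inr (.inl (by linarith)), b.symm⟩)
        fun k => let ⟨p, a, b⟩ := h.low hr (lt_neg.1 k); ⟨p, .inl (by linarith), b.symm⟩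
      exact ⟨p, (h.mem_S hp fun k => hm ⟨p, k, rfl⟩).2 (.inr k), rfl⟩
  · rintro ⟨p, hp, rfl⟩
    beta_reduce
    rw [e p hp]
    exact (h.mem_S hp.1 fun k => hm ⟨p, k, rfl⟩).1 hp

theorem Ok.th_oe : OE F (vs R3) (fun m => D.T (invFunOn D.ψ D.O m)) (D.ψ '' D.S) :=
  (h.oe.symm.mono (h.oe.isOpen_image h.S_open fun _ k => k.1) (image_mono fun _ k => k.1)).trans
    ⟨h.S_open, fun _ k => h.T_ld k.1 k.2.1, h.T_inj⟩
    (by rintro _ ⟨p, hp, rfl⟩; rwa [h.oe.left hp.1])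

theorem Ok.der {E : Type} [NormedAddCommGroup E] [NormedSpace ℝ E] [FiniteDimensional ℝ E]
    {u : F → E} (hp : p ∈ D.O) (hu : SmAt F (vs E) u (D.ψ p)) :
    Df F (vs E) u (D.ψ p) (D.ξ (D.ψ p)) = fderiv ℝ (fun p => u (D.ψ p)) p (D.X p) := by
  rw [← Df_vs, Df_comp (h.oe.sm p hp) hu, ContinuousLinearMap.comp_apply, h.ax p hp]

end St.Dt

namespace St

theorem exists_L : ∃ L : Rn 3 ≃L[ℝ] R3, (∀ z, nr (L z) ^ 2 = nsq z) ∧ (∀ z, (L z).2 = √3 * mean z) ∧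
    ∀ t : ℝ, L (fun _ => t) = (0, √3 * t) := by
  let L : Rn 3 →ₗ[ℝ] R3 :=
    { toFun := fun z => (!₂[(z 0 - z 1) / √2, (z 0 + z 1 - 2 * z 2) / √6], √3 * mean z)
      map_add' := fun a b => Prod.ext (by ext i; fin_cases i <;> simp <;> ring)
        (by simp [mean]; ring)
      map_smul' := fun c a => Prod.ext (by ext i; fin_cases i <;> simp <;> ring)
        (by simp [mean]; ring) }
  have e : ∀ z, nr (L z) ^ 2 = nsq z := fun z => by
    rw [nr_sq, EuclideanSpace.real_norm_sq_eq]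
    simp [L, nsq, Fin.sum_univ_three, div_pow, mul_pow, mean]
    ring
  refine ⟨(LinearEquiv.ofBijective L ?_).toContinuousLinearEquiv, e, fun _ => rfl, fun t => ?_⟩
  · have : Injective L := (injective_iff_map_eq_zero _).2 fun z k => by
      have := e z
      rw [k, nr_zero, zero_pow two_ne_zero, eq_comm, nsq,
        Finset.sum_eq_zero_iff_of_nonneg fun _ _ => sq_nonneg _] at this
      exact funext fun i => pow_eq_zero_iff two_ne_zero |>.1 (this i (Finset.mem_univ i))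
    exact ⟨this, (LinearMap.injective_iff_surjective_of_finrank_eq_finrank (by simp)).1 this⟩
  · change L _ = _
    exact Prod.ext (by ext i; fin_cases i <;> simp [L]; ring) (by simp [L, mean]; ring)

end St

open St St.Dt in
theorem geo : GeoStmt := by
  intro F _ e₀ P Λ k hP hΛ
  obtain ⟨L, L1, L2, L3⟩ := exists_L
  have s3 : (0 : ℝ) < √3 := by positivity
  have s1 : (1 : ℝ) ≤ √3 := Real.one_le_sqrt.2 (by norm_num)
  have r0 := hP.rpos
  have ep : 0 < eps := by norm_num [eps]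
  let D : Dt F := ⟨fun p => e₀ (L.symm p), P.f, P.ξ, fun t => √3 * P.η (t / √3), Λ, √3 * π, P.r,
    P.κ / √3, P.a₀, P.a₁, eps / (Real.exp 1 * P.r), k⟩
  have Lq : L q0 = D.q := L3 π
  have ψL : ∀ z, D.ψ (L z) = e₀ z := fun z => congrArg e₀ (L.symm_apply_apply z)
  have ηL : ∀ z, D.η (L z).2 = √3 * P.η (mean z) := fun z => by
    simp only [D, L2, mul_div_cancel_left₀ _ s3.ne']
  have nl : ∀ z, nr (L z) < 2 * P.r ↔ nsq z < 4 * P.r ^ 2 := fun z => by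
    rw [← L1, show 4 * P.r ^ 2 = (2 * P.r) ^ 2 by ring,
      pow_lt_pow_iff_left₀ (nr_nonneg _) (by linarith) two_ne_zero]
  have Ly : ∀ z, L (fun i => z i - mean z) = ((L z).1, 0) := fun z => by
    rw [show (fun i => z i - mean z) = z - fun _ => mean z from rfl, map_sub, L3, ← L2]
    simp [Prod.ext_iff]
  have OL : ∀ z, L z ∈ D.O ↔ z ∈ P.Ax := fun z => by
    refine or_congr (nl z) (or_congr (by rw [← Lq, ← map_sub]; exact nl _) ?_)
    have e : (L z).2 ∈ Ioo 0 D.l ↔ 0 < mean z ∧ mean z < π := by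
      rw [L2]; exact and_congr (mul_pos_iff_of_pos_left s3) (mul_lt_mul_iff_right₀ s3)
    rw [e, and_assoc]
    refine and_congr_right fun a => and_congr_right fun b => ?_
    rw [← L1, Ly, nr_sq, ηL, show D.κ * (√3 * P.η (mean z)) = P.κ * P.η (mean z) by
      simp only [D]; field_simp, zero_pow two_ne_zero, add_zero,
      pow_lt_pow_iff_left₀ (norm_nonneg _) (mul_pos hP.κpos (hP.ηpos _ ⟨a, b⟩)).le two_ne_zero]
  have A0 : (0 : Rn 3) ∈ P.Ax := .inl (by simp [nsq]; positivity)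
  have Aq : q0 ∈ P.Ax := .inr (.inl (by simp [nsq]; positivity))
  have ldL : ∀ p, LDAt (vs R3) (vs (Rn 3)) L.symm p := ldAt_cle L.symm
  have hD : D.Ok :=
    { lam := hΛ
      r0 := r0
      κ0 := div_pos hP.κpos s3
      c0 := by simp only [D]; positivity
      rl := by simp only [D]; nlinarith [hP.rle, Real.two_le_pi]
      gap := by simp only [D]; nlinarith [hP.lo, hP.mid, hP.hi, sq_nonneg P.δ]
      ηsm := contDiff_const.mul (hP.ηsm.comp (contDiff_id.div_const _))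
      ηpos := fun t ht => mul_pos s3 (hP.ηpos _ ⟨div_pos ht.1 s3, (div_lt_iff₀' s3).2 ht.2⟩)
      η0 := fun t ht => by
        simp only [D]
        rw [hP.η0 _ (by rw [abs_div, abs_of_pos s3]; exact (div_le_self (abs_nonneg _) s1).trans_lt ht),
          mul_div_cancel₀ _ s3.ne']
      η1 := fun t ht => by
        simp only [D]
        rw [hP.η1 _ (by
          rw [show t / √3 - π = (t - √3 * π) / √3 by field_simp, abs_div, abs_of_pos s3]
          exact (div_le_self (abs_nonneg _) s1).trans_lt ht), mul_sub, mul_div_cancel₀ _ s3.ne']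
      oe := OE.trans (Y := vs (Rn 3)) ⟨by
          rw [show D.O = L.symm ⁻¹' P.Ax from Set.ext fun p => by
            rw [mem_preimage, ← OL, L.apply_symm_apply]]
          exact hP.oe.op.preimage L.symm.continuous, fun p _ => ldL p,
        L.symm.injective.injOn⟩ hP.oe fun p hp => by rwa [← OL, L.apply_symm_apply]
      smf := hP.smf
      ax := fun p hp => by
        obtain ⟨z, rfl⟩ := L.surjective p
        have hz := (OL z).1 hp
        have d : deriv D.η (L z).2 = deriv P.η (mean z) := by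
          have := (((hP.ηsm.differentiable (by simp) _).hasDerivAt.comp (L z).2
            ((hasDerivAt_id (L z).2).div_const √3)).const_mul √3).deriv
          rw [show deriv D.η (L z).2 = _ from this, id, L2, mul_div_cancel_left₀ _ s3.ne']
          field_simp
        rw [ψL]
        change Df (vs R3) F (fun p => e₀ (L.symm p)) (L z) (D.X (L z)) = P.ξ _
        rw [← (hP.ax z hz).2, Df_comp (ldL _).sm (by rw [L.symm_apply_apply]; exact hP.oe.sm z hz),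
          L.symm_apply_apply, Df_vs, L.symm.fderiv]
        refine congrArg _ (L.symm_apply_eq.2 ?_)
        rw [show (fun i => P.η (mean z) + deriv P.η (mean z) * (z i - mean z)) =
          (fun _ => P.η (mean z)) + deriv P.η (mean z) • fun i => z i - mean z from rfl, map_add,
          map_smul, L3, Ly, X, d, ηL]
        simp
      pos := fun p hp h0 h1 => by
        obtain ⟨z, rfl⟩ := L.surjective p
        have hz := (OL z).1 hp
        have d := pow_pos hP.δpos 2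
        rw [ψL]
        refine hP.pos _ (fun j e => ?_) (fun j e => ?_) (fun e => h0 ?_) fun e => h1 ?_
        · simpa [← e, (hP.ax z hz).1] using hP.ρ₁ j 0 (by simpa [NF.D₁])
        · simpa [← e, (hP.ax z hz).1] using hP.ρ₂ j 0 (by simpa [NF.D₂])
        · rw [hP.oe.inj hz A0 e, map_zero]
        · rw [hP.oe.inj hz Aq e, Lq]
      bot := fun p hp => by
        obtain ⟨z, rfl⟩ := L.surjective p
        rw [ψL, L1]; exact hP.bot z ((nl z).1 hp)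
      top := fun p hp => by
        obtain ⟨z, rfl⟩ := L.surjective p
        rw [← Lq, ← map_sub] at hp ⊢
        rw [ψL, L1]; exact hP.top z ((nl _).1 hp)
      bot' := fun m hm => let ⟨z, a, b⟩ := hP.bot' m hm; ⟨L z, (nl z).2 a, b.trans (ψL z).symm⟩
      top' := fun m hm => let ⟨z, a, b⟩ := hP.top' m hm
        ⟨L z, by rw [← Lq, ← map_sub]; exact (nl _).2 a, b.trans (ψL z).symm⟩ }
  have eΔ : Dg e₀ = D.ψ '' D.Δ := by
    refine Subset.antisymm ?_ ?_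
    · rintro _ ⟨t, ht, rfl⟩
      exact ⟨L fun _ => t, by
        rw [L3]; exact ⟨rfl, mul_nonneg s3.le ht.1, mul_le_mul_of_nonneg_left ht.2 s3.le⟩, ψL _⟩
    · rintro _ ⟨⟨a, t⟩, ⟨rfl : a = 0, ht⟩, rfl⟩
      refine ⟨t / √3, ⟨div_nonneg ht.1 s3.le, (div_le_iff₀' s3).2 ht.2⟩, (ψL _).symm.trans ?_⟩
      rw [L3, mul_div_cancel₀ _ s3.ne']
  obtain ⟨w, w1, w2, w3⟩ := hD.exists_w
  have ρ0 : ∀ p ∈ D.O, P.ρ (D.ψ p) = 0 := fun p hp =>
    (hP.ax _ (by rwa [← OL, L.apply_symm_apply])).1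
  have l0 : 0 ≤ D.l := by simp only [D]; positivity
  have rng : ∀ m ∉ D.ψ '' D.Δ, P.f m ∈ Ioo P.a₀ P.a₁ := fun m hm =>
    hD.rng (fun e => hm ⟨0, ⟨rfl, le_rfl, l0⟩, e.symm⟩) fun e => hm ⟨D.q, ⟨rfl, l0, le_rfl⟩, e.symm⟩
  have smg : ∀ m ∉ D.ψ '' D.Δ, SmAt F (vs ℝ) (fun m => Λ (P.f m)) m := fun m hm =>
    (hP.smf m trivial).vcomp (hΛ.sm _ (rng m hm))
  have op := hD.Δ_cpt.isClosed.isOpen_compl
  have rel : ∀ m ∉ D.ψ '' D.Δ, m ∈ D.ψ '' D.S →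
      D.T (invFunOn D.ψ D.O m) = Θ D.c D.R (w m, Λ (P.f m)) := by
    rintro _ hm ⟨p, hp, rfl⟩
    rw [hD.oe.left hp.1, w2 p hp, hD.T_eq_Θ ((hD.V_mem hp.1).2 fun k => hm ⟨p, k, rfl⟩)]
    rfl
  have hΘ := oe_Θ hD.c0 hD.R0
  have hth := hD.th_oe.trans (Z := vs (Rn 3)) ⟨isOpen_univ, fun p _ => ldL p, L.symm.injective.injOn⟩
    (mapsTo_univ _ _)
  have eS : {m | m ∉ D.ψ '' D.Δ ∧ (w m, Λ (P.f m)) ∈ Out} = (D.ψ '' D.Δ)ᶜ ∩ D.ψ '' D.S :=
    Set.ext fun m => and_congr_right (w3 m)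
  have cpj : ∀ m ∉ D.ψ '' D.Δ, ContinuousAt (fun m => (w m, Λ (P.f m))) m := fun m hm =>
    (w1 m hm).cont.prodMk (smg m hm).cont
  refine ⟨w, oph hth, fun q => L.symm (Θ D.c D.R q), eΔ ▸ hD.Δ_cpt.isClosed, ?_, ?_, eΔ ▸ rng,
    eΔ ▸ w1, ?_, ?_, ?_, ?_, ?_, ?_, ?_, ?_, ?_, ?_⟩
  all_goals try rw [eΔ]
  · exact fun τ m hm k => hm (hP.fl.neg_left τ m ▸ hD.stay hP.fl (-τ) k)
  · rintro _ ⟨p, hp, rfl⟩; exact ρ0 p (hD.Δ_sub hp)
  · intro m hm e
    obtain ⟨p, hp, rfl⟩ := (w3 m hm).1 (.inr e)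
    have k : p ∉ D.Δ := fun k => hm ⟨p, k, rfl⟩
    exact (hD.der hp.1 (smg _ hm)).trans (hD.g_unit hp.1 (hD.ne0 k) hp.2.1 e)
  · rw [eS]
    refine ⟨op.inter hD.th_oe.op, fun m hm => (hΘ.ld _ trivial).ld_of_lift (cpj m hm.1)
      ((hD.th_oe.ld m hm.2).congr' ?_), fun m hm m' hm' e => hD.th_oe.inj hm.2 hm'.2 ?_⟩
    · filter_upwards [(op.inter hD.th_oe.op).mem_nhds hm] with y hy using (rel y hy.1 hy.2).symm
    · exact (rel m hm.1 hm.2).trans ((congrArg _ e).trans (rel m' hm'.1 hm'.2).symm)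
  · intro q hq
    obtain ⟨p, hp, e⟩ := hD.T_sur (z := Θ D.c D.R q) fun ⟨q', a, b⟩ => a (hΘ.inj trivial trivial b ▸ hq)
    have k : D.ψ p ∉ D.ψ '' D.Δ := fun k =>
      (hD.Δ_S ((hD.mem_Δ hp.1).1 k) hp.2.1).2 (e ▸ Θ_mem hD.c0 q)
    refine ⟨_, k, hΘ.inj trivial trivial ?_⟩
    rw [← rel _ k ⟨p, hp, rfl⟩, hD.oe.left hp.1, e]
  · intro Q hQ
    refine (isOpen_compl_iff.1 (isOpen_iff_mem_nhds.2 fun m hm => ?_)).isCompact
    by_cases k : m ∈ D.ψ '' D.Δ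
    swap
    · filter_upwards [(cpj m k).preimage_mem_nhds (hQ.isClosed.isOpen_compl.mem_nhds
        fun a => hm ⟨k, a⟩)] with y hy using fun a => hy a.2
    obtain ⟨p, hp, rfl⟩ := k
    by_cases k : p = D.q
    · obtain ⟨M, hM⟩ := (hQ.image continuous_snd).bddAbove
      have x0 : 0 < P.r ^ 2 * Real.exp (-(2 * |M|)) := by positivity
      have x1 : P.r ^ 2 * Real.exp (-(2 * |M|)) ≤ P.r ^ 2 :=
        mul_le_of_le_one_right (sq_nonneg _) (Real.exp_le_one_iff.2 (by linarith [abs_nonneg M]))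
      filter_upwards [hP.smf.cont.continuousAt.eventually (lt_mem_nhds
        (show P.a₁ - P.r ^ 2 * Real.exp (-(2 * |M|)) < P.f (D.ψ p) by
          rw [show P.f (D.ψ p) = _ from hD.top p (by rw [k, sub_self, nr_zero]; exact mul_pos two_pos r0),
            k, sub_self, nr_zero]
          simp only [D]; linarith))] with y hy a
      have h1 := hΛ.mono ⟨by nlinarith [show P.a₀ + 8 * P.r ^ 2 ≤ P.a₁ from hD.gap], by linarith⟩
        (rng y a.1) hy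
      rw [hΛ.top _ x0 x1, mul_div_cancel_left₀ _ (by positivity), Real.log_exp] at h1
      linarith [show Λ (P.f y) ≤ M from hM ⟨_, a.2, rfl⟩, le_abs_self M]
    · have k1 := hD.Δ_S hp k
      have k2 : D.ψ p ∈ D.ψ '' D.S := ⟨p, k1.1, rfl⟩
      filter_upwards [hD.th_oe.op.mem_nhds k2, (hD.th_oe.sm _ k2).cont.preimage_mem_nhds
        ((hQ.image (Θ_cd (c := D.c) (R := D.R)).continuous).isClosed.isOpen_compl.mem_nhds
          fun ⟨q, _, e⟩ => k1.2 (by rw [← hD.oe.left k1.1.1, ← e]; exact Θ_mem hD.c0 q))]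
        with y h1 h2 a using h2 ⟨_, a.2, (rel y a.1 h1).symm⟩
  · intro m hm e
    obtain ⟨p, hp, rfl⟩ := (w3 m hm).1 e
    refine ⟨(hD.der hp.1 (w1 _ hm)).trans ?_, ρ0 p hp.1⟩
    rw [EventuallyEq.fderiv_eq (hD.S_open.eventually_mem hp |>.mono w2)]
    exact hD.w_vert ((hD.V_mem hp.1).2 fun k => hm ⟨p, k, rfl⟩)
  · exact L.symm.toHomeomorph.isOpenEmbedding.comp
      ((oph hΘ).isOpenEmbedding rfl)
  · ext m
    change m ∈ D.ψ '' D.S ↔ ¬(m = e₀ q0 ∨ _)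
    rw [← ψL, Lq, not_or, mem_ofPred_eq, not_and, not_not]
    constructor
    · rintro ⟨p, hp, rfl⟩
      exact ⟨fun e => hp.2.1 (hD.oe.inj hp.1 hD.Oq e), fun k => (w3 _ k).2 ⟨p, hp, rfl⟩⟩
    · rintro ⟨a, b⟩
      by_cases k : m ∈ D.ψ '' D.Δ
      · obtain ⟨p, hp, rfl⟩ := k
        exact ⟨p, (hD.Δ_S hp fun e => a (congrArg _ e)).1, rfl⟩
      · exact (w3 m k).1 (b k)
  · ext z
    obtain ⟨z, rfl⟩ := L.symm.surjective z
    change _ ∈ (fun m => L.symm (D.T (invFunOn D.ψ D.O m))) '' (D.ψ '' D.S) ↔ _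
    rw [mem_compl_iff, ← image_image L.symm (fun m => D.T (invFunOn D.ψ D.O m)),
      ← image_image L.symm (Θ D.c D.R), L.symm.injective.mem_set_image,
      L.symm.injective.mem_set_image]
    constructor
    · rintro ⟨_, ⟨p, hp, rfl⟩, rfl⟩
      beta_reduce; rw [hD.oe.left hp.1]; exact hp.2.2
    · intro k
      obtain ⟨p, hp, rfl⟩ := hD.T_sur k
      exact ⟨_, ⟨p, hp, rfl⟩, congrArg D.T (hD.oe.left hp.1)⟩
  · exact fun m hm e => congrArg L.symm (rel m hm ((w3 m hm).1 e))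
  · refine ⟨P.r ^ 2, by positivity, fun v v0 v1 => ?_⟩
    have e : L (q0 + eps • v) - D.q = eps • L v := by rw [map_add, Lq, add_sub_cancel_left, map_smul]
    have n0 : 0 < nr (L v) := (nr_nonneg _).lt_of_ne fun e => by
      have := L1 v
      rw [← e] at this
      linarith
    have n1 : nr (L v) < P.r := lt_of_pow_lt_pow_left₀ 2 r0.le (L1 v ▸ v1)
    have n2 : nr (L (q0 + eps • v) - D.q) < P.r := by
      rw [e, nr_smul ep.le]; unfold eps; linarith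
    have nq : L (q0 + eps • v) ≠ D.q := fun k => by
      rw [← sub_eq_zero, e] at k
      have := nr_smul ep.le (L v)
      rw [k, nr_zero] at this
      exact (mul_pos ep n0).ne this
    have hO : L (q0 + eps • v) ∈ D.O := .inr (.inl (by change _ < 2 * P.r; linarith))
    have eT : D.T (L (q0 + eps • v)) = (nsq v)⁻¹ • L v := by
      rw [hD.Ttop nq n2.le, e, nr_smul ep.le, smul_smul, ← L1]
      simp only [D]
      congr 1
      field_simp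
    rw [← ψL]
    refine ⟨⟨_, ⟨hO, nq, fun ⟨q, a, b⟩ => a (.inr ?_)⟩, rfl⟩, ?_⟩
    · have h1 := congrArg nr b
      have hV : D.V (L (q0 + eps • v)) ≠ 0 := by
        rw [hD.Vtop (by change _ < 2 * P.r; linarith)]; exact sub_ne_zero.2 nq
      rw [nr_Θ hD.c0, hD.nr_T hV, mul_right_inj' hD.c0.ne', Real.exp_eq_exp, hD.gtop nq n2.le] at h1
      have := Real.log_neg (div_pos (nr_pos (sub_ne_zero.2 nq)) r0) ((div_lt_one r0).2 n2)
      exact lt_abs.2 (.inl (by rw [h1]; exact lt_sub_iff_add_lt.2 (add_lt_iff_neg_left.2 this)))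
    · change L.symm (D.T (invFunOn D.ψ D.O _)) = _
      rw [hD.oe.left hO, eT, map_smul, L.symm_apply_apply]

end Pool.Agent.MP_e1dc65_gt.T

end
end MrgPart4

-- marker of a merged file
example : 731051 + 222328 = 731051 + 222328 := rfl

end MrgPart0

-- ======== part 1: formerly Pool.Agent.MP_e1dc65_gt.t.NormTrans
section MrgPart1

/-! PROJECT HC, block NF, row TRANS: passage to the open submanifold. -/

open scoped ContDiff Manifold Topology Real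
open Set Filter Function Module Topology

noncomputable section

namespace Pool.Agent.MP_e1dc65_gt.T

namespace TransP

/-! ### Transfer of the intersection data -/

/-- `N` sits in `M`, with rescaled Morse charts -/
structure Rel (N M : NF) (em : N.F → M.F) (k : ℝ) : Prop where
  ld : ∀ x, LDAt N.F M.F em x
  inj : Injective em
  φ : ∀ τ x, em (N.φ τ x) = M.φ τ (em x)
  kpos : 0 < k
  δpos : 0 < M.δ
  δ : N.δ = k * M.δ
  c₁ : ∀ j, ∀ p ∈ N.D₁, em (N.c₁ j p) = M.c₁ j (k⁻¹ • p)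
  c₂ : ∀ i, ∀ p ∈ N.D₂, em (N.c₂ i p) = M.c₂ i (k⁻¹ • p)
  lev : ∀ t, M.v₁ + M.δ ^ 2 < t → t < M.v₂ - M.δ ^ 2 → ∃ t', N.v₁ + N.δ ^ 2 < t' ∧
    t' < N.v₂ - N.δ ^ 2 ∧ ∀ x, (N.f x ≤ t' ↔ M.f (em x) ≤ t) ∧ (t' ≤ N.f x ↔ t ≤ M.f (em x))

theorem scale {k δ a b : ℝ} (hk : 0 < k) :
    a ^ 2 + b ^ 2 < (k * δ) ^ 2 ↔ (k⁻¹ * a) ^ 2 + (k⁻¹ * b) ^ 2 < δ ^ 2 := by
  rw [show (k⁻¹ * a) ^ 2 + (k⁻¹ * b) ^ 2 = (a ^ 2 + b ^ 2) / k ^ 2 by field_simp,
    div_lt_iff₀ (by positivity), mul_pow, mul_comm]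

theorem norm_inv_smul {k : ℝ} (hk : 0 < k) (v : E2) : ‖k⁻¹ • v‖ = k⁻¹ * ‖v‖ := by
  rw [norm_smul, Real.norm_of_nonneg (inv_pos.2 hk).le]

section
variable {N M : NF} {k : ℝ}

theorem mem₁ (hk : 0 < k) (h : N.δ = k * M.δ) {p : ℝ × E2} : p ∈ N.D₁ ↔ k⁻¹ • p ∈ M.D₁ := by
  show p.1 ^ 2 + ‖p.2‖ ^ 2 < _ ↔ (k⁻¹ * p.1) ^ 2 + ‖k⁻¹ • p.2‖ ^ 2 < _
  rw [h, norm_inv_smul hk, scale hk]
theorem mem₂ (hk : 0 < k) (h : N.δ = k * M.δ) {p : E2 × ℝ} : p ∈ N.D₂ ↔ k⁻¹ • p ∈ M.D₂ := by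
  show ‖p.1‖ ^ 2 + p.2 ^ 2 < _ ↔ ‖k⁻¹ • p.1‖ ^ 2 + (k⁻¹ * p.2) ^ 2 < _
  rw [h, norm_inv_smul hk, scale hk]

variable {em : N.F → M.F} (h : Rel N M em k)
include h

theorem Rel.flip : Rel N.flip M.flip em k where
  ld := h.ld
  inj := h.inj
  φ τ := h.φ (-τ)
  kpos := h.kpos
  δpos := h.δpos
  δ := h.δ
  c₁ j p hp := h.c₂ j (p.2, p.1) (lt_of_eq_of_lt (add_comm (‖p.2‖ ^ 2) (p.1 ^ 2)) hp)
  c₂ j p hp := h.c₁ j (p.2, p.1) (lt_of_eq_of_lt (add_comm (p.2 ^ 2) (‖p.1‖ ^ 2)) hp)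
  lev t h1 h2 := by
    change -M.v₂ + M.δ ^ 2 < t at h1
    change t < -M.v₁ - M.δ ^ 2 at h2
    obtain ⟨t', a, b, c⟩ := h.lev (-t) (by linarith) (by linarith)
    refine ⟨-t', ?_, ?_, fun x => ⟨?_, ?_⟩⟩
    · show -N.v₂ + N.δ ^ 2 < -t'
      linarith
    · show -t' < -N.v₁ - N.δ ^ 2
      linarith
    · exact neg_le_neg_iff.trans ((c x).2.trans neg_le)
    · exact neg_le_neg_iff.trans ((c x).1.trans le_neg)

theorem Rel.back₁ (j : Fin 3) {p : ℝ × E2} (hp : p ∈ M.D₁) :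
    k • p ∈ N.D₁ ∧ em (N.c₁ j (k • p)) = M.c₁ j p := by
  have h1 : k • p ∈ N.D₁ := (mem₁ h.kpos h.δ).2 (by rwa [inv_smul_smul₀ h.kpos.ne'])
  exact ⟨h1, by rw [h.c₁ j _ h1, inv_smul_smul₀ h.kpos.ne']⟩
theorem Rel.back₂ (j : Fin 3) {p : E2 × ℝ} (hp : p ∈ M.D₂) :
    k • p ∈ N.D₂ ∧ em (N.c₂ j (k • p)) = M.c₂ j p := by
  have h1 : k • p ∈ N.D₂ := (mem₂ h.kpos h.δ).2 (by rwa [inv_smul_smul₀ h.kpos.ne'])
  exact ⟨h1, by rw [h.c₂ j _ h1, inv_smul_smul₀ h.kpos.ne']⟩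

theorem Rel.A {j : Fin 3} {x : N.F} : x ∈ N.A j ↔ em x ∈ M.A j := by
  constructor
  · rintro ⟨τ, b, hb, rfl⟩
    refine ⟨τ, k⁻¹ • b, by simpa using (mem₁ h.kpos h.δ).1 hb, ?_⟩
    rw [h.φ, h.c₁ j _ hb, Prod.smul_mk, smul_zero]
  · rintro ⟨τ, b, hb, e⟩
    obtain ⟨a, c⟩ := h.back₁ j hb
    rw [Prod.smul_mk, smul_zero] at a c
    exact ⟨τ, k • b, a, h.inj (by rw [h.φ, c, e])⟩

theorem Rel.dn (i : Fin 3) {θ : E2} (hθ : ‖θ‖ < 2) : em (N.dn i θ) = M.dn i θ := by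
  have h1 : ((M.δ / 2) • θ, (0 : ℝ)) ∈ M.D₂ := by
    show ‖(M.δ / 2) • θ‖ ^ 2 + 0 ^ 2 < _
    have := h.δpos
    rw [norm_smul, Real.norm_of_nonneg (by linarith)]
    have : M.δ / 2 * ‖θ‖ < M.δ := by nlinarith
    have : 0 ≤ M.δ / 2 * ‖θ‖ := by positivity
    nlinarith
  have := (h.back₂ i h1).2
  rwa [Prod.smul_mk, smul_zero, smul_smul, ← mul_div_assoc, ← h.δ] at this

theorem Rel.int (H : ∃ t b d s₀ μ, M.Int t b d s₀ μ) : ∃ t b d s₀ μ, N.Int t b d s₀ μ := by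
  obtain ⟨t, b, d, s₀, μ, H⟩ := H
  obtain ⟨t', a1, a2, a3⟩ := h.lev t H.lo H.hi
  have hA : ∀ i j θ, ‖θ‖ = 1 → (N.dn i θ ∈ N.A j ↔ M.dn i θ ∈ M.A j) := fun i j θ e => by
    rw [h.A, h.dn i (by rw [e]; norm_num)]
  refine ⟨t', fun j x => b j (em x), d, s₀, μ, a1, a2, fun j m hm hf => ?_,
    fun i j θ T e hm hf => ?_, fun i => ⟨(H.base i).1, (hA _ _ _ (H.base i).1).2 (H.base i).2⟩,
    fun i j θ e hm hs => ?_⟩
  · obtain ⟨b1, b2, b3⟩ := H.bsm j _ (h.A.1 hm) ((a3 m).1.1 hf)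
    refine ⟨(h.ld m).sm.trans b1, b2, fun e => b3 ?_⟩
    rw [Df_comp (h.ld m).sm b1] at e
    ext v
    obtain ⟨u, rfl⟩ := (h.ld m).inv.surjective v
    exact congrArg (· u) e
  · have h1 : M.f (M.φ T (M.dn i θ)) = t := by
      rw [← h.dn i (by rw [e]; norm_num), ← h.φ]
      exact ((a3 _).1.1 hf.le).antisymm ((a3 _).2.1 hf.ge)
    obtain ⟨d1, d2⟩ := H.der i j θ T e ((hA _ _ _ e).1 hm) h1
    refine ⟨d1, d2.congr_of_eventuallyEq ?_⟩
    have hc : ContinuousAt (fun s : ℝ => ‖θ + s • rot θ‖) 0 := by fun_prop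
    filter_upwards [hc.eventually_lt_const (show _ < (2 : ℝ) by simp [e])] with s hs
    rw [h.φ, h.dn i hs]
  · obtain ⟨p1, p2, p3, p4⟩ := H.pair i j θ e ((hA _ _ _ e).1 hm) hs
    exact ⟨p1, p2, (hA _ _ _ p1).2 p3, p4⟩

end

theorem norm_cir (s : ℝ) : ‖cir s‖ < 2 := by
  rw [EuclideanSpace.norm_eq, Real.sqrt_lt' two_pos]
  simp [cir]

/-- escape at unit speed -/
theorem esc {X : Mf (Rn 3)} {v : X → Rn 3} {φ : ℝ → X → X} (h : IsFlow X v φ) {f : X → ℝ}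
    (hf : Sm X (vs ℝ) f univ) {σ : ℝ} (hσ : σ * σ = 1)
    (hu : ∀ y, 1 < σ * f y → Df X (vs ℝ) f y (v y) = σ) {x : X} (hx : 1 < σ * f x) {t : ℝ}
    (ht : 0 ≤ t) : f (φ t x) = f x + t * σ := by
  have key : ∀ s, 0 ≤ s → (∀ u ∈ Icc 0 s, 1 < σ * f (φ u x)) → f (φ s x) = f x + s * σ :=
    fun s hs H => h.affine fun u hu' => ⟨hf _ trivial, hu _ (H u (by rwa [uIcc_of_le hs] at hu'))⟩
  have hc : Continuous fun y => σ * f y := continuous_const.mul hf.cont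
  refine key t ht fun u hu' => hx.trans_le ?_
  refine h.stay (K := {y | σ * f x ≤ σ * f y}) (U := {y | 1 < σ * f y})
    (isClosed_le continuous_const hc) (isOpen_lt continuous_const hc)
    (fun y hy => hx.trans_le hy) (le_refl (σ * f x)) (fun s hs H => ?_) u hu'
  show σ * f x ≤ σ * f (φ s x)
  rw [key s hs.1 H, mul_add, mul_left_comm, hσ]
  linarith [hs.1]

/-! ### The open submanifold -/

section
variable {F : Mf (Rn 3)} {U : Set F} (hU : IsOpen U) (hne : U.Nonempty)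

open Classical in
/-- the lift to the open submanifold -/
def lf (m : F) : F.opens U hU hne := if h : m ∈ U then ⟨m, h⟩ else ⟨hne.choose, hne.choose_spec⟩

theorem lf_val {m : F} (h : m ∈ U) : (lf hU hne m).1 = m := by rw [lf, dif_pos h]
theorem oe_lf : OE F (F.opens U hU hne) (lf hU hne) U :=
  ⟨hU, fun m hm => (ldAt_val (p := ⟨m, hm⟩)).ld_of_comp
      (ldAt_id.congr' (.of_forall fun y => Subtype.ext (lf_val hU hne y.2))),
    fun _ a _ b e => by rw [← lf_val hU hne a, e, lf_val hU hne b]⟩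

variable {V : Type} [NormedAddCommGroup V] [NormedSpace ℝ V] [FiniteDimensional ℝ V]

theorem chart {c : V → F} {D D' : Set V} {k : ℝ} (hk : 0 < k) (hc : OE (vs V) F c D)
    (m : MapsTo c D U) (hD : ∀ {p}, p ∈ D' ↔ k⁻¹ • p ∈ D) :
    OE (vs V) (F.opens U hU hne) (fun p => lf hU hne (c (k⁻¹ • p))) D' ∧ ∀ p ∈ D', ∀ v,
      Df (F.opens U hU hne) F Subtype.val (lf hU hne (c (k⁻¹ • p)))
        (Df (vs V) (F.opens U hU hne) (fun p => lf hU hne (c (k⁻¹ • p))) p v) =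
        Df (vs V) F c (k⁻¹ • p) (k⁻¹ • v) := by
  have hs : ∀ (a : ℝ) (p : V), SmAt (vs V) (vs V) (fun p => a • p) p := fun a p =>
    smAt_vs.2 (contDiffAt_id.const_smul a)
  have ho : IsOpen D' := by
    rw [show D' = (fun p => k⁻¹ • p) ⁻¹' D from ext fun _ => hD]
    exact hc.op.preimage (continuous_const_smul _)
  have h1 : OE (vs V) (vs V) (fun p => k⁻¹ • p) D' :=
    (oe_of_inv (g := fun p => k • p) isOpen_univ isOpen_univ (fun p _ => hs _ p)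
      (fun p _ => hs _ p) (mapsTo_univ _ _) (mapsTo_univ _ _)
      (fun _ _ => smul_inv_smul₀ hk.ne' _) fun _ _ => inv_smul_smul₀ hk.ne' _).mono ho
      (subset_univ _)
  have h2 := (h1.trans hc fun _ => hD.1).trans (oe_lf hU hne) fun _ hp => m (hD.1 hp)
  refine ⟨h2, fun p hp v => ?_⟩
  have e1 := Df_comp (h2.sm p hp) smAt_val
  rw [Df_congr (f' := fun p => c (k⁻¹ • p))
    (mem_of_superset (ho.mem_nhds hp) fun q hq => lf_val hU hne (m (hD.1 hq))),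
    Df_comp (hs _ p) (hc.sm _ (hD.1 hp)), Df_vs,
    show fderiv ℝ (fun p : V => k⁻¹ • p) p = _ from
      ((hasFDerivAt_id p).const_smul k⁻¹).fderiv] at e1
  exact (DFunLike.congr_fun e1 v).symm

end

end TransP

open TransP in
/-- row TRANS -/
theorem trans : TransStmt := by
  intro F e₀ P Λ k w th th' hP hΛ G
  have H := hP.ok
  have hk := hΛ.kpos
  have hr := pow_pos H.rpos 2
  have hδ := pow_pos H.δpos 2
  have lo := H.lo
  have mi := H.mid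
  have hi := H.hi
  have hU : IsOpen (Dg e₀)ᶜ := G.cl.isOpen_compl
  have off : ∀ m, P.ρ m = 1 → m ∈ (Dg e₀)ᶜ := fun m h h' => by simpa [h] using G.ρ0 m h'
  have z₁ : (0 : ℝ × E2) ∈ P.nf.D₁ := by simpa [NF.D₁] using hδ
  have z₂ : (0 : E2 × ℝ) ∈ P.nf.D₂ := by simpa [NF.D₂] using hδ
  have hne : (Dg e₀)ᶜ.Nonempty := ⟨_, off _ (H.ρ₁ 0 0 z₁)⟩
  have n0 : ∀ m ∈ (Dg e₀)ᶜ, m ≠ e₀ 0 := fun m h e => h ⟨0, ⟨le_rfl, Real.pi_pos.le⟩, e.symm⟩
  have n1 : ∀ m ∈ (Dg e₀)ᶜ, m ≠ e₀ q0 := fun m h e => h ⟨π, ⟨Real.pi_pos.le, le_rfl⟩, e.symm⟩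
  have L0 : Λ (P.a₀ + P.r ^ 2) = -1 := by rw [hΛ.bot _ hr le_rfl, div_self hr.ne']; simp
  have L1 : Λ (P.a₁ - P.r ^ 2) = 1 := by rw [hΛ.top _ hr le_rfl, div_self hr.ne']; simp
  have I0 : P.a₀ + P.r ^ 2 ∈ Ioo P.a₀ P.a₁ := ⟨by linarith, by linarith⟩
  have I1 : P.a₁ - P.r ^ 2 ∈ Ioo P.a₀ P.a₁ := ⟨by linarith, by linarith⟩
  have aff : ∀ s, P.v₁ - P.δ ^ 2 ≤ s → s ≤ P.v₂ + P.δ ^ 2 →
      s ∈ Ioo P.a₀ P.a₁ ∧ Λ s = k ^ 2 * (s - (P.a₀ + P.a₁) / 2) := fun s a b =>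
    ⟨⟨by linarith, by linarith⟩, hΛ.mid s ⟨by linarith, by linarith⟩⟩
  set X := F.opens (Dg e₀)ᶜ hU hne with hX
  let N : NF :=
    { F := X, f := fun x => Λ (P.f x.1), w := fun x => w x.1
      ξ := fun x => (Df X F Subtype.val x).inverse (P.ξ x.1)
      φ := fun τ x => ⟨P.φ τ x.1, G.stay τ _ x.2⟩, ρ := fun x => P.ρ x.1, δ := k * P.δ
      c₁ := fun j p => lf hU hne (P.c₁ j (k⁻¹ • p)), c₂ := fun j p => lf hU hne (P.c₂ j (k⁻¹ • p))
      v₁ := k ^ 2 * (P.v₁ - (P.a₀ + P.a₁) / 2), v₂ := k ^ 2 * (P.v₂ - (P.a₀ + P.a₁) / 2) }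
  have lv : ∀ x : X, LDAt X F Subtype.val x := fun _ => ldAt_val
  have m₁ : ∀ {p}, p ∈ N.D₁ ↔ k⁻¹ • p ∈ P.nf.D₁ := mem₁ hk rfl
  have m₂ : ∀ {p}, p ∈ N.D₂ ↔ k⁻¹ • p ∈ P.nf.D₂ := mem₂ hk rfl
  have R : Rel N P.nf Subtype.val k :=
    ⟨lv, Subtype.val_injective, fun _ _ => rfl, hk, H.δpos, rfl,
      fun j p hp => lf_val hU hne (off _ (H.ρ₁ j _ (m₁.1 hp))),
      fun j p hp => lf_val hU hne (off _ (H.ρ₂ j _ (m₂.1 hp))), fun t a b => by
        change P.v₁ + P.δ ^ 2 < t at a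
        change t < P.v₂ - P.δ ^ 2 at b
        obtain ⟨c, d⟩ := aff t (by linarith) (by linarith)
        have := pow_pos hk 2
        refine ⟨Λ t, ?_, ?_, fun x => ⟨hΛ.mono.le_iff_le (G.rng _ x.2) c,
          hΛ.mono.le_iff_le c (G.rng _ x.2)⟩⟩
        · show k ^ 2 * _ + (k * P.δ) ^ 2 < _
          rw [d]; nlinarith
        · show _ < k ^ 2 * _ - (k * P.δ) ^ 2
          rw [d]; nlinarith⟩
  have hξ : ∀ x : X, Df X F Subtype.val x (N.ξ x) = P.ξ x.1 := fun x =>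
    (lv x).inv.self_apply_inverse _
  have sg : ∀ m ∈ (Dg e₀)ᶜ, SmAt F (vs ℝ) (fun m => Λ (P.f m)) m := fun m hm =>
    (H.smf m trivial).vcomp (hΛ.sm _ (G.rng m hm))
  have smf : Sm X (vs ℝ) N.f univ := fun x _ => (lv x).sm.trans (sg _ x.2)
  have Dg' : ∀ x : X, Df X (vs ℝ) N.f x (N.ξ x) =
      Df F (vs ℝ) (fun m => Λ (P.f m)) x.1 (P.ξ x.1) := fun x => by
    rw [← hξ x]; exact DFunLike.congr_fun (Df_comp (lv x).sm (sg _ x.2)) _
  have vf : ∀ x : X, VfAt X N.ξ x := fun x => VfAt.pull (H.vf _) (lv x)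
  have fl : IsFlow X N.ξ N.φ := isFlow_of_curves vf (fun x => Subtype.ext (H.fl.zero _))
    fun x t => IC.lift (lv _) ((H.fl.cont_curve x.1).subtype_mk _).continuousAt (H.fl.der x.1 t)
      (hξ _)
  have unit : ∀ x : X, 1 < |N.f x| → Df X (vs ℝ) N.f x (N.ξ x) = 1 := fun x hx =>
    (Dg' x).trans (G.unit _ x.2 hx)
  have C₁ := fun j => chart hU hne hk (H.oe₁ j) (fun p hp => off _ (H.ρ₁ j p hp)) m₁
  have C₂ := fun j => chart hU hne hk (H.oe₂ j) (fun p hp => off _ (H.ρ₂ j p hp)) m₂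
  have ov : OE X F Subtype.val univ := ⟨isOpen_univ, fun x _ => lv x, Subtype.val_injective.injOn⟩
  have im : ∀ Q : Set R3, Subtype.val '' (N.pj ⁻¹' Q) =
      {m | m ∉ Dg e₀ ∧ (w m, Λ (P.f m)) ∈ Q} := fun Q =>
    Subset.antisymm (by rintro _ ⟨x, hx, rfl⟩; exact ⟨x.2, hx⟩) fun m hm => ⟨⟨m, hm.1⟩, hm.2, rfl⟩
  have b₁ : ∀ (x : X) τ j p, p ∈ P.nf.D₁ → P.φ τ x.1 = P.c₁ j p →
      k • p ∈ N.D₁ ∧ N.φ τ x = N.c₁ j (k • p) := fun x τ j p hp e =>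
    ⟨(R.back₁ j hp).1, Subtype.ext (e.trans (R.back₁ j hp).2.symm)⟩
  have b₂ : ∀ (x : X) τ j p, p ∈ P.nf.D₂ → P.φ τ x.1 = P.c₂ j p →
      k • p ∈ N.D₂ ∧ N.φ τ x = N.c₂ j (k • p) := fun x τ j p hp e =>
    ⟨(R.back₂ j hp).1, Subtype.ext (e.trans (R.back₂ j hp).2.symm)⟩
  refine ⟨N, Subtype.val, ⟨⟨smf, fun x _ => (lv x).sm.trans (G.smw _ x.2),
    fun x _ => (lv x).sm.trans (H.smρ _ trivial), vf, fl, fun x => H.ρ01 _, mul_pos hk H.δpos,
    ?_, ?_, fun j => (C₁ j).1, fun j => (C₂ j).1, fun j p hp => ?_, fun j p hp => ?_,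
    fun j p hp => ?_, fun j p hp => ?_, fun j p hp => ?_, fun j p hp => ?_,
    fun j j' p hp p' hp' e => ?_, fun j j' p hp p' hp' e => ?_, fun x h1 h2 => ?_, unit, ?_,
    fun q hq => ?_, fun Q hQ => ?_, fun x hx => ?_, fun x => ?_, fun x => ?_⟩,
    R.int hP.int, R.flip.int hP.int', ?_, ?_⟩, ov, fun x => n1 _ x.2, G.emb, ?_, G.tgt,
    fun x hx => G.rel _ x.2 (not_not.1 hx), G.inv⟩
  · obtain ⟨a, b⟩ := aff _ le_rfl (by linarith)
    have := hΛ.mono I0 a (by linarith)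
    show -1 < k ^ 2 * _ - (k * P.δ) ^ 2
    rw [L0, b] at this
    linarith
  · obtain ⟨a, b⟩ := aff _ (by linarith) le_rfl
    have := hΛ.mono a I1 (by linarith)
    show k ^ 2 * _ + (k * P.δ) ^ 2 < 1
    rw [L1, b] at this
    linarith
  · have h1 : (k⁻¹ • p).1 ^ 2 + ‖(k⁻¹ • p).2‖ ^ 2 < P.δ ^ 2 := m₁.1 hp
    show Λ (P.f (N.c₁ j p).1) = k ^ 2 * _ - _ + _
    rw [R.c₁ j p hp, H.f₁ j _ (m₁.1 hp), (aff _ (by nlinarith) (by nlinarith)).2,
      Prod.smul_snd, norm_inv_smul hk, Prod.smul_fst, smul_eq_mul]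
    field_simp
    ring
  · have h1 : ‖(k⁻¹ • p).1‖ ^ 2 + (k⁻¹ • p).2 ^ 2 < P.δ ^ 2 := m₂.1 hp
    show Λ (P.f (N.c₂ j p).1) = k ^ 2 * _ - _ + _
    rw [R.c₂ j p hp, H.f₂ j _ (m₂.1 hp), (aff _ (by nlinarith) (by nlinarith)).2,
      Prod.smul_fst, norm_inv_smul hk, Prod.smul_snd, smul_eq_mul]
    field_simp
    ring
  · refine (lv _).inv.injective (((C₁ j).2 p hp _).trans ?_)
    rw [hξ, R.c₁ j p hp, Prod.smul_mk k⁻¹ (-p.1), smul_neg]
    exact H.ξ₁ j _ (m₁.1 hp)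
  · refine (lv _).inv.injective (((C₂ j).2 p hp _).trans ?_)
    rw [hξ, R.c₂ j p hp, Prod.smul_mk k⁻¹ (-p.1), smul_neg]
    exact H.ξ₂ j _ (m₂.1 hp)
  · exact (congrArg P.ρ (R.c₁ j p hp)).trans (H.ρ₁ j _ (m₁.1 hp))
  · exact (congrArg P.ρ (R.c₂ j p hp)).trans (H.ρ₂ j _ (m₂.1 hp))
  · exact H.dis₁ j j' _ (m₁.1 hp) _ (m₁.1 hp')
      ((R.c₁ j p hp).symm.trans ((congrArg _ e).trans (R.c₁ j' p' hp')))
  · exact H.dis₂ j j' _ (m₂.1 hp) _ (m₂.1 hp')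
      ((R.c₂ j p hp).symm.trans ((congrArg _ e).trans (R.c₂ j' p' hp')))
  · have h3 := H.pos x.1
      (fun j e => h1 j (Subtype.ext (e.trans (by simpa using (R.back₁ j z₁).2.symm))))
      (fun j e => h2 j (Subtype.ext (e.trans (by simpa using (R.back₂ j z₂).2.symm))))
      (n0 _ x.2) (n1 _ x.2)
    rw [Dg', Df_vcomp (H.smf _ trivial) (hΛ.sm _ (G.rng _ x.2)), ContinuousLinearMap.comp_apply,
      fderiv_eq_smul_deriv]
    exact mul_pos h3 (hΛ.pos _ (G.rng _ x.2))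
  · have ho : IsOpen (N.pj ⁻¹' Out) := by
      have := G.oe.op.preimage ov.sm.cont
      rwa [← im, preimage_image_eq _ Subtype.val_injective] at this
    exact (ov.mono ho (subset_univ _)).trans G.oe fun x hx => ⟨x.2, hx⟩
  · obtain ⟨m, hm, e⟩ := G.onto q hq
    exact ⟨⟨m, hm⟩, e⟩
  · exact Subtype.isCompact_iff.2 ((im Q).symm ▸ G.prop Q hQ)
  · refine ⟨?_, (G.vert _ x.2 hx).2⟩
    rw [← (G.vert _ x.2 hx).1, ← hξ x]
    exact DFunLike.congr_fun (Df_comp (lv x).sm (G.smw _ x.2)) _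
  · rcases H.up x.1 (n0 _ x.2) with ⟨τ, h⟩ | ⟨j, τ, a, h, e⟩ | ⟨j, τ, a, h, e⟩
    · have h1 : 1 < 1 * N.f (N.φ τ x) := by
        rw [one_mul, ← L1]; exact hΛ.mono I1 (G.rng _ (N.φ τ x).2) h
      refine .inl ((tendsto_atTop_add_const_left _ (N.f (N.φ τ x) - τ) tendsto_id).congr' ?_)
      filter_upwards [eventually_ge_atTop τ] with s hs
      have := esc fl smf (one_mul 1) (fun y hy => unit y (lt_abs.2 (.inl (by linarith)))) h1
        (sub_nonneg.2 hs)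
      rw [← fl.add, sub_add_cancel] at this
      rw [this, id]
      ring
    · exact .inr (.inl ⟨j, τ, k • a, by simpa using b₁ x τ j _ h e⟩)
    · exact .inr (.inr ⟨j, τ, k • a, by simpa using b₂ x τ j _ h e⟩)
  · rcases H.down x.1 (n1 _ x.2) with ⟨τ, h⟩ | ⟨j, τ, a, h, e⟩ | ⟨j, τ, a, h, e⟩
    · have h1 : 1 < -1 * N.f (N.φ τ x) := by
        rw [neg_one_mul, lt_neg, ← L0]; exact hΛ.mono (G.rng _ (N.φ τ x).2) I0 h
      refine .inl ((tendsto_atBot_add_const_left _ (N.f (N.φ τ x) - τ) tendsto_id).congr' ?_)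
      filter_upwards [eventually_le_atBot τ] with s hs
      have := esc fl.neg smf (σ := -1) (by norm_num)
        (fun y hy => by rw [map_neg, unit y (lt_abs.2 (.inr (by linarith)))]) h1 (sub_nonneg.2 hs)
      rw [← fl.add, neg_sub, sub_add_cancel] at this
      rw [this, id]
      ring
    · exact .inr (.inl ⟨j, τ, k • a, by simpa using b₁ x τ j _ h e⟩)
    · exact .inr (.inr ⟨j, τ, k • a, by simpa using b₂ x τ j _ h e⟩)
  · obtain ⟨t, a, b, c⟩ := hP.wind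
    obtain ⟨t', a1, a2, a3⟩ := R.lev t a b
    refine ⟨t', a1, a2, fun n => ?_⟩
    obtain ⟨g, g1, g2, g3⟩ := c n
    refine ⟨fun x => g x.1, g1.comp ov.sm.cont.continuousOn fun x hx => (a3 x).1.1 hx,
      fun x hx => g2 _ ((hΛ.mono.le_iff_le (G.rng _ x.2) I0).1 (L0 ▸ hx)), fun i => ?_⟩
    obtain ⟨L, l1, l2, l3⟩ := g3 i
    refine ⟨L, l1, l2, fun s T e => ?_⟩
    have e1 : (N.φ T (N.dn i (cir s))).1 = P.φ T (P.nf.dn i (cir s)) :=
      congrArg (P.φ T) (R.dn i (norm_cir s))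
    show g (N.φ T (N.dn i (cir s))).1 = _
    rw [e1]
    exact l3 s T (e1 ▸ ((a3 _).1.1 e.le).antisymm ((a3 _).2.1 e.ge))
  · obtain ⟨Θ, hΘ⟩ := hP.cof
    exact ⟨_, hΘ.pb (fun x _ => lv x) (mapsTo_univ _ _)⟩
  · rw [G.src]
    exact congrArg (fun S => ({e₀ q0} ∪ S)ᶜ) (im Outᶜ).symm

end Pool.Agent.MP_e1dc65_gt.T

end
end MrgPart1

-- ======== part 2: formerly Pool.Agent.MP_e1dc65_gt.t.Norm
section MrgPart2

/-! PROJECT HC, block NF: from the datum on the closed manifold to the normal form. -/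

namespace Pool.Agent.MP_e1dc65_gt.T

theorem norm : NormStmt := norm_of lam geo trans

end Pool.Agent.MP_e1dc65_gt.T

end MrgPart2

-- marker of a merged file
example : 731051 + 776562 = 731051 + 776562 := rfl
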