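import Pool.Agent.MP_e1dc65_gt.t.PreSc
import Pool.Agent.MP_e1dc65_gt.t.PreCh
import Pool.Agent.MP_e1dc65_gt.t.PreAx
import Pool.Agent.MP_e1dc65_gt.t.PreVd
import Pool.Agent.MP_e1dc65_gt.t.PreFl
import Pool.Agent.MP_e1dc65_gt.t.PreGd
import Pool.Agent.MP_e1dc65_gt.t.PreFlip
import Pool.Agent.MP_e1dc65_gt.t.PreOk
import Pool.Agent.MP_e1dc65_gt.t.PreUp
import Pool.Agent.MP_e1dc65_gt.t.PreCof
import Pool.Agent.MP_e1dc65_gt.t.PreWind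
import Pool.Agent.MP_e1dc65_gt.t.PreInt
import Pool.Agent.MP_e1dc65_gt.t.PreBsm
import Pool.Agent.MP_e1dc65_gt.t.PreCls
import Pool.Agent.MP_e1dc65_gt.t.PreMem
import Pool.Agent.MP_e1dc65_gt.t.PreAxd
import Pool.Agent.MP_e1dc65_gt.t.PreSod
import Pool.Agent.MP_e1dc65_gt.t.Norm

/-! PROJECT HC, block NF: the normal form exists. -/

namespace Pool.Agent.MP_e1dc65_gt.T

theorem pre : PreStmt :=
  Pr.pre_of Pr.sc Pr.ch Pr.ax Pr.vd Pr.fl Pr.gd Pr.flip Pr.ok Pr.up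
    (Pr.int_of Pr.bsm Pr.cls Pr.mem Pr.axd Pr.sod) Pr.wind Pr.cof

theorem nf : NFStmt := nf_of pre norm

end Pool.Agent.MP_e1dc65_gt.T
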